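import Pool.Agent.Lib.MP_b6f35e_al.K2.SpecA

/-!
# K_2 theorem (MP_b6f35e_al), the abstract cocycle (helper62)

Proof text: /team-store/MP_b6f35e_al_K2_f2f3_h62.md.
-/

set_option autoImplicit false

noncomputable section

namespace Pool.Agent.Lib.MPb6f35e.K2

open Pool.Agent.Lib.MPb6f35e.WH

universe u v w

namespace ABSaux

section nmpp

variable {B : Type u} [Ring B] {N : ℕ} {ρ : B →+* B}

lemma iter_map_add (j : ℕ) (a b : B) : ρ^[j] (a + b) = ρ^[j] a + ρ^[j] b := by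
  induction j generalizing a b with
  | zero => rfl
  | succ j ih => rw [Function.iterate_succ_apply, Function.iterate_succ_apply,
      Function.iterate_succ_apply, map_add, ih]

lemma iter_map_sub (j : ℕ) (a b : B) : ρ^[j] (a - b) = ρ^[j] a - ρ^[j] b := by
  induction j generalizing a b with
  | zero => rfl
  | succ j ih => rw [Function.iterate_succ_apply, Function.iterate_succ_apply,
      Function.iterate_succ_apply, map_sub, ih]

lemma iter_map_mul (j : ℕ) (a b : B) : ρ^[j] (a * b) = ρ^[j] a * ρ^[j] b := by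
  induction j generalizing a b with
  | zero => rfl
  | succ j ih => rw [Function.iterate_succ_apply, Function.iterate_succ_apply,
      Function.iterate_succ_apply, map_mul, ih]

lemma iter_fix (j : ℕ) {r : B} (hr : ρ r = r) : ρ^[j] r = r :=
  Function.iterate_fixed hr j

lemma iter_nsmul (j n : ℕ) (b : B) : ρ^[j] (n • b) = n • ρ^[j] b := by
  induction j generalizing b with
  | zero => rfl
  | succ j ih => rw [Function.iterate_succ_apply, Function.iterate_succ_apply, map_nsmul, ih]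

lemma nm_add (a b : B) : nm ρ N (a + b) = nm ρ N a + nm ρ N b := by
  unfold nm
  rw [← Finset.sum_add_distrib]
  exact Finset.sum_congr rfl fun j _ => iter_map_add j a b

lemma nm_sub (a b : B) : nm ρ N (a - b) = nm ρ N a - nm ρ N b := by
  unfold nm
  rw [← Finset.sum_sub_distrib]
  exact Finset.sum_congr rfl fun j _ => iter_map_sub j a b

lemma nm_nsmul (n : ℕ) (b : B) : nm ρ N (n • b) = n • nm ρ N b := by
  unfold nm
  rw [Finset.smul_sum]
  exact Finset.sum_congr rfl fun j _ => iter_nsmul j n b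

lemma nm_mul_fix (a : B) {r : B} (hr : ρ r = r) : nm ρ N (a * r) = nm ρ N a * r := by
  unfold nm
  rw [Finset.sum_mul]
  exact Finset.sum_congr rfl fun j _ => by rw [iter_map_mul, iter_fix j hr]

lemma nm_fix_mul (a : B) {r : B} (hr : ρ r = r) : nm ρ N (r * a) = r * nm ρ N a := by
  unfold nm
  rw [Finset.mul_sum]
  exact Finset.sum_congr rfl fun j _ => by rw [iter_map_mul, iter_fix j hr]

lemma nm_of_fix {r : B} (hr : ρ r = r) : nm ρ N r = N • r := by
  unfold nm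
  rw [Finset.sum_congr rfl fun j _ => iter_fix j hr, Finset.sum_const, Finset.card_range]

lemma pp_sub (a b : B) : pp ρ N (a - b) = pp ρ N a - pp ρ N b := by
  unfold pp
  rw [← Finset.sum_sub_distrib]
  exact Finset.sum_congr rfl fun j _ => by rw [iter_map_sub, smul_sub]

lemma pp_mul_fix (a : B) {r : B} (hr : ρ r = r) : pp ρ N (a * r) = pp ρ N a * r := by
  unfold pp
  rw [Finset.sum_mul]
  exact Finset.sum_congr rfl fun j _ => by rw [iter_map_mul, iter_fix j hr, smul_mul_assoc]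

lemma nm_rho (hrot : ∀ b, ρ^[N] b = b) (b : B) : nm ρ N (ρ b) = nm ρ N b := by
  unfold nm
  have h1 : ∑ j ∈ Finset.range N, ρ^[j] (ρ b) = ∑ j ∈ Finset.range N, ρ^[j + 1] b :=
    Finset.sum_congr rfl fun j _ => by rw [Function.iterate_succ_apply]
  rw [h1]
  have h2 := Finset.sum_range_succ' (fun j => ρ^[j] b) N
  have h3 := Finset.sum_range_succ (fun j => ρ^[j] b) N
  rw [h3] at h2
  rw [hrot b] at h2
  simp only [Function.iterate_zero, id_eq] at h2
  exact (add_right_cancel h2).symm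

lemma rho_nm (hrot : ∀ b, ρ^[N] b = b) (b : B) : ρ (nm ρ N b) = nm ρ N b := by
  have h : ρ (nm ρ N b) = nm ρ N (ρ b) := by
    unfold nm
    rw [map_sum]
    exact Finset.sum_congr rfl fun j _ =>
      (Function.iterate_succ_apply' ρ j b).symm.trans (Function.iterate_succ_apply ρ j b)
  rw [h, nm_rho hrot]

lemma nm_kap (hrot : ∀ b, ρ^[N] b = b) (q : B) : nm ρ N (q - ρ q) = 0 := by
  rw [nm_sub, nm_rho hrot, sub_self]

/-- `M(q - ρ q) = Nm q - N q`. -/
lemma pp_kap (hrot : ∀ b, ρ^[N] b = b) (q : B) :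
    pp ρ N (q - ρ q) = nm ρ N q - N • q := by
  have h1 : pp ρ N (ρ q) = ∑ j ∈ Finset.range N, (j + 1) • ρ^[j + 1] q - nm ρ N (ρ q) := by
    unfold pp nm
    rw [← Finset.sum_sub_distrib]
    refine Finset.sum_congr rfl fun j _ => ?_
    rw [Function.iterate_succ_apply, add_smul, one_smul, add_sub_cancel_right]
  have h2 := Finset.sum_range_succ' (fun j => j • ρ^[j] q) N
  have h3 := Finset.sum_range_succ (fun j => j • ρ^[j] q) N
  rw [h3, hrot q] at h2
  simp only [zero_smul, add_zero] at h2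
  rw [pp_sub, h1, ← h2, nm_rho hrot]
  unfold pp
  abel

end nmpp

section main

variable {B : Type u} {S : Type v} {H : Type w} [Ring B] [Ring S] [AddCommGroup H] {N : ℕ}
  {ρ : B →+* B} {i : B →+* S} {τ : Sˣ} {d : S →+ S} {φ : S →+ S →+ H}

/-- `e' = Σ j τ^j` -/
def eP (N : ℕ) (τ : Sˣ) : S := ∑ j ∈ Finset.range N, j • (τ : S) ^ j

lemma tauN' (h : IsDat N ρ i τ d φ) : (τ : S) ^ N = 1 := by
  have h1 := h.tauN
  rw [← Units.val_pow_eq_pow_val, h1, Units.val_one]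

lemma N_smul (h : IsDat N ρ i τ d φ) (x : S) : N • x = 0 := by
  rw [nsmul_eq_mul, h.charN, zero_mul]

lemma i_N_smul (h : IsDat N ρ i τ d φ) (b : B) : i (N • b) = 0 := by
  rw [map_nsmul, N_smul h]

lemma tau_pow_comm (h : IsDat N ρ i τ d φ) (b : B) (j : ℕ) :
    (τ : S) ^ j * i b = i (ρ^[j] b) * (τ : S) ^ j := by
  induction j generalizing b with
  | zero => simp
  | succ j ih => rw [pow_succ, mul_assoc, h.conj, ← mul_assoc, ih, Function.iterate_succ_apply,
      mul_assoc]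

lemma shift_sum (h : IsDat N ρ i τ d φ) :
    ∑ j ∈ Finset.range N, (τ : S) ^ (j + 1) = eS N τ := by
  have h2 := Finset.sum_range_succ' (fun j => (τ : S) ^ j) N
  have h3 := Finset.sum_range_succ (fun j => (τ : S) ^ j) N
  rw [h3, tauN' h, pow_zero] at h2
  exact (add_right_cancel h2).symm

lemma tau_e (h : IsDat N ρ i τ d φ) : (τ : S) * eS N τ = eS N τ := by
  conv_lhs => rw [eS, Finset.mul_sum]
  rw [← shift_sum h]
  exact Finset.sum_congr rfl fun j _ => by rw [pow_succ']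

lemma e_tau (h : IsDat N ρ i τ d φ) : eS N τ * (τ : S) = eS N τ := by
  conv_lhs => rw [eS, Finset.sum_mul]
  rw [← shift_sum h]
  exact Finset.sum_congr rfl fun j _ => by rw [pow_succ]

lemma tau_pow_e (h : IsDat N ρ i τ d φ) (j : ℕ) : (τ : S) ^ j * eS N τ = eS N τ := by
  induction j with
  | zero => rw [pow_zero, one_mul]
  | succ j ih => rw [pow_succ, mul_assoc, tau_e h, ih]

lemma e_omt (h : IsDat N ρ i τ d φ) : eS N τ * (1 - (τ : S)) = 0 := by
  rw [mul_sub, mul_one, e_tau h, sub_self]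

lemma omt_e (h : IsDat N ρ i τ d φ) : (1 - (τ : S)) * eS N τ = 0 := by
  rw [sub_mul, one_mul, tau_e h, sub_self]

lemma ebe (h : IsDat N ρ i τ d φ) (b : B) :
    eS N τ * (i b * eS N τ) = i (nm ρ N b) * eS N τ := by
  conv_lhs => rw [eS, Finset.sum_mul]
  unfold nm
  rw [map_sum, Finset.sum_mul]
  refine Finset.sum_congr rfl fun j _ => ?_
  rw [← mul_assoc, tau_pow_comm h, mul_assoc]
  exact congrArg _ (tau_pow_e h j)

lemma Pbe (h : IsDat N ρ i τ d φ) (b : B) :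
    eP N τ * (i b * eS N τ) = i (pp ρ N b) * eS N τ := by
  conv_lhs => rw [eP, Finset.sum_mul]
  unfold pp
  rw [map_sum, Finset.sum_mul]
  refine Finset.sum_congr rfl fun j _ => ?_
  rw [smul_mul_assoc, ← mul_assoc, tau_pow_comm h, mul_assoc, tau_pow_e h j, map_nsmul,
    smul_mul_assoc]

lemma e_fix (h : IsDat N ρ i τ d φ) {r : B} (hr : ρ r = r) :
    eS N τ * i r = i r * eS N τ := by
  unfold eS
  rw [Finset.sum_mul, Finset.mul_sum]
  refine Finset.sum_congr rfl fun j _ => ?_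
  rw [tau_pow_comm h, iter_fix j hr]

lemma P_fix (h : IsDat N ρ i τ d φ) {r : B} (hr : ρ r = r) :
    eP N τ * i r = i r * eP N τ := by
  unfold eP
  rw [Finset.sum_mul, Finset.mul_sum]
  refine Finset.sum_congr rfl fun j _ => ?_
  rw [smul_mul_assoc, tau_pow_comm h, iter_fix j hr, mul_smul_comm]

lemma d_one (h : IsDat N ρ i τ d φ) : d 1 = 0 := by
  rw [← map_one i, h.d_i]

lemma d_tau_pow (h : IsDat N ρ i τ d φ) (j : ℕ) : d ((τ : S) ^ j) = j • (τ : S) ^ j := by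
  induction j with
  | zero => rw [pow_zero, d_one h, zero_smul]
  | succ j ih => rw [pow_succ, h.d_mul, ih, h.d_tau, smul_mul_assoc, add_smul, one_smul]

lemma d_e (h : IsDat N ρ i τ d φ) : d (eS N τ) = eP N τ := by
  unfold eS eP
  rw [map_sum]
  exact Finset.sum_congr rfl fun j _ => d_tau_pow h j

lemma d_be (h : IsDat N ρ i τ d φ) (b : B) : d (i b * eS N τ) = i b * eP N τ := by
  rw [h.d_mul, h.d_i, zero_mul, zero_add, d_e h]

lemma ebP (h : IsDat N ρ i τ d φ) (b : B) :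
    eS N τ * (i b * eP N τ) = i (nm ρ N b) * eP N τ - i (pp ρ N b) * eS N τ := by
  have h1 := congrArg d (ebe h b)
  rw [h.d_mul, d_e h, d_be h, d_be h, Pbe h] at h1
  exact eq_sub_of_add_eq' h1

lemma tau_P (h : IsDat N ρ i τ d φ) : (τ : S) * eP N τ = eP N τ - eS N τ := by
  have h1 := congrArg d (tau_e h)
  rw [h.d_mul, d_e h, h.d_tau, tau_e h] at h1
  exact eq_sub_of_add_eq' h1

lemma P_tau (h : IsDat N ρ i τ d φ) : eP N τ * (τ : S) = eP N τ - eS N τ := by
  have h1 := congrArg d (e_tau h)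
  rw [h.d_mul, d_e h, h.d_tau, e_tau h] at h1
  exact eq_sub_of_add_eq h1

lemma P_omt (h : IsDat N ρ i τ d φ) : eP N τ * (1 - (τ : S)) = eS N τ := by
  rw [mul_sub, mul_one, P_tau h, sub_sub_cancel]

/-! pairing -/

lemma phi_r1 (h : IsDat N ρ i τ d φ) (a : S) : φ a 1 = 0 := by
  have h1 := h.H1 a 1 1
  rw [mul_one, mul_one, one_mul] at h1
  exact left_eq_add.mp h1

lemma phi_anti (h : IsDat N ρ i τ d φ) (a b : S) : φ a b = - φ b a := by
  have h1 := h.H1 1 a b
  rw [h.H2, one_mul, mul_one] at h1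
  exact eq_neg_of_add_eq_zero_left h1.symm

/-- `g(z) = ⟨z, τ⟩` -/
def gg (i : B →+* S) (τ : Sˣ) (φ : S →+ S →+ H) (z : B) : H := φ (i z) τ

lemma gg_add (a b : B) : gg i τ φ (a + b) = gg i τ φ a + gg i τ φ b := by
  simp [gg]

lemma gg_sub (a b : B) : gg i τ φ (a - b) = gg i τ φ a - gg i τ φ b := by
  simp [gg]

lemma gg_neg (a : B) : gg i τ φ (- a) = - gg i τ φ a := by
  simp [gg]

lemma h3r (h : IsDat N ρ i τ d φ) (z : B) {j : ℕ} (hj : j < N) (h0 : j ≠ 0) :
    φ (i z * (τ : S) ^ j) τ = 0 := by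
  have h1 := h.H3 z 1 j 1 (by
    intro hh
    rw [Nat.cast_add, Nat.cast_one, add_eq_right] at hh
    rw [ZMod.natCast_eq_zero_iff] at hh
    exact absurd (Nat.le_of_dvd (Nat.pos_of_ne_zero h0) hh) (not_le.mpr hj))
  rw [map_one, one_mul, pow_one] at h1
  exact h1

lemma gte (h : IsDat N ρ i τ d φ) (z : B) : φ (i z * eS N τ) τ = gg i τ φ z := by
  unfold eS gg
  rw [Finset.mul_sum, map_sum, AddMonoidHom.finsetSum_apply, Finset.sum_eq_single 0]
  · rw [pow_zero, mul_one]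
  · intro j hj h0
    exact h3r h z (Finset.mem_range.mp hj) h0
  · intro h0
    exact absurd (Finset.mem_range.mpr h.pos) h0

lemma gtP (h : IsDat N ρ i τ d φ) (z : B) : φ (i z * eP N τ) τ = 0 := by
  unfold eP
  rw [Finset.mul_sum, map_sum, AddMonoidHom.finsetSum_apply]
  refine Finset.sum_eq_zero fun j hj => ?_
  rcases eq_or_ne j 0 with rfl | h0
  · rw [zero_smul, mul_zero, map_zero, AddMonoidHom.zero_apply]
  · rw [mul_smul_comm, map_nsmul, AddMonoidHom.nsmul_apply, h3r h z (Finset.mem_range.mp hj) h0,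
      smul_zero]

lemma phi_tau_e (h : IsDat N ρ i τ d φ) (z : B) : φ τ (i z * eS N τ) = - gg i τ φ z := by
  rw [phi_anti h, gte h]

lemma phi_omt_e (h : IsDat N ρ i τ d φ) (z : B) :
    φ (1 - (τ : S)) (i z * eS N τ) = gg i τ φ z := by
  rw [map_sub, AddMonoidHom.sub_apply, h.H2, phi_tau_e h, zero_sub, neg_neg]

lemma kap_e (h : IsDat N ρ i τ d φ) (q : B) :
    i (q - ρ q) * eS N τ = (1 - (τ : S)) * (i q * eS N τ) := by
  rw [sub_mul, one_mul, ← mul_assoc, h.conj, mul_assoc (i (ρ q)), tau_e h, map_sub, sub_mul]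

/-- (R) -/
lemma RR (h : IsDat N ρ i τ d φ) (q : B) (z : B) :
    φ (i (q - ρ q) * eS N τ) (i z * eS N τ) = gg i τ φ (q * nm ρ N z) := by
  have h1 := h.H1 (1 - (τ : S)) (i q * eS N τ) (i z * eS N τ)
  have h2 : i z * eS N τ * (1 - (τ : S)) = 0 := by rw [mul_assoc, e_omt h, mul_zero]
  have h3 : i q * eS N τ * (i z * eS N τ) = i (q * nm ρ N z) * eS N τ := by
    rw [mul_assoc, ebe h, ← mul_assoc, ← map_mul]
  rw [h2, h3, map_zero, AddMonoidHom.zero_apply, add_zero, phi_omt_e h] at h1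
  rw [kap_e h, ← h1]

lemma kap_mul {r : B} (hr : ρ r = r) (q : B) : (q - ρ q) * r = q * r - ρ (q * r) := by
  rw [map_mul, hr, sub_mul]

lemma RRr (h : IsDat N ρ i τ d φ) (q : B) {r : B} (hr : ρ r = r) (z : B) :
    φ (i ((q - ρ q) * r) * eS N τ) (i z * eS N τ) = gg i τ φ (q * r * nm ρ N z) := by
  rw [kap_mul hr, RR h]

lemma inv_k (h : IsDat N ρ i τ d φ) {s : Sˣ} {q : B} (hs : (s : S) = 1 + i (q - ρ q) * eS N τ) :
    ((s⁻¹ : Sˣ) : S) = 1 - i (q - ρ q) * eS N τ := by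
  refine Units.inv_eq_of_mul_eq_one_right ?_
  rw [hs, add_mul, one_mul, mul_sub, mul_one, mul_assoc, ebe h, nm_kap h.rotN, map_zero, zero_mul,
    mul_zero, sub_zero, sub_add_cancel]

lemma i_pp_kap (h : IsDat N ρ i τ d φ) (q : B) : i (pp ρ N (q - ρ q)) = i (nm ρ N q) := by
  rw [pp_kap h.rotN, map_sub, i_N_smul h, sub_zero]

lemma D_k (h : IsDat N ρ i τ d φ) {s : Sˣ} {q : B} (hs : (s : S) = 1 + i (q - ρ q) * eS N τ) :
    ((s⁻¹ : Sˣ) : S) * d s
      = i (q - ρ q) * eP N τ + i ((q - ρ q) * nm ρ N q) * eS N τ := by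
  rw [inv_k h hs, hs, map_add, d_one h, zero_add, d_be h, sub_mul, one_mul, mul_assoc, ebP h,
    nm_kap h.rotN, map_zero, zero_mul, zero_sub, mul_neg, sub_neg_eq_add, i_pp_kap h, map_mul,
    mul_assoc]

/-- `e κ e' = - n e` -/
lemma ekP (h : IsDat N ρ i τ d φ) (q : B) :
    eS N τ * (i (q - ρ q) * eP N τ) = - (i (nm ρ N q) * eS N τ) := by
  rw [ebP h, nm_kap h.rotN, map_zero, zero_mul, zero_sub, i_pp_kap h]

/-- `κ r e` is killed by `e` on the left -/
lemma ekre (h : IsDat N ρ i τ d φ) (q : B) {r : B} (hr : ρ r = r) :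
    eS N τ * (i ((q - ρ q) * r) * eS N τ) = 0 := by
  rw [ebe h, nm_mul_fix _ hr, nm_kap h.rotN, zero_mul, map_zero, zero_mul]

theorem coc : SpecCOC.{u, v, w} := by
  intro B S H _ _ _ N ρ i τ d φ h
  refine ⟨fun x y z => ?_, fun x => ⟨?_, ?_⟩⟩
  · have h1 : (((x * y)⁻¹ : Sˣ) : S) * d ((x * y : Sˣ) : S)
        = ((y⁻¹ : Sˣ) : S) * (((x⁻¹ : Sˣ) : S) * d x) * y + ((y⁻¹ : Sˣ) : S) * d y := by
      rw [mul_inv_rev, Units.val_mul, Units.val_mul, h.d_mul, mul_add]
      congr 1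
      · simp only [mul_assoc]
      · rw [mul_assoc, Units.inv_mul_cancel_left]
    have h2 : ((((y * z)⁻¹ : Sˣ)) : S) = ((z⁻¹ : Sˣ) : S) * ((y⁻¹ : Sˣ) : S) := by
      rw [mul_inv_rev, Units.val_mul]
    have h3 := h.H1 (((z⁻¹ : Sˣ) : S) * (((y⁻¹ : Sˣ) : S) * (((x⁻¹ : Sˣ) : S) * d x))) y z
    unfold cc
    rw [h1, h2, Units.val_mul, mul_assoc (((z⁻¹ : Sˣ) : S)), h3, Units.mul_inv_cancel_left, mul_add,
      map_add, AddMonoidHom.add_apply]
    simp only [mul_assoc]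
    abel
  · unfold cc
    rw [Units.val_one, d_one h, mul_zero, mul_zero, map_zero, AddMonoidHom.zero_apply]
  · unfold cc
    rw [Units.val_one, phi_r1 h]

theorem f1 : SpecF1.{u, v, w} := by
  intro B S H _ _ _ N ρ i τ d φ h s q hs
  have hK : InK N ρ i τ s := ⟨q, hs⟩
  unfold fK
  rw [dif_pos hK]
  set q' := hK.choose with hq'
  have hs' : (s : S) = 1 + i (q' - ρ q') * eS N τ := hK.choose_spec
  have h1 : i ((q - ρ q) - (q' - ρ q')) * eS N τ = 0 := by
    rw [hs] at hs'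
    rw [map_sub, sub_mul, add_left_cancel hs', sub_self]
  obtain ⟨y, hy⟩ := h.inj _ h1
  have h2 : nm ρ N y = 0 := by
    apply h.tf
    rw [← nm_nsmul, ← hy, nm_sub, nm_kap h.rotN, nm_kap h.rotN, sub_self]
  obtain ⟨w, hw⟩ := h.ker y h2
  set r := q - q' - N • w with hr
  have h3 : ρ r = r := by
    have h4 : (q - ρ q) - (q' - ρ q') = N • w - ρ (N • w) := by
      rw [hy, hw, smul_sub, map_nsmul]
    rw [hr, map_sub, map_sub]
    have h5 : (q - ρ q) - (q' - ρ q') - (N • w - ρ (N • w)) = 0 := sub_eq_zero.mpr h4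
    rw [← sub_eq_zero, ← neg_eq_zero, ← h5]
    abel
  have h6 : q = q' + r + N • w := by rw [hr]; abel
  have h7 : i q = i q' + i r := by
    rw [h6, map_add, map_add, i_N_smul h, add_zero]
  have h8 : i (nm ρ N q) = i (nm ρ N q') := by
    rw [h6, nm_add, nm_add, nm_nsmul, nm_of_fix h3, map_add, map_add, i_N_smul h, i_N_smul h,
      add_zero, add_zero]
  have h9 : i (q * (1 + nm ρ N q)) = i (q' * (1 + nm ρ N q')) + i (r * (1 + nm ρ N q')) := by
    simp only [map_mul, map_add, map_one, h7, h8, add_mul]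
  have h10 : φ (i (r * (1 + nm ρ N q'))) τ = 0 := by
    apply h.H4
    rw [map_mul, map_add, map_one, rho_nm h.rotN, h3]
  rw [h9, map_add, AddMonoidHom.add_apply, h10, add_zero]

theorem f2 : SpecF2.{u, v, w} := by
  intro B S H _ _ _ N ρ i τ d φ h s t hs ht
  obtain ⟨q, hs⟩ := hs
  obtain ⟨p, ht⟩ := ht
  have hst : ((s * t : Sˣ) : S) = 1 + i ((q + p) - ρ (q + p)) * eS N τ := by
    have h1 : (q + p) - ρ (q + p) = (q - ρ q) + (p - ρ p) := by rw [map_add]; abel
    rw [Units.val_mul, hs, ht, h1, map_add, mul_add, mul_one, add_mul, one_mul, mul_assoc, ebe h,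
      nm_kap h.rotN, map_zero, zero_mul, mul_zero, add_zero, add_mul, add_assoc]
  refine ⟨⟨q + p, hst⟩, ?_⟩
  rw [f1 B S H N ρ i τ d φ h (s * t) (q + p) hst, f1 B S H N ρ i τ d φ h s q hs,
    f1 B S H N ρ i τ d φ h t p ht]
  have hn : ρ (nm ρ N q) = nm ρ N q := rho_nm h.rotN q
  -- t⁻¹ D(s)
  have h2 : ((t⁻¹ : Sˣ) : S) * (((s⁻¹ : Sˣ) : S) * d s)
      = i (q - ρ q) * eP N τ + (i ((q - ρ q) * nm ρ N q) * eS N τ
        + i ((p - ρ p) * nm ρ N q) * eS N τ) := by
    rw [D_k h hs, inv_k h ht, sub_mul, one_mul, mul_add (i (p - ρ p) * eS N τ),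
      mul_assoc (i (p - ρ p)), mul_assoc (i (p - ρ p)), ekP h, ekre h q hn, mul_zero, add_zero,
      mul_neg, sub_neg_eq_add, ← mul_assoc (i (p - ρ p)), ← map_mul, add_assoc]
  have h3 : φ (i (q - ρ q) * eP N τ) (i (p - ρ p) * eS N τ)
      = gg i τ φ (q * nm ρ N p) + gg i τ φ (p * nm ρ N q) := by
    rw [kap_e h p, h.H1]
    have h4 : i (q - ρ q) * eP N τ * (1 - (τ : S)) = i (q - ρ q) * eS N τ := by
      rw [mul_assoc, P_omt h]
    have h5 : i p * eS N τ * (i (q - ρ q) * eP N τ) = - (i (p * nm ρ N q) * eS N τ) := by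
      rw [mul_assoc, ekP h, mul_neg, ← mul_assoc, ← map_mul]
    rw [h4, h5, RR h, map_neg, AddMonoidHom.neg_apply, map_sub, phi_r1 h, gte h, zero_sub, neg_neg]
  have h6 : cc d φ s t = gg i τ φ (q * nm ρ N p) + gg i τ φ (p * nm ρ N q) := by
    unfold cc
    rw [h2, ht, map_add, phi_r1 h, zero_add, map_add, AddMonoidHom.add_apply, h3, map_add,
      AddMonoidHom.add_apply, RRr h q hn, RRr h p hn, nm_kap h.rotN, mul_zero, mul_zero]
    simp [gg]
  rw [h6]
  change gg i τ φ _ = gg i τ φ _ + gg i τ φ _ + _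
  rw [nm_add, ← gg_add, ← gg_add, ← gg_add]
  congr 1
  noncomm_ring

/-- the statement (f3) for one `x` -/
def F3 (N : ℕ) (ρ : B →+* B) (i : B →+* S) (τ : Sˣ) (d : S →+ S) (φ : S →+ S →+ H) (x : Sˣ) :
    Prop :=
  ∀ s : Sˣ, InK N ρ i τ s → InK N ρ i τ (x * s * x⁻¹) ∧
    fK N ρ i τ φ (x * s * x⁻¹) = fK N ρ i τ φ s + cc d φ x s - cc d φ (x * s * x⁻¹) x

lemma F3mul (h : IsDat N ρ i τ d φ) {x y : Sˣ} (hx : F3 N ρ i τ d φ x) (hy : F3 N ρ i τ d φ y) :
    F3 N ρ i τ d φ (x * y) := by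
  intro s hs
  obtain ⟨h1, h2⟩ := hy s hs
  obtain ⟨h3, h4⟩ := hx _ h1
  have h5 : x * (y * s * y⁻¹) * x⁻¹ = x * y * s * (x * y)⁻¹ := by group
  rw [h5] at h3 h4
  refine ⟨h3, ?_⟩
  obtain ⟨hc, -⟩ := coc B S H N ρ i τ d φ h
  set s' := y * s * y⁻¹ with hs'
  set t := x * y * s * (x * y)⁻¹ with ht
  have e1 := hc x y s
  have e2 := hc x s' y
  have e3 := hc t x y
  have e4 : y * s = s' * y := by rw [hs']; group
  have e5 : t * x = x * s' := by rw [ht, hs']; group
  rw [← e4] at e2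
  rw [e5] at e3
  rw [h4, h2]
  have e6 : cc d φ (x * y) s = cc d φ y s + cc d φ x (y * s) - cc d φ x y := by
    rw [← e1]; abel
  have e7 : cc d φ t (x * y) = cc d φ t x + cc d φ (x * s') y - cc d φ x y := by
    rw [e3]; abel
  have e8 : cc d φ (x * s') y = cc d φ s' y + cc d φ x (y * s) - cc d φ x s' := by
    rw [← e2]; abel
  rw [e6, e7, e8]
  abel

lemma fix_inv {r : Bˣ} (hr : ρ r = r) : ρ ((r⁻¹ : Bˣ) : B) = ((r⁻¹ : Bˣ) : B) := by
  have h1 : (r : B) * ρ ((r⁻¹ : Bˣ) : B) = 1 := by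
    conv_lhs => rw [← hr]
    rw [← map_mul, Units.mul_inv, map_one]
  exact (Units.inv_eq_of_mul_eq_one_right h1).symm

lemma one_case (h : IsDat N ρ i τ d φ) (hN : N = 1) (x : S) : x = 0 := by
  have h1 := h.charN
  rw [hN, Nat.cast_one] at h1
  rw [← one_mul x, h1, zero_mul]

lemma h3z (h : IsDat N ρ i τ d φ) (z r : B) {j : ℕ} (hj : j < N) (h0 : j ≠ 1) (hN : 1 < N) :
    φ (i z * (τ : S) ^ j) (i r) = 0 := by
  have h1 := h.H3 z r j 0 (by
    intro hh
    rw [add_zero] at hh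
    have h2 : ((j : ℕ) : ZMod N) = ((1 : ℕ) : ZMod N) := by rw [hh, Nat.cast_one]
    rw [ZMod.natCast_eq_natCast_iff] at h2
    exact h0 (Nat.ModEq.eq_of_lt_of_lt h2 hj hN))
  rw [pow_zero, mul_one] at h1
  exact h1

lemma phi_e_r (h : IsDat N ρ i τ d φ) (z r : B) :
    φ (i z * eS N τ) (i r) = φ (i z * τ) (i r) := by
  rcases Nat.lt_or_ge 1 N with hN | hN
  · unfold eS
    rw [Finset.mul_sum, map_sum, AddMonoidHom.finsetSum_apply, Finset.sum_eq_single 1]
    · rw [pow_one]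
    · intro j hj h0
      exact h3z h z r (Finset.mem_range.mp hj) h0 hN
    · intro h0
      exact absurd (Finset.mem_range.mpr hN) h0
  · have hN1 : N = 1 := le_antisymm hN h.pos
    rw [one_case h hN1 (i z * eS N τ), one_case h hN1 (i z * (τ : S))]

lemma phi_P_r (h : IsDat N ρ i τ d φ) (z r : B) :
    φ (i z * eP N τ) (i r) = φ (i z * τ) (i r) := by
  rcases Nat.lt_or_ge 1 N with hN | hN
  · unfold eP
    rw [Finset.mul_sum, map_sum, AddMonoidHom.finsetSum_apply, Finset.sum_eq_single 1]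
    · rw [pow_one, one_smul]
    · intro j hj h0
      rw [mul_smul_comm, map_nsmul, AddMonoidHom.nsmul_apply,
        h3z h z r (Finset.mem_range.mp hj) h0 hN, smul_zero]
    · intro h0
      exact absurd (Finset.mem_range.mpr hN) h0
  · have hN1 : N = 1 := le_antisymm hN h.pos
    rw [one_case h hN1 (i z * eP N τ), one_case h hN1 (i z * (τ : S))]

lemma f3r (h : IsDat N ρ i τ d φ) {r : Bˣ} (hr : ρ r = r) {x : Sˣ} (hx : (x : S) = i r) :
    F3 N ρ i τ d φ x := by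
  intro s hs
  obtain ⟨q, hs⟩ := hs
  have hri := fix_inv hr
  have hxi : ((x⁻¹ : Sˣ) : S) = i ((r⁻¹ : Bˣ) : B) := by
    refine Units.inv_eq_of_mul_eq_one_right ?_
    rw [hx, ← map_mul, Units.mul_inv, map_one]
  obtain ⟨p, hp⟩ : ∃ p : B, p = r * q * ((r⁻¹ : Bˣ) : B) := ⟨_, rfl⟩
  have hkp : p - ρ p = r * (q - ρ q) * ((r⁻¹ : Bˣ) : B) := by
    rw [hp, map_mul, map_mul, hr, hri, mul_sub, sub_mul]
  have hs' : ((x * s * x⁻¹ : Sˣ) : S) = 1 + i (p - ρ p) * eS N τ := by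
    rw [Units.val_mul, Units.val_mul, hxi, hs, mul_add, mul_one, add_mul, hx, ← map_mul,
      Units.mul_inv, map_one, hkp]
    congr 1
    rw [mul_assoc, mul_assoc, e_fix h hri, ← mul_assoc (i (q - ρ q)), ← map_mul, ← mul_assoc,
      ← map_mul, mul_assoc]
  refine ⟨⟨p, hs'⟩, ?_⟩
  rw [f1 B S H N ρ i τ d φ h _ p hs', f1 B S H N ρ i τ d φ h s q hs]
  have hn : nm ρ N p = r * nm ρ N q * ((r⁻¹ : Bˣ) : B) := by
    rw [hp, nm_mul_fix _ hri, nm_fix_mul _ hr]
  have hc1 : cc d φ x s = 0 := by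
    unfold cc
    rw [hx, h.d_i, mul_zero, mul_zero, map_zero, AddMonoidHom.zero_apply]
  obtain ⟨A, hA⟩ : ∃ A : B, A = ((r⁻¹ : Bˣ) : B) * (p * (1 + nm ρ N p)) := ⟨_, rfl⟩
  have hAr : A * r = q * (1 + nm ρ N q) := by
    rw [hA, hn, hp]
    simp only [mul_assoc, add_mul, mul_add, mul_one, Units.inv_mul,
      Units.inv_mul_cancel_left]
  have hrA : r * A = p * (1 + nm ρ N p) := by
    rw [hA, Units.mul_inv_cancel_left]
  have hc2 : cc d φ (x * s * x⁻¹) x = φ (i (A - ρ A) * τ) (i r) := by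
    unfold cc
    rw [D_k h hs', hxi, hx, mul_add, ← mul_assoc, ← mul_assoc, ← map_mul, ← map_mul, map_add,
      AddMonoidHom.add_apply, phi_P_r h, phi_e_r h, ← AddMonoidHom.add_apply, ← map_add, ← add_mul,
      ← map_add]
    congr 4
    rw [hA, map_mul, map_mul, map_add, map_one, rho_nm h.rotN, hri]
    noncomm_ring
  have h1 := h.H1 (i A) τ (i r)
  have h2 := h.H1 (i A) (i r) τ
  have h3 : (τ : S) * i r = i r * τ := by rw [h.conj, hr]
  have h4 : i (A - ρ A) * (τ : S) = i A * τ - τ * i A := by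
    rw [map_sub, sub_mul, h.conj]
  rw [h3, h2] at h1
  rw [hc1, add_zero, hc2, h4, map_sub, AddMonoidHom.sub_apply, ← hAr, ← hrA, map_mul i,
    map_mul i]
  rw [eq_comm, ← sub_eq_zero] at h1
  rw [← sub_eq_zero, ← h1]
  abel

lemma f3b (h : IsDat N ρ i τ d φ) {b : B} (hb : IsUnit (1 + nm ρ N b)) {y : Sˣ}
    (hy : (y : S) = 1 + i b * eS N τ) : F3 N ρ i τ d φ y := by
  intro s hs
  obtain ⟨q, hs⟩ := hs
  obtain ⟨X, hX⟩ := hb
  have hXf : ρ X = X := by rw [hX, map_add, map_one, rho_nm h.rotN]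
  have hXi := fix_inv hXf
  set W : B := ((X⁻¹ : Bˣ) : B) with hW
  have hXW : (1 + nm ρ N b) * W = 1 := by rw [← hX, hW, Units.mul_inv]
  have hWX : W * (1 + nm ρ N b) = 1 := by rw [← hX, hW, Units.inv_mul]
  have hey : eS N τ * y = i (1 + nm ρ N b) * eS N τ := by
    rw [hy, mul_add, mul_one, ebe h, map_add, map_one, add_mul, one_mul]
  have heyi : eS N τ * ((y⁻¹ : Sˣ) : S) = i W * eS N τ := by
    have h1 : i W * (eS N τ * y) = eS N τ := by
      rw [hey, ← mul_assoc, ← map_mul, hWX, map_one, one_mul]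
    rw [← mul_assoc] at h1
    rw [← Units.mul_left_inj y, mul_assoc, Units.inv_mul, mul_one, h1]
  have hbW : i (b * W) * eS N τ = 1 - ((y⁻¹ : Sˣ) : S) := by
    have h1 : i b * eS N τ * ((y⁻¹ : Sˣ) : S) = i (b * W) * eS N τ := by
      rw [mul_assoc, heyi, ← mul_assoc, ← map_mul]
    rw [← h1]
    have h2 : i b * eS N τ = (y : S) - 1 := by rw [hy, add_sub_cancel_left]
    rw [h2, sub_mul, Units.mul_inv, one_mul]
  obtain ⟨p, hp⟩ : ∃ p : B, p = q * W := ⟨_, rfl⟩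
  have hkp : p - ρ p = (q - ρ q) * W := by rw [hp, kap_mul hXi]
  have hpe : i p * eS N τ = i q * eS N τ * ((y⁻¹ : Sˣ) : S) := by
    rw [mul_assoc, heyi, ← mul_assoc, ← map_mul, hp]
  have hs' : ((y * s * y⁻¹ : Sˣ) : S) = 1 + i (p - ρ p) * eS N τ := by
    rw [Units.val_mul, Units.val_mul, hs, mul_add, mul_one, add_mul, Units.mul_inv, hkp]
    congr 1
    rw [mul_assoc, mul_assoc, heyi, ← mul_assoc (i (q - ρ q)), ← map_mul, hy, add_mul, one_mul,
      mul_assoc, ekre h q hXi, mul_zero, add_zero]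
  refine ⟨⟨p, hs'⟩, ?_⟩
  rw [f1 B S H N ρ i τ d φ h _ p hs', f1 B S H N ρ i τ d φ h s q hs]
  set n : B := nm ρ N q with hn
  set ν : B := nm ρ N b with hν
  set μ : B := pp ρ N b with hμ
  have hnf : ρ n = n := rho_nm h.rotN q
  have hνf : ρ ν = ν := rho_nm h.rotN b
  have hnp : nm ρ N p = n * W := by rw [hp, nm_mul_fix _ hXi]
  -- c(y, s)
  have hc1 : cc d φ y s = φ (i (b * W) * eS N τ) (i q * eS N τ) - gg i τ φ (q * (ν * W) * n)
      + gg i τ φ (p * μ) := by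
    have h1 : ((s⁻¹ : Sˣ) : S) * (((y⁻¹ : Sˣ) : S) * d y) * (1 - (τ : S))
        = i (b * W) * eS N τ - i ((q - ρ q) * (ν * W)) * eS N τ := by
      rw [hy, map_add, d_one h, zero_add, d_be h, mul_assoc, mul_assoc, mul_assoc, P_omt h]
      have h2 : i b * eS N τ = (y : S) - 1 := by rw [hy, add_sub_cancel_left]
      rw [h2, mul_sub, Units.inv_mul, mul_one, ← hbW, inv_k h hs, sub_mul, one_mul, mul_assoc,
        ebe h, nm_mul_fix _ hXi, ← mul_assoc, ← map_mul]
    have h2 : i q * eS N τ * (((s⁻¹ : Sˣ) : S) * (((y⁻¹ : Sˣ) : S) * d y))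
        = i (q * (W * ν)) * eP N τ - i (p * μ) * eS N τ := by
      have h3 : eS N τ * ((s⁻¹ : Sˣ) : S) = eS N τ := by
        rw [inv_k h hs, mul_sub, mul_one, ebe h, nm_kap h.rotN, map_zero, zero_mul, sub_zero]
      rw [mul_assoc, ← mul_assoc (eS N τ), h3, ← mul_assoc (eS N τ), heyi, hy, map_add, d_one h,
        zero_add, d_be h, mul_assoc (i W), ebP h, mul_sub, mul_sub, hp]
      simp only [map_mul, mul_assoc]
      rfl
    unfold cc
    rw [show (s : S) = 1 + (1 - (τ : S)) * (i q * eS N τ) by rw [hs, kap_e h], map_add, phi_r1 h,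
      zero_add, h.H1, h1, h2, map_sub, AddMonoidHom.sub_apply, RRr h q (r := ν * W)
        (by rw [map_mul, hνf, hXi]), map_sub (φ _), phi_r1 h, map_sub, AddMonoidHom.sub_apply,
      gtP h, gte h]
    abel
  -- c(s', y)
  have hc2 : cc d φ (y * s * y⁻¹) y = gg i τ φ (p * μ) + gg i τ φ (p * ν)
      + φ (i b * eS N τ) (i p * eS N τ) + gg i τ φ (p * (n * W) * ν)
      + φ (i (b * W * (n * W)) * eS N τ) (i b * eS N τ) := by
    have hnWf : ρ (n * W) = n * W := by rw [map_mul, hnf, hXi]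
    have h1 : ((y⁻¹ : Sˣ) : S) * ((((y * s * y⁻¹)⁻¹ : Sˣ) : S) * d ((y * s * y⁻¹ : Sˣ) : S))
        = i (p - ρ p) * eP N τ + i ((p - ρ p) * (n * W)) * eS N τ
          + i (b * W * (n * W)) * eS N τ := by
      have hyi : ((y⁻¹ : Sˣ) : S) = 1 - i (b * W) * eS N τ := by rw [hbW]; abel
      rw [D_k h hs', hnp, hyi, sub_mul, one_mul, mul_add (i (b * W) * eS N τ), mul_assoc (i (b * W)),
        mul_assoc (i (b * W)), ekP h, ekre h p hnWf, mul_zero, add_zero, mul_neg, sub_neg_eq_add,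
        hnp, ← mul_assoc (i (b * W)), ← map_mul]
    have h2 : φ (i (p - ρ p) * eP N τ) (i b * eS N τ) = gg i τ φ (p * μ) + gg i τ φ (p * ν)
        + φ (i b * eS N τ) (i p * eS N τ) := by
      have h3 : i (p - ρ p) * eP N τ = (1 - (τ : S)) * (i p * eP N τ) - τ * (i p * eS N τ) := by
        rw [sub_mul, one_mul, ← mul_assoc, ← mul_assoc, h.conj, mul_assoc (i (ρ p)),
          mul_assoc (i (ρ p)), tau_P h, tau_e h, map_sub, sub_mul, mul_sub]
        abel
      have h4 := h.H1 (1 - (τ : S)) (i p * eP N τ) (i b * eS N τ)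
      have h5 : i b * eS N τ * (1 - (τ : S)) = 0 := by rw [mul_assoc, e_omt h, mul_zero]
      have h6 : i p * eP N τ * (i b * eS N τ) = i (p * μ) * eS N τ := by
        rw [mul_assoc, Pbe h, ← mul_assoc, ← map_mul]
      rw [h5, h6, map_zero, AddMonoidHom.zero_apply, add_zero, phi_omt_e h] at h4
      have h7 := h.H1 (τ : S) (i p * eS N τ) (i b * eS N τ)
      have h8 : i b * eS N τ * (τ : S) = i b * eS N τ := by rw [mul_assoc, e_tau h]
      have h9 : i p * eS N τ * (i b * eS N τ) = i (p * ν) * eS N τ := by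
        rw [mul_assoc, ebe h, ← mul_assoc, ← map_mul]
      rw [h8, h9, phi_tau_e h] at h7
      rw [h3, map_sub, AddMonoidHom.sub_apply, ← h4, ← sub_eq_zero]
      rw [← sub_eq_zero] at h7
      rw [← h7]
      abel
    unfold cc
    rw [h1]
    rw [hy]
    rw [map_add, phi_r1 h, zero_add, map_add, map_add, AddMonoidHom.add_apply,
      AddMonoidHom.add_apply, h2, RRr h p hnWf]
  -- E
  have hE : φ (i (b * W) * eS N τ) (i q * eS N τ) - φ (i b * eS N τ) (i p * eS N τ)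
      - φ (i (b * W * (n * W)) * eS N τ) (i b * eS N τ) = 0 := by
    have h1 : i (b * W * (n * W)) * eS N τ
        = (1 - ((y⁻¹ : Sˣ) : S)) * (i q * eS N τ * ((y⁻¹ : Sˣ) : S)) := by
      rw [← hbW, ← hpe, mul_assoc (i (b * W)), ebe h, hnp, ← mul_assoc (i (b * W)), ← map_mul]
    set β : S := i q * eS N τ with hβ
    set α : S := i b * eS N τ with hα
    set Z : S := ((y⁻¹ : Sˣ) : S) with hZ
    have hZ1 : Z * (1 + α) = 1 := by rw [← hy, hZ, Units.inv_mul]
    have hZ2 : (1 + α) * Z = 1 := by rw [← hy, hZ, Units.mul_inv]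
    rw [h1, hbW, hpe]
    have h2 := h.H1 (Z * β) Z (1 + α)
    rw [hZ1, phi_r1 h, ← mul_assoc (1 + α), hZ2, one_mul, map_add, phi_r1 h, zero_add] at h2
    have h3 := phi_anti h α (β * Z)
    have h4 := phi_anti h β Z
    have h5 : (1 - Z) * (β * Z) = β * Z - Z * β * Z := by noncomm_ring
    rw [h5, map_sub, AddMonoidHom.sub_apply, h.H2, zero_sub, map_sub, AddMonoidHom.sub_apply, h3]
    rw [h4] at h2
    rw [eq_comm] at h2
    rw [← h2]
    abel
  change gg i τ φ _ = gg i τ φ _ + _ - _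
  rw [hc1, hc2, hnp]
  have h1 : p * (1 + n * W) = q * (1 + n) - q * (ν * W) * n - p * ν - p * (n * W) * ν := by
    have h2 : W * ν = 1 - W := by
      rw [mul_add, mul_one] at hWX
      rw [← hWX]; abel
    have h3 : ν * W = 1 - W := by
      rw [add_mul, one_mul] at hXW
      rw [← hXW]; abel
    rw [hp, mul_assoc q W ν, h2, mul_assoc (q * W) (n * W) ν, mul_assoc n W ν, h2, h3]
    noncomm_ring
  rw [h1, gg_sub, gg_sub, gg_sub, ← sub_eq_zero, ← neg_eq_zero, ← hE]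
  abel

theorem f3 : SpecF3.{u, v, w} := by
  intro B S H _ _ _ N ρ i τ d φ h x s hx hs
  obtain ⟨r, b, hr, hb, hx⟩ := hx
  set R : Sˣ := Units.map (i : B →* S) r with hR
  have h1 : (R : S) = i r := rfl
  have h2 : ((R⁻¹ * x : Sˣ) : S) = 1 + i b * eS N τ := by
    rw [Units.val_mul, hx, ← h1, Units.inv_mul_cancel_left]
  have h3 := F3mul h (f3r h hr h1) (f3b h hb h2)
  rw [mul_inv_cancel_left] at h3
  exact h3 s hs

end main

end ABSaux

/-- ABS -/
theorem specABS : SpecABS.{u, v, w} :=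
  ⟨ABSaux.coc, ABSaux.f1, ABSaux.f2, ABSaux.f3⟩

end Pool.Agent.Lib.MPb6f35e.K2
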