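import Pool.Agent.Lib.MP_b6f35e_al.K2.AL3

/-!
# K_2 theorem (MP_b6f35e_al), module AL4

All generators primitive over the same subgroup: a multiple of the sum is in the hidden part.
-/

set_option autoImplicit false

noncomputable section

namespace Pool.Agent.Lib.MPb6f35e.K2

open Pool.Agent.Lib.MPb6f35e.WH

universe u v

namespace AL4aux

theorem sec_spec {W : Type u} [Group W] {c g : W} (h : ∃ t, t * c * t⁻¹ = g) :
    sec c g * c * (sec c g)⁻¹ = g := by
  unfold sec
  rw [dif_pos h]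
  exact h.choose_spec

theorem sum_flatMap {α β M : Type*} [AddCommMonoid M] (L : List α) (f : α → List β) (F : β → M) :
    ((L.flatMap f).map F).sum = (L.map fun a => ((f a).map F).sum).sum := by
  induction L with
  | nil => simp
  | cons a L ih => rw [List.flatMap_cons, List.map_append, List.sum_append, ih, List.map_cons,
      List.sum_cons]

theorem sum_comm' {α β M : Type*} [AddCommMonoid M] (L : List α) (s : Finset β)
    (F : β → α → M) :
    (s.toList.map fun h => (L.map fun y => F h y).sum).sum =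
      (L.map fun y => ∑ h ∈ s, F h y).sum := by
  rw [Finset.sum_map_toList]
  induction L with
  | nil => simp
  | cons a L ih =>
    simp only [List.map_cons, List.sum_cons]
    rw [Finset.sum_add_distrib, ih]

theorem sum_flat2 {α β M : Type*} [AddCommMonoid M] (l : List α) (s : Finset β) (f : β → α → α)
    (F : α → M) :
    ((s.toList.flatMap fun h => l.map (f h)).map F).sum = (l.map fun y => ∑ h ∈ s, F (f h y)).sum := by
  rw [sum_flatMap, ← sum_comm' l s fun h y => F (f h y)]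
  congr 1
  refine List.map_congr_left fun h _ => ?_
  rw [List.map_map]
  rfl

theorem zp_conj {G : Type v} [Group G] {D : Subgroup G} (hD : Finite D) {c t : G}
    (h0 : Subgroup.zpowers c = D) (hm : t * c * t⁻¹ ∈ D) :
    Subgroup.zpowers (t * c * t⁻¹) = D := by
  refine Subgroup.eq_of_le_of_card_ge ((Subgroup.zpowers_le).2 hm) ?_
  rw [← h0, Nat.card_zpowers, Nat.card_zpowers]
  have h1 : orderOf (MulAut.conj t c) = orderOf c :=
    orderOf_injective (MulAut.conj t).toMonoidHom (MulAut.conj t).injective c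
  rw [MulAut.conj_apply] at h1
  exact h1.ge

end AL4aux

open AL3aux AL4aux in
/-- AL4 -/
theorem specAL4 (hAL5 : SpecAL5.{u, v}) (hLGG : SpecLGG.{u, v}) (hTRL : SpecTRL.{u, v})
    (hTHE : SpecTHE.{v, 0}) : SpecAL4.{u, v} := by
  classical
  intro p _ hp R₀ _ i hi G _ D l hl hSG
  by_cases hne : l = []
  · subst hne
    exact ⟨1, one_pos, by simp [tsum]⟩
  obtain ⟨y₀, hy₀⟩ := List.exists_mem_of_ne_nil l hne
  have fin : Finite D := (hl y₀ hy₀).1 ▸ y₀.fin
  have cyc : IsCyclic D := (hl y₀ hy₀).1 ▸ y₀.cyc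
  obtain ⟨c₀, hc₀⟩ : ∃ c₀ : G, Subgroup.zpowers c₀ = D := by
    obtain ⟨g, hg⟩ := (Subgroup.isCyclic_iff_exists_zpowers_eq_top D).1 cyc
    exact ⟨g, hg⟩
  have hset : {h : G | h ∈ D ∧ ∃ t, t * c₀ * t⁻¹ = h}.Finite :=
    (Set.toFinite (D : Set G)).subset fun h hh => hh.1
  set Hc := hset.toFinset with hHc
  have hHm : ∀ h, h ∈ Hc ↔ h ∈ D ∧ ∃ t, t * c₀ * t⁻¹ = h := by
    intro h
    rw [hHc, Set.Finite.mem_toFinset]
    rfl
  have hc₀D : c₀ ∈ D := hc₀ ▸ Subgroup.mem_zpowers c₀
  have hHne : 0 < Hc.card :=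
    Finset.card_pos.2 ⟨c₀, (hHm c₀).2 ⟨hc₀D, 1, by simp⟩⟩
  -- the conjugating elements normalise `D`
  have hnorm : ∀ h ∈ Hc, ∀ k, k ∈ D ↔ (sec c₀ h)⁻¹ * k * sec c₀ h ∈ D := by
    intro h hh k
    have h1 := sec_spec ((hHm h).1 hh).2
    have h2 : Subgroup.zpowers (sec c₀ h * c₀ * (sec c₀ h)⁻¹) = D :=
      zp_conj fin hc₀ (by rw [h1]; exact ((hHm h).1 hh).1)
    conv_lhs => rw [← h2]
    rw [mem_zpowers_conj, hc₀]
  let yh : G → GenT R₀ G → GenT R₀ G := fun h y =>
    if cond : ∀ k, k ∈ y.C ↔ (sec c₀ h)⁻¹ * k * sec c₀ h ∈ D then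
      cjG y D fin cyc (sec c₀ h) cond else y
  have hcond : ∀ h ∈ Hc, ∀ y ∈ l, ∀ k, k ∈ y.C ↔ (sec c₀ h)⁻¹ * k * sec c₀ h ∈ D := by
    intro h hh y hy k
    rw [(hl y hy).1]
    exact hnorm h hh k
  have hyh : ∀ h (hh : h ∈ Hc) y (hy : y ∈ l),
      yh h y = cjG y D fin cyc (sec c₀ h) (hcond h hh y hy) := fun h hh y hy =>
    dif_pos (hcond h hh y hy)
  set l' := Hc.toList.flatMap fun h => l.map (yh h) with hl'
  have hmem' : ∀ a ∈ l', ∃ h ∈ Hc, ∃ y ∈ l, a = yh h y := by
    intro a ha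
    rw [hl', List.mem_flatMap] at ha
    obtain ⟨h, hh, ha⟩ := ha
    obtain ⟨y, hy, rfl⟩ := List.mem_map.1 ha
    exact ⟨h, Finset.mem_toList.1 hh, y, hy, rfl⟩
  obtain ⟨m, hm, hmem⟩ := hAL5 p hp R₀ i hi G D l' (by
    intro a ha
    obtain ⟨h, hh, y, hy, rfl⟩ := hmem' a ha
    rw [hyh h hh y hy]
    exact ⟨rfl, one_cj i y D fin cyc _ _ (hl y hy).2.1⟩) (by
    intro X hX g
    rw [hl', sum_flat2]
    by_cases hg : Subgroup.zpowers g = D
    · -- `g` generates `D`
      have hcent : ∀ a, a * g = g * a → ∀ h ∈ D, a * h = h * a := by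
        intro a ha h hh
        rw [← hg, Subgroup.mem_zpowers_iff] at hh
        obtain ⟨n, rfl⟩ := hh
        exact (show Commute a g from ha).zpow_right n
      have hXg : HomOn g X := fun a b ha hb => hX a b (hcent a ha) (hcent b hb)
      have hgD : g ∈ D := hg ▸ Subgroup.mem_zpowers g
      have hgfin : IsOfFinOrder g := by
        have h1 : IsOfFinOrder (⟨g, hgD⟩ : D) := isOfFinOrder_of_finite _
        exact (Submonoid.isOfFinOrder_coe (H := D.toSubmonoid) (x := ⟨g, hgD⟩)).2 h1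
      have h0 := hSG g X hgfin hXg
      rw [← h0]
      congr 1
      refine List.map_congr_left fun y hy => ?_
      obtain ⟨k, hk⟩ : ∃ k : ℤ, c₀ ^ k = g := by
        rw [← hc₀, Subgroup.mem_zpowers_iff] at hgD
        exact hgD
      obtain ⟨n, hn⟩ : ∃ n : ℤ, g ^ n = c₀ := by
        rw [← hg, Subgroup.mem_zpowers_iff] at hc₀D
        exact hc₀D
      have hconj : ∀ h ∈ Hc, sec c₀ h * g * (sec c₀ h)⁻¹ = h ^ k := by
        intro h hh
        have h1 := sec_spec ((hHm h).1 hh).2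
        rw [← hk, ← conj_zpow, h1]
      have hback : ∀ h ∈ Hc, (h ^ k) ^ n = h := by
        intro h hh
        have h1 := sec_spec ((hHm h).1 hh).2
        rw [← hconj h hh, conj_zpow, hn, h1]
      have hinj : Set.InjOn (fun h => sec c₀ h * g * (sec c₀ h)⁻¹) (Hc : Set G) := by
        intro h hh h' hh' he
        have hh1 : h ∈ Hc := hh
        have hh2 : h' ∈ Hc := hh'
        change sec c₀ h * g * (sec c₀ h)⁻¹ = sec c₀ h' * g * (sec c₀ h')⁻¹ at he
        rw [hconj h hh1, hconj h' hh2] at he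
        rw [← hback h hh1, he, hback h' hh2]
      unfold SG
      rw [finsum_eq_sum_of_support_subset (s := Hc.image fun h => sec c₀ h * g * (sec c₀ h)⁻¹)]
      · rw [Finset.sum_image hinj]
        refine Finset.sum_congr rfl fun h hh => ?_
        rw [hyh h hh y hy, LG_cj i y D fin cyc _ _ hLGG hp]
        have hgD' : sec c₀ h * g * (sec c₀ h)⁻¹ ∈ y.C := by
          rw [(hl y hy).1, hnorm h hh]
          have e : (sec c₀ h)⁻¹ * (sec c₀ h * g * (sec c₀ h)⁻¹) * sec c₀ h = g := by group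
          rw [e]
          exact hgD
        rw [hTHE.val G ℤ_[p] g X hXg y.z (sec c₀ h * g * (sec c₀ h)⁻¹) (sec c₀ h)
          (y.comm _ hgD') rfl]
        rfl
      · intro a ha
        rw [Function.mem_support] at ha
        have h1 := (hl y hy).2.2 a (right_ne_zero_of_mul ha)
        rw [(hl y hy).1] at h1
        have h2 : ∃ t, t * g * t⁻¹ = a := by
          by_contra hn'
          apply left_ne_zero_of_mul ha
          rw [hTHE.zero G ℤ_[p] g X _ a hn']
          rfl
        obtain ⟨t, ht⟩ := h2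
        have haD : a ∈ D := h1 ▸ Subgroup.mem_zpowers a
        have h3 : t * c₀ * t⁻¹ = a ^ n := by
          rw [← ht, conj_zpow, hn]
        have h4 : a ^ n ∈ Hc := (hHm _).2 ⟨D.zpow_mem haD n, t, h3⟩
        have h5 : (a ^ n) ^ k = a := by
          rw [← h3, conj_zpow, hk, ht]
        rw [Finset.coe_image]
        exact ⟨a ^ n, h4, (hconj _ h4).trans h5⟩
    · -- `g` does not generate `D`
      apply List.sum_eq_zero
      intro s hs
      obtain ⟨y, hy, rfl⟩ := List.mem_map.1 hs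
      refine Finset.sum_eq_zero fun h hh => ?_
      have h1 : LG p i (yh h y) g = 0 := by
        by_contra hne'
        rw [hyh h hh y hy] at hne'
        exact hg (prim_cj i y D fin cyc _ (hcond h hh y hy) hLGG hp (hl y hy).2.2 g hne')
      rw [h1, mul_zero])
  refine ⟨m * Hc.card, Nat.mul_pos hm hHne, ?_⟩
  have h1 : tsum R₀ G l' = Hc.card • tsum R₀ G l := by
    unfold tsum
    rw [hl', sum_flat2]
    rw [← Finset.sum_const]
    have h2 : (l.map fun y => ∑ h ∈ Hc, D1.cls (RelT R₀ G) (yh h y)) =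
        l.map fun y => ∑ _h ∈ Hc, D1.cls (RelT R₀ G) y := by
      refine List.map_congr_left fun y hy => Finset.sum_congr rfl fun h hh => ?_
      rw [hyh h hh y hy]
      exact cls_cj y D fin cyc _ _ hTRL
    rw [h2, ← sum_comm' l Hc fun _ y => D1.cls (RelT R₀ G) y, Finset.sum_map_toList]
  rw [mul_smul, ← h1]
  exact hmem

end Pool.Agent.Lib.MPb6f35e.K2
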