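import Pool.Agent.Lib.MP_b6f35e_al.K2.SpecE

/-!
# K_2 theorem (MP_b6f35e_al), module AL5

All generators over the same subgroup: a multiple of the sum is in the hidden part.
-/

set_option autoImplicit false

noncomputable section

namespace Pool.Agent.Lib.MPb6f35e.K2

open Pool.Agent.Lib.MPb6f35e.WH

universe u v

namespace AL5aux

/-! ### maps from a group to an additive group -/

section add

variable {A B : Type*} [Group A] [AddCommGroup B] {f : A → B}

theorem f_one (h : ∀ a b, f (a * b) = f a + f b) : f 1 = 0 := by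
  have h1 := h 1 1
  rw [one_mul] at h1
  exact left_eq_add.1 h1

/-- the homomorphism to `Multiplicative B` -/
def mh (f : A → B) (h : ∀ a b, f (a * b) = f a + f b) : A →* Multiplicative B where
  toFun a := Multiplicative.ofAdd (f a)
  map_one' := by rw [f_one h]; rfl
  map_mul' a b := by rw [h]; rfl

theorem f_zpow (h : ∀ a b, f (a * b) = f a + f b) (a : A) (n : ℤ) : f (a ^ n) = n • f a := by
  have h1 := map_zpow (mh f h) a n
  exact congrArg Multiplicative.toAdd h1

theorem f_prod (h : ∀ a b, f (a * b) = f a + f b) (l : List A) : f l.prod = (l.map f).sum := by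
  induction l with
  | nil => exact f_one h
  | cons a l ih => rw [List.prod_cons, h, ih, List.map_cons, List.sum_cons]

end add

/-! ### sums over lists -/

section lists

variable {α M : Type*} [AddCommGroup M]

theorem sum_split (s t : List α) (x : α) (F : α → M) (hx : F x = 0) :
    ((s ++ t).map F).sum = ((s ++ x :: t).map F).sum := by
  simp only [List.map_append, List.sum_append, List.map_cons, List.sum_cons, hx, zero_add]

theorem sum_sub (l : List α) (F F' : α → M) :
    (l.map fun y => F y - F' y).sum = (l.map F).sum - (l.map F').sum := by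
  induction l with
  | nil => simp
  | cons a l ih => rw [List.map_cons, List.map_cons, List.map_cons, List.sum_cons, List.sum_cons,
      List.sum_cons, ih]; abel

theorem sum_zsmul (l : List α) (n : ℤ) (F : α → M) :
    (l.map fun y => n • F y).sum = n • (l.map F).sum := by
  induction l with
  | nil => simp
  | cons a l ih => rw [List.map_cons, List.map_cons, List.sum_cons, List.sum_cons, ih, smul_add]

theorem sum_mul {K : Type*} [CommRing K] (l : List α) (n : K) (F : α → K) :
    (l.map fun y => n * F y).sum = n * (l.map F).sum := by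
  induction l with
  | nil => simp
  | cons a l ih => rw [List.map_cons, List.map_cons, List.sum_cons, List.sum_cons, ih, mul_add]

end lists

/-- common denominator -/
theorem exists_den {α : Type*} (l : List α) (χ : α → ℚ) :
    ∃ k : ℕ, 0 < k ∧ ∀ y ∈ l, ∃ a : ℤ, (a : ℚ) = k * χ y := by
  induction l with
  | nil => exact ⟨1, one_pos, fun y hy => absurd hy (List.not_mem_nil)⟩
  | cons x l ih =>
    obtain ⟨k, hk, h⟩ := ih
    refine ⟨k * (χ x).den, Nat.mul_pos hk (χ x).pos, fun y hy => ?_⟩
    rcases List.mem_cons.1 hy with rfl | hy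
    · refine ⟨k * (χ y).num, ?_⟩
      have h1 := Rat.mul_den_eq_num (χ y)
      push_cast
      rw [← h1]
      ring
    · obtain ⟨a, ha⟩ := h y hy
      refine ⟨a * (χ x).den, ?_⟩
      push_cast
      rw [ha]
      ring

/-! ### the abstract statement -/

theorem main_abs {Z U T ι : Type*} [Group Z] [Group U] [AddCommGroup T] (p : ℕ) [Fact p.Prime]
    (c : Z → U → T) (hz : ∀ z z' u, c (z * z') u = c z u + c z' u)
    (hu : ∀ z u u', c z (u * u') = c z u + c z u')
    (L : U → ι → ℚ_[p]) (hL : ∀ u u' g, L (u * u') g = L u g + L u' g)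
    (hinj : ∀ u, (∀ g, L u g = 0) → u = 1)
    (H : AddSubgroup T) (Hid : Z → Prop) (hH : ∀ z u, Hid z → c z u ∈ H)
    (hχ : ∀ z, ¬ Hid z → ∃ χ : Z → ℚ, (∀ a b, χ (a * b) = χ a + χ b) ∧
      (∀ a, ¬ p ∣ (χ a).den) ∧ χ z ≠ 0) :
    ∀ (n : ℕ) (l : List (Z × U)), l.length = n →
      (∀ X : Z → ℤ_[p], (∀ a b, X (a * b) = X a + X b) → ∀ g,
        (l.map fun y => (X y.1 : ℚ_[p]) * L y.2 g).sum = 0) →
      ∃ m : ℕ, 0 < m ∧ m • (l.map fun y => c y.1 y.2).sum ∈ H := by
  intro n
  induction n with
  | zero =>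
    intro l hl _
    rw [List.length_eq_zero_iff] at hl
    subst hl
    exact ⟨1, one_pos, by simp⟩
  | succ n ih =>
    intro l hl hX
    by_cases hall : ∀ y ∈ l, Hid y.1
    · refine ⟨1, one_pos, ?_⟩
      rw [one_smul]
      refine list_sum_mem fun t ht => ?_
      obtain ⟨y, hy, rfl⟩ := List.mem_map.1 ht
      exact hH _ _ (hall y hy)
    push Not at hall
    obtain ⟨x, hx, hxh⟩ := hall
    obtain ⟨χ, hχ1, hχ2, hχ3⟩ := hχ x.1 hxh
    obtain ⟨k, hk, hA⟩ := exists_den l fun y => χ y.1
    choose! A hA using hA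
    have hk0 : (k : ℚ) ≠ 0 := Nat.cast_ne_zero.2 hk.ne'
    have hAx : A x ≠ 0 := by
      intro h0
      have h1 := hA x hx
      rw [h0, Int.cast_zero] at h1
      rcases mul_eq_zero.1 h1.symm with h2 | h2
      · exact hk0 h2
      · exact hχ3 h2
    -- the relation for `χ`
    have hrel : ∀ g, (l.map fun y => (A y : ℚ_[p]) * L y.2 g).sum = 0 := by
      intro g
      have h1 := hX (fun a => ⟨((χ a : ℚ) : ℚ_[p]), Padic.norm_rat_le_one (hχ2 a)⟩) (by
        intro a b
        apply Subtype.ext
        change ((χ (a * b) : ℚ) : ℚ_[p]) = ((χ a : ℚ) : ℚ_[p]) + ((χ b : ℚ) : ℚ_[p])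
        rw [hχ1, Rat.cast_add]) g
      have h2 : (l.map fun y => (A y : ℚ_[p]) * L y.2 g) =
          l.map fun y => (k : ℚ_[p]) * (((χ y.1 : ℚ) : ℚ_[p]) * L y.2 g) := by
        refine List.map_congr_left fun y hy => ?_
        have h3 : (A y : ℚ_[p]) = (k : ℚ_[p]) * ((χ y.1 : ℚ) : ℚ_[p]) := by
          have h4 := congrArg (fun q : ℚ => (q : ℚ_[p])) (hA y hy)
          push_cast at h4
          exact h4
        rw [h3, mul_assoc]
      rw [h2, sum_mul]
      change (k : ℚ_[p]) * (l.map fun y => ((χ y.1 : ℚ) : ℚ_[p]) * L y.2 g).sum = 0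
      have h5 : (l.map fun y => ((χ y.1 : ℚ) : ℚ_[p]) * L y.2 g).sum = 0 := h1
      rw [h5, mul_zero]
    -- the relation between the units
    have hprod : (l.map fun y => y.2 ^ A y).prod = 1 := by
      refine hinj _ fun g => ?_
      rw [f_prod (f := fun u => L u g) (fun u u' => hL u u' g), List.map_map]
      rw [← hrel g]
      congr 1
      refine List.map_congr_left fun y _ => ?_
      change L (y.2 ^ A y) g = _
      rw [f_zpow (f := fun u => L u g) (fun u u' => hL u u' g), zsmul_eq_mul]
    have hcx : (l.map fun y => A y • c x.1 y.2).sum = 0 := by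
      have h1 := f_prod (f := c x.1) (hu x.1) (l.map fun y => y.2 ^ A y)
      rw [hprod, f_one (hu x.1), List.map_map] at h1
      rw [h1]
      congr 1
      refine List.map_congr_left fun y _ => ?_
      change _ = c x.1 (y.2 ^ A y)
      rw [f_zpow (hu x.1)]
    obtain ⟨s, t, hst⟩ := List.append_of_mem hx
    let pr : Z × U → Z × U := fun y => (y.1 ^ A x * x.1 ^ (-A y), y.2)
    have hc : ∀ y, c (pr y).1 (pr y).2 = A x • c y.1 y.2 - A y • c x.1 y.2 := by
      intro y
      change c (y.1 ^ A x * x.1 ^ (-A y)) y.2 = _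
      rw [hz, f_zpow (f := fun z => c z y.2) (fun z z' => hz z z' y.2),
        f_zpow (f := fun z => c z y.2) (fun z z' => hz z z' y.2), neg_smul, sub_eq_add_neg]
    obtain ⟨m, hm, hmem⟩ := ih ((s ++ t).map pr) (by
      rw [hst] at hl
      simp only [List.length_append, List.length_cons] at hl
      rw [List.length_map, List.length_append]
      omega) (by
      intro X hXm g
      have h1 : ∀ y, (X (pr y).1 : ℚ_[p]) * L (pr y).2 g =
          (A x : ℚ_[p]) * ((X y.1 : ℚ_[p]) * L y.2 g) -
            (X x.1 : ℚ_[p]) * ((A y : ℚ_[p]) * L y.2 g) := by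
        intro y
        change ((X (y.1 ^ A x * x.1 ^ (-A y)) : ℤ_[p]) : ℚ_[p]) * L y.2 g = _
        rw [hXm, f_zpow hXm, f_zpow hXm, zsmul_eq_mul, zsmul_eq_mul]
        push_cast
        ring
      rw [List.map_map]
      change ((s ++ t).map fun y => (X (pr y).1 : ℚ_[p]) * L (pr y).2 g).sum = 0
      simp only [h1]
      rw [sum_split s t x _ (by ring), ← hst, sum_sub, sum_mul, sum_mul, hX X hXm g, hrel g]
      ring)
    have hsum : (((s ++ t).map pr).map fun y => c y.1 y.2).sum =
        A x • (l.map fun y => c y.1 y.2).sum := by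
      rw [List.map_map]
      change ((s ++ t).map fun y => c (pr y).1 (pr y).2).sum = _
      simp only [hc]
      rw [sum_split s t x _ (by rw [sub_self]), ← hst, sum_sub, sum_zsmul, hcx, sub_zero]
    rw [hsum] at hmem
    refine ⟨m * (A x).natAbs, Nat.mul_pos hm (Int.natAbs_pos.2 hAx), ?_⟩
    rw [mul_smul]
    rcases Int.natAbs_eq (A x) with h1 | h1
    · rw [h1, natCast_zsmul] at hmem
      exact hmem
    · rw [h1, neg_smul, natCast_zsmul, smul_neg, neg_mem_iff] at hmem
      exact hmem

/-! ### units supported in a subgroup -/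

section units

variable {R : Type u} [CommRing R] {G : Type v} [Group G] (D : Subgroup G)

theorem supp_one : Supp D (1 : MonoidAlgebra R G) := by
  classical
  intro g hg
  by_cases h : g = 1
  · rw [h]
    exact D.one_mem
  · exfalso
    apply hg
    rw [MonoidAlgebra.one_def, MonoidAlgebra.coeff_single, Finsupp.single_apply,
      if_neg (Ne.symm h)]

theorem supp_mul {x y : MonoidAlgebra R G} (hx : Supp D x) (hy : Supp D y) :
    Supp D (x * y) := by
  classical
  intro g hg
  by_contra hgD
  apply hg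
  rw [MonoidAlgebra.coeff_mul]
  refine Finset.sum_eq_zero fun a ha => Finset.sum_eq_zero fun b hb => ?_
  beta_reduce
  rw [if_neg]
  rintro rfl
  exact hgD (D.mul_mem (hx a (Finsupp.mem_support_iff.1 ha))
    (hy b (Finsupp.mem_support_iff.1 hb)))

variable (p : ℕ) [Fact p.Prime] (i : R →+* ℤ_[p])

theorem supp_map {x : MonoidAlgebra R G} (hx : Supp D x) :
    Supp D (MonoidAlgebra.mapRingHom G i x) := by
  intro g hg
  apply hx g
  intro h
  apply hg
  rw [MonoidAlgebra.coeff_mapRingHom]
  change i (x.coeff g) = 0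
  rw [h, map_zero]

/-- The group of the units supported in `D` which are `1` modulo `p`. -/
def US : Subgroup (MonoidAlgebra R G)ˣ where
  carrier := {v | Supp D v.val ∧ Supp D v.inv ∧
    OneModP p (MonoidAlgebra.mapRingHom G i v.val)}
  one_mem' := ⟨supp_one D, supp_one D, ⟨0, by simp⟩⟩
  mul_mem' := by
    rintro x y ⟨h1, h2, a, ha⟩ ⟨k1, k2, b, hb⟩
    refine ⟨supp_mul D h1 k1, supp_mul D k2 h2, a + b + (p : ℤ_[p]) • (a * b), ?_⟩
    rw [Units.val_mul, map_mul, ha, hb]
    simp only [mul_add, add_mul, one_mul, mul_one, smul_add, smul_mul_assoc, mul_smul_comm]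
    abel
  inv_mem' := by
    rintro x ⟨h1, h2, a, ha⟩
    refine ⟨h2, h1, -(a * MonoidAlgebra.mapRingHom G i x.inv), ?_⟩
    have h3 : MonoidAlgebra.mapRingHom G i x.val * MonoidAlgebra.mapRingHom G i x.inv = 1 := by
      rw [← map_mul, x.val_inv, map_one]
    rw [ha, add_mul, one_mul, smul_mul_assoc] at h3
    rw [smul_neg, ← sub_eq_add_neg]
    exact eq_sub_of_add_eq h3

end units

end AL5aux

open AL5aux in
/-- AL5 -/
theorem specAL5 (hLGG : SpecLGG.{u, v}) (hTRL : SpecTRL.{u, v}) : SpecAL5.{u, v} := by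
  classical
  intro p _ hp R₀ _ i hi G _ D l hl hX
  by_cases hne : l = []
  · subst hne
    exact ⟨1, one_pos, by simp [tsum]⟩
  obtain ⟨y₀, hy₀⟩ := List.exists_mem_of_ne_nil l hne
  have fin : Finite D := (hl y₀ hy₀).1 ▸ y₀.fin
  have cyc : IsCyclic D := (hl y₀ hy₀).1 ▸ y₀.cyc
  -- the pairing
  have hcent : ∀ z : Subgroup.centralizer (D : Set G), ∀ h ∈ D, (z : G) * h = h * z :=
    fun z h hh => (Subgroup.mem_centralizer_iff.1 z.2 h hh).symm
  let gen : Subgroup.centralizer (D : Set G) → US D p i → GenT R₀ G := fun z u =>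
    ⟨D, fin, cyc, z, hcent z, u.1, u.2.1, u.2.2.1⟩
  let c : Subgroup.centralizer (D : Set G) → US D p i → TGrp R₀ G := fun z u =>
    D1.cls (RelT R₀ G) (gen z u)
  let L : US D p i → G → ℚ_[p] := fun u g => lgP p (MonoidAlgebra.mapRingHom G i u.1.val) g
  have hz : ∀ z z' u, c (z * z') u = c z u + c z' u := fun z z' u =>
    hTRL.mulz R₀ G (gen z u) (gen z' u) (gen (z * z') u) rfl rfl rfl rfl rfl
  have hu : ∀ z u u', c z (u * u') = c z u + c z u' := fun z u u' =>
    hTRL.mulu R₀ G (gen z u) (gen z u') (gen z (u * u')) rfl rfl rfl rfl rfl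
  have hLm : ∀ u u' g, L (u * u') g = L u g + L u' g := by
    intro u u' g
    change lgP p (MonoidAlgebra.mapRingHom G i (u.1.val * u'.1.val)) g = _
    rw [map_mul]
    exact hLGG.mul p hp G D cyc _ _ (supp_map D p i u.2.1) (supp_map D p i u'.2.1) u.2.2.2
      u'.2.2.2 g
  have hinj : ∀ u, (∀ g, L u g = 0) → u = 1 := by
    intro u hu0
    have h1 := hLGG.inj p hp G D cyc _ (supp_map D p i u.2.1) u.2.2.2 hu0
    apply Subtype.ext
    apply Units.ext
    change u.1.val = 1
    ext g
    apply hi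
    have h2 := congrArg (fun x : MonoidAlgebra ℤ_[p] G => x.coeff g) h1
    beta_reduce at h2
    rw [MonoidAlgebra.coeff_mapRingHom] at h2
    rw [h2, ← MonoidAlgebra.coeff_mapRingHom, map_one]
  -- the list of pairs
  have hmk : ∀ y : GenT R₀ G, (y.C = D ∧ One1 p i y) → ∃ q : Subgroup.centralizer (D : Set G) ×
      US D p i, (q.1 : G) = y.z ∧ q.2.1 = y.u ∧ c q.1 q.2 = D1.cls (RelT R₀ G) y := by
    rintro ⟨C, hC, cC, z, hzz, u, hu1, hu2⟩ ⟨h1, h2⟩
    obtain rfl : C = D := h1
    exact ⟨(⟨z, Subgroup.mem_centralizer_iff.2 fun h hh => (hzz h hh).symm⟩, ⟨u, hu1, hu2, h2⟩),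
      rfl, rfl, rfl⟩
  choose! q hq using hmk
  have hmain := main_abs p c hz hu L hLm hinj (DSubS p R₀ G {D})
    (fun z => Hidden p D (z : G)) (by
      intro z u hh
      exact AddSubgroup.subset_closure ⟨gen z u, rfl, hh, rfl⟩) (by
      intro z hh
      unfold Hidden at hh
      push Not at hh
      obtain ⟨χ, h1, h2, h3⟩ := hh
      exact ⟨fun a => χ a, fun a b => h1 a b (hcent a) (hcent b), fun a => h2 a (hcent a), h3⟩)
    _ (l.map q) rfl (by
      intro X hXm g
      have h1 := hX (fun a => if h : a ∈ Subgroup.centralizer (D : Set G) then X ⟨a, h⟩ else 0) (by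
        intro a b ha hb
        have ha' : a ∈ Subgroup.centralizer (D : Set G) :=
          Subgroup.mem_centralizer_iff.2 fun h hh => (ha h hh).symm
        have hb' : b ∈ Subgroup.centralizer (D : Set G) :=
          Subgroup.mem_centralizer_iff.2 fun h hh => (hb h hh).symm
        rw [dif_pos ha', dif_pos hb', dif_pos (mul_mem ha' hb'), ← hXm]
        rfl) g
      rw [List.map_map, ← h1]
      congr 1
      refine List.map_congr_left fun y hy => ?_
      obtain ⟨h2, h3, -⟩ := hq y (hl y hy)
      have h4 : y.z ∈ Subgroup.centralizer (D : Set G) := h2 ▸ (q y).1.2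
      change ((X (q y).1 : ℤ_[p]) : ℚ_[p]) * L (q y).2 g = _
      rw [dif_pos h4]
      have h5 : (q y).1 = ⟨y.z, h4⟩ := Subtype.ext h2
      have h6 : L (q y).2 g = LG p i y g := by
        change lgP p (MonoidAlgebra.mapRingHom G i (q y).2.1.val) g = _
        rw [h3]
        rfl
      rw [h5, h6])
  obtain ⟨m, hm, hmem⟩ := hmain
  refine ⟨m, hm, ?_⟩
  have h7 : ((l.map q).map fun y => c y.1 y.2).sum = tsum R₀ G l := by
    unfold tsum
    rw [List.map_map]
    congr 1
    exact List.map_congr_left fun y hy => (hq y (hl y hy)).2.2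
  rw [← h7]
  exact hmem

end Pool.Agent.Lib.MPb6f35e.K2
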