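import Pool.Agent.Lib.MP_b6f35e_al.K2.SpecD
import Pool.Agent.Lib.MP_b6f35e_al.K2.ABS

/-!
# K_2 theorem, module BLK: `EE` is the sum of the `EE` at the constant words
-/

set_option autoImplicit false

noncomputable section

namespace Pool.Agent.Lib.MPb6f35e.K2

open Pool.Agent.Lib.MPb6f35e.WH

universe u v w x

namespace BLKaux

/-! ### degrees -/

lemma exists_of_coeff_mul {R W : Type*} [Semiring R] [Monoid W] {x y : MonoidAlgebra R W} {m : W}
    (h : (x * y).coeff m ≠ 0) : ∃ a b, x.coeff a ≠ 0 ∧ y.coeff b ≠ 0 ∧ a * b = m := by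
  classical
  by_contra hc
  push Not at hc
  apply h
  rw [MonoidAlgebra.coeff_mul]
  refine Finset.sum_eq_zero fun a ha => Finset.sum_eq_zero fun b hb => ?_
  rw [Finsupp.mem_support_iff] at ha hb
  exact if_neg (hc a b ha hb)

section

variable {N : ℕ} {G : Type v} [Group G] {ι : Type}

/-- all group elements have the degree `j` -/
def Deg (j : ZMod N) (a : SR N G ι) : Prop := ∀ I J g, (a I J).coeff g ≠ 0 → dg g = j

lemma dg_mul (g h : WR N G) : dg (g * h) = dg g + dg h := rfl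

lemma Deg.mul [NeZero N] [Fintype ι] [DecidableEq ι] {i j : ZMod N} {a b : SR N G ι}
    (ha : Deg i a) (hb : Deg j b) : Deg (i + j) (a * b) := by
  intro I J g h
  rw [Matrix.mul_apply, MonoidAlgebra.coeff_sum, Finsupp.finsetSum_apply] at h
  obtain ⟨L, -, hL⟩ := Finset.exists_ne_zero_of_sum_ne_zero h
  obtain ⟨x, y, hx, hy, rfl⟩ := exists_of_coeff_mul hL
  rw [dg_mul, ha _ _ _ hx, hb _ _ _ hy]

lemma deg_one [NeZero N] [Fintype ι] [DecidableEq ι] : Deg 0 (1 : SR N G ι) := by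
  classical
  intro I J g h
  rw [Matrix.one_apply] at h
  split_ifs at h with h1
  · rw [MonoidAlgebra.one_def, MonoidAlgebra.coeff_single, Finsupp.single_apply] at h
    split_ifs at h with h2
    · rw [← h2]; rfl
    · exact absurd rfl h
  · exact absurd rfl h

lemma deg_tau [NeZero N] [Fintype ι] [DecidableEq ι] : Deg 1 (tauS N G ι : SR N G ι) := by
  classical
  intro I J g h
  have h0 : (tauS N G ι : SR N G ι) I J =
    if J = sh I then MonoidAlgebra.single (tW N G) 1 else 0 := rfl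
  rw [h0] at h
  split_ifs at h with h1
  · rw [MonoidAlgebra.coeff_single, Finsupp.single_apply] at h
    split_ifs at h with h2
    · rw [← h2]; rfl
    · exact absurd rfl h
  · exact absurd rfl h

lemma deg_tau_pow [NeZero N] [Fintype ι] [DecidableEq ι] (j : ℕ) :
    Deg (j : ZMod N) ((tauS N G ι : SR N G ι) ^ j) := by
  induction j with
  | zero => rw [pow_zero, Nat.cast_zero]; exact deg_one
  | succ j ih => rw [pow_succ, Nat.cast_succ]; exact ih.mul deg_tau

lemma deg_iB (k : Type u) [CommRing k] [NeZero N] (r : k →+* ZMod N) [Fintype ι] [DecidableEq ι]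
    (b : TR k G ι N) : Deg 0 (iB k N r G ι b) := by
  intro I J g h
  have h0 : iB k N r G ι b I J = MonoidAlgebra.mapDomain (inW N G)
    (MonoidAlgebra.mapRingHom _ r (b I J)) := rfl
  rw [h0, MonoidAlgebra.coeff_mapDomain] at h
  by_contra hg
  apply h
  apply Finsupp.mapDomain_of_notMem_range
  rintro ⟨γ, rfl⟩
  exact hg rfl

/-- the coefficients of `i(b) e` at elements of degree 0 -/
lemma coeff_iB_e (k : Type u) [CommRing k] [NeZero N] (r : k →+* ZMod N) [Fintype ι]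
    [DecidableEq ι] (b : TR k G ι N) (I K : ZMod N → ι) (g : WR N G) (hg : dg g = 0) :
    ((iB k N r G ι b * eS N (tauS N G ι)) I K).coeff g = (iB k N r G ι b I K).coeff g := by
  have hN : 0 < N := NeZero.pos N
  rw [eS, Finset.mul_sum, Matrix.sum_apply, MonoidAlgebra.coeff_sum, Finsupp.finsetSum_apply,
    Finset.sum_eq_single 0]
  · rw [pow_zero, mul_one]
  · intro j hj hj0
    by_contra h
    have h1 := ((deg_iB k r b).mul (deg_tau_pow j)) I K g h
    rw [zero_add, hg] at h1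
    rw [Finset.mem_range] at hj
    have h2 := (ZMod.natCast_eq_zero_iff j N).1 h1.symm
    exact hj0 (Nat.eq_zero_of_dvd_of_lt h2 hj)
  · intro h
    exact absurd (Finset.mem_range.2 hN) h

end

/-! ### units which respect the types -/

section

variable {N : ℕ} [NeZero N] {G : Type v} [Group G] {ι : Type} [Fintype ι] [DecidableEq ι]

/-- `a` and `a⁻¹` respect the types, and the `a' l` are the blocks. -/
def Blk (a : (SR N G ι)ˣ) (a' : ι → (SR N G Unit)ˣ) : Prop :=
  DSt (a : SR N G ι) ∧ DSt ((a⁻¹ : (SR N G ι)ˣ) : SR N G ι) ∧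
    ∀ l, (a' l : SR N G Unit) = sbS l (a : SR N G ι)

variable (hB : SpecBLS.{u, v})
include hB

lemma Blk.inv_apply {a : (SR N G ι)ˣ} {a' : ι → (SR N G Unit)ˣ} (h : Blk a a') (l : ι) :
    (((a' l)⁻¹ : (SR N G Unit)ˣ) : SR N G Unit) = sbS l ((a⁻¹ : (SR N G ι)ˣ) : SR N G ι) := by
  have h1 : (a' l : SR N G Unit) * sbS l ((a⁻¹ : (SR N G ι)ˣ) : SR N G ι) = 1 := by
    rw [h.2.2 l, ← hB.smul N G ι l _ _ h.1, Units.mul_inv, hB.sone]
  exact Units.inv_eq_of_mul_eq_one_right h1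

lemma Blk.inv {a : (SR N G ι)ˣ} {a' : ι → (SR N G Unit)ˣ} (h : Blk a a') :
    Blk a⁻¹ (fun l => (a' l)⁻¹) :=
  ⟨h.2.1, by rw [inv_inv]; exact h.1, fun l => h.inv_apply hB l⟩

lemma Blk.mul {a b : (SR N G ι)ˣ} {a' b' : ι → (SR N G Unit)ˣ} (h : Blk a a') (h' : Blk b b') :
    Blk (a * b) (fun l => a' l * b' l) := by
  refine ⟨?_, ?_, fun l => ?_⟩
  · rw [Units.val_mul]
    exact hB.mul N G ι _ _ h.1 h'.1
  · rw [mul_inv_rev, Units.val_mul]
    exact hB.mul N G ι _ _ h'.2.1 h.2.1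
  · rw [Units.val_mul, Units.val_mul, hB.smul N G ι l _ _ h.1, h.2.2 l, h'.2.2 l]

lemma Blk.cm {a b : (SR N G ι)ˣ} {a' b' : ι → (SR N G Unit)ˣ} (h : Blk a a') (h' : Blk b b') :
    Blk (cm a b) (fun l => K2.cm (a' l) (b' l)) :=
  ((h.mul hB h').mul hB (h.inv hB)).mul hB (h'.inv hB)

lemma cc_blk (Θ : WR N G → WR N G → ZMod N) (hΘ : ∀ a g, dg g ≠ 1 → Θ a g = 0)
    {a b : (SR N G ι)ˣ} {a' b' : ι → (SR N G Unit)ˣ} (h : Blk a a') (h' : Blk b b') :
    cc (dS N G ι) (phiS ι Θ) a b = ∑ l, cc (dS N G Unit) (phiS Unit Θ) (a' l) (b' l) := by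
  have hd := hB.sd N G ι
  have h1 : DSt (dS N G ι (a : SR N G ι)) := by
    by_cases hι : Nonempty ι
    · exact (hd hι.some _).2 h.1
    · intro I J g _
      exact absurd ⟨I 0⟩ hι
  have h2 : DSt ((((a⁻¹ : (SR N G ι)ˣ) : SR N G ι)) * dS N G ι (a : SR N G ι)) :=
    hB.mul N G ι _ _ h.2.1 h1
  rw [cc, hB.phi N G ι Θ hΘ _ _ (hB.mul N G ι _ _ h'.2.1 h2) h'.1]
  refine Finset.sum_congr rfl fun l _ => ?_
  rw [cc, hB.smul N G ι l _ _ h'.2.1, hB.smul N G ι l _ _ h.2.1, (hd l _).1,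
    h.inv_apply hB l, h'.inv_apply hB l, h.2.2 l, h'.2.2 l]

end

/-! ### the function `f` -/

lemma sbS_add {N : ℕ} {G : Type v} [Group G] {ι : Type} (l : ι) (a b : SR N G ι) :
    sbS l (a + b) = sbS l a + sbS l b := rfl

lemma BD_nm {k : Type u} [CommRing k] {G : Type v} [Group G] {ι : Type} [Fintype ι]
    [DecidableEq ι] {N : ℕ} [NeZero N] (M : ℕ) {a : TR k G ι N} (ha : BD (id : ι → ι) a) :
    BD (id : ι → ι) (nm (rot k G ι N) M a) :=
  BD_sum _ _ _ fun j => BD_rot_iter _ j ha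

lemma closedR_of_BD {k : Type u} [CommRing k] {G : Type v} [Group G] {ι : Type} [Fintype ι]
    [DecidableEq ι] {N : ℕ} [NeZero N] {a : TR k G ι N} (ha : BD (id : ι → ι) a) (l : ι) :
    ClosedR (fun _ : Unit => l) a := by
  intro I J hJ
  apply ha
  intro h
  exact hJ ⟨fun _ => (), h.symm⟩

end BLKaux

open BLKaux

theorem specBLK (hB : SpecBLS.{u, v}) : SpecBLK.{u, v} := by
  intro k _ N _ r G _ ι _ _ Θ hΘ hD hD' s t s' t' hs hsi ht hti hs' ht' hK
  have hS : Blk s s' := ⟨hs, hsi, hs'⟩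
  have hT : Blk t t' := ⟨ht, hti, ht'⟩
  have hC := hS.cm hB hT
  have hTS := hT.mul hB hS
  -- the part `f`
  have hf : fK N (rot k G ι N) (iB k N r G ι) (tauS N G ι) (phiS ι Θ) (cm s t) =
      ∑ l, fK N (rot k G Unit N) (iB k N r G Unit) (tauS N G Unit) (phiS Unit Θ)
        (cm (s' l) (t' l)) := by
    obtain ⟨q, hq⟩ := hK
    set q' : TR k G ι N := tr (id : ι → ι) q with hq'
    have hBD : BD (id : ι → ι) q' := BD_tr _ q
    -- the off-diagonal entries vanish
    have h1 : ∀ I K : ZMod N → ι, I ≠ K → iB k N r G ι (q - rot k G ι N q) I K = 0 := by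
      intro I K hIK
      ext g
      by_contra hg
      have hg' : (iB k N r G ι (q - rot k G ι N q) I K).coeff g ≠ 0 := hg
      have hdg := deg_iB k r (q - rot k G ι N q) I K g hg'
      rw [← coeff_iB_e k r _ I K g hdg] at hg'
      have h2 : iB k N r G ι (q - rot k G ι N q) * eS N (tauS N G ι) = ((cm s t : (SR N G ι)ˣ) : SR N G ι) - 1 := by
        rw [hq, add_sub_cancel_left]
      have h3 : DSt (((cm s t : (SR N G ι)ˣ) : SR N G ι) - 1) := (hB.add N G ι _ _ hC.1 (hB.one N G ι)).2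
      rw [h2] at hg'
      have h4 := h3 I K g hg'
      rw [hdg] at h4
      apply hIK
      rw [h4]
      funext j
      rw [add_zero]
    have h2 : iB k N r G ι (q' - rot k G ι N q') = iB k N r G ι (q - rot k G ι N q) := by
      ext1 I K
      by_cases hIK : I = K
      · subst hIK
        have h3 : (q' - rot k G ι N q') I I = (q - rot k G ι N q) I I := by
          rw [Matrix.sub_apply, Matrix.sub_apply, hq', ← tr_rot]
          simp [tr]
        show jW k N r G ((q' - rot k G ι N q') I I) = jW k N r G ((q - rot k G ι N q) I I)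
        rw [h3]
      · rw [h1 I K hIK]
        show jW k N r G ((q' - rot k G ι N q') I K) = 0
        rw [BD_sub _ hBD (BD_rot _ hBD) I K (fun h => hIK h), map_zero]
    have hκ : ((cm s t : (SR N G ι)ˣ) : SR N G ι) = 1 + iB k N r G ι (q' - rot k G ι N q') * eS N (tauS N G ι) := by
      rw [hq, h2]
    rw [specABS.f1 _ _ _ N _ _ _ _ _ hD (cm s t) q' hκ]
    have hBD2 : BD (id : ι → ι) (q' * (1 + nm (rot k G ι N) N q')) :=
      BD_mul _ hBD (BD_add _ (BD_one _) (BD_nm N hBD))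
    rw [hB.phi N G ι Θ hΘ _ _ (hB.iB k N r G ι _ hBD2) (hB.tau N G ι).1]
    refine Finset.sum_congr rfl fun l _ => ?_
    have hinj : Function.Injective (fun _ : Unit => l) := fun _ _ _ => rfl
    rw [hB.sB k N r G ι l, (hB.stau N G ι l).1, sb_mul hinj _ _ (closedR_of_BD hBD l), sb_add,
      sb_one hinj, sb_nm]
    symm
    apply specABS.f1 _ _ _ N _ _ _ _ _ hD'
    rw [hC.2.2 l, hκ, sbS_add, hB.sone, hB.smul N G ι l _ _
      (hB.iB k N r G ι _ (BD_sub _ hBD (BD_rot _ hBD))), hB.sB k N r G ι l, (hB.stau N G ι l).2,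
      sb_sub, sb_rot]
  rw [EE, cc_blk hB Θ hΘ hS hT, cc_blk hB Θ hΘ hT hS, cc_blk hB Θ hΘ hC hTS, hf,
    ← Finset.sum_sub_distrib, ← Finset.sum_sub_distrib, ← Finset.sum_sub_distrib]
  rfl

end Pool.Agent.Lib.MPb6f35e.K2
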