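import Pool.Agent.Lib.MP_b6f35e_al.K2.SpecD

/-!
# K_2 theorem (MP_b6f35e_al), module BLS (helper99): elements which respect the types
-/

set_option autoImplicit false
set_option linter.unusedSectionVars false

noncomputable section

namespace Pool.Agent.Lib.MPb6f35e.K2

open Pool.Agent.Lib.MPb6f35e.WH

universe u v w x

namespace BLSaux

section

variable {N : ℕ} {G : Type v} [Group G]

lemma dg_mul (a b : WR N G) : dg (a * b) = dg a + dg b := by
  unfold dg
  rw [SemidirectProduct.mul_right, toAdd_mul]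

lemma dg_one : dg (1 : WR N G) = 0 := rfl

lemma dg_in (γ : ZMod N → G) : dg (inW N G γ) = 0 := rfl

lemma dg_t : dg (tW N G) = 1 := rfl

/-- a nonzero coefficient of a product -/
lemma coeff_mul_ne {k : Type*} [Semiring k] {M : Type*} [Mul M] (a b : MonoidAlgebra k M) (m : M)
    (h : (a * b).coeff m ≠ 0) : ∃ g g', a.coeff g ≠ 0 ∧ b.coeff g' ≠ 0 ∧ g * g' = m := by
  classical
  rw [MonoidAlgebra.coeff_mul] at h
  obtain ⟨g, hg, h1⟩ := Finset.exists_ne_zero_of_sum_ne_zero h
  obtain ⟨g', hg', h2⟩ := Finset.exists_ne_zero_of_sum_ne_zero h1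
  refine ⟨g, g', Finsupp.mem_support_iff.1 hg, Finsupp.mem_support_iff.1 hg', ?_⟩
  by_contra hne
  exact h2 (if_neg hne)

lemma coeff_sum_ne {k : Type*} [Semiring k] {M : Type*} {α : Type*} (s : Finset α)
    (f : α → MonoidAlgebra k M) (m : M)
    (h : (∑ i ∈ s, f i).coeff m ≠ 0) : ∃ i ∈ s, (f i).coeff m ≠ 0 := by
  rw [MonoidAlgebra.coeff_sum, Finsupp.finsetSum_apply] at h
  exact Finset.exists_ne_zero_of_sum_ne_zero h

lemma coeff_zero_apply {k : Type*} [Semiring k] {M : Type*} (m : M) :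
    (0 : MonoidAlgebra k M).coeff m = 0 := rfl

end

section

variable {N : ℕ} [NeZero N] {G : Type v} [Group G] {ι : Type} [Fintype ι] [DecidableEq ι]

lemma dst_one : DSt (1 : SR N G ι) := by
  intro I J g h
  rw [Matrix.one_apply] at h
  by_cases hIJ : I = J
  · subst hIJ
    rw [if_pos rfl, MonoidAlgebra.one_def, MonoidAlgebra.coeff_single] at h
    have : g = 1 := by
      by_contra hne
      exact h (Finsupp.single_eq_of_ne hne)
    subst this
    funext j
    rw [dg_one, add_zero]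
  · rw [if_neg hIJ] at h
    exact absurd rfl h

lemma dst_zero : DSt (0 : SR N G ι) := by
  intro I J g h
  exact absurd rfl h

lemma dst_add {a b : SR N G ι} (ha : DSt a) (hb : DSt b) : DSt (a + b) := by
  intro I J g h
  rw [Matrix.add_apply, MonoidAlgebra.coeff_add, Finsupp.add_apply] at h
  by_cases h1 : (a I J).coeff g = 0
  · rw [h1, zero_add] at h
    exact hb I J g h
  · exact ha I J g h1

lemma dst_neg {a : SR N G ι} (ha : DSt a) : DSt (-a) := by
  intro I J g h
  refine ha I J g (fun h0 => h ?_)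
  rw [Matrix.neg_apply, MonoidAlgebra.coeff_neg, Finsupp.neg_apply, h0, neg_zero]

lemma dst_sub {a b : SR N G ι} (ha : DSt a) (hb : DSt b) : DSt (a - b) := by
  rw [sub_eq_add_neg]
  exact dst_add ha (dst_neg hb)

lemma dst_mul {a b : SR N G ι} (ha : DSt a) (hb : DSt b) : DSt (a * b) := by
  intro I K m h
  rw [Matrix.mul_apply] at h
  obtain ⟨J, _, hJ⟩ := coeff_sum_ne _ _ _ h
  obtain ⟨g, g', h1, h2, rfl⟩ := coeff_mul_ne _ _ _ hJ
  have e1 := ha I J g h1
  have e2 := hb J K g' h2
  rw [e2, e1]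
  funext j
  have e : j + dg g' + dg g = j + dg (g * g') := by rw [dg_mul]; ring
  exact congrArg I e

lemma dst_pow {a : SR N G ι} (ha : DSt a) (n : ℕ) : DSt (a ^ n) := by
  induction n with
  | zero => rw [pow_zero]; exact dst_one
  | succ n ih => rw [pow_succ]; exact dst_mul ih ha

lemma dst_sum {α : Type*} (s : Finset α) (f : α → SR N G ι) (h : ∀ i ∈ s, DSt (f i)) :
    DSt (∑ i ∈ s, f i) := by
  classical
  induction s using Finset.induction_on with
  | empty => rw [Finset.sum_empty]; exact dst_zero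
  | insert x s hx ih =>
    rw [Finset.sum_insert hx]
    exact dst_add (h x (Finset.mem_insert_self _ _))
      (ih (fun i hi => h i (Finset.mem_insert_of_mem hi)))

lemma dst_tau : DSt (tauS N G ι : SR N G ι) := by
  intro I J g h
  change (if J = sh I then MonoidAlgebra.single (tW N G) 1 else 0 :
    MonoidAlgebra (ZMod N) (WR N G)).coeff g ≠ 0 at h
  by_cases hJ : J = sh I
  · rw [if_pos hJ, MonoidAlgebra.coeff_single] at h
    have : g = tW N G := by
      by_contra hne
      exact h (Finsupp.single_eq_of_ne hne)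
    subst this
    rw [dg_t]
    exact hJ
  · rw [if_neg hJ] at h
    exact absurd rfl h

lemma dst_e : DSt (eS N (tauS N G ι)) := by
  unfold eS
  exact dst_sum _ _ (fun j _ => dst_pow dst_tau j)

/-- the entries of row `l` of an element which respects the types -/
lemma row_zero {a : SR N G ι} (ha : DSt a) (l : ι) (J : ZMod N → ι) (hJ : J ≠ fun _ => l) :
    a (fun _ => l) J = 0 := by
  ext g
  rw [coeff_zero_apply]
  by_contra h
  exact hJ (ha _ _ g h)

lemma sbS_mul {a : SR N G ι} (ha : DSt a) (b : SR N G ι) (l : ι) :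
    sbS l (a * b) = sbS l a * sbS l b := by
  ext1 I K
  rw [Matrix.mul_apply]
  change (a * b) (fun _ => l) (fun _ => l) = _
  rw [Matrix.mul_apply, Finset.sum_eq_single (fun _ => l)]
  · rw [Finset.sum_eq_single (fun _ => ())]
    · rfl
    · intro J _ hJ
      exact absurd (Subsingleton.elim J _) hJ
    · intro h
      exact absurd (Finset.mem_univ _) h
  · intro J _ hJ
    rw [row_zero ha l J hJ, zero_mul]
  · intro h
    exact absurd (Finset.mem_univ _) h

lemma sbS_one (l : ι) : sbS l (1 : SR N G ι) = 1 := by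
  ext1 I K
  change (1 : SR N G ι) (fun _ => l) (fun _ => l) = _
  rw [Matrix.one_apply_eq, Subsingleton.elim I K, Matrix.one_apply_eq]

lemma sbS_pow {a : SR N G ι} (ha : DSt a) (l : ι) (n : ℕ) : sbS l (a ^ n) = sbS l a ^ n := by
  induction n with
  | zero => rw [pow_zero, pow_zero, sbS_one]
  | succ n ih => rw [pow_succ, sbS_mul (dst_pow ha n), ih, pow_succ]

lemma sbS_sum {α : Type*} (s : Finset α) (f : α → SR N G ι) (l : ι) :
    sbS l (∑ i ∈ s, f i) = ∑ i ∈ s, sbS l (f i) := by
  ext1 I K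
  change (∑ i ∈ s, f i) (fun _ => l) (fun _ => l) = _
  rw [Matrix.sum_apply, Matrix.sum_apply]
  rfl

lemma sbS_tau (l : ι) : sbS l (tauS N G ι : SR N G ι) = tauS N G Unit := by
  ext1 I K
  change (if (fun _ : ZMod N => l) = sh (fun _ : ZMod N => l) then
    MonoidAlgebra.single (tW N G) 1 else 0 : MonoidAlgebra (ZMod N) (WR N G)) =
    (if K = sh I then MonoidAlgebra.single (tW N G) 1 else 0)
  rw [if_pos (show (fun _ : ZMod N => l) = sh (fun _ : ZMod N => l) from rfl),
    if_pos (Subsingleton.elim _ _)]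

/-- the pairing vanishes if `Θ` vanishes on the supports -/
lemma phiW_zero {W : Type v} [Group W] (Θ : W → W → ZMod N) (a b : MonoidAlgebra (ZMod N) W)
    (h : ∀ g g', a.coeff g ≠ 0 → b.coeff g' ≠ 0 → Θ g' (g * g') = 0) : phiW Θ a b = 0 := by
  have ea : a = ∑ g ∈ a.coeff.support, MonoidAlgebra.single g (a.coeff g) := by
    conv_lhs => rw [← MonoidAlgebra.sum_coeff_single a]
    rfl
  have eb : b = ∑ g ∈ b.coeff.support, MonoidAlgebra.single g (b.coeff g) := by
    conv_lhs => rw [← MonoidAlgebra.sum_coeff_single b]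
    rfl
  rw [ea, eb, map_sum]
  refine Finset.sum_eq_zero (fun g' hg' => ?_)
  rw [map_sum, AddMonoidHom.finsetSum_apply]
  refine Finset.sum_eq_zero (fun g hg => ?_)
  rw [phiW_single, h g g' (Finsupp.mem_support_iff.1 hg) (Finsupp.mem_support_iff.1 hg'), mul_zero,
    zero_mul]

lemma phi_term {Θ : WR N G → WR N G → ZMod N} (hΘ : ∀ a g, dg g ≠ 1 → Θ a g = 0)
    {a b : SR N G ι} (ha : DSt a) (hb : DSt b) (I J : ZMod N → ι)
    (hn : phiW Θ (a I J) (b J I) ≠ 0) : ∃ l : ι, I = (fun _ => l) ∧ J = fun _ => l := by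
  by_contra hno
  refine hn (phiW_zero Θ _ _ (fun g g' hg hg' => ?_))
  by_contra hne
  have hd : dg (g * g') = 1 := by
    by_contra h1
    exact hne (hΘ _ _ h1)
  have e1 := ha I J g hg
  have e2 := hb J I g' hg'
  have e3 : ∀ j, I j = I (j + 1) := by
    intro j
    have h1 := congrFun e2 j
    rw [e1] at h1
    rw [dg_mul] at hd
    have h2 : j + dg g' + dg g = j + 1 := by rw [← hd]; ring
    change I j = I (j + dg g' + dg g) at h1
    rw [h2] at h1
    exact h1
  have e4 := const_of_shift I e3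
  refine hno ⟨I 0, funext e4, ?_⟩
  rw [e1]
  funext j
  exact e4 _

lemma phi_eq {Θ : WR N G → WR N G → ZMod N} (hΘ : ∀ a g, dg g ≠ 1 → Θ a g = 0)
    {a b : SR N G ι} (ha : DSt a) (hb : DSt b) :
    phiS ι Θ a b = ∑ l : ι, phiS Unit Θ (sbS l a) (sbS l b) := by
  have h1 : ∀ l : ι, phiS Unit Θ (sbS l a) (sbS l b) =
      phiW Θ (a (fun _ => l) (fun _ => l)) (b (fun _ => l) (fun _ => l)) := by
    intro l
    rw [phiS_apply, Finset.sum_eq_single (fun _ => ()), Finset.sum_eq_single (fun _ => ())]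
    · rfl
    · intro J _ hJ
      exact absurd (Subsingleton.elim J _) hJ
    · intro h
      exact absurd (Finset.mem_univ _) h
    · intro J _ hJ
      exact absurd (Subsingleton.elim J _) hJ
    · intro h
      exact absurd (Finset.mem_univ _) h
  rw [phiS_apply, Finset.sum_congr rfl (fun l _ => h1 l)]
  have h2 : ∀ I : ZMod N → ι, ∑ J : ZMod N → ι, phiW Θ (a I J) (b J I) =
      phiW Θ (a I I) (b I I) := by
    intro I
    refine Finset.sum_eq_single I ?_ (fun h => absurd (Finset.mem_univ _) h)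
    intro J _ hJ
    by_contra hne
    obtain ⟨l, e1, e2⟩ := phi_term hΘ ha hb I J hne
    exact hJ (e2.trans e1.symm)
  rw [Finset.sum_congr rfl (fun I _ => h2 I)]
  symm
  have hinj : Function.Injective (fun (l : ι) (_ : ZMod N) => l) := by
    intro l l' h
    exact congrFun h 0
  refine Finset.sum_of_injOn (fun (l : ι) (_ : ZMod N) => l) (fun _ _ _ _ h => hinj h)
    (fun _ _ => Finset.mem_coe.2 (Finset.mem_univ _)) ?_ (fun _ _ => rfl)
  intro I _ hI
  by_contra hne
  obtain ⟨l, e1, _⟩ := phi_term hΘ ha hb I I hne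
  exact hI ⟨l, Finset.mem_coe.2 (Finset.mem_univ _), e1.symm⟩

end

lemma dst_iB (k : Type u) [CommRing k] (N : ℕ) [NeZero N] (r : k →+* ZMod N) (G : Type v) [Group G]
    (ι : Type) [Fintype ι] [DecidableEq ι] (b : TR k G ι N) (hb : BD (id : ι → ι) b) :
    DSt (K2.iB k N r G ι b) := by
  intro I J g h
  change (jW k N r G (b I J)).coeff g ≠ 0 at h
  by_cases hIJ : I = J
  · subst hIJ
    have hg : g ∈ Set.range (inW N G) := by
      by_contra hg
      refine h ?_
      change (Finsupp.mapDomain (inW N G) _) g = 0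
      exact Finsupp.mapDomain_of_notMem_range _ _ hg
    obtain ⟨γ, rfl⟩ := hg
    funext j
    rw [dg_in, add_zero]
  · have h0 : b I J = 0 := hb I J hIJ
    rw [h0, map_zero] at h
    exact absurd rfl h

end BLSaux

open BLSaux in
/-- module BLS -/
theorem specBLS : SpecBLS.{u, v} where
  one N _ G _ ι _ _ := dst_one
  add N _ G _ ι _ _ a b ha hb := ⟨dst_add ha hb, dst_sub ha hb⟩
  mul N _ G _ ι _ _ a b ha hb := dst_mul ha hb
  iB k _ N _ r G _ ι _ _ b hb := dst_iB k N r G ι b hb
  tau N _ G _ ι _ _ := ⟨dst_tau, dst_e⟩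
  smul N _ G _ ι _ _ l a b ha := sbS_mul ha b l
  sone N _ G _ ι _ _ l := sbS_one l
  sB k _ N _ r G _ ι _ _ l b := rfl
  stau N _ G _ ι _ _ l := by
    refine ⟨sbS_tau l, ?_⟩
    unfold eS
    rw [sbS_sum]
    refine Finset.sum_congr rfl (fun j _ => ?_)
    rw [sbS_pow dst_tau, sbS_tau]
  sd N _ G _ ι l a := by
    refine ⟨rfl, fun ha I J g h => ha I J g (fun h0 => h ?_)⟩
    change dg g * (a I J).coeff g = 0
    rw [h0, mul_zero]
  phi N _ G _ ι _ _ Θ hΘ a b ha hb := phi_eq hΘ ha hb

end Pool.Agent.Lib.MPb6f35e.K2
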