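import Pool.Agent.Lib.MP_b6f35e_al.K2.SpecC

/-!
# K_2 theorem (MP_b6f35e_al), module CON (helper32)
-/

set_option autoImplicit false

noncomputable section

namespace Pool.Agent.Lib.MPb6f35e.K2

open Pool.Agent.Lib.MPb6f35e.WH

universe u v

namespace CONaux

theorem tf_pow {k : Type*} [CommRing k] {p : ℕ} (h : ∀ c : k, (p : k) * c = 0 → c = 0) (n : ℕ) :
    ∀ c : k, ((p ^ n : ℕ) : k) * c = 0 → c = 0 := by
  induction n with
  | zero => intro c hc; simpa using hc
  | succ n ih =>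
    intro c hc
    rw [pow_succ, Nat.cast_mul, mul_assoc] at hc
    exact h c (ih _ hc)

theorem dg_mul {N : ℕ} {G : Type*} [Group G] (a b : WR N G) : dg (a * b) = dg a + dg b := by
  unfold dg
  rw [SemidirectProduct.mul_right, toAdd_mul]

theorem dg_inv {N : ℕ} {G : Type*} [Group G] (a : WR N G) : dg a⁻¹ = - dg a := by
  unfold dg
  rw [SemidirectProduct.inv_right, toAdd_inv]

theorem dg_conj {N : ℕ} {G : Type*} [Group G] (c : G) (t : WR N G) :
    dg (t * w0 N c * t⁻¹) = 1 := by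
  rw [dg_mul, dg_mul, dg_inv]
  have : dg (w0 N c) = 1 := rfl
  rw [this]
  abel

/-- The coefficient of an entry of a matrix over a group ring. -/
def ev {A K ι : Type*} [Semiring K] (I J : ι) (g : A) :
    Matrix ι ι (MonoidAlgebra K A) →+ K :=
  ((Finsupp.applyAddHom g).comp MonoidAlgebra.coeffAddEquiv.toAddMonoidHom).comp
    (Matrix.entryAddMonoidHom _ I J)

theorem ev_apply {A K ι : Type*} [Semiring K] (I J : ι) (g : A)
    (m : Matrix ι ι (MonoidAlgebra K A)) : ev I J g m = (m I J).coeff g := rfl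

end CONaux

open CONaux in
theorem specCON (hTHE : SpecTHE.{v, u}) (hXWM : SpecXWM.{v, u}) (hDGR : SpecDGR.{u, v})
    (hHOC : SpecHOC.{u, v}) (hHFO : SpecHFO.{u, v}) : SpecCON.{u, v} := by
  intro k _ p e _ _ r hr G _ ι _ _ c X hX hc
  have htf := tf_pow hr.tf (e + 1)
  obtain ⟨h1, h2, -⟩ := hXWM (p ^ (e + 1)) G k c X hX hc
  have hcoc : ∀ a b g : WR (p ^ (e + 1)) G,
      Th (w0 (p ^ (e + 1)) c) (XW X) (a * b) g =
        Th (w0 (p ^ (e + 1)) c) (XW X) a (b * g * b⁻¹) + Th (w0 (p ^ (e + 1)) c) (XW X) b g :=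
    fun a b g => hTHE.coc _ k _ _ h1 a b g
  have hcocN : ∀ a b g : WR (p ^ (e + 1)) G,
      ThN r c X (a * b) g = ThN r c X a (b * g * b⁻¹) + ThN r c X b g := fun a b g => by
    unfold ThN
    rw [hcoc, map_add]
  refine
    { pos := Nat.pos_of_ne_zero (NeZero.ne _)
      rotN := specT.rotN k G ι (p ^ (e + 1))
      tf := ?_
      ker := ?_
      charN := ?_
      conj := hDGR.conj k (p ^ (e + 1)) r G ι
      tauN := hDGR.tauN (p ^ (e + 1)) G ι
      inj := hDGR.inj k (p ^ (e + 1)) r hr.ker G ι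
      d_mul := hDGR.dmul (p ^ (e + 1)) G ι
      d_i := hDGR.di k (p ^ (e + 1)) r G ι
      d_tau := hDGR.dtau (p ^ (e + 1)) G ι
      H1 := hHOC.h1 (p ^ (e + 1)) G ι _ hcocN
      H2 := hHOC.h2 (p ^ (e + 1)) G ι _ ?_
      H3 := hHOC.h3 k (p ^ (e + 1)) r G ι _ ?_
      H4 := ?_ }
  · intro b hb
    ext I J g
    have h4 := congrArg (ev I J g) hb
    rw [map_nsmul, map_zero, nsmul_eq_mul, ev_apply] at h4
    exact htf _ h4
  · intro b hb
    exact specN.ker k G ι p (e + 1) hr.tf b hb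
  · have h5 : ((p ^ (e + 1) : ℕ) : SR (p ^ (e + 1)) G ι) =
        (p ^ (e + 1)) • (1 : SR (p ^ (e + 1)) G ι) := by
      rw [nsmul_eq_mul, mul_one]
    rw [h5]
    ext I J g
    have h7 : ∀ z : ZMod (p ^ (e + 1)), (p ^ (e + 1)) • z = 0 := fun z => by
      rw [nsmul_eq_mul, ZMod.natCast_self, zero_mul]
    have h6 := map_nsmul (ev (K := ZMod (p ^ (e + 1))) I J g) (p ^ (e + 1)) 1
    rw [h7] at h6
    exact h6
  · intro g
    show r (Th _ _ g g) = 0
    rw [hTHE.self _ k _ _ h1 h2 g, map_zero]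
  · intro a g hg
    show r (Th _ _ a g) = 0
    rw [hTHE.zero _ k _ _ a g ?_, map_zero]
    rintro ⟨t, rfl⟩
    exact hg (dg_conj c t)
  · intro b hb
    exact hHFO k (p ^ (e + 1)) htf r G ι _ hcoc b hb

end Pool.Agent.Lib.MPb6f35e.K2

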