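import Pool.Agent.Lib.MP_b6f35e_al.K2.SpecB

/-!
# K_2 theorem (MP_b6f35e_al), module DES: descent to a finitely generated ring of coefficients and
to finite matrices
-/

set_option autoImplicit false

noncomputable section

namespace Pool.Agent.Lib.MPb6f35e.K2

universe u v

namespace DESaux

section steinberg

variable {I : Type} {B : Type u} [Ring B]

lemma map_cm {X Y : Type*} [Group X] [Group Y] (F : X →* Y) (s t : X) :
    F (cm s t) = cm (F s) (F t) := by
  simp only [cm, map_mul, map_inv]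

lemma of_mul_inv_eq_one {x y : FreeGroup (StGen I B)} (h : StRel I B (x * y⁻¹)) :
    (QuotientGroup.mk x : St I B) = QuotientGroup.mk y := by
  have h1 : (QuotientGroup.mk (x * y⁻¹) : St I B) = 1 := by
    rw [QuotientGroup.eq_one_iff]
    exact Subgroup.subset_normalClosure h
  rw [QuotientGroup.mk_mul, QuotientGroup.mk_inv, mul_inv_eq_one] at h1
  exact h1

lemma xx_add {i j : I} (h : i ≠ j) (a b : B) :
    (xx h a : St I B) * xx h b = xx h (a + b) :=
  of_mul_inv_eq_one (StRel.add i j h a b)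

lemma xx_comm {i j k l : I} (h : i ≠ j) (h' : k ≠ l) (hjk : j ≠ k) (hil : i ≠ l) (a b : B) :
    cm (xx h a : St I B) (xx h' b) = 1 := by
  have h1 : (QuotientGroup.mk (cm (FreeGroup.of ⟨i, j, h, a⟩)
      (FreeGroup.of ⟨k, l, h', b⟩)) : St I B) = 1 := by
    rw [QuotientGroup.eq_one_iff]
    exact Subgroup.subset_normalClosure (StRel.comm i j k l h h' hjk hil a b)
  exact h1

lemma xx_mul {i j k : I} (h : i ≠ j) (h' : j ≠ k) (h'' : i ≠ k) (a b : B) :
    cm (xx h a : St I B) (xx h' b) = xx h'' (a * b) :=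
  of_mul_inv_eq_one (StRel.mul i j k h h' h'' a b)

/-- the words in the free group -/
def wwW {i j : I} (h : i ≠ j) (z : Bˣ) : FreeGroup (StGen I B) :=
  FreeGroup.of ⟨i, j, h, (z : B)⟩ * FreeGroup.of ⟨j, i, h.symm, -((z⁻¹ : Bˣ) : B)⟩ *
    FreeGroup.of ⟨i, j, h, (z : B)⟩

/-- the word of `h_ij(u)` -/
def hhW {i j : I} (h : i ≠ j) (z : Bˣ) : FreeGroup (StGen I B) := wwW h z * wwW h (-1)

/-- the word of the symbol -/
def symW {i j k : I} (h : i ≠ j) (h' : i ≠ k) (z y : Bˣ) : FreeGroup (StGen I B) :=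
  cm (hhW h z) (hhW h' y)

lemma mk_symW {i j k : I} (h : i ≠ j) (h' : i ≠ k) (z y : Bˣ) :
    (QuotientGroup.mk' (Subgroup.normalClosure {x | StRel I B x}) (symW h h' z y) : St I B) =
      sym h h' z y := rfl

end steinberg

section desc

variable {R : Type u} [CommRing R] {G : Type v} [Group G]

/-- `ι` -/
abbrev io (G : Type v) [Group G] (S : Finset R) :
    MonoidAlgebra (Algebra.adjoin ℤ (S : Set R)) G →+* MonoidAlgebra R G :=
  MonoidAlgebra.mapRingHom G (Algebra.adjoin ℤ (S : Set R)).val.toRingHom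

lemma io_coeff (S : Finset R) (x : MonoidAlgebra (Algebra.adjoin ℤ (S : Set R)) G) (g : G) :
    (io G S x).coeff g = ((x.coeff g : Algebra.adjoin ℤ (S : Set R)) : R) :=
  MonoidAlgebra.coeff_mapRingHom _ _ _

lemma io_inj (S : Finset R) : Function.Injective (io G S) := by
  intro x y h
  apply MonoidAlgebra.coeff_injective
  apply Finsupp.ext
  intro g
  apply Subtype.ext
  rw [← io_coeff, ← io_coeff, h]

open Classical in
/-- the set of the coefficients -/
def co (a : MonoidAlgebra R G) : Finset R := a.coeff.support.image fun g => a.coeff g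

omit [Group G] in
lemma co_mem (a : MonoidAlgebra R G) (S : Finset R) (hS : co a ⊆ S) (g : G) :
    a.coeff g ∈ Algebra.adjoin ℤ (S : Set R) := by
  classical
  by_cases h : a.coeff g = 0
  · rw [h]
    exact zero_mem _
  · refine Algebra.subset_adjoin (hS ?_)
    unfold co
    rw [Finset.mem_image]
    exact ⟨g, Finsupp.mem_support_iff.2 h, rfl⟩

lemma io_lift (a : MonoidAlgebra R G) (S : Finset R) (hS : co a ⊆ S) : ∃ a', io G S a' = a := by
  refine ⟨MonoidAlgebra.ofCoeff (Finsupp.onFinset a.coeff.support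
    (fun g => (⟨a.coeff g, co_mem a S hS g⟩ : Algebra.adjoin ℤ (S : Set R))) ?_), ?_⟩
  · intro g hg
    rw [Finsupp.mem_support_iff]
    intro h
    exact hg (Subtype.ext h)
  · apply MonoidAlgebra.coeff_injective
    apply Finsupp.ext
    intro g
    rw [io_coeff]
    rfl

lemma io_unit (z : (MonoidAlgebra R G)ˣ) (S : Finset R) (h1 : co (z : MonoidAlgebra R G) ⊆ S)
    (h2 : co ((z⁻¹ : (MonoidAlgebra R G)ˣ) : MonoidAlgebra R G) ⊆ S) :
    ∃ z' : (MonoidAlgebra (Algebra.adjoin ℤ (S : Set R)) G)ˣ,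
      Units.map (io G S).toMonoidHom z' = z := by
  obtain ⟨a, ha⟩ := io_lift _ S h1
  obtain ⟨b, hb⟩ := io_lift _ S h2
  refine ⟨⟨a, b, ?_, ?_⟩, ?_⟩
  · apply io_inj S
    rw [map_mul, map_one, ha, hb, Units.mul_inv]
  · apply io_inj S
    rw [map_mul, map_one, ha, hb, Units.inv_mul]
  · apply Units.ext
    exact ha

open Classical in
/-- The map on the generators. -/
def Lg (n : ℕ) (S : Finset R) (x : StGen ℕ (MonoidAlgebra R G)) :
    St (Fin (n + 5)) (MonoidAlgebra (Algebra.adjoin ℤ (S : Set R)) G) :=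
  if h : x.i < n + 5 ∧ x.j < n + 5 ∧ ∃ a', io G S a' = x.a then
    xx (i := (⟨x.i, h.1⟩ : Fin (n + 5))) (j := ⟨x.j, h.2.1⟩)
      (fun e => x.ne (congrArg Fin.val e)) (Classical.choose h.2.2)
  else 1

lemma Lg_eq (n : ℕ) (S : Finset R) (i j : Fin (n + 5)) (hij : i ≠ j) (i' j' : ℕ) (hi : i' = i)
    (hj : j' = j) (hij' : i' ≠ j') (a : MonoidAlgebra R G)
    (a' : MonoidAlgebra (Algebra.adjoin ℤ (S : Set R)) G) (ha : io G S a' = a) :
    Lg n S (⟨i', j', hij', a⟩ : StGen ℕ (MonoidAlgebra R G)) = xx hij a' := by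
  subst hi hj
  have h : (i : ℕ) < n + 5 ∧ (j : ℕ) < n + 5 ∧ ∃ a', io G S a' = a := ⟨i.2, j.2, a', ha⟩
  unfold Lg
  rw [dif_pos h]
  have e : Classical.choose h.2.2 = a' := by
    apply io_inj S
    rw [Classical.choose_spec h.2.2, ha]
  show xx _ (Classical.choose h.2.2) = _
  rw [e]

/-- The homomorphism of the free group. -/
def Lh (n : ℕ) (S : Finset R) : FreeGroup (StGen ℕ (MonoidAlgebra R G)) →*
    St (Fin (n + 5)) (MonoidAlgebra (Algebra.adjoin ℤ (S : Set R)) G) :=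
  FreeGroup.lift (Lg n S)

lemma Lh_of (n : ℕ) (S : Finset R) (i j : Fin (n + 5)) (hij : i ≠ j) (i' j' : ℕ) (hi : i' = i)
    (hj : j' = j) (hij' : i' ≠ j') (a : MonoidAlgebra R G)
    (a' : MonoidAlgebra (Algebra.adjoin ℤ (S : Set R)) G) (ha : io G S a' = a) :
    Lh n S (FreeGroup.of (⟨i', j', hij', a⟩ : StGen ℕ (MonoidAlgebra R G))) = xx hij a' := by
  unfold Lh
  rw [FreeGroup.lift_apply_of]
  exact Lg_eq n S i j hij i' j' hi hj hij' a a' ha

/-- `P` -/
def Pg (x : FreeGroup (StGen ℕ (MonoidAlgebra R G))) : Prop :=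
  ∃ (n₀ : ℕ) (S₀ : Finset R), ∀ n, n₀ ≤ n → ∀ S, S₀ ⊆ S → Lh n S x = 1

variable (R G) in
/-- `P` as a subgroup -/
def Psub : Subgroup (FreeGroup (StGen ℕ (MonoidAlgebra R G))) where
  carrier := {x | Pg x}
  one_mem' := ⟨0, ∅, fun n _ S _ => map_one _⟩
  mul_mem' := by
    classical
    rintro x y ⟨n₁, S₁, h₁⟩ ⟨n₂, S₂, h₂⟩
    refine ⟨max n₁ n₂, S₁ ∪ S₂, fun n hn S hS => ?_⟩
    rw [map_mul, h₁ n ((le_max_left _ _).trans hn) S (Finset.subset_union_left.trans hS),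
      h₂ n ((le_max_right _ _).trans hn) S (Finset.subset_union_right.trans hS), one_mul]
  inv_mem' := by
    rintro x ⟨n₁, S₁, h₁⟩
    refine ⟨n₁, S₁, fun n hn S hS => ?_⟩
    rw [map_inv, h₁ n hn S hS, inv_one]

instance : (Psub R G).Normal where
  conj_mem := by
    rintro x ⟨n₁, S₁, h₁⟩ g
    refine ⟨n₁, S₁, fun n hn S hS => ?_⟩
    rw [map_mul, map_mul, map_inv, h₁ n hn S hS, mul_one, mul_inv_cancel]

lemma rel_mem (r : FreeGroup (StGen ℕ (MonoidAlgebra R G))) (hr : StRel ℕ (MonoidAlgebra R G) r) :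
    r ∈ Psub R G := by
  classical
  induction hr with
  | add i j h a b =>
    refine ⟨i + j, co a ∪ co b, fun n hn S hS => ?_⟩
    obtain ⟨a', ha⟩ := io_lift a S (Finset.subset_union_left.trans hS)
    obtain ⟨b', hb⟩ := io_lift b S (Finset.subset_union_right.trans hS)
    have hij : (⟨i, by omega⟩ : Fin (n + 5)) ≠ ⟨j, by omega⟩ := fun e => h (congrArg Fin.val e)
    rw [map_mul, map_mul, map_inv, Lh_of n S _ _ hij i j rfl rfl h a a' ha,
      Lh_of n S _ _ hij i j rfl rfl h b b' hb,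
      Lh_of n S _ _ hij i j rfl rfl h (a + b) (a' + b') (by rw [map_add, ha, hb]), xx_add,
      mul_inv_cancel]
  | comm i j k l h h' hjk hil a b =>
    refine ⟨i + j + k + l, co a ∪ co b, fun n hn S hS => ?_⟩
    obtain ⟨a', ha⟩ := io_lift a S (Finset.subset_union_left.trans hS)
    obtain ⟨b', hb⟩ := io_lift b S (Finset.subset_union_right.trans hS)
    have hij : (⟨i, by omega⟩ : Fin (n + 5)) ≠ ⟨j, by omega⟩ := fun e => h (congrArg Fin.val e)
    have hkl : (⟨k, by omega⟩ : Fin (n + 5)) ≠ ⟨l, by omega⟩ := fun e => h' (congrArg Fin.val e)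
    rw [map_cm, Lh_of n S _ _ hij i j rfl rfl h a a' ha, Lh_of n S _ _ hkl k l rfl rfl h' b b' hb]
    exact xx_comm _ _ (fun e => hjk (congrArg Fin.val e)) (fun e => hil (congrArg Fin.val e)) _ _
  | mul i j k h h' h'' a b =>
    refine ⟨i + j + k, co a ∪ co b, fun n hn S hS => ?_⟩
    obtain ⟨a', ha⟩ := io_lift a S (Finset.subset_union_left.trans hS)
    obtain ⟨b', hb⟩ := io_lift b S (Finset.subset_union_right.trans hS)
    have hij : (⟨i, by omega⟩ : Fin (n + 5)) ≠ ⟨j, by omega⟩ := fun e => h (congrArg Fin.val e)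
    have hjk : (⟨j, by omega⟩ : Fin (n + 5)) ≠ ⟨k, by omega⟩ := fun e => h' (congrArg Fin.val e)
    have hik : (⟨i, by omega⟩ : Fin (n + 5)) ≠ ⟨k, by omega⟩ := fun e => h'' (congrArg Fin.val e)
    rw [map_mul, map_inv, map_cm, Lh_of n S _ _ hij i j rfl rfl h a a' ha,
      Lh_of n S _ _ hjk j k rfl rfl h' b b' hb,
      Lh_of n S _ _ hik i k rfl rfl h'' (a * b) (a' * b') (by rw [map_mul, ha, hb]),
      xx_mul hij hjk hik, mul_inv_cancel]

lemma Lh_wwW (n : ℕ) (S : Finset R) (i j : Fin (n + 5)) (hij : i ≠ j) (i' j' : ℕ) (hi : i' = i)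
    (hj : j' = j) (hij' : i' ≠ j') (z : (MonoidAlgebra (Algebra.adjoin ℤ (S : Set R)) G)ˣ) :
    Lh n S (wwW hij' (Units.map (io G S).toMonoidHom z)) = ww hij z := by
  have e1 : Lh n S (FreeGroup.of ⟨i', j', hij',
      ((Units.map (io G S).toMonoidHom z : (MonoidAlgebra R G)ˣ) : MonoidAlgebra R G)⟩) =
      xx hij (z : MonoidAlgebra (Algebra.adjoin ℤ (S : Set R)) G) :=
    Lh_of n S i j hij i' j' hi hj hij' _ _ rfl
  have e2 : Lh n S (FreeGroup.of ⟨j', i', hij'.symm,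
      -(((Units.map (io G S).toMonoidHom z)⁻¹ : (MonoidAlgebra R G)ˣ) : MonoidAlgebra R G)⟩) =
      xx hij.symm (-((z⁻¹ : (MonoidAlgebra (Algebra.adjoin ℤ (S : Set R)) G)ˣ) :
        MonoidAlgebra (Algebra.adjoin ℤ (S : Set R)) G)) := by
    refine Lh_of n S j i hij.symm j' i' hj hi hij'.symm _ _ ?_
    rw [map_neg]
    rfl
  unfold wwW ww
  rw [map_mul, map_mul, e1, e2]

lemma Lh_hhW (n : ℕ) (S : Finset R) (i j : Fin (n + 5)) (hij : i ≠ j) (i' j' : ℕ) (hi : i' = i)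
    (hj : j' = j) (hij' : i' ≠ j') (z : (MonoidAlgebra (Algebra.adjoin ℤ (S : Set R)) G)ˣ) :
    Lh n S (hhW hij' (Units.map (io G S).toMonoidHom z)) = hh hij z := by
  unfold hhW hh
  have h1 : Units.map (io G S).toMonoidHom
      (-1 : (MonoidAlgebra (Algebra.adjoin ℤ (S : Set R)) G)ˣ) = -1 := by
    apply Units.ext
    simp
  have h2 := Lh_wwW n S i j hij i' j' hi hj hij'
    (-1 : (MonoidAlgebra (Algebra.adjoin ℤ (S : Set R)) G)ˣ)
  rw [h1] at h2
  rw [map_mul, Lh_wwW n S i j hij i' j' hi hj hij' z, h2]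

lemma Lh_symW (n : ℕ) (S : Finset R) (h : (0 : ℕ) ≠ 1) (h' : (0 : ℕ) ≠ 2)
    (z y : (MonoidAlgebra (Algebra.adjoin ℤ (S : Set R)) G)ˣ) :
    Lh n S (symW h h' (Units.map (io G S).toMonoidHom z) (Units.map (io G S).toMonoidHom y)) =
      sym (o01 n) (o02 n) z y := by
  unfold symW sym
  rw [map_cm, Lh_hhW n S (o0 n) (o1 n) (o01 n) 0 1 rfl rfl h z,
    Lh_hhW n S (o0 n) (o2 n) (o02 n) 0 2 rfl rfl h' y]

lemma lift_list (l : List ((MonoidAlgebra R G)ˣ × (MonoidAlgebra R G)ˣ)) :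
    ∃ S₁ : Finset R, ∀ S, S₁ ⊆ S →
      ∃ l' : List ((MonoidAlgebra (Algebra.adjoin ℤ (S : Set R)) G)ˣ ×
        (MonoidAlgebra (Algebra.adjoin ℤ (S : Set R)) G)ˣ),
      l'.map (fun a => (Units.map (io G S).toMonoidHom a.1,
        Units.map (io G S).toMonoidHom a.2)) = l := by
  classical
  induction l with
  | nil => exact ⟨∅, fun S _ => ⟨[], rfl⟩⟩
  | cons a l ih =>
    obtain ⟨S₁, h₁⟩ := ih
    refine ⟨S₁ ∪ ((co (a.1 : MonoidAlgebra R G) ∪
      co ((a.1⁻¹ : (MonoidAlgebra R G)ˣ) : MonoidAlgebra R G)) ∪ (co (a.2 : MonoidAlgebra R G) ∪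
      co ((a.2⁻¹ : (MonoidAlgebra R G)ˣ) : MonoidAlgebra R G))), fun S hS => ?_⟩
    have hS1 := Finset.union_subset_iff.1 hS
    have hS2 := Finset.union_subset_iff.1 hS1.2
    have hS3 := Finset.union_subset_iff.1 hS2.1
    have hS4 := Finset.union_subset_iff.1 hS2.2
    obtain ⟨l', hl'⟩ := h₁ S hS1.1
    obtain ⟨z, hz⟩ := io_unit a.1 S hS3.1 hS3.2
    obtain ⟨y, hy⟩ := io_unit a.2 S hS4.1 hS4.2
    refine ⟨(z, y) :: l', ?_⟩
    rw [List.map_cons, hl', hz, hy]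

end desc

end DESaux

open DESaux

theorem specDES : SpecDES.{u, v} := by
  classical
  intro R _ G _ l m hl
  have h01 : (0 : ℕ) ≠ 1 := zero_ne_one
  have h02 : (0 : ℕ) ≠ 2 := by decide
  -- the word
  obtain ⟨W, hW⟩ : ∃ W, W = ((l.map fun a => symW h01 h02 a.1 a.2).prod) ^ m := ⟨_, rfl⟩
  have hmk : QuotientGroup.mk' (Subgroup.normalClosure {x | StRel ℕ (MonoidAlgebra R G) x}) W =
      (1 : St ℕ (MonoidAlgebra R G)) := by
    rw [hW, map_pow, map_list_prod, List.map_map]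
    exact hl
  have hmem : W ∈ Subgroup.normalClosure {x | StRel ℕ (MonoidAlgebra R G) x} :=
    (QuotientGroup.eq_one_iff W).1 hmk
  have hP : W ∈ Psub R G := by
    refine (Subgroup.normalClosure_le_normal (N := Psub R G) ?_) hmem
    intro r hr
    exact rel_mem r hr
  obtain ⟨n₀, S₀, h₀⟩ := hP
  obtain ⟨S₁, h₁⟩ := lift_list l
  obtain ⟨l', hl'⟩ := h₁ (S₀ ∪ S₁) Finset.subset_union_right
  refine ⟨S₀ ∪ S₁, n₀, l', hl', ?_⟩
  have h2 := h₀ n₀ le_rfl (S₀ ∪ S₁) Finset.subset_union_left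
  rw [hW, map_pow, map_list_prod, List.map_map, ← hl', List.map_map] at h2
  rw [← h2]
  congr 2
  refine List.map_congr_left fun a _ => ?_
  exact (Lh_symW n₀ (S₀ ∪ S₁) h01 h02 a.1 a.2).symm

end Pool.Agent.Lib.MPb6f35e.K2
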