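import Pool.Agent.Lib.MP_b6f35e_al.K2.SpecF
import Pool.Agent.Lib.MP_b6f35e_al.K2.DES

/-!
# K_2 theorem (MP_b6f35e_al), module DE2: descent with the finite part
-/

set_option autoImplicit false

noncomputable section

namespace Pool.Agent.Lib.MPb6f35e.K2

universe u v

namespace DE2aux

open DESaux

section words

variable {R : Type u} [CommRing R] {G : Type v} [Group G]

variable (R) in
/-- letters over `H` -/
def FHs (H : Subgroup G) : Set (FreeGroup (StGen ℕ (MonoidAlgebra R G))) :=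
  {y | ∃ (i j : ℕ) (h : i ≠ j) (a : MonoidAlgebra R G),
    (∀ g, a.coeff g ≠ 0 → g ∈ H) ∧ y = FreeGroup.of ⟨i, j, h, a⟩}

variable (R G) in
/-- the projection -/
abbrev mkS : FreeGroup (StGen ℕ (MonoidAlgebra R G)) →* St ℕ (MonoidAlgebra R G) :=
  QuotientGroup.mk' (Subgroup.normalClosure {x | StRel ℕ (MonoidAlgebra R G) x})

lemma exists_word (H : Subgroup G) (w : St ℕ (MonoidAlgebra R G)) (hw : w ∈ StH ℕ R H) :
    ∃ ω ∈ Subgroup.closure (FHs R H), mkS R G ω = w := by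
  have h0 : StH ℕ R H ≤ (Subgroup.closure (FHs R H)).map (mkS R G) := by
    unfold StH
    rw [Subgroup.closure_le]
    rintro y ⟨i, j, h, a, ha, rfl⟩
    exact ⟨FreeGroup.of ⟨i, j, h, a⟩, Subgroup.subset_closure ⟨i, j, h, a, ha, rfl⟩, rfl⟩
  obtain ⟨ω, h1, h2⟩ := h0 hw
  exact ⟨ω, h1, h2⟩

lemma ev_one (x : FreeGroup (StGen ℕ (MonoidAlgebra R G))) (hx : mkS R G x = 1) : Pg x := by
  have hmem : x ∈ Subgroup.normalClosure {x | StRel ℕ (MonoidAlgebra R G) x} :=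
    (QuotientGroup.eq_one_iff x).1 hx
  refine (Subgroup.normalClosure_le_normal (N := Psub R G) ?_) hmem
  intro r hr
  exact rel_mem r hr

/-- block letters -/
def BHs (n : ℕ) (S : Finset R) (n₁ : ℕ) (H : Subgroup G) :
    Set (St (Fin (n + 5)) (MonoidAlgebra (Algebra.adjoin ℤ (S : Set R)) G)) :=
  {y | ∃ (i j : Fin (n + 5)) (h : i ≠ j)
    (a : MonoidAlgebra (Algebra.adjoin ℤ (S : Set R)) G),
    (i : ℕ) < n₁ ∧ (j : ℕ) < n₁ ∧ (∀ g, a.coeff g ≠ 0 → g ∈ H) ∧ y = xx h a}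

lemma BH_mono (n : ℕ) (S : Finset R) (n₁ n₂ : ℕ) (H : Subgroup G) (h : n₁ ≤ n₂) :
    Subgroup.closure (BHs n S n₁ H) ≤ Subgroup.closure (BHs n S n₂ H) := by
  refine Subgroup.closure_mono ?_
  rintro y ⟨i, j, hij, a, h1, h2, h3, rfl⟩
  exact ⟨i, j, hij, a, h1.trans_le h, h2.trans_le h, h3, rfl⟩

lemma BH_le (n : ℕ) (S : Finset R) (n₁ : ℕ) (H : Subgroup G) :
    Subgroup.closure (BHs n S n₁ H) ≤
      StH (Fin (n + 5)) (Algebra.adjoin ℤ (S : Set R)) H := by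
  refine Subgroup.closure_mono ?_
  rintro y ⟨i, j, hij, a, h1, h2, h3, rfl⟩
  exact ⟨i, j, hij, a, h3, rfl⟩

lemma word_block (H : Subgroup G) (ω : FreeGroup (StGen ℕ (MonoidAlgebra R G)))
    (hω : ω ∈ Subgroup.closure (FHs R H)) :
    ∃ (n₁ : ℕ) (S₁ : Finset R), ∀ n, n₁ ≤ n → ∀ S, S₁ ⊆ S →
      Lh n S ω ∈ Subgroup.closure (BHs n S n₁ H) := by
  classical
  induction hω using Subgroup.closure_induction with
  | mem x hx =>
    obtain ⟨i, j, h, a, ha, rfl⟩ := hx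
    refine ⟨i + j + 1, co a, fun n hn S hS => ?_⟩
    obtain ⟨a', ha'⟩ := io_lift a S hS
    have hij : (⟨i, by omega⟩ : Fin (n + 5)) ≠ ⟨j, by omega⟩ := fun e => h (congrArg Fin.val e)
    rw [Lh_of n S _ _ hij i j rfl rfl h a a' ha']
    refine Subgroup.subset_closure ⟨_, _, hij, a', ?_, ?_, ?_, rfl⟩
    · show i < i + j + 1
      omega
    · show j < i + j + 1
      omega
    · intro g hg
      refine ha g ?_
      rw [← ha', io_coeff]
      intro h0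
      exact hg (Subtype.ext h0)
  | one => exact ⟨0, ∅, fun n _ S _ => by rw [map_one]; exact one_mem _⟩
  | mul x y _ _ hx hy =>
    obtain ⟨n₁, S₁, h₁⟩ := hx
    obtain ⟨n₂, S₂, h₂⟩ := hy
    refine ⟨max n₁ n₂, S₁ ∪ S₂, fun n hn S hS => ?_⟩
    rw [map_mul]
    exact mul_mem
      (BH_mono n S n₁ _ H (le_max_left _ _)
        (h₁ n ((le_max_left _ _).trans hn) S (Finset.subset_union_left.trans hS)))
      (BH_mono n S n₂ _ H (le_max_right _ _)
        (h₂ n ((le_max_right _ _).trans hn) S (Finset.subset_union_right.trans hS)))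
  | inv x _ hx =>
    obtain ⟨n₁, S₁, h₁⟩ := hx
    refine ⟨n₁, S₁, fun n hn S hS => ?_⟩
    rw [map_inv]
    exact inv_mem (h₁ n hn S hS)

end words

section matrices

variable {N : ℕ} {A : Type u} [Ring A]

/-- block matrices -/
def Bl (n₁ : ℕ) (M : Matrix (Fin N) (Fin N) A) : Prop :=
  ∀ i j : Fin N, (n₁ ≤ (i : ℕ) ∨ n₁ ≤ (j : ℕ)) → M i j = (1 : Matrix (Fin N) (Fin N) A) i j

lemma Bl_row {n₁ : ℕ} {M : Matrix (Fin N) (Fin N) A} (h : Bl n₁ M) (M' : Matrix (Fin N) (Fin N) A)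
    (i j : Fin N) (hi : n₁ ≤ (i : ℕ)) : (M * M') i j = M' i j := by
  rw [Matrix.mul_apply]
  rw [Finset.sum_eq_single i]
  · rw [h i i (Or.inl hi), Matrix.one_apply_eq, one_mul]
  · intro k _ hk
    rw [h i k (Or.inl hi), Matrix.one_apply_ne hk.symm, zero_mul]
  · intro h0
    exact absurd (Finset.mem_univ i) h0

lemma Bl_col {n₁ : ℕ} {M : Matrix (Fin N) (Fin N) A} (h : Bl n₁ M) (M' : Matrix (Fin N) (Fin N) A)
    (i j : Fin N) (hj : n₁ ≤ (j : ℕ)) : (M' * M) i j = M' i j := by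
  rw [Matrix.mul_apply]
  rw [Finset.sum_eq_single j]
  · rw [h j j (Or.inl hj), Matrix.one_apply_eq, mul_one]
  · intro k _ hk
    rw [h k j (Or.inr hj), Matrix.one_apply_ne hk, mul_zero]
  · intro h0
    exact absurd (Finset.mem_univ j) h0

lemma Bl_mul {n₁ : ℕ} {M M' : Matrix (Fin N) (Fin N) A} (h : Bl n₁ M) (h' : Bl n₁ M') :
    Bl n₁ (M * M') := by
  rintro i j (hi | hj)
  · rw [Bl_row h M' i j hi]
    exact h' i j (Or.inl hi)
  · rw [Bl_col h' M i j hj]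
    exact h i j (Or.inr hj)

lemma Bl_inv {n₁ : ℕ} (M : (Matrix (Fin N) (Fin N) A)ˣ) (h : Bl n₁ (M : Matrix (Fin N) (Fin N) A)) :
    Bl n₁ ((M⁻¹ : (Matrix (Fin N) (Fin N) A)ˣ) : Matrix (Fin N) (Fin N) A) := by
  rintro i j (hi | hj)
  · have h1 := Bl_row h ((M⁻¹ : (Matrix (Fin N) (Fin N) A)ˣ) : Matrix (Fin N) (Fin N) A) i j hi
    rw [Units.mul_inv] at h1
    exact h1.symm
  · have h1 := Bl_col h ((M⁻¹ : (Matrix (Fin N) (Fin N) A)ˣ) : Matrix (Fin N) (Fin N) A) i j hj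
    rw [Units.inv_mul] at h1
    exact h1.symm

lemma Bl_one (n₁ : ℕ) : Bl n₁ (1 : Matrix (Fin N) (Fin N) A) := fun _ _ _ => rfl

lemma Bl_eM (n₁ : ℕ) (i j : Fin N) (h : i ≠ j) (a : A) (hi : (i : ℕ) < n₁) (hj : (j : ℕ) < n₁) :
    Bl n₁ ((eM h a : (Matrix (Fin N) (Fin N) A)ˣ) : Matrix (Fin N) (Fin N) A) := by
  intro i' j' h'
  show ((1 : Matrix (Fin N) (Fin N) A) + Matrix.single i j a) i' j' = _
  rw [Matrix.add_apply]
  have h0 : Matrix.single i j a i' j' = 0 := by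
    rw [Matrix.single_apply, if_neg]
    rintro ⟨e1, e2⟩
    subst e1 e2
    omega
  rw [h0, add_zero]

/-- a block matrix that commutes with the matrices `e_(k, n₁)` -/
lemma eq_one {n₁ : ℕ} (hn : n₁ < N) (M : (Matrix (Fin N) (Fin N) A)ˣ)
    (h : Bl n₁ (M : Matrix (Fin N) (Fin N) A))
    (hc : ∀ (k : Fin N) (hk : k ≠ ⟨n₁, hn⟩), (k : ℕ) < n₁ →
      M * eM hk (1 : A) = eM hk (1 : A) * M) : M = 1 := by
  apply Units.ext
  ext i k
  rcases Nat.lt_or_ge (k : ℕ) n₁ with hk | hk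
  · have hk' : k ≠ ⟨n₁, hn⟩ := by
      intro e
      rw [e] at hk
      exact lt_irrefl _ hk
    have h0 := hc k hk' hk
    have hz1 : n₁ ≤ ((⟨n₁, hn⟩ : Fin N) : ℕ) := le_rfl
    generalize (⟨n₁, hn⟩ : Fin N) = z at hk' h0 hz1
    have h1 := congrArg (fun X : (Matrix (Fin N) (Fin N) A)ˣ =>
      (X : Matrix (Fin N) (Fin N) A) i z) h0
    have h2 : ((M : Matrix (Fin N) (Fin N) A) * (1 + Matrix.single k z (1 : A)) :
        Matrix (Fin N) (Fin N) A) i z =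
        ((1 + Matrix.single k z (1 : A)) * (M : Matrix (Fin N) (Fin N) A) :
        Matrix (Fin N) (Fin N) A) i z := h1
    rw [mul_add, mul_one, add_mul, one_mul, Matrix.add_apply, Matrix.add_apply] at h2
    have h3 := add_left_cancel h2
    rw [Matrix.mul_single_apply_same, mul_one] at h3
    rw [h3]
    by_cases hik : i = k
    · subst hik
      rw [Matrix.single_mul_apply_same, one_mul, h _ _ (Or.inl hz1), Matrix.one_apply_eq,
        Units.val_one, Matrix.one_apply_eq]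
    · rw [Matrix.single_mul_apply_of_ne (h := hik), Units.val_one, Matrix.one_apply_ne hik]
  · exact h i k (Or.inr hk)

end matrices

section good

variable {R : Type u} [CommRing R] {G : Type v} [Group G]

/-- the condition on the elements of the list -/
def Q (n : ℕ) (S : Finset R)
    (y : St (Fin (n + 5)) (MonoidAlgebra (Algebra.adjoin ℤ (S : Set R)) G)) : Prop :=
  ∃ H : Subgroup G, Finite H ∧
    y ∈ StH (Fin (n + 5)) (Algebra.adjoin ℤ (S : Set R)) H ∧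
    ∀ θ : St (Fin (n + 5)) (MonoidAlgebra (Algebra.adjoin ℤ (S : Set R)) G) →*
      (Matrix (Fin (n + 5)) (Fin (n + 5)) (MonoidAlgebra (Algebra.adjoin ℤ (S : Set R)) G))ˣ,
      (∀ (i j : Fin (n + 5)) (h : i ≠ j)
        (a : MonoidAlgebra (Algebra.adjoin ℤ (S : Set R)) G), θ (xx h a) = eM h a) → θ y = 1

/-- finitely many conditions -/
lemma ev_fin (F : ℕ → FreeGroup (StGen ℕ (MonoidAlgebra R G))) (hF : ∀ k, Pg (F k)) (K : ℕ) :
    ∃ (n₀ : ℕ) (S₀ : Finset R), ∀ n, n₀ ≤ n → ∀ S, S₀ ⊆ S → ∀ k, k < K → Lh n S (F k) = 1 := by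
  classical
  induction K with
  | zero => exact ⟨0, ∅, fun n _ S _ k hk => absurd hk (Nat.not_lt_zero k)⟩
  | succ K ih =>
    obtain ⟨n₁, S₁, h₁⟩ := ih
    obtain ⟨n₂, S₂, h₂⟩ := hF K
    refine ⟨max n₁ n₂, S₁ ∪ S₂, fun n hn S hS k hk => ?_⟩
    rcases Nat.lt_or_ge k K with h | h
    · exact h₁ n ((le_max_left _ _).trans hn) S (Finset.subset_union_left.trans hS) k h
    · have e : k = K := by omega
      subst e
      exact h₂ n ((le_max_right _ _).trans hn) S (Finset.subset_union_right.trans hS)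

lemma good (H : Subgroup G) (hH : Finite H) (ω : FreeGroup (StGen ℕ (MonoidAlgebra R G)))
    (hω : ω ∈ Subgroup.closure (FHs R H)) (hc : ∀ v, mkS R G ω * v = v * mkS R G ω) :
    ∃ (n₀ : ℕ) (S₀ : Finset R), ∀ n, n₀ ≤ n → ∀ S, S₀ ⊆ S → Q n S (Lh n S ω) := by
  classical
  obtain ⟨n₁, S₁, h₁⟩ := word_block H ω hω
  have hF : ∀ k, Pg (if h : k ≠ n₁ then cm ω (FreeGroup.of ⟨k, n₁, h, 1⟩) else
      (1 : FreeGroup (StGen ℕ (MonoidAlgebra R G)))) := by
    intro k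
    by_cases h : k ≠ n₁
    · rw [dif_pos h]
      refine ev_one _ ?_
      rw [map_cm]
      unfold cm
      rw [hc]
      group
    · rw [dif_neg h]
      exact ⟨0, ∅, fun n _ S _ => map_one _⟩
  obtain ⟨n₂, S₂, h₂⟩ := ev_fin _ hF n₁
  refine ⟨max n₁ n₂, S₁ ∪ S₂, fun n hn S hS => ?_⟩
  have hn1 : n₁ ≤ n := (le_max_left _ _).trans hn
  have hb := h₁ n hn1 S (Finset.subset_union_left.trans hS)
  refine ⟨H, hH, BH_le n S n₁ H hb, ?_⟩
  intro θ hθ
  have hBl : Bl n₁ ((θ (Lh n S ω) : (Matrix (Fin (n + 5)) (Fin (n + 5))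
      (MonoidAlgebra (Algebra.adjoin ℤ (S : Set R)) G))ˣ) : Matrix (Fin (n + 5)) (Fin (n + 5))
      (MonoidAlgebra (Algebra.adjoin ℤ (S : Set R)) G)) := by
    generalize Lh n S ω = y at hb
    induction hb using Subgroup.closure_induction with
    | mem x hx =>
      obtain ⟨i, j, hij, a, h1, h2, -, rfl⟩ := hx
      rw [hθ]
      exact Bl_eM n₁ i j hij a h1 h2
    | one =>
      rw [map_one]
      exact Bl_one n₁
    | mul x y _ _ hx hy =>
      rw [map_mul, Units.val_mul]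
      exact Bl_mul hx hy
    | inv x _ hx =>
      rw [map_inv]
      exact Bl_inv _ hx
  have hn5 : n₁ < n + 5 := by omega
  refine eq_one hn5 _ hBl ?_
  intro k hk hk1
  have hk2 : (k : ℕ) ≠ n₁ := by omega
  have h3 := h₂ n ((le_max_right _ _).trans hn) S (Finset.subset_union_right.trans hS) k hk1
  rw [dif_pos hk2, map_cm, Lh_of n S k ⟨n₁, hn5⟩ hk k n₁ rfl rfl hk2 1 1 (map_one _)] at h3
  have h4 := congrArg θ h3
  rw [map_cm, hθ, map_one] at h4
  unfold cm at h4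
  rw [mul_inv_eq_one, mul_inv_eq_iff_eq_mul] at h4
  exact h4

lemma good_list (Ω : List (FreeGroup (StGen ℕ (MonoidAlgebra R G))))
    (hΩ : ∀ ω ∈ Ω, ∃ (n₀ : ℕ) (S₀ : Finset R), ∀ n, n₀ ≤ n → ∀ S, S₀ ⊆ S → Q n S (Lh n S ω)) :
    ∃ (n₀ : ℕ) (S₀ : Finset R), ∀ n, n₀ ≤ n → ∀ S, S₀ ⊆ S → ∀ ω ∈ Ω, Q n S (Lh n S ω) := by
  classical
  induction Ω with
  | nil => exact ⟨0, ∅, fun n _ S _ ω hω => absurd hω List.not_mem_nil⟩
  | cons a Ω ih =>
    obtain ⟨n₁, S₁, h₁⟩ := hΩ a List.mem_cons_self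
    obtain ⟨n₂, S₂, h₂⟩ := ih fun ω hω => hΩ ω (List.mem_cons_of_mem _ hω)
    refine ⟨max n₁ n₂, S₁ ∪ S₂, fun n hn S hS ω hω => ?_⟩
    rcases List.mem_cons.1 hω with h | h
    · rw [h]
      exact h₁ n ((le_max_left _ _).trans hn) S (Finset.subset_union_left.trans hS)
    · exact h₂ n ((le_max_right _ _).trans hn) S (Finset.subset_union_right.trans hS) ω h

/-- the words of a product in the finite part -/
lemma words (w : St ℕ (MonoidAlgebra R G)) (hw : w ∈ FinPart R G) :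
    ∃ Ω : List (FreeGroup (StGen ℕ (MonoidAlgebra R G))), mkS R G Ω.prod = w ∧
      ∀ ω ∈ Ω, ∃ (n₀ : ℕ) (S₀ : Finset R), ∀ n, n₀ ≤ n → ∀ S, S₀ ⊆ S → Q n S (Lh n S ω) := by
  classical
  unfold FinPart at hw
  have key : ∀ w : St ℕ (MonoidAlgebra R G), (∀ v, w * v = v * w) →
      (∃ H : Subgroup G, Finite H ∧ w ∈ StH ℕ R H) →
      ∃ Ω : List (FreeGroup (StGen ℕ (MonoidAlgebra R G))), mkS R G Ω.prod = w ∧
      ∀ ω ∈ Ω, ∃ (n₀ : ℕ) (S₀ : Finset R), ∀ n, n₀ ≤ n → ∀ S, S₀ ⊆ S → Q n S (Lh n S ω) := by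
    rintro w hc ⟨H, hH, hwH⟩
    obtain ⟨ω, h1, h2⟩ := exists_word H w hwH
    refine ⟨[ω], by rw [List.prod_singleton, h2], ?_⟩
    intro ω' hω'
    rw [List.mem_singleton] at hω'
    rw [hω']
    refine good H hH ω h1 ?_
    rw [h2]
    exact hc
  have hw' : w ∈ Submonoid.closure ({w : St ℕ (MonoidAlgebra R G) | (∀ v, w * v = v * w) ∧
      ∃ H : Subgroup G, Finite H ∧ w ∈ StH ℕ R H} ∪ {w : St ℕ (MonoidAlgebra R G) |
      (∀ v, w * v = v * w) ∧ ∃ H : Subgroup G, Finite H ∧ w ∈ StH ℕ R H}⁻¹) := by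
    rw [← Subgroup.closure_toSubmonoid]
    exact hw
  clear hw
  induction hw' using Submonoid.closure_induction with
  | mem a ha =>
    rcases ha with h | h
    · exact key a h.1 h.2
    · have h' : (∀ v, a⁻¹ * v = v * a⁻¹) ∧ ∃ H : Subgroup G, Finite H ∧ a⁻¹ ∈ StH ℕ R H := h
      refine key a ?_ ?_
      · intro v
        have h3 := h'.1 v
        calc a * v = a * (v * a⁻¹) * a := by group
          _ = a * (a⁻¹ * v) * a := by rw [h3]
          _ = v * a := by group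
      · obtain ⟨H, hH, hH'⟩ := h'.2
        exact ⟨H, hH, (Subgroup.inv_mem_iff _).1 hH'⟩
  | one => exact ⟨[], by simp, fun ω hω => absurd hω List.not_mem_nil⟩
  | mul x y _ _ hx hy =>
    obtain ⟨Ω', h3, h4⟩ := hx
    obtain ⟨Ω, h1, h2⟩ := hy
    refine ⟨Ω' ++ Ω, ?_, ?_⟩
    · rw [List.prod_append, map_mul, h1, h3]
    · intro ω hω
      rcases List.mem_append.1 hω with h | h
      · exact h4 ω h
      · exact h2 ω h

end good

end DE2aux

open DESaux DE2aux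

theorem specDE2 : SpecDE2.{u, v} := by
  classical
  intro R _ G _ l m hl
  have h01 : (0 : ℕ) ≠ 1 := zero_ne_one
  have h02 : (0 : ℕ) ≠ 2 := by decide
  obtain ⟨Ω, hΩ1, hΩ2⟩ := words _ hl
  obtain ⟨n₁, S₁, h₁⟩ := good_list Ω hΩ2
  have hmk : mkS R G ((((l.map fun a => symW h01 h02 a.1 a.2).prod) ^ m) * Ω.prod⁻¹) = 1 := by
    rw [map_mul, map_inv, hΩ1, map_pow, map_list_prod, List.map_map, mul_inv_eq_one]
    rfl
  obtain ⟨n₂, S₂, h₂⟩ := ev_one _ hmk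
  obtain ⟨S₃, h₃⟩ := lift_list l
  obtain ⟨n, hn⟩ : ∃ n, n = max n₁ n₂ := ⟨_, rfl⟩
  obtain ⟨S, hS⟩ : ∃ S, S = S₁ ∪ S₂ ∪ S₃ := ⟨_, rfl⟩
  have hn1 : n₁ ≤ n := hn ▸ le_max_left _ _
  have hn2 : n₂ ≤ n := hn ▸ le_max_right _ _
  have hS1 : S₁ ⊆ S := hS ▸ Finset.subset_union_left.trans Finset.subset_union_left
  have hS2 : S₂ ⊆ S := hS ▸ Finset.subset_union_right.trans Finset.subset_union_left
  have hS3 : S₃ ⊆ S := hS ▸ Finset.subset_union_right
  obtain ⟨l', hl'⟩ := h₃ S hS3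
  refine ⟨S, n, l', Ω.map (Lh n S), hl', ?_, ?_⟩
  · intro y hy
    obtain ⟨ω, hω, rfl⟩ := List.mem_map.1 hy
    exact h₁ n hn1 S hS1 ω hω
  · have h4 := h₂ n hn2 S hS2
    rw [map_mul, map_inv, mul_inv_eq_one, map_pow, map_list_prod, map_list_prod, List.map_map,
      ← hl', List.map_map] at h4
    rw [← h4]
    congr 2
    refine List.map_congr_left fun a _ => ?_
    exact (Lh_symW n S h01 h02 a.1 a.2).symm

end Pool.Agent.Lib.MPb6f35e.K2
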