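import Pool.Agent.Lib.MP_b6f35e_al.K2.SpecD
import Pool.Agent.Lib.MP_b6f35e_al.K2.ABS

/-!
# K_2 theorem (MP_b6f35e_al), module DEL: the logarithmic derivative of `i(r)(1 + i(b) e)`
-/

set_option autoImplicit false

noncomputable section

namespace Pool.Agent.Lib.MPb6f35e.K2

open Pool.Agent.Lib.MPb6f35e.WH

universe u v w

theorem specDEL : SpecDEL.{u, v, w} := by
  intro B S H _ _ _ N ρ i τ d φ h s r b Xi hr hX1 hX2 hs
  have he : eS N τ * (i b * eS N τ) = i (nm ρ N b) * eS N τ := ABSaux.ebe h b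
  have hXn : Xi * nm ρ N b = 1 - Xi := by
    rw [mul_add, mul_one] at hX2
    rw [← hX2]
    abel
  have hbX : b * Xi * nm ρ N b = b - b * Xi := by
    rw [mul_assoc, hXn, mul_sub, mul_one]
  have hinv : ((s⁻¹ : Sˣ) : S) = (1 - i (b * Xi) * eS N τ) * i ((r⁻¹ : Bˣ) : B) := by
    refine Units.inv_eq_of_mul_eq_one_left ?_
    rw [hs]
    have h1 : i ((r⁻¹ : Bˣ) : B) * (i r * (1 + i b * eS N τ)) = 1 + i b * eS N τ := by
      rw [← mul_assoc, ← map_mul, Units.inv_mul, map_one, one_mul]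
    have h2 : i (b * Xi) * eS N τ * (i b * eS N τ) = i (b - b * Xi) * eS N τ := by
      rw [mul_assoc, he, ← mul_assoc, ← map_mul, hbX]
    rw [mul_assoc, h1, sub_mul, one_mul, mul_add, mul_one, h2, map_sub, sub_mul]
    abel
  have hd : d (s : S) = i r * (i b * ABSaux.eP N τ) := by
    rw [hs, h.d_mul, h.d_i, zero_mul, zero_add, map_add, ABSaux.d_one h, zero_add,
      ABSaux.d_be h]
  change _ = i (b * Xi) * (ABSaux.eP N τ + i (pp ρ N b) * eS N τ)
  have h1 : i ((r⁻¹ : Bˣ) : B) * (i r * (i b * ABSaux.eP N τ)) = i b * ABSaux.eP N τ := by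
    rw [← mul_assoc, ← map_mul, Units.inv_mul, map_one, one_mul]
  have h2 : i (b * Xi) * eS N τ * (i b * ABSaux.eP N τ) =
      i (b - b * Xi) * ABSaux.eP N τ - i (b * Xi) * (i (pp ρ N b) * eS N τ) := by
    rw [mul_assoc, ABSaux.ebP h, mul_sub, ← mul_assoc (i (b * Xi)) (i (nm ρ N b)), ← map_mul, hbX]
  rw [hinv, hd, mul_assoc, h1, sub_mul, one_mul, h2, map_sub, sub_mul, mul_add]
  abel

end Pool.Agent.Lib.MPb6f35e.K2
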