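import Pool.Agent.Lib.MP_b6f35e_al.K2.SpecC

/-!
# K2, DGR: the grading of the concrete datum
-/

set_option autoImplicit false

noncomputable section

namespace Pool.Agent.Lib.MPb6f35e.K2

open Pool.Agent.Lib.MPb6f35e.WH

universe u v

namespace DGRaux

/-! ### group elements -/

lemma t_conj (N : ℕ) (G : Type v) [Group G] (γ : ZMod N → G) :
    tW N G * inW N G γ = inW N G (rotG N G γ) * tW N G := by
  have h : inW N G (rotG N G γ) = tW N G * inW N G γ * (tW N G)⁻¹ := by
    have h1 : rotG N G γ = actW N G (Multiplicative.ofAdd (1 : ZMod N)) γ := rfl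
    rw [h1, inW, SemidirectProduct.inl_aut, tW, map_inv]
  rw [h, inv_mul_cancel_right]

lemma t_pow (N : ℕ) (G : Type v) [Group G] (j : ℕ) :
    tW N G ^ j = SemidirectProduct.inr (Multiplicative.ofAdd ((j : ℕ) : ZMod N)) := by
  rw [tW, ← map_pow, ← ofAdd_nsmul, nsmul_one]

lemma t_N (N : ℕ) (G : Type v) [Group G] : tW N G ^ N = 1 := by
  rw [t_pow, ZMod.natCast_self, ofAdd_zero, map_one]

lemma dg_mul {N : ℕ} {G : Type v} [Group G] (w w' : WR N G) : dg (w * w') = dg w + dg w' := by
  rw [dg, SemidirectProduct.mul_right, toAdd_mul, dg, dg]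

lemma dg_inv {N : ℕ} {G : Type v} [Group G] (w : WR N G) : dg w⁻¹ = -dg w := by
  rw [dg, SemidirectProduct.inv_right, toAdd_inv, dg]

lemma dg_inW {N : ℕ} {G : Type v} [Group G] (γ : ZMod N → G) : dg (inW N G γ) = 0 := rfl

lemma dg_t_pow {N : ℕ} {G : Type v} [Group G] (j : ℕ) :
    dg (tW N G ^ j) = ((j : ℕ) : ZMod N) := by
  rw [t_pow]
  rfl

lemma dg_t {N : ℕ} {G : Type v} [Group G] : dg (tW N G) = 1 := rfl

lemma inW_inj (N : ℕ) (G : Type v) [Group G] : Function.Injective (inW N G) :=
  SemidirectProduct.inl_injective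

lemma eq_inW {N : ℕ} {G : Type v} [Group G] {w : WR N G} (h : dg w = 0) :
    w = inW N G w.left := by
  apply SemidirectProduct.ext
  · rfl
  · exact Multiplicative.toAdd.injective h

/-! ### the map `jW` -/

lemma jW_single (k : Type u) [CommRing k] (N : ℕ) (r : k →+* ZMod N) (G : Type v) [Group G]
    (γ : ZMod N → G) (c : k) :
    jW k N r G (MonoidAlgebra.single γ c) = MonoidAlgebra.single (inW N G γ) (r c) := by
  simp [jW]

lemma jW_coeff_in (k : Type u) [CommRing k] (N : ℕ) (r : k →+* ZMod N) (G : Type v) [Group G]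
    (x : MonoidAlgebra k (ZMod N → G)) (γ : ZMod N → G) :
    (jW k N r G x).coeff (inW N G γ) = r (x.coeff γ) := by
  classical
  induction x using MonoidAlgebra.induction_linear with
  | zero => simp
  | add x y hx hy =>
    rw [map_add, MonoidAlgebra.coeff_add, Finsupp.add_apply, hx, hy, MonoidAlgebra.coeff_add,
      Finsupp.add_apply, map_add]
  | single γ' c =>
    rw [jW_single, MonoidAlgebra.coeff_single, MonoidAlgebra.coeff_single]
    by_cases h : γ' = γ
    · subst h
      simp
    · rw [Finsupp.single_apply, Finsupp.single_apply, if_neg h,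
        if_neg fun h' => h (inW_inj N G h'), map_zero]

lemma jW_coeff_out (k : Type u) [CommRing k] (N : ℕ) (r : k →+* ZMod N) (G : Type v) [Group G]
    (x : MonoidAlgebra k (ZMod N → G)) (w : WR N G) (hw : dg w ≠ 0) :
    (jW k N r G x).coeff w = 0 := by
  classical
  induction x using MonoidAlgebra.induction_linear with
  | zero => simp
  | add x y hx hy =>
    rw [map_add, MonoidAlgebra.coeff_add, Finsupp.add_apply, hx, hy, add_zero]
  | single γ' c =>
    rw [jW_single, MonoidAlgebra.coeff_single, Finsupp.single_apply, if_neg]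
    intro h
    exact hw (by rw [← h]; exact dg_inW γ')

lemma t_jW (k : Type u) [CommRing k] (N : ℕ) (r : k →+* ZMod N) (G : Type v) [Group G]
    (x : MonoidAlgebra k (ZMod N → G)) :
    MonoidAlgebra.single (tW N G) 1 * jW k N r G x =
      jW k N r G (MonoidAlgebra.mapDomainRingHom k (rotG N G) x) *
        MonoidAlgebra.single (tW N G) 1 := by
  induction x using MonoidAlgebra.induction_linear with
  | zero => simp
  | add x y hx hy => rw [map_add, map_add, map_add, mul_add, add_mul, hx, hy]
  | single γ c =>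
    have h : MonoidAlgebra.mapDomainRingHom k (rotG N G) (MonoidAlgebra.single γ c) =
        MonoidAlgebra.single (rotG N G γ) c := by simp
    rw [h, jW_single, jW_single, MonoidAlgebra.single_mul_single, MonoidAlgebra.single_mul_single,
      one_mul, mul_one, t_conj]

/-! ### the derivation -/

lemma dW_coeff (N : ℕ) (G : Type v) [Group G] (a : MonoidAlgebra (ZMod N) (WR N G)) (w : WR N G) :
    (dW N G a).coeff w = dg w * a.coeff w := rfl

lemma dW_single (N : ℕ) (G : Type v) [Group G] (w : WR N G) (c : ZMod N) :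
    dW N G (MonoidAlgebra.single w c) = MonoidAlgebra.single w (dg w * c) := by
  classical
  apply MonoidAlgebra.ext
  apply Finsupp.ext
  intro w'
  rw [dW_coeff, MonoidAlgebra.coeff_single, MonoidAlgebra.coeff_single, Finsupp.single_apply,
    Finsupp.single_apply]
  by_cases h : w = w'
  · subst h
    simp
  · rw [if_neg h, if_neg h, mul_zero]

lemma dW_mul (N : ℕ) (G : Type v) [Group G] (a b : MonoidAlgebra (ZMod N) (WR N G)) :
    dW N G (a * b) = dW N G a * b + a * dW N G b := by
  induction a using MonoidAlgebra.induction_linear with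
  | zero => simp
  | add x y hx hy =>
    rw [add_mul, map_add, hx, hy, map_add, add_mul, add_mul]
    abel
  | single w c =>
    induction b using MonoidAlgebra.induction_linear with
    | zero => simp
    | add x y hx hy =>
      rw [mul_add, map_add, hx, hy, map_add, mul_add, mul_add]
      abel
    | single w' c' =>
      rw [MonoidAlgebra.single_mul_single, dW_single, dW_single, dW_single,
        MonoidAlgebra.single_mul_single, MonoidAlgebra.single_mul_single, ← MonoidAlgebra.single_add,
        dg_mul]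
      congr 1
      ring

lemma dW_jW (k : Type u) [CommRing k] (N : ℕ) (r : k →+* ZMod N) (G : Type v) [Group G]
    (x : MonoidAlgebra k (ZMod N → G)) : dW N G (jW k N r G x) = 0 := by
  induction x using MonoidAlgebra.induction_linear with
  | zero => simp
  | add x y hx hy => rw [map_add, map_add, hx, hy, add_zero]
  | single γ c => rw [jW_single, dW_single, dg_inW, zero_mul, MonoidAlgebra.single_zero]

/-! ### powers of `τ` -/

lemma iter_sh_inj {N : ℕ} {ι : Type} (j : ℕ) :
    Function.Injective ((sh : (ZMod N → ι) → (ZMod N → ι))^[j]) :=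
  Function.Injective.iterate (fun _ _ h => sh_inj h) j

lemma tau_pow (N : ℕ) [NeZero N] (G : Type v) [Group G] (ι : Type) [Fintype ι] [DecidableEq ι]
    (j : ℕ) (I K : ZMod N → ι) :
    ((tauS N G ι : SR N G ι) ^ j) I K =
      if K = sh^[j] I then MonoidAlgebra.single (tW N G ^ j) 1 else 0 := by
  induction j generalizing I K with
  | zero =>
    rw [pow_zero, pow_zero, Function.iterate_zero, id, Matrix.one_apply]
    by_cases h : I = K
    · rw [if_pos h, if_pos h.symm, MonoidAlgebra.one_def]
    · rw [if_neg h, if_neg fun h' => h h'.symm]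
  | succ j ih =>
    have h0 : ∀ J, (tauS N G ι : SR N G ι) I J =
        if J = sh I then MonoidAlgebra.single (tW N G) 1 else 0 := fun J => rfl
    rw [pow_succ', Matrix.mul_apply, Finset.sum_eq_single (sh I)]
    · rw [h0, if_pos rfl, ih, Function.iterate_succ_apply, mul_ite, mul_zero,
        MonoidAlgebra.single_mul_single, one_mul, ← pow_succ']
    · intro J _ hJ
      rw [h0, if_neg hJ, zero_mul]
    · intro h
      exact absurd (Finset.mem_univ _) h

lemma tauN (N : ℕ) [NeZero N] (G : Type v) [Group G] (ι : Type) [Fintype ι] [DecidableEq ι] :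
    (tauS N G ι) ^ N = 1 := by
  apply Units.ext
  rw [Units.val_pow_eq_pow_val, Units.val_one]
  ext1 I K
  rw [tau_pow, NN.sh_N, t_N, Matrix.one_apply]
  by_cases h : I = K
  · rw [if_pos h, if_pos h.symm, MonoidAlgebra.one_def]
  · rw [if_neg h, if_neg fun h' => h h'.symm]

lemma iB_apply (k : Type u) [CommRing k] (N : ℕ) [NeZero N] (r : k →+* ZMod N) (G : Type v)
    [Group G] (ι : Type) [Fintype ι] [DecidableEq ι] (b : TR k G ι N) (I J : ZMod N → ι) :
    iB k N r G ι b I J = jW k N r G (b I J) := rfl

lemma conj (k : Type u) [CommRing k] (N : ℕ) [NeZero N] (r : k →+* ZMod N) (G : Type v) [Group G]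
    (ι : Type) [Fintype ι] [DecidableEq ι] (b : TR k G ι N) :
    (tauS N G ι : SR N G ι) * iB k N r G ι b = iB k N r G ι (rot k G ι N b) * tauS N G ι := by
  have h0 : ∀ I J, (tauS N G ι : SR N G ι) I J =
      if J = sh I then MonoidAlgebra.single (tW N G) 1 else 0 := fun I J => rfl
  ext1 I K
  have hK : sh (fun j => K (j - 1)) = K := by funext j; simp [sh]
  rw [Matrix.mul_apply, Matrix.mul_apply, Finset.sum_eq_single (sh I),
    Finset.sum_eq_single fun j => K (j - 1)]
  · rw [h0, if_pos rfl, h0, if_pos hK.symm, iB_apply, iB_apply, rot_apply, hK, t_jW]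
  · intro J _ hJ
    rw [h0, if_neg, mul_zero]
    intro h
    apply hJ
    rw [h]
    funext j
    simp [sh]
  · intro h
    exact absurd (Finset.mem_univ _) h
  · intro J _ hJ
    rw [h0, if_neg hJ, zero_mul]
  · intro h
    exact absurd (Finset.mem_univ _) h

/-- the coefficient of a product with `t^j` on the right -/
lemma coeff_mul_t (N : ℕ) (G : Type v) [Group G] (x : MonoidAlgebra (ZMod N) (WR N G))
    (g w : WR N G) : (x * MonoidAlgebra.single g 1).coeff w = x.coeff (w * g⁻¹) := by
  classical
  induction x using MonoidAlgebra.induction_linear with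
  | zero => simp
  | add x y hx hy =>
    rw [add_mul, MonoidAlgebra.coeff_add, Finsupp.add_apply, hx, hy, MonoidAlgebra.coeff_add,
      Finsupp.add_apply]
  | single v c =>
    rw [MonoidAlgebra.single_mul_single, mul_one, MonoidAlgebra.coeff_single,
      MonoidAlgebra.coeff_single, Finsupp.single_apply, Finsupp.single_apply]
    by_cases h : v * g = w
    · rw [if_pos h, if_pos (by rw [← h, mul_inv_cancel_right])]
    · rw [if_neg h, if_neg]
      intro h'
      exact h (by rw [h', inv_mul_cancel_right])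

lemma coeff_sum {R : Type*} [Semiring R] {M : Type*} {α : Type*} (s : Finset α)
    (f : α → MonoidAlgebra R M) (m : M) :
    (∑ a ∈ s, f a).coeff m = ∑ a ∈ s, (f a).coeff m := by
  classical
  induction s using Finset.induction_on with
  | empty => simp
  | insert x s hx ih =>
    rw [Finset.sum_insert hx, Finset.sum_insert hx, MonoidAlgebra.coeff_add, Finsupp.add_apply, ih]

lemma coeff_key (k : Type u) [CommRing k] (N : ℕ) [NeZero N] (r : k →+* ZMod N) (G : Type v)
    [Group G] (ι : Type) [Fintype ι] [DecidableEq ι] (b : TR k G ι N) (I K : ZMod N → ι)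
    (γ : ZMod N → G) :
    ((iB k N r G ι b * eS N (tauS N G ι)) I K).coeff (inW N G γ) = r ((b I K).coeff γ) := by
  have h1 : ∀ j ∈ Finset.range N, j ≠ 0 →
      ((iB k N r G ι b * (tauS N G ι : SR N G ι) ^ j) I K).coeff (inW N G γ) = 0 := by
    intro j hj hj0
    rw [Matrix.mul_apply, coeff_sum]
    apply Finset.sum_eq_zero
    intro J _
    rw [tau_pow, iB_apply]
    by_cases hJ : K = sh^[j] J
    · rw [if_pos hJ, coeff_mul_t]
      apply jW_coeff_out
      rw [dg_mul, dg_inW, zero_add, dg_inv, dg_t_pow, neg_ne_zero]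
      intro h
      rw [ZMod.natCast_eq_zero_iff] at h
      have h2 := Nat.le_of_dvd (Nat.pos_of_ne_zero hj0) h
      have h3 := Finset.mem_range.1 hj
      omega
    · rw [if_neg hJ, mul_zero]
      rfl
  have h2 : (iB k N r G ι b * eS N (tauS N G ι)) I K =
      ∑ j ∈ Finset.range N, (iB k N r G ι b * (tauS N G ι : SR N G ι) ^ j) I K := by
    rw [eS, Finset.mul_sum, Matrix.sum_apply]
  rw [h2, coeff_sum, Finset.sum_eq_single 0 h1]
  · rw [pow_zero, mul_one, iB_apply, jW_coeff_in]
  · intro h
    exact absurd (Finset.mem_range.2 (Nat.pos_of_ne_zero (NeZero.ne N))) h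

lemma inj (k : Type u) [CommRing k] (N : ℕ) [NeZero N] (r : k →+* ZMod N)
    (hr : ∀ x, r x = 0 → ∃ y, x = (N : k) * y) (G : Type v) [Group G]
    (ι : Type) [Fintype ι] [DecidableEq ι] (b : TR k G ι N)
    (hb : iB k N r G ι b * eS N (tauS N G ι) = 0) : ∃ y, b = N • y := by
  have h1 : ∀ w : ZMod N → ι × ι × G, ∃ y, NN.cf b w = (N : k) * y ∧ (NN.cf b w = 0 → y = 0) := by
    intro w
    by_cases hw : NN.cf b w = 0
    · exact ⟨0, by rw [hw, mul_zero], fun _ => rfl⟩
    · obtain ⟨y, hy⟩ := hr (NN.cf b w) (by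
        rw [NN.cf, ← coeff_key, hb]
        rfl)
      exact ⟨y, hy, fun h => absurd h hw⟩
  choose s hs hs0 using h1
  have hfin : (Function.support s).Finite := by
    refine (NN.cf_finite b).subset fun w hw => ?_
    intro h
    exact hw (hs0 w h)
  obtain ⟨y, hy⟩ := NN.exists_cf s hfin
  refine ⟨y, NN.cf_ext fun w => ?_⟩
  have h2 : NN.cf (N • y) w = N • NN.cf y w := map_nsmul (NN.cfA w) N y
  rw [h2, hs w, hy w, nsmul_eq_mul]

lemma dS_apply (N : ℕ) (G : Type v) [Group G] (ι : Type) (s : SR N G ι) (I J : ZMod N → ι) :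
    dS N G ι s I J = dW N G (s I J) := rfl

lemma dmul (N : ℕ) [NeZero N] (G : Type v) [Group G] (ι : Type) [Fintype ι] [DecidableEq ι]
    (s t : SR N G ι) : dS N G ι (s * t) = dS N G ι s * t + s * dS N G ι t := by
  ext1 I K
  rw [dS_apply, Matrix.mul_apply, map_sum, Matrix.add_apply, Matrix.mul_apply, Matrix.mul_apply,
    ← Finset.sum_add_distrib]
  exact Finset.sum_congr rfl fun J _ => by rw [dW_mul, dS_apply, dS_apply]

lemma dtau (N : ℕ) [NeZero N] (G : Type v) [Group G] (ι : Type) [Fintype ι] [DecidableEq ι] :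
    dS N G ι (tauS N G ι) = tauS N G ι := by
  have h0 : ∀ I J, (tauS N G ι : SR N G ι) I J =
      if J = sh I then MonoidAlgebra.single (tW N G) 1 else 0 := fun I J => rfl
  ext1 I K
  rw [dS_apply, h0]
  by_cases h : K = sh I
  · rw [if_pos h, dW_single, dg_t, one_mul]
  · rw [if_neg h, map_zero]

end DGRaux

theorem specDGR : SpecDGR.{u, v} where
  conj := DGRaux.conj
  tauN := DGRaux.tauN
  inj := fun k _ N _ r hr G _ ι _ _ b hb => DGRaux.inj k N r hr G ι b hb
  dmul := DGRaux.dmul
  di := fun k _ N _ r G _ ι _ _ b => by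
    ext1 I J
    exact DGRaux.dW_jW k N r G (b I J)
  dtau := DGRaux.dtau

end Pool.Agent.Lib.MPb6f35e.K2
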