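import Pool.Agent.Lib.MP_b6f35e_al.K2.SpecD

/-!
# K_2 theorem (MP_b6f35e_al), module DIA: lifts of diagonal matrices
-/

set_option autoImplicit false
set_option linter.all false

noncomputable section

namespace Pool.Agent.Lib.MPb6f35e.K2

open Pool.Agent.Lib.MPb6f35e.WH

universe u v

namespace DIAaux

variable {k : Type u} [CommRing k] {G : Type v} [Group G] {ι : Type} [Fintype ι] [DecidableEq ι]

/-- The diagonal part of a product with a diagonal matrix on the left. -/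
theorem tr_diag_mul {N : ℕ} [NeZero N] {a b : TR k G ι N} (ha : BD (id : ι → ι) a) :
    tr (id : ι → ι) (a * b) = a * tr (id : ι → ι) b := by
  have hz : ∀ I J : ZMod N → ι, I ≠ J → a I J = 0 := fun I J h => ha I J h
  ext1 I J
  rw [tr, Matrix.of_apply, Matrix.mul_apply, Matrix.mul_apply,
    Finset.sum_eq_single I (fun L _ hL => by rw [hz I L (Ne.symm hL), zero_mul])
      (fun h => absurd (Finset.mem_univ _) h),
    Finset.sum_eq_single I (fun L _ hL => by rw [hz I L (Ne.symm hL), zero_mul])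
      (fun h => absurd (Finset.mem_univ _) h),
    tr, Matrix.of_apply]
  split_ifs
  · rfl
  · rw [mul_zero]

theorem tr_add' {N : ℕ} [NeZero N] (a b : TR k G ι N) :
    tr (id : ι → ι) (a + b) = tr (id : ι → ι) a + tr (id : ι → ι) b := by
  ext1 I J
  rw [Matrix.add_apply, tr, tr, tr, Matrix.of_apply, Matrix.of_apply, Matrix.of_apply,
    Matrix.add_apply]
  split_ifs
  · rfl
  · rw [add_zero]

theorem closed_of_BD {N : ℕ} [NeZero N] {κ : Type} (f : κ → ι) {a : TR k G ι N}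
    (ha : BD (id : ι → ι) a) : ClosedR f a := by
  intro I J h
  apply ha
  intro h'
  exact h ⟨I, h'.symm⟩

end DIAaux

open DIAaux

theorem specDIA (hBLS : SpecBLS.{u, v}) (hQSB : SpecQSB.{max u v, v, 0, max u v})
    (hTDN : SpecTDN.{u, v}) : SpecDIA.{u, v} := by
  intro k _ p e _ _ _ r hr G _ ι _ _ Θ hdat y
  have hT : ∀ z : (Matrix ι ι (MonoidAlgebra k G))ˣ,
      rot k G ι (p ^ (e + 1)) (TT k G ι (p ^ (e + 1)) z) = TT k G ι (p ^ (e + 1)) z :=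
    fun z => (hTDN k p e hr.frob G ι z).1
  have hD : ∀ z : (Matrix ι ι (MonoidAlgebra k G))ˣ,
      rot k G ι (p ^ (e + 1)) (DD k G ι p e z) = DD k G ι p e z :=
    fun z => (hTDN k p e hr.frob G ι z).2.1
  obtain ⟨b, hb⟩ := (hTDN k p e hr.frob G ι (diagU y)).2.2
  -- diagonal matrices
  have hd : ∀ i j : ι, id i ≠ id j →
      ((diagU y : (Matrix ι ι (MonoidAlgebra k G))ˣ) : Matrix ι ι (MonoidAlgebra k G)) i j = 0 :=
    fun i j h => Matrix.diagonal_apply_ne _ h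
  have hd' : ∀ i j : ι, id i ≠ id j →
      (((diagU y)⁻¹ : (Matrix ι ι (MonoidAlgebra k G))ˣ) :
        Matrix ι ι (MonoidAlgebra k G)) i j = 0 :=
    fun i j h => Matrix.diagonal_apply_ne _ h
  have hTBD : BD (id : ι → ι) (TT k G ι (p ^ (e + 1)) (diagU y) : TR k G ι (p ^ (e + 1))) :=
    BD_tens id hd
  have hTBD' : BD (id : ι → ι)
      (((TT k G ι (p ^ (e + 1)) (diagU y))⁻¹ : (TR k G ι (p ^ (e + 1)))ˣ) :
        TR k G ι (p ^ (e + 1))) := by
    rw [← map_inv]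
    exact BD_tens id hd'
  have hDBD : BD (id : ι → ι) (DD k G ι p e (diagU y) : TR k G ι (p ^ (e + 1))) :=
    BD_dhat id hd
  have hDBD' : BD (id : ι → ι)
      (((DD k G ι p e (diagU y))⁻¹ : (TR k G ι (p ^ (e + 1)))ˣ) :
        TR k G ι (p ^ (e + 1))) := by
    rw [← map_inv]
    exact BD_dhat id hd'
  -- the diagonal part of `b`
  set b₁ : TR k G ι (p ^ (e + 1)) := tr (id : ι → ι) b with hb₁
  have hb1 : (TT k G ι (p ^ (e + 1)) (diagU y) : TR k G ι (p ^ (e + 1))) *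
      (1 + nm (rot k G ι (p ^ (e + 1))) (p ^ (e + 1)) b₁) = DD k G ι p e (diagU y) := by
    have h1 := congrArg (tr (id : ι → ι)) hb
    rw [tr_diag_mul hTBD, tr_add', tr_nm, tr_of_BD id (BD_one id), tr_of_BD id hDBD] at h1
    exact h1
  have hb1BD : BD (id : ι → ι) b₁ := BD_tr id b
  obtain ⟨s, hs, hs'⟩ := hQSB.onto _ _ _ _ (p ^ (e + 1)) (rot k G ι (p ^ (e + 1)))
    (iB k (p ^ (e + 1)) r G ι) (tauS (p ^ (e + 1)) G ι) (dS (p ^ (e + 1)) G ι) (phiS ι Θ) hdat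
    (TT k G ι (p ^ (e + 1))) (DD k G ι p e) hT hD (diagU y) b₁ hb1
  have hone := hBLS.one (p ^ (e + 1)) G ι
  have htau := (hBLS.tau (p ^ (e + 1)) G ι).2
  have hDs2 : DSt (1 + iB k (p ^ (e + 1)) r G ι b₁ * eS (p ^ (e + 1)) (tauS (p ^ (e + 1)) G ι)) :=
    (hBLS.add _ _ _ _ _ hone (hBLS.mul _ _ _ _ _ (hBLS.iB _ _ _ _ _ _ hb1BD) htau)).1
  have hDs1 : DSt (iB k (p ^ (e + 1)) r G ι
      (TT k G ι (p ^ (e + 1)) (diagU y) : TR k G ι (p ^ (e + 1)))) :=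
    hBLS.iB _ _ _ _ _ _ hTBD
  have hDs : DSt (s : SR (p ^ (e + 1)) G ι) := by
    rw [hs]
    exact hBLS.mul _ _ _ _ _ hDs1 hDs2
  have hDs' : DSt ((s⁻¹ : (SR (p ^ (e + 1)) G ι)ˣ) : SR (p ^ (e + 1)) G ι) := by
    rw [hs']
    refine hBLS.mul _ _ _ _ _ ?_ (hBLS.iB _ _ _ _ _ _ hTBD')
    refine (hBLS.add _ _ _ _ _ hone (hBLS.mul _ _ _ _ _ (hBLS.iB _ _ _ _ _ _ ?_) htau)).2
    exact BD_mul id (BD_mul id hb1BD hDBD') hTBD
  -- the blocks
  have hu : ∀ l, sbS l (s : SR (p ^ (e + 1)) G ι) *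
      sbS l ((s⁻¹ : (SR (p ^ (e + 1)) G ι)ˣ) : SR (p ^ (e + 1)) G ι) = 1 := by
    intro l
    rw [← hBLS.smul _ _ _ _ _ _ hDs, Units.mul_inv, hBLS.sone]
  have hu' : ∀ l, sbS l ((s⁻¹ : (SR (p ^ (e + 1)) G ι)ˣ) : SR (p ^ (e + 1)) G ι) *
      sbS l (s : SR (p ^ (e + 1)) G ι) = 1 := by
    intro l
    rw [← hBLS.smul _ _ _ _ _ _ hDs', Units.inv_mul, hBLS.sone]
  refine ⟨s, fun l => ⟨sbS l (s : SR (p ^ (e + 1)) G ι),
    sbS l ((s⁻¹ : (SR (p ^ (e + 1)) G ι)ˣ) : SR (p ^ (e + 1)) G ι), hu l, hu' l⟩,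
    hDs, hDs', fun l => rfl, ⟨b₁, hs, hb1⟩, fun l => ?_⟩
  -- the constant word `l`
  have hf : Function.Injective (fun _ : Unit => l) := fun _ _ _ => Subsingleton.elim _ _
  have hsub : ((diagU y : (Matrix ι ι (MonoidAlgebra k G))ˣ) :
      Matrix ι ι (MonoidAlgebra k G)).submatrix (fun _ : Unit => l) (fun _ : Unit => l) =
      ((diagU fun _ : Unit => y l : (Matrix Unit Unit (MonoidAlgebra k G))ˣ) :
        Matrix Unit Unit (MonoidAlgebra k G)) := by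
    ext1 i j
    obtain rfl : i = j := Subsingleton.elim _ _
    show Matrix.diagonal (fun k_1 => (y k_1 : MonoidAlgebra k G)) l l =
      Matrix.diagonal (fun _ : Unit => (y l : MonoidAlgebra k G)) i i
    rw [Matrix.diagonal_apply_eq, Matrix.diagonal_apply_eq]
  have hTsb : sb (fun _ : Unit => l)
      (TT k G ι (p ^ (e + 1)) (diagU y) : TR k G ι (p ^ (e + 1))) =
      (TT k G Unit (p ^ (e + 1)) (diagU fun _ => y l) : TR k G Unit (p ^ (e + 1))) := by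
    show sb (fun _ : Unit => l) (tens k G ι (p ^ (e + 1)) _) = tens k G Unit (p ^ (e + 1)) _
    rw [sb_tens, hsub]
  have hDsb : sb (fun _ : Unit => l)
      (DD k G ι p e (diagU y) : TR k G ι (p ^ (e + 1))) =
      (DD k G Unit p e (diagU fun _ => y l) : TR k G Unit (p ^ (e + 1))) := by
    show sb (fun _ : Unit => l) (dhat k G ι p e _) = dhat k G Unit p e _
    rw [sb_dhat hf, hsub]
  refine ⟨sb (fun _ : Unit => l) b₁, ?_, ?_⟩
  · show sbS l (s : SR (p ^ (e + 1)) G ι) = _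
    rw [hs, hBLS.smul _ _ _ _ _ _ hDs1, hBLS.sB, hTsb]
    congr 1
    have h2 : sbS l (1 + iB k (p ^ (e + 1)) r G ι b₁ *
        eS (p ^ (e + 1)) (tauS (p ^ (e + 1)) G ι)) =
        sbS l (1 : SR (p ^ (e + 1)) G ι) + sbS l (iB k (p ^ (e + 1)) r G ι b₁ *
        eS (p ^ (e + 1)) (tauS (p ^ (e + 1)) G ι)) := rfl
    rw [h2, hBLS.sone, hBLS.smul _ _ _ _ _ _ (hBLS.iB _ _ _ _ _ _ hb1BD), hBLS.sB,
      (hBLS.stau _ _ _ _).2]
  · have h3 := congrArg (sb (fun _ : Unit => l)) hb1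
    rw [sb_mul hf _ _ (closed_of_BD _ hTBD), sb_add, sb_one hf, sb_nm, hTsb, hDsb] at h3
    exact h3

end Pool.Agent.Lib.MPb6f35e.K2
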