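import Pool.Agent.Lib.MP_b6f35e_al.K2.SpecE

/-!
# K_2 theorem (MP_b6f35e_al), module DSS: the descended list of generators
-/

set_option autoImplicit false

noncomputable section

namespace Pool.Agent.Lib.MPb6f35e.K2

universe u v w

namespace DSSaux

section

variable {R₀ : Type u} [CommRing R₀] {R : Type w} [CommRing R] {G : Type v} [Group G]
  (f : R₀ →+* R)

/-- The map of the units of the group rings. -/
def uM : (MonoidAlgebra R₀ G)ˣ →* (MonoidAlgebra R G)ˣ :=
  Units.map (MonoidAlgebra.mapRingHom G f).toMonoidHom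

lemma uM_val (u : (MonoidAlgebra R₀ G)ˣ) :
    (uM f u).val = MonoidAlgebra.mapRingHom G f u.val := rfl

lemma uM_inv (u : (MonoidAlgebra R₀ G)ˣ) :
    (uM f u).inv = MonoidAlgebra.mapRingHom G f u.inv := rfl

lemma coeff_ne (x : MonoidAlgebra R₀ G) (g : G)
    (h : (MonoidAlgebra.mapRingHom G f x).coeff g ≠ 0) : x.coeff g ≠ 0 := by
  intro h0
  apply h
  rw [MonoidAlgebra.coeff_mapRingHom, h0, map_zero]

lemma mem_val {u : (MonoidAlgebra R₀ G)ˣ} {C : Subgroup G}
    (h : ∀ g, u.val.coeff g ≠ 0 → g ∈ C) : ∀ g, (uM f u).val.coeff g ≠ 0 → g ∈ C :=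
  fun g hg => h g (coeff_ne f _ g hg)

lemma mem_inv {u : (MonoidAlgebra R₀ G)ˣ} {C : Subgroup G}
    (h : ∀ g, u.inv.coeff g ≠ 0 → g ∈ C) : ∀ g, (uM f u).inv.coeff g ≠ 0 → g ∈ C :=
  fun g hg => h g (coeff_ne f _ g hg)

/-- The map of the generators. -/
def gM (y : GenT R₀ G) : GenT R G :=
  ⟨y.C, y.fin, y.cyc, y.z, y.comm, uM f y.u, mem_val f y.ov, mem_inv f y.ov'⟩

lemma genT_eq {A : Type w} [CommRing A] (C : Subgroup G) (hC : Finite C) (cC : IsCyclic C) (z : G)
    (hz : ∀ h ∈ C, z * h = h * z) (u u' : (MonoidAlgebra A G)ˣ) (e : u = u')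
    (hu : ∀ g, u.val.coeff g ≠ 0 → g ∈ C) (hu' : ∀ g, u.inv.coeff g ≠ 0 → g ∈ C)
    (hv : ∀ g, u'.val.coeff g ≠ 0 → g ∈ C) (hv' : ∀ g, u'.inv.coeff g ≠ 0 → g ∈ C) :
    (⟨C, hC, cC, z, hz, u, hu, hu'⟩ : GenT A G) = ⟨C, hC, cC, z, hz, u', hv, hv'⟩ := by
  subst e
  rfl

open FreeAbelianGroup in
lemma rel_map (x : FreeAbelianGroup (GenT R₀ G)) (hx : RelT R₀ G x) :
    map (gM f) x ∈ AddSubgroup.closure {y | RelT R G y} := by
  apply AddSubgroup.subset_closure
  cases hx with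
  | mulz C hC cC z z' hz hz' hzz u hu hu' =>
    rw [map_sub, map_sub, map_of_apply, map_of_apply, map_of_apply]
    exact RelT.mulz C hC cC z z' hz hz' hzz (uM f u) (mem_val f hu) (mem_inv f hu')
  | mulu C hC cC z hz a b hu hu' hv hv' huv huv' =>
    rw [map_sub, map_sub, map_of_apply, map_of_apply, map_of_apply]
    have e : uM f (a * b) = uM f a * uM f b := map_mul _ _ _
    have h1 : gM f ⟨C, hC, cC, z, hz, a * b, huv, huv'⟩ =
        ⟨C, hC, cC, z, hz, uM f a * uM f b, by rw [← e]; exact mem_val f huv,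
          by rw [← e]; exact mem_inv f huv'⟩ :=
      genT_eq C hC cC z hz _ _ e _ _ _ _
    rw [h1]
    exact RelT.mulu C hC cC z hz (uM f a) (uM f b) (mem_val f hu) (mem_inv f hu')
      (mem_val f hv) (mem_inv f hv') _ _
  | conj C K hC cC hK cK g hg z hz hz' a b hu hu' hv hv' h =>
    rw [map_sub, map_of_apply, map_of_apply]
    refine RelT.conj C K hC cC hK cK g hg z hz hz' (uM f a) (uM f b) (mem_val f hu)
      (mem_inv f hu') (mem_val f hv) (mem_inv f hv') ?_
    have h2 := congrArg (MonoidAlgebra.mapRingHom G f) h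
    rw [map_mul, map_mul, MonoidAlgebra.mapRingHom_single, map_one] at h2
    exact h2

/-- The map of the tensor products. -/
def FM : TGrp R₀ G →+ TGrp R G := D1.hom (gM f) (rel_map f)

lemma FM_cls (y : GenT R₀ G) : FM f (D1.cls (RelT R₀ G) y) = D1.cls (RelT R G) (gM f y) := by
  rfl

lemma FM_tsum (l : List (GenT R₀ G)) : FM f (tsum R₀ G l) = tsum R G (l.map (gM f)) := by
  rw [tsum, tsum, map_list_sum, List.map_map, List.map_map]
  rfl

lemma FM_mem (p : ℕ) (𝒞 : Set (Subgroup G)) (y : TGrp R₀ G) (hy : y ∈ DSubS p R₀ G 𝒞) :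
    FM f y ∈ DSubS p R G 𝒞 := by
  have h : DSubS p R₀ G 𝒞 ≤ (DSubS p R G 𝒞).comap (FM f) := by
    rw [DSubS, AddSubgroup.closure_le]
    rintro a ⟨x, hx, hh, rfl⟩
    exact AddSubgroup.subset_closure ⟨gM f x, hx, hh, FM_cls f x⟩
  exact h hy

lemma map_inj (hf : Function.Injective f) :
    Function.Injective (MonoidAlgebra.mapRingHom G f) := by
  intro a b hab
  ext g
  apply hf
  rw [← MonoidAlgebra.coeff_mapRingHom, ← MonoidAlgebra.coeff_mapRingHom, hab]

lemma uM_inj (hf : Function.Injective f) :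
    Function.Injective (uM f : (MonoidAlgebra R₀ G)ˣ → (MonoidAlgebra R G)ˣ) := by
  intro a b hab
  apply Units.ext
  apply map_inj f hf
  exact congrArg Units.val hab

lemma uM_gU (g : G) : uM f (gU R₀ g) = gU R g := by
  apply Units.ext
  rw [uM_val]
  simp [gU, MonoidAlgebra.mapRingHom_single]

lemma coeff_ne' (hf : Function.Injective f) (x : MonoidAlgebra R₀ G) (g : G)
    (h : x.coeff g ≠ 0) : (MonoidAlgebra.mapRingHom G f x).coeff g ≠ 0 := by
  intro h0
  apply h
  rw [MonoidAlgebra.coeff_mapRingHom] at h0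
  exact hf (by rw [h0, map_zero])

/-- The list of generators. -/
lemma exists_list (hf : Function.Injective f) (l : List (GenT R G)) :
    ∀ l₁ : List ((MonoidAlgebra R₀ G)ˣ × (MonoidAlgebra R₀ G)ˣ),
      l₁.map (fun a => (uM f a.1, uM f a.2)) = l.map (fun x => (gU R x.z, x.u)) →
      ∃ l' : List (GenT R₀ G), l'.map (gM f) = l ∧ l'.map (fun y => (gU R₀ y.z, y.u)) = l₁ := by
  induction l with
  | nil =>
    intro l₁ h
    rw [List.map_nil, List.map_eq_nil_iff] at h
    exact ⟨[], rfl, by rw [h]; rfl⟩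
  | cons x l ih =>
    intro l₁ h
    cases l₁ with
    | nil => simp at h
    | cons a l₁ =>
      rw [List.map_cons, List.map_cons, List.cons.injEq, Prod.mk.injEq] at h
      obtain ⟨⟨h1, h2⟩, h3⟩ := h
      obtain ⟨l', hl, hl'⟩ := ih l₁ h3
      have hv : ∀ g, a.2.val.coeff g ≠ 0 → g ∈ x.C := by
        intro g hg
        apply x.ov g
        rw [← h2, uM_val]
        exact coeff_ne' f hf _ g hg
      have hi : ∀ g, a.2.inv.coeff g ≠ 0 → g ∈ x.C := by
        intro g hg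
        apply x.ov' g
        rw [← h2, uM_inv]
        exact coeff_ne' f hf _ g hg
      have hz : a.1 = gU R₀ x.z := by
        apply uM_inj f hf
        rw [h1, uM_gU]
      refine ⟨⟨x.C, x.fin, x.cyc, x.z, x.comm, a.2, hv, hi⟩ :: l', ?_, ?_⟩
      · rw [List.map_cons, hl]
        congr 1
        exact genT_eq x.C x.fin x.cyc x.z x.comm _ _ h2 _ _ _ _
      · rw [List.map_cons, hl', ← hz]

end

end DSSaux

open DSSaux in
/-- **DSS**. -/
theorem specDSS (hDES : SpecDES.{u, v}) : SpecDSS.{u, v} := by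
  intro R _ G _ l hl
  obtain ⟨m, hm, h⟩ := isOfFinOrder_iff_pow_eq_one.1 hl
  have h0 : (((l.map fun x => (gU R x.z, x.u)).map fun a => symb a.1 a.2).prod) ^ m = 1 := by
    rw [List.map_map]
    exact h
  obtain ⟨S, n, l₁, h1, h2⟩ := hDES R G (l.map fun x => (gU R x.z, x.u)) m h0
  have hf : Function.Injective (Algebra.adjoin ℤ (S : Set R)).val.toRingHom :=
    Subtype.val_injective
  obtain ⟨l', h3, h4⟩ := exists_list (Algebra.adjoin ℤ (S : Set R)).val.toRingHom hf l l₁ h1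
  refine ⟨S, n, m, l', hm, ?_, ⟨FM (Algebra.adjoin ℤ (S : Set R)).val.toRingHom, ?_, ?_⟩, ?_⟩
  · rw [← h4, List.map_map] at h2
    exact h2
  · rw [FM_tsum, h3]
  · intro p 𝒞 y hy
    exact FM_mem _ p 𝒞 y hy
  · rw [← h3, List.map_map]
    rfl

end Pool.Agent.Lib.MPb6f35e.K2
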