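import Pool.Agent.Lib.MP_b6f35e_al.K2.SpecF
import Pool.Agent.Lib.MP_b6f35e_al.K2.DSS

/-!
# K_2 theorem (MP_b6f35e_al), module DS2: the descended list of generators, with the finite part
(adapted from `DSS.lean`)
-/

set_option autoImplicit false

noncomputable section

namespace Pool.Agent.Lib.MPb6f35e.K2

universe u v

open DSSaux in
/-- **DS2**. -/
theorem specDS2 (hDE2 : SpecDE2.{u, v}) : SpecDS2.{u, v} := by
  intro R _ G _ l m hl
  have h0 : (((l.map fun x => (gU R x.z, x.u)).map fun a => symb a.1 a.2).prod) ^ m ∈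
      FinPart R G := by
    rw [List.map_map]
    exact hl
  obtain ⟨S, n, l₁, L, h1, hL, h2⟩ := hDE2 R G (l.map fun x => (gU R x.z, x.u)) m h0
  have hf : Function.Injective (Algebra.adjoin ℤ (S : Set R)).val.toRingHom :=
    Subtype.val_injective
  obtain ⟨l', h3, h4⟩ := exists_list (Algebra.adjoin ℤ (S : Set R)).val.toRingHom hf l l₁ h1
  refine ⟨S, n, l', L, hL, ?_, ⟨FM (Algebra.adjoin ℤ (S : Set R)).val.toRingHom, ?_, ?_⟩, ?_⟩
  · rw [← h4, List.map_map] at h2
    exact h2
  · rw [FM_tsum, h3]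
  · intro p 𝒞 y hy
    exact FM_mem _ p 𝒞 y hy
  · rw [← h3, List.map_map]
    rfl

end Pool.Agent.Lib.MPb6f35e.K2
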