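import Pool.Agent.Lib.MP_b6f35e_al.D1.Defs

/-!
# Definitions of the hand-in on `K_2(R[G])`: Steinberg groups and the tensor product

* `St I A`: the Steinberg group of the ring `A` with index set `I`; `K_2(A)` is the kernel of
  `St ℕ A → GL(A)`;
* `symb z u`: the symbol `{z, u}` in `St ℕ A`, for commuting units `z`, `u` of `A`;
* `TGrp R G`: the tensor product of `Z_G(C)_ab` and `R[C]ˣ` over the finite cyclic subgroups `C` of
  `G`, by generators and relations;
* `DSub p R G`: the part of `TGrp R G` not seen by homomorphisms to the integers localised at `p`.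
-/

set_option autoImplicit false

noncomputable section

namespace Pool.Agent.Lib.MPb6f35e.K2

universe u v

/-- The commutator. -/
def cm {X : Type*} [Group X] (s t : X) : X := s * t * s⁻¹ * t⁻¹

/-! ### Steinberg groups -/

/-- The generator `x_ij(a)`, `i ≠ j`, of the Steinberg group. -/
structure StGen (I : Type) (A : Type u) where
  i : I
  j : I
  ne : i ≠ j
  a : A

open FreeGroup in
/-- The relations of the Steinberg group: `x_ij(a) x_ij(b) = x_ij(a + b)`;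
`[x_ij(a), x_kl(b)] = 1` for `j ≠ k`, `i ≠ l`; `[x_ij(a), x_jk(b)] = x_ik(ab)` for `i ≠ k`. -/
inductive StRel (I : Type) (A : Type u) [Ring A] : FreeGroup (StGen I A) → Prop
  | add (i j : I) (h : i ≠ j) (a b : A) :
      StRel I A (of ⟨i, j, h, a⟩ * of ⟨i, j, h, b⟩ * (of ⟨i, j, h, a + b⟩)⁻¹)
  | comm (i j k l : I) (h : i ≠ j) (h' : k ≠ l) (hjk : j ≠ k) (hil : i ≠ l) (a b : A) :
      StRel I A (cm (of ⟨i, j, h, a⟩) (of ⟨k, l, h', b⟩))
  | mul (i j k : I) (h : i ≠ j) (h' : j ≠ k) (h'' : i ≠ k) (a b : A) :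
      StRel I A (cm (of ⟨i, j, h, a⟩) (of ⟨j, k, h', b⟩) * (of ⟨i, k, h'', a * b⟩)⁻¹)

/-- The Steinberg group. -/
abbrev St (I : Type) (A : Type u) [Ring A] : Type u := PresentedGroup {x | StRel I A x}

section

variable {I : Type} {A : Type u} [Ring A]

/-- `x_ij(a)` -/
def xx {i j : I} (h : i ≠ j) (a : A) : St I A := PresentedGroup.of ⟨i, j, h, a⟩

/-- `w_ij(u) = x_ij(u) x_ji(-u⁻¹) x_ij(u)` -/
def ww {i j : I} (h : i ≠ j) (u : Aˣ) : St I A :=
  xx h (u : A) * xx h.symm (-((u⁻¹ : Aˣ) : A)) * xx h (u : A)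

/-- `h_ij(u) = w_ij(u) w_ij(-1)` -/
def hh {i j : I} (h : i ≠ j) (u : Aˣ) : St I A := ww h u * ww h (-1)

/-- The symbol `{z, u} = [h_ij(z), h_ik(u)]`. -/
def sym {i j k : I} (h : i ≠ j) (h' : i ≠ k) (z u : Aˣ) : St I A := cm (hh h z) (hh h' u)

/-- The symbol `{z, u} = [h_01(z), h_02(u)]` in the stable Steinberg group. -/
def symb (z u : Aˣ) : St ℕ A := sym zero_ne_one (i := 0) (j := 1) (k := 2) (by decide) z u

end

/-! ### the tensor product -/

variable (R : Type u) [CommRing R] (G : Type v) [Group G]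

/-- Generators `(C, z, u)`: `C` a finite cyclic subgroup of `G`, `z` in the centralizer of `C`, `u` a
unit of `R[C]`, that is, a unit of `R[G]` such that `u` and `u⁻¹` have all coefficients in `C`. -/
structure GenT where
  /-- the finite cyclic subgroup -/
  C : Subgroup G
  fin : Finite C
  cyc : IsCyclic C
  /-- the element of the centralizer -/
  z : G
  comm : ∀ h ∈ C, z * h = h * z
  /-- the unit -/
  u : (MonoidAlgebra R G)ˣ
  ov : ∀ g, u.val.coeff g ≠ 0 → g ∈ C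
  ov' : ∀ g, u.inv.coeff g ≠ 0 → g ∈ C

open FreeAbelianGroup in
/-- Relations: `(C, z z', u) = (C, z, u) + (C, z', u)`; `(C, z, u u') = (C, z, u) + (C, z, u')`;
`(K, z, g u g⁻¹) = (C, g⁻¹ z g, u)` if `g C g⁻¹ ≤ K` and `z` centralizes `K`. -/
inductive RelT : FreeAbelianGroup (GenT R G) → Prop
  | mulz (C : Subgroup G) (hC : Finite C) (cC : IsCyclic C) (z z' : G)
      (hz : ∀ h ∈ C, z * h = h * z) (hz' : ∀ h ∈ C, z' * h = h * z')
      (hzz : ∀ h ∈ C, z * z' * h = h * (z * z')) (u : (MonoidAlgebra R G)ˣ)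
      (hu : ∀ g, u.val.coeff g ≠ 0 → g ∈ C) (hu' : ∀ g, u.inv.coeff g ≠ 0 → g ∈ C) :
      RelT (of ⟨C, hC, cC, z * z', hzz, u, hu, hu'⟩ - of ⟨C, hC, cC, z, hz, u, hu, hu'⟩
        - of ⟨C, hC, cC, z', hz', u, hu, hu'⟩)
  | mulu (C : Subgroup G) (hC : Finite C) (cC : IsCyclic C) (z : G)
      (hz : ∀ h ∈ C, z * h = h * z) (u v : (MonoidAlgebra R G)ˣ)
      (hu : ∀ g, u.val.coeff g ≠ 0 → g ∈ C) (hu' : ∀ g, u.inv.coeff g ≠ 0 → g ∈ C)
      (hv : ∀ g, v.val.coeff g ≠ 0 → g ∈ C) (hv' : ∀ g, v.inv.coeff g ≠ 0 → g ∈ C)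
      (huv : ∀ g, (u * v).val.coeff g ≠ 0 → g ∈ C)
      (huv' : ∀ g, (u * v).inv.coeff g ≠ 0 → g ∈ C) :
      RelT (of ⟨C, hC, cC, z, hz, u * v, huv, huv'⟩ - of ⟨C, hC, cC, z, hz, u, hu, hu'⟩
        - of ⟨C, hC, cC, z, hz, v, hv, hv'⟩)
  | conj (C K : Subgroup G) (hC : Finite C) (cC : IsCyclic C) (hK : Finite K) (cK : IsCyclic K)
      (g : G) (hg : ∀ h ∈ C, g * h * g⁻¹ ∈ K) (z : G) (hz : ∀ h ∈ K, z * h = h * z)
      (hz' : ∀ h ∈ C, g⁻¹ * z * g * h = h * (g⁻¹ * z * g)) (u v : (MonoidAlgebra R G)ˣ)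
      (hu : ∀ g, u.val.coeff g ≠ 0 → g ∈ C) (hu' : ∀ g, u.inv.coeff g ≠ 0 → g ∈ C)
      (hv : ∀ g, v.val.coeff g ≠ 0 → g ∈ K) (hv' : ∀ g, v.inv.coeff g ≠ 0 → g ∈ K)
      (h : MonoidAlgebra.single g 1 * u.val = v.val * MonoidAlgebra.single g 1) :
      RelT (of ⟨K, hK, cK, z, hz, v, hv, hv'⟩
        - of ⟨C, hC, cC, g⁻¹ * z * g, hz', u, hu, hu'⟩)

/-- The tensor product of `Z_G(C)_ab` and `R[C]ˣ` over the finite cyclic subgroups `C` of `G`. -/
abbrev TGrp : Type (max u v) := D1.Grp (RelT R G)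

variable {G} in
/-- The group element `g` as a unit of `R[G]`. -/
def gU (g : G) : (MonoidAlgebra R G)ˣ :=
  ⟨MonoidAlgebra.single g 1, MonoidAlgebra.single g⁻¹ 1,
    by rw [MonoidAlgebra.single_mul_single, mul_inv_cancel, one_mul, MonoidAlgebra.one_def],
    by rw [MonoidAlgebra.single_mul_single, inv_mul_cancel, one_mul, MonoidAlgebra.one_def]⟩

variable {R G} in
/-- The symbol `{z, u}` of a generator. -/
def GenT.symb (x : GenT R G) : St ℕ (MonoidAlgebra R G) := K2.symb (gU R x.z) x.u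

variable {G} in
/-- `z` in `Z_G(C)` is killed by all homomorphisms of `Z_G(C)` to the rational numbers with
denominator prime to `p`. -/
def Hidden (p : ℕ) (C : Subgroup G) (z : G) : Prop :=
  ∀ χ : G → ℚ,
    (∀ a b, (∀ h ∈ C, a * h = h * a) → (∀ h ∈ C, b * h = h * b) → χ (a * b) = χ a + χ b) →
    (∀ a, (∀ h ∈ C, a * h = h * a) → ¬ p ∣ (χ a).den) → χ z = 0

/-- The subgroup of the tensor product generated by the `(C, z, u)` with hidden `z`. -/
def DSub (p : ℕ) : AddSubgroup (TGrp R G) :=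
  AddSubgroup.closure {y | ∃ x : GenT R G, Hidden p x.C x.z ∧ y = D1.cls (RelT R G) x}

/-- The class in the tensor product of a list of generators. -/
def tsum (l : List (GenT R G)) : TGrp R G := (l.map (D1.cls (RelT R G))).sum

/-- The product of the symbols of a list of generators. -/
def sprod (l : List (GenT R G)) : St ℕ (MonoidAlgebra R G) := (l.map GenT.symb).prod

end Pool.Agent.Lib.MPb6f35e.K2
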