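import Pool.Agent.Lib.MP_b6f35e_al.K2.Defs

/-! # The part of `K_2(R[G])` that comes from the finite subgroups -/

set_option autoImplicit false

noncomputable section

namespace Pool.Agent.Lib.MPb6f35e.K2

universe u v

/-- The subgroup of `St I (R[G])` generated by the `x_ij(a)` with `a` in `R[H]`. -/
def StH (I : Type) (R : Type u) [CommRing R] {G : Type v} [Group G] (H : Subgroup G) :
    Subgroup (St I (MonoidAlgebra R G)) :=
  Subgroup.closure {y | ∃ (i j : I) (h : i ≠ j) (a : MonoidAlgebra R G),
    (∀ g, a.coeff g ≠ 0 → g ∈ H) ∧ y = xx h a}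

/-- The subgroup of `K_2(R[G])` generated by the images of the `K_2(R[H])`, `H` a finite subgroup of
`G`; `K_2` is the center of the stable Steinberg group. -/
def FinPart (R : Type u) [CommRing R] (G : Type v) [Group G] :
    Subgroup (St ℕ (MonoidAlgebra R G)) :=
  Subgroup.closure {w | (∀ v, w * v = v * w) ∧ ∃ H : Subgroup G, Finite H ∧ w ∈ StH ℕ R H}

end Pool.Agent.Lib.MPb6f35e.K2
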