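import Pool.Agent.Lib.MP_b6f35e_al.K2.DefsF

/-! # The homomorphism to `K_2(R[G])` and the conditions on the centralizers -/

set_option autoImplicit false

noncomputable section

namespace Pool.Agent.Lib.MPb6f35e.K2

universe u v

variable (R : Type u) [CommRing R] (G : Type v) [Group G]

/-- `κ` is a homomorphism from the tensor product to `K_2(R[G])`, the center of the stable Steinberg
group, with `κ (C, z, u) = {z, u}`. -/
structure IsKap (κ : TGrp R G → St ℕ (MonoidAlgebra R G)) : Prop where
  add : ∀ x y, κ (x + y) = κ x * κ y
  central : ∀ x v, κ x * v = v * κ x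
  symb : ∀ x : GenT R G, κ (D1.cls (RelT R G) x) = x.symb

/-- For every finite cyclic subgroup `C` and all large primes `p` the elements of `Z_G(C)` which are
killed by all homomorphisms of `Z_G(C)` to the rational numbers with denominator prime to `p` have
finite order in the abelianization of `Z_G(C)`. -/
def NoHidden : Prop :=
  ∀ C : Subgroup G, Finite C → IsCyclic C → ∃ M : ℕ, ∀ p, M < p → p.Prime →
    ∀ z : Subgroup.centralizer (C : Set G), Hidden p C (z : G) →
      IsOfFinOrder (Abelianization.of z)

/-- The abelianization of `Z_G(C)` is finitely generated for every finite cyclic subgroup `C`. -/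
def CentFG : Prop :=
  ∀ C : Subgroup G, Finite C → IsCyclic C →
    Group.FG (Abelianization (Subgroup.centralizer (C : Set G)))

end Pool.Agent.Lib.MPb6f35e.K2
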