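import Pool.Agent.Lib.MP_b6f35e_al.K2.SpecE
import Pool.Agent.Lib.MP_b6f35e_al.K2.DefsF

/-!
# K_2 theorem (MP_b6f35e_al), specification F: modulo the `K_2` of the finite subgroups

Captain helper19.  Every statement has its complete proof in the docstring.
-/

set_option autoImplicit false

noncomputable section

namespace Pool.Agent.Lib.MPb6f35e.K2

open Pool.Agent.Lib.MPb6f35e.WH

universe u v w x

/-! ### the central extension, explicit form -/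

/-- EX2 (adapt `EXT.lean`, 80 lines).  The group `Y = X / ker λ` of EXT with the map
`q y s a` = class of `(y, s, a)` (for `(y, s)` in `Q`, `1` otherwise). -/
def SpecEX2 : Prop :=
  ∀ (B : Type u) (S : Type v) (H : Type w) (U : Type x) [Ring B] [Ring S] [AddCommGroup H]
    [Group U] (N : ℕ) (ρ : B →+* B) (i : B →+* S) (τ : Sˣ) (d : S →+ S) (φ : S →+ S →+ H)
    (_ : IsDat N ρ i τ d φ) (T D : U →* Bˣ) (_ : ∀ y, ρ (T y) = T y) (_ : ∀ y, ρ (D y) = D y)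
    (_ : ∀ y, ∃ b, (T y : B) * (1 + nm ρ N b) = D y),
    ∃ (Y : Type (max v w x)) (_ : Group Y) (π : Y →* U) (ε : Y → H) (q : U → Sˣ → H → Y),
      Function.Surjective π ∧ (∀ k, π k = 1 → ∀ z, k * z = z * k) ∧
      (∀ k k', π k = 1 → π k' = 1 → ε (k * k') = ε k + ε k') ∧
      (∀ k, π k = 1 → ε k = 0 → k = 1) ∧
      (∀ y s a, InG N ρ i τ T D y s → π (q y s a) = y) ∧
      (∀ y s a y' s' a', InG N ρ i τ T D y s → InG N ρ i τ T D y' s' →
        q y s a * q y' s' a' = q (y * y') (s * s') (a + a' + cc d φ s s')) ∧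
      (∀ k a, InG N ρ i τ T D (1 : U) k → ε (q 1 k a) = a - fK N ρ i τ φ k) ∧
      ∀ (y y' : U) (s s' : Sˣ), y * y' = y' * y → InG N ρ i τ T D y s → InG N ρ i τ T D y' s' →
        ∀ k k', π k = y → π k' = y' → ε (cm k k') = EE d φ (fK N ρ i τ φ) s s'

/-! ### finite subgroups -/

/-- HET (150 lines, from THE).  On the wreath product of a finite subgroup `H` whose order is
invertible in `k`, the cocycle `Θ` is a coboundary.

PROOF.  `η(w) := |H|^(-N) Σ_(v in H^N) Θ(inW v; w)`.  For `v'` in `H^N`, `w` in `W_H`: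
`Σ_v Θ(v; v' w v'⁻¹) = Σ_v (Θ(v v'; w) - Θ(v'; w)) = Σ_v Θ(v; w) - |H|^N Θ(v'; w)`, so
`Θ(v'; w) = η(w) - η(v' w v'⁻¹)`.  The set of the `v` in `W_H` with this property for all `w` in
`W_H` is closed under products (cocycle identity); every element of `W_H` is `inW v' * tW^k`; so it
remains to prove it for `v = t = tW`.  If the degree of `w` is not `1`, all terms are `0`
(THE.zero: elements conjugate to `w₀` have degree 1).  If `w = γ t` (`γ = inW w.left`):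
`t w t⁻¹ = t γ = γ⁻¹ w γ`, `t = γ⁻¹ w`, so `Θ(t; w) = Θ(γ⁻¹; w w w⁻¹) + Θ(w; w) = Θ(γ⁻¹; w) =
η(w) - η(γ⁻¹ w γ) = η(w) - η(t w t⁻¹)` (THE.coc, THE.self: `X_W(w₀) = X(c) = 0`). -/
def SpecHET : Prop :=
  ∀ (k : Type u) [CommRing k] (N : ℕ) [NeZero N] (G : Type v) [Group G] (H : Subgroup G)
    (_ : Finite H) (_ : IsUnit ((Nat.card H : ℕ) : k)) (c : G) (X : G → k) (_ : HomOn c X)
    (_ : X c = 0),
    ∃ η : WR N G → k, ∀ v w : WR N G, (∀ j, v.left j ∈ H) → (∀ j, w.left j ∈ H) →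
      Th (w0 N c) (XW X) v w = η w - η (v * w * v⁻¹)

/-- All group elements of the entries have components in `H`. -/
def SH {N : ℕ} {G : Type v} [Group G] {ι : Type} (H : Subgroup G) (a : SR N G ι) : Prop :=
  ∀ (I J : ZMod N → ι) (g : WR N G), (a I J).coeff g ≠ 0 → ∀ j, g.left j ∈ H

/-- The functional `a ↦ Σ_I Σ_w (a_II)_w η(w)`. -/
def hS {N : ℕ} [NeZero N] {G : Type v} [Group G] (ι : Type) [Fintype ι] [DecidableEq ι]
    (η : WR N G → ZMod N) : SR N G ι →+ ZMod N :=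
  ∑ I : ZMod N → ι, ((Finsupp.liftAddHom fun w : WR N G => AddMonoidHom.mulRight (η w)).comp
    MonoidAlgebra.coeffAddEquiv.toAddMonoidHom).comp (Matrix.entryAddMonoidHom _ I I)

/-- HSB (150 lines).
`cl`: `SH` is closed under `1`, `+`, `-`, products, `dS`, contains `τ` and the `i(b)` with `b` over
`H` (`(b I J).coeff γ ≠ 0 → ∀ j, γ j ∈ H`).
`phi`: on group elements `φ(v, v') = Θ(v'; v v') = η(v v') - η(v' v)`; sum over the coefficients and
over `(I, J)`: `Σ_(I,J) φ(a_IJ, b_JI) = h(ab) - h(ba)`. -/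
structure SpecHSB : Prop where
  one : ∀ (N : ℕ) [NeZero N] (G : Type v) [Group G] (ι : Type) [Fintype ι] [DecidableEq ι]
    (H : Subgroup G), SH H (1 : SR N G ι)
  add : ∀ (N : ℕ) [NeZero N] (G : Type v) [Group G] (ι : Type) [Fintype ι] [DecidableEq ι]
    (H : Subgroup G) (a b : SR N G ι), SH H a → SH H b → SH H (a + b) ∧ SH H (a - b)
  mul : ∀ (N : ℕ) [NeZero N] (G : Type v) [Group G] (ι : Type) [Fintype ι] [DecidableEq ι]
    (H : Subgroup G) (a b : SR N G ι), SH H a → SH H b → SH H (a * b)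
  tau : ∀ (N : ℕ) [NeZero N] (G : Type v) [Group G] (ι : Type) [Fintype ι] [DecidableEq ι]
    (H : Subgroup G), SH H (tauS N G ι : SR N G ι) ∧ SH H (eS N (tauS N G ι))
  dS : ∀ (N : ℕ) [NeZero N] (G : Type v) [Group G] (ι : Type) [Fintype ι] [DecidableEq ι]
    (H : Subgroup G) (a : SR N G ι), SH H a → SH H (K2.dS N G ι a)
  iB : ∀ (k : Type u) [CommRing k] (N : ℕ) [NeZero N] (r : k →+* ZMod N) (G : Type v) [Group G]
    (ι : Type) [Fintype ι] [DecidableEq ι] (H : Subgroup G) (b : TR k G ι N)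
    (_ : ∀ I J γ, (b I J).coeff γ ≠ 0 → ∀ j, γ j ∈ H), SH H (K2.iB k N r G ι b)
  phi : ∀ (N : ℕ) [NeZero N] (G : Type v) [Group G] (ι : Type) [Fintype ι] [DecidableEq ι]
    (H : Subgroup G) (Θ : WR N G → WR N G → ZMod N) (η : WR N G → ZMod N)
    (_ : ∀ v w : WR N G, (∀ j, v.left j ∈ H) → (∀ j, w.left j ∈ H) →
      Θ v w = η w - η (v * w * v⁻¹)) (a b : SR N G ι), SH H a → SH H b →
    phiS ι Θ a b = hS ι η (a * b) - hS ι η (b * a)

/-- HSC (150 lines, from HSB, F1).  Let `g(s) = h(s⁻¹ d(s))`.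
`coc`: `c(s, t) = g(st) - g(s) - g(t)` for units `s`, `t` with `SH s, s⁻¹, t, t⁻¹`:
`c(s,t) = φ(t⁻¹ D(s), t) = h(t⁻¹ D(s) t) - h(D(s))` (`D(s) = s⁻¹ d(s)`) and
`D(st) = t⁻¹ D(s) t + D(t)`.
`ker`: `g(s) = f(s)` for `s = 1 + i(q - ρ q) e` with `SH s`.  The part of degree 0 of `s - 1` is
`i(κ)`, `κ = q - ρ q` (see DGR.inj).  Let `q'` be the part of `q` with all components in `H`
(coefficients at other words `γ` replaced by `0`; this commutes with `ρ` and is compatible with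
`i`).  Then `i(q' - ρ q') = i(κ)`, so we may assume that `q` is over `H`.  By F1
`f(s) = φ(i(q(1 + n)), τ) = h(i(q(1+n)) τ) - h(τ i(q(1+n))) = h(i(κ (1 + n)) τ)`, `n = Nm q` (fixed by
`ρ`, `τ i(x) = i(ρ x) τ`).  DEL for `r = 1`, `b = κ`, `Nm κ = 0`, `Xi = 1`:
`s⁻¹ d(s) = i(κ)(Σ j τ^j + i(pp κ) e)`, `pp ρ N κ = Σ j ρ^j κ ≡ n` modulo `N`
(`Σ_(j<N) j (ρ^j q - ρ^(j+1) q) = n - N q`), `h` of the terms `i(x) τ^j` with `j ≠ 1` vanishes if
`η = 0` in degrees `≠ 1` (hypothesis), so `g(s) = h(i(κ) τ) + h(i(κ n) τ) = f(s)`. -/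
structure SpecHSC : Prop where
  coc : ∀ (N : ℕ) [NeZero N] (G : Type v) [Group G] (ι : Type) [Fintype ι] [DecidableEq ι]
    (H : Subgroup G) (Θ : WR N G → WR N G → ZMod N) (η : WR N G → ZMod N)
    (_ : ∀ v w : WR N G, (∀ j, v.left j ∈ H) → (∀ j, w.left j ∈ H) →
      Θ v w = η w - η (v * w * v⁻¹)) (s t : (SR N G ι)ˣ)
    (_ : SH H (s : SR N G ι)) (_ : SH H ((s⁻¹ : (SR N G ι)ˣ) : SR N G ι))
    (_ : SH H (t : SR N G ι)) (_ : SH H ((t⁻¹ : (SR N G ι)ˣ) : SR N G ι)),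
    cc (dS N G ι) (phiS ι Θ) s t =
      hS ι η ((((s * t)⁻¹ : (SR N G ι)ˣ) : SR N G ι) * dS N G ι ((s * t : (SR N G ι)ˣ) : SR N G ι))
        - hS ι η (((s⁻¹ : (SR N G ι)ˣ) : SR N G ι) * dS N G ι (s : SR N G ι))
        - hS ι η (((t⁻¹ : (SR N G ι)ˣ) : SR N G ι) * dS N G ι (t : SR N G ι))
  ker : ∀ (k : Type u) [CommRing k] (N : ℕ) [NeZero N] (r : k →+* ZMod N) (G : Type v) [Group G]
    (ι : Type) [Fintype ι] [DecidableEq ι]
    (H : Subgroup G) (Θ : WR N G → WR N G → ZMod N) (η : WR N G → ZMod N)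
    (_ : ∀ v w : WR N G, (∀ j, v.left j ∈ H) → (∀ j, w.left j ∈ H) →
      Θ v w = η w - η (v * w * v⁻¹)) (_ : ∀ w, dg w ≠ 1 → η w = 0)
    (_ : IsDat N (rot k G ι N) (K2.iB k N r G ι) (tauS N G ι) (dS N G ι) (phiS ι Θ))
    (s : (SR N G ι)ˣ) (_ : SH H (s : SR N G ι))
    (_ : InK N (rot k G ι N) (K2.iB k N r G ι) (tauS N G ι) s),
    hS ι η (((s⁻¹ : (SR N G ι)ˣ) : SR N G ι) * dS N G ι (s : SR N G ι)) =
      fK N (rot k G ι N) (K2.iB k N r G ι) (tauS N G ι) (phiS ι Θ) s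

/-- HSD (120 lines, from TDN, QSB.onto, HSB).  A unit `y` of `M_ι(k[G])` with `y`, `y⁻¹` over `H` has
a lift `s` with `SH s`, `SH s⁻¹`: `y` is the image of a matrix over `k[H]`; TDN for the group `H`
gives `b₀` over `k[H^N]`; push forward by `FT H.subtype` (`FT_tens`, `FT_dhat`, `FT_nm` in
`WH/GVal.lean`); QSB.onto gives `s` and `s⁻¹`. -/
def SpecHSD : Prop :=
  ∀ (k : Type u) [CommRing k] (p e : ℕ) [Fact p.Prime] [NeZero (p ^ e)] [NeZero (p ^ (e + 1))]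
    (r : k →+* ZMod (p ^ (e + 1))) (_ : IsRed k p e r) (G : Type v) [Group G] (ι : Type)
    [Fintype ι] [DecidableEq ι] (Θ : WR (p ^ (e + 1)) G → WR (p ^ (e + 1)) G → ZMod (p ^ (e + 1)))
    (_ : IsDat (p ^ (e + 1)) (rot k G ι (p ^ (e + 1))) (iB k (p ^ (e + 1)) r G ι)
      (tauS (p ^ (e + 1)) G ι) (dS (p ^ (e + 1)) G ι) (phiS ι Θ)) (H : Subgroup G)
    (y : (Matrix ι ι (MonoidAlgebra k G))ˣ)
    (_ : ∀ i j, Supp H ((y : Matrix ι ι (MonoidAlgebra k G)) i j))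
    (_ : ∀ i j, Supp H (((y⁻¹ : (Matrix ι ι (MonoidAlgebra k G))ˣ) :
      Matrix ι ι (MonoidAlgebra k G)) i j)),
    ∃ s : (SR (p ^ (e + 1)) G ι)ˣ, SH H (s : SR (p ^ (e + 1)) G ι) ∧
      SH H ((s⁻¹ : (SR (p ^ (e + 1)) G ι)ˣ) : SR (p ^ (e + 1)) G ι) ∧
      InG (p ^ (e + 1)) (rot k G ι (p ^ (e + 1))) (iB k (p ^ (e + 1)) r G ι)
        (tauS (p ^ (e + 1)) G ι) (TT k G ι (p ^ (e + 1))) (DD k G ι p e) y s

/-- The elements of `St_(n+5)(k[G])` that come from `K_2` of finite subgroups whose order is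
invertible in `k`: generated by `x_ij(a)`, `a` in `k[H]`, with trivial image in `GL_(n+5)`. -/
def FinS (k : Type u) [CommRing k] (G : Type v) [Group G] (n : ℕ)
    (y : St (Fin (n + 5)) (MonoidAlgebra k G)) : Prop :=
  ∃ H : Subgroup G, Finite H ∧ IsUnit ((Nat.card H : ℕ) : k) ∧ y ∈ StH (Fin (n + 5)) k H ∧
    ∀ θ : St (Fin (n + 5)) (MonoidAlgebra k G) →*
      (Matrix (Fin (n + 5)) (Fin (n + 5)) (MonoidAlgebra k G))ˣ,
      (∀ (i j : Fin (n + 5)) (h : i ≠ j) (a : MonoidAlgebra k G), θ (xx h a) = eM h a) → θ y = 1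

/-- OM2 (250 lines, from EX2, UCE, HGL, CON, TDN, HET, HSC, HSD, THE).  As OME, for the concrete
datum, modulo `K_2` of finite subgroups.

PROOF.  EX2 for `U = GL_(n+5)(k[G])` gives `Y, π, ε, q`, UCE gives `ψ : St → Y`, `θ = π ψ`.  As in OME
`m Σ EE(s_j, t_j) = ε(ψ(∏ sym)^m) = Σ_(y in L) ε(ψ(y))`, so it is enough: `ψ(y) = 1` for `FinS y`.
Let `H` be the finite subgroup, `η` from HET, `η_N(w) := r(η(w))` if `w` has degree `1`, `0`
otherwise (the hypothesis of HSC holds: `Θ = 0` in degrees `≠ 1`, conjugation preserves the degree).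
Let `P` be the set of the `v` in `St` such that there are a lift `s` of `θ(v)` with `SH s`, `SH s⁻¹`,
and `ψ(v) = q (θ v) s (g s)`, `g(s) = h(s⁻¹ d(s))`.  `P` is closed under products (EX2, HSC.coc:
`g s + g s' + c(s, s') = g(s s')`) and inverses (`q 1 1 0 = 1` as `ε(q 1 1 0) = - f(1) = 0`).  `P`
contains `x_ij(a)`, `a` in `k[H]`: choose `l ≠ i, j`; HSD gives lifts `s₁`, `s₂` of `e_il(a)`,
`e_lj(1)` over `H`; `y₁ = q (e_il(a)) s₁ (g s₁)` and `ψ(x_il(a))` have the same image under `π`, the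
same for `y₂`, so (central kernel) `ψ(x_ij(a)) = cm (ψ x_il(a)) (ψ x_lj(1)) = cm y₁ y₂`, which is
of the form `q (e_ij(a)) (cm s₁ s₂) (g (cm s₁ s₂))` as in the closure under products and inverses.
So `StH H ≤ P`; if `θ(y) = 1`, then `ψ(y) = q 1 s (g s)` with `s` in `K` (QSB.ker), and
`ε(ψ y) = g(s) - f(s) = 0` by HSC.ker, so `ψ(y) = 1`. -/
def SpecOM2 : Prop :=
  ∀ (k : Type u) [CommRing k] (p e : ℕ) [Fact p.Prime] [NeZero (p ^ e)] [NeZero (p ^ (e + 1))]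
    (r' : k →+* ZMod (p ^ (e + 1))) (_ : IsRed k p e r') (G : Type v) [Group G] (c : G)
    (X : G → k) (_ : HomOn c X) (_ : X c = 0) (n r m : ℕ)
    (z y : Fin r → (MonoidAlgebra k G)ˣ)
    (s t : Fin r → (SR (p ^ (e + 1)) G (Fin (n + 5)))ˣ) (_ : ∀ j, z j * y j = y j * z j)
    (_ : ∀ j, InG (p ^ (e + 1)) (rot k G (Fin (n + 5)) (p ^ (e + 1)))
        (iB k (p ^ (e + 1)) r' G (Fin (n + 5))) (tauS (p ^ (e + 1)) G (Fin (n + 5)))
        (TT k G (Fin (n + 5)) (p ^ (e + 1))) (DD k G (Fin (n + 5)) p e)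
        (diagU (dF (o0 n) (o1 n) (z j))) (s j))
    (_ : ∀ j, InG (p ^ (e + 1)) (rot k G (Fin (n + 5)) (p ^ (e + 1)))
        (iB k (p ^ (e + 1)) r' G (Fin (n + 5))) (tauS (p ^ (e + 1)) G (Fin (n + 5)))
        (TT k G (Fin (n + 5)) (p ^ (e + 1))) (DD k G (Fin (n + 5)) p e)
        (diagU (dF (o0 n) (o2 n) (y j))) (t j))
    (L : List (St (Fin (n + 5)) (MonoidAlgebra k G))) (_ : ∀ y ∈ L, FinS k G n y)
    (_ : ((List.ofFn fun j => sym (o01 n) (o02 n) (z j) (y j)).prod) ^ m = L.prod),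
    m • ∑ j, EE (dS (p ^ (e + 1)) G (Fin (n + 5))) (phiS (Fin (n + 5)) (ThN r' c X))
        (fK (p ^ (e + 1)) (rot k G (Fin (n + 5)) (p ^ (e + 1)))
          (iB k (p ^ (e + 1)) r' G (Fin (n + 5))) (tauS (p ^ (e + 1)) G (Fin (n + 5)))
          (phiS (Fin (n + 5)) (ThN r' c X))) (s j) (t j) = 0

/-! ### the relation with the finite part -/

/-- `(∏ {z_j, φ_j(x_j)})^m` is a product of elements from finite subgroups, in
`St_(n+5)(ℤ_p[G])`. -/
def RelS2 (p : ℕ) [Fact p.Prime] (G : Type v) [Group G] (n m R : ℕ) (C : Fin R → Type v)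
    [∀ j, CommGroup (C j)] (φ : ∀ j, C j →* G) (z : Fin R → G)
    (x : ∀ j, (MonoidAlgebra ℤ_[p] (C j))ˣ) : Prop :=
  ∃ L : List (St (Fin (n + 5)) (MonoidAlgebra ℤ_[p] G)), (∀ y ∈ L, FinS ℤ_[p] G n y) ∧
    ((List.ofFn fun j => sym (o01 n) (o02 n) (gU ℤ_[p] (z j))
      (Units.map (MonoidAlgebra.mapDomainRingHom ℤ_[p] (φ j)).toMonoidHom (x j))).prod) ^ m =
      L.prod

/-- FL2 (60 lines, from OM2, VLF, RED): as FLV. -/
def SpecFL2 : Prop :=
  ∀ (p : ℕ) [Fact p.Prime] (_ : p ≠ 2) (G : Type v) [Group G] (n m R : ℕ) (C : Fin R → Type v)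
    [∀ j, CommGroup (C j)] (φ : ∀ j, C j →* G) (z : Fin R → G) (_ : ∀ j h, z j * φ j h = φ j h * z j)
    (x : ∀ j, (MonoidAlgebra ℤ_[p] (C j))ˣ) (_ : RelS2 p G n m R C φ z x)
    (c : G) (X : G → ℤ_[p]) (_ : HomOn c X) (_ : X c = 0) (e : ℕ)
    (b : ∀ j, MonoidAlgebra ℤ_[p] (C j)) (_ : ∀ j, (x j : MonoidAlgebra ℤ_[p] (C j)) ^ (p ^ (e + 1)) =
      (powC ℤ_[p] (C j) p (x j)) ^ (p ^ e) * (1 + (p ^ (e + 1)) • b j)),
    m • ∑ j, vl (PadicInt.toZModPow (e + 1) : ℤ_[p] →+* ZMod (p ^ (e + 1))) c X (z j) (φ j) (b j) =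
      0

/-- RE2 (mechanical: LIM and REL with `RelS2`, `SpecFL2` instead of `RelSt`, `SpecFLV`; their
proofs use the relation only through FLV): as REL. -/
def SpecRE2 : Prop :=
  ∀ (p : ℕ) [Fact p.Prime] (_ : p ≠ 2) (G : Type v) [Group G] (n m R : ℕ) (_ : 0 < m)
    (C : Fin R → Type v) [∀ j, CommGroup (C j)] [∀ j, Fintype (C j)]
    (_ : ∀ j, ¬ p ∣ Fintype.card (C j)) (φ : ∀ j, C j →* G)
    (z : Fin R → G) (_ : ∀ j h, z j * φ j h = φ j h * z j)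
    (x : ∀ j, (MonoidAlgebra ℤ_[p] (C j))ˣ) (_ : RelS2 p G n m R C φ z x)
    (c : G) (X : G → ℤ_[p]) (_ : HomOn c X) (_ : X c = 0) (a : ℕ) (_ : 0 < a)
    (_ : ∀ j, OneModP p ((x j : MonoidAlgebra ℤ_[p] (C j)) ^ a)),
    ∑ j, ∑ h, ((Th c X (z j) (φ j h) : ℤ_[p]) : ℚ_[p]) *
      lgP p ((x j : MonoidAlgebra ℤ_[p] (C j)) ^ a) h = 0

/-- DE2 (250 lines; extend `DES.lean`).  Descent with the finite part.

PROOF.  `(∏ {z_i, u_i})^m = ∏_t W_t` with `W_t` central in `St(R[G])` and in `StH ℕ R H_t`, `H_t`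
finite (closure induction; inverses of such elements are such elements).  Write `W_t` as the class
of a word `ω_t` in the `x_ij(a)^(±1)`, `a` over `H_t`.  `L_(n,S)`, `P` as in DES.  The element
`(∏ sym)^m (∏ ω_t)⁻¹` of the free group is in the normal closure of the relations, so in `P`; let
`n₁` be larger than all indices `i, j` in the `ω_t`; the elements `[ω_t, x_k,n₁(1)]`, `k < n₁`
(finitely many) are in the normal closure too, so in `P`.  Choose `n + 5 > n₁` and `S` so large that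
`L_(n,S)` of all these elements is `1`, and `S` contains all coefficients of the `z_i^(±1)`,
`u_i^(±1)` and of the letters of the `ω_t`.  Then `w_t := L_(n,S)(ω_t)` is in `StH (Fin (n+5)) R₀ H_t`,
`(∏ sym)^m = ∏ w_t`, and `w_t` commutes with the `x_k,n₁(1)`.  For `θ : St_(n+5)(R₀[G]) → GL` with
`θ(x_ij(a)) = 1 + a e_ij` the matrix `M = θ(w_t)` is `1` outside the block of the indices `< n₁`
(product of elementary matrices in this block), and commutes with `1 + e_(k,n₁)`: `M e_(k,n₁) =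
e_(k,n₁) M = e_(k,n₁)`, the `k`-th column of `M` is `e_k`.  So `M = 1`. -/
def SpecDE2 : Prop :=
  ∀ (R : Type u) [CommRing R] (G : Type v) [Group G]
    (l : List ((MonoidAlgebra R G)ˣ × (MonoidAlgebra R G)ˣ)) (m : ℕ)
    (_ : ((l.map fun a => symb a.1 a.2).prod) ^ m ∈ FinPart R G),
    ∃ (S : Finset R) (n : ℕ) (l' : List ((MonoidAlgebra (Algebra.adjoin ℤ (S : Set R)) G)ˣ ×
        (MonoidAlgebra (Algebra.adjoin ℤ (S : Set R)) G)ˣ))
      (L : List (St (Fin (n + 5)) (MonoidAlgebra (Algebra.adjoin ℤ (S : Set R)) G))),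
      l'.map (fun a =>
        (Units.map (MonoidAlgebra.mapRingHom G
          (Algebra.adjoin ℤ (S : Set R)).val.toRingHom).toMonoidHom a.1,
        Units.map (MonoidAlgebra.mapRingHom G
          (Algebra.adjoin ℤ (S : Set R)).val.toRingHom).toMonoidHom a.2)) = l ∧
      (∀ y ∈ L, ∃ H : Subgroup G, Finite H ∧
        y ∈ StH (Fin (n + 5)) (Algebra.adjoin ℤ (S : Set R)) H ∧
        ∀ θ : St (Fin (n + 5)) (MonoidAlgebra (Algebra.adjoin ℤ (S : Set R)) G) →*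
          (Matrix (Fin (n + 5)) (Fin (n + 5)) (MonoidAlgebra (Algebra.adjoin ℤ (S : Set R)) G))ˣ,
          (∀ (i j : Fin (n + 5)) (h : i ≠ j) (a : MonoidAlgebra _ G), θ (xx h a) = eM h a) →
            θ y = 1) ∧
      ((l'.map fun a => sym (o01 n) (o02 n) a.1 a.2).prod) ^ m = L.prod

/-- DS2 (from DE2; adapt `DSS.lean`). -/
def SpecDS2 : Prop :=
  ∀ (R : Type u) [CommRing R] (G : Type v) [Group G] (l : List (GenT R G)) (m : ℕ)
    (_ : (sprod R G l) ^ m ∈ FinPart R G),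
    ∃ (S : Finset R) (n : ℕ) (l' : List (GenT (Algebra.adjoin ℤ (S : Set R)) G))
      (L : List (St (Fin (n + 5)) (MonoidAlgebra (Algebra.adjoin ℤ (S : Set R)) G))),
      (∀ y ∈ L, ∃ H : Subgroup G, Finite H ∧
        y ∈ StH (Fin (n + 5)) (Algebra.adjoin ℤ (S : Set R)) H ∧
        ∀ θ : St (Fin (n + 5)) (MonoidAlgebra (Algebra.adjoin ℤ (S : Set R)) G) →*
          (Matrix (Fin (n + 5)) (Fin (n + 5)) (MonoidAlgebra (Algebra.adjoin ℤ (S : Set R)) G))ˣ,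
          (∀ (i j : Fin (n + 5)) (h : i ≠ j) (a : MonoidAlgebra _ G), θ (xx h a) = eM h a) →
            θ y = 1) ∧
      ((l'.map fun y => sym (o01 n) (o02 n) (gU _ y.z) y.u).prod) ^ m = L.prod ∧
      (∃ F : TGrp (Algebra.adjoin ℤ (S : Set R)) G →+ TGrp R G,
        F (tsum _ G l') = tsum R G l ∧
        ∀ (p : ℕ) (𝒞 : Set (Subgroup G)), ∀ y ∈ DSubS p (Algebra.adjoin ℤ (S : Set R)) G 𝒞,
          F y ∈ DSubS p R G 𝒞) ∧
      l'.map (fun y => y.C) = l.map (fun y => y.C)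

/-- PA2 (adapt `PAD.lean`; from RE2, STF, LGG, THE, TRL, AL2).  As PAD, with the finite part; the
image of an element of the list `L` in `St_(n+5)(ℤ_p[G])` is `FinS` (STF maps `StH` to `StH`; a
`θ` for `ℤ_p[G]` composed with STF is `GL(i)` of the `θ` for `R₀[G]`, on the subgroup `StH` and hence
on `y`: both are given on generators; the standard `θ` exists by `PresentedGroup.toGroup`; `p` does
not divide the order of `H`). -/
def SpecPA2 : Prop :=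
  ∀ (p : ℕ) [Fact p.Prime] (_ : p ≠ 2) (R₀ : Type u) [CommRing R₀] (i : R₀ →+* ℤ_[p])
    (_ : Function.Injective i) (G : Type v) [Group G] (l : List (GenT R₀ G))
    (_ : ∀ y ∈ l, ¬ p ∣ Nat.card y.C) (n m : ℕ) (_ : 0 < m)
    (L : List (St (Fin (n + 5)) (MonoidAlgebra R₀ G)))
    (_ : ∀ y ∈ L, ∃ H : Subgroup G, Finite H ∧ ¬ p ∣ Nat.card H ∧
        y ∈ StH (Fin (n + 5)) R₀ H ∧ ∀ θ : St (Fin (n + 5)) (MonoidAlgebra R₀ G) →*
          (Matrix (Fin (n + 5)) (Fin (n + 5)) (MonoidAlgebra R₀ G))ˣ,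
          (∀ (i j : Fin (n + 5)) (h : i ≠ j) (a : MonoidAlgebra R₀ G), θ (xx h a) = eM h a) →
            θ y = 1)
    (_ : ((l.map fun y => sym (o01 n) (o02 n) (gU R₀ y.z) y.u).prod) ^ m = L.prod),
    ∃ m' : ℕ, 0 < m' ∧ m' • tsum R₀ G l ∈ DSubS p R₀ G {D | ∃ y ∈ l, D ≤ y.C}

/-- MN2 (60 lines, from DS2, `SpecCAS`, PA2; adapt `MNA.lean`). -/
def SpecMN2 : Prop :=
  ∀ (R : Type u) [CommRing R] [IsDomain R] [CharZero R] (G : Type v) [Group G]
    (l : List (GenT R G)) (m : ℕ) (_ : 0 < m) (_ : (sprod R G l) ^ m ∈ FinPart R G) (M : ℕ),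
    ∃ p, M < p ∧ p.Prime ∧ ∃ m : ℕ, 0 < m ∧
      m • tsum R G l ∈ DSubS p R G {D | ∃ y ∈ l, D ≤ y.C}

/-- MA2 (from MN2, HID; adapt `MAI.lean`): the theorem. -/
def SpecMA2 : Prop :=
  ∀ (R : Type u) [CommRing R] [IsDomain R] [CharZero R] (G : Type v) [Group G]
    (l : List (GenT R G)) (m : ℕ) (_ : 0 < m) (_ : (sprod R G l) ^ m ∈ FinPart R G),
    (∀ M : ℕ, ∃ p, M < p ∧ p.Prime ∧ ∃ m : ℕ, 0 < m ∧ m • tsum R G l ∈ DSub R G p) ∧
    ((∀ C : Subgroup G, Finite C → IsCyclic C → ∃ M : ℕ, ∀ p, M < p → p.Prime → ∀ (z : G)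
        (hz : ∀ h ∈ C, z * h = h * z), Hidden p C z → IsOfFinOrder (Abelianization.of
        (⟨z, Subgroup.mem_centralizer_iff.2 fun h hh => (hz h hh).symm⟩ :
          Subgroup.centralizer (C : Set G)))) → IsOfFinAddOrder (tsum R G l)) ∧
    ((∀ C : Subgroup G, Finite C → IsCyclic C →
      Group.FG (Abelianization (Subgroup.centralizer (C : Set G)))) →
        IsOfFinAddOrder (tsum R G l))

end Pool.Agent.Lib.MPb6f35e.K2
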