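import Pool.Agent.Lib.MP_b6f35e_al.K2.EXT
import Pool.Agent.Lib.MP_b6f35e_al.K2.SpecF

/-!
# K_2 theorem (MP_b6f35e_al), module EX2: the central extension, explicit form

Author helper39 (EXT), adapted by helper19.
-/

set_option autoImplicit false

noncomputable section

namespace Pool.Agent.Lib.MPb6f35e.K2

open Pool.Agent.Lib.MPb6f35e.WH

universe u v w x

namespace EX2aux

open EXTaux

/-! ### a quotient with central kernel -/

section quot

variable {X : Type u} [Group X] {U : Type v} [Group U] {H : Type w} [AddCommGroup H]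

theorem quot (p : X →* U) (hp : Function.Surjective p) (lam : X → H)
    (hadd : ∀ k k', p k = 1 → p k' = 1 → lam (k * k') = lam k + lam k')
    (hconj : ∀ k y, p k = 1 → lam (y * k * y⁻¹) = lam k) :
    ∃ (Y : Type u) (_ : Group Y) (m : X →* Y) (π : Y →* U) (ε : Y → H),
      Function.Surjective π ∧ (∀ k, π k = 1 → ∀ z, k * z = z * k) ∧
      (∀ k k', π k = 1 → π k' = 1 → ε (k * k') = ε k + ε k') ∧
      (∀ y, π (m y) = p y) ∧ (∀ k, p k = 1 → ε (m k) = lam k) ∧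
      (∀ k, π k = 1 → ε k = 0 → k = 1) := by
  have := NN_normal p lam hadd hconj
  let N := NN p lam hadd
  have hN : N ≤ p.ker := fun k hk => hk.1
  let m : X →* X ⧸ N := QuotientGroup.mk' N
  let π : X ⧸ N →* U := QuotientGroup.lift N p fun k hk => hk.1
  have hπ : ∀ y, π (m y) = p y := fun y => rfl
  have hε : ∀ k, p k = 1 → lam ((m k).out) = lam k := by
    intro k hk
    obtain ⟨n, hn⟩ := QuotientGroup.mk_out_eq_mul N k
    have h1 : (m k).out = k * n := hn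
    rw [h1, hadd k n hk n.2.1, n.2.2, add_zero]
  have hm : Function.Surjective m := QuotientGroup.mk'_surjective N
  refine ⟨X ⧸ N, inferInstance, m, π, fun y => lam y.out, ?_, ?_, ?_, hπ, hε, ?_⟩
  · intro y
    obtain ⟨a, ha⟩ := hp y
    exact ⟨m a, ha⟩
  · intro k hk z
    obtain ⟨k, rfl⟩ := hm k
    obtain ⟨z, rfl⟩ := hm z
    rw [hπ] at hk
    rw [← map_mul, ← map_mul]
    refine (QuotientGroup.eq).mpr ?_
    have e1 : (k * z)⁻¹ * (z * k) = z⁻¹ * k⁻¹ * (z⁻¹)⁻¹ * k := by group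
    have hk' : p k⁻¹ = 1 := by rw [map_inv, hk, inv_one]
    have h2 : p (z⁻¹ * k⁻¹ * (z⁻¹)⁻¹) = 1 := by
      rw [map_mul, map_mul, hk', mul_one, ← map_mul, mul_inv_cancel, map_one]
    rw [e1]
    refine ⟨?_, ?_⟩
    · rw [map_mul, h2, hk, one_mul]
    · rw [hadd _ _ h2 hk, hconj _ _ hk', lam_inv p lam hadd k hk, neg_add_cancel]
  · intro k k' hk hk'
    obtain ⟨k, rfl⟩ := hm k
    obtain ⟨k', rfl⟩ := hm k'
    rw [hπ] at hk hk'
    rw [← map_mul]
    show lam ((m (k * k')).out) = lam ((m k).out) + lam ((m k').out)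
    rw [hε _ (by rw [map_mul, hk, hk', one_mul]), hε _ hk, hε _ hk', hadd k k' hk hk']
  · intro k hk hk'
    obtain ⟨k, rfl⟩ := hm k
    rw [hπ] at hk
    change lam ((m k).out) = 0 at hk'
    rw [hε _ hk] at hk'
    exact (QuotientGroup.eq_one_iff k).2 ⟨hk, hk'⟩

end quot

theorem main {U : Type u} {P : Type v} {H : Type w} [Group U] [Group P] [AddCommGroup H]
    (Q : Subgroup (U × P)) (c : P → P → H) (f : P → H)
    (hc : ∀ x y z : P, c x y + c (x * y) z = c y z + c x (y * z))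
    (hc1 : ∀ x, c 1 x = 0 ∧ c x 1 = 0)
    (honto : ∀ y : U, ∃ s, (y, s) ∈ Q)
    (hf2 : ∀ s t, (1, s) ∈ Q → (1, t) ∈ Q → f (s * t) = f s + f t + c s t)
    (hf3 : ∀ y x s, (y, x) ∈ Q → (1, s) ∈ Q →
      f (x * s * x⁻¹) = f s + c x s - c (x * s * x⁻¹) x) :
    ∃ (Y : Type (max u v w)) (_ : Group Y) (π : Y →* U) (ε : Y → H) (q : U → P → H → Y),
      Function.Surjective π ∧ (∀ k, π k = 1 → ∀ z, k * z = z * k) ∧
      (∀ k k', π k = 1 → π k' = 1 → ε (k * k') = ε k + ε k') ∧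
      (∀ k, π k = 1 → ε k = 0 → k = 1) ∧
      (∀ y s a, (y, s) ∈ Q → π (q y s a) = y) ∧
      (∀ y s a y' s' a', (y, s) ∈ Q → (y', s') ∈ Q →
        q y s a * q y' s' a' = q (y * y') (s * s') (a + a' + c s s')) ∧
      (∀ k a, ((1 : U), k) ∈ Q → ε (q 1 k a) = a - f k) ∧
      ∀ (y y' : U) (s s' : P), y * y' = y' * y → (y, s) ∈ Q → (y', s') ∈ Q →
        ∀ k k', π k = y → π k' = y' →
          ε (cm k k') = c s s' - c s' s - c (cm s s') (s' * s) - f (cm s s') := by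
  let _ := grp (Q := Q) (c := c) hc hc1
  let p : XX Q c →* U :=
    { toFun := fun x => x.q.1.1
      map_one' := rfl
      map_mul' := fun x y => rfl }
  have hq : ∀ x y : XX Q c, (x * y).q = x.q * y.q := fun x y => rfl
  have ha : ∀ x y : XX Q c, (x * y).a = x.a + y.a + c x.q.1.2 y.q.1.2 := fun x y => rfl
  have hp : Function.Surjective p := by
    intro y
    obtain ⟨s, hs⟩ := honto y
    exact ⟨⟨⟨(y, s), hs⟩, 0⟩, rfl⟩
  let lam : XX Q c → H := fun x => x.a - f x.q.1.2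
  have hmem : ∀ k : XX Q c, p k = 1 → ((1 : U), k.q.1.2) ∈ Q := by
    intro k hk
    have h1 : k.q.1 = (1, k.q.1.2) := Prod.ext hk rfl
    rw [← h1]
    exact k.q.2
  have hadd : ∀ k k', p k = 1 → p k' = 1 → lam (k * k') = lam k + lam k' := by
    intro k k' hk hk'
    show (k * k').a - f (k.q.1.2 * k'.q.1.2) = k.a - f k.q.1.2 + (k'.a - f k'.q.1.2)
    rw [ha, hf2 _ _ (hmem k hk) (hmem k' hk')]
    abel
  have hconj : ∀ k y, p k = 1 → lam (y * k * y⁻¹) = lam k := by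
    intro k y hk
    have h1 : (y * k * y⁻¹) * y = y * k := by group
    have h2 := congrArg XX.a h1
    rw [ha (y * k * y⁻¹) y, ha y k] at h2
    have h3 : (y * k * y⁻¹).q.1.2 = y.q.1.2 * k.q.1.2 * (y.q.1.2)⁻¹ := rfl
    rw [h3] at h2
    show (y * k * y⁻¹).a - f (y.q.1.2 * k.q.1.2 * (y.q.1.2)⁻¹) = k.a - f k.q.1.2
    rw [hf3 y.q.1.1 y.q.1.2 k.q.1.2 y.q.2 (hmem k hk)]
    have h4 : (y * k * y⁻¹).a = y.a + k.a + c y.q.1.2 k.q.1.2 - y.a -
        c (y.q.1.2 * k.q.1.2 * (y.q.1.2)⁻¹) y.q.1.2 :=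
      eq_sub_of_add_eq (eq_sub_of_add_eq (by rw [← h2]; abel))
    rw [h4]
    abel
  obtain ⟨Y, _, m, π, ε, hs, hcen, hε, hπm, hεm, hinj⟩ := quot p hp lam hadd hconj
  classical
  let q : U → P → H → Y := fun y s a => if h : (y, s) ∈ Q then m ⟨⟨(y, s), h⟩, a⟩ else 1
  have hqe : ∀ y s a (h : (y, s) ∈ Q), q y s a = m ⟨⟨(y, s), h⟩, a⟩ := fun y s a h => dif_pos h
  refine ⟨Y, inferInstance, π, ε, q, hs, hcen, hε, hinj, ?_, ?_, ?_, ?_⟩
  · intro y s a h
    rw [hqe y s a h]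
    exact hπm _
  · intro y s a y' s' a' h h'
    have h'' : (y * y', s * s') ∈ Q := Q.mul_mem h h'
    rw [hqe y s a h, hqe y' s' a' h', hqe _ _ _ h'', ← map_mul]
    rfl
  · intro k a h
    rw [hqe 1 k a h]
    exact hεm _ rfl
  intro y y' s s' hyy hys hys' k k' hk hk'
  let x : XX Q c := ⟨⟨(y, s), hys⟩, 0⟩
  let x' : XX Q c := ⟨⟨(y', s'), hys'⟩, 0⟩
  have hx : π (m x) = y := hπm x
  have hx' : π (m x') = y' := hπm x'
  have e1 : k = m x * ((m x)⁻¹ * k) := by group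
  have e2 : k' = m x' * ((m x')⁻¹ * k') := by group
  have hz : ∀ z, ((m x)⁻¹ * k) * z = z * ((m x)⁻¹ * k) :=
    hcen _ (by rw [map_mul, map_inv, hx, hk, inv_mul_cancel])
  have hz' : ∀ z, ((m x')⁻¹ * k') * z = z * ((m x')⁻¹ * k') :=
    hcen _ (by rw [map_mul, map_inv, hx', hk', inv_mul_cancel])
  rw [e1, e2, EXTaux.cm_left _ _ _ hz, EXTaux.cm_right _ _ _ hz']
  have e3 : cm (m x) (m x') = m (cm x x') := by simp only [cm, map_mul, map_inv]
  have hp1 : p (cm x x') = 1 := by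
    show y * y' * y⁻¹ * y'⁻¹ = 1
    rw [hyy]
    group
  rw [e3, hεm _ hp1]
  have h1 : cm x x' * (x' * x) = x * x' := by unfold cm; group
  have h2 := congrArg XX.a h1
  rw [ha, ha x' x, ha x x'] at h2
  have h3 : (cm x x').q.1.2 = cm s s' := rfl
  have h4 : (x' * x).q.1.2 = s' * s := rfl
  rw [h3, h4] at h2
  have h5 : (cm x x').a + (0 + 0 + c s' s) + c (cm s s') (s' * s) = 0 + 0 + c s s' := h2
  show (cm x x').a - f (cm s s') = _
  have h6 : (cm x x').a = c s s' - c s' s - c (cm s s') (s' * s) := by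
    have h7 : (cm x x').a =
        ((cm x x').a + (0 + 0 + c s' s) + c (cm s s') (s' * s)) - c s' s -
          c (cm s s') (s' * s) := by abel
    rw [h7, h5]
    abel
  rw [h6]

end EX2aux

open ABSaux in
theorem specEX2 : SpecEX2.{u, v, w, x} := by
  intro B S H U _ _ _ _ N ρ i τ d φ h T D hT hD hTD
  let Q : Subgroup (U × Sˣ) :=
    { carrier := {z | InG N ρ i τ T D z.1 z.2}
      one_mem' := specQSB.{u, v, w, x}.one B S H U N ρ i τ d φ h T D
      mul_mem' := fun {a b} ha hb =>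
        specQSB.{u, v, w, x}.mul B S H U N ρ i τ d φ h T D hT a.1 b.1 a.2 b.2 ha hb
      inv_mem' := fun {a} ha =>
        specQSB.{u, v, w, x}.inv B S H U N ρ i τ d φ h T D hT hD a.1 a.2 ha }
  have hK : ∀ s : Sˣ, ((1 : U), s) ∈ Q → InK N ρ i τ s := fun s hs =>
    specQSB.{u, v, w, x}.ker B S H U N ρ i τ d φ h T D s hs
  have hcoc := coc B S H N ρ i τ d φ h
  obtain ⟨Y, hY, π, ε, q, h1, h2, h3, h4, h5, h6, h7, h8⟩ := EX2aux.main Q (cc d φ) (fK N ρ i τ φ) hcoc.1 hcoc.2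
    (by
      intro y
      obtain ⟨b, hb⟩ := hTD y
      obtain ⟨s, hs, -⟩ := specQSB.{u, v, w, x}.onto B S H U N ρ i τ d φ h T D hT hD y b hb
      exact ⟨s, b, hs, hb⟩)
    (fun s t hs ht => (f2 B S H N ρ i τ d φ h s t (hK s hs) (hK t ht)).2)
    (fun y x' s hy hs => (f3 B S H N ρ i τ d φ h x' s
      (specQSB.{u, v, w, x}.inq B S H U N ρ i τ d φ h T D hT y x' hy) (hK s hs)).2)
  exact ⟨Y, hY, π, ε, q, h1, h2, h3, h4, h5, h6, h7, fun y y' s s' hyy hs hs' k k' hk hk' =>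
    h8 y y' s s' hyy hs hs' k k' hk hk'⟩

end Pool.Agent.Lib.MPb6f35e.K2
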