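import Pool.Agent.Lib.MP_b6f35e_al.K2.SpecE

/-!
# K_2 theorem (MP_b6f35e_al), module EXB

Author helper42.  For a unit `x` of `k[C]`, `C` commutative, there is `b` with
`x^N = Φ(x)^(N/p) (1 + N b)`.
-/

set_option autoImplicit false

noncomputable section

namespace Pool.Agent.Lib.MPb6f35e.K2

open Pool.Agent.Lib.MPb6f35e.WH

universe u v w x

theorem specEXB (hTDN : SpecTDN.{u, v}) : SpecEXB.{u, v} := by
  intro k _ p e _ _ _ hk C _ x
  obtain ⟨-, -, b, hb⟩ := hTDN k p e hk C Unit (diagU fun _ => x)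
  have h1 : (TT k C Unit (p ^ (e + 1)) (diagU fun _ => x) : TR k C Unit (p ^ (e + 1))) =
      tens k C Unit (p ^ (e + 1)) (Matrix.diagonal fun _ => (x : MonoidAlgebra k C)) := rfl
  have h2 : (DD k C Unit p e (diagU fun _ => x) : TR k C Unit (p ^ (e + 1))) =
      dhat k C Unit p e (Matrix.diagonal fun _ => (x : MonoidAlgebra k C)) := rfl
  rw [h1, h2] at hb
  have h3 := congrArg (mC ()) hb
  have hi : ∀ i : Unit, i = () := fun _ => rfl
  rw [mC_mul hi, mC_add, mC_one, mC_nm, mC_tens, mC_dhat hi, Matrix.diagonal_apply_eq] at h3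
  set β := mC () b with hβ
  have h4 : (powC k C p x) * (powC k C p ((x⁻¹ : (MonoidAlgebra k C)ˣ) : MonoidAlgebra k C)) = 1 := by
    rw [← map_mul, Units.mul_inv, map_one]
  refine ⟨-(β * ((x : MonoidAlgebra k C) ^ (p ^ (e + 1)) *
    (powC k C p ((x⁻¹ : (MonoidAlgebra k C)ˣ) : MonoidAlgebra k C)) ^ (p ^ e))), ?_⟩
  set Q := powC k C p ((x⁻¹ : (MonoidAlgebra k C)ˣ) : MonoidAlgebra k C) with hQ
  set P := powC k C p (x : MonoidAlgebra k C) with hP
  have h5 : P ^ (p ^ e) * Q ^ (p ^ e) = 1 := by rw [← mul_pow, h4, one_pow]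
  have h6 : (1 + (p ^ (e + 1)) • β) * ((x : MonoidAlgebra k C) ^ (p ^ (e + 1)) * Q ^ (p ^ e)) = 1 := by
    rw [← mul_assoc, mul_comm (1 + (p ^ (e + 1)) • β), h3, h5]
  have h7 : (1 : MonoidAlgebra k C) + (p ^ (e + 1)) •
      (-(β * ((x : MonoidAlgebra k C) ^ (p ^ (e + 1)) * Q ^ (p ^ e)))) =
      (x : MonoidAlgebra k C) ^ (p ^ (e + 1)) * Q ^ (p ^ e) := by
    rw [add_mul, one_mul, smul_mul_assoc] at h6
    rw [smul_neg, ← h6]
    abel
  rw [h7, mul_left_comm, h5, mul_one]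

end Pool.Agent.Lib.MPb6f35e.K2
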