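import Pool.Agent.Lib.MP_b6f35e_al.K2.QSB

/-!
# K_2 theorem (MP_b6f35e_al), module EXT: the central extension

Author helper39.
-/

set_option autoImplicit false

noncomputable section

namespace Pool.Agent.Lib.MPb6f35e.K2

open Pool.Agent.Lib.MPb6f35e.WH

universe u v w x

namespace EXTaux

/-! ### a quotient with central kernel -/

section quot

variable {X : Type u} [Group X] {U : Type v} [Group U] {H : Type w} [AddCommGroup H]

lemma lam_one (p : X →* U) (lam : X → H)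
    (hadd : ∀ k k', p k = 1 → p k' = 1 → lam (k * k') = lam k + lam k') : lam 1 = 0 := by
  have h := hadd 1 1 (map_one p) (map_one p)
  rw [mul_one] at h
  exact left_eq_add.mp h

lemma lam_inv (p : X →* U) (lam : X → H)
    (hadd : ∀ k k', p k = 1 → p k' = 1 → lam (k * k') = lam k + lam k') (k : X) (hk : p k = 1) :
    lam k⁻¹ = - lam k := by
  have h := hadd k⁻¹ k (by rw [map_inv, hk, inv_one]) hk
  rw [inv_mul_cancel, lam_one p lam hadd] at h
  exact eq_neg_of_add_eq_zero_left h.symm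

/-- The subgroup of the `k` in the kernel of `p` with `lam k = 0`. -/
def NN (p : X →* U) (lam : X → H)
    (hadd : ∀ k k', p k = 1 → p k' = 1 → lam (k * k') = lam k + lam k') : Subgroup X where
  carrier := {k | p k = 1 ∧ lam k = 0}
  one_mem' := ⟨map_one p, lam_one p lam hadd⟩
  mul_mem' := by
    rintro a b ⟨h1, h2⟩ ⟨h3, h4⟩
    exact ⟨by rw [map_mul, h1, h3, one_mul], by rw [hadd a b h1 h3, h2, h4, add_zero]⟩
  inv_mem' := by
    rintro a ⟨h1, h2⟩
    exact ⟨by rw [map_inv, h1, inv_one], by rw [lam_inv p lam hadd a h1, h2, neg_zero]⟩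

lemma NN_normal (p : X →* U) (lam : X → H)
    (hadd : ∀ k k', p k = 1 → p k' = 1 → lam (k * k') = lam k + lam k')
    (hconj : ∀ k y, p k = 1 → lam (y * k * y⁻¹) = lam k) : (NN p lam hadd).Normal := by
  refine ⟨?_⟩
  rintro n ⟨h1, h2⟩ g
  exact ⟨by rw [map_mul, map_mul, h1, mul_one, map_inv, mul_inv_cancel], by
    rw [hconj n g h1, h2]⟩

theorem quot (p : X →* U) (hp : Function.Surjective p) (lam : X → H)
    (hadd : ∀ k k', p k = 1 → p k' = 1 → lam (k * k') = lam k + lam k')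
    (hconj : ∀ k y, p k = 1 → lam (y * k * y⁻¹) = lam k) :
    ∃ (Y : Type u) (_ : Group Y) (m : X →* Y) (π : Y →* U) (ε : Y → H),
      Function.Surjective π ∧ (∀ k, π k = 1 → ∀ z, k * z = z * k) ∧
      (∀ k k', π k = 1 → π k' = 1 → ε (k * k') = ε k + ε k') ∧
      (∀ y, π (m y) = p y) ∧ (∀ k, p k = 1 → ε (m k) = lam k) := by
  have := NN_normal p lam hadd hconj
  let N := NN p lam hadd
  have hN : N ≤ p.ker := fun k hk => hk.1
  let m : X →* X ⧸ N := QuotientGroup.mk' N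
  let π : X ⧸ N →* U := QuotientGroup.lift N p fun k hk => hk.1
  have hπ : ∀ y, π (m y) = p y := fun y => rfl
  have hε : ∀ k, p k = 1 → lam ((m k).out) = lam k := by
    intro k hk
    obtain ⟨n, hn⟩ := QuotientGroup.mk_out_eq_mul N k
    have h1 : (m k).out = k * n := hn
    rw [h1, hadd k n hk n.2.1, n.2.2, add_zero]
  have hm : Function.Surjective m := QuotientGroup.mk'_surjective N
  refine ⟨X ⧸ N, inferInstance, m, π, fun y => lam y.out, ?_, ?_, ?_, hπ, hε⟩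
  · intro y
    obtain ⟨a, ha⟩ := hp y
    exact ⟨m a, ha⟩
  · intro k hk z
    obtain ⟨k, rfl⟩ := hm k
    obtain ⟨z, rfl⟩ := hm z
    rw [hπ] at hk
    rw [← map_mul, ← map_mul]
    refine (QuotientGroup.eq).mpr ?_
    have e1 : (k * z)⁻¹ * (z * k) = z⁻¹ * k⁻¹ * (z⁻¹)⁻¹ * k := by group
    have hk' : p k⁻¹ = 1 := by rw [map_inv, hk, inv_one]
    have h2 : p (z⁻¹ * k⁻¹ * (z⁻¹)⁻¹) = 1 := by
      rw [map_mul, map_mul, hk', mul_one, ← map_mul, mul_inv_cancel, map_one]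
    rw [e1]
    refine ⟨?_, ?_⟩
    · rw [map_mul, h2, hk, one_mul]
    · rw [hadd _ _ h2 hk, hconj _ _ hk', lam_inv p lam hadd k hk, neg_add_cancel]
  · intro k k' hk hk'
    obtain ⟨k, rfl⟩ := hm k
    obtain ⟨k', rfl⟩ := hm k'
    rw [hπ] at hk hk'
    rw [← map_mul]
    show lam ((m (k * k')).out) = lam ((m k).out) + lam ((m k').out)
    rw [hε _ (by rw [map_mul, hk, hk', one_mul]), hε _ hk, hε _ hk', hadd k k' hk hk']

lemma cm_left {Y : Type*} [Group Y] (a b z : Y) (hz : ∀ y, z * y = y * z) :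
    cm (a * z) b = cm a b := by
  unfold cm
  rw [mul_inv_rev, mul_assoc a z b, hz b]
  group

lemma cm_right {Y : Type*} [Group Y] (a b w : Y) (hw : ∀ y, w * y = y * w) :
    cm a (b * w) = cm a b := by
  unfold cm
  rw [mul_inv_rev]
  calc a * (b * w) * a⁻¹ * (w⁻¹ * b⁻¹) = a * b * (w * a⁻¹) * w⁻¹ * b⁻¹ := by group
    _ = a * b * a⁻¹ * b⁻¹ := by rw [hw]; group

end quot

/-! ### the group of the triples -/

section triples

variable {U : Type u} {P : Type v} {H : Type w} [Group U] [Group P] [AddCommGroup H]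

/-- `(q, a)`, `q` in `Q`. -/
structure XX (Q : Subgroup (U × P)) (c : P → P → H) where
  q : Q
  a : H

variable {Q : Subgroup (U × P)} {c : P → P → H}

omit [AddCommGroup H] in
lemma XX.ext' {x y : XX Q c} (h : x.q = y.q) (h' : x.a = y.a) : x = y := by
  cases x; cases y; cases h; cases h'; rfl

/-- The group structure. -/
@[reducible] def grp (h : ∀ x y z : P, c x y + c (x * y) z = c y z + c x (y * z))
    (h1 : ∀ x, c 1 x = 0 ∧ c x 1 = 0) : Group (XX Q c) :=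
  letI : Mul (XX Q c) := ⟨fun x y => ⟨x.q * y.q, x.a + y.a + c x.q.1.2 y.q.1.2⟩⟩
  letI : One (XX Q c) := ⟨⟨1, 0⟩⟩
  letI : Inv (XX Q c) := ⟨fun x => ⟨x.q⁻¹, - x.a - c (x.q.1.2)⁻¹ x.q.1.2⟩⟩
  Group.ofLeftAxioms
    (by
      intro x y z
      refine XX.ext' (mul_assoc x.q y.q z.q) ?_
      show x.a + y.a + c x.q.1.2 y.q.1.2 + z.a + c (x.q.1.2 * y.q.1.2) z.q.1.2 =
        x.a + (y.a + z.a + c y.q.1.2 z.q.1.2) + c x.q.1.2 (y.q.1.2 * z.q.1.2)
      have := h x.q.1.2 y.q.1.2 z.q.1.2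
      have e1 : x.a + y.a + c x.q.1.2 y.q.1.2 + z.a + c (x.q.1.2 * y.q.1.2) z.q.1.2 =
        x.a + y.a + z.a + (c x.q.1.2 y.q.1.2 + c (x.q.1.2 * y.q.1.2) z.q.1.2) := by abel
      rw [e1, this]
      abel)
    (by
      intro x
      refine XX.ext' (one_mul x.q) ?_
      show 0 + x.a + c 1 x.q.1.2 = x.a
      rw [(h1 _).1, zero_add, add_zero])
    (by
      intro x
      refine XX.ext' (inv_mul_cancel x.q) ?_
      show - x.a - c (x.q.1.2)⁻¹ x.q.1.2 + x.a + c (x.q.1.2)⁻¹ x.q.1.2 = 0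
      abel)

end triples

theorem main {U : Type u} {P : Type v} {H : Type w} [Group U] [Group P] [AddCommGroup H]
    (Q : Subgroup (U × P)) (c : P → P → H) (f : P → H)
    (hc : ∀ x y z : P, c x y + c (x * y) z = c y z + c x (y * z))
    (hc1 : ∀ x, c 1 x = 0 ∧ c x 1 = 0)
    (honto : ∀ y : U, ∃ s, (y, s) ∈ Q)
    (hf2 : ∀ s t, (1, s) ∈ Q → (1, t) ∈ Q → f (s * t) = f s + f t + c s t)
    (hf3 : ∀ y x s, (y, x) ∈ Q → (1, s) ∈ Q →
      f (x * s * x⁻¹) = f s + c x s - c (x * s * x⁻¹) x) :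
    ∃ (Y : Type (max u v w)) (_ : Group Y) (π : Y →* U) (ε : Y → H),
      Function.Surjective π ∧ (∀ k, π k = 1 → ∀ z, k * z = z * k) ∧
      (∀ k k', π k = 1 → π k' = 1 → ε (k * k') = ε k + ε k') ∧
      ∀ (y y' : U) (s s' : P), y * y' = y' * y → (y, s) ∈ Q → (y', s') ∈ Q →
        ∀ k k', π k = y → π k' = y' →
          ε (cm k k') = c s s' - c s' s - c (cm s s') (s' * s) - f (cm s s') := by
  let _ := grp (Q := Q) (c := c) hc hc1
  let p : XX Q c →* U :=
    { toFun := fun x => x.q.1.1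
      map_one' := rfl
      map_mul' := fun x y => rfl }
  have hq : ∀ x y : XX Q c, (x * y).q = x.q * y.q := fun x y => rfl
  have ha : ∀ x y : XX Q c, (x * y).a = x.a + y.a + c x.q.1.2 y.q.1.2 := fun x y => rfl
  have hp : Function.Surjective p := by
    intro y
    obtain ⟨s, hs⟩ := honto y
    exact ⟨⟨⟨(y, s), hs⟩, 0⟩, rfl⟩
  let lam : XX Q c → H := fun x => x.a - f x.q.1.2
  have hmem : ∀ k : XX Q c, p k = 1 → ((1 : U), k.q.1.2) ∈ Q := by
    intro k hk
    have h1 : k.q.1 = (1, k.q.1.2) := Prod.ext hk rfl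
    rw [← h1]
    exact k.q.2
  have hadd : ∀ k k', p k = 1 → p k' = 1 → lam (k * k') = lam k + lam k' := by
    intro k k' hk hk'
    show (k * k').a - f (k.q.1.2 * k'.q.1.2) = k.a - f k.q.1.2 + (k'.a - f k'.q.1.2)
    rw [ha, hf2 _ _ (hmem k hk) (hmem k' hk')]
    abel
  have hconj : ∀ k y, p k = 1 → lam (y * k * y⁻¹) = lam k := by
    intro k y hk
    have h1 : (y * k * y⁻¹) * y = y * k := by group
    have h2 := congrArg XX.a h1
    rw [ha (y * k * y⁻¹) y, ha y k] at h2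
    have h3 : (y * k * y⁻¹).q.1.2 = y.q.1.2 * k.q.1.2 * (y.q.1.2)⁻¹ := rfl
    rw [h3] at h2
    show (y * k * y⁻¹).a - f (y.q.1.2 * k.q.1.2 * (y.q.1.2)⁻¹) = k.a - f k.q.1.2
    rw [hf3 y.q.1.1 y.q.1.2 k.q.1.2 y.q.2 (hmem k hk)]
    have h4 : (y * k * y⁻¹).a = y.a + k.a + c y.q.1.2 k.q.1.2 - y.a -
        c (y.q.1.2 * k.q.1.2 * (y.q.1.2)⁻¹) y.q.1.2 :=
      eq_sub_of_add_eq (eq_sub_of_add_eq (by rw [← h2]; abel))
    rw [h4]
    abel
  obtain ⟨Y, _, m, π, ε, hs, hcen, hε, hπm, hεm⟩ := quot p hp lam hadd hconj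
  refine ⟨Y, inferInstance, π, ε, hs, hcen, hε, ?_⟩
  intro y y' s s' hyy hys hys' k k' hk hk'
  let x : XX Q c := ⟨⟨(y, s), hys⟩, 0⟩
  let x' : XX Q c := ⟨⟨(y', s'), hys'⟩, 0⟩
  have hx : π (m x) = y := hπm x
  have hx' : π (m x') = y' := hπm x'
  have e1 : k = m x * ((m x)⁻¹ * k) := by group
  have e2 : k' = m x' * ((m x')⁻¹ * k') := by group
  have hz : ∀ z, ((m x)⁻¹ * k) * z = z * ((m x)⁻¹ * k) :=
    hcen _ (by rw [map_mul, map_inv, hx, hk, inv_mul_cancel])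
  have hz' : ∀ z, ((m x')⁻¹ * k') * z = z * ((m x')⁻¹ * k') :=
    hcen _ (by rw [map_mul, map_inv, hx', hk', inv_mul_cancel])
  rw [e1, e2, cm_left _ _ _ hz, cm_right _ _ _ hz']
  have e3 : cm (m x) (m x') = m (cm x x') := by simp only [cm, map_mul, map_inv]
  have hp1 : p (cm x x') = 1 := by
    show y * y' * y⁻¹ * y'⁻¹ = 1
    rw [hyy]
    group
  rw [e3, hεm _ hp1]
  have h1 : cm x x' * (x' * x) = x * x' := by unfold cm; group
  have h2 := congrArg XX.a h1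
  rw [ha, ha x' x, ha x x'] at h2
  have h3 : (cm x x').q.1.2 = cm s s' := rfl
  have h4 : (x' * x).q.1.2 = s' * s := rfl
  rw [h3, h4] at h2
  have h5 : (cm x x').a + (0 + 0 + c s' s) + c (cm s s') (s' * s) = 0 + 0 + c s s' := h2
  show (cm x x').a - f (cm s s') = _
  have h6 : (cm x x').a = c s s' - c s' s - c (cm s s') (s' * s) := by
    have h7 : (cm x x').a =
        ((cm x x').a + (0 + 0 + c s' s) + c (cm s s') (s' * s)) - c s' s -
          c (cm s s') (s' * s) := by abel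
    rw [h7, h5]
    abel
  rw [h6]

end EXTaux

open ABSaux in
theorem specEXT : SpecEXT.{u, v, w, x} := by
  intro B S H U _ _ _ _ N ρ i τ d φ h T D hT hD hTD
  let Q : Subgroup (U × Sˣ) :=
    { carrier := {z | InG N ρ i τ T D z.1 z.2}
      one_mem' := specQSB.{u, v, w, x}.one B S H U N ρ i τ d φ h T D
      mul_mem' := fun {a b} ha hb =>
        specQSB.{u, v, w, x}.mul B S H U N ρ i τ d φ h T D hT a.1 b.1 a.2 b.2 ha hb
      inv_mem' := fun {a} ha =>
        specQSB.{u, v, w, x}.inv B S H U N ρ i τ d φ h T D hT hD a.1 a.2 ha }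
  have hK : ∀ s : Sˣ, ((1 : U), s) ∈ Q → InK N ρ i τ s := fun s hs =>
    specQSB.{u, v, w, x}.ker B S H U N ρ i τ d φ h T D s hs
  have hcoc := coc B S H N ρ i τ d φ h
  obtain ⟨Y, hY, π, ε, h1, h2, h3, h4⟩ := EXTaux.main Q (cc d φ) (fK N ρ i τ φ) hcoc.1 hcoc.2
    (by
      intro y
      obtain ⟨b, hb⟩ := hTD y
      obtain ⟨s, hs, -⟩ := specQSB.{u, v, w, x}.onto B S H U N ρ i τ d φ h T D hT hD y b hb
      exact ⟨s, b, hs, hb⟩)
    (fun s t hs ht => (f2 B S H N ρ i τ d φ h s t (hK s hs) (hK t ht)).2)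
    (fun y x' s hy hs => (f3 B S H N ρ i τ d φ h x' s
      (specQSB.{u, v, w, x}.inq B S H U N ρ i τ d φ h T D hT y x' hy) (hK s hs)).2)
  exact ⟨Y, hY, π, ε, h1, h2, h3, fun y y' s s' hyy hs hs' k k' hk hk' =>
    h4 y y' s s' hyy hs hs' k k' hk hk'⟩

end Pool.Agent.Lib.MPb6f35e.K2
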