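import Pool.Agent.Lib.MP_b6f35e_al.K2.SpecF

/-! # K_2 theorem, module FL2: the relation at the finite level, modulo the finite part -/

set_option autoImplicit false

noncomputable section

namespace Pool.Agent.Lib.MPb6f35e.K2

open Pool.Agent.Lib.MPb6f35e.WH

universe u v

namespace FL2aux

lemma comm_map {k : Type u} [CommRing k] {G C : Type v} [Group G] [Group C] (φ : C →* G) (z : G)
    (hz : ∀ h, z * φ h = φ h * z) (x : MonoidAlgebra k C) :
    MonoidAlgebra.single z (1 : k) * MonoidAlgebra.mapDomainRingHom k φ x =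
      MonoidAlgebra.mapDomainRingHom k φ x * MonoidAlgebra.single z 1 := by
  induction x using MonoidAlgebra.induction_linear with
  | zero => simp
  | add x y hx hy => rw [map_add, mul_add, add_mul, hx, hy]
  | single h a =>
    rw [MonoidAlgebra.mapDomainRingHom_apply, MonoidAlgebra.mapDomain_single,
      MonoidAlgebra.single_mul_single, MonoidAlgebra.single_mul_single, one_mul, mul_one]
    congr 1
    exact hz h

end FL2aux

open FL2aux

/-- FL2. -/
theorem specFL2 (hOM : SpecOM2.{0, v}) (hVLF : SpecVLF.{0, v}) (hRED : SpecRED) :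
    SpecFL2.{v} := by
  intro p _ hp G _ n m R C _ φ z hz x hrel c X hX hXc e b hb
  have hpr : p.Prime := Fact.out
  have h1 : NeZero (p ^ e) := ⟨pow_ne_zero _ hpr.ne_zero⟩
  have h2 : NeZero (p ^ (e + 1)) := ⟨pow_ne_zero _ hpr.ne_zero⟩
  have hr := hRED p e
  have h := fun j => hVLF ℤ_[p] p e hp (PadicInt.toZModPow (e + 1)) hr G c X hX hXc (C j) (φ j)
    (z j) (hz j) (x j) _ rfl (b j) (hb j) n
  choose s t hs ht hst using h
  obtain ⟨L, hL, hrel⟩ := hrel
  have h3 := hOM ℤ_[p] p e (PadicInt.toZModPow (e + 1)) hr G c X hX hXc n R m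
    (fun j => gU ℤ_[p] (z j))
    (fun j => Units.map (MonoidAlgebra.mapDomainRingHom ℤ_[p] (φ j)).toMonoidHom (x j)) s t
    (fun j => Units.ext (comm_map (φ j) (z j) (hz j) _)) hs ht L hL hrel
  rw [Finset.sum_congr rfl fun j _ => hst j] at h3
  exact h3

end Pool.Agent.Lib.MPb6f35e.K2
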