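import Pool.Agent.Lib.MP_b6f35e_al.K2.SpecC

/-!
# K_2 theorem (MP_b6f35e_al), module XWM: the homomorphism on the centralizer of `w₀` (helper75)
-/

set_option autoImplicit false

noncomputable section

namespace Pool.Agent.Lib.MPb6f35e.K2

open Pool.Agent.Lib.MPb6f35e.WH

universe u v w x

namespace XWMaux

variable {N : ℕ} [NeZero N] {G : Type v} [Group G]

theorem mul_left_apply (a b : WR N G) (j : ZMod N) :
    (a * b).left j = a.left j * b.left (j - a.right.toAdd) := rfl

theorem w0_pow (c : G) (m : ℕ) (hm : m ≤ N) :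
    (w0 N c ^ m).left = (fun j => if j.val < m then c else 1) ∧
      (w0 N c ^ m).right = Multiplicative.ofAdd (m : ZMod N) := by
  induction m with
  | zero =>
    constructor
    · funext j
      simp
    · simp
  | succ m ih =>
    obtain ⟨h1, h2⟩ := ih (by omega)
    rw [pow_succ]
    constructor
    · funext j
      rw [mul_left_apply, h1, h2]
      show (if j.val < m then c else 1) * (Pi.mulSingle (0 : ZMod N) c : ZMod N → G)
        (j - (m : ZMod N)) = if j.val < m + 1 then c else 1
      by_cases hj : j.val = m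
      · have h3 : j - (m : ZMod N) = 0 := by
          rw [← hj, ZMod.natCast_zmod_val, sub_self]
        rw [h3, Pi.mulSingle_eq_same, if_neg (by omega), if_pos (by omega), one_mul]
      · have h3 : j - (m : ZMod N) ≠ 0 := by
          intro h
          rw [sub_eq_zero] at h
          apply hj
          rw [h, ZMod.val_natCast_of_lt (by omega)]
        rw [Pi.mulSingle_eq_of_ne h3, mul_one]
        by_cases h4 : j.val < m
        · rw [if_pos h4, if_pos (by omega)]
        · rw [if_neg h4, if_neg (by omega)]
    · rw [SemidirectProduct.mul_right, h2]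
      show Multiplicative.ofAdd (m : ZMod N) * Multiplicative.ofAdd (1 : ZMod N) = _
      rw [← ofAdd_add]
      push_cast
      rfl

theorem comm (c : G) (v : WR N G) (hv : v * w0 N c = w0 N c * v) (j : ZMod N) :
    v.left j * c = c * v.left j := by
  obtain ⟨h1, h2⟩ := w0_pow (N := N) c N le_rfl
  have h3 : v * w0 N c ^ N = w0 N c ^ N * v := ((show Commute v (w0 N c) from hv).pow_right N).eq
  have h4 := congrFun (congrArg SemidirectProduct.left h3) j
  rw [mul_left_apply, mul_left_apply, h1, h2] at h4
  simp only [ZMod.natCast_self, ofAdd_zero, toAdd_one, sub_zero, ZMod.val_lt, if_true] at h4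
  exact h4

theorem rel (c : G) (v : WR N G) (hv : v * w0 N c = w0 N c * v) (j : ZMod N) :
    v.left j * (Pi.mulSingle (0 : ZMod N) c : ZMod N → G) (j - v.right.toAdd) =
      (Pi.mulSingle (0 : ZMod N) c : ZMod N → G) j * v.left (j - 1) :=
  congrFun (congrArg SemidirectProduct.left hv) j

theorem single_or (c : G) (j : ZMod N) :
    (Pi.mulSingle (0 : ZMod N) c : ZMod N → G) j = c ∨
      (Pi.mulSingle (0 : ZMod N) c : ZMod N → G) j = 1 := by
  by_cases h : j = 0
  · left
    rw [h, Pi.mulSingle_eq_same]
  · right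
    rw [Pi.mulSingle_eq_of_ne h]

theorem step {M : Type w} [AddCommGroup M] (c : G) (X : G → M) (hX : HomOn c X) (hc : X c = 0)
    (v : WR N G) (hv : v * w0 N c = w0 N c * v) (j : ZMod N) :
    X (v.left j) = X (v.left (j - 1)) := by
  have h1 := rel c v hv j
  have h2 : ∀ (g : G) (e : G), g * c = c * g → (e = c ∨ e = 1) →
      X (g * e) = X g ∧ X (e * g) = X g := by
    rintro g e hg (rfl | rfl)
    · constructor
      · rw [hX _ _ hg rfl, hc, add_zero]
      · rw [hX _ _ rfl hg, hc, zero_add]
    · simp
  have h3 := (h2 _ _ (comm c v hv j) (single_or (N := N) c (j - v.right.toAdd))).1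
  have h4 := (h2 _ _ (comm c v hv (j - 1)) (single_or (N := N) c j)).2
  rw [← h3, h1, h4]

theorem const {M : Type w} [AddCommGroup M] (c : G) (X : G → M) (hX : HomOn c X) (hc : X c = 0)
    (v : WR N G) (hv : v * w0 N c = w0 N c * v) (j : ZMod N) :
    X (v.left j) = X (v.left 0) := by
  have h : ∀ n : ℕ, X (v.left (n : ZMod N)) = X (v.left 0) := by
    intro n
    induction n with
    | zero => simp
    | succ n ih =>
      have e : ((n + 1 : ℕ) : ZMod N) - 1 = (n : ZMod N) := by
        push_cast
        ring
      rw [step c X hX hc v hv, ← ih, e]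
  have := h j.val
  rwa [ZMod.natCast_zmod_val] at this

end XWMaux

theorem specXWM : SpecXWM.{v, w} := by
  intro N _ G M _ _ c X hX hc
  refine ⟨fun a b ha hb => ?_, ?_, fun v hv j => ⟨XWMaux.comm c v hv j,
    XWMaux.const c X hX hc v hv j⟩⟩
  · unfold XW
    rw [XWMaux.mul_left_apply, hX _ _ (XWMaux.comm c a ha _) (XWMaux.comm c b hb _),
      XWMaux.const c X hX hc b hb]
  · show X ((Pi.mulSingle (0 : ZMod N) c : ZMod N → G) 0) = 0
    rw [Pi.mulSingle_eq_same, hc]

end Pool.Agent.Lib.MPb6f35e.K2
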