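import Pool.Agent.Lib.MP_b6f35e_al.K2.SpecF
import Pool.Agent.Lib.MP_b6f35e_al.K2.XWM

/-!
# K_2 theorem (MP_b6f35e_al), module HET: the cocycle is a coboundary over finite subgroups (helper33)
-/

set_option autoImplicit false

noncomputable section

namespace Pool.Agent.Lib.MPb6f35e.K2

open Pool.Agent.Lib.MPb6f35e.WH

universe u v w x

namespace HETaux

variable {N : ℕ} [NeZero N] {G : Type v} [Group G]

/-- all components of the word are in `H` -/
def WH (H : Subgroup G) (w : WR N G) : Prop := ∀ j, w.left j ∈ H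

lemma WH_mul {H : Subgroup G} {a b : WR N G} (ha : WH H a) (hb : WH H b) : WH H (a * b) := by
  intro j
  rw [XWMaux.mul_left_apply]
  exact H.mul_mem (ha j) (hb _)

lemma WH_inv {H : Subgroup G} {a : WR N G} (ha : WH H a) : WH H a⁻¹ := by
  intro j
  have h := XWMaux.mul_left_apply a⁻¹ a j
  rw [inv_mul_cancel] at h
  have h1 : ((1 : WR N G)).left j = 1 := rfl
  rw [h1] at h
  rw [eq_inv_of_mul_eq_one_left h.symm]
  exact H.inv_mem (ha _)

omit [NeZero N] in
lemma WH_inW {H : Subgroup G} (v : ZMod N → H) : WH H (inW N G (fun j => (v j : G))) := by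
  intro j
  exact (v j).2

omit [NeZero N] in
lemma WH_tW {H : Subgroup G} : WH H (tW N G) := by
  intro j
  exact H.one_mem

omit [NeZero N] in
lemma dg_conj (a b : WR N G) : dg (a * b * a⁻¹) = dg b := by
  unfold dg
  rw [SemidirectProduct.mul_right, SemidirectProduct.mul_right, SemidirectProduct.inv_right]
  rw [toAdd_mul, toAdd_mul, toAdd_inv]
  abel

omit [NeZero N] in
lemma dg_w0 (c : G) : dg (w0 N c) = 1 := rfl

end HETaux

open HETaux in
/-- HET -/
theorem specHET (hTHE : SpecTHE.{v, u}) : SpecHET.{u, v} := by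
  classical
  intro k _ N _ G _ H hH hu c X hX hXc
  obtain ⟨hXW, hX0, -⟩ := specXWM.{v, u} N G k c X hX hXc
  haveI : Fintype H := Fintype.ofFinite H
  set Θ : WR N G → WR N G → k := Th (w0 N c) (XW X) with hΘ
  have coc : ∀ a b g : WR N G, Θ (a * b) g = Θ a (b * g * b⁻¹) + Θ b g :=
    fun a b g => hTHE.coc (WR N G) k (w0 N c) (XW X) hXW a b g
  have self : ∀ g : WR N G, Θ g g = 0 := fun g => hTHE.self (WR N G) k (w0 N c) (XW X) hXW hX0 g
  have zero : ∀ a g : WR N G, dg g ≠ 1 → Θ a g = 0 := by
    intro a g hg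
    apply hTHE.zero (WR N G) k (w0 N c) (XW X) a g
    rintro ⟨t, ht⟩
    apply hg
    rw [← ht, dg_conj, dg_w0]
  have hM : IsUnit ((Fintype.card (ZMod N → H) : ℕ) : k) := by
    rw [Fintype.card_fun]
    push_cast
    have : ((Fintype.card H : ℕ) : k) = ((Nat.card H : ℕ) : k) := by rw [Nat.card_eq_fintype_card]
    rw [this]
    exact hu.pow _
  obtain ⟨M, hMv⟩ := hM
  set η : WR N G → k := fun w => ((M⁻¹ : kˣ) : k) * ∑ v : ZMod N → H, Θ (inW N G (fun j => (v j : G))) w
    with hη
  -- (1)
  have h1 : ∀ (v' : ZMod N → H) (w : WR N G),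
      Θ (inW N G (fun j => (v' j : G))) w =
        η w - η (inW N G (fun j => (v' j : G)) * w * (inW N G (fun j => (v' j : G)))⁻¹) := by
    intro v' w
    have e1 : ∑ v : ZMod N → H, Θ (inW N G (fun j => (v j : G)))
        (inW N G (fun j => (v' j : G)) * w * (inW N G (fun j => (v' j : G)))⁻¹) =
        (∑ v : ZMod N → H, Θ (inW N G (fun j => (v j : G))) w) -
          (M : k) * Θ (inW N G (fun j => (v' j : G))) w := by
      have e2 : ∀ v : ZMod N → H, Θ (inW N G (fun j => (v j : G)))
          (inW N G (fun j => (v' j : G)) * w * (inW N G (fun j => (v' j : G)))⁻¹) =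
          Θ (inW N G (fun j => ((v * v') j : G))) w - Θ (inW N G (fun j => (v' j : G))) w := by
        intro v
        have e3 : inW N G (fun j => ((v * v') j : G)) =
            inW N G (fun j => (v j : G)) * inW N G (fun j => (v' j : G)) := by
          rw [← map_mul]
          rfl
        rw [e3, coc]
        abel
      rw [Finset.sum_congr rfl (fun v _ => e2 v), Finset.sum_sub_distrib, Finset.sum_const,
        Finset.card_univ, nsmul_eq_mul, ← hMv]
      congr 1
      exact (Equiv.sum_comp (Equiv.mulRight v')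
        (fun v : ZMod N → H => Θ (inW N G (fun j => (v j : G))) w))
    show _ = ((M⁻¹ : kˣ) : k) * _ - ((M⁻¹ : kˣ) : k) * _
    rw [e1, ← mul_sub, sub_sub_cancel, ← mul_assoc, Units.inv_mul, one_mul]
  -- (2)
  set P : WR N G → Prop := fun v => ∀ w, WH H w → Θ v w = η w - η (v * w * v⁻¹) with hP
  have hmul : ∀ a b, WH H b → P a → P b → P (a * b) := by
    intro a b hb ha hb' w hw
    rw [coc, ha _ (WH_mul (WH_mul hb hw) (WH_inv hb)), hb' w hw]
    have : a * (b * w * b⁻¹) * a⁻¹ = a * b * w * (a * b)⁻¹ := by group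
    rw [this]
    abel
  have hone : P 1 := by
    intro w _
    have h := coc 1 1 w
    rw [one_mul, one_mul, inv_one, mul_one] at h
    rw [one_mul, inv_one, mul_one, sub_self]
    exact left_eq_add.mp h
  have hinW : ∀ v : ZMod N → G, (∀ j, v j ∈ H) → P (inW N G v) := by
    intro v hv w _
    exact h1 (fun j => ⟨v j, hv j⟩) w
  have hη0 : ∀ w : WR N G, dg w ≠ 1 → η w = 0 := by
    intro w hw
    show ((M⁻¹ : kˣ) : k) * _ = 0
    rw [Finset.sum_eq_zero (fun v _ => zero _ w hw), mul_zero]
  -- (3)
  have ht : P (tW N G) := by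
    intro w hw
    by_cases hd : dg w = 1
    · have e1 : w = inW N G w.left * tW N G := by
        have h2 := SemidirectProduct.inl_left_mul_inr_right w
        have h3 : (SemidirectProduct.inr w.right : WR N G) = tW N G := by
          unfold tW
          congr 1
        rw [h3] at h2
        exact h2.symm
      have e2 : tW N G = (inW N G w.left)⁻¹ * w := eq_inv_mul_iff_mul_eq.mpr e1.symm
      have e3 : tW N G * w * (tW N G)⁻¹ = (inW N G w.left)⁻¹ * w * ((inW N G w.left)⁻¹)⁻¹ := by
        rw [e2]
        group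
      have e4 : (inW N G w.left)⁻¹ = inW N G (w.left)⁻¹ := by rw [map_inv]
      have e5 : Θ (tW N G) w = Θ (inW N G w.left)⁻¹ w := by
        conv_lhs => rw [e2]
        rw [coc, self, add_zero]
        congr 1
        group
      rw [e5, e3, e4]
      exact hinW _ (fun j => H.inv_mem (hw j)) w hw
    · rw [zero _ w hd, hη0 w hd, hη0 _ (by rw [dg_conj]; exact hd), sub_self]
  have htn : ∀ m : ℕ, P (tW N G ^ m) := by
    intro m
    induction m with
    | zero => rw [pow_zero]; exact hone
    | succ m ih => rw [pow_succ]; exact hmul _ _ WH_tW ih ht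
  have hWHt : ∀ m : ℕ, WH H (tW N G ^ m) := by
    intro m
    induction m with
    | zero => rw [pow_zero]; intro j; exact H.one_mem
    | succ m ih => rw [pow_succ]; exact WH_mul ih WH_tW
  refine ⟨η, ?_⟩
  intro v w hv hw
  have hv' : v = inW N G v.left * tW N G ^ (v.right.toAdd.val) := by
    have h2 := SemidirectProduct.inl_left_mul_inr_right v
    have h3 : (SemidirectProduct.inr v.right : WR N G) = tW N G ^ (v.right.toAdd.val) := by
      unfold tW
      rw [← map_pow]
      congr 1
      rw [← ofAdd_nsmul, nsmul_eq_mul, mul_one, ZMod.natCast_zmod_val]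
      rfl
    rw [h3] at h2
    exact h2.symm
  have hfin : P v := by
    rw [hv']
    exact hmul _ _ (hWHt _) (hinW _ hv) (htn _)
  exact hfin w hw

end Pool.Agent.Lib.MPb6f35e.K2
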