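import Pool.Agent.Lib.MP_b6f35e_al.K2.SpecC

/-!
# K_2 theorem (MP_b6f35e_al), module HFO

The property (H4) of the pairing `phiS`: `φ(i b, τ) = 0` if `rot b = b`.
-/

set_option autoImplicit false

noncomputable section

namespace Pool.Agent.Lib.MPb6f35e.K2

open Pool.Agent.Lib.MPb6f35e.WH

universe u v w x

namespace HFOaux

/-- the additive map `single γ a ↦ a * f γ` -/
def Lf {k : Type u} [CommRing k] {V : Type v} [Group V] (f : V → k) : MonoidAlgebra k V →+ k :=
  (Finsupp.liftAddHom fun γ : V => AddMonoidHom.mulRight (f γ)).comp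
    MonoidAlgebra.coeffAddEquiv.toAddMonoidHom

lemma Lf_single {k : Type u} [CommRing k] {V : Type v} [Group V] (f : V → k) (γ : V) (a : k) :
    Lf f (MonoidAlgebra.single γ a) = a * f γ := by
  simp [Lf]

lemma Lf_map {k : Type u} [CommRing k] {V : Type v} [Group V] (f : V → k) (φ : V →* V)
    (x : MonoidAlgebra k V) :
    Lf f (MonoidAlgebra.mapDomainRingHom k φ x) = Lf (fun γ => f (φ γ)) x := by
  induction x using MonoidAlgebra.induction_linear with
  | zero => simp
  | add f g hf hg => rw [map_add, map_add, hf, hg, map_add]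
  | single v a =>
    rw [Lf_single]
    have : MonoidAlgebra.mapDomainRingHom k φ (MonoidAlgebra.single v a) =
        MonoidAlgebra.single (φ v) a := by simp
    rw [this, Lf_single]

lemma Lf_mul {k : Type u} [CommRing k] {V : Type v} [Group V] (f g h : V → k) (c : k)
    (hf : ∀ γ, c * f γ = g γ - h γ) (x : MonoidAlgebra k V) : c * Lf f x = Lf g x - Lf h x := by
  induction x using MonoidAlgebra.induction_linear with
  | zero => simp
  | add x y hx hy => rw [map_add, map_add, map_add, mul_add, hx, hy]; ring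
  | single v a =>
    rw [Lf_single, Lf_single, Lf_single, mul_left_comm, hf, mul_sub]

lemma phi_r {k : Type u} [CommRing k] {N : ℕ} (r : k →+* ZMod N) {G : Type v} [Group G]
    (Θ : WR N G → WR N G → k) (x : MonoidAlgebra k (ZMod N → G)) :
    phiW (fun a g => r (Θ a g)) (jW k N r G x) (MonoidAlgebra.single (tW N G) 1) =
      r (Lf (fun γ => Θ (tW N G) (inW N G γ * tW N G)) x) := by
  induction x using MonoidAlgebra.induction_linear with
  | zero => simp
  | add x y hx hy =>
    rw [map_add, map_add, map_add, AddMonoidHom.add_apply, hx, hy, map_add]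
  | single v a =>
    have : jW k N r G (MonoidAlgebra.single v a) = MonoidAlgebra.single (inW N G v) (r a) := by
      simp [jW]
    rw [this, phiW_single, Lf_single, map_mul, mul_one]

lemma sh_bij {N : ℕ} {ι : Type} : Function.Bijective (sh : (ZMod N → ι) → (ZMod N → ι)) := by
  refine ⟨fun I J h => sh_inj h, fun I => ⟨fun j => I (j - 1), ?_⟩⟩
  funext j
  simp [sh]

lemma t_pow {N : ℕ} {G : Type v} [Group G] : (tW N G) ^ N = 1 := by
  rw [tW, ← map_pow, ← ofAdd_nsmul, nsmul_one, ZMod.natCast_self, ofAdd_zero, map_one]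

lemma t_conj {N : ℕ} {G : Type v} [Group G] (γ : ZMod N → G) :
    inW N G (rotG N G γ) * tW N G = tW N G * (inW N G γ * tW N G) * (tW N G)⁻¹ := by
  rw [mul_assoc, mul_assoc, mul_inv_cancel, mul_one]
  apply SemidirectProduct.ext
  · simp only [inW, tW, SemidirectProduct.mul_left, SemidirectProduct.left_inl,
      SemidirectProduct.left_inr, SemidirectProduct.right_inl, SemidirectProduct.right_inr,
      map_one, mul_one, one_mul]
    rfl
  · simp [inW, tW]

lemma psi {k : Type u} [CommRing k] {N : ℕ} {G : Type v} [Group G] (Θ : WR N G → WR N G → k)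
    (hΘ : ∀ a b g, Θ (a * b) g = Θ a (b * g * b⁻¹) + Θ b g) (w : WR N G) :
    (N : k) * Θ (tW N G) w = ∑ j ∈ Finset.range N, Θ (tW N G ^ j) w -
      ∑ j ∈ Finset.range N, Θ (tW N G ^ j) (tW N G * w * (tW N G)⁻¹) := by
  have h1 : ∀ g, Θ 1 g = 0 := by
    intro g
    have := hΘ 1 1 g
    rw [one_mul, one_mul, inv_one, mul_one] at this
    simpa using this
  have h2 : ∀ j, Θ (tW N G ^ j) (tW N G * w * (tW N G)⁻¹) =
      Θ (tW N G ^ (j + 1)) w - Θ (tW N G) w := by
    intro j
    rw [pow_succ, hΘ, add_sub_cancel_right]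
  simp only [h2, Finset.sum_sub_distrib, Finset.sum_const, Finset.card_range, nsmul_eq_mul]
  have h3 : ∑ j ∈ Finset.range N, Θ (tW N G ^ (j + 1)) w =
      ∑ j ∈ Finset.range N, Θ (tW N G ^ j) w := by
    have h4 := Finset.sum_range_succ (fun j => Θ (tW N G ^ j) w) N
    have h5 := Finset.sum_range_succ' (fun j => Θ (tW N G ^ j) w) N
    rw [h4] at h5
    simp only [t_pow, pow_zero, h1, add_zero] at h5
    exact h5.symm
  rw [h3]
  ring

end HFOaux

theorem specHFO : SpecHFO.{u, v} := by
  intro k _ N _ htf r G _ ι _ _ Θ hΘ b hb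
  rw [phiS_apply]
  have e1 : ∀ J : ZMod N → ι, ∑ I : ZMod N → ι,
      phiW (fun a g => r (Θ a g)) (iB k N r G ι b I J) ((tauS N G ι : SR N G ι) J I) =
      r (HFOaux.Lf (fun γ => Θ (tW N G) (inW N G γ * tW N G)) (b (sh J) J)) := by
    intro J
    rw [Finset.sum_eq_single (sh J)]
    · rw [← HFOaux.phi_r]
      have h1 : (tauS N G ι : SR N G ι) J (sh J) = MonoidAlgebra.single (tW N G) 1 := by
        show (if sh J = sh J then MonoidAlgebra.single (tW N G) (1 : ZMod N) else 0) = _
        rw [if_pos rfl]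
      rw [h1]
      rfl
    · intro I _ hI
      have h1 : (tauS N G ι : SR N G ι) J I = 0 := by
        show (if I = sh J then MonoidAlgebra.single (tW N G) (1 : ZMod N) else 0) = _
        rw [if_neg hI]
      rw [h1, map_zero]
    · intro h
      exact absurd (Finset.mem_univ _) h
  rw [Finset.sum_comm]
  simp only [e1]
  rw [← map_sum]
  have e2 : ∑ J : ZMod N → ι,
      HFOaux.Lf (fun γ => Θ (tW N G) (inW N G γ * tW N G)) (b (sh J) J) = 0 := by
    apply htf
    rw [Finset.mul_sum]
    set Ψ : (ZMod N → G) → k := fun γ =>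
      ∑ j ∈ Finset.range N, Θ (tW N G ^ j) (inW N G γ * tW N G) with hΨ
    have e3 : ∀ x, (N : k) * HFOaux.Lf (fun γ => Θ (tW N G) (inW N G γ * tW N G)) x =
        HFOaux.Lf Ψ x - HFOaux.Lf (fun γ => Ψ (rotG N G γ)) x := by
      intro x
      apply HFOaux.Lf_mul
      intro γ
      rw [HFOaux.psi Θ hΘ, hΨ]
      simp only [HFOaux.t_conj]
    simp only [e3, Finset.sum_sub_distrib]
    have e4 : ∀ J : ZMod N → ι, HFOaux.Lf Ψ (b (sh J) J) =
        HFOaux.Lf (fun γ => Ψ (rotG N G γ)) (b (sh (sh J)) (sh J)) := by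
      intro J
      conv_lhs => rw [← hb]
      rw [rot_apply, HFOaux.Lf_map]
    simp only [e4]
    rw [sub_eq_zero]
    exact Function.Bijective.sum_comp HFOaux.sh_bij
      (fun J => HFOaux.Lf (fun γ => Ψ (rotG N G γ)) (b (sh J) J))
  rw [e2, map_zero]

end Pool.Agent.Lib.MPb6f35e.K2
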