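import Pool.Agent.Lib.MP_b6f35e_al.K2.SpecB

/-!
# K2, module HGL: the image of `h_ij(u)` in the general linear group
-/

set_option autoImplicit false

noncomputable section

namespace Pool.Agent.Lib.MPb6f35e.K2

universe u

namespace HGLaux

variable {n : ℕ} {A : Type u} [Ring A]

/-- products of matrix units -/
theorem ms {i j k : Fin n} (a b : A) :
    Matrix.single i j a * Matrix.single j k b = (Matrix.single i k (a * b) : Matrix (Fin n) (Fin n) A) :=
  Matrix.single_mul_single_same ..

theorem mz {i j k l : Fin n} (h : j ≠ k) (a b : A) :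
    Matrix.single i j a * Matrix.single k l b = (0 : Matrix (Fin n) (Fin n) A) :=
  Matrix.single_mul_single_of_ne (c := a) (h := h) (d := b) ..

/-- the matrix of `w_ij(u)` -/
def W (i j : Fin n) (y : Aˣ) : Matrix (Fin n) (Fin n) A :=
  1 + Matrix.single i j (y : A) - Matrix.single j i ((y⁻¹ : Aˣ) : A) - Matrix.single i i 1 -
    Matrix.single j j 1

theorem val_ww (θ : St (Fin n) A →* (Matrix (Fin n) (Fin n) A)ˣ)
    (hθ : ∀ (i j : Fin n) (h : i ≠ j) (a : A), θ (xx h a) = eM h a)
    {i j : Fin n} (h : i ≠ j) (y : Aˣ) : (θ (ww h y) : Matrix (Fin n) (Fin n) A) = W i j y := by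
  unfold ww
  rw [map_mul, map_mul, hθ i j h, hθ j i h.symm]
  simp only [Units.val_mul, eM]
  have hpq : Matrix.single i j (y : A) * Matrix.single j i ((y⁻¹ : Aˣ) : A) =
      (Matrix.single i i 1 : Matrix (Fin n) (Fin n) A) := by
    rw [ms, Units.mul_inv]
  have hqp : Matrix.single j i ((y⁻¹ : Aˣ) : A) * Matrix.single i j (y : A) =
      (Matrix.single j j 1 : Matrix (Fin n) (Fin n) A) := by
    rw [ms, Units.inv_mul]
  have hpp : Matrix.single i j (y : A) * Matrix.single i j (y : A) =
      (0 : Matrix (Fin n) (Fin n) A) := mz h.symm _ _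
  have hPp : (Matrix.single i i 1 : Matrix (Fin n) (Fin n) A) * Matrix.single i j (y : A) =
      Matrix.single i j (y : A) := by
    rw [ms, one_mul]
  have hneg : Matrix.single j i (-((y⁻¹ : Aˣ) : A)) =
      -(Matrix.single j i ((y⁻¹ : Aˣ) : A) : Matrix (Fin n) (Fin n) A) := by
    rw [← sub_eq_zero, sub_neg_eq_add, ← Matrix.single_add, neg_add_cancel, Matrix.single_zero]
  rw [hneg]
  unfold W
  generalize (Matrix.single i j (y : A) : Matrix (Fin n) (Fin n) A) = p at *
  generalize (Matrix.single j i ((y⁻¹ : Aˣ) : A) : Matrix (Fin n) (Fin n) A) = q at *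
  generalize (Matrix.single i i 1 : Matrix (Fin n) (Fin n) A) = P at *
  generalize (Matrix.single j j 1 : Matrix (Fin n) (Fin n) A) = Q at *
  have e : (1 + p) * (1 + -q) * (1 + p) = 1 + p + p + p * p - q - q * p - p * q - p * q * p := by
    noncomm_ring
  rw [e, hpq, hqp, hpp, hPp]
  abel

theorem mul_W {i j : Fin n} (h : i ≠ j) (y : Aˣ) : W i j y * W i j (-1) =
    (1 - Matrix.single i i 1 - Matrix.single j j 1 + Matrix.single i i (y : A) +
      Matrix.single j j ((y⁻¹ : Aˣ) : A) : Matrix (Fin n) (Fin n) A) := by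
  have hm1 : Matrix.single i j (((-1 : Aˣ) : Aˣ) : A) =
      -(Matrix.single i j 1 : Matrix (Fin n) (Fin n) A) := by
    rw [← sub_eq_zero, sub_neg_eq_add, ← Matrix.single_add]
    simp
  have hm2 : Matrix.single j i ((((-1 : Aˣ))⁻¹ : Aˣ) : A) =
      -(Matrix.single j i 1 : Matrix (Fin n) (Fin n) A) := by
    rw [← sub_eq_zero, sub_neg_eq_add, ← Matrix.single_add]
    simp
  have e1 : (Matrix.single i j (y : A) : Matrix (Fin n) (Fin n) A) * Matrix.single i j 1 = 0 :=
    mz h.symm _ _
  have e2 : (Matrix.single i j (y : A) : Matrix (Fin n) (Fin n) A) * Matrix.single j i 1 =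
      Matrix.single i i (y : A) := by rw [ms, mul_one]
  have e3 : (Matrix.single i j (y : A) : Matrix (Fin n) (Fin n) A) * Matrix.single i i 1 = 0 :=
    mz h.symm _ _
  have e4 : (Matrix.single i j (y : A) : Matrix (Fin n) (Fin n) A) * Matrix.single j j 1 =
      Matrix.single i j (y : A) := by rw [ms, mul_one]
  have e5 : (Matrix.single j i ((y⁻¹ : Aˣ) : A) : Matrix (Fin n) (Fin n) A) *
      Matrix.single i j 1 = Matrix.single j j ((y⁻¹ : Aˣ) : A) := by rw [ms, mul_one]
  have e6 : (Matrix.single j i ((y⁻¹ : Aˣ) : A) : Matrix (Fin n) (Fin n) A) *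
      Matrix.single j i 1 = 0 := mz h _ _
  have e7 : (Matrix.single j i ((y⁻¹ : Aˣ) : A) : Matrix (Fin n) (Fin n) A) *
      Matrix.single i i 1 = Matrix.single j i ((y⁻¹ : Aˣ) : A) := by rw [ms, mul_one]
  have e8 : (Matrix.single j i ((y⁻¹ : Aˣ) : A) : Matrix (Fin n) (Fin n) A) *
      Matrix.single j j 1 = 0 := mz h _ _
  have e9 : (Matrix.single i i 1 : Matrix (Fin n) (Fin n) A) * Matrix.single i j 1 =
      Matrix.single i j 1 := by rw [ms, mul_one]
  have e10 : (Matrix.single i i 1 : Matrix (Fin n) (Fin n) A) * Matrix.single j i 1 = 0 :=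
    mz h _ _
  have e11 : (Matrix.single i i 1 : Matrix (Fin n) (Fin n) A) * Matrix.single i i 1 =
      Matrix.single i i 1 := by rw [ms, mul_one]
  have e12 : (Matrix.single i i 1 : Matrix (Fin n) (Fin n) A) * Matrix.single j j 1 = 0 :=
    mz h _ _
  have e13 : (Matrix.single j j 1 : Matrix (Fin n) (Fin n) A) * Matrix.single i j 1 = 0 :=
    mz h.symm _ _
  have e14 : (Matrix.single j j 1 : Matrix (Fin n) (Fin n) A) * Matrix.single j i 1 =
      Matrix.single j i 1 := by rw [ms, mul_one]
  have e15 : (Matrix.single j j 1 : Matrix (Fin n) (Fin n) A) * Matrix.single i i 1 = 0 :=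
    mz h.symm _ _
  have e16 : (Matrix.single j j 1 : Matrix (Fin n) (Fin n) A) * Matrix.single j j 1 =
      Matrix.single j j 1 := by rw [ms, mul_one]
  unfold W
  rw [hm1, hm2]
  generalize (Matrix.single i j (y : A) : Matrix (Fin n) (Fin n) A) = p at *
  generalize (Matrix.single j i ((y⁻¹ : Aˣ) : A) : Matrix (Fin n) (Fin n) A) = q at *
  generalize (Matrix.single i i 1 : Matrix (Fin n) (Fin n) A) = P at *
  generalize (Matrix.single j j 1 : Matrix (Fin n) (Fin n) A) = Q at *
  generalize (Matrix.single i j 1 : Matrix (Fin n) (Fin n) A) = p1 at *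
  generalize (Matrix.single j i 1 : Matrix (Fin n) (Fin n) A) = q1 at *
  have e : (1 + p - q - P - Q) * (1 + -p1 - -q1 - P - Q) =
      (1 - p1 + q1 - P - Q) + (p - p * p1 + p * q1 - p * P - p * Q) -
      (q - q * p1 + q * q1 - q * P - q * Q) - (P - P * p1 + P * q1 - P * P - P * Q) -
      (Q - Q * p1 + Q * q1 - Q * P - Q * Q) := by noncomm_ring
  rw [e, e1, e2, e3, e4, e5, e6, e7, e8, e9, e10, e11, e12, e13, e14, e15, e16]
  abel

end HGLaux

open HGLaux in
theorem specHGL : SpecHGL.{u} := by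
  intro A _ n θ hθ i j h y
  apply Units.ext
  unfold hh
  rw [map_mul, Units.val_mul, val_ww θ hθ h, val_ww θ hθ h, mul_W h]
  ext a b
  have hv : (diagU (dF i j y) : Matrix (Fin n) (Fin n) A) =
      Matrix.diagonal fun k => (dF i j y k : A) := rfl
  rw [hv, Matrix.diagonal_apply]
  simp only [Matrix.add_apply, Matrix.sub_apply, Matrix.one_apply, Matrix.single_apply, dF]
  by_cases hab : a = b
  · subst hab
    by_cases hi : a = i
    · subst hi
      simp [h.symm]
    · by_cases hj : a = j
      · subst hj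
        simp [h, hi]
      · have h1 : ¬ i = a := fun e => hi e.symm
        have h2 : ¬ j = a := fun e => hj e.symm
        simp [hi, hj, h1, h2]
  · have h1 : ¬ (i = a ∧ i = b) := fun e => hab (e.1.symm.trans e.2)
    have h2 : ¬ (j = a ∧ j = b) := fun e => hab (e.1.symm.trans e.2)
    simp [hab, h1, h2]

end Pool.Agent.Lib.MPb6f35e.K2
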