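import Pool.Agent.Lib.MP_b6f35e_al.K2.SpecE

/-!
# K_2 theorem (MP_b6f35e_al), module HID: hidden elements and torsion
-/

set_option autoImplicit false

noncomputable section

namespace Pool.Agent.Lib.MPb6f35e.K2

universe u v

namespace HIDM

/-- An element of infinite order of a finitely generated abelian group has a nonzero image under a
homomorphism to the integers. -/
lemma exists_hom {A : Type v} [CommGroup A] [Group.FG A] (x : A) (hx : ¬ IsOfFinOrder x) :
    ∃ f : Additive A →+ ℤ, f (Additive.ofMul x) ≠ 0 := by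
  classical
  have hfg : AddGroup.FG (Additive A) := inferInstance
  haveI : Module.Finite ℤ (Additive A) := Module.Finite.iff_addGroup_fg.2 hfg
  let T := Submodule.torsion ℤ (Additive A)
  haveI : Module.Finite ℤ (Additive A ⧸ T) := inferInstance
  haveI : Module.Free ℤ (Additive A ⧸ T) := inferInstance
  let b := Module.Free.chooseBasis ℤ (Additive A ⧸ T)
  have hne : T.mkQ (Additive.ofMul x) ≠ 0 := by
    intro h0
    apply hx
    rw [Submodule.mkQ_apply, Submodule.Quotient.mk_eq_zero] at h0
    obtain ⟨a, ha⟩ := h0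
    have ha' : (a : ℤ) • Additive.ofMul x = 0 := ha
    have ha0 : (a : ℤ) ≠ 0 := nonZeroDivisors.coe_ne_zero a
    rw [← ofMul_zpow, ← ofMul_one] at ha'
    exact isOfFinOrder_iff_zpow_eq_one.2 ⟨a, ha0, Additive.ofMul.injective ha'⟩
  have : ∃ i, b.repr (T.mkQ (Additive.ofMul x)) i ≠ 0 := by
    by_contra hcon
    push Not at hcon
    apply hne
    apply b.repr.injective
    rw [map_zero]
    ext i
    exact hcon i
  obtain ⟨i, hi⟩ := this
  exact ⟨((b.coord i).comp T.mkQ).toAddMonoidHom, hi⟩

end HIDM

theorem specHID (hTRL : SpecTRL.{u, v}) : SpecHID.{u, v} where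
  tors := by
    intro R _ G _ p 𝒞 H y hy
    refine AddSubgroup.closure_induction (p := fun y _ => IsOfFinAddOrder y) ?_ ?_ ?_ ?_ hy
    · rintro y ⟨x, hxC, hxz, rfl⟩
      let hc : ∀ a : Subgroup.centralizer (x.C : Set G), ∀ h ∈ x.C, (a : G) * h = h * (a : G) :=
        fun a h hh => (Subgroup.mem_centralizer_iff.1 a.2 h hh).symm
      let φ : Subgroup.centralizer (x.C : Set G) →* Multiplicative (TGrp R G) :=
        MonoidHom.mk' (fun a => Multiplicative.ofAdd (D1.cls (RelT R G)
          ⟨x.C, x.fin, x.cyc, a, hc a, x.u, x.ov, x.ov'⟩)) (by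
          intro a b
          rw [← ofAdd_add]
          congr 1
          exact hTRL.mulz R G _ _ _ rfl rfl rfl rfl rfl)
      have h1 := H x.C hxC x.fin x.cyc x.z x.comm hxz
      have h2 := (Abelianization.lift φ).isOfFinOrder h1
      rw [Abelianization.lift_apply_of] at h2
      exact isOfFinOrder_ofAdd_iff.1 h2
    · exact IsOfFinAddOrder.zero
    · intro a b _ _ ha hb
      exact ha.add hb
    · intro a _ ha
      exact ha.neg
  fg := by
    intro G _ p hp C hfg z hz hh
    classical
    by_contra hx
    obtain ⟨f, hf⟩ := HIDM.exists_hom _ hx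
    have hzc : z ∈ Subgroup.centralizer (C : Set G) :=
      Subgroup.mem_centralizer_iff.2 fun h hh => (hz h hh).symm
    have hmem : ∀ a : G, (∀ h ∈ C, a * h = h * a) → a ∈ Subgroup.centralizer (C : Set G) :=
      fun a ha => Subgroup.mem_centralizer_iff.2 fun h hh => (ha h hh).symm
    let χ : G → ℚ := fun g => if hg : g ∈ Subgroup.centralizer (C : Set G) then
      (f (Additive.ofMul (Abelianization.of (⟨g, hg⟩ : Subgroup.centralizer (C : Set G)))) : ℚ)
      else 0
    have hχ : ∀ (g : G) (hg : g ∈ Subgroup.centralizer (C : Set G)), χ g =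
        (f (Additive.ofMul (Abelianization.of (⟨g, hg⟩ : Subgroup.centralizer (C : Set G)))) : ℚ) :=
      fun g hg => dif_pos hg
    have h0 := hh χ (by
      intro a b ha hb
      have ha' := hmem a ha
      have hb' := hmem b hb
      rw [hχ a ha', hχ b hb', hχ (a * b) (mul_mem ha' hb')]
      have : (⟨a * b, mul_mem ha' hb'⟩ : Subgroup.centralizer (C : Set G)) = ⟨a, ha'⟩ * ⟨b, hb'⟩ :=
        rfl
      rw [this, map_mul, ofMul_mul, map_add]
      push_cast
      rfl) (by
      intro a ha
      rw [hχ a (hmem a ha), Rat.den_intCast]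
      intro h1
      exact absurd (Nat.dvd_one.1 h1) (by omega))
    rw [hχ z hzc] at h0
    exact hf (by exact_mod_cast h0)

end Pool.Agent.Lib.MPb6f35e.K2
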