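import Pool.Agent.Lib.MP_b6f35e_al.K2.SpecC

/-!
# K_2 theorem (MP_b6f35e_al), module HOC

The properties (H1), (H2), (H3) of the pairing `phiS`.
-/

set_option autoImplicit false

noncomputable section

namespace Pool.Agent.Lib.MPb6f35e.K2

open Pool.Agent.Lib.MPb6f35e.WH

universe u v w x

namespace HOCaux

lemma phiW_h1 {N : ℕ} {W : Type v} [Group W] (Θ : W → W → ZMod N)
    (hΘ : ∀ a b g, Θ (a * b) g = Θ a (b * g * b⁻¹) + Θ b g)
    (x y z : MonoidAlgebra (ZMod N) W) :
    phiW Θ x (y * z) = phiW Θ (x * y) z + phiW Θ (z * x) y := by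
  induction x using MonoidAlgebra.induction_linear with
  | zero => simp
  | add f g hf hg => 
    rw [map_add, AddMonoidHom.add_apply, hf, hg, add_mul, mul_add, map_add, map_add,
      AddMonoidHom.add_apply, AddMonoidHom.add_apply]
    abel
  | single v a =>
    induction y using MonoidAlgebra.induction_linear with
    | zero => simp
    | add f g hf hg =>
      rw [add_mul, map_add, hf, hg, mul_add, map_add, map_add, AddMonoidHom.add_apply]
      abel
    | single v' b =>
      induction z using MonoidAlgebra.induction_linear with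
      | zero => simp
      | add f g hf hg =>
        rw [mul_add, map_add, hf, hg, add_mul, map_add, map_add, AddMonoidHom.add_apply]
        abel
      | single v'' c =>
        rw [MonoidAlgebra.single_mul_single, MonoidAlgebra.single_mul_single,
          MonoidAlgebra.single_mul_single, phiW_single, phiW_single, phiW_single, hΘ v' v'']
        have h1 : v'' * (v * (v' * v'')) * v''⁻¹ = v'' * v * v' := by group
        rw [h1, ← mul_assoc v v' v'']
        ring

lemma phiS_h1 {N : ℕ} [NeZero N] {G : Type v} [Group G] (ι : Type) [Fintype ι] [DecidableEq ι]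
    (Θ : WR N G → WR N G → ZMod N)
    (hΘ : ∀ a b g, Θ (a * b) g = Θ a (b * g * b⁻¹) + Θ b g) (a b c : SR N G ι) :
    phiS ι Θ a (b * c) = phiS ι Θ (a * b) c + phiS ι Θ (c * a) b := by
  rw [phiS_apply, phiS_apply, phiS_apply]
  have e1 : ∀ I J : ZMod N → ι, phiW Θ (a I J) ((b * c) J I) =
      ∑ K, (phiW Θ (a I J * b J K) (c K I) + phiW Θ (c K I * a I J) (b J K)) := by
    intro I J
    rw [Matrix.mul_apply, map_sum]
    exact Finset.sum_congr rfl fun K _ => phiW_h1 Θ hΘ _ _ _
  have e2 : ∀ I K : ZMod N → ι, phiW Θ ((a * b) I K) (c K I) =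
      ∑ J, phiW Θ (a I J * b J K) (c K I) := by
    intro I K
    rw [Matrix.mul_apply, map_sum, AddMonoidHom.finsetSum_apply]
  have e3 : ∀ K J : ZMod N → ι, phiW Θ ((c * a) K J) (b J K) =
      ∑ I, phiW Θ (c K I * a I J) (b J K) := by
    intro K J
    rw [Matrix.mul_apply, map_sum, AddMonoidHom.finsetSum_apply]
  simp only [e1, e2, e3, Finset.sum_add_distrib]
  congr 1
  · exact Finset.sum_congr rfl fun I _ => Finset.sum_comm
  · rw [Finset.sum_comm]
    have : ∀ J : ZMod N → ι, ∑ I, ∑ K, phiW Θ (c K I * a I J) (b J K) =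
        ∑ K, ∑ I, phiW Θ (c K I * a I J) (b J K) := fun J => Finset.sum_comm
    simp only [this]
    exact Finset.sum_comm

/-! ### (H2) -/

lemma phiW_one {N : ℕ} {W : Type v} [Group W] (Θ : W → W → ZMod N)
    (hΘ : ∀ g, Θ g g = 0) (x : MonoidAlgebra (ZMod N) W) : phiW Θ 1 x = 0 := by
  induction x using MonoidAlgebra.induction_linear with
  | zero => simp
  | add f g hf hg => rw [map_add, hf, hg, add_zero]
  | single v a => rw [MonoidAlgebra.one_def, phiW_single, one_mul, one_mul, hΘ, zero_mul]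

lemma phiS_h2 {N : ℕ} [NeZero N] {G : Type v} [Group G] (ι : Type) [Fintype ι] [DecidableEq ι]
    (Θ : WR N G → WR N G → ZMod N) (hΘ : ∀ g, Θ g g = 0) (x : SR N G ι) :
    phiS ι Θ 1 x = 0 := by
  rw [phiS_apply]
  refine Finset.sum_eq_zero fun I _ => Finset.sum_eq_zero fun J _ => ?_
  by_cases h : I = J
  · rw [← h, Matrix.one_apply_eq, phiW_one Θ hΘ]
  · rw [Matrix.one_apply_ne h, map_zero, AddMonoidHom.zero_apply]

/-! ### (H3) -/

lemma dg_mul {N : ℕ} {G : Type v} [Group G] (w w' : WR N G) : dg (w * w') = dg w + dg w' := by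
  rw [dg, dg, dg, SemidirectProduct.mul_right, toAdd_mul]

/-- the elements of the group ring all whose group elements have degree `d` -/
def HH {N : ℕ} (G : Type v) [Group G] (d : ZMod N) :
    AddSubgroup (MonoidAlgebra (ZMod N) (WR N G)) :=
  AddSubgroup.closure {x | ∃ w a, dg w = d ∧ x = MonoidAlgebra.single w a}

lemma single_mem {N : ℕ} {G : Type v} [Group G] {d : ZMod N} {w : WR N G} (h : dg w = d)
    (a : ZMod N) : MonoidAlgebra.single w a ∈ HH G d :=
  AddSubgroup.subset_closure ⟨w, a, h, rfl⟩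

lemma mul_mem {N : ℕ} {G : Type v} [Group G] {d d' : ZMod N}
    {x y : MonoidAlgebra (ZMod N) (WR N G)} (hx : x ∈ HH G d) (hy : y ∈ HH G d') :
    x * y ∈ HH G (d + d') := by
  induction hx using AddSubgroup.closure_induction with
  | mem x hx =>
    obtain ⟨w, a, hw, rfl⟩ := hx
    induction hy using AddSubgroup.closure_induction with
    | mem y hy =>
      obtain ⟨w', a', hw', rfl⟩ := hy
      rw [MonoidAlgebra.single_mul_single]
      exact single_mem (by rw [dg_mul, hw, hw']) _
    | zero => rw [mul_zero]; exact zero_mem _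
    | add y z _ _ hy hz => rw [mul_add]; exact add_mem hy hz
    | neg y _ hy => rw [mul_neg]; exact neg_mem hy
  | zero => rw [zero_mul]; exact zero_mem _
  | add x z _ _ hx hz => rw [add_mul]; exact add_mem hx hz
  | neg x _ hx => rw [neg_mul]; exact neg_mem hx

lemma phiW_zero {N : ℕ} {G : Type v} [Group G] {Θ : WR N G → WR N G → ZMod N}
    (hΘ : ∀ a g, dg g ≠ 1 → Θ a g = 0) {d d' : ZMod N} (hd : d + d' ≠ 1)
    {x y : MonoidAlgebra (ZMod N) (WR N G)} (hx : x ∈ HH G d) (hy : y ∈ HH G d') :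
    phiW Θ x y = 0 := by
  induction hx using AddSubgroup.closure_induction with
  | mem x hx =>
    obtain ⟨w, a, hw, rfl⟩ := hx
    induction hy using AddSubgroup.closure_induction with
    | mem y hy =>
      obtain ⟨w', a', hw', rfl⟩ := hy
      rw [phiW_single, hΘ _ _ (by rw [dg_mul, hw, hw']; exact hd), mul_zero, zero_mul]
    | zero => rw [map_zero]
    | add y z _ _ hy hz => rw [map_add, hy, hz, add_zero]
    | neg y _ hy => rw [map_neg, hy, neg_zero]
  | zero => rw [map_zero, AddMonoidHom.zero_apply]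
  | add x z _ _ hx hz => rw [map_add, AddMonoidHom.add_apply, hx, hz, add_zero]
  | neg x _ hx => rw [map_neg, AddMonoidHom.neg_apply, hx, neg_zero]

lemma jW_mem {k : Type u} [CommRing k] {N : ℕ} (r : k →+* ZMod N) {G : Type v} [Group G]
    (x : MonoidAlgebra k (ZMod N → G)) : jW k N r G x ∈ HH G (0 : ZMod N) := by
  induction x using MonoidAlgebra.induction_linear with
  | zero => rw [map_zero]; exact zero_mem _
  | add f g hf hg => rw [map_add]; exact add_mem hf hg
  | single v a =>
    have : jW k N r G (MonoidAlgebra.single v a) = MonoidAlgebra.single (inW N G v) (r a) := by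
      simp [jW]
    rw [this]
    exact single_mem (by simp [dg, inW]) _

lemma mat_mul_mem {N : ℕ} [NeZero N] {G : Type v} [Group G] {ι : Type} [Fintype ι]
    [DecidableEq ι] {d d' : ZMod N} {a b : SR N G ι} (ha : ∀ I J, a I J ∈ HH G d)
    (hb : ∀ I J, b I J ∈ HH G d') (I J : ZMod N → ι) : (a * b) I J ∈ HH G (d + d') := by
  rw [Matrix.mul_apply]
  exact sum_mem fun K _ => mul_mem (ha I K) (hb K J)

lemma tau_mem {N : ℕ} [NeZero N] {G : Type v} [Group G] {ι : Type} [Fintype ι]
    [DecidableEq ι] (I J : ZMod N → ι) : (tauS N G ι : SR N G ι) I J ∈ HH G (1 : ZMod N) := by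
  show (if J = sh I then MonoidAlgebra.single (tW N G) (1 : ZMod N) else 0) ∈ _
  split_ifs
  · exact single_mem (by simp [dg, tW]) _
  · exact zero_mem _

lemma tau_pow_mem {N : ℕ} [NeZero N] {G : Type v} [Group G] {ι : Type} [Fintype ι]
    [DecidableEq ι] (j : ℕ) (I J : ZMod N → ι) :
    ((tauS N G ι : SR N G ι) ^ j) I J ∈ HH G (j : ZMod N) := by
  induction j generalizing I J with
  | zero =>
    rw [pow_zero, Nat.cast_zero]
    by_cases h : I = J
    · rw [← h, Matrix.one_apply_eq, MonoidAlgebra.one_def]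
      exact single_mem (by simp [dg]) _
    · rw [Matrix.one_apply_ne h]
      exact zero_mem _
  | succ j ih =>
    rw [pow_succ, Nat.cast_succ]
    exact mat_mul_mem ih tau_mem I J

lemma phiS_h3 (k : Type u) [CommRing k] (N : ℕ) [NeZero N] (r : k →+* ZMod N) (G : Type v)
    [Group G] (ι : Type) [Fintype ι] [DecidableEq ι] (Θ : WR N G → WR N G → ZMod N)
    (hΘ : ∀ a g, dg g ≠ 1 → Θ a g = 0) (b b' : TR k G ι N) (j j' : ℕ)
    (hj : ((j + j' : ℕ) : ZMod N) ≠ 1) :
    phiS ι Θ (iB k N r G ι b * (tauS N G ι : SR N G ι) ^ j)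
      (iB k N r G ι b' * (tauS N G ι : SR N G ι) ^ j') = 0 := by
  have key : ∀ (b : TR k G ι N) (j : ℕ) (I J : ZMod N → ι),
      (iB k N r G ι b * (tauS N G ι : SR N G ι) ^ j) I J ∈ HH G (j : ZMod N) := by
    intro b j I J
    have h := mat_mul_mem (d := 0) (d' := (j : ZMod N)) (a := iB k N r G ι b)
      (fun I J => jW_mem r (b I J)) (tau_pow_mem (G := G) (ι := ι) j) I J
    rwa [zero_add] at h
  rw [phiS_apply]
  refine Finset.sum_eq_zero fun I _ => Finset.sum_eq_zero fun J _ => ?_
  refine phiW_zero hΘ ?_ (key b j I J) (key b' j' J I)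
  rwa [← Nat.cast_add]

end HOCaux

theorem specHOC : SpecHOC.{u, v} where
  h1 := fun _ _ _ _ ι _ _ Θ hΘ a b c => HOCaux.phiS_h1 ι Θ hΘ a b c
  h2 := fun _ _ _ _ ι _ _ Θ hΘ x => HOCaux.phiS_h2 ι Θ hΘ x
  h3 := HOCaux.phiS_h3

end Pool.Agent.Lib.MPb6f35e.K2
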