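import Pool.Agent.Lib.MP_b6f35e_al.K2.SpecF
import Pool.Agent.Lib.MP_b6f35e_al.K2.DGR

/-!
# K2, HSB: matrices over a finite subgroup in the concrete datum
-/

set_option autoImplicit false

noncomputable section

namespace Pool.Agent.Lib.MPb6f35e.K2

open Pool.Agent.Lib.MPb6f35e.WH

universe u v

namespace HSBaux

/-- all group elements of `x` have components in `H` -/
def Ov {N : ℕ} {G : Type v} [Group G] (H : Subgroup G)
    (x : MonoidAlgebra (ZMod N) (WR N G)) : Prop :=
  ∀ g : WR N G, x.coeff g ≠ 0 → ∀ j, g.left j ∈ H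

/-- the additive monoid generated by the group elements over `H` -/
def Cl {N : ℕ} {G : Type v} [Group G] (H : Subgroup G) :
    AddSubmonoid (MonoidAlgebra (ZMod N) (WR N G)) :=
  AddSubmonoid.closure {y | ∃ (g : WR N G) (c : ZMod N), (∀ j, g.left j ∈ H) ∧
    y = MonoidAlgebra.single g c}

lemma ov_add {N : ℕ} {G : Type v} [Group G] {H : Subgroup G}
    {x y : MonoidAlgebra (ZMod N) (WR N G)} (hx : Ov H x) (hy : Ov H y) : Ov H (x + y) := by
  intro g hg
  rw [MonoidAlgebra.coeff_add, Finsupp.add_apply] at hg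
  by_cases h : x.coeff g = 0
  · rw [h, zero_add] at hg
    exact hy g hg
  · exact hx g h

lemma ov_zero {N : ℕ} {G : Type v} [Group G] {H : Subgroup G} :
    Ov H (0 : MonoidAlgebra (ZMod N) (WR N G)) := by
  intro g hg
  exact absurd rfl hg

lemma ov_neg {N : ℕ} {G : Type v} [Group G] {H : Subgroup G}
    {x : MonoidAlgebra (ZMod N) (WR N G)} (hx : Ov H x) : Ov H (-x) := by
  intro g hg
  refine hx g fun h => hg ?_
  rw [MonoidAlgebra.coeff_neg, Finsupp.neg_apply, h, neg_zero]

lemma ov_single {N : ℕ} {G : Type v} [Group G] {H : Subgroup G} {w : WR N G}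
    (hw : ∀ j, w.left j ∈ H) (c : ZMod N) : Ov H (MonoidAlgebra.single w c) := by
  classical
  intro g hg
  rw [MonoidAlgebra.coeff_single, Finsupp.single_apply] at hg
  by_cases h : w = g
  · rw [← h]
    exact hw
  · rw [if_neg h] at hg
    exact absurd rfl hg

lemma ov_sum {N : ℕ} {G : Type v} [Group G] {H : Subgroup G} {α : Type*} (s : Finset α)
    (f : α → MonoidAlgebra (ZMod N) (WR N G)) (h : ∀ a ∈ s, Ov H (f a)) : Ov H (∑ a ∈ s, f a) := by
  classical
  induction s using Finset.induction_on with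
  | empty => exact ov_zero
  | insert x s hx ih =>
    rw [Finset.sum_insert hx]
    exact ov_add (h x (Finset.mem_insert_self x s))
      (ih fun a ha => h a (Finset.mem_insert_of_mem ha))

lemma eq_sum {N : ℕ} {G : Type v} [Group G] (x : MonoidAlgebra (ZMod N) (WR N G)) :
    x = ∑ g ∈ x.coeff.support, MonoidAlgebra.single g (x.coeff g) := by
  classical
  apply MonoidAlgebra.ext
  apply Finsupp.ext
  intro w
  rw [DGRaux.coeff_sum]
  simp only [MonoidAlgebra.coeff_single, Finsupp.single_apply]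
  rw [Finset.sum_ite_eq']
  by_cases h : w ∈ x.coeff.support
  · rw [if_pos h]
  · rw [if_neg h]
    exact Finsupp.notMem_support_iff.1 h

lemma mem_cl {N : ℕ} {G : Type v} [Group G] {H : Subgroup G}
    {x : MonoidAlgebra (ZMod N) (WR N G)} (hx : Ov H x) : x ∈ Cl H := by
  rw [eq_sum x]
  refine sum_mem fun g hg => AddSubmonoid.subset_closure ⟨g, x.coeff g, ?_, rfl⟩
  exact hx g (Finsupp.mem_support_iff.1 hg)

lemma cl_ov {N : ℕ} {G : Type v} [Group G] {H : Subgroup G}
    {x : MonoidAlgebra (ZMod N) (WR N G)} (hx : x ∈ Cl H) : Ov H x := by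
  refine AddSubmonoid.closure_induction (motive := fun x _ => Ov H x) ?_ ov_zero
    (fun x y _ _ hx hy => ov_add hx hy) hx
  rintro _ ⟨g, c, hg, rfl⟩
  exact ov_single hg c

lemma left_mul {N : ℕ} {G : Type v} [Group G] {H : Subgroup G} {v w : WR N G}
    (hv : ∀ j, v.left j ∈ H) (hw : ∀ j, w.left j ∈ H) : ∀ j, (v * w).left j ∈ H := by
  intro j
  rw [SemidirectProduct.mul_left, Pi.mul_apply]
  exact H.mul_mem (hv j) (hw _)

lemma ov_mul {N : ℕ} {G : Type v} [Group G] {H : Subgroup G}
    {x y : MonoidAlgebra (ZMod N) (WR N G)} (hx : Ov H x) (hy : Ov H y) : Ov H (x * y) := by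
  have hx' := mem_cl hx
  have hy' := mem_cl hy
  clear hx hy
  refine AddSubmonoid.closure_induction (motive := fun x _ => Ov H (x * y)) ?_ ?_ ?_ hx'
  · rintro _ ⟨g, c, hg, rfl⟩
    refine AddSubmonoid.closure_induction
      (motive := fun y _ => Ov H (MonoidAlgebra.single g c * y)) ?_ ?_ ?_ hy'
    · rintro _ ⟨g', c', hg', rfl⟩
      rw [MonoidAlgebra.single_mul_single]
      exact ov_single (left_mul hg hg') _
    · rw [mul_zero]
      exact ov_zero
    · intro a b _ _ ha hb
      rw [mul_add]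
      exact ov_add ha hb
  · rw [zero_mul]
    exact ov_zero
  · intro a b _ _ ha hb
    rw [add_mul]
    exact ov_add ha hb

/-- the functional `x ↦ Σ x_w η(w)` -/
def hW {N : ℕ} {G : Type v} [Group G] (η : WR N G → ZMod N) :
    MonoidAlgebra (ZMod N) (WR N G) →+ ZMod N :=
  (Finsupp.liftAddHom fun w : WR N G => AddMonoidHom.mulRight (η w)).comp
    MonoidAlgebra.coeffAddEquiv.toAddMonoidHom

lemma hW_single {N : ℕ} {G : Type v} [Group G] (η : WR N G → ZMod N) (w : WR N G) (c : ZMod N) :
    hW η (MonoidAlgebra.single w c) = c * η w := by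
  simp [hW]

lemma phiW_eq {N : ℕ} {G : Type v} [Group G] (H : Subgroup G) (Θ : WR N G → WR N G → ZMod N)
    (η : WR N G → ZMod N)
    (h : ∀ v w : WR N G, (∀ j, v.left j ∈ H) → (∀ j, w.left j ∈ H) →
      Θ v w = η w - η (v * w * v⁻¹)) {x y : MonoidAlgebra (ZMod N) (WR N G)} (hx : Ov H x)
    (hy : Ov H y) : phiW Θ x y = hW η (x * y) - hW η (y * x) := by
  have hx' := mem_cl hx
  have hy' := mem_cl hy
  clear hx hy
  refine AddSubmonoid.closure_induction
    (motive := fun x _ => phiW Θ x y = hW η (x * y) - hW η (y * x)) ?_ ?_ ?_ hx'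
  · rintro _ ⟨g, c, hg, rfl⟩
    refine AddSubmonoid.closure_induction
      (motive := fun y _ => phiW Θ (MonoidAlgebra.single g c) y =
        hW η (MonoidAlgebra.single g c * y) - hW η (y * MonoidAlgebra.single g c)) ?_ ?_ ?_ hy'
    · rintro _ ⟨g', c', hg', rfl⟩
      rw [phiW_single, MonoidAlgebra.single_mul_single, MonoidAlgebra.single_mul_single,
        hW_single, hW_single, h g' (g * g') hg' (left_mul hg hg')]
      have e : g' * (g * g') * g'⁻¹ = g' * g := by group
      rw [e]
      ring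
    · simp
    · intro a b _ _ ha hb
      rw [map_add, ha, hb, mul_add, add_mul, map_add, map_add]
      ring
  · simp
  · intro a b _ _ ha hb
    rw [map_add, AddMonoidHom.add_apply, ha, hb, mul_add, add_mul, map_add, map_add]
    ring

lemma hS_apply {N : ℕ} [NeZero N] {G : Type v} [Group G] (ι : Type) [Fintype ι] [DecidableEq ι]
    (η : WR N G → ZMod N) (a : SR N G ι) : hS ι η a = ∑ I : ZMod N → ι, hW η (a I I) := by
  rw [hS, AddMonoidHom.finsetSum_apply]
  rfl

lemma sh_mul {N : ℕ} [NeZero N] {G : Type v} [Group G] {ι : Type} [Fintype ι] [DecidableEq ι]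
    {H : Subgroup G} {a b : SR N G ι} (ha : SH H a) (hb : SH H b) : SH H (a * b) := by
  intro I J
  rw [Matrix.mul_apply]
  exact ov_sum _ _ fun K _ => ov_mul (ha I K) (hb K J)

lemma sh_one {N : ℕ} [NeZero N] {G : Type v} [Group G] {ι : Type} [Fintype ι] [DecidableEq ι]
    {H : Subgroup G} : SH H (1 : SR N G ι) := by
  intro I J
  rw [Matrix.one_apply]
  by_cases h : I = J
  · rw [if_pos h, MonoidAlgebra.one_def]
    exact ov_single (fun j => H.one_mem) 1
  · rw [if_neg h]
    exact ov_zero

lemma sh_tau {N : ℕ} [NeZero N] {G : Type v} [Group G] {ι : Type} [Fintype ι] [DecidableEq ι]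
    {H : Subgroup G} : SH H (tauS N G ι : SR N G ι) := by
  intro I J
  have h0 : (tauS N G ι : SR N G ι) I J =
      if J = sh I then MonoidAlgebra.single (tW N G) 1 else 0 := rfl
  rw [h0]
  by_cases h : J = sh I
  · rw [if_pos h]
    exact ov_single (fun j => H.one_mem) 1
  · rw [if_neg h]
    exact ov_zero

lemma sh_pow {N : ℕ} [NeZero N] {G : Type v} [Group G] {ι : Type} [Fintype ι] [DecidableEq ι]
    {H : Subgroup G} (n : ℕ) : SH H ((tauS N G ι : SR N G ι) ^ n) := by
  induction n with
  | zero =>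
    rw [pow_zero]
    exact sh_one
  | succ n ih =>
    rw [pow_succ]
    exact sh_mul ih sh_tau

end HSBaux

open HSBaux in
theorem specHSB : SpecHSB.{u, v} where
  one := fun N _ G _ ι _ _ H => sh_one
  add := fun N _ G _ ι _ _ H a b ha hb => by
    constructor
    · intro I J
      exact ov_add (ha I J) (hb I J)
    · intro I J
      rw [Matrix.sub_apply, sub_eq_add_neg]
      exact ov_add (ha I J) (ov_neg (hb I J))
  mul := fun N _ G _ ι _ _ H a b ha hb => sh_mul ha hb
  tau := fun N _ G _ ι _ _ H => by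
    refine ⟨sh_tau, fun I J => ?_⟩
    rw [eS, Matrix.sum_apply]
    exact ov_sum _ _ fun j _ => sh_pow j I J
  dS := fun N _ G _ ι _ _ H a ha I J g hg => by
    refine ha I J g fun h => hg ?_
    show (dW N G (a I J)).coeff g = 0
    rw [DGRaux.dW_coeff, h, mul_zero]
  iB := fun k _ N _ r G _ ι _ _ H b hb I J g hg => by
    have h0 : iB k N r G ι b I J = jW k N r G (b I J) := rfl
    rw [h0] at hg
    have hd : dg g = 0 := by
      by_contra h
      exact hg (DGRaux.jW_coeff_out k N r G (b I J) g h)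
    rw [DGRaux.eq_inW hd, DGRaux.jW_coeff_in] at hg
    exact hb I J g.left fun h => hg (by rw [h, map_zero])
  phi := fun N _ G _ ι _ _ H Θ η h a b ha hb => by
    rw [phiS_apply, hS_apply, hS_apply]
    have h1 : ∀ I J : ZMod N → ι, phiW Θ (a I J) (b J I) =
        hW η (a I J * b J I) - hW η (b J I * a I J) := fun I J => phiW_eq H Θ η h (ha I J) (hb J I)
    simp only [h1, Finset.sum_sub_distrib, Matrix.mul_apply, map_sum]
    congr 1
    exact Finset.sum_comm

end Pool.Agent.Lib.MPb6f35e.K2
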