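import Pool.Agent.Lib.MP_b6f35e_al.K2.SpecF
import Pool.Agent.Lib.MP_b6f35e_al.K2.ABS
import Pool.Agent.Lib.MP_b6f35e_al.K2.DGR

/-!
# K_2 theorem (MP_b6f35e_al), module HSC: the cocycle over a finite subgroup
-/

set_option autoImplicit false

noncomputable section

namespace Pool.Agent.Lib.MPb6f35e.K2

open Pool.Agent.Lib.MPb6f35e.WH

universe u v

namespace HSCaux

/-! ### the part over `H` -/

section prj

variable {k : Type u} [CommRing k] {N : ℕ} {G : Type v} [Group G] {ι : Type}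

open Classical in
/-- The part of `x` over `H`. -/
def pH (k : Type u) [CommRing k] {N : ℕ} {G : Type v} [Group G] (H : Subgroup G) :
    MonoidAlgebra k (ZMod N → G) →+ MonoidAlgebra k (ZMod N → G) where
  toFun x := MonoidAlgebra.ofCoeff (x.coeff.filter fun γ => ∀ j, γ j ∈ H)
  map_zero' := by
    apply MonoidAlgebra.ext
    apply Finsupp.ext
    intro γ
    change (Finsupp.filter _ (0 : (ZMod N → G) →₀ k)) γ = 0
    rw [Finsupp.filter_zero]
    rfl
  map_add' x y := by
    apply MonoidAlgebra.ext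
    apply Finsupp.ext
    intro γ
    change (Finsupp.filter _ (x.coeff + y.coeff)) γ =
      (Finsupp.filter _ x.coeff) γ + (Finsupp.filter _ y.coeff) γ
    rw [Finsupp.filter_add]
    rfl

open Classical in
lemma pH_coeff (H : Subgroup G) (x : MonoidAlgebra k (ZMod N → G)) (γ : ZMod N → G) :
    (pH k H x).coeff γ = if ∀ j, γ j ∈ H then x.coeff γ else 0 := by
  change (Finsupp.filter _ x.coeff) γ = _
  rw [Finsupp.filter_apply]

open Classical in
lemma pH_single (H : Subgroup G) (γ : ZMod N → G) (c : k) :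
    pH k H (MonoidAlgebra.single γ c) = if ∀ j, γ j ∈ H then MonoidAlgebra.single γ c else 0 := by
  apply MonoidAlgebra.ext
  apply Finsupp.ext
  intro γ'
  rw [pH_coeff]
  by_cases h : γ = γ'
  · subst h
    split_ifs <;> rfl
  · rw [MonoidAlgebra.coeff_single, Finsupp.single_apply, if_neg h, ite_self]
    split_ifs
    · rw [MonoidAlgebra.coeff_single, Finsupp.single_apply, if_neg h]
    · rfl

lemma rotG_mem (H : Subgroup G) (γ : ZMod N → G) :
    (∀ j, (rotG N G γ) j ∈ H) ↔ ∀ j, γ j ∈ H := by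
  constructor
  · intro h j
    have := h (j + 1)
    change γ (j + 1 - 1) ∈ H at this
    rwa [add_sub_cancel_right] at this
  · intro h j
    exact h (j - 1)

lemma pH_rotG (H : Subgroup G) (x : MonoidAlgebra k (ZMod N → G)) :
    MonoidAlgebra.mapDomainRingHom k (rotG N G) (pH k H x) =
      pH k H (MonoidAlgebra.mapDomainRingHom k (rotG N G) x) := by
  classical
  induction x using MonoidAlgebra.induction_linear with
  | zero => simp
  | add x y hx hy => rw [map_add, map_add, map_add, map_add, hx, hy]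
  | single γ c =>
    have h : ∀ γ : ZMod N → G, MonoidAlgebra.mapDomainRingHom k (rotG N G)
        (MonoidAlgebra.single γ c) = MonoidAlgebra.single (rotG N G γ) c := fun γ => by simp
    rw [pH_single, h, pH_single]
    by_cases hγ : ∀ j, γ j ∈ H
    · rw [if_pos hγ, if_pos ((rotG_mem H γ).mpr hγ), h]
    · rw [if_neg hγ, if_neg fun h' => hγ ((rotG_mem H γ).mp h'), map_zero]

/-- The part of a matrix over `H`. -/
def pM (k : Type u) [CommRing k] {N : ℕ} {G : Type v} [Group G] (ι : Type) (H : Subgroup G) :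
    TR k G ι N →+ TR k G ι N :=
  (pH k H).mapMatrix

lemma pM_apply (H : Subgroup G) (b : TR k G ι N) (I J : ZMod N → ι) :
    pM k ι H b I J = pH k H (b I J) := rfl

variable [NeZero N] [Fintype ι] [DecidableEq ι]

lemma pM_rot (H : Subgroup G) (b : TR k G ι N) :
    rot k G ι N (pM k ι H b) = pM k ι H (rot k G ι N b) := by
  ext1 I J
  rw [rot_apply, pM_apply, pM_apply, rot_apply, pH_rotG]

lemma pM_rot_iter (H : Subgroup G) (j : ℕ) (b : TR k G ι N) :
    (rot k G ι N)^[j] (pM k ι H b) = pM k ι H ((rot k G ι N)^[j] b) := by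
  induction j generalizing b with
  | zero => rfl
  | succ j ih => rw [Function.iterate_succ_apply, Function.iterate_succ_apply, pM_rot, ih]

lemma pM_nm (H : Subgroup G) (M : ℕ) (b : TR k G ι N) :
    nm (rot k G ι N) M (pM k ι H b) = pM k ι H (nm (rot k G ι N) M b) := by
  simp only [nm, map_sum, pM_rot_iter]

lemma pM_over (H : Subgroup G) (b : TR k G ι N) (I J : ZMod N → ι) (γ : ZMod N → G)
    (h : (pM k ι H b I J).coeff γ ≠ 0) : ∀ j, γ j ∈ H := by
  classical
  by_contra hc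
  apply h
  rw [pM_apply, pH_coeff, if_neg hc]

end prj

/-! ### the functional -/

lemma D_mul {S : Type*} [Ring S] (d : S →+ S) (hd : ∀ s t, d (s * t) = d s * t + s * d t)
    (x y : Sˣ) : (((x * y)⁻¹ : Sˣ) : S) * d ((x * y : Sˣ) : S) =
      ((y⁻¹ : Sˣ) : S) * (((x⁻¹ : Sˣ) : S) * d x) * y + ((y⁻¹ : Sˣ) : S) * d y := by
  rw [mul_inv_rev, Units.val_mul, Units.val_mul, hd, mul_add]
  congr 1
  · simp only [mul_assoc]
  · rw [mul_assoc, Units.inv_mul_cancel_left]

lemma coc_abs {S : Type*} [Ring S] {H : Type*} [AddCommGroup H] (d : S →+ S)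
    (hd : ∀ s t, d (s * t) = d s * t + s * d t) (φ : S →+ S →+ H) (h : S →+ H) (s t : Sˣ)
    (hφ : φ (((t⁻¹ : Sˣ) : S) * (((s⁻¹ : Sˣ) : S) * d s)) t =
      h (((t⁻¹ : Sˣ) : S) * (((s⁻¹ : Sˣ) : S) * d s) * t) -
        h (t * (((t⁻¹ : Sˣ) : S) * (((s⁻¹ : Sˣ) : S) * d s)))) :
    cc d φ s t = h ((((s * t)⁻¹ : Sˣ) : S) * d ((s * t : Sˣ) : S))
        - h (((s⁻¹ : Sˣ) : S) * d (s : S)) - h (((t⁻¹ : Sˣ) : S) * d (t : S)) := by
  unfold cc
  rw [hφ, D_mul d hd, map_add, Units.mul_inv_cancel_left]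
  abel

lemma ker_abs {B S H : Type*} [Ring B] [Ring S] [AddCommGroup H] {N : ℕ} {ρ : B →+* B}
    {i : B →+* S} {τ : Sˣ} {d : S →+ S} {φ : S →+ S →+ H} (hdat : IsDat N ρ i τ d φ)
    (h : S →+ H) (hP : ∀ b, h (i b * ABSaux.eP N τ) = h (i b * τ))
    (hE : ∀ b, h (i b * eS N τ) = h (i b * τ)) (s : Sˣ) (q : B)
    (hs : (s : S) = 1 + i (q - ρ q) * eS N τ)
    (hφ : φ (i (q * (1 + nm ρ N q))) τ = h (i (q * (1 + nm ρ N q)) * τ) -
      h (τ * i (q * (1 + nm ρ N q)))) :
    h (((s⁻¹ : Sˣ) : S) * d (s : S)) = φ (i (q * (1 + nm ρ N q))) τ := by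
  have hrn : ρ (1 + nm ρ N q) = 1 + nm ρ N q := by
    rw [map_add, map_one, ABSaux.rho_nm hdat.rotN]
  rw [ABSaux.D_k hdat hs, map_add, hP, hE, ← map_add, ← add_mul, ← map_add, hφ, hdat.conj,
    ← map_sub, ← sub_mul, ← map_sub, ← ABSaux.kap_mul hrn, mul_add, mul_one]

section hfun

variable {N : ℕ} [NeZero N] {G : Type v} [Group G] {ι : Type} [Fintype ι] [DecidableEq ι]

lemma hS_apply (η : WR N G → ZMod N) (a : SR N G ι) :
    hS ι η a = ∑ I : ZMod N → ι, (a I I).coeff.sum fun w c => c * η w := by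
  simp only [hS, AddMonoidHom.finsetSum_apply]
  rfl

lemma iB_tau_coeff (k : Type u) [CommRing k] (r : k →+* ZMod N) (b : TR k G ι N) (j : ℕ)
    (I K : ZMod N → ι) (w : WR N G) (hw : dg w ≠ ((j : ℕ) : ZMod N)) :
    ((iB k N r G ι b * (tauS N G ι : SR N G ι) ^ j) I K).coeff w = 0 := by
  rw [Matrix.mul_apply, DGRaux.coeff_sum]
  apply Finset.sum_eq_zero
  intro J _
  rw [DGRaux.tau_pow, DGRaux.iB_apply]
  by_cases hJ : K = sh^[j] J
  · rw [if_pos hJ, DGRaux.coeff_mul_t]
    apply DGRaux.jW_coeff_out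
    rw [DGRaux.dg_mul, DGRaux.dg_inv, DGRaux.dg_t_pow]
    intro h
    exact hw (by rw [← sub_eq_add_neg, sub_eq_zero] at h; exact h)
  · rw [if_neg hJ, mul_zero]
    rfl

lemma hS_tau (k : Type u) [CommRing k] (r : k →+* ZMod N) (η : WR N G → ZMod N)
    (hη : ∀ w, dg w ≠ 1 → η w = 0) (b : TR k G ι N) (j : ℕ) (hj : ((j : ℕ) : ZMod N) ≠ 1) :
    hS ι η (iB k N r G ι b * (tauS N G ι : SR N G ι) ^ j) = 0 := by
  rw [hS_apply]
  refine Finset.sum_eq_zero fun I _ => ?_
  rw [Finsupp.sum]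
  refine Finset.sum_eq_zero fun w _ => ?_
  by_cases h : dg w = 1
  · rw [iB_tau_coeff k r b j I I w (by rw [h]; exact hj.symm), zero_mul]
  · rw [hη w h, mul_zero]

lemma hS_e (k : Type u) [CommRing k] (r : k →+* ZMod N) (η : WR N G → ZMod N)
    (hη : ∀ w, dg w ≠ 1 → η w = 0) (hN : 1 < N) (b : TR k G ι N) :
    hS ι η (iB k N r G ι b * eS N (tauS N G ι)) =
      hS ι η (iB k N r G ι b * (tauS N G ι : SR N G ι)) := by
  rw [eS, Finset.mul_sum, map_sum, Finset.sum_eq_single 1]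
  · rw [pow_one]
  · intro j hj hj1
    apply hS_tau k r η hη
    intro h
    apply hj1
    have h1 : ((j : ℕ) : ZMod N) = ((1 : ℕ) : ZMod N) := by rw [h, Nat.cast_one]
    rw [ZMod.natCast_eq_natCast_iff] at h1
    exact Nat.ModEq.eq_of_lt_of_lt h1 (Finset.mem_range.mp hj) hN
  · intro h
    exact absurd (Finset.mem_range.mpr hN) h

lemma hS_P (k : Type u) [CommRing k] (r : k →+* ZMod N) (η : WR N G → ZMod N)
    (hη : ∀ w, dg w ≠ 1 → η w = 0) (hN : 1 < N) (b : TR k G ι N) :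
    hS ι η (iB k N r G ι b * ABSaux.eP N (tauS N G ι)) =
      hS ι η (iB k N r G ι b * (tauS N G ι : SR N G ι)) := by
  rw [ABSaux.eP, Finset.mul_sum, map_sum, Finset.sum_eq_single 1]
  · rw [pow_one, one_smul]
  · intro j hj hj1
    rw [mul_smul_comm, map_nsmul, hS_tau k r η hη, smul_zero]
    intro h
    apply hj1
    have h1 : ((j : ℕ) : ZMod N) = ((1 : ℕ) : ZMod N) := by rw [h, Nat.cast_one]
    rw [ZMod.natCast_eq_natCast_iff] at h1
    exact Nat.ModEq.eq_of_lt_of_lt h1 (Finset.mem_range.mp hj) hN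
  · intro h
    exact absurd (Finset.mem_range.mpr hN) h

end hfun

end HSCaux

open HSCaux in
theorem specHSC (hHSB : SpecHSB.{u, v}) : SpecHSC.{u, v} where
  coc N _ G _ ι _ _ H Θ η hη s t hs hs' ht ht' := by
    refine coc_abs (dS N G ι) (DGRaux.dmul N G ι) (phiS ι Θ) (hS ι η) s t ?_
    exact hHSB.phi N G ι H Θ η hη _ _
      (hHSB.mul N G ι H _ _ ht' (hHSB.mul N G ι H _ _ hs' (hHSB.dS N G ι H _ hs))) ht
  ker k _ N _ r G _ ι _ _ H Θ η hη hη1 hdat s hs hK := by
    by_cases hN : N = 1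
    · subst hN
      exact Subsingleton.elim _ _
    have hN1 : 1 < N := lt_of_le_of_ne (Nat.one_le_iff_ne_zero.mpr (NeZero.ne N)) (Ne.symm hN)
    obtain ⟨q, hq⟩ := hK
    set q' : TR k G ι N := pM k ι H q with hq'
    have hk : q' - rot k G ι N q' = pM k ι H (q - rot k G ι N q) := by
      rw [hq', pM_rot, map_sub]
    -- the part over `H` has the same image
    have hsub : (s : SR N G ι) - 1 = iB k N r G ι (q - rot k G ι N q) * eS N (tauS N G ι) := by
      rw [hq, add_sub_cancel_left]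
    have hSH : SH H ((s : SR N G ι) - 1) :=
      (hHSB.add N G ι H _ _ hs (hHSB.one N G ι H)).2
    have himg : iB k N r G ι (q' - rot k G ι N q') = iB k N r G ι (q - rot k G ι N q) := by
      classical
      rw [hk]
      ext1 I J
      rw [DGRaux.iB_apply, DGRaux.iB_apply, pM_apply]
      apply MonoidAlgebra.ext
      apply Finsupp.ext
      intro w
      by_cases hw : dg w = 0
      · rw [DGRaux.eq_inW hw, DGRaux.jW_coeff_in, DGRaux.jW_coeff_in, pH_coeff]
        split_ifs with h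
        · rfl
        · rw [map_zero]
          by_contra hne
          apply h
          have h2 := hSH I J (inW N G w.left) (by
            rw [hsub, DGRaux.coeff_key]
            exact fun h3 => hne h3.symm)
          exact h2
      · rw [DGRaux.jW_coeff_out _ _ _ _ _ _ hw, DGRaux.jW_coeff_out _ _ _ _ _ _ hw]
    have hs2 : (s : SR N G ι) = 1 + iB k N r G ι (q' - rot k G ι N q') * eS N (tauS N G ι) := by
      rw [himg, hq]
    have hSz : SH H (iB k N r G ι (q' * (1 + nm (rot k G ι N) N q'))) := by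
      rw [map_mul, map_add, map_one]
      refine hHSB.mul N G ι H _ _ (hHSB.iB k N r G ι H _ fun I J γ h => pM_over H q I J γ h)
        (hHSB.add N G ι H _ _ (hHSB.one N G ι H) ?_).1
      rw [hq', pM_nm]
      exact hHSB.iB k N r G ι H _ fun I J γ h => pM_over H _ I J γ h
    rw [ABSaux.f1 _ _ _ N _ _ _ _ _ hdat s q' hs2]
    exact ker_abs hdat (hS ι η) (hS_P k r η hη1 hN1) (hS_e k r η hη1 hN1) s q' hs2
      (hHSB.phi N G ι H Θ η hη _ _ hSz (hHSB.tau N G ι H).1)

end Pool.Agent.Lib.MPb6f35e.K2
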