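import Pool.Agent.Lib.MP_b6f35e_al.K2.SpecF

/-!
# K_2 theorem (MP_b6f35e_al), module HSD (helper53): lifts over a subgroup
-/

set_option autoImplicit false

noncomputable section

namespace Pool.Agent.Lib.MPb6f35e.K2

open Pool.Agent.Lib.MPb6f35e.WH

universe u v w

namespace HSDaux

section

variable {R : Type u} [CommRing R] {C : Type v} {G : Type w} [Group C] [Group G] (φ : C →* G)

lemma map_coeff (hφ : Function.Injective φ) (y : MonoidAlgebra R C) (c : C) :
    (MonoidAlgebra.mapDomainRingHom R φ y).coeff (φ c) = y.coeff c := by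
  show (MonoidAlgebra.mapDomain φ y).coeff (φ c) = _
  rw [MonoidAlgebra.coeff_mapDomain]
  exact Finsupp.mapDomain_apply hφ _ _

lemma map_coeff_out (y : MonoidAlgebra R C) (g : G) (hg : g ∉ Set.range φ) :
    (MonoidAlgebra.mapDomainRingHom R φ y).coeff g = 0 := by
  show (MonoidAlgebra.mapDomain φ y).coeff g = _
  rw [MonoidAlgebra.coeff_mapDomain]
  exact Finsupp.mapDomain_of_notMem_range _ _ hg

lemma map_inj (hφ : Function.Injective φ) :
    Function.Injective (MonoidAlgebra.mapDomainRingHom R φ) := by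
  intro a b hab
  ext c
  rw [← map_coeff φ hφ a c, ← map_coeff φ hφ b c, hab]

end

section sub

variable {R : Type u} [CommRing R] {G : Type v} [Group G] (C : Subgroup G)

/-- The restriction to `C`. -/
def res (x : MonoidAlgebra R G) : MonoidAlgebra R C :=
  MonoidAlgebra.ofCoeff (x.coeff.comapDomain (fun c : C => (c : G))
    Subtype.val_injective.injOn)

lemma map_res (x : MonoidAlgebra R G) (h : Supp C x) :
    MonoidAlgebra.mapDomainRingHom R C.subtype (res C x) = x := by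
  ext g
  by_cases hg : g ∈ C
  · exact (map_coeff C.subtype Subtype.val_injective (res C x) ⟨g, hg⟩).trans rfl
  · rw [map_coeff_out C.subtype _ g (by rintro ⟨c, rfl⟩; exact hg c.2)]
    by_contra hne
    exact hg (h g fun h0 => hne h0.symm)

end sub

variable {k : Type u} [CommRing k] {G : Type v} [Group G] {ι : Type} [Fintype ι] [DecidableEq ι]

/-- the support of a pushed forward element. -/
lemma supp_FT {N : ℕ} [NeZero N] (H : Subgroup G) (a : TR k H ι N) (I J : ZMod N → ι)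
    (γ : ZMod N → G) (h : (FT H.subtype a I J).coeff γ ≠ 0) (j : ZMod N) : γ j ∈ H := by
  by_contra hn
  apply h
  rw [FT_apply]
  apply map_coeff_out (H.subtype.compLeft (ZMod N)) (a I J) γ
  rintro ⟨c, rfl⟩
  exact hn (c j).2

/-- the matrix over the group ring of the subgroup. -/
def resU (H : Subgroup G) (y : (Matrix ι ι (MonoidAlgebra k G))ˣ)
    (h1 : ∀ i j, Supp H ((y : Matrix ι ι (MonoidAlgebra k G)) i j))
    (h2 : ∀ i j, Supp H (((y⁻¹ : (Matrix ι ι (MonoidAlgebra k G))ˣ) :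
      Matrix ι ι (MonoidAlgebra k G)) i j)) : (Matrix ι ι (MonoidAlgebra k H))ˣ := by
  have hf : Function.Injective (MonoidAlgebra.mapDomainRingHom k H.subtype) :=
    map_inj H.subtype Subtype.val_injective
  have hm : ∀ m : Matrix ι ι (MonoidAlgebra k G), (∀ i j, Supp H (m i j)) →
      (m.map (res H)).map (MonoidAlgebra.mapDomainRingHom k H.subtype) = m := by
    intro m hm
    ext1 i j
    exact map_res H _ (hm i j)
  have hone : (1 : Matrix ι ι (MonoidAlgebra k H)).map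
      (MonoidAlgebra.mapDomainRingHom k H.subtype) = 1 :=
    Matrix.map_one _ (map_zero _) (map_one _)
  refine ⟨(y : Matrix ι ι (MonoidAlgebra k G)).map (res H),
    ((y⁻¹ : (Matrix ι ι (MonoidAlgebra k G))ˣ) : Matrix ι ι (MonoidAlgebra k G)).map (res H),
    ?_, ?_⟩
  · apply Matrix.map_injective hf
    show ((y : Matrix ι ι (MonoidAlgebra k G)).map (res H) *
      ((y⁻¹ : (Matrix ι ι (MonoidAlgebra k G))ˣ) : Matrix ι ι (MonoidAlgebra k G)).map
        (res H)).map (MonoidAlgebra.mapDomainRingHom k H.subtype) =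
      (1 : Matrix ι ι (MonoidAlgebra k H)).map (MonoidAlgebra.mapDomainRingHom k H.subtype)
    rw [Matrix.map_mul, hm _ h1, hm _ h2, Units.mul_inv, hone]
  · apply Matrix.map_injective hf
    show (((y⁻¹ : (Matrix ι ι (MonoidAlgebra k G))ˣ) : Matrix ι ι (MonoidAlgebra k G)).map
      (res H) * (y : Matrix ι ι (MonoidAlgebra k G)).map (res H)).map
        (MonoidAlgebra.mapDomainRingHom k H.subtype) =
      (1 : Matrix ι ι (MonoidAlgebra k H)).map (MonoidAlgebra.mapDomainRingHom k H.subtype)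
    rw [Matrix.map_mul, hm _ h1, hm _ h2, Units.inv_mul, hone]

lemma resU_map (H : Subgroup G) (y : (Matrix ι ι (MonoidAlgebra k G))ˣ)
    (h1 : ∀ i j, Supp H ((y : Matrix ι ι (MonoidAlgebra k G)) i j))
    (h2 : ∀ i j, Supp H (((y⁻¹ : (Matrix ι ι (MonoidAlgebra k G))ˣ) :
      Matrix ι ι (MonoidAlgebra k G)) i j)) :
    (resU H y h1 h2 : Matrix ι ι (MonoidAlgebra k H)).map
      (MonoidAlgebra.mapDomainRingHom k H.subtype) = y := by
  ext1 i j
  exact map_res H _ (h1 i j)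

lemma resU_map_inv (H : Subgroup G) (y : (Matrix ι ι (MonoidAlgebra k G))ˣ)
    (h1 : ∀ i j, Supp H ((y : Matrix ι ι (MonoidAlgebra k G)) i j))
    (h2 : ∀ i j, Supp H (((y⁻¹ : (Matrix ι ι (MonoidAlgebra k G))ˣ) :
      Matrix ι ι (MonoidAlgebra k G)) i j)) :
    (((resU H y h1 h2)⁻¹ : (Matrix ι ι (MonoidAlgebra k H))ˣ) :
      Matrix ι ι (MonoidAlgebra k H)).map
      (MonoidAlgebra.mapDomainRingHom k H.subtype) =
      ((y⁻¹ : (Matrix ι ι (MonoidAlgebra k G))ˣ) : Matrix ι ι (MonoidAlgebra k G)) := by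
  ext1 i j
  exact map_res H _ (h2 i j)

end HSDaux

open HSDaux in
theorem specHSD (hTDN : SpecTDN.{u, v}) (hQSB : SpecQSB.{max u v, v, 0, max u v})
    (hHSB : SpecHSB.{u, v}) : SpecHSD.{u, v} := by
  intro k _ p e _ _ _ r hred G _ ι _ _ Θ hdat H y h1 h2
  obtain ⟨-, -, b₀, hb₀⟩ := hTDN k p e hred.frob H ι (resU H y h1 h2)
  have hT : ∀ z : (Matrix ι ι (MonoidAlgebra k G))ˣ,
      rot k G ι (p ^ (e + 1)) (TT k G ι (p ^ (e + 1)) z) = TT k G ι (p ^ (e + 1)) z :=
    fun z => (hTDN k p e hred.frob G ι z).1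
  have hD : ∀ z : (Matrix ι ι (MonoidAlgebra k G))ˣ,
      rot k G ι (p ^ (e + 1)) (DD k G ι p e z) = DD k G ι p e z :=
    fun z => (hTDN k p e hred.frob G ι z).2.1
  -- the images
  have eT : FT H.subtype (TT k H ι (p ^ (e + 1)) (resU H y h1 h2) : TR k H ι (p ^ (e + 1))) =
      TT k G ι (p ^ (e + 1)) y := by
    have := FT_tens (k := k) H.subtype (N := p ^ (e + 1))
      (resU H y h1 h2 : Matrix ι ι (MonoidAlgebra k H))
    rw [resU_map] at this
    exact this
  have eTi : FT H.subtype (((TT k H ι (p ^ (e + 1)) (resU H y h1 h2))⁻¹ :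
      (TR k H ι (p ^ (e + 1)))ˣ) : TR k H ι (p ^ (e + 1))) =
      (((TT k G ι (p ^ (e + 1)) y)⁻¹ : (TR k G ι (p ^ (e + 1)))ˣ) : TR k G ι (p ^ (e + 1))) := by
    have := FT_tens (k := k) H.subtype (N := p ^ (e + 1))
      (((resU H y h1 h2)⁻¹ : (Matrix ι ι (MonoidAlgebra k H))ˣ) :
        Matrix ι ι (MonoidAlgebra k H))
    rw [resU_map_inv] at this
    exact this
  have eD : FT H.subtype (DD k H ι p e (resU H y h1 h2) : TR k H ι (p ^ (e + 1))) =
      DD k G ι p e y := by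
    have := FT_dhat (k := k) H.subtype (p := p) (e := e)
      (resU H y h1 h2 : Matrix ι ι (MonoidAlgebra k H))
    rw [resU_map] at this
    exact this
  have eDi : FT H.subtype (((DD k H ι p e (resU H y h1 h2))⁻¹ :
      (TR k H ι (p ^ (e + 1)))ˣ) : TR k H ι (p ^ (e + 1))) =
      (((DD k G ι p e y)⁻¹ : (TR k G ι (p ^ (e + 1)))ˣ) : TR k G ι (p ^ (e + 1))) := by
    have := FT_dhat (k := k) H.subtype (p := p) (e := e)
      (((resU H y h1 h2)⁻¹ : (Matrix ι ι (MonoidAlgebra k H))ˣ) :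
        Matrix ι ι (MonoidAlgebra k H))
    rw [resU_map_inv] at this
    exact this
  have hb : (TT k G ι (p ^ (e + 1)) y : TR k G ι (p ^ (e + 1))) *
      (1 + nm (rot k G ι (p ^ (e + 1))) (p ^ (e + 1)) (FT H.subtype b₀)) = DD k G ι p e y := by
    rw [← eD, ← hb₀, map_mul, eT, map_add, map_one, FT_nm]
  obtain ⟨s, hs, hsi⟩ := hQSB.onto _ _ _ _ (p ^ (e + 1)) _ _ _ _ _ hdat
    (TT k G ι (p ^ (e + 1))) (DD k G ι p e) hT hD y (FT H.subtype b₀) hb
  have hF : ∀ a : TR k H ι (p ^ (e + 1)), SH H (iB k (p ^ (e + 1)) r G ι (FT H.subtype a)) :=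
    fun a => hHSB.iB k (p ^ (e + 1)) r G ι H _ (supp_FT H a)
  have hone : SH H (1 : SR (p ^ (e + 1)) G ι) := hHSB.one (p ^ (e + 1)) G ι H
  have he : SH H (eS (p ^ (e + 1)) (tauS (p ^ (e + 1)) G ι)) := (hHSB.tau (p ^ (e + 1)) G ι H).2
  have hmul : ∀ a b : SR (p ^ (e + 1)) G ι, SH H a → SH H b → SH H (a * b) :=
    fun a b => hHSB.mul (p ^ (e + 1)) G ι H a b
  refine ⟨s, ?_, ?_, FT H.subtype b₀, hs, hb⟩
  · rw [hs, ← eT]
    exact hmul _ _ (hF _) (hHSB.add (p ^ (e + 1)) G ι H _ _ hone (hmul _ _ (hF _) he)).1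
  · rw [hsi, ← eDi, ← eT, ← eTi, ← map_mul, ← map_mul]
    exact hmul _ _ (hHSB.add (p ^ (e + 1)) G ι H _ _ hone (hmul _ _ (hF _) he)).2 (hF _)

end Pool.Agent.Lib.MPb6f35e.K2
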