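import Pool.Agent.Lib.MP_b6f35e_al.K2.SpecB

/-!
# INV: the value `EE` does not depend on the lifts
-/

set_option autoImplicit false

noncomputable section

namespace Pool.Agent.Lib.MPb6f35e.K2

universe u v w x

theorem specINV (hEXT : SpecEXT.{u, v, w, x}) : SpecINV.{u, v, w, x} := by
  intro B S H U _ _ _ _ N ρ i τ d φ hdat T D hT hD hTD y y' s s' t t' hyy hs ht hs' ht'
  obtain ⟨Y, _, π, ε, hsurj, -, -, hE⟩ := hEXT B S H U N ρ i τ d φ hdat T D hT hD hTD
  obtain ⟨k, hk⟩ := hsurj y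
  obtain ⟨k', hk'⟩ := hsurj y'
  rw [← hE y y' s s' hyy hs hs' k k' hk hk', hE y y' t t' hyy ht ht' k k' hk hk']

end Pool.Agent.Lib.MPb6f35e.K2
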