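import Pool.Agent.Lib.MP_b6f35e_al.K2.SpecE

/-!
# K_2 theorem (MP_b6f35e_al), module TRL (helper87): consequences of the relations
-/

set_option autoImplicit false

noncomputable section

namespace Pool.Agent.Lib.MPb6f35e.K2

open Pool.Agent.Lib.MPb6f35e.WH

universe u v

namespace TRLaux

variable {R : Type u} [CommRing R] {G : Type v} [Group G]

/-- Products of elements over `C` are over `C`. -/
lemma supp_mul {C : Subgroup G} {x y : MonoidAlgebra R G} (hx : ∀ g, x.coeff g ≠ 0 → g ∈ C)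
    (hy : ∀ g, y.coeff g ≠ 0 → g ∈ C) : ∀ g, (x * y).coeff g ≠ 0 → g ∈ C := by
  classical
  intro g hg
  have h1 : g ∈ (x * y).coeff.support := Finsupp.mem_support_iff.2 hg
  have h2 := MonoidAlgebra.support_coeff_mul_subset x y h1
  rw [Finset.mem_mul] at h2
  obtain ⟨a, ha, b, hb, hab⟩ := h2
  rw [← hab]
  exact C.mul_mem (hx a (Finsupp.mem_support_iff.1 ha)) (hy b (Finsupp.mem_support_iff.1 hb))

lemma supp_one (C : Subgroup G) : ∀ g, (1 : MonoidAlgebra R G).coeff g ≠ 0 → g ∈ C := by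
  classical
  intro g hg
  by_contra h
  apply hg
  rw [MonoidAlgebra.one_def, MonoidAlgebra.coeff_single, Finsupp.single_apply, if_neg]
  rintro rfl
  exact h C.one_mem

/-- The units over `C`. -/
def US (R : Type u) [CommRing R] {G : Type v} [Group G] (C : Subgroup G) :
    Subgroup (MonoidAlgebra R G)ˣ where
  carrier := {u | (∀ g, u.val.coeff g ≠ 0 → g ∈ C) ∧ ∀ g, u.inv.coeff g ≠ 0 → g ∈ C}
  mul_mem' := by
    rintro a b ⟨ha, ha'⟩ ⟨hb, hb'⟩
    exact ⟨supp_mul ha hb, supp_mul hb' ha'⟩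
  one_mem' := ⟨supp_one C, supp_one C⟩
  inv_mem' := by
    rintro a ⟨ha, ha'⟩
    exact ⟨ha', ha⟩

/-- The projection. -/
def mkT : FreeAbelianGroup (GenT R G) →+ TGrp R G :=
  QuotientAddGroup.mk' (AddSubgroup.closure {y | RelT R G y})

lemma mkT_zero {y : FreeAbelianGroup (GenT R G)} (h : RelT R G y) :
    (mkT : FreeAbelianGroup (GenT R G) →+ TGrp R G) y = 0 :=
  (QuotientAddGroup.eq_zero_iff _).2 (AddSubgroup.subset_closure h)

lemma mkT_of (a : GenT R G) : (mkT : FreeAbelianGroup (GenT R G) →+ TGrp R G)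
    (FreeAbelianGroup.of a) = D1.cls (RelT R G) a := rfl

lemma cls_add {a b c : GenT R G}
    (h : RelT R G (FreeAbelianGroup.of c - FreeAbelianGroup.of a - FreeAbelianGroup.of b)) :
    D1.cls (RelT R G) c = D1.cls (RelT R G) a + D1.cls (RelT R G) b := by
  have h1 := mkT_zero h
  rw [map_sub, map_sub, mkT_of, mkT_of, mkT_of] at h1
  rw [← sub_eq_zero, ← sub_sub]
  exact h1

lemma cls_eq {a c : GenT R G}
    (h : RelT R G (FreeAbelianGroup.of c - FreeAbelianGroup.of a)) :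
    D1.cls (RelT R G) c = D1.cls (RelT R G) a := by
  have h1 := mkT_zero h
  rw [map_sub, mkT_of, mkT_of] at h1
  rw [← sub_eq_zero]
  exact h1

lemma mulz (a b y : GenT R G) (h1 : a.C = y.C)
    (h2 : b.C = y.C) (h3 : a.u = y.u) (h4 : b.u = y.u) (h5 : y.z = a.z * b.z) :
    D1.cls (RelT R G) y = D1.cls (RelT R G) a + D1.cls (RelT R G) b := by
  obtain ⟨C, hC, cC, z, hz, u, hu, hu'⟩ := y
  obtain ⟨Ca, hCa, cCa, za, hza, ua, hua, hua'⟩ := a
  obtain ⟨Cb, hCb, cCb, zb, hzb, ub, hub, hub'⟩ := b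
  dsimp only at h1 h2 h3 h4 h5
  subst h1
  subst h2
  subst h3
  subst h4
  subst h5
  exact cls_add (RelT.mulz Cb hC cC za zb hza hzb hz ub hu hu')

lemma mulu (a b y : GenT R G) (h1 : a.C = y.C)
    (h2 : b.C = y.C) (h3 : a.z = y.z) (h4 : b.z = y.z) (h5 : y.u = a.u * b.u) :
    D1.cls (RelT R G) y = D1.cls (RelT R G) a + D1.cls (RelT R G) b := by
  obtain ⟨C, hC, cC, z, hz, u, hu, hu'⟩ := y
  obtain ⟨Ca, hCa, cCa, za, hza, ua, hua, hua'⟩ := a
  obtain ⟨Cb, hCb, cCb, zb, hzb, ub, hub, hub'⟩ := b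
  dsimp only at h1 h2 h3 h4 h5
  subst h1
  subst h2
  subst h3
  subst h4
  subst h5
  exact cls_add (RelT.mulu Cb hC cC zb hz ua ub hua hua' hub hub' hu hu')

lemma conj (a y : GenT R G) (g : G) (h1 : ∀ h ∈ a.C, g * h * g⁻¹ ∈ y.C)
    (h2 : a.z = g⁻¹ * y.z * g)
    (h3 : MonoidAlgebra.single g 1 * a.u.val = y.u.val * MonoidAlgebra.single g 1) :
    D1.cls (RelT R G) y = D1.cls (RelT R G) a := by
  obtain ⟨C, hC, cC, z, hz, u, hu, hu'⟩ := y
  obtain ⟨Ca, hCa, cCa, za, hza, ua, hua, hua'⟩ := a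
  dsimp only at h1 h2 h3
  subst h2
  exact cls_eq (RelT.conj Ca C hCa cCa hC cC g h1 z hz hza ua u hua hua' hu hu' h3)

/-- The generator with `z` replaced by `z ^ m`. -/
def zp (a : GenT R G) (m : ℤ) : GenT R G where
  C := a.C
  fin := a.fin
  cyc := a.cyc
  z := a.z ^ m
  comm := fun h hh => ((show Commute a.z h from a.comm h hh).zpow_left m)
  u := a.u
  ov := a.ov
  ov' := a.ov'

/-- The generator with `u` replaced by `u ^ m`. -/
def up (a : GenT R G) (m : ℤ) : GenT R G where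
  C := a.C
  fin := a.fin
  cyc := a.cyc
  z := a.z
  comm := a.comm
  u := a.u ^ m
  ov := ((US R a.C).zpow_mem (show a.u ∈ US R a.C from ⟨a.ov, a.ov'⟩) m).1
  ov' := ((US R a.C).zpow_mem (show a.u ∈ US R a.C from ⟨a.ov, a.ov'⟩) m).2

lemma zp_cls (a : GenT R G) (m : ℤ) :
    D1.cls (RelT R G) (zp a m) = m • D1.cls (RelT R G) a := by
  have key : ∀ m n : ℤ, D1.cls (RelT R G) (zp a (m + n)) =
      D1.cls (RelT R G) (zp a m) + D1.cls (RelT R G) (zp a n) := fun m n =>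
    mulz _ _ _ rfl rfl rfl rfl (zpow_add a.z m n)
  have h := map_zsmul (AddMonoidHom.mk' (fun m : ℤ => D1.cls (RelT R G) (zp a m)) key) m 1
  have h1 : D1.cls (RelT R G) (zp a 1) = D1.cls (RelT R G) a := by
    refine conj _ _ 1 ?_ ?_ ?_
    · intro h hh
      simpa [zp] using hh
    · simp [zp]
    · show MonoidAlgebra.single 1 1 * a.u.val = a.u.val * MonoidAlgebra.single 1 1
      rw [← MonoidAlgebra.one_def, one_mul, mul_one]
  have h2 : (AddMonoidHom.mk' (fun m : ℤ => D1.cls (RelT R G) (zp a m)) key) (m • 1) =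
      D1.cls (RelT R G) (zp a m) := by
    simp
  rw [h2] at h
  rw [h]
  exact congrArg (fun t => m • t) h1

lemma up_cls (a : GenT R G) (m : ℤ) :
    D1.cls (RelT R G) (up a m) = m • D1.cls (RelT R G) a := by
  have key : ∀ m n : ℤ, D1.cls (RelT R G) (up a (m + n)) =
      D1.cls (RelT R G) (up a m) + D1.cls (RelT R G) (up a n) := fun m n =>
    mulu _ _ _ rfl rfl rfl rfl (zpow_add a.u m n)
  have h := map_zsmul (AddMonoidHom.mk' (fun m : ℤ => D1.cls (RelT R G) (up a m)) key) m 1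
  have h1 : D1.cls (RelT R G) (up a 1) = D1.cls (RelT R G) a := by
    refine conj _ _ 1 ?_ ?_ ?_
    · intro h hh
      simpa [up] using hh
    · simp [up]
    · show MonoidAlgebra.single 1 1 * a.u.val = (a.u ^ (1 : ℤ)).val * MonoidAlgebra.single 1 1
      rw [zpow_one, ← MonoidAlgebra.one_def, one_mul, mul_one]
  have h2 : (AddMonoidHom.mk' (fun m : ℤ => D1.cls (RelT R G) (up a m)) key) (m • 1) =
      D1.cls (RelT R G) (up a m) := by
    simp
  rw [h2] at h
  rw [h]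
  exact congrArg (fun t => m • t) h1

/-- The class depends only on the subgroup, `z` and `u`. -/
lemma ext' (a y : GenT R G) (h1 : a.C = y.C) (h2 : a.z = y.z) (h3 : a.u = y.u) : a = y := by
  obtain ⟨C, hC, cC, z, hz, u, hu, hu'⟩ := y
  obtain ⟨Ca, hCa, cCa, za, hza, ua, hua, hua'⟩ := a
  dsimp only at h1 h2 h3
  subst h1
  subst h2
  subst h3
  rfl

end TRLaux

open TRLaux

theorem specTRL : SpecTRL.{u, v} where
  mulz := fun R _ G _ a b y h1 h2 h3 h4 h5 => TRLaux.mulz a b y h1 h2 h3 h4 h5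
  mulu := fun R _ G _ a b y h1 h2 h3 h4 h5 => TRLaux.mulu a b y h1 h2 h3 h4 h5
  zpowz := fun R _ G _ a y m h1 h2 h3 => by
    rw [← zp_cls a m]
    exact congrArg _ (ext' _ _ h1.symm h3 h2.symm)
  zpowu := fun R _ G _ a y m h1 h2 h3 => by
    rw [← up_cls a m]
    exact congrArg _ (ext' _ _ h1.symm h2.symm h3)
  incl := fun R _ G _ a y h1 h2 h3 => by
    refine TRLaux.conj a y 1 ?_ ?_ ?_
    · intro h hh
      simpa using h1 hh
    · simp [h2]
    · rw [h3, ← MonoidAlgebra.one_def, one_mul, mul_one]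
  conj := fun R _ G _ a y g h1 h2 h3 => TRLaux.conj a y g h1 h2 h3

end Pool.Agent.Lib.MPb6f35e.K2
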