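import Pool.Agent.Lib.MP_b6f35e_al.K2.SYB
import Pool.Agent.Lib.MP_b6f35e_al.K2.TRL

/-!
# K_2 theorem (MP_b6f35e_al), module KAP: the homomorphism from the tensor product to `K_2(R[G])`
-/

set_option autoImplicit false

noncomputable section

namespace Pool.Agent.Lib.MPb6f35e.K2

universe u v

namespace KAP

open SYB

/-! ### commutators -/

section

variable {X : Type*} [Group X]

lemma cm_comm {a t : X} (h : a * t = t * a) : cm a t = 1 := by
  rw [cm, h, mul_inv_cancel_right, mul_inv_cancel]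

lemma cm_left {D y t : X} (hD : D * t = t * D) (hc : ∀ v, cm y t * v = v * cm y t) :
    cm (D⁻¹ * y) t = cm y t := by
  have h1 : cm (D⁻¹ * y) t = D⁻¹ * (cm y t * (t * D * t⁻¹)) := by
    simp only [cm]; group
  rw [h1, ← hD, mul_inv_cancel_right, hc, inv_mul_cancel_left]

lemma cm_right {D y t : X} (hD : D * t = t * D) (hc : ∀ v, cm t y * v = v * cm t y) :
    cm t (D⁻¹ * y) = cm t y := by
  have h1 : cm t (D⁻¹ * y) = t * D⁻¹ * t⁻¹ * (cm t y * D) := by
    simp only [cm]; group
  have h2 : t * D⁻¹ * t⁻¹ = D⁻¹ := by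
    rw [mul_inv_eq_iff_eq_mul, mul_inv_eq_iff_eq_mul, mul_assoc, ← hD, inv_mul_cancel_left]
  rw [h1, h2, hc, inv_mul_cancel_left]

lemma cm_mul_left {a b t : X} (hc : ∀ v, cm b t * v = v * cm b t) :
    cm (a * b) t = cm a t * cm b t := by
  have h1 : cm (a * b) t = a * (cm b t * (t * a⁻¹ * t⁻¹)) := by
    simp only [cm]; group
  rw [h1, hc, ← mul_assoc]
  simp only [cm]
  group

lemma cm_mul_right {a b t : X} (hc : ∀ v, cm t b * v = v * cm t b) :
    cm t (a * b) = cm t a * cm t b := by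
  have h1 : cm t (a * b) = t * a * t⁻¹ * (cm t b * a⁻¹) := by
    simp only [cm]; group
  rw [h1, hc, ← mul_assoc]
  rfl

lemma comm_cm {a b t : X} (ha : a * t = t * a) (hb : b * t = t * b) :
    cm a b * t = t * cm a b := by
  have h1 : Commute (cm a b) t :=
    ((Commute.mul_left (Commute.mul_left ha hb) (Commute.inv_left ha)).mul_left
      (Commute.inv_left hb))
  exact h1

end

/-! ### the symbols -/

variable {A : Type u} [Ring A]

lemma h02 : (0 : ℕ) ≠ 2 := by decide
lemma h13 : (1 : ℕ) ≠ 3 := by decide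
lemma h14 : (1 : ℕ) ≠ 4 := by decide
lemma h23 : (2 : ℕ) ≠ 3 := by decide
lemma h24 : (2 : ℕ) ≠ 4 := by decide

lemma symb_eq (z u : Aˣ) : symb z u = cm (hh zero_ne_one z : St ℕ A) (hh h02 u) := rfl

lemma cm_one_left {X : Type*} [Group X] (t : X) : cm 1 t = 1 := by simp [cm]
lemma cm_one_right {X : Type*} [Group X] (t : X) : cm t 1 = 1 := by simp [cm]

/-- `K_2`: the symbol of commuting units is central. -/
lemma symb_central {z u : Aˣ} (h : z * u = u * z) (v : St ℕ A) : symb z u * v = v * symb z u := by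
  refine ((act_hh zero_ne_one z).cm (act_hh h02 u)).central (fun k => ?_) v
  by_cases h0 : k = 0
  · subst h0
    simpa [dN] using cm_comm h
  · by_cases h1 : k = 1
    · subst h1
      simp [dN, cm]
    · simp [dN, cm, h0, h1]

lemma hh_disj {i j k l : ℕ} (h : i ≠ j) (hkl : k ≠ l) (h1 : k ≠ i) (h2 : k ≠ j) (h3 : l ≠ i)
    (h4 : l ≠ j) (x u : Aˣ) : (hh h x : St ℕ A) * hh hkl u = hh hkl u * hh h x := by
  have hw : ∀ u : Aˣ, cj (hh h x : St ℕ A) (ww hkl u) = ww hkl u := by
    intro u
    rw [ww, cj_mul_right, cj_mul_right, h_kl h x hkl h1 h2 h3 h4, h_kl h x hkl.symm h3 h4 h1 h2]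
  have h5 : cj (hh h x : St ℕ A) (hh hkl u) = hh hkl u := by
    conv_lhs => rw [hh.eq_def hkl, cj_mul_right, hw, hw]
    rfl
  rw [cj, mul_inv_eq_iff_eq_mul] at h5
  exact h5

lemma symb_mulz {z z' u : Aˣ} (h : z * u = u * z) (h' : z' * u = u * z') :
    symb (z * z') u = symb z u * symb z' u := by
  have hD : (hh zero_ne_one z * hh zero_ne_one z' * (hh zero_ne_one (z * z'))⁻¹ : St ℕ A) *
      hh h02 u = hh h02 u * (hh zero_ne_one z * hh zero_ne_one z' *
        (hh zero_ne_one (z * z'))⁻¹) := by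
    have hd : (fun k => dN 0 1 z k * dN 0 1 z' k * (dN 0 1 (z * z') k)⁻¹) =
        fun k => cm (dN 1 3 z⁻¹ k) (dN 1 4 z'⁻¹ k) := by
      funext k
      by_cases h0 : k = 0
      · subst h0
        simp [dN, cm]
      · by_cases h1 : k = 1
        · subst h1
          simp [dN, cm, mul_assoc]
        · by_cases h3 : k = 3
          · subst h3
            simp [dN, cm]
          · simp [dN, cm, h0, h1, h3]
    have hA := ((act_hh zero_ne_one z).mul (act_hh zero_ne_one z')).mul
      (act_hh zero_ne_one (z * z')).inv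
    have hA' := (act_hh h13 z⁻¹).cm (act_hh h14 z'⁻¹)
    rw [← hd] at hA'
    refine Act.commutes hA hA' ?_
    exact comm_cm (hh_disj h13 h02 (by decide) (by decide) (by decide) (by decide) _ _)
      (hh_disj h14 h02 (by decide) (by decide) (by decide) (by decide) _ _)
  have hc : ∀ v, cm (hh zero_ne_one z' : St ℕ A) (hh h02 u) * v =
      v * cm (hh zero_ne_one z' : St ℕ A) (hh h02 u) := symb_central h'
  have hc1 : ∀ v, cm (hh zero_ne_one z : St ℕ A) (hh h02 u) * v =
      v * cm (hh zero_ne_one z : St ℕ A) (hh h02 u) := symb_central h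
  have h1 := cm_mul_left (a := (hh zero_ne_one z : St ℕ A)) hc
  have h2 : (hh zero_ne_one (z * z') : St ℕ A) =
      (hh zero_ne_one z * hh zero_ne_one z' * (hh zero_ne_one (z * z'))⁻¹)⁻¹ *
        (hh zero_ne_one z * hh zero_ne_one z') := by group
  rw [symb_eq, symb_eq, symb_eq, ← h1]
  conv_lhs => rw [h2]
  refine cm_left hD ?_
  intro v
  rw [h1, mul_assoc, hc, ← mul_assoc, hc1, mul_assoc]

lemma symb_mulu {z u u' : Aˣ} (h : z * u = u * z) (h' : z * u' = u' * z) :
    symb z (u * u') = symb z u * symb z u' := by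
  have hD : (hh h02 u * hh h02 u' * (hh h02 (u * u'))⁻¹ : St ℕ A) *
      hh zero_ne_one z = hh zero_ne_one z * (hh h02 u * hh h02 u' * (hh h02 (u * u'))⁻¹) := by
    have hd : (fun k => dN 0 2 u k * dN 0 2 u' k * (dN 0 2 (u * u') k)⁻¹) =
        fun k => cm (dN 2 3 u⁻¹ k) (dN 2 4 u'⁻¹ k) := by
      funext k
      by_cases h0 : k = 0
      · subst h0
        simp [dN, cm]
      · by_cases h1 : k = 2
        · subst h1
          simp [dN, cm, mul_assoc]
        · by_cases h3 : k = 3
          · subst h3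
            simp [dN, cm]
          · simp [dN, cm, h0, h1, h3]
    have hA := ((act_hh h02 u).mul (act_hh h02 u')).mul (act_hh h02 (u * u')).inv
    have hA' := (act_hh h23 u⁻¹).cm (act_hh h24 u'⁻¹)
    rw [← hd] at hA'
    refine Act.commutes hA hA' ?_
    exact comm_cm (hh_disj h23 zero_ne_one (by decide) (by decide) (by decide) (by decide) _ _)
      (hh_disj h24 zero_ne_one (by decide) (by decide) (by decide) (by decide) _ _)
  have hc : ∀ v, cm (hh zero_ne_one z : St ℕ A) (hh h02 u') * v =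
      v * cm (hh zero_ne_one z : St ℕ A) (hh h02 u') := symb_central h'
  have hc1 : ∀ v, cm (hh zero_ne_one z : St ℕ A) (hh h02 u) * v =
      v * cm (hh zero_ne_one z : St ℕ A) (hh h02 u) := symb_central h
  have h1 := cm_mul_right (a := (hh h02 u : St ℕ A)) hc
  have h2 : (hh h02 (u * u') : St ℕ A) =
      (hh h02 u * hh h02 u' * (hh h02 (u * u'))⁻¹)⁻¹ * (hh h02 u * hh h02 u') := by group
  rw [symb_eq, symb_eq, symb_eq, ← h1]
  conv_lhs => rw [h2]
  refine cm_right hD ?_
  intro v
  rw [h1, mul_assoc, hc, ← mul_assoc, hc1, mul_assoc]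

lemma cj_ww {y : St ℕ A} {d : ℕ → Aˣ} (hy : Act y d) {i j : ℕ} (h : i ≠ j) {g : Aˣ}
    (hi : d i = g) (hj : d j = g) (u : Aˣ) : cj y (ww h u) = ww h (g * u * g⁻¹) := by
  rw [ww, ww, cj_mul_right, cj_mul_right, hy i j h, hy j i h.symm, hi, hj]
  congr 3
  simp [mul_assoc]

lemma cj_hh {y : St ℕ A} {d : ℕ → Aˣ} (hy : Act y d) {i j : ℕ} (h : i ≠ j) {g : Aˣ}
    (hi : d i = g) (hj : d j = g) (u : Aˣ) : cj y (hh h u) = hh h (g * u * g⁻¹) := by
  rw [hh, hh, cj_mul_right, cj_ww hy h hi hj, cj_ww hy h hi hj]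
  congr 2
  simp

lemma symb_conj {z u : Aˣ} (h : z * u = u * z) (g : Aˣ) :
    symb (g * z * g⁻¹) (g * u * g⁻¹) = symb z u := by
  have hA := ((act_hh (show (0 : ℕ) ≠ 5 by decide) g).mul
    (act_hh (show (1 : ℕ) ≠ 6 by decide) g)).mul (act_hh (show (2 : ℕ) ≠ 7 by decide) g)
  have h1 := cj_hh hA zero_ne_one (g := g) (by simp [dN]) (by simp [dN]) z
  have h2 := cj_hh hA h02 (g := g) (by simp [dN]) (by simp [dN]) u
  rw [symb_eq, ← h1, ← h2, ← cj_cm, ← symb_eq, cj, ← symb_central h, mul_inv_cancel_right]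

/-! ### the homomorphism -/

section

open scoped IsMulCommutative

variable {R : Type u} [CommRing R] {G : Type v} [Group G]

lemma gU_mul (z z' : G) : gU R (z * z') = gU R z * gU R z' := by
  apply Units.ext
  show MonoidAlgebra.single (z * z') (1 : R) = MonoidAlgebra.single z 1 * MonoidAlgebra.single z' 1
  rw [MonoidAlgebra.single_mul_single, one_mul]

lemma gU_comm (x : GenT R G) : gU R x.z * x.u = x.u * gU R x.z := by
  apply Units.ext
  show MonoidAlgebra.single x.z (1 : R) * x.u.val = x.u.val * MonoidAlgebra.single x.z 1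
  ext g
  rw [MonoidAlgebra.coeff_single_mul_apply, MonoidAlgebra.coeff_mul_single_apply, one_mul, mul_one]
  by_cases h : x.z⁻¹ * g ∈ x.C
  · have h1 := x.comm _ h
    rw [mul_inv_cancel_left] at h1
    have h2 : g * x.z⁻¹ = x.z⁻¹ * g := by rw [mul_inv_eq_iff_eq_mul]; exact h1
    rw [h2]
  · have h' : g * x.z⁻¹ ∉ x.C := by
      intro h2
      apply h
      have h1 := x.comm _ h2
      rw [inv_mul_cancel_right] at h1
      have h3 : x.z⁻¹ * g = g * x.z⁻¹ := by rw [inv_mul_eq_iff_eq_mul]; exact h1.symm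
      rw [h3]; exact h2
    rw [not_not.1 (fun h3 => h (x.ov _ h3)), not_not.1 (fun h3 => h' (x.ov _ h3))]

/-- The symbol of a generator as an element of `K_2(R[G])`. -/
def gen (x : GenT R G) : Additive (Subgroup.center (St ℕ (MonoidAlgebra R G))) :=
  Additive.ofMul ⟨x.symb, Subgroup.mem_center_iff.2 fun v => (symb_central (gU_comm x) v).symm⟩

lemma gen_val (x : GenT R G) : ((gen x).toMul : St ℕ (MonoidAlgebra R G)) = x.symb := rfl

lemma rel_ok (y : FreeAbelianGroup (GenT R G)) (hy : RelT R G y) :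
    FreeAbelianGroup.lift gen y = 0 := by
  cases hy with
  | mulz C hC cC z z' hz hz' hzz u hu hu' =>
    rw [map_sub, map_sub, FreeAbelianGroup.lift_apply_of, FreeAbelianGroup.lift_apply_of,
      FreeAbelianGroup.lift_apply_of, sub_sub, sub_eq_zero]
    apply Additive.toMul.injective
    apply Subtype.ext
    show K2.symb (gU R (z * z')) u = K2.symb (gU R z) u * K2.symb (gU R z') u
    rw [gU_mul]
    exact symb_mulz (gU_comm ⟨C, hC, cC, z, hz, u, hu, hu'⟩)
      (gU_comm ⟨C, hC, cC, z', hz', u, hu, hu'⟩)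
  | mulu C hC cC z hz u v hu hu' hv hv' huv huv' =>
    rw [map_sub, map_sub, FreeAbelianGroup.lift_apply_of, FreeAbelianGroup.lift_apply_of,
      FreeAbelianGroup.lift_apply_of, sub_sub, sub_eq_zero]
    apply Additive.toMul.injective
    apply Subtype.ext
    show K2.symb (gU R z) (u * v) = K2.symb (gU R z) u * K2.symb (gU R z) v
    exact symb_mulu (gU_comm ⟨C, hC, cC, z, hz, u, hu, hu'⟩)
      (gU_comm ⟨C, hC, cC, z, hz, v, hv, hv'⟩)
  | conj C K hC cC hK cK g hg z hz hz' u v hu hu' hv hv' h =>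
    rw [map_sub, FreeAbelianGroup.lift_apply_of, FreeAbelianGroup.lift_apply_of, sub_eq_zero]
    apply Additive.toMul.injective
    apply Subtype.ext
    show K2.symb (gU R z) v = K2.symb (gU R (g⁻¹ * z * g)) u
    have h1 : gU R g * u * (gU R g)⁻¹ = v := by
      rw [mul_inv_eq_iff_eq_mul]
      exact Units.ext h
    have h2 : gU R g * gU R (g⁻¹ * z * g) * (gU R g)⁻¹ = gU R z := by
      rw [mul_inv_eq_iff_eq_mul, ← gU_mul, ← gU_mul]
      congr 1
      group
    rw [← symb_conj (gU_comm ⟨C, hC, cC, g⁻¹ * z * g, hz', u, hu, hu'⟩) (gU R g)]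
    show _ = K2.symb (gU R g * gU R (g⁻¹ * z * g) * (gU R g)⁻¹) (gU R g * u * (gU R g)⁻¹)
    rw [h1, h2]

variable (R G) in
/-- The homomorphism. -/
def kap : TGrp R G →+ Additive (Subgroup.center (St ℕ (MonoidAlgebra R G))) :=
  QuotientAddGroup.lift _ (FreeAbelianGroup.lift gen) (by
    rw [AddSubgroup.closure_le]
    intro y hy
    exact rel_ok y hy)

lemma kap_cls (x : GenT R G) : kap R G (D1.cls (RelT R G) x) = gen x :=
  FreeAbelianGroup.lift_apply_of gen x

lemma kap_tsum (l : List (GenT R G)) :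
    ((kap R G (tsum R G l)).toMul : St ℕ (MonoidAlgebra R G)) = sprod R G l := by
  induction l with
  | nil =>
    show ((kap R G 0).toMul : St ℕ (MonoidAlgebra R G)) = 1
    rw [map_zero]
    rfl
  | cons a l ih =>
    have h1 : tsum R G (a :: l) = D1.cls (RelT R G) a + tsum R G l := by
      simp [tsum]
    have h2 : sprod R G (a :: l) = a.symb * sprod R G l := by
      simp [sprod]
    rw [h1, h2, map_add, kap_cls, ← ih]
    rfl

variable (R G) in
/-- The homomorphism to `K_2(R[G])`, multiplicative. -/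
def kapM : Multiplicative (TGrp R G) →* Subgroup.center (St ℕ (MonoidAlgebra R G)) where
  toFun x := (kap R G x.toAdd).toMul
  map_one' := by
    show (kap R G 0).toMul = 1
    rw [map_zero]
    rfl
  map_mul' x y := by
    show (kap R G (x.toAdd + y.toAdd)).toMul = _
    rw [map_add]
    rfl

lemma kapM_cls (x : GenT R G) :
    (kapM R G (Multiplicative.ofAdd (D1.cls (RelT R G) x)) : St ℕ (MonoidAlgebra R G)) = x.symb := by
  show ((kap R G (D1.cls (RelT R G) x)).toMul : St ℕ (MonoidAlgebra R G)) = x.symb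
  rw [kap_cls]
  rfl

lemma kapM_tsum (l : List (GenT R G)) :
    (kapM R G (Multiplicative.ofAdd (tsum R G l)) : St ℕ (MonoidAlgebra R G)) = sprod R G l :=
  kap_tsum l

lemma exists_list (x : TGrp R G) : ∃ l : List (GenT R G), tsum R G l = x := by
  have happ : ∀ l l' : List (GenT R G), tsum R G (l ++ l') = tsum R G l + tsum R G l' := by
    intro l l'
    simp [tsum]
  induction x using QuotientAddGroup.induction_on with
  | H y =>
    induction y using FreeAbelianGroup.induction_on with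
    | zero => exact ⟨[], rfl⟩
    | of x => exact ⟨[x], by simp [tsum]; rfl⟩
    | neg x =>
      refine ⟨[⟨x.C, x.fin, x.cyc, x.z⁻¹, fun h hh => ?_, x.u, x.ov, x.ov'⟩], ?_⟩
      · rw [inv_mul_eq_iff_eq_mul, ← mul_assoc, x.comm h hh, mul_inv_cancel_right]
      · have h1 := specTRL.{u, v}.zpowz R G x
          ⟨x.C, x.fin, x.cyc, x.z⁻¹, fun h hh => by
            rw [inv_mul_eq_iff_eq_mul, ← mul_assoc, x.comm h hh, mul_inv_cancel_right],
            x.u, x.ov, x.ov'⟩ (-1) rfl rfl (by simp)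
        simp only [tsum, List.map_cons, List.map_nil, List.sum_cons, List.sum_nil, add_zero]
        rw [h1, neg_smul, one_smul]
        rfl
    | add x y hx hy =>
      obtain ⟨l, hl⟩ := hx
      obtain ⟨l', hl'⟩ := hy
      exact ⟨l ++ l', by rw [happ, hl, hl']; rfl⟩

end

end KAP

end Pool.Agent.Lib.MPb6f35e.K2
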