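import Pool.Agent.Lib.MP_b6f35e_al.K2.SpecE
import Pool.Agent.Lib.MP_b6f35e_al.WH.L
import Pool.Agent.Lib.MP_b6f35e_al.WH.L2

/-!
# K_2 theorem (MP_b6f35e_al), module LGG: logarithms in `ℤ_p[G]`

`theorem specLGG : SpecLGG`.
-/

set_option autoImplicit false

noncomputable section

namespace Pool.Agent.Lib.MPb6f35e.K2

open Pool.Agent.Lib.MPb6f35e.WH

universe u v w

namespace LGGaux

/-! ### general groups -/

lemma lgP_congr {p : ℕ} [Fact p.Prime] {C : Type v} {C' : Type w} [Group C] [Group C']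
    {x : MonoidAlgebra ℤ_[p] C} {y : MonoidAlgebra ℤ_[p] C'} {c : C} {d : C'}
    (h : lgSeqP p x c = lgSeqP p y d) : lgP p x c = lgP p y d := by
  unfold lgP
  rw [h]

lemma lgP_zero {p : ℕ} [Fact p.Prime] {C : Type v} [Group C] {x : MonoidAlgebra ℤ_[p] C} {c : C}
    (h : ∀ j, lgSeqP p x c j = 0) : lgP p x c = 0 := by
  have h0 : lgSeqP p x c = fun _ => 0 := funext h
  have h1 : ∃ l, Filter.Tendsto (lgSeqP p x c) Filter.atTop (nhds l) :=
    ⟨0, by rw [h0]; exact tendsto_const_nhds⟩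
  have h2 : lgP p x c = h1.choose := by
    unfold lgP
    rw [dif_pos h1]
  rw [h2]
  have h4 : Filter.Tendsto (lgSeqP p x c) Filter.atTop (nhds 0) := by
    rw [h0]
    exact tendsto_const_nhds
  exact tendsto_nhds_unique h1.choose_spec h4

section

variable {R : Type u} [CommRing R] {C : Type v} {G : Type w} [Group C] [Group G] (φ : C →* G)

lemma map_coeff (hφ : Function.Injective φ) (y : MonoidAlgebra R C) (c : C) :
    (MonoidAlgebra.mapDomainRingHom R φ y).coeff (φ c) = y.coeff c := by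
  show (MonoidAlgebra.mapDomain φ y).coeff (φ c) = _
  rw [MonoidAlgebra.coeff_mapDomain]
  exact Finsupp.mapDomain_apply hφ _ _

lemma map_coeff_out (y : MonoidAlgebra R C) (g : G) (hg : g ∉ Set.range φ) :
    (MonoidAlgebra.mapDomainRingHom R φ y).coeff g = 0 := by
  show (MonoidAlgebra.mapDomain φ y).coeff g = _
  rw [MonoidAlgebra.coeff_mapDomain]
  exact Finsupp.mapDomain_of_notMem_range _ _ hg

lemma map_inj (hφ : Function.Injective φ) :
    Function.Injective (MonoidAlgebra.mapDomainRingHom R φ) := by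
  intro a b hab
  ext c
  rw [← map_coeff φ hφ a c, ← map_coeff φ hφ b c, hab]

end

lemma lgP_map {p : ℕ} [Fact p.Prime] {C : Type v} {G : Type w} [Group C] [Group G] (φ : C →* G)
    (hφ : Function.Injective φ) (y : MonoidAlgebra ℤ_[p] C) (c : C) :
    lgP p (MonoidAlgebra.mapDomainRingHom ℤ_[p] φ y) (φ c) = lgP p y c := by
  apply lgP_congr
  funext j
  unfold lgSeqP
  have h : (MonoidAlgebra.mapDomainRingHom ℤ_[p] φ y) ^ (p ^ j) - 1 =
      MonoidAlgebra.mapDomainRingHom ℤ_[p] φ (y ^ (p ^ j) - 1) := by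
    rw [map_sub, map_pow, map_one]
  rw [h, map_coeff φ hφ]

lemma oneModP_map {p : ℕ} [Fact p.Prime] {C : Type v} {G : Type w} [Group C] [Group G]
    (φ : C →* G) (y : MonoidAlgebra ℤ_[p] C) (h : OneModP p y) :
    OneModP p (MonoidAlgebra.mapDomainRingHom ℤ_[p] φ y) := by
  obtain ⟨a, rfl⟩ := h
  refine ⟨MonoidAlgebra.mapDomainRingHom ℤ_[p] φ a, ?_⟩
  rw [map_add, map_one]
  congr 1
  exact MonoidAlgebra.mapDomain_smul _ _ _

/-! ### subgroups -/

section sub

variable {R : Type u} [CommRing R] {G : Type v} [Group G] (C : Subgroup G)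

/-- The restriction to `C`. -/
def res (x : MonoidAlgebra R G) : MonoidAlgebra R C :=
  MonoidAlgebra.ofCoeff (x.coeff.comapDomain (fun c : C => (c : G))
    Subtype.val_injective.injOn)

lemma res_coeff (x : MonoidAlgebra R G) (c : C) : (res C x).coeff c = x.coeff c := rfl

lemma map_res (x : MonoidAlgebra R G) (h : Supp C x) :
    MonoidAlgebra.mapDomainRingHom R C.subtype (res C x) = x := by
  ext g
  by_cases hg : g ∈ C
  · exact (map_coeff C.subtype Subtype.val_injective (res C x) ⟨g, hg⟩).trans rfl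
  · rw [map_coeff_out C.subtype _ g (by rintro ⟨c, rfl⟩; exact hg c.2)]
    by_contra hne
    exact hg (h g fun h0 => hne h0.symm)

lemma supp_map (y : MonoidAlgebra R C) :
    Supp C (MonoidAlgebra.mapDomainRingHom R C.subtype y) := by
  intro g hg
  by_contra hn
  exact hg (map_coeff_out C.subtype _ g (by rintro ⟨c, rfl⟩; exact hn c.2))

end sub

lemma res_oneModP {p : ℕ} [Fact p.Prime] {G : Type v} [Group G] (C : Subgroup G)
    (x : MonoidAlgebra ℤ_[p] G) (h : OneModP p x) : OneModP p (res C x) := by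
  obtain ⟨a, rfl⟩ := h
  refine ⟨res C a, ?_⟩
  ext c
  have h1 : (1 : MonoidAlgebra ℤ_[p] G).coeff (c : G) = (1 : MonoidAlgebra ℤ_[p] C).coeff c := by
    have h2 := map_coeff C.subtype Subtype.val_injective (1 : MonoidAlgebra ℤ_[p] C) c
    rw [map_one] at h2
    exact h2
  show (1 : MonoidAlgebra ℤ_[p] G).coeff (c : G) + (p : ℤ_[p]) * a.coeff c =
    (1 : MonoidAlgebra ℤ_[p] C).coeff c + (p : ℤ_[p]) * a.coeff c
  rw [h1]

lemma lgP_res {p : ℕ} [Fact p.Prime] {G : Type v} [Group G] (C : Subgroup G)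
    (x : MonoidAlgebra ℤ_[p] G) (h : Supp C x) (c : C) :
    lgP p x (c : G) = lgP p (res C x) c := by
  have h1 := lgP_map C.subtype Subtype.val_injective (res C x) c
  rw [map_res C x h] at h1
  exact h1

lemma lgP_out {p : ℕ} [Fact p.Prime] {G : Type v} [Group G] (C : Subgroup G)
    (x : MonoidAlgebra ℤ_[p] G) (h : Supp C x) (g : G) (hg : g ∉ C) : lgP p x g = 0 := by
  apply lgP_zero
  intro j
  unfold lgSeqP
  have h1 : x ^ (p ^ j) - 1 =
      MonoidAlgebra.mapDomainRingHom ℤ_[p] C.subtype ((res C x) ^ (p ^ j) - 1) := by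
    rw [map_sub, map_pow, map_one, map_res C x h]
  rw [h1, map_coeff_out C.subtype _ g (by rintro ⟨c, rfl⟩; exact hg c.2)]
  simp

lemma supp_mul {R : Type u} [CommRing R] {G : Type v} [Group G] (C : Subgroup G)
    (x y : MonoidAlgebra R G) (hx : Supp C x) (hy : Supp C y) : Supp C (x * y) := by
  rw [← map_res C x hx, ← map_res C y hy, ← map_mul]
  exact supp_map C _

lemma res_mul {R : Type u} [CommRing R] {G : Type v} [Group G] (C : Subgroup G)
    (x y : MonoidAlgebra R G) (hx : Supp C x) (hy : Supp C y) :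
    res C (x * y) = res C x * res C y := by
  apply map_inj (R := R) C.subtype Subtype.val_injective
  rw [map_mul, map_res C _ (supp_mul C x y hx hy), map_res C x hx, map_res C y hy]

lemma res_one {R : Type u} [CommRing R] {G : Type v} [Group G] (C : Subgroup G) :
    res C (1 : MonoidAlgebra R G) = 1 := by
  ext c
  have h2 := map_coeff C.subtype Subtype.val_injective (1 : MonoidAlgebra R C) c
  rw [map_one] at h2
  exact h2

lemma conj_coeff {R : Type u} [CommRing R] {G : Type v} [Group G] (z : MonoidAlgebra R G)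
    (t g : G) : (MonoidAlgebra.single t 1 * z * MonoidAlgebra.single t⁻¹ 1).coeff (t * g * t⁻¹) =
      z.coeff g := by
  rw [MonoidAlgebra.coeff_mul_single_apply, MonoidAlgebra.coeff_single_mul_apply]
  rw [one_mul, mul_one]
  congr 1
  group

lemma conj_pow {R : Type u} [CommRing R] {G : Type v} [Group G] (x : MonoidAlgebra R G)
    (t : G) (n : ℕ) : (MonoidAlgebra.single t 1 * x * MonoidAlgebra.single t⁻¹ 1) ^ n =
      MonoidAlgebra.single t 1 * x ^ n * MonoidAlgebra.single t⁻¹ 1 := by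
  have h1 : (MonoidAlgebra.single t 1 * MonoidAlgebra.single t⁻¹ 1 : MonoidAlgebra R G) = 1 := by
    rw [MonoidAlgebra.single_mul_single, mul_inv_cancel, one_mul, MonoidAlgebra.one_def]
  have h2 : (MonoidAlgebra.single t⁻¹ 1 * MonoidAlgebra.single t 1 : MonoidAlgebra R G) = 1 := by
    rw [MonoidAlgebra.single_mul_single, inv_mul_cancel, one_mul, MonoidAlgebra.one_def]
  induction n with
  | zero => rw [pow_zero, pow_zero, mul_one, h1]
  | succ n ih =>
    rw [pow_succ, ih, pow_succ]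
    calc MonoidAlgebra.single t 1 * x ^ n * MonoidAlgebra.single t⁻¹ 1 *
          (MonoidAlgebra.single t 1 * x * MonoidAlgebra.single t⁻¹ 1)
        = MonoidAlgebra.single t 1 * x ^ n * (MonoidAlgebra.single t⁻¹ 1 *
          MonoidAlgebra.single t 1) * x * MonoidAlgebra.single t⁻¹ 1 := by
          simp only [mul_assoc]
      _ = _ := by rw [h2, mul_one]; simp only [mul_assoc]

lemma lgP_conj {p : ℕ} [Fact p.Prime] {G : Type v} [Group G] (x : MonoidAlgebra ℤ_[p] G)
    (t g : G) : lgP p (MonoidAlgebra.single t 1 * x * MonoidAlgebra.single t⁻¹ 1) (t * g * t⁻¹) =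
      lgP p x g := by
  apply lgP_congr
  funext j
  unfold lgSeqP
  have h1 : (MonoidAlgebra.single t 1 * MonoidAlgebra.single t⁻¹ 1 :
      MonoidAlgebra ℤ_[p] G) = 1 := by
    rw [MonoidAlgebra.single_mul_single, mul_inv_cancel, one_mul, MonoidAlgebra.one_def]
  have h : (MonoidAlgebra.single t 1 * x * MonoidAlgebra.single t⁻¹ 1) ^ (p ^ j) - 1 =
      MonoidAlgebra.single t 1 * (x ^ (p ^ j) - 1) * MonoidAlgebra.single t⁻¹ 1 := by
    rw [conj_pow, mul_sub, sub_mul, mul_one, h1]
  rw [h, conj_coeff]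

lemma ring_map {p : ℕ} [Fact p.Prime] {R₀ : Type u} [CommRing R₀] (i : R₀ →+* ℤ_[p])
    {C : Type v} {G : Type w} [Group C] [Group G] (φ : C →* G) (a : MonoidAlgebra R₀ C) :
    MonoidAlgebra.mapRingHom G i (MonoidAlgebra.mapDomainRingHom R₀ φ a) =
      MonoidAlgebra.mapDomainRingHom ℤ_[p] φ (MonoidAlgebra.mapRingHom C i a) :=
  congrArg (fun F : MonoidAlgebra R₀ C →+* MonoidAlgebra ℤ_[p] G => F a)
    (MonoidAlgebra.mapRingHom_comp_mapDomainRingHom i φ)

lemma nrm_gen {p : ℕ} [Fact p.Prime] (hp2 : p ≠ 2) {R₀ : Type u} [CommRing R₀]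
    (i : R₀ →+* ℤ_[p]) {G : Type v} [Group G] (C : Type v) [CommGroup C] [Finite C]
    (φ : C →* G) (hφ : Function.Injective φ) (D : Subgroup G) (x : (MonoidAlgebra R₀ C)ˣ)
    (h1 : OneModP p (MonoidAlgebra.mapRingHom C i x.val)) :
    ∃ y : (MonoidAlgebra R₀ G)ˣ, Supp D y.val ∧ Supp D y.inv ∧
      OneModP p (MonoidAlgebra.mapRingHom G i y.val) ∧
      ∃ m : ℕ, 0 < m ∧ ∀ c : C, φ c ∈ D → lgP p (MonoidAlgebra.mapRingHom G i y.val) (φ c) =
        (m : ℚ_[p]) * lgP p (MonoidAlgebra.mapRingHom C i x.val) c := by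
  obtain ⟨y, hy1, hy2⟩ := specL2P_of specLP p hp2 R₀ i C (D.comap φ) x h1
  set f : D.comap φ →* G := φ.comp (D.comap φ).subtype with hf
  have hfi : Function.Injective f := hφ.comp Subtype.val_injective
  have hs : ∀ a : MonoidAlgebra R₀ (D.comap φ),
      Supp D (MonoidAlgebra.mapDomainRingHom R₀ f a) := by
    intro a g hg
    by_contra hn
    refine hg (map_coeff_out f a g ?_)
    rintro ⟨c, rfl⟩
    exact hn c.2
  refine ⟨Units.map (MonoidAlgebra.mapDomainRingHom R₀ f).toMonoidHom y, hs _, hs _, ?_,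
    (D.comap φ).index, Nat.pos_of_ne_zero Subgroup.index_ne_zero_of_finite, ?_⟩
  · have h2 : MonoidAlgebra.mapRingHom G i (Units.map
        (MonoidAlgebra.mapDomainRingHom R₀ f).toMonoidHom y).val =
        MonoidAlgebra.mapDomainRingHom ℤ_[p] f (MonoidAlgebra.mapRingHom _ i y.val) :=
      ring_map i f y.val
    rw [h2]
    exact oneModP_map f _ hy1
  · intro c hc
    have h2 : MonoidAlgebra.mapRingHom G i (Units.map
        (MonoidAlgebra.mapDomainRingHom R₀ f).toMonoidHom y).val =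
        MonoidAlgebra.mapDomainRingHom ℤ_[p] f (MonoidAlgebra.mapRingHom _ i y.val) :=
      ring_map i f y.val
    rw [h2]
    have h3 := lgP_map f hfi (MonoidAlgebra.mapRingHom _ i y.val) ⟨c, hc⟩
    exact h3.trans (hy2 ⟨c, hc⟩)

/-- The restriction of a unit. -/
def resU {R : Type u} [CommRing R] {G : Type v} [Group G] (C : Subgroup G)
    (x : (MonoidAlgebra R G)ˣ) (hx : Supp C x.val) (hx' : Supp C x.inv) :
    (MonoidAlgebra R C)ˣ :=
  ⟨res C x.val, res C x.inv,
    by rw [← res_mul C _ _ hx hx', x.val_inv, res_one],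
    by rw [← res_mul C _ _ hx' hx, x.inv_val, res_one]⟩

lemma res_ring {p : ℕ} [Fact p.Prime] {R₀ : Type u} [CommRing R₀] (i : R₀ →+* ℤ_[p])
    {G : Type v} [Group G] (C : Subgroup G) (x : MonoidAlgebra R₀ G) :
    MonoidAlgebra.mapRingHom C i (res C x) = res C (MonoidAlgebra.mapRingHom G i x) := by
  ext c
  rw [MonoidAlgebra.coeff_mapRingHom, res_coeff, res_coeff, MonoidAlgebra.coeff_mapRingHom]

lemma supp_ring {p : ℕ} [Fact p.Prime] {R₀ : Type u} [CommRing R₀] (i : R₀ →+* ℤ_[p])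
    {G : Type v} [Group G] (C : Subgroup G) (x : MonoidAlgebra R₀ G) (hx : Supp C x) :
    Supp C (MonoidAlgebra.mapRingHom G i x) := by
  intro g hg
  apply hx g
  intro h0
  apply hg
  rw [MonoidAlgebra.coeff_mapRingHom, h0, map_zero]

end LGGaux

open LGGaux in
theorem specLGG : SpecLGG.{u, v} where
  pull p _ hp2 G _ C y c := lgP_map C.subtype Subtype.val_injective y c
  out p _ hp2 G _ C x hx g hg := lgP_out C x hx g hg
  mul p _ hp2 G _ C hC x y hx hy hx1 hy1 g := by
    by_cases hg : g ∈ C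
    · letI : CommGroup C := IsCyclic.commGroup
      have h1 := specLP.mul p hp2 C (res C x) (res C y) (res_oneModP C x hx1)
        (res_oneModP C y hy1) ⟨g, hg⟩
      have h2 := lgP_res C (x * y) (supp_mul C x y hx hy) ⟨g, hg⟩
      have h3 := lgP_res C x hx ⟨g, hg⟩
      have h4 := lgP_res C y hy ⟨g, hg⟩
      rw [res_mul C x y hx hy] at h2
      exact h2.trans (h1.trans (by rw [h3, h4]))
    · rw [lgP_out C _ (supp_mul C x y hx hy) g hg, lgP_out C x hx g hg, lgP_out C y hy g hg,
        add_zero]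
  inj p _ hp2 G _ C hC x hx hx1 h := by
    let _i : CommGroup C := IsCyclic.commGroup
    have h1 := specLP.inj p hp2 C (res C x) (res_oneModP C x hx1) (fun c => by
      have h3 := lgP_res C x hx c
      rw [h] at h3
      exact h3.symm)
    have h2 := map_res C x hx
    rw [← h2]
    exact (congrArg (MonoidAlgebra.mapDomainRingHom ℤ_[p] C.subtype) h1).trans (map_one _)
  conj p _ hp2 G _ x t g := lgP_conj x t g
  nrm p _ hp2 R₀ _ i G _ C hfin hC D hD x hx hx' h1 := by
    let _i : CommGroup C := IsCyclic.commGroup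
    have h2 : OneModP p (MonoidAlgebra.mapRingHom C i (res C x.val)) := by
      rw [res_ring]
      exact res_oneModP C _ h1
    obtain ⟨y, y1, y2, y3, m, hm, y4⟩ := nrm_gen hp2 i C C.subtype Subtype.val_injective D
      (resU C x hx hx') h2
    refine ⟨y, y1, y2, y3, m, hm, ?_⟩
    intro g hg
    have h3 := y4 ⟨g, hD hg⟩ hg
    have h4 := lgP_res C (MonoidAlgebra.mapRingHom G i x.val) (supp_ring i C _ hx) ⟨g, hD hg⟩
    rw [← res_ring] at h4
    rw [h4]
    exact h3

end Pool.Agent.Lib.MPb6f35e.K2
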