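import Pool.Agent.Lib.MP_b6f35e_al.K2.SpecE
import Pool.Agent.Lib.MP_b6f35e_al.WH.L3

/-!
# K_2 theorem, module LIM: the limit
-/

set_option autoImplicit false

noncomputable section

namespace Pool.Agent.Lib.MPb6f35e.K2

open Pool.Agent.Lib.MPb6f35e.WH

universe u v w x

namespace LIMaux

lemma pow_one_add {A : Type*} [CommRing A] (N b : A) (a : ℕ) :
    ∃ w, (1 + N * b) ^ a = 1 + N * (a * b + N * w) := by
  induction a with
  | zero => exact ⟨0, by simp⟩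
  | succ a ih =>
    obtain ⟨w, hw⟩ := ih
    refine ⟨w + (a * b + N * w) * b, ?_⟩
    rw [pow_succ, hw]
    push_cast
    ring

section

variable {p : ℕ} [Fact p.Prime] {C : Type v} [CommGroup C]

lemma cancelN (e : ℕ) {y y' : MonoidAlgebra ℤ_[p] C}
    (h : ((p ^ (e + 1) : ℕ) : MonoidAlgebra ℤ_[p] C) * y =
      ((p ^ (e + 1) : ℕ) : MonoidAlgebra ℤ_[p] C) * y') : y = y' := by
  have h0 : ((p ^ (e + 1) : ℕ) : ℤ_[p]) ≠ 0 := by
    exact_mod_cast pow_ne_zero _ (Fact.out : p.Prime).ne_zero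
  have h1 : ∀ y : MonoidAlgebra ℤ_[p] C, ((p ^ (e + 1) : ℕ) : MonoidAlgebra ℤ_[p] C) * y =
      ((p ^ (e + 1) : ℕ) : ℤ_[p]) • y := fun y => by
    rw [Algebra.smul_def, map_natCast]
  rw [h1, h1] at h
  ext c
  have h2 := DFunLike.congr_fun (congrArg MonoidAlgebra.coeff h) c
  rw [MonoidAlgebra.coeff_smul, MonoidAlgebra.coeff_smul, Finsupp.smul_apply, Finsupp.smul_apply,
    smul_eq_mul, smul_eq_mul] at h2
  exact mul_left_cancel₀ h0 h2

variable [Fintype C]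

/-- `b ↦ Σ_h b_h t(h)` -/
def V (t : C → ℤ_[p]) : MonoidAlgebra ℤ_[p] C →ₗ[ℤ_[p]] ℤ_[p] where
  toFun b := ∑ h, b.coeff h * t h
  map_add' x y := by
    rw [← Finset.sum_add_distrib]
    refine Finset.sum_congr rfl fun c _ => ?_
    rw [MonoidAlgebra.coeff_add, Finsupp.add_apply, add_mul]
  map_smul' s x := by
    rw [RingHom.id_apply, Finset.smul_sum]
    refine Finset.sum_congr rfl fun c _ => ?_
    rw [MonoidAlgebra.coeff_smul, Finsupp.smul_apply, smul_mul_assoc]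

lemma V_apply (t : C → ℤ_[p]) (b : MonoidAlgebra ℤ_[p] C) : V t b = ∑ h, b.coeff h * t h := rfl

lemma V_single (t : C → ℤ_[p]) (d : C) (s : ℤ_[p]) : V t (MonoidAlgebra.single d s) = s * t d := by
  rw [V_apply, Finset.sum_eq_single d]
  · rw [MonoidAlgebra.coeff_single, Finsupp.single_eq_same]
  · intro c _ hc
    rw [MonoidAlgebra.coeff_single, Finsupp.single_eq_of_ne hc, zero_mul]
  · intro h
    exact absurd (Finset.mem_univ _) h

lemma V_powC (t : C → ℤ_[p]) (b : MonoidAlgebra ℤ_[p] C) :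
    V t (powC ℤ_[p] C p b) = V (fun h => t (h ^ p)) b := by
  induction b using MonoidAlgebra.induction_linear with
  | zero => simp
  | add x y hx hy => rw [map_add, map_add, hx, hy, map_add]
  | single c z =>
    have h1 : powC ℤ_[p] C p (MonoidAlgebra.single c z) = MonoidAlgebra.single (c ^ p) z := by
      simp [powC]
    rw [h1, V_single, V_single]

lemma V_coe (t : C → ℤ_[p]) (b : MonoidAlgebra ℤ_[p] C) :
    ((V t b : ℤ_[p]) : ℚ_[p]) = ∑ h, ((t h : ℤ_[p]) : ℚ_[p]) * ((b.coeff h : ℤ_[p]) : ℚ_[p]) := by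
  rw [V_apply, PadicInt.coe_sum]
  refine Finset.sum_congr rfl fun c _ => ?_
  push_cast
  ring

lemma vl_eq {G : Type v} [Group G] (e : ℕ) (c : G) (X : G → ℤ_[p]) (z : G) (φ : C →* G)
    (b : MonoidAlgebra ℤ_[p] C) :
    vl (PadicInt.toZModPow (e + 1) : ℤ_[p] →+* ZMod (p ^ (e + 1))) c X z φ b =
      PadicInt.toZModPow (e + 1) (V (fun h => Th c X z (φ h)) b) := by
  rw [vl, Finsupp.sum_fintype _ _ (fun c => by rw [zero_mul, map_zero]), V_apply, map_sum]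

/-- from `b` for `x` to `b'` for `x^a` -/
lemma step (x : (MonoidAlgebra ℤ_[p] C)ˣ) (a e : ℕ) (b b' : MonoidAlgebra ℤ_[p] C)
    (hb : (x : MonoidAlgebra ℤ_[p] C) ^ (p ^ (e + 1)) =
      (powC ℤ_[p] C p x) ^ (p ^ e) * (1 + (p ^ (e + 1)) • b))
    (hb' : ((x ^ a : (MonoidAlgebra ℤ_[p] C)ˣ) : MonoidAlgebra ℤ_[p] C) ^ (p ^ (e + 1)) =
      (powC ℤ_[p] C p ((x ^ a : (MonoidAlgebra ℤ_[p] C)ˣ) : MonoidAlgebra ℤ_[p] C)) ^ (p ^ e) *
        (1 + (p ^ (e + 1)) • b')) :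
    ∃ w, b' = (a : ℤ_[p]) • b + ((p : ℤ_[p]) ^ (e + 1)) • w := by
  obtain ⟨w, hw⟩ := pow_one_add (((p ^ (e + 1) : ℕ) : MonoidAlgebra ℤ_[p] C)) b a
  refine ⟨w, ?_⟩
  have h1 : (1 + (p ^ (e + 1)) • b') = (1 + (p ^ (e + 1)) • b) ^ a := by
    obtain ⟨U, hU⟩ : ∃ U : (MonoidAlgebra ℤ_[p] C)ˣ, (U : MonoidAlgebra ℤ_[p] C) =
        (powC ℤ_[p] C p x) ^ (p ^ e * a) :=
      ⟨(Units.map (powC ℤ_[p] C p).toMonoidHom x) ^ (p ^ e * a), rfl⟩
    apply (Units.mul_right_inj U).1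
    rw [hU]
    calc (powC ℤ_[p] C p x) ^ (p ^ e * a) * (1 + (p ^ (e + 1)) • b')
        = (powC ℤ_[p] C p ((x ^ a : (MonoidAlgebra ℤ_[p] C)ˣ) : MonoidAlgebra ℤ_[p] C)) ^ (p ^ e) *
          (1 + (p ^ (e + 1)) • b') := by
          rw [Units.val_pow_eq_pow_val, map_pow, ← pow_mul, mul_comm (p ^ e) a]
      _ = ((x : MonoidAlgebra ℤ_[p] C) ^ (p ^ (e + 1))) ^ a := by
          rw [← hb', Units.val_pow_eq_pow_val, ← pow_mul, ← pow_mul, mul_comm]
      _ = _ := by rw [hb, mul_pow, ← pow_mul]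
  rw [nsmul_eq_mul, nsmul_eq_mul, hw, add_right_inj] at h1
  have h2 := cancelN e h1
  rw [h2, Algebra.smul_def, Algebra.smul_def, map_pow, map_natCast, map_natCast]
  push_cast
  rfl

end

end LIMaux

open LIMaux L3

theorem specLIM (hFLV : SpecFLV.{v}) (hEXB : SpecEXB.{0, v}) (hL : SpecLP.{v}) :
    SpecLIM.{v} := by
  intro p _ hp G _ n m R hm C _ _ φ z hz x hrel c X hX hXc a ha hone
  have hpr : p.Prime := Fact.out
  have hp0 : (p : ℚ_[p]) ≠ 0 := by exact_mod_cast hpr.ne_zero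
  have hne : ∀ e, NeZero (p ^ e) := fun e => ⟨pow_ne_zero _ hpr.ne_zero⟩
  set xa : ∀ j, (MonoidAlgebra ℤ_[p] (C j))ˣ := fun j => x j ^ a with hxa
  have hxa1 : ∀ j, OneModP p (xa j : MonoidAlgebra ℤ_[p] (C j)) := fun j => by
    rw [hxa, Units.val_pow_eq_pow_val]; exact hone j
  set t : ∀ j, C j → ℤ_[p] := fun j h => Th c X (z j) (φ j h) with ht
  set t' : ∀ j, C j → ℤ_[p] := fun j h => Th c X (z j) (φ j (h ^ p)) with ht'
  have key : ∀ e : ℕ, ∃ s : ℤ_[p],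
      (m : ℚ_[p]) * ∑ j, ((∑ h, ((t j h : ℤ_[p]) : ℚ_[p]) *
          lgSeqP p (xa j : MonoidAlgebra ℤ_[p] (C j)) h (e + 1)) -
        (p : ℚ_[p])⁻¹ * ∑ h, ((t' j h : ℤ_[p]) : ℚ_[p]) *
          lgSeqP p (xa j : MonoidAlgebra ℤ_[p] (C j)) h e) =
        (p : ℚ_[p]) ^ (e + 1) * (s : ℚ_[p]) := by
    intro e
    haveI := hne e
    haveI := hne (e + 1)
    choose b hb using fun j => hEXB ℤ_[p] p e (frob p) (C j) (x j)
    have h1 := hFLV p hp G n m R C φ z hz x hrel c X hX hXc e b hb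
    choose a1 ha1 using fun j => exists_a p (xa j : MonoidAlgebra ℤ_[p] (C j)) (hxa1 j) e
    choose a2 ha2 using fun j => exists_a p (xa j : MonoidAlgebra ℤ_[p] (C j)) (hxa1 j) (e + 1)
    choose b' w hb' hw using fun j => exists_b (xa j) e (a1 j) (a2 j) (ha1 j) (ha2 j)
    choose w' hw' using fun j => step (x j) a e (b j) (b' j) (hb j) (hb' j)
    rw [Finset.sum_congr rfl fun j _ => vl_eq e c X (z j) (φ j) (b j), ← map_sum, ← map_nsmul] at h1
    have h2 : m • ∑ j, V (t j) (b j) ∈ RingHom.ker (PadicInt.toZModPow (p := p) (e + 1)) := h1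
    rw [PadicInt.ker_toZModPow, Ideal.mem_span_singleton] at h2
    obtain ⟨s, hs⟩ := h2
    refine ⟨a * s + m * ∑ j, (V (t j) (w' j) - V (t j) (w j)), ?_⟩
    have h3 : ∀ j, (∑ h, ((t j h : ℤ_[p]) : ℚ_[p]) *
          lgSeqP p (xa j : MonoidAlgebra ℤ_[p] (C j)) h (e + 1)) -
        (p : ℚ_[p])⁻¹ * ∑ h, ((t' j h : ℤ_[p]) : ℚ_[p]) *
          lgSeqP p (xa j : MonoidAlgebra ℤ_[p] (C j)) h e =
        ((a * V (t j) (b j) + (p : ℤ_[p]) ^ (e + 1) * (V (t j) (w' j) - V (t j) (w j)) : ℤ_[p]) :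
          ℚ_[p]) := by
      intro j
      have e1 : ∑ h, ((t j h : ℤ_[p]) : ℚ_[p]) *
          lgSeqP p (xa j : MonoidAlgebra ℤ_[p] (C j)) h (e + 1) =
          (p : ℚ_[p]) * ((V (t j) (a2 j) : ℤ_[p]) : ℚ_[p]) := by
        rw [V_coe, Finset.mul_sum]
        refine Finset.sum_congr rfl fun h _ => ?_
        rw [lgSeqP_eq (ha2 j) h]
        ring
      have e2 : ∑ h, ((t' j h : ℤ_[p]) : ℚ_[p]) *
          lgSeqP p (xa j : MonoidAlgebra ℤ_[p] (C j)) h e =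
          (p : ℚ_[p]) * ((V (t' j) (a1 j) : ℤ_[p]) : ℚ_[p]) := by
        rw [V_coe, Finset.mul_sum]
        refine Finset.sum_congr rfl fun h _ => ?_
        rw [lgSeqP_eq (ha1 j) h]
        ring
      have e3 : V (t' j) (a1 j) = V (t j) (powC ℤ_[p] (C j) p (a1 j)) := (V_powC (t j) (a1 j)).symm
      have e4 : (a : ℤ_[p]) * V (t j) (b j) + (p : ℤ_[p]) ^ (e + 1) * V (t j) (w' j) =
          (p : ℤ_[p]) * V (t j) (a2 j) - V (t j) (powC ℤ_[p] (C j) p (a1 j)) +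
            (p : ℤ_[p]) ^ (e + 1) * V (t j) (w j) := by
        have h5 := congrArg (V (t j)) ((hw' j).symm.trans (hw j))
        simpa only [map_add, map_sub, map_smul, smul_eq_mul] using h5
      rw [e1, e2, e3]
      have e5 := congrArg (fun y : ℤ_[p] => (y : ℚ_[p])) e4
      push_cast at e5 ⊢
      rw [inv_mul_cancel_left₀ hp0]
      linear_combination -e5
    rw [Finset.sum_congr rfl fun j _ => h3 j, ← PadicInt.coe_sum]
    have h6 : (m : ℤ_[p]) * ∑ j, ((a : ℤ_[p]) * V (t j) (b j) +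
          (p : ℤ_[p]) ^ (e + 1) * (V (t j) (w' j) - V (t j) (w j))) =
        (p : ℤ_[p]) ^ (e + 1) * (a * s + m * ∑ j, (V (t j) (w' j) - V (t j) (w j))) := by
      rw [nsmul_eq_mul] at hs
      rw [Finset.sum_add_distrib, ← Finset.mul_sum, ← Finset.mul_sum]
      linear_combination (a : ℤ_[p]) * hs
    have h7 := congrArg (fun y : ℤ_[p] => (y : ℚ_[p])) h6
    push_cast at h7 ⊢
    exact h7
  choose s hs using key
  set L : ∀ j, C j → ℚ_[p] := fun j => lgP p (xa j : MonoidAlgebra ℤ_[p] (C j)) with hLdef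
  have t1 : ∀ j h, Filter.Tendsto (fun e => lgSeqP p (xa j : MonoidAlgebra ℤ_[p] (C j)) h (e + 1))
      Filter.atTop (nhds (L j h)) := fun j h =>
    (hL.tends p hp (C j) (xa j : MonoidAlgebra ℤ_[p] (C j)) (hxa1 j) h).comp
      (Filter.tendsto_add_atTop_nat 1)
  have t2 : ∀ j h, Filter.Tendsto (fun e => lgSeqP p (xa j : MonoidAlgebra ℤ_[p] (C j)) h e)
      Filter.atTop (nhds (L j h)) := fun j h =>
    hL.tends p hp (C j) (xa j : MonoidAlgebra ℤ_[p] (C j)) (hxa1 j) h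
  have t3 : Filter.Tendsto (fun e => (m : ℚ_[p]) * ∑ j, ((∑ h, ((t j h : ℤ_[p]) : ℚ_[p]) *
          lgSeqP p (xa j : MonoidAlgebra ℤ_[p] (C j)) h (e + 1)) -
        (p : ℚ_[p])⁻¹ * ∑ h, ((t' j h : ℤ_[p]) : ℚ_[p]) *
          lgSeqP p (xa j : MonoidAlgebra ℤ_[p] (C j)) h e)) Filter.atTop
      (nhds ((m : ℚ_[p]) * ∑ j, ((∑ h, ((t j h : ℤ_[p]) : ℚ_[p]) * L j h) -
        (p : ℚ_[p])⁻¹ * ∑ h, ((t' j h : ℤ_[p]) : ℚ_[p]) * L j h))) := by
    refine Filter.Tendsto.const_mul _ (tendsto_finsetSum _ fun j _ => ?_)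
    refine (tendsto_finsetSum _ fun h _ => (t1 j h).const_mul _).sub ?_
    exact (tendsto_finsetSum _ fun h _ => (t2 j h).const_mul _).const_mul _
  have t4 := tendsto_pow_mul s
  have t5 : (m : ℚ_[p]) * ∑ j, ((∑ h, ((t j h : ℤ_[p]) : ℚ_[p]) * L j h) -
        (p : ℚ_[p])⁻¹ * ∑ h, ((t' j h : ℤ_[p]) : ℚ_[p]) * L j h) = 0 := by
    refine tendsto_nhds_unique t3 ?_
    refine t4.congr fun e => ?_
    exact (hs e).symm
  have hmQ : (m : ℚ_[p]) ≠ 0 := by exact_mod_cast hm.ne'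
  have t6 := (mul_eq_zero.1 t5).resolve_left hmQ
  rw [Finset.sum_sub_distrib, ← Finset.mul_sum, sub_eq_zero] at t6
  exact t6

end Pool.Agent.Lib.MPb6f35e.K2
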