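import Pool.Agent.Lib.MP_b6f35e_al.K2.SpecF

/-! # K_2 theorem, module MA2: the theorem -/

set_option autoImplicit false

noncomputable section

namespace Pool.Agent.Lib.MPb6f35e.K2

open Pool.Agent.Lib.MPb6f35e.WH

universe u v

namespace MA2aux

lemma finite_le {G : Type v} [Group G] (C : Subgroup G) [Finite C] :
    {D : Subgroup G | D ≤ C}.Finite := by
  refine ((Set.finite_univ : (Set.univ : Set (Subgroup C)).Finite).image
    (Subgroup.map C.subtype)).subset ?_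
  intro D hD
  refine ⟨D.subgroupOf C, Set.mem_univ _, ?_⟩
  rw [Subgroup.subgroupOf, Subgroup.map_comap_eq, Subgroup.range_subtype]
  exact inf_eq_right.2 hD

lemma finite_all {R : Type u} [CommRing R] {G : Type v} [Group G] (l : List (GenT R G)) :
    {D : Subgroup G | ∃ y ∈ l, D ≤ y.C}.Finite := by
  have h : {D : Subgroup G | ∃ y ∈ l, D ≤ y.C} = ⋃ y ∈ {y | y ∈ l}, {D : Subgroup G | D ≤ y.C} := by
    ext D
    simp
  rw [h]
  refine (List.finite_toSet l).biUnion fun y _ => ?_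
  have := y.fin
  exact finite_le y.C

end MA2aux

open MA2aux

/-- MA2. -/
theorem specMA2 (hM : SpecMN2.{u, v}) (hH : SpecHID.{u, v}) : SpecMA2.{u, v} := by
  intro R _ _ _ G _ l m0 hm0 hl
  have ha := hM R G l m0 hm0 hl
  have hb : (∀ C : Subgroup G, Finite C → IsCyclic C → ∃ M : ℕ, ∀ p, M < p → p.Prime → ∀ (z : G)
        (hz : ∀ h ∈ C, z * h = h * z), Hidden p C z → IsOfFinOrder (Abelianization.of
        (⟨z, Subgroup.mem_centralizer_iff.2 fun h hh => (hz h hh).symm⟩ :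
          Subgroup.centralizer (C : Set G)))) → IsOfFinAddOrder (tsum R G l) := by
    intro h
    have h1 : ∀ D : Subgroup G, ∃ M : ℕ, Finite D → IsCyclic D → ∀ p, M < p → p.Prime →
        ∀ (z : G) (hz : ∀ h ∈ D, z * h = h * z), Hidden p D z → IsOfFinOrder (Abelianization.of
        (⟨z, Subgroup.mem_centralizer_iff.2 fun h hh => (hz h hh).symm⟩ :
          Subgroup.centralizer (D : Set G))) := by
      intro D
      by_cases h2 : Finite D ∧ IsCyclic D
      · obtain ⟨M, hM'⟩ := h D h2.1 h2.2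
        exact ⟨M, fun _ _ => hM'⟩
      · exact ⟨0, fun h3 h4 => absurd ⟨h3, h4⟩ h2⟩
    choose f hf using h1
    obtain ⟨M, hMb⟩ := ((finite_all l).image f).bddAbove
    obtain ⟨p, hp, hpp, m, hm, hmem⟩ := ha M
    have h3 : IsOfFinAddOrder (m • tsum R G l) := by
      refine hH.tors R G p _ ?_ _ hmem
      intro D hD hDf hDc z hz hhid
      exact hf D hDf hDc p (lt_of_le_of_lt (hMb ⟨D, hD, rfl⟩) hp) hpp z hz hhid
    obtain ⟨k, hk, hk0⟩ := isOfFinAddOrder_iff_nsmul_eq_zero.1 h3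
    refine isOfFinAddOrder_iff_nsmul_eq_zero.2 ⟨k * m, Nat.mul_pos hk hm, ?_⟩
    rw [mul_nsmul', hk0]
  refine ⟨?_, hb, fun h => hb fun C hC cC => ⟨0, fun p _ hp z hz hh =>
    hH.fg G p hp.one_lt C (h C hC cC) z hz hh⟩⟩
  intro M
  obtain ⟨p, hp, hpp, m, hm, hmem⟩ := ha M
  refine ⟨p, hp, hpp, m, hm, ?_⟩
  refine AddSubgroup.closure_mono ?_ hmem
  rintro y ⟨x, -, hx, rfl⟩
  exact ⟨x, hx, rfl⟩

end Pool.Agent.Lib.MPb6f35e.K2
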