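import Pool.Agent.Lib.MP_b6f35e_al.K2.SpecF

/-! # K_2 theorem, module MN2: part (a) of the theorem -/

set_option autoImplicit false

noncomputable section

namespace Pool.Agent.Lib.MPb6f35e.K2

open Pool.Agent.Lib.MPb6f35e.WH

universe u v

/-- MN2. -/
theorem specMN2 (hD : SpecDS2.{u, v}) (hC : SpecCAS.{u}) (hP : SpecPA2.{u, v}) :
    SpecMN2.{u, v} := by
  classical
  intro R _ _ _ G _ l m hm hl M
  obtain ⟨S, n, l', L, hL, hrel, ⟨F, hF1, hF2⟩, hCC⟩ := hD R G l m hl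
  choose! K hK using hL
  obtain ⟨p, hp, i, hBp, hi⟩ := hC R S (M + 2 + (l'.map fun y => Nat.card y.C).sum +
    (L.map fun y => Nat.card (K y)).sum)
  have hp2 : p ≠ 2 := by omega
  have hcard : ∀ y ∈ l', ¬ p ∣ Nat.card y.C := by
    intro y hy
    have := y.fin
    have h1 : Nat.card y.C ≤ (l'.map fun y => Nat.card y.C).sum :=
      List.single_le_sum (fun x _ => Nat.zero_le x) _ (List.mem_map_of_mem hy)
    exact Nat.not_dvd_of_pos_of_lt Nat.card_pos (by omega)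
  have hL' : ∀ y ∈ L, ∃ H : Subgroup G, Finite H ∧ ¬ p ∣ Nat.card H ∧
        y ∈ StH (Fin (n + 5)) (Algebra.adjoin ℤ (S : Set R)) H ∧
        ∀ θ : St (Fin (n + 5)) (MonoidAlgebra (Algebra.adjoin ℤ (S : Set R)) G) →*
          (Matrix (Fin (n + 5)) (Fin (n + 5)) (MonoidAlgebra (Algebra.adjoin ℤ (S : Set R)) G))ˣ,
          (∀ (i j : Fin (n + 5)) (h : i ≠ j) (a : MonoidAlgebra _ G), θ (xx h a) = eM h a) →
            θ y = 1 := by
    intro y hy
    obtain ⟨h1, h2, h3⟩ := hK y hy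
    have h4 : Nat.card (K y) ≤ (L.map fun y => Nat.card (K y)).sum :=
      List.single_le_sum (fun x _ => Nat.zero_le x) _
        (List.mem_map_of_mem (f := fun y => Nat.card (K y)) hy)
    exact ⟨K y, h1, Nat.not_dvd_of_pos_of_lt Nat.card_pos (by omega), h2, h3⟩
  obtain ⟨m', hm', hmem⟩ := hP p hp2 _ i hi G l' hcard n m hm L hL' hrel
  refine ⟨p, by omega, hp.out, m', hm', ?_⟩
  have h1 := hF2 p _ _ hmem
  rw [map_nsmul, hF1] at h1
  have h2 : {D : Subgroup G | ∃ y ∈ l', D ≤ y.C} = {D : Subgroup G | ∃ y ∈ l, D ≤ y.C} := by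
    ext D
    have h3 : ∀ C : Subgroup G, C ∈ l'.map (fun y => y.C) ↔ C ∈ l.map (fun y => y.C) := by
      intro C
      rw [hCC]
    constructor
    · rintro ⟨y, hy, hDy⟩
      obtain ⟨y', hy', h4⟩ := List.mem_map.1 ((h3 y.C).1 (List.mem_map_of_mem hy))
      exact ⟨y', hy', h4 ▸ hDy⟩
    · rintro ⟨y, hy, hDy⟩
      obtain ⟨y', hy', h4⟩ := List.mem_map.1 ((h3 y.C).2 (List.mem_map_of_mem hy))
      exact ⟨y', hy', h4 ▸ hDy⟩
  rw [← h2]
  exact h1

end Pool.Agent.Lib.MPb6f35e.K2
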