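import Pool.Agent.Lib.MP_b6f35e_al.K2.AL5

/-!
# K_2 theorem (MP_b6f35e_al), module MOB

A multiple of the class of a generator is a sum of classes of primitive generators over the
subgroups.
-/

set_option autoImplicit false

noncomputable section

namespace Pool.Agent.Lib.MPb6f35e.K2

open Pool.Agent.Lib.MPb6f35e.WH

universe u v

namespace MOBaux

open AL5aux

variable {R₀ : Type u} [CommRing R₀] (p : ℕ) [Fact p.Prime] (i : R₀ →+* ℤ_[p]) {G : Type v}
  [Group G]

/-- the logarithm -/
def L {C : Subgroup G} (u : US C p i) (g : G) : ℚ_[p] :=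
  lgP p (MonoidAlgebra.mapRingHom G i u.1.val) g

theorem US_mono {D C : Subgroup G} (h : D ≤ C) : US D p i ≤ US C p i := by
  rintro u ⟨h1, h2, h3⟩
  exact ⟨fun g hg => h (h1 g hg), fun g hg => h (h2 g hg), h3⟩

theorem fin_lt (C : Subgroup G) (hC : Finite C) : {D : Subgroup G | D < C}.Finite := by
  have h : {D : Subgroup G | D < C} ⊆ Set.range (Subgroup.map C.subtype) := by
    intro D hD
    refine ⟨D.subgroupOf C, ?_⟩
    rw [Subgroup.subgroupOf_map_subtype]
    exact inf_eq_left.2 (le_of_lt hD)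
  exact (Set.finite_range _).subset h

theorem cyc_le {D C : Subgroup G} (h : D ≤ C) (hC : IsCyclic C) : IsCyclic D :=
  isCyclic_of_injective (Subgroup.inclusion h) (Subgroup.inclusion_injective h)

theorem fin_le {D C : Subgroup G} (h : D ≤ C) (hC : Finite C) : Finite D :=
  Finite.of_injective (Subgroup.inclusion h) (Subgroup.inclusion_injective h)

theorem L_mul (hLGG : SpecLGG.{u, v}) (hp : p ≠ 2) (C : Subgroup G) (hC : IsCyclic C)
    (u u' : US C p i) (g : G) : L p i (u * u') g = L p i u g + L p i u' g := by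
  change lgP p (MonoidAlgebra.mapRingHom G i (u.1.val * u'.1.val)) g = _
  rw [map_mul]
  exact hLGG.mul p hp G C hC _ _ (supp_map C p i u.2.1) (supp_map C p i u'.2.1) u.2.2.2
    u'.2.2.2 g

theorem L_out (hLGG : SpecLGG.{u, v}) (hp : p ≠ 2) (C : Subgroup G)
    (u : US C p i) (g : G) (hg : g ∉ C) : L p i u g = 0 :=
  hLGG.out p hp G C _ (supp_map C p i u.2.1) g hg

open Classical in
theorem step (hLGG : SpecLGG.{u, v}) (hp : p ≠ 2) (C : Subgroup G) (hfin : Finite C)
    (hcyc : IsCyclic C)
    (Q : ∀ D : Subgroup G, D < C → ∀ u : US D p i, ∃ m : ℕ, 0 < m ∧ ∃ v : US D p i, ∀ g,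
      L p i v g = if Subgroup.zpowers g = D then (m : ℚ_[p]) * L p i u g else 0)
    (u : US C p i) :
    ∃ (m : ℕ) (v : ∀ D : Subgroup G, US D p i), 0 < m ∧
      (∀ D : Subgroup G, D ≤ C → ∀ g,
        L p i (v D) g = if Subgroup.zpowers g = D then (m : ℚ_[p]) * L p i u g else 0) ∧
      u.1 ^ m = (v C).1 * (((fin_lt C hfin).toFinset.toList).map fun D => (v D).1).prod := by
  have h0 : ∀ D : Subgroup G, ∃ (m : ℕ) (v : US D p i), 0 < m ∧ (D < C → ∀ g,
      L p i v g = if Subgroup.zpowers g = D then (m : ℚ_[p]) * L p i u g else 0) := by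
    intro D
    by_cases hD : D < C
    · obtain ⟨y, y1, y2, y3, m1, hm1, h1⟩ := hLGG.nrm p hp R₀ i G C hfin hcyc D hD.le u.1 u.2.1
        u.2.2.1 u.2.2.2
      obtain ⟨m2, hm2, v, hv⟩ := Q D hD ⟨y, y1, y2, y3⟩
      refine ⟨m2 * m1, v, Nat.mul_pos hm2 hm1, fun _ g => ?_⟩
      rw [hv g]
      split_ifs with h
      · have hg : g ∈ D := h ▸ Subgroup.mem_zpowers g
        have h2 := h1 g hg
        change (m2 : ℚ_[p]) * lgP p (MonoidAlgebra.mapRingHom G i y.val) g = _
        rw [h2]
        push_cast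
        unfold L
        ring
      · rfl
    · exact ⟨1, 1, one_pos, fun h => absurd h hD⟩
  choose m v hm hv using h0
  set S := (fin_lt C hfin).toFinset with hS
  have hSm : ∀ D, D ∈ S ↔ D < C := by
    intro D
    rw [hS, Set.Finite.mem_toFinset]
    rfl
  set M : ℕ := ∏ D ∈ S, m D with hM
  have hMpos : 0 < M := Finset.prod_pos fun D _ => hm D
  have hdvd : ∀ D ∈ S, m D * (M / m D) = M := fun D hD =>
    Nat.mul_div_cancel' (Finset.dvd_prod_of_mem m hD)
  -- the common power
  let w : ∀ D : Subgroup G, US D p i := fun D => v D ^ (M / m D)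
  have hw : ∀ D : Subgroup G, D < C → ∀ g, L p i (w D) g =
      if Subgroup.zpowers g = D then (M : ℚ_[p]) * L p i u g else 0 := by
    intro D hD g
    have hc := cyc_le hD.le hcyc
    have h1 := f_zpow (f := fun x : US D p i => L p i x g)
      (fun a b => L_mul p i hLGG hp D hc a b g) (v D) ((M / m D : ℕ) : ℤ)
    rw [zpow_natCast] at h1
    change L p i (w D) g = _ at h1
    rw [h1, hv D hD g]
    split_ifs with h
    · have h2 := hdvd D ((hSm D).2 hD)
      have h3 : (M : ℚ_[p]) = (m D : ℚ_[p]) * ((M / m D : ℕ) : ℚ_[p]) := by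
        rw [← Nat.cast_mul, h2]
      rw [h3, zsmul_eq_mul, Int.cast_natCast]
      ring
    · simp
  have hPm : (S.toList.map fun D => (w D).1).prod ∈ US C p i := by
    refine Subgroup.list_prod_mem _ fun x hx => ?_
    obtain ⟨D, hD, rfl⟩ := List.mem_map.1 hx
    exact US_mono p i ((hSm D).1 (Finset.mem_toList.1 hD)).le (w D).2
  set P : US C p i := ⟨_, hPm⟩ with hP
  have hLP : ∀ g, L p i P g =
      if Subgroup.zpowers g < C then (M : ℚ_[p]) * L p i u g else 0 := by
    intro g
    -- the elements of the list as elements of `US C`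
    have hlist : ∀ l : List (Subgroup G), (∀ D ∈ l, D < C) →
        ∀ hm : (l.map fun D => (w D).1).prod ∈ US C p i,
        L p i (⟨_, hm⟩ : US C p i) g = (l.map fun D => L p i (w D) g).sum := by
      intro l
      induction l with
      | nil =>
        intro _ hm
        have h1 : (⟨_, hm⟩ : US C p i) = 1 := Subtype.ext rfl
        rw [h1]
        exact f_one (f := fun x : US C p i => L p i x g)
          (fun a b => L_mul p i hLGG hp C hcyc a b g)
      | cons D l ih =>
        intro hl hm
        have hD : (w D).1 ∈ US C p i :=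
          US_mono p i (hl D List.mem_cons_self).le (w D).2
        have hl' : (l.map fun D => (w D).1).prod ∈ US C p i := by
          refine Subgroup.list_prod_mem _ fun x hx => ?_
          obtain ⟨D', hD', rfl⟩ := List.mem_map.1 hx
          exact US_mono p i (hl D' (List.mem_cons_of_mem _ hD')).le (w D').2
        have h1 : (⟨_, hm⟩ : US C p i) = ⟨_, hD⟩ * ⟨_, hl'⟩ := Subtype.ext List.prod_cons
        rw [h1, L_mul p i hLGG hp C hcyc, ih (fun D' hD' => hl D' (List.mem_cons_of_mem _ hD')),
          List.map_cons, List.sum_cons]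
        rfl
    rw [hP, hlist S.toList (fun D hD => (hSm D).1 (Finset.mem_toList.1 hD)) hPm,
      Finset.sum_map_toList]
    rw [Finset.sum_congr rfl fun D hD => hw D ((hSm D).1 hD) g, Finset.sum_ite_eq]
    simp only [hSm]
  refine ⟨M, Function.update w C (u ^ M * P⁻¹), hMpos, ?_, ?_⟩
  · intro D hD g
    rcases eq_or_lt_of_le hD with rfl | hlt
    · rw [Function.update_self]
      have h1 := f_zpow (f := fun x : US D p i => L p i x g)
        (fun a b => L_mul p i hLGG hp D hcyc a b g) u ((M : ℕ) : ℤ)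
      have h2 := f_zpow (f := fun x : US D p i => L p i x g)
        (fun a b => L_mul p i hLGG hp D hcyc a b g) P (-1)
      rw [zpow_natCast, zsmul_eq_mul] at h1
      rw [zpow_neg_one, zsmul_eq_mul] at h2
      rw [L_mul p i hLGG hp D hcyc]
      change L p i (u ^ M) g = _ at h1
      change L p i P⁻¹ g = ((-1 : ℤ) : ℚ_[p]) * L p i P g at h2
      rw [h1, h2, hLP g]
      by_cases h3 : Subgroup.zpowers g = D
      · rw [if_pos h3, if_neg (by rw [h3]; exact lt_irrefl _)]
        push_cast
        ring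
      · rw [if_neg h3]
        by_cases h4 : Subgroup.zpowers g < D
        · rw [if_pos h4]
          push_cast
          ring
        · rw [if_neg h4]
          have h5 : g ∉ D := by
            intro hg
            have h6 : Subgroup.zpowers g ≤ D := (Subgroup.zpowers_le).2 hg
            exact h4 (lt_of_le_of_ne h6 h3)
          have h7 : L p i u g = 0 := L_out p i hLGG hp D u g h5
          beta_reduce
          rw [h7]
          simp
    · rw [Function.update_of_ne hlt.ne]
      exact hw D hlt g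
  · rw [Function.update_self]
    have h1 : (S.toList.map fun D => (Function.update w C (u ^ M * P⁻¹) D).1) =
        S.toList.map fun D => (w D).1 := by
      refine List.map_congr_left fun D hD => ?_
      rw [Function.update_of_ne ((hSm D).1 (Finset.mem_toList.1 hD)).ne]
    rw [h1]
    change u.1 ^ M = (u.1 ^ M * P.1⁻¹) * P.1
    rw [inv_mul_cancel_right]

open Classical in
theorem Qall (hLGG : SpecLGG.{u, v}) (hp : p ≠ 2) (n : ℕ) :
    ∀ C : Subgroup G, Finite C → IsCyclic C → Nat.card C = n → ∀ u : US C p i,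
    ∃ m : ℕ, 0 < m ∧ ∃ v : US C p i, ∀ g,
      L p i v g = if Subgroup.zpowers g = C then (m : ℚ_[p]) * L p i u g else 0 := by
  induction n using Nat.strong_induction_on with
  | _ n ih =>
    intro C hfin hcyc hn u
    obtain ⟨m, v, hm, hv, -⟩ := step p i hLGG hp C hfin hcyc (fun D hD => by
      have hlt : Nat.card D < n := by
        rw [← hn]
        have h1 : (D : Set G) ⊂ (C : Set G) := hD
        have h2 := Set.ncard_lt_ncard h1 (Set.toFinite _)
        exact h2
      exact ih _ hlt D (fin_le hD.le hfin) (cyc_le hD.le hcyc) rfl) u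
    exact ⟨m, hm, v C, hv C le_rfl⟩

end MOBaux

open AL5aux MOBaux in
/-- MOB -/
theorem specMOB (hLGG : SpecLGG.{u, v}) (hTRL : SpecTRL.{u, v}) : SpecMOB.{u, v} := by
  classical
  intro p _ hp R₀ _ i G _ y hy
  obtain ⟨C, hfin, hcyc, z, hz, u0, hu1, hu2⟩ := y
  let u : US C p i := ⟨u0, hu1, hu2, hy⟩
  obtain ⟨m, v, hm, hv, hprod⟩ := step p i hLGG hp C hfin hcyc
    (fun D hD => Qall p i hLGG hp _ D (fin_le hD.le hfin) (cyc_le hD.le hcyc) rfl) u
  let g1 : US C p i → GenT R₀ G := fun x => ⟨C, hfin, hcyc, z, hz, x.1, x.2.1, x.2.2.1⟩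
  let c : US C p i → TGrp R₀ G := fun x => D1.cls (RelT R₀ G) (g1 x)
  have hc : ∀ x x', c (x * x') = c x + c x' := fun x x' =>
    hTRL.mulu R₀ G (g1 x) (g1 x') (g1 (x * x')) rfl rfl rfl rfl rfl
  let g2 : Subgroup G → GenT R₀ G := fun D =>
    if h : D ≤ C then ⟨D, fin_le h hfin, cyc_le h hcyc, z, fun k hk => hz k (h hk), (v D).1,
      (v D).2.1, (v D).2.2.1⟩ else g1 u
  have hg2 : ∀ D (h : D ≤ C), g2 D = ⟨D, fin_le h hfin, cyc_le h hcyc, z,
      fun k hk => hz k (h hk), (v D).1, (v D).2.1, (v D).2.2.1⟩ := fun D h => dif_pos h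
  set S := (fin_lt C hfin).toFinset with hS
  have hSm : ∀ D, D ∈ S ↔ D < C := by
    intro D
    rw [hS, Set.Finite.mem_toFinset]
    rfl
  have hcl : ∀ D (h : D ≤ C), D1.cls (RelT R₀ G) (g2 D) =
      c ⟨(v D).1, US_mono p i h (v D).2⟩ := by
    intro D h
    rw [hg2 D h]
    exact (hTRL.incl R₀ G ⟨D, fin_le h hfin, cyc_le h hcyc, z, fun k hk => hz k (h hk), (v D).1,
      (v D).2.1, (v D).2.2.1⟩ (g1 ⟨(v D).1, US_mono p i h (v D).2⟩) h rfl rfl).symm
  -- additivity along the list
  have hlist : ∀ (F : US C p i → TGrp R₀ G), (∀ x x', F (x * x') = F x + F x') →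
      ∀ l : List (Subgroup G), (hl : ∀ D ∈ l, D ≤ C) →
      ∀ hm : (l.map fun D => (v D).1).prod ∈ US C p i,
      F (⟨_, hm⟩ : US C p i) = (l.map fun D => if h : D ≤ C then
        F ⟨(v D).1, US_mono p i h (v D).2⟩ else 0).sum := by
    intro F hF l
    induction l with
    | nil =>
      intro _ hm
      have h1 : (⟨_, hm⟩ : US C p i) = 1 := Subtype.ext rfl
      rw [h1]
      exact f_one hF
    | cons D l ih =>
      intro hl hm
      have hD : (v D).1 ∈ US C p i := US_mono p i (hl D List.mem_cons_self) (v D).2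
      have hl' : (l.map fun D => (v D).1).prod ∈ US C p i := by
        refine Subgroup.list_prod_mem _ fun x hx => ?_
        obtain ⟨D', hD', rfl⟩ := List.mem_map.1 hx
        exact US_mono p i (hl D' (List.mem_cons_of_mem _ hD')) (v D').2
      have h1 : (⟨_, hm⟩ : US C p i) = ⟨_, hD⟩ * ⟨_, hl'⟩ := Subtype.ext List.prod_cons
      rw [h1, hF, ih (fun D' hD' => hl D' (List.mem_cons_of_mem _ hD')),
        List.map_cons, List.sum_cons, dif_pos (hl D List.mem_cons_self)]
  have hlistQ : ∀ (g : G),
      ∀ l : List (Subgroup G), (hl : ∀ D ∈ l, D ≤ C) →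
      ∀ hm : (l.map fun D => (v D).1).prod ∈ US C p i,
      L p i (⟨_, hm⟩ : US C p i) g = (l.map fun D => L p i (v D) g).sum := by
    intro g l
    induction l with
    | nil =>
      intro _ hm
      have h1 : (⟨_, hm⟩ : US C p i) = 1 := Subtype.ext rfl
      rw [h1]
      exact f_one (f := fun x : US C p i => L p i x g)
        (fun a b => L_mul p i hLGG hp C hcyc a b g)
    | cons D l ih =>
      intro hl hm
      have hD : (v D).1 ∈ US C p i := US_mono p i (hl D List.mem_cons_self) (v D).2
      have hl' : (l.map fun D => (v D).1).prod ∈ US C p i := by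
        refine Subgroup.list_prod_mem _ fun x hx => ?_
        obtain ⟨D', hD', rfl⟩ := List.mem_map.1 hx
        exact US_mono p i (hl D' (List.mem_cons_of_mem _ hD')) (v D').2
      have h1 : (⟨_, hm⟩ : US C p i) = ⟨_, hD⟩ * ⟨_, hl'⟩ := Subtype.ext List.prod_cons
      rw [h1, L_mul p i hLGG hp C hcyc, ih (fun D' hD' => hl D' (List.mem_cons_of_mem _ hD')),
        List.map_cons, List.sum_cons]
      rfl
  have hall : ∀ D ∈ C :: S.toList, D ≤ C := by
    intro D hD
    rcases List.mem_cons.1 hD with rfl | h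
    · exact le_rfl
    · exact ((hSm D).1 (Finset.mem_toList.1 h)).le
  have hprod' : (u ^ m).1 = ((C :: S.toList).map fun D => (v D).1).prod := by
    rw [List.map_cons, List.prod_cons]
    exact hprod
  have hmem : ((C :: S.toList).map fun D => (v D).1).prod ∈ US C p i := by
    rw [← hprod']
    exact (u ^ m).2
  have hum : u ^ m = ⟨_, hmem⟩ := Subtype.ext hprod'
  refine ⟨m, (C :: S.toList).map g2, hm, ?_, ?_, ?_⟩
  · have h1 := f_zpow hc u (m : ℤ)
    rw [zpow_natCast, natCast_zsmul] at h1
    change m • c u = _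
    rw [← h1, hum, hlist c hc _ hall hmem]
    unfold tsum
    rw [List.map_map]
    congr 1
    refine List.map_congr_left fun D hD => ?_
    rw [dif_pos (hall D hD)]
    exact (hcl D (hall D hD)).symm
  · intro a ha
    obtain ⟨D, hD, rfl⟩ := List.mem_map.1 ha
    have hDC := hall D hD
    rw [hg2 D hDC]
    refine ⟨hDC, rfl, (v D).2.2.2, ?_⟩
    intro g hg
    by_contra hne
    apply hg
    have h1 := hv D hDC g
    rw [if_neg hne] at h1
    exact h1
  · intro g
    rw [List.map_map]
    have h1 := hlistQ g _ hall hmem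
    rw [← hum] at h1
    have h2 := f_zpow (f := fun x : US C p i => L p i x g)
      (fun a b => L_mul p i hLGG hp C hcyc a b g) u (m : ℤ)
    rw [zpow_natCast, zsmul_eq_mul] at h2
    change L p i (u ^ m) g = ((m : ℤ) : ℚ_[p]) * L p i u g at h2
    rw [h1] at h2
    have h3 : ((C :: S.toList).map ((fun a => LG p i a g) ∘ g2)) =
        (C :: S.toList).map fun D => L p i (v D) g := by
      refine List.map_congr_left fun D hD => ?_
      change LG p i (g2 D) g = _
      rw [hg2 D (hall D hD)]
      rfl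
    rw [h3, h2]
    push_cast
    rfl

end Pool.Agent.Lib.MPb6f35e.K2
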