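import Pool.Agent.Lib.MP_b6f35e_al.K2.SpecB

/-!
# K_2 theorem (MP_b6f35e_al), module STF: functoriality of the Steinberg group in the ring
-/

set_option autoImplicit false

noncomputable section

namespace Pool.Agent.Lib.MPb6f35e.K2

universe u v

namespace STFaux

variable {I : Type} {A : Type u} {B : Type v} [Ring A] [Ring B]

/-- The image of a generator. -/
def gen (f : A →+* B) (x : StGen I A) : St I B := xx x.ne (f x.a)

lemma map_cm {X Y : Type*} [Group X] [Group Y] (F : X →* Y) (s t : X) :
    F (cm s t) = cm (F s) (F t) := by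
  simp only [cm, map_mul, map_inv]

lemma of_mul_inv_eq_one {x y : FreeGroup (StGen I B)} (h : StRel I B (x * y⁻¹)) :
    (QuotientGroup.mk x : St I B) = QuotientGroup.mk y := by
  have h1 : (QuotientGroup.mk (x * y⁻¹) : St I B) = 1 := by
    rw [QuotientGroup.eq_one_iff]
    exact Subgroup.subset_normalClosure h
  rw [QuotientGroup.mk_mul, QuotientGroup.mk_inv, mul_inv_eq_one] at h1
  exact h1

lemma xx_add {i j : I} (h : i ≠ j) (a b : B) :
    (xx h a : St I B) * xx h b = xx h (a + b) :=
  of_mul_inv_eq_one (StRel.add i j h a b)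

lemma xx_comm {i j k l : I} (h : i ≠ j) (h' : k ≠ l) (hjk : j ≠ k) (hil : i ≠ l) (a b : B) :
    cm (xx h a : St I B) (xx h' b) = 1 := by
  have h1 : (QuotientGroup.mk (cm (FreeGroup.of ⟨i, j, h, a⟩)
      (FreeGroup.of ⟨k, l, h', b⟩)) : St I B) = 1 := by
    rw [QuotientGroup.eq_one_iff]
    exact Subgroup.subset_normalClosure (StRel.comm i j k l h h' hjk hil a b)
  exact h1

lemma xx_mul {i j k : I} (h : i ≠ j) (h' : j ≠ k) (h'' : i ≠ k) (a b : B) :
    cm (xx h a : St I B) (xx h' b) = xx h'' (a * b) :=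
  of_mul_inv_eq_one (StRel.mul i j k h h' h'' a b)

lemma rel_ok (f : A →+* B) : ∀ r ∈ {x : FreeGroup (StGen I A) | StRel I A x},
    FreeGroup.lift (gen f) r = 1 := by
  intro r hr
  cases hr with
  | add i j h a b =>
    rw [map_mul, map_mul, map_inv, FreeGroup.lift_apply_of, FreeGroup.lift_apply_of,
      FreeGroup.lift_apply_of]
    simp only [gen]
    rw [map_add, ← xx_add, mul_inv_cancel]
  | comm i j k l h h' hjk hil a b =>
    rw [map_cm, FreeGroup.lift_apply_of, FreeGroup.lift_apply_of]
    exact xx_comm h h' hjk hil _ _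
  | mul i j k h h' h'' a b =>
    rw [map_mul, map_inv, map_cm, FreeGroup.lift_apply_of, FreeGroup.lift_apply_of,
      FreeGroup.lift_apply_of]
    simp only [gen]
    rw [xx_mul h h' h'', map_mul, mul_inv_cancel]

/-- The homomorphism of Steinberg groups induced by `f`. -/
def stMap (f : A →+* B) : St I A →* St I B := PresentedGroup.toGroup (rel_ok f)

lemma stMap_xx (f : A →+* B) {i j : I} (h : i ≠ j) (a : A) :
    stMap f (xx h a) = xx h (f a) :=
  PresentedGroup.toGroup.of (rel_ok f)

lemma stMap_ww (f : A →+* B) {i j : I} (h : i ≠ j) (z : Aˣ) :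
    stMap f (ww h z) = ww h (Units.map f.toMonoidHom z) := by
  simp only [ww, map_mul, stMap_xx, map_neg]
  rfl

lemma stMap_hh (f : A →+* B) {i j : I} (h : i ≠ j) (z : Aˣ) :
    stMap f (hh h z) = hh h (Units.map f.toMonoidHom z) := by
  have h1 : Units.map f.toMonoidHom (-1 : Aˣ) = -1 := by
    apply Units.ext
    simp
  simp only [hh, map_mul, stMap_ww, h1]

end STFaux

open STFaux in
theorem specSTF : SpecSTF.{u, v} := by
  intro A _ B _ f I
  refine ⟨stMap f, fun i j h a => stMap_xx f h a, fun i j k h h' z y => ?_⟩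
  simp only [sym, map_cm, stMap_hh]

end Pool.Agent.Lib.MPb6f35e.K2
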