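import Pool.Agent.Lib.MP_b6f35e_al.K2.SpecB

/-!
# K_2 theorem (MP_b6f35e_al), module UCE: central extensions of `GL_n(A)` and the Steinberg group

Milnor, Introduction to algebraic K-theory, 5.10.
-/

set_option autoImplicit false

noncomputable section

namespace Pool.Agent.Lib.MPb6f35e.K2

universe u v

namespace UCEaux

section gl

variable {n : ℕ} {A : Type u} [Ring A]

lemma eM_val {i j : Fin n} (h : i ≠ j) (a : A) :
    ((eM h a : (Matrix (Fin n) (Fin n) A)ˣ) : Matrix (Fin n) (Fin n) A) =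
      1 + Matrix.single i j a := rfl

lemma s0 {i j k l : Fin n} (h : j ≠ k) (a b : A) :
    Matrix.single i j a * Matrix.single k l b = (0 : Matrix (Fin n) (Fin n) A) :=
  Matrix.single_mul_single_of_ne (c := a) (h := h) (d := b) ..

lemma s1 {i j k : Fin n} (a b : A) :
    Matrix.single i j a * Matrix.single j k b = (Matrix.single i k (a * b) :
      Matrix (Fin n) (Fin n) A) :=
  Matrix.single_mul_single_same ..

lemma mm {M : Type*} [Ring M] (x y : M) : (1 + x) * (1 + y) = 1 + x + y + x * y := by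
  rw [mul_add, mul_one, add_mul, one_mul]
  abel

lemma eM_add {i j : Fin n} (h : i ≠ j) (a b : A) : eM h a * eM h b = eM h (a + b) := by
  apply Units.ext
  rw [Units.val_mul, eM_val, eM_val, eM_val, mm, s0 h.symm, Matrix.single_add]
  abel

lemma eM_comm {i j k l : Fin n} (h : i ≠ j) (h' : k ≠ l) (hjk : j ≠ k) (hil : i ≠ l) (a b : A) :
    eM h a * eM h' b = eM h' b * eM h a := by
  apply Units.ext
  rw [Units.val_mul, Units.val_mul, eM_val, eM_val, mm, mm, s0 hjk, s0 hil.symm]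
  abel

lemma eM_mul {i j k : Fin n} (h : i ≠ j) (h' : j ≠ k) (h'' : i ≠ k) (a b : A) :
    cm (eM h a) (eM h' b) = eM h'' (a * b) := by
  unfold cm
  rw [mul_inv_eq_iff_eq_mul, mul_inv_eq_iff_eq_mul]
  apply Units.ext
  rw [Units.val_mul, Units.val_mul, Units.val_mul, eM_val, eM_val, eM_val]
  have e1 : (1 + Matrix.single i j a) * (1 + Matrix.single j k b) =
      (1 + Matrix.single i j a + Matrix.single j k b + Matrix.single i k (a * b) :
        Matrix (Fin n) (Fin n) A) := by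
    rw [mm, s1]
  have e2 : (1 + Matrix.single i k (a * b)) * (1 + Matrix.single j k b) =
      (1 + Matrix.single i k (a * b) + Matrix.single j k b : Matrix (Fin n) (Fin n) A) := by
    rw [mm, s0 h'.symm, add_zero]
  rw [e1, e2, mul_add, mul_one, add_mul, add_mul, one_mul, s0 h''.symm, s0 h''.symm]
  abel

end gl

section grp

variable {Y : Type v} [Group Y]

lemma cm_c1 (y c z : Y) (hc : ∀ w, c * w = w * c) : cm (y * c) z = cm y z := by
  unfold cm
  rw [mul_assoc y c z, hc z]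
  group

lemma cm_c2 (y z c : Y) (hc : ∀ w, c * w = w * c) : cm y (z * c) = cm y z := by
  unfold cm
  have h1 : y * (z * c) * y⁻¹ = y * z * y⁻¹ * c := by
    rw [mul_assoc (y * z) y⁻¹ c, ← hc y⁻¹]
    group
  rw [h1]
  group

lemma cm_conj (z a b : Y) : z * cm a b * z⁻¹ = cm (z * a * z⁻¹) (z * b * z⁻¹) := by
  unfold cm
  group

lemma map_cm {Z : Type*} [Group Z] (f : Y →* Z) (a b : Y) : f (cm a b) = cm (f a) (f b) := by
  unfold cm
  simp

variable {n : ℕ} {A : Type u} [Ring A] (π : Y →* (Matrix (Fin n) (Fin n) A)ˣ)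
  (hk : ∀ y, π y = 1 → ∀ z, y * z = z * y)

include hk

lemma cmc {y y' z z' : Y} (h1 : π y = π y') (h2 : π z = π z') : cm y z = cm y' z' := by
  have c1 : ∀ w, (y'⁻¹ * y) * w = w * (y'⁻¹ * y) := hk _ (by rw [map_mul, map_inv, h1]; group)
  have c2 : ∀ w, (z'⁻¹ * z) * w = w * (z'⁻¹ * z) := hk _ (by rw [map_mul, map_inv, h2]; group)
  have e1 : y = y' * (y'⁻¹ * y) := by group
  have e2 : z = z' * (z'⁻¹ * z) := by group
  rw [e1, e2, cm_c1 _ _ _ c1, cm_c2 _ _ _ c2]

lemma comm_cm {a b z : Y} (h1 : π z * π a = π a * π z) (h2 : π z * π b = π b * π z) :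
    cm a b * z = z * cm a b := by
  have e : z * cm a b * z⁻¹ = cm a b := by
    rw [cm_conj]
    refine cmc π hk ?_ ?_
    · rw [map_mul, map_mul, map_inv, h1]
      group
    · rw [map_mul, map_mul, map_inv, h2]
      group
  calc cm a b * z = (z * cm a b * z⁻¹) * z := by rw [e]
    _ = z * cm a b := by group

/-- another index -/
lemma other (hn : 5 ≤ n) (i j k l : Fin n) : ∃ m : Fin n, m ≠ i ∧ m ≠ j ∧ m ≠ k ∧ m ≠ l := by
  by_contra hc
  push Not at hc
  have h1 : (Finset.univ : Finset (Fin n)) ⊆ {i, j, k, l} := by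
    intro m _
    simp only [Finset.mem_insert, Finset.mem_singleton]
    by_contra hm
    push Not at hm
    exact hm.2.2.2 (hc m hm.1 hm.2.1 hm.2.2.1)
  have h2 := Finset.card_le_card h1
  rw [Finset.card_univ, Fintype.card_fin] at h2
  have h3 : ({i, j, k, l} : Finset (Fin n)).card ≤ 4 := Finset.card_le_four
  omega

variable (hs : Function.Surjective π) (hn : 5 ≤ n)

include hs hn

/-- (i) -/
lemma comm_lift {i j k l : Fin n} (h : i ≠ j) (h' : k ≠ l) (hjk : j ≠ k) (hil : i ≠ l) {a b : A}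
    {y z : Y} (hy : π y = eM h a) (hz : π z = eM h' b) : y * z = z * y := by
  obtain ⟨m, hmi, hmj, hmk, hml⟩ := other (π := π) hk hn i j k l
  obtain ⟨y₁, hy₁⟩ := hs (eM hmi.symm 1)
  obtain ⟨y₂, hy₂⟩ := hs (eM hmj a)
  have h1 : cm y₁ y₂ * z = z * cm y₁ y₂ := by
    refine comm_cm π hk ?_ ?_
    · rw [hz, hy₁]
      exact (eM_comm hmi.symm h' hmk hil 1 b).symm
    · rw [hz, hy₂]
      exact (eM_comm hmj h' hjk hml a b).symm
  have hc : ∀ w, ((cm y₁ y₂)⁻¹ * y) * w = w * ((cm y₁ y₂)⁻¹ * y) := by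
    refine hk _ ?_
    rw [map_mul, map_inv, map_cm, hy₁, hy₂, eM_mul hmi.symm hmj h, one_mul, hy]
    group
  calc y * z = cm y₁ y₂ * (((cm y₁ y₂)⁻¹ * y) * z) := by group
    _ = cm y₁ y₂ * z * ((cm y₁ y₂)⁻¹ * y) := by rw [hc z]; group
    _ = z * cm y₁ y₂ * ((cm y₁ y₂)⁻¹ * y) := by rw [h1]
    _ = z * y := by group

/-- (ii) -/
lemma hall {h i j k : Fin n} (hhi : h ≠ i) (hij : i ≠ j) (hjk : j ≠ k) (hhj : h ≠ j)
    (hik : i ≠ k) (hhk : h ≠ k) {a b : A} {y v w : Y} (hy : π y = eM hhi 1) (hv : π v = eM hij a)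
    (hw : π w = eM hjk b) : cm (cm y v) w = cm y (cm v w) := by
  have hx : π (cm y v) = eM hhj a := by
    rw [map_cm, hy, hv, eM_mul hhi hij hhj, one_mul]
  have hz : π (cm v w) = eM hik (a * b) := by
    rw [map_cm, hv, hw, eM_mul hij hjk hik]
  have hxw : π (cm (cm y v) w) = eM hhk (a * b) := by
    rw [map_cm, hx, hw, eM_mul hhj hjk hhk]
  have c1 : y * w = w * y := comm_lift π hk hs hn hhi hjk hij hhk hy hw
  have c2 : cm y v * cm v w = cm v w * cm y v := comm_lift π hk hs hn hhj hik hij.symm hhk hx hz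
  have c3 : cm (cm y v) w * cm v w = cm v w * cm (cm y v) w :=
    comm_lift π hk hs hn hhk hik hik.symm hhk hxw hz
  have e1 : y * cm v w * y⁻¹ = cm v w * cm (cm y v) w := by
    have f1 : y * v * y⁻¹ = cm y v * v := by
      unfold cm
      group
    have f2 : y * w * y⁻¹ = w := by
      rw [c1]
      group
    calc y * cm v w * y⁻¹ = cm (y * v * y⁻¹) (y * w * y⁻¹) := cm_conj y v w
      _ = cm (cm y v * v) w := by rw [f1, f2]
      _ = cm y v * cm v w * (w * (cm y v)⁻¹ * w⁻¹) := by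
          conv_lhs => unfold cm
          conv_rhs => unfold cm
          group
      _ = cm v w * cm y v * (w * (cm y v)⁻¹ * w⁻¹) := by rw [c2]
      _ = cm v w * cm (cm y v) w := by
          rw [show cm (cm y v) w = cm y v * w * (cm y v)⁻¹ * w⁻¹ from rfl]
          group
  calc cm (cm y v) w = cm (cm y v) w * cm v w * (cm v w)⁻¹ := by group
    _ = cm v w * cm (cm y v) w * (cm v w)⁻¹ := by rw [c3]
    _ = y * cm v w * y⁻¹ * (cm v w)⁻¹ := by rw [e1]
    _ = cm y (cm v w) := rfl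

/-- independence of the index -/
lemma indep {h i j k : Fin n} (hhi : h ≠ i) (hik : i ≠ k) (hhj : h ≠ j) (hjk : j ≠ k) (hhk : h ≠ k)
    {a b : A} {p q p' q' : Y} (hp : π p = eM hhj a) (hq : π q = eM hjk b) (hp' : π p' = eM hhi 1)
    (hq' : π q' = eM hik (a * b)) : cm p q = cm p' q' := by
  obtain ⟨m, hmh, hmi, hmj, hmk⟩ := other (π := π) hk hn h i j k
  -- first step: index `m`
  obtain ⟨x, hx⟩ := hs (eM hmh.symm 1)
  have key : ∀ {j : Fin n} (hmj : m ≠ j) (hhj : h ≠ j) (hjk : j ≠ k) {a b : A} {p q : Y}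
      (_ : π p = eM hhj a) (_ : π q = eM hjk b) {z : Y} (_ : π z = eM hmk (a * b)),
      cm p q = cm x z := by
    intro j hmj hhj hjk a b p q hp hq z hz
    obtain ⟨v, hv⟩ := hs (eM hmj a)
    have h1 := hall π hk hs hn hmh.symm hmj hjk hhj hmk hhk hx hv hq
    have h2 : cm p q = cm (cm x v) q := by
      refine cmc π hk ?_ rfl
      rw [hp, map_cm, hx, hv, eM_mul hmh.symm hmj hhj, one_mul]
    have h3 : cm x (cm v q) = cm x z := by
      refine cmc π hk rfl ?_
      rw [hz, map_cm, hv, hq, eM_mul hmj hjk hmk]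
    rw [h2, h1, h3]
  obtain ⟨z, hz⟩ := hs (eM hmk (a * b))
  rw [key hmj hhj hjk hp hq hz, key hmi hhi hik hp' hq' (z := z) (by rw [hz, one_mul])]

end grp

/-- an index different from two given ones -/
def mid {n : ℕ} (hn : 5 ≤ n) (i j : Fin n) : Fin n :=
  if h : (⟨0, by omega⟩ : Fin n) ≠ i ∧ (⟨0, by omega⟩ : Fin n) ≠ j then ⟨0, by omega⟩
  else if h : (⟨1, by omega⟩ : Fin n) ≠ i ∧ (⟨1, by omega⟩ : Fin n) ≠ j then ⟨1, by omega⟩
  else ⟨2, by omega⟩

lemma mid_ne {n : ℕ} (hn : 5 ≤ n) (i j : Fin n) : mid hn i j ≠ i ∧ mid hn i j ≠ j := by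
  unfold mid
  split_ifs with h1 h2
  · exact h1
  · exact h2
  · simp only [ne_eq, Fin.ext_iff] at *
    omega

end UCEaux

open UCEaux

theorem specUCE : SpecUCE.{u, v} := by
  intro A _ n hn Y _ π hs hk
  -- lifts
  obtain ⟨σ, hσ⟩ : ∃ σ : (Matrix (Fin n) (Fin n) A)ˣ → Y, ∀ g, π (σ g) = g :=
    ⟨Function.surjInv hs, Function.surjInv_eq hs⟩
  let s : ∀ {i j : Fin n} (_ : i ≠ j) (_ : A), Y := fun {i j} _ a =>
    cm (σ (eM (mid_ne hn i j).1.symm 1)) (σ (eM (mid_ne hn i j).2 a))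
  have hπs : ∀ {i j : Fin n} (h : i ≠ j) (a : A), π (s h a) = eM h a := by
    intro i j h a
    show π (cm _ _) = _
    rw [map_cm, hσ, hσ, eM_mul _ _ h, one_mul]
  -- the relations
  have hmul : ∀ {i j k : Fin n} (h : i ≠ j) (h' : j ≠ k) (h'' : i ≠ k) (a b : A),
      cm (s h a) (s h' b) = s h'' (a * b) := by
    intro i j k h h' h'' a b
    exact indep π hk hs hn (mid_ne hn i k).1.symm (mid_ne hn i k).2 h h' h'' (hπs h a) (hπs h' b)
      (hσ _) (hσ _)
  have hcomm : ∀ {i j k l : Fin n} (h : i ≠ j) (h' : k ≠ l) (_ : j ≠ k) (_ : i ≠ l) (a b : A),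
      s h a * s h' b = s h' b * s h a := by
    intro i j k l h h' hjk hil a b
    exact comm_lift π hk hs hn h h' hjk hil (hπs h a) (hπs h' b)
  have hadd : ∀ {i j : Fin n} (h : i ≠ j) (a b : A), s h a * s h b = s h (a + b) := by
    intro i j h a b
    have hki := (mid_ne hn i j).1
    have hkj := (mid_ne hn i j).2
    obtain ⟨x, hx⟩ : ∃ x, x = σ (eM hki.symm 1) := ⟨_, rfl⟩
    obtain ⟨y, hy⟩ : ∃ y, y = σ (eM hkj a) := ⟨_, rfl⟩
    obtain ⟨w, hw⟩ : ∃ w, w = σ (eM hkj b) := ⟨_, rfl⟩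
    have e1 : s h a = cm x y := by rw [hx, hy]
    have e2 : s h b = cm x w := by rw [hx, hw]
    have e3 : s h (a + b) = cm x (y * w) := by
      refine cmc π hk ?_ ?_
      · rw [hx]
      · rw [map_mul, hy, hw, hσ, hσ, hσ, eM_add]
    have hc : cm x w * y = y * cm x w := by
      refine comm_lift π hk hs hn h hkj (Ne.symm hkj) h (a := b) (b := a) ?_ ?_
      · rw [← e2]
        exact hπs h b
      · rw [hy, hσ]
    rw [e1, e2, e3]
    calc cm x y * cm x w = cm x y * (cm x w * y) * y⁻¹ := by group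
      _ = cm x y * (y * cm x w) * y⁻¹ := by rw [hc]
      _ = cm x (y * w) := by
          unfold cm
          group
  have hrel : ∀ r ∈ {x | StRel (Fin n) A x},
      FreeGroup.lift (fun g : StGen (Fin n) A => s g.ne g.a) r = 1 := by
    intro r hr
    induction hr with
    | add i j h a b =>
      rw [map_mul, map_mul, map_inv, FreeGroup.lift_apply_of, FreeGroup.lift_apply_of,
        FreeGroup.lift_apply_of]
      show s h a * s h b * (s h (a + b))⁻¹ = 1
      rw [hadd h a b, mul_inv_cancel]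
    | comm i j k l h h' hjk hil a b =>
      rw [map_cm, FreeGroup.lift_apply_of, FreeGroup.lift_apply_of]
      show cm (s h a) (s h' b) = 1
      unfold cm
      rw [hcomm h h' hjk hil]
      group
    | mul i j k h h' h'' a b =>
      rw [map_mul, map_inv, map_cm, FreeGroup.lift_apply_of, FreeGroup.lift_apply_of,
        FreeGroup.lift_apply_of]
      show cm (s h a) (s h' b) * (s h'' (a * b))⁻¹ = 1
      rw [hmul h h' h'', mul_inv_cancel]
  refine ⟨PresentedGroup.toGroup hrel, fun i j h a => ?_⟩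
  have e : PresentedGroup.toGroup hrel (xx h a) = s h a := PresentedGroup.toGroup.of hrel
  rw [e]
  exact hπs h a

end Pool.Agent.Lib.MPb6f35e.K2
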