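import Pool.Agent.Lib.MP_b6f35e_al.K2.SpecF
import Pool.Agent.Lib.MP_b6f35e_al.K2.UCE
import Pool.Agent.Lib.MP_b6f35e_al.K2.STF

/-!
# K_2 theorem (MP_b6f35e_al), module OM2

The central extension for `GL_n(k[G])`, modulo the `K_2` of the finite subgroups.
-/

set_option autoImplicit false

noncomputable section

namespace Pool.Agent.Lib.MPb6f35e.K2

open Pool.Agent.Lib.MPb6f35e.WH

universe u v w x

namespace OM2aux

lemma cm_eq_one {X : Type*} [Group X] {s t : X} (h : s * t = t * s) : cm s t = 1 := by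
  simp only [cm, h]
  group

lemma diag_comm {A : Type u} [Ring A] (n : ℕ) (z y : Aˣ) (h : z * y = y * z) :
    diagU (dF (o0 n) (o1 n) z) * diagU (dF (o0 n) (o2 n) y) =
      diagU (dF (o0 n) (o2 n) y) * diagU (dF (o0 n) (o1 n) z) := by
  apply Units.ext
  simp only [diagU, Units.val_mul, Matrix.diagonal_mul_diagonal]
  congr 1
  funext k
  rw [← Units.val_mul, ← Units.val_mul]
  congr 1
  unfold dF
  by_cases h0 : k = o0 n
  · simp only [h0, if_true, h]
  · simp only [h0, if_false]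
    by_cases h1 : k = o1 n
    · have h2 : k ≠ o2 n := by rw [h1]; exact o12 n
      simp only [h1, if_true]
      rw [if_neg (o12 n)]
      simp
    · simp only [h1, if_false, one_mul, mul_one]

/-- A function additive on the kernel of `π`. -/
lemma eps_prod {Y U H : Type*} [Group Y] [Group U] [AddCommGroup H] (π : Y →* U) (ε : Y → H)
    (hadd : ∀ k k', π k = 1 → π k' = 1 → ε (k * k') = ε k + ε k') (h1 : ε 1 = 0) :
    ∀ l : List Y, (∀ k ∈ l, π k = 1) → π l.prod = 1 ∧ ε l.prod = (l.map ε).sum := by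
  intro l
  induction l with
  | nil => intro _; exact ⟨by simp, by simpa using h1⟩
  | cons a l ih =>
    intro hl
    obtain ⟨ih1, ih2⟩ := ih fun k hk => hl k (List.mem_cons_of_mem _ hk)
    have ha : π a = 1 := hl a List.mem_cons_self
    refine ⟨?_, ?_⟩
    · rw [List.prod_cons, map_mul, ha, ih1, one_mul]
    · rw [List.prod_cons, List.map_cons, List.sum_cons, hadd _ _ ha ih1, ih2]

lemma eps_pow {Y U H : Type*} [Group Y] [Group U] [AddCommGroup H] (π : Y →* U) (ε : Y → H)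
    (hadd : ∀ k k', π k = 1 → π k' = 1 → ε (k * k') = ε k + ε k') (h1 : ε 1 = 0)
    (k : Y) (hk : π k = 1) (m : ℕ) : ε (k ^ m) = m • ε k := by
  induction m with
  | zero => simp [h1]
  | succ m ih =>
    rw [pow_succ, hadd _ _ (by rw [map_pow, hk, one_pow]) hk, ih, add_smul, one_smul]

/-! ### the degree -/

section deg

variable {N : ℕ} {G : Type v} [Group G]

lemma dg_mul (v w : WR N G) : dg (v * w) = dg v + dg w := rfl

lemma dg_inv (v : WR N G) : dg v⁻¹ = - dg v := rfl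

lemma dg_conj (v w : WR N G) : dg (v * w * v⁻¹) = dg w := by
  rw [dg_mul, dg_mul, dg_inv]
  abel

lemma dg_w0 (c : G) : dg (w0 N c) = 1 := rfl

end deg

/-- The function `η` modulo `N`, in degree one. -/
def etaN {k : Type u} [CommRing k] {N : ℕ} (r : k →+* ZMod N) {G : Type v} [Group G]
    (η : WR N G → k) (w : WR N G) : ZMod N := if dg w = 1 then r (η w) else 0

lemma etaN_zero {k : Type u} [CommRing k] {N : ℕ} (r : k →+* ZMod N) {G : Type v} [Group G]
    (η : WR N G → k) (w : WR N G) (h : dg w ≠ 1) : etaN r η w = 0 := if_neg h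

lemma etaN_spec (hTHE : SpecTHE.{v, u}) {k : Type u} [CommRing k] {N : ℕ} (r : k →+* ZMod N)
    {G : Type v} [Group G] (H : Subgroup G) (c : G) (X : G → k) (η : WR N G → k)
    (hη : ∀ v w : WR N G, (∀ j, v.left j ∈ H) → (∀ j, w.left j ∈ H) →
      Th (w0 N c) (XW X) v w = η w - η (v * w * v⁻¹)) (v w : WR N G)
    (hv : ∀ j, v.left j ∈ H) (hw : ∀ j, w.left j ∈ H) :
    ThN r c X v w = etaN r η w - etaN r η (v * w * v⁻¹) := by
  by_cases h : dg w = 1
  · have h' : dg (v * w * v⁻¹) = 1 := by rw [dg_conj, h]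
    rw [etaN, etaN, if_pos h, if_pos h', ← map_sub, ← hη v w hv hw]
    rfl
  · have h' : dg (v * w * v⁻¹) ≠ 1 := by rwa [dg_conj]
    rw [etaN_zero r η w h, etaN_zero r η _ h', sub_zero, ThN, hTHE.zero, map_zero]
    rintro ⟨t, ht⟩
    apply h
    rw [← ht, dg_conj, dg_w0]

/-! ### entries over a subgroup -/

section supp

variable {k : Type u} [CommRing k] {G : Type v} [Group G] (H : Subgroup G)

lemma supp_zero : Supp H (0 : MonoidAlgebra k G) := by
  intro g hg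
  exact absurd rfl hg

lemma supp_one : Supp H (1 : MonoidAlgebra k G) := by
  intro g hg
  by_contra hn
  apply hg
  rw [MonoidAlgebra.one_def, MonoidAlgebra.coeff_single, Finsupp.single_eq_of_ne]
  rintro rfl
  exact hn H.one_mem

lemma supp_add {a b : MonoidAlgebra k G} (ha : Supp H a) (hb : Supp H b) : Supp H (a + b) := by
  intro g hg
  by_contra hn
  have h1 : a.coeff g = 0 := by_contra fun h => hn (ha g h)
  have h2 : b.coeff g = 0 := by_contra fun h => hn (hb g h)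
  apply hg
  rw [MonoidAlgebra.coeff_add, Finsupp.add_apply, h1, h2, add_zero]

lemma supp_neg {a : MonoidAlgebra k G} (ha : Supp H a) : Supp H (-a) := by
  intro g hg
  apply ha g
  intro h
  apply hg
  rw [MonoidAlgebra.coeff_neg, Finsupp.neg_apply, h, neg_zero]

lemma supp_eM {n : ℕ} {i j : Fin n} (h : i ≠ j) {a : MonoidAlgebra k G} (ha : Supp H a)
    (i' j' : Fin n) :
    Supp H (((eM h a : (Matrix (Fin n) (Fin n) (MonoidAlgebra k G))ˣ) :
      Matrix (Fin n) (Fin n) (MonoidAlgebra k G)) i' j') := by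
  rw [UCEaux.eM_val, Matrix.add_apply]
  apply supp_add
  · rw [Matrix.one_apply]
    by_cases e : i' = j'
    · rw [if_pos e]; exact supp_one H
    · rw [if_neg e]; exact supp_zero H
  · rw [Matrix.single_apply]
    by_cases e : i = i' ∧ j = j'
    · rw [if_pos e]; exact ha
    · rw [if_neg e]; exact supp_zero H

lemma eM_inv {n : ℕ} {A : Type u} [Ring A] {i j : Fin n} (h : i ≠ j) (a : A) :
    (eM h a)⁻¹ = eM h (-a) := Units.ext rfl

end supp

/-- The elements `q y s (g s)`, `s` over `H`, form a subgroup. -/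
lemma exists_sub {S Hh U Y : Type*} [Ring S] [AddCommGroup Hh] [Group U] [Group Y]
    (π : Y →* U) (q : U → Sˣ → Hh → Y) (IG : U → Sˣ → Prop) (P : Sˣ → Prop)
    (c : Sˣ → Sˣ → Hh) (g : Sˣ → Hh)
    (hqmul : ∀ y s a y' s' a', IG y s → IG y' s' →
      q y s a * q y' s' a' = q (y * y') (s * s') (a + a' + c s s'))
    (hI1 : IG 1 1) (hIm : ∀ y y' s s', IG y s → IG y' s' → IG (y * y') (s * s'))
    (hIi : ∀ y s, IG y s → IG y⁻¹ s⁻¹)
    (hP1 : P 1) (hPm : ∀ s s', P s → P s' → P (s * s')) (hPi : ∀ s, P s → P s⁻¹)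
    (hc : c 1 1 = 0) (hg1 : g 1 = 0) (hg : ∀ s t, P s → P t → c s t = g (s * t) - g s - g t) :
    ∃ K : Subgroup Y, ∀ κ, κ ∈ K ↔ ∃ s, IG (π κ) s ∧ P s ∧ κ = q (π κ) s (g s) := by
  have hq1 : q 1 1 (g 1) = 1 := by
    have h := hqmul 1 1 0 1 1 0 hI1 hI1
    rw [mul_one, mul_one, hc, add_zero, add_zero] at h
    rw [hg1]
    exact mul_eq_left.mp h
  refine ⟨{ carrier := {κ | ∃ s, IG (π κ) s ∧ P s ∧ κ = q (π κ) s (g s)}
            one_mem' := ?_
            mul_mem' := ?_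
            inv_mem' := ?_ }, fun κ => Iff.rfl⟩
  · rintro a b ⟨s, hs1, hs2, hs3⟩ ⟨t, ht1, ht2, ht3⟩
    refine ⟨s * t, ?_, hPm _ _ hs2 ht2, ?_⟩
    · rw [map_mul]
      exact hIm _ _ _ _ hs1 ht1
    · rw [map_mul]
      conv_lhs => rw [hs3, ht3]
      rw [hqmul _ _ _ _ _ _ hs1 ht1, hg s t hs2 ht2]
      congr 1
      abel
  · refine ⟨1, ?_, hP1, ?_⟩
    · rw [map_one]
      exact hI1
    · rw [map_one, hq1]
  · rintro a ⟨s, hs1, hs2, hs3⟩
    have hi := hIi _ _ hs1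
    have hPs := hPi _ hs2
    have h1 : q (π a) s (g s) * q (π a)⁻¹ s⁻¹ (g s⁻¹) = 1 := by
      rw [hqmul _ _ _ _ _ _ hs1 hi, hg s s⁻¹ hs2 hPs, mul_inv_cancel, mul_inv_cancel]
      have e : g s + g s⁻¹ + (g 1 - g s - g s⁻¹) = g 1 := by abel
      rw [e, hq1]
    refine ⟨s⁻¹, ?_, hPs, ?_⟩
    · rw [map_inv]
      exact hi
    · rw [map_inv]
      rw [← hs3] at h1
      exact inv_eq_of_mul_eq_one_right h1

end OM2aux

open OM2aux in
theorem specOM2 (hEX2 : SpecEX2.{max u v, v, 0, max u v}) (hUCE : SpecUCE.{max u v, max u v})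
    (hHGL : SpecHGL.{max u v}) (hCON : SpecCON.{u, v}) (hTDN : SpecTDN.{u, v})
    (hHET : SpecHET.{u, v}) (hHSB : SpecHSB.{u, v}) (hHSC : SpecHSC.{u, v})
    (hHSD : SpecHSD.{u, v}) (hTHE : SpecTHE.{v, u}) (hQSB : SpecQSB.{max u v, v, 0, max u v}) :
    SpecOM2.{u, v} := by
  intro k _ p e _ _ _ r' hred G _ c X hX hXc n r m z y s t hzy hs ht L hL hrel
  have hd := hCON k p e r' hred G (Fin (n + 5)) c X hX hXc
  have hT := fun y => (hTDN k p e hred.frob G (Fin (n + 5)) y).1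
  have hD := fun y => (hTDN k p e hred.frob G (Fin (n + 5)) y).2.1
  have hTD := fun y => (hTDN k p e hred.frob G (Fin (n + 5)) y).2.2
  obtain ⟨Y, _, π, ε, q, hsurj, hcent, hadd, hinj, hπq, hqmul, hεq, hcm⟩ :=
    hEX2 _ _ _ _ _ _ _ _ _ _ hd (TT k G (Fin (n + 5)) (p ^ (e + 1)))
      (DD k G (Fin (n + 5)) p e) hT hD hTD
  obtain ⟨ψ, hψ⟩ := hUCE (MonoidAlgebra k G) (n + 5) (by omega) Y π hsurj hcent
  have hH := hHGL (MonoidAlgebra k G) (n + 5) (π.comp ψ) hψ
  have hε1 : ε 1 = 0 := by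
    have h := hadd 1 1 (map_one π) (map_one π)
    rw [mul_one] at h
    exact left_eq_add.mp h
  have hπ : ∀ j, π (ψ (sym (o01 n) (o02 n) (z j) (y j))) = 1 := by
    intro j
    have e1 : π (ψ (hh (o01 n) (z j))) = diagU (dF (o0 n) (o1 n) (z j)) := hH _ _ _ _
    have e2 : π (ψ (hh (o02 n) (y j))) = diagU (dF (o0 n) (o2 n) (y j)) := hH _ _ _ _
    rw [sym, UCEaux.map_cm, UCEaux.map_cm, e1, e2]
    exact cm_eq_one (diag_comm n _ _ (hzy j))
  have hε : ∀ j, ε (ψ (sym (o01 n) (o02 n) (z j) (y j))) =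
      EE (dS (p ^ (e + 1)) G (Fin (n + 5))) (phiS (Fin (n + 5)) (ThN r' c X))
        (fK (p ^ (e + 1)) (rot k G (Fin (n + 5)) (p ^ (e + 1)))
          (iB k (p ^ (e + 1)) r' G (Fin (n + 5))) (tauS (p ^ (e + 1)) G (Fin (n + 5)))
          (phiS (Fin (n + 5)) (ThN r' c X))) (s j) (t j) := by
    intro j
    rw [sym, UCEaux.map_cm]
    exact hcm _ _ (s j) (t j) (diag_comm n _ _ (hzy j)) (hs j) (ht j) _ _ (hH _ _ _ _)
      (hH _ _ _ _)
  have hl : ∀ k ∈ (List.ofFn fun j => ψ (sym (o01 n) (o02 n) (z j) (y j))), π k = 1 := by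
    intro k hk
    rw [List.mem_ofFn] at hk
    obtain ⟨j, rfl⟩ := hk
    exact hπ j
  obtain ⟨hp1, hp2⟩ := eps_prod π ε hadd hε1 _ hl
  have hm := eps_pow π ε hadd hε1 _ hp1 m
  have hmap : (List.ofFn fun j => ψ (sym (o01 n) (o02 n) (z j) (y j))).prod =
      ψ (List.ofFn fun j => sym (o01 n) (o02 n) (z j) (y j)).prod := by
    rw [map_list_prod, List.map_ofFn]
    rfl
  have hfin : ∀ w, FinS k G n w → ψ w = 1 := by
    rintro w ⟨H, hHf, hHu, hw, hw1⟩
    have hπw : π (ψ w) = 1 := hw1 (π.comp ψ) hψ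
    obtain ⟨η, hη⟩ := hHET k (p ^ (e + 1)) G H hHf hHu c X hX hXc
    have hΘ := etaN_spec hTHE r' H c X η hη
    have h0 := etaN_zero r' η
    have hd1 : dS (p ^ (e + 1)) G (Fin (n + 5)) 1 = 0 := by
      have h := hd.d_mul 1 1
      rw [mul_one, mul_one, one_mul] at h
      exact left_eq_add.mp h
    obtain ⟨K, hK⟩ := exists_sub π q
      (InG (p ^ (e + 1)) (rot k G (Fin (n + 5)) (p ^ (e + 1)))
        (iB k (p ^ (e + 1)) r' G (Fin (n + 5))) (tauS (p ^ (e + 1)) G (Fin (n + 5)))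
        (TT k G (Fin (n + 5)) (p ^ (e + 1))) (DD k G (Fin (n + 5)) p e))
      (fun s => SH H (s : SR (p ^ (e + 1)) G (Fin (n + 5))) ∧
        SH H ((s⁻¹ : (SR (p ^ (e + 1)) G (Fin (n + 5)))ˣ) : SR (p ^ (e + 1)) G (Fin (n + 5))))
      (cc (dS (p ^ (e + 1)) G (Fin (n + 5))) (phiS (Fin (n + 5)) (ThN r' c X)))
      (fun s => hS (Fin (n + 5)) (etaN r' η)
        (((s⁻¹ : (SR (p ^ (e + 1)) G (Fin (n + 5)))ˣ) : SR (p ^ (e + 1)) G (Fin (n + 5))) *
          dS (p ^ (e + 1)) G (Fin (n + 5)) (s : SR (p ^ (e + 1)) G (Fin (n + 5)))))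
      hqmul (hQSB.one _ _ _ _ _ _ _ _ _ _ hd _ _)
      (fun y y' s s' h h' => hQSB.mul _ _ _ _ _ _ _ _ _ _ hd _ _ hT y y' s s' h h')
      (fun y s h => hQSB.inv _ _ _ _ _ _ _ _ _ _ hd _ _ hT hD y s h)
      ⟨by rw [Units.val_one]; exact hHSB.one _ _ _ _, by
        rw [inv_one, Units.val_one]; exact hHSB.one _ _ _ _⟩
      (fun s s' h h' => ⟨by rw [Units.val_mul]; exact hHSB.mul _ _ _ _ _ _ h.1 h'.1, by
        rw [mul_inv_rev, Units.val_mul]; exact hHSB.mul _ _ _ _ _ _ h'.2 h.2⟩)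
      (fun s h => ⟨h.2, by rw [inv_inv]; exact h.1⟩)
      (by
        show cc _ _ _ _ = _
        rw [cc, Units.val_one, hd1, mul_zero, mul_zero, map_zero, AddMonoidHom.zero_apply])
      (by
        show hS _ _ _ = _
        rw [Units.val_one, hd1, mul_zero, map_zero])
      (fun s t h h' => hHSC.coc _ _ _ H _ _ hΘ s t h.1 h.2 h'.1 h'.2)
    have hgen : ∀ y ∈ StH (Fin (n + 5)) k H, ψ y ∈ K := by
      have hle : StH (Fin (n + 5)) k H ≤ K.comap ψ := by
        rw [StH, Subgroup.closure_le]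
        rintro _ ⟨i, j, hij, a, ha, rfl⟩
        show ψ (xx hij a) ∈ K
        obtain ⟨l, hli, hlj, -, -⟩ := UCEaux.other π hcent (by omega) i j i j
        have key : ∀ (i j : Fin (n + 5)) (hij : i ≠ j) (a : MonoidAlgebra k G), Supp H a →
            ∃ κ ∈ K, π κ = π (ψ (xx hij a)) := by
          intro i j hij a ha
          obtain ⟨s, hs1, hs2, hs3⟩ := hHSD k p e r' hred G (Fin (n + 5)) (ThN r' c X) hd H
            (eM hij a) (supp_eM H hij ha)
            (by rw [eM_inv]; exact supp_eM H hij (supp_neg H ha))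
          have hπ1 := hπq _ _ (hS (Fin (n + 5)) (etaN r' η)
            (((s⁻¹ : (SR (p ^ (e + 1)) G (Fin (n + 5)))ˣ) : SR (p ^ (e + 1)) G (Fin (n + 5))) *
              dS (p ^ (e + 1)) G (Fin (n + 5)) (s : SR (p ^ (e + 1)) G (Fin (n + 5))))) hs3
          refine ⟨q (eM hij a) s (hS (Fin (n + 5)) (etaN r' η)
              (((s⁻¹ : (SR (p ^ (e + 1)) G (Fin (n + 5)))ˣ) : SR (p ^ (e + 1)) G (Fin (n + 5))) *
                dS (p ^ (e + 1)) G (Fin (n + 5)) (s : SR (p ^ (e + 1)) G (Fin (n + 5))))),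
            (hK _).2 ⟨s, ?_, ⟨hs1, hs2⟩, ?_⟩, ?_⟩
          · rw [hπ1]; exact hs3
          · rw [hπ1]
          · rw [hπ1, hψ]
        obtain ⟨κ1, hκ1, e1⟩ := key i l hli.symm a ha
        obtain ⟨κ2, hκ2, e2⟩ := key l j hlj 1 (supp_one H)
        have hx : (xx hij a : St (Fin (n + 5)) (MonoidAlgebra k G)) =
            cm (xx hli.symm a) (xx hlj 1) := by
          rw [STFaux.xx_mul hli.symm hlj hij, mul_one]
        have hx2 : ψ (xx hij a) = cm κ1 κ2 := by
          rw [hx, UCEaux.map_cm]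
          exact UCEaux.cmc π hcent e1.symm e2.symm
        rw [hx2, cm]
        exact K.mul_mem (K.mul_mem (K.mul_mem hκ1 hκ2) (K.inv_mem hκ1)) (K.inv_mem hκ2)
      exact fun y hy => hle hy
    obtain ⟨s, hs1, hs2, hs3⟩ := (hK _).1 (hgen w hw)
    rw [hπw] at hs1 hs3
    have hsK := hQSB.ker _ _ _ _ _ _ _ _ _ _ hd _ _ s hs1
    have hker := hHSC.ker k (p ^ (e + 1)) r' G (Fin (n + 5)) H _ _ hΘ h0 hd s hs2.1 hsK
    apply hinj _ hπw
    rw [hs3, hεq _ _ hs1, hker, sub_self]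
  have hLprod : ψ L.prod = 1 := by
    rw [map_list_prod]
    apply List.prod_eq_one
    intro w hw
    rw [List.mem_map] at hw
    obtain ⟨v, hv, rfl⟩ := hw
    exact hfin v (hL v hv)
  rw [hmap, ← map_pow, hrel, hLprod, hε1] at hm
  rw [← hmap, hp2, List.map_ofFn, List.sum_ofFn] at hm
  rw [hm]
  congr 1
  exact Finset.sum_congr rfl fun j _ => (hε j).symm

end Pool.Agent.Lib.MPb6f35e.K2
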