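import Pool.Agent.Lib.MP_b6f35e_al.K2.TRL

/-!
# K_2 theorem (MP_b6f35e_al), module PAD (helper87): the theorem over a subring of `ℤ_p`
-/

set_option autoImplicit false

noncomputable section

namespace Pool.Agent.Lib.MPb6f35e.K2

open Pool.Agent.Lib.MPb6f35e.WH

universe u v

namespace PADaux

/-! ### restriction to a subgroup -/

section res

variable {A : Type u} [CommRing A] {G : Type v} [Group G] (C : Subgroup G)

/-- The part of `x` over `C`, as an element of `A[C]`. -/
def res (x : MonoidAlgebra A G) : MonoidAlgebra A C :=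
  MonoidAlgebra.ofCoeff (x.coeff.comapDomain Subtype.val Subtype.val_injective.injOn)

lemma res_coeff (x : MonoidAlgebra A G) (c : C) : (res C x).coeff c = x.coeff (c : G) := by
  unfold res
  rw [MonoidAlgebra.coeff_ofCoeff]
  rfl

lemma sub_inj : Function.Injective (MonoidAlgebra.mapDomainRingHom A C.subtype) := by
  intro x y h
  have h1 : MonoidAlgebra.mapDomain C.subtype x = MonoidAlgebra.mapDomain C.subtype y := h
  exact MonoidAlgebra.mapDomain_injective C.subtype_injective h1

lemma map_coeff (x : MonoidAlgebra A C) (c : C) :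
    (MonoidAlgebra.mapDomainRingHom A C.subtype x).coeff (c : G) = x.coeff c := by
  have h1 : (MonoidAlgebra.mapDomainRingHom A C.subtype x).coeff =
      Finsupp.mapDomain C.subtype x.coeff := rfl
  rw [h1]
  exact Finsupp.mapDomain_apply C.subtype_injective x.coeff c

lemma map_coeff_out (x : MonoidAlgebra A C) (g : G) (hg : g ∉ C) :
    (MonoidAlgebra.mapDomainRingHom A C.subtype x).coeff g = 0 := by
  have h1 : (MonoidAlgebra.mapDomainRingHom A C.subtype x).coeff =
      Finsupp.mapDomain C.subtype x.coeff := rfl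
  rw [h1]
  refine Finsupp.mapDomain_of_notMem_range x.coeff g ?_
  rintro ⟨c, hc⟩
  exact hg (hc ▸ c.2)

lemma map_res (x : MonoidAlgebra A G) (hx : ∀ g, x.coeff g ≠ 0 → g ∈ C) :
    MonoidAlgebra.mapDomainRingHom A C.subtype (res C x) = x := by
  ext g
  by_cases hg : g ∈ C
  · have h1 := map_coeff C (res C x) ⟨g, hg⟩
    rw [res_coeff] at h1
    exact h1
  · rw [map_coeff_out C _ g hg]
    by_contra h
    exact hg (hx g (Ne.symm h))

/-- The unit `x` of `A[G]` over `C` as a unit of `A[C]`. -/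
def resU (x : (MonoidAlgebra A G)ˣ) (hx : ∀ g, x.val.coeff g ≠ 0 → g ∈ C)
    (hx' : ∀ g, x.inv.coeff g ≠ 0 → g ∈ C) : (MonoidAlgebra A C)ˣ where
  val := res C x.val
  inv := res C x.inv
  val_inv := sub_inj C (by rw [map_mul, map_res C _ hx, map_res C _ hx', map_one, x.val_inv])
  inv_val := sub_inj C (by rw [map_mul, map_res C _ hx, map_res C _ hx', map_one, x.inv_val])

end res

/-! ### units modulo `p` -/

section ModP

variable (p : ℕ) [Fact p.Prime]

theorem oneModP_mul {C : Type v} [Group C] {x y : MonoidAlgebra ℤ_[p] C} (hx : OneModP p x)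
    (hy : OneModP p y) : OneModP p (x * y) := by
  obtain ⟨a, rfl⟩ := hx
  obtain ⟨b, rfl⟩ := hy
  refine ⟨a + b + (p : ℤ_[p]) • (a * b), ?_⟩
  simp only [smul_add, mul_add, add_mul, one_mul, mul_one, smul_mul_assoc, mul_smul_comm]
  abel

theorem oneModP_pow {C : Type v} [Group C] {x : MonoidAlgebra ℤ_[p] C} (hx : OneModP p x)
    (n : ℕ) : OneModP p (x ^ n) := by
  induction n with
  | zero => exact ⟨0, by simp⟩
  | succ n ih => rw [pow_succ]; exact oneModP_mul p ih hx

theorem finite_ma {k C : Type*} [CommRing k] [Finite k] [Finite C] :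
    Finite (MonoidAlgebra k C) := by
  haveI : Finite (C →₀ k) := Finite.of_injective (fun f : C →₀ k => (f : C → k))
    DFunLike.coe_injective
  exact Finite.of_injective (fun x : MonoidAlgebra k C => x.coeff) (fun x y h => by
    ext c; exact congrArg (fun f : C →₀ k => f c) h)

theorem exists_pow {C : Type v} [Group C] [Finite C] (x : (MonoidAlgebra ℤ_[p] C)ˣ) :
    ∃ M : ℕ, 0 < M ∧ OneModP p ((x : MonoidAlgebra ℤ_[p] C) ^ M) := by
  haveI : NeZero p := ⟨(Fact.out : p.Prime).ne_zero⟩
  haveI : Finite (MonoidAlgebra (ZMod p) C) := finite_ma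
  haveI : Finite (MonoidAlgebra (ZMod p) C)ˣ := inferInstance
  let q := MonoidAlgebra.mapRingHom C (PadicInt.toZMod (p := p))
  refine ⟨Nat.card (MonoidAlgebra (ZMod p) C)ˣ, Nat.card_pos, ?_⟩
  set M := Nat.card (MonoidAlgebra (ZMod p) C)ˣ
  have h1 : (Units.map q.toMonoidHom x) ^ M = 1 := pow_card_eq_one'
  have h2 : q ((x : MonoidAlgebra ℤ_[p] C) ^ M - 1) = 0 := by
    rw [map_sub, map_pow, map_one, sub_eq_zero]
    exact congrArg (fun u : (MonoidAlgebra (ZMod p) C)ˣ => (u : MonoidAlgebra (ZMod p) C)) h1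
  have h3 : ∀ c, ∃ b : ℤ_[p], ((x : MonoidAlgebra ℤ_[p] C) ^ M - 1).coeff c = p * b := by
    intro c
    have h4 := congrArg (fun z : MonoidAlgebra (ZMod p) C => z.coeff c) h2
    simp only [q, MonoidAlgebra.coeff_mapRingHom] at h4
    have h5 : ((x : MonoidAlgebra ℤ_[p] C) ^ M - 1).coeff c ∈
        RingHom.ker (PadicInt.toZMod (p := p)) := h4
    rw [PadicInt.ker_toZMod, PadicInt.maximalIdeal_eq_span_p, Ideal.mem_span_singleton] at h5
    exact h5
  choose b hb using h3
  refine ⟨MonoidAlgebra.ofCoeff (Finsupp.equivFunOnFinite.symm b), ?_⟩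
  rw [← sub_eq_iff_eq_add']
  ext c
  rw [hb]
  simp

end ModP

/-- `X(c) = 0` if `c` has finite order. -/
lemma hom_zero {p : ℕ} [Fact p.Prime] {G : Type v} [Group G] (c : G) (X : G → ℤ_[p])
    (hc : IsOfFinOrder c) (hX : HomOn c X) : X c = 0 := by
  have h1 : X 1 = 0 := by
    have h := hX 1 1 (by simp) (by simp)
    rw [mul_one] at h
    simpa using h
  have h2 : ∀ k : ℕ, X (c ^ k) = k * X c := by
    intro k
    induction k with
    | zero => simp [h1]
    | succ k ih =>
      rw [pow_succ, hX _ _ (by rw [← pow_succ, ← pow_succ']) rfl, ih]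
      push_cast
      ring
  obtain ⟨k, hk, hck⟩ := hc.exists_pow_eq_one
  have h3 := h2 k
  rw [hck, h1] at h3
  rcases mul_eq_zero.1 h3.symm with h | h
  · exact absurd (Nat.cast_eq_zero.1 h) hk.ne'
  · exact h

/-- A sum over `G` of a function which vanishes outside `C`. -/
lemma finsum_sub {G : Type v} [Group G] {M : Type u} [AddCommMonoid M] (C : Subgroup G)
    [Fintype C] (F : G → M) (hF : ∀ g, g ∉ C → F g = 0) : ∑ᶠ g, F g = ∑ h : C, F h := by
  classical
  have h1 : ∑ᶠ h : (C : Set G), F h = ∑ᶠ g ∈ (C : Set G), F g :=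
    finsum_set_coe_eq_finsum_mem (C : Set G)
  have h2 : ∑ᶠ g ∈ (C : Set G), F g = ∑ᶠ g, F g := by
    refine finsum_congr fun g => ?_
    rw [finsum_eq_if]
    by_cases hg : g ∈ (C : Set G)
    · rw [if_pos hg]
    · rw [if_neg hg, hF g hg]
  rw [← h2, ← h1, ← finsum_eq_sum_of_fintype]
  rfl

lemma tsum_up {R : Type u} [CommRing R] {G : Type v} [Group G] (l : List (GenT R G)) (a : ℕ) :
    tsum R G (l.map fun y => TRLaux.up y (a : ℤ)) = a • tsum R G l := by
  unfold tsum
  rw [List.map_map]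
  induction l with
  | nil => simp
  | cons y t ih =>
    rw [List.map_cons, List.sum_cons, ih, List.map_cons, List.sum_cons, smul_add]
    congr 1
    show D1.cls (RelT R G) (TRLaux.up y (a : ℤ)) = _
    rw [TRLaux.up_cls, natCast_zsmul]

lemma oneModP_map {p : ℕ} [Fact p.Prime] {C : Type v} [Group C] {G : Type v} [Group G]
    (φ : C →* G) {x : MonoidAlgebra ℤ_[p] C} (hx : OneModP p x) :
    OneModP p (MonoidAlgebra.mapDomainRingHom ℤ_[p] φ x) := by
  obtain ⟨b, rfl⟩ := hx
  refine ⟨MonoidAlgebra.mapDomainRingHom ℤ_[p] φ b, ?_⟩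
  have h1 : ∀ z : MonoidAlgebra ℤ_[p] C, MonoidAlgebra.mapDomainRingHom ℤ_[p] φ ((p : ℤ_[p]) • z) =
      (p : ℤ_[p]) • MonoidAlgebra.mapDomainRingHom ℤ_[p] φ z := by
    intro z
    have h2 : ((p : ℤ_[p]) • z) = (p : MonoidAlgebra ℤ_[p] C) * z := by
      rw [← nsmul_eq_mul, Nat.cast_smul_eq_nsmul]
    have h3 : ((p : ℤ_[p]) • MonoidAlgebra.mapDomainRingHom ℤ_[p] φ z) =
        (p : MonoidAlgebra ℤ_[p] G) * MonoidAlgebra.mapDomainRingHom ℤ_[p] φ z := by
      rw [← nsmul_eq_mul, Nat.cast_smul_eq_nsmul]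
    rw [h2, h3, map_mul, map_natCast]
  rw [map_add, map_one, h1]

end PADaux

open PADaux

theorem specPAD (hREL : SpecREL.{v}) (hSTF : SpecSTF.{max u v, v}) (hLGG : SpecLGG.{u, v})
    (hTHE : SpecTHE.{v, 0}) (hTRL : SpecTRL.{u, v}) (hAL2 : SpecAL2.{u, v}) :
    SpecPAD.{u, v} := by
  classical
  intro p _ hp R₀ _ i hi G _ l hl n m hm hprod
  set f : MonoidAlgebra R₀ G →+* MonoidAlgebra ℤ_[p] G := MonoidAlgebra.mapRingHom G i with hf
  have hfc : ∀ (a : MonoidAlgebra R₀ G) g, (f a).coeff g ≠ 0 → a.coeff g ≠ 0 := by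
    intro a g h h'
    apply h
    rw [hf, MonoidAlgebra.coeff_mapRingHom, h', map_zero]
  -- the units of the group rings of the finite cyclic groups
  let x : ∀ j : Fin l.length, (MonoidAlgebra ℤ_[p] (l.get j).C)ˣ := fun j =>
    resU (l.get j).C (Units.map f.toMonoidHom (l.get j).u)
      (fun g h => (l.get j).ov g (hfc _ g h)) (fun g h => (l.get j).ov' g (hfc _ g h))
  have hx : ∀ j, MonoidAlgebra.mapDomainRingHom ℤ_[p] (l.get j).C.subtype (x j).val =
      f (l.get j).u.val := fun j => map_res _ _ (fun g h => (l.get j).ov g (hfc _ g h))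
  have hfin : ∀ j : Fin l.length, Finite (l.get j).C := fun j => (l.get j).fin
  have hcyc : ∀ j : Fin l.length, IsCyclic (l.get j).C := fun j => (l.get j).cyc
  let ft : ∀ j : Fin l.length, Fintype (l.get j).C := fun j => @Fintype.ofFinite _ (hfin j)
  let cg : ∀ j : Fin l.length, CommGroup (l.get j).C := fun j =>
    @IsCyclic.commGroup _ _ (hcyc j)
  -- the exponent
  have hpw : ∀ j, ∃ M : ℕ, 0 < M ∧ OneModP p ((x j : MonoidAlgebra ℤ_[p] (l.get j).C) ^ M) :=
    fun j => @exists_pow p _ _ _ (hfin j) (x j)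
  choose M hM hM' using hpw
  set a : ℕ := ∏ j, M j with hadef
  have ha : 0 < a := Finset.prod_pos fun j _ => hM j
  have hone : ∀ j, OneModP p ((x j : MonoidAlgebra ℤ_[p] (l.get j).C) ^ a) := by
    intro j
    obtain ⟨k, hk⟩ : M j ∣ a := Finset.dvd_prod_of_mem M (Finset.mem_univ j)
    rw [hk, pow_mul]
    exact oneModP_pow p (hM' j) k
  -- the relation over the p-adic integers
  have hrel : ((List.ofFn fun j : Fin l.length => sym (o01 n) (o02 n) (gU ℤ_[p] (l.get j).z)
      (Units.map (MonoidAlgebra.mapDomainRingHom ℤ_[p] (l.get j).C.subtype).toMonoidHom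
        (x j))).prod) ^ m = 1 := by
    obtain ⟨F, -, hF⟩ := hSTF (MonoidAlgebra R₀ G) (MonoidAlgebra ℤ_[p] G) f (Fin (n + 5))
    have h1 := congrArg F hprod
    rw [map_pow, map_one, map_list_prod, List.map_map] at h1
    have h2 : (List.ofFn fun j : Fin l.length => sym (o01 n) (o02 n) (gU ℤ_[p] (l.get j).z)
        (Units.map (MonoidAlgebra.mapDomainRingHom ℤ_[p] (l.get j).C.subtype).toMonoidHom
          (x j))) = l.map (F ∘ fun y => sym (o01 n) (o02 n) (gU R₀ y.z) y.u) := by
      conv_rhs => rw [← List.ofFn_get l, List.map_ofFn]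
      congr 1
      funext j
      show _ = F (sym (o01 n) (o02 n) (gU R₀ (l.get j).z) (l.get j).u)
      rw [hF]
      have e1 : Units.map f.toMonoidHom (gU R₀ (l.get j).z) = gU ℤ_[p] (l.get j).z := by
        apply Units.ext
        show f (MonoidAlgebra.single (l.get j).z 1) = MonoidAlgebra.single (l.get j).z 1
        rw [hf]
        ext g
        rw [MonoidAlgebra.coeff_mapRingHom, MonoidAlgebra.coeff_single, MonoidAlgebra.coeff_single,
          Finsupp.single_apply, Finsupp.single_apply]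
        split_ifs
        · rw [map_one]
        · rw [map_zero]
      have e2 : Units.map f.toMonoidHom (l.get j).u = Units.map
          (MonoidAlgebra.mapDomainRingHom ℤ_[p] (l.get j).C.subtype).toMonoidHom (x j) := by
        apply Units.ext
        exact (hx j).symm
      rw [e1, e2]
    rw [h2]
    exact h1
  -- the logarithms
  have key : ∀ (c : G) (X : G → ℤ_[p]), HomOn c X → X c = 0 →
      ∑ j : Fin l.length, @Finset.sum _ _ _ (@Finset.univ _ (ft j)) (fun h : (l.get j).C =>
        ((Th c X (l.get j).z h : ℤ_[p]) : ℚ_[p]) *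
          lgP p ((x j : MonoidAlgebra ℤ_[p] (l.get j).C) ^ a) h) = 0 := by
    intro c X hX hX0
    exact @hREL p _ hp G _ n m l.length hm (fun j => (l.get j).C) cg ft
      (fun j => by
        have h := hl (l.get j) (List.get_mem l j)
        rwa [@Nat.card_eq_fintype_card _ (ft j)] at h)
      (fun j => (l.get j).C.subtype) (fun j => (l.get j).z)
      (fun j h => (l.get j).comm h h.2) x hrel c X hX hX0 a ha hone
  have hval : ∀ j : Fin l.length, f (TRLaux.up (l.get j) (a : ℤ)).u.val =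
      MonoidAlgebra.mapDomainRingHom ℤ_[p] (l.get j).C.subtype
        ((x j : MonoidAlgebra ℤ_[p] (l.get j).C) ^ a) := by
    intro j
    show f ((l.get j).u ^ (a : ℤ)).val = _
    rw [zpow_natCast, map_pow, hx j, ← map_pow]
    rfl
  obtain ⟨m₂, hm₂, h₂⟩ := hAL2 p hp R₀ i hi G (l.map fun y => TRLaux.up y (a : ℤ))
    (by
      intro y hy
      rw [List.mem_map] at hy
      obtain ⟨y0, hy0, rfl⟩ := hy
      obtain ⟨j, rfl⟩ := List.mem_iff_get.1 hy0
      show OneModP p (f (TRLaux.up (l.get j) (a : ℤ)).u.val)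
      rw [hval j]
      exact oneModP_map _ (hone j))
    (by
      intro c X hc hX
      have h0 := key c X hX (hom_zero c X hc hX)
      rw [List.map_map]
      have h3 : l.map ((fun y => SG p i c X y) ∘ fun y => TRLaux.up y (a : ℤ)) =
          List.ofFn fun j : Fin l.length => SG p i c X (TRLaux.up (l.get j) (a : ℤ)) := by
        conv_lhs => rw [← List.ofFn_get l, List.map_ofFn]
        rfl
      rw [h3, List.sum_ofFn, ← h0]
      refine Finset.sum_congr rfl fun j _ => ?_
      letI := ft j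
      have h4 : SG p i c X (TRLaux.up (l.get j) (a : ℤ)) =
          ∑ᶠ g : G, ((Th c X (l.get j).z g : ℤ_[p]) : ℚ_[p]) *
            lgP p (MonoidAlgebra.mapDomainRingHom ℤ_[p] (l.get j).C.subtype
              ((x j : MonoidAlgebra ℤ_[p] (l.get j).C) ^ a)) g := by
        unfold SG LG
        refine finsum_congr fun g => ?_
        rw [← hval j]
        rfl
      rw [h4, finsum_sub (l.get j).C]
      · refine Finset.sum_congr rfl fun h _ => ?_
        rw [hLGG.pull p hp G (l.get j).C]
      · intro g hg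
        rw [hLGG.out p hp G (l.get j).C _ ?_ g hg, mul_zero]
        intro g' hg'
        by_contra h5
        exact hg' (map_coeff_out _ _ g' h5))
  refine ⟨m₂ * a, Nat.mul_pos hm₂ ha, ?_⟩
  have h5 : tsum R₀ G (l.map fun y => TRLaux.up y (a : ℤ)) = a • tsum R₀ G l := by
    exact tsum_up l a
  have h6 : {D : Subgroup G | ∃ y ∈ l.map fun y => TRLaux.up y (a : ℤ), D ≤ y.C} =
      {D | ∃ y ∈ l, D ≤ y.C} := by
    ext D
    constructor
    · rintro ⟨y, hy, hD⟩
      rw [List.mem_map] at hy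
      obtain ⟨y0, hy0, rfl⟩ := hy
      exact ⟨y0, hy0, hD⟩
    · rintro ⟨y, hy, hD⟩
      exact ⟨TRLaux.up y (a : ℤ), List.mem_map.2 ⟨y, hy, rfl⟩, hD⟩
  rw [h6, h5, smul_smul] at h₂
  exact h₂

end Pool.Agent.Lib.MPb6f35e.K2
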