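import Pool.Agent.Lib.MP_b6f35e_al.K2.SpecF
import Pool.Agent.Lib.MP_b6f35e_al.K2.PAD
import Pool.Agent.Lib.MP_b6f35e_al.K2.STF
import Pool.Agent.Lib.MP_b6f35e_al.K2.UCE

/-!
# K_2 theorem (MP_b6f35e_al), module PA2 (helper73): the theorem over a subring of `ℤ_p`, modulo the
`K_2` of the finite subgroups
-/

set_option autoImplicit false

noncomputable section

namespace Pool.Agent.Lib.MPb6f35e.K2

open Pool.Agent.Lib.MPb6f35e.WH

universe u v

namespace PA2aux

section std

variable {n : ℕ} {A : Type u} [Ring A]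

lemma eM_rel : ∀ r ∈ {x : FreeGroup (StGen (Fin n) A) | StRel (Fin n) A x},
    FreeGroup.lift (fun x : StGen (Fin n) A => eM x.ne x.a) r = 1 := by
  intro r hr
  cases hr with
  | add i j h a b =>
    rw [map_mul, map_mul, map_inv, FreeGroup.lift_apply_of, FreeGroup.lift_apply_of,
      FreeGroup.lift_apply_of, UCEaux.eM_add, mul_inv_cancel]
  | comm i j k l h h' hjk hil a b =>
    rw [STFaux.map_cm, FreeGroup.lift_apply_of, FreeGroup.lift_apply_of]
    unfold cm
    rw [UCEaux.eM_comm h h' hjk hil, mul_inv_cancel_right, mul_inv_cancel]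
  | mul i j k h h' h'' a b =>
    rw [map_mul, map_inv, STFaux.map_cm, FreeGroup.lift_apply_of, FreeGroup.lift_apply_of,
      FreeGroup.lift_apply_of, UCEaux.eM_mul h h' h'', mul_inv_cancel]

/-- The standard homomorphism from the Steinberg group to the general linear group. -/
def std : St (Fin n) A →* (Matrix (Fin n) (Fin n) A)ˣ := PresentedGroup.toGroup eM_rel

lemma std_xx {i j : Fin n} (h : i ≠ j) (a : A) : std (xx h a) = eM h a :=
  PresentedGroup.toGroup.of eM_rel

lemma hom_ext {Y : Type v} [Group Y] (F F' : St (Fin n) A →* Y)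
    (h : ∀ (i j : Fin n) (hij : i ≠ j) (a : A), F (xx hij a) = F' (xx hij a)) : F = F' :=
  PresentedGroup.ext fun x => h x.i x.j x.ne x.a

end std

lemma gl_eM {n : ℕ} {A : Type u} {B : Type v} [Ring A] [Ring B] (f : A →+* B) {i j : Fin n}
    (h : i ≠ j) (a : A) :
    Units.map (f.mapMatrix (m := Fin n)).toMonoidHom (eM h a) = eM h (f a) := by
  apply Units.ext
  show f.mapMatrix (1 + Matrix.single i j a) = 1 + Matrix.single i j (f a)
  rw [map_add, map_one, RingHom.mapMatrix_apply, Matrix.map_single]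

lemma isUnit_of_not_dvd (p : ℕ) [Fact p.Prime] (c : ℕ) (h : ¬ p ∣ c) :
    IsUnit ((c : ℕ) : ℤ_[p]) := by
  rw [PadicInt.isUnit_iff, PadicInt.norm_natCast_eq_one_iff]
  exact (Nat.Prime.coprime_iff_not_dvd Fact.out).2 h

theorem finS_map {p : ℕ} [Fact p.Prime] {R₀ : Type u} [CommRing R₀] {G : Type v} [Group G] {n : ℕ}
    (f : MonoidAlgebra R₀ G →+* MonoidAlgebra ℤ_[p] G)
    (hfc : ∀ (a : MonoidAlgebra R₀ G) g, (f a).coeff g ≠ 0 → a.coeff g ≠ 0)
    (F : St (Fin (n + 5)) (MonoidAlgebra R₀ G) →* St (Fin (n + 5)) (MonoidAlgebra ℤ_[p] G))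
    (hF : ∀ (i j : Fin (n + 5)) (h : i ≠ j) (a : MonoidAlgebra R₀ G), F (xx h a) = xx h (f a))
    (y : St (Fin (n + 5)) (MonoidAlgebra R₀ G)) (H : Subgroup G) (hH : Finite H)
    (hp : ¬ p ∣ Nat.card H) (hy : y ∈ StH (Fin (n + 5)) R₀ H)
    (hθ : ∀ θ : St (Fin (n + 5)) (MonoidAlgebra R₀ G) →*
      (Matrix (Fin (n + 5)) (Fin (n + 5)) (MonoidAlgebra R₀ G))ˣ,
      (∀ (i j : Fin (n + 5)) (h : i ≠ j) (a : MonoidAlgebra R₀ G), θ (xx h a) = eM h a) →
        θ y = 1) : FinS ℤ_[p] G n (F y) := by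
  refine ⟨H, hH, isUnit_of_not_dvd p _ hp, ?_, ?_⟩
  · have h1 : StH (Fin (n + 5)) R₀ H ≤ (StH (Fin (n + 5)) ℤ_[p] H).comap F := by
      refine (Subgroup.closure_le _).2 ?_
      rintro w ⟨i, j, h, a, ha, rfl⟩
      show F (xx h a) ∈ StH (Fin (n + 5)) ℤ_[p] H
      rw [hF]
      exact Subgroup.subset_closure ⟨i, j, h, f a, fun g hg => ha g (hfc a g hg), rfl⟩
    exact h1 hy
  · intro θ hθ'
    have h1 : θ.comp F = (Units.map (f.mapMatrix (m := Fin (n + 5))).toMonoidHom).comp std := by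
      refine hom_ext _ _ fun i j h a => ?_
      rw [MonoidHom.comp_apply, MonoidHom.comp_apply, hF, hθ', std_xx, gl_eM]
    have h2 : θ (F y) = Units.map (f.mapMatrix (m := Fin (n + 5))).toMonoidHom (std y) :=
      DFunLike.congr_fun h1 y
    rw [h2, hθ std fun i j h a => std_xx h a, map_one]

end PA2aux

open PADaux

theorem specPA2 (hRE2 : SpecRE2.{v}) (hSTF : SpecSTF.{max u v, v}) (hLGG : SpecLGG.{u, v})
    (hTHE : SpecTHE.{v, 0}) (hTRL : SpecTRL.{u, v}) (hAL2 : SpecAL2.{u, v}) :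
    SpecPA2.{u, v} := by
  classical
  intro p _ hp R₀ _ i hi G _ l hl n m hm L hL hprod
  set f : MonoidAlgebra R₀ G →+* MonoidAlgebra ℤ_[p] G := MonoidAlgebra.mapRingHom G i with hf
  have hfc : ∀ (a : MonoidAlgebra R₀ G) g, (f a).coeff g ≠ 0 → a.coeff g ≠ 0 := by
    intro a g h h'
    apply h
    rw [hf, MonoidAlgebra.coeff_mapRingHom, h', map_zero]
  -- the units of the group rings of the finite cyclic groups
  let x : ∀ j : Fin l.length, (MonoidAlgebra ℤ_[p] (l.get j).C)ˣ := fun j =>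
    resU (l.get j).C (Units.map f.toMonoidHom (l.get j).u)
      (fun g h => (l.get j).ov g (hfc _ g h)) (fun g h => (l.get j).ov' g (hfc _ g h))
  have hx : ∀ j, MonoidAlgebra.mapDomainRingHom ℤ_[p] (l.get j).C.subtype (x j).val =
      f (l.get j).u.val := fun j => map_res _ _ (fun g h => (l.get j).ov g (hfc _ g h))
  have hfin : ∀ j : Fin l.length, Finite (l.get j).C := fun j => (l.get j).fin
  have hcyc : ∀ j : Fin l.length, IsCyclic (l.get j).C := fun j => (l.get j).cyc
  let ft : ∀ j : Fin l.length, Fintype (l.get j).C := fun j => @Fintype.ofFinite _ (hfin j)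
  let cg : ∀ j : Fin l.length, CommGroup (l.get j).C := fun j =>
    @IsCyclic.commGroup _ _ (hcyc j)
  -- the exponent
  have hpw : ∀ j, ∃ M : ℕ, 0 < M ∧ OneModP p ((x j : MonoidAlgebra ℤ_[p] (l.get j).C) ^ M) :=
    fun j => @exists_pow p _ _ _ (hfin j) (x j)
  choose M hM hM' using hpw
  set a : ℕ := ∏ j, M j with hadef
  have ha : 0 < a := Finset.prod_pos fun j _ => hM j
  have hone : ∀ j, OneModP p ((x j : MonoidAlgebra ℤ_[p] (l.get j).C) ^ a) := by
    intro j
    obtain ⟨k, hk⟩ : M j ∣ a := Finset.dvd_prod_of_mem M (Finset.mem_univ j)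
    rw [hk, pow_mul]
    exact oneModP_pow p (hM' j) k
  -- the relation over the p-adic integers
  obtain ⟨F, hFx, hF⟩ := hSTF (MonoidAlgebra R₀ G) (MonoidAlgebra ℤ_[p] G) f (Fin (n + 5))
  have hLF : ∀ y ∈ L.map F, FinS ℤ_[p] G n y := by
    intro y hy
    rw [List.mem_map] at hy
    obtain ⟨w, hw, rfl⟩ := hy
    obtain ⟨H, hHf, hHp, hwH, hwθ⟩ := hL w hw
    exact PA2aux.finS_map f hfc F hFx w H hHf hHp hwH hwθ
  have hrel : ((List.ofFn fun j : Fin l.length => sym (o01 n) (o02 n) (gU ℤ_[p] (l.get j).z)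
      (Units.map (MonoidAlgebra.mapDomainRingHom ℤ_[p] (l.get j).C.subtype).toMonoidHom
        (x j))).prod) ^ m = (L.map F).prod := by
    have h1 := congrArg F hprod
    rw [map_pow, map_list_prod, map_list_prod, List.map_map] at h1
    have h2 : (List.ofFn fun j : Fin l.length => sym (o01 n) (o02 n) (gU ℤ_[p] (l.get j).z)
        (Units.map (MonoidAlgebra.mapDomainRingHom ℤ_[p] (l.get j).C.subtype).toMonoidHom
          (x j))) = l.map (F ∘ fun y => sym (o01 n) (o02 n) (gU R₀ y.z) y.u) := by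
      conv_rhs => rw [← List.ofFn_get l, List.map_ofFn]
      congr 1
      funext j
      show _ = F (sym (o01 n) (o02 n) (gU R₀ (l.get j).z) (l.get j).u)
      rw [hF]
      have e1 : Units.map f.toMonoidHom (gU R₀ (l.get j).z) = gU ℤ_[p] (l.get j).z := by
        apply Units.ext
        show f (MonoidAlgebra.single (l.get j).z 1) = MonoidAlgebra.single (l.get j).z 1
        rw [hf]
        ext g
        rw [MonoidAlgebra.coeff_mapRingHom, MonoidAlgebra.coeff_single, MonoidAlgebra.coeff_single,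
          Finsupp.single_apply, Finsupp.single_apply]
        split_ifs
        · rw [map_one]
        · rw [map_zero]
      have e2 : Units.map f.toMonoidHom (l.get j).u = Units.map
          (MonoidAlgebra.mapDomainRingHom ℤ_[p] (l.get j).C.subtype).toMonoidHom (x j) := by
        apply Units.ext
        exact (hx j).symm
      rw [e1, e2]
    rw [h2]
    exact h1
  -- the logarithms
  have key : ∀ (c : G) (X : G → ℤ_[p]), HomOn c X → X c = 0 →
      ∑ j : Fin l.length, @Finset.sum _ _ _ (@Finset.univ _ (ft j)) (fun h : (l.get j).C =>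
        ((Th c X (l.get j).z h : ℤ_[p]) : ℚ_[p]) *
          lgP p ((x j : MonoidAlgebra ℤ_[p] (l.get j).C) ^ a) h) = 0 := by
    intro c X hX hX0
    exact @hRE2 p _ hp G _ n m l.length hm (fun j => (l.get j).C) cg ft
      (fun j => by
        have h := hl (l.get j) (List.get_mem l j)
        rwa [@Nat.card_eq_fintype_card _ (ft j)] at h)
      (fun j => (l.get j).C.subtype) (fun j => (l.get j).z)
      (fun j h => (l.get j).comm h h.2) x ⟨L.map F, hLF, hrel⟩ c X hX hX0 a ha hone
  have hval : ∀ j : Fin l.length, f (TRLaux.up (l.get j) (a : ℤ)).u.val =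
      MonoidAlgebra.mapDomainRingHom ℤ_[p] (l.get j).C.subtype
        ((x j : MonoidAlgebra ℤ_[p] (l.get j).C) ^ a) := by
    intro j
    show f ((l.get j).u ^ (a : ℤ)).val = _
    rw [zpow_natCast, map_pow, hx j, ← map_pow]
    rfl
  obtain ⟨m₂, hm₂, h₂⟩ := hAL2 p hp R₀ i hi G (l.map fun y => TRLaux.up y (a : ℤ))
    (by
      intro y hy
      rw [List.mem_map] at hy
      obtain ⟨y0, hy0, rfl⟩ := hy
      obtain ⟨j, rfl⟩ := List.mem_iff_get.1 hy0
      show OneModP p (f (TRLaux.up (l.get j) (a : ℤ)).u.val)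
      rw [hval j]
      exact oneModP_map _ (hone j))
    (by
      intro c X hc hX
      have h0 := key c X hX (hom_zero c X hc hX)
      rw [List.map_map]
      have h3 : l.map ((fun y => SG p i c X y) ∘ fun y => TRLaux.up y (a : ℤ)) =
          List.ofFn fun j : Fin l.length => SG p i c X (TRLaux.up (l.get j) (a : ℤ)) := by
        conv_lhs => rw [← List.ofFn_get l, List.map_ofFn]
        rfl
      rw [h3, List.sum_ofFn, ← h0]
      refine Finset.sum_congr rfl fun j _ => ?_
      letI := ft j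
      have h4 : SG p i c X (TRLaux.up (l.get j) (a : ℤ)) =
          ∑ᶠ g : G, ((Th c X (l.get j).z g : ℤ_[p]) : ℚ_[p]) *
            lgP p (MonoidAlgebra.mapDomainRingHom ℤ_[p] (l.get j).C.subtype
              ((x j : MonoidAlgebra ℤ_[p] (l.get j).C) ^ a)) g := by
        unfold SG LG
        refine finsum_congr fun g => ?_
        rw [← hval j]
        rfl
      rw [h4, finsum_sub (l.get j).C]
      · refine Finset.sum_congr rfl fun h _ => ?_
        rw [hLGG.pull p hp G (l.get j).C]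
      · intro g hg
        rw [hLGG.out p hp G (l.get j).C _ ?_ g hg, mul_zero]
        intro g' hg'
        by_contra h5
        exact hg' (map_coeff_out _ _ g' h5))
  refine ⟨m₂ * a, Nat.mul_pos hm₂ ha, ?_⟩
  have h5 : tsum R₀ G (l.map fun y => TRLaux.up y (a : ℤ)) = a • tsum R₀ G l := by
    exact tsum_up l a
  have h6 : {D : Subgroup G | ∃ y ∈ l.map fun y => TRLaux.up y (a : ℤ), D ≤ y.C} =
      {D | ∃ y ∈ l, D ≤ y.C} := by
    ext D
    constructor
    · rintro ⟨y, hy, hD⟩
      rw [List.mem_map] at hy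
      obtain ⟨y0, hy0, rfl⟩ := hy
      exact ⟨y0, hy0, hD⟩
    · rintro ⟨y, hy, hD⟩
      exact ⟨TRLaux.up y (a : ℤ), List.mem_map.2 ⟨y, hy, rfl⟩, hD⟩
  rw [h6, h5, smul_smul] at h₂
  exact h₂

end Pool.Agent.Lib.MPb6f35e.K2
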