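import Pool.Agent.Lib.MP_b6f35e_al.K2.SpecE

/-!
# K_2 theorem (MP_b6f35e_al), module REL (helper49)
-/

set_option autoImplicit false

noncomputable section

namespace Pool.Agent.Lib.MPb6f35e.K2

open Pool.Agent.Lib.MPb6f35e.WH

universe u v

namespace RELaux

lemma pow_root {W : Type*} [Group W] (p M : ℕ) (hp : Nat.Coprime p M) (x : W) (hx : x ^ M = 1) :
    x ^ (p ^ Nat.totient M) = x := by
  have h1 : p ^ Nat.totient M ≡ 1 [MOD M] := Nat.ModEq.pow_totient hp
  have h2 : p ^ Nat.totient M ≡ 1 [MOD orderOf x] := h1.of_dvd (orderOf_dvd_of_pow_eq_one hx)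
  have h3 := pow_eq_pow_iff_modEq.2 h2
  rw [h3, pow_one]

/-- Elements with `x^M = 1` are powers of their `p`-th powers. -/
lemma pow_root' {W : Type*} [Group W] (p M : ℕ) (hM : 0 < M) (hp : Nat.Coprime p M) (x : W)
    (hx : x ^ M = 1) : (x ^ p) ^ (p ^ (Nat.totient M - 1)) = x := by
  rw [← pow_mul, ← pow_succ']
  have : Nat.totient M - 1 + 1 = Nat.totient M := Nat.sub_add_cancel (Nat.totient_pos.2 hM)
  rw [this]
  exact pow_root p M hp x hx

lemma X_one {W M : Type*} [Group W] [AddCommGroup M] {c : W} {X : W → M} (h : HomOn c X) :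
    X 1 = 0 := by
  have := h 1 1 (by simp) (by simp)
  rw [one_mul] at this
  simpa using this

lemma X_pow {W M : Type*} [Group W] [AddCommGroup M] {c : W} {X : W → M} (h : HomOn c X)
    (hc : X c = 0) (n : ℕ) : X (c ^ n) = 0 := by
  induction n with
  | zero => rw [pow_zero]; exact X_one h
  | succ n ih =>
    rw [pow_succ, h _ _ (pow_mul_comm' c n) rfl, ih, hc, add_zero]

lemma conj_pow_eq {W : Type*} [Group W] (t x : W) (n : ℕ) : t * x ^ n * t⁻¹ = (t * x * t⁻¹) ^ n := by
  rw [conj_pow]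

/-- `Θ_(d^p)(z; g^p) = Θ_d(z; g)` if `d^M = g^M = 1`. -/
lemma Th_pow {W : Type v} {A : Type u} [Group W] [AddCommGroup A] (hTHE : SpecTHE.{v, u})
    (p M : ℕ) (hM : 0 < M) (hp : Nat.Coprime p M) (d : W) (X : W → A) (hd : d ^ M = 1)
    (h1 : HomOn d X) (h2 : HomOn (d ^ p) X) (z g : W) (hz : z * g = g * z) (hg : g ^ M = 1) :
    Th (d ^ p) X z (g ^ p) = Th d X z g := by
  by_cases h : ∃ t, t * d * t⁻¹ = g
  · obtain ⟨t, ht⟩ := h
    have ht' : t * d ^ p * t⁻¹ = g ^ p := by rw [conj_pow_eq, ht]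
    have hz' : z * g ^ p = g ^ p * z := (Commute.pow_right (show Commute z g from hz) p).eq
    rw [hTHE.val W A (d ^ p) X h2 z (g ^ p) t hz' ht', hTHE.val W A d X h1 z g t hz ht]
  · have h' : ¬ ∃ t, t * d ^ p * t⁻¹ = g ^ p := by
      rintro ⟨t, ht⟩
      apply h
      refine ⟨t, ?_⟩
      have := congrArg (fun y => y ^ (p ^ (Nat.totient M - 1))) ht
      change (t * d ^ p * t⁻¹) ^ (p ^ (Nat.totient M - 1)) = (g ^ p) ^ (p ^ (Nat.totient M - 1))
        at this
      rw [← conj_pow_eq, pow_root' p M hM hp d hd, pow_root' p M hM hp g hg] at this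
      exact this
    rw [hTHE.zero W A (d ^ p) X z (g ^ p) h', hTHE.zero W A d X z g h]

end RELaux

open RELaux in
theorem specREL (hLIM : SpecLIM.{v}) (hTHE : SpecTHE.{v, 0}) : SpecREL.{v} := by
  intro p _ hp2 G _ n m R hm C _ _ hcard φ z hz x hrel c X hX hXc a ha hone
  classical
  set S : G → ℚ_[p] := fun c => ∑ j, ∑ h, ((Th c X (z j) (φ j h) : ℤ_[p]) : ℚ_[p]) *
    lgP p ((x j : MonoidAlgebra ℤ_[p] (C j)) ^ a) h with hS
  show S c = 0
  set M : ℕ := ∏ j, Fintype.card (C j) with hMdef
  have hM : 0 < M := Finset.prod_pos fun j _ => Fintype.card_pos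
  have hprime : p.Prime := Fact.out
  have hpM : Nat.Coprime p M := by
    apply Nat.Coprime.prod_right
    intro j _
    exact (Nat.Prime.coprime_iff_not_dvd hprime).2 (hcard j)
  have hcM : ∀ j (h : C j), h ^ M = 1 := by
    intro j h
    have hd : Fintype.card (C j) ∣ M := Finset.dvd_prod_of_mem _ (Finset.mem_univ j)
    obtain ⟨q, hq⟩ := hd
    rw [hq, pow_mul, pow_card_eq_one, one_pow]
  by_cases hex : ∃ j, ∃ h : C j, ∃ t, t * c * t⁻¹ = φ j h
  · obtain ⟨j0, h0, t0, ht0⟩ := hex
    have hc : c ^ M = 1 := by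
      have h1 : (t0 * c * t0⁻¹) ^ M = 1 := by rw [ht0, ← map_pow, hcM, map_one]
      rw [conj_pow] at h1
      have h2 := congrArg (fun y => t0⁻¹ * y * t0) h1
      simp only [mul_assoc, inv_mul_cancel_left, inv_mul_cancel, mul_one] at h2
      exact h2
    -- the step
    have step : ∀ d : G, d ^ M = 1 → HomOn d X → X d = 0 → S d = (p : ℚ_[p]) * S (d ^ p) := by
      intro d hd h1 h2
      have h3 : HomOn (d ^ p) X := by
        intro a b ha hb
        have comm : ∀ y : G, y * d ^ p = d ^ p * y → y * d = d * y := by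
          intro y hy
          have := (Commute.pow_right (show Commute y (d ^ p) from hy)
            (p ^ (Nat.totient M - 1))).eq
          rwa [pow_root' p M hM hpM d hd] at this
        exact h1 a b (comm a ha) (comm b hb)
      have h4 : X (d ^ p) = 0 := X_pow h1 h2 p
      have h5 := hLIM p hp2 G n m R hm C φ z hz x hrel (d ^ p) X h3 h4 a ha hone
      have h6 : ∀ j (h : C j), Th (d ^ p) X (z j) (φ j (h ^ p)) = Th d X (z j) (φ j h) := by
        intro j h
        rw [map_pow]
        exact Th_pow hTHE p M hM hpM d X hd h1 h3 (z j) (φ j h) (hz j h)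
          (by rw [← map_pow, hcM, map_one])
      simp only [h6] at h5
      have hp0 : (p : ℚ_[p]) ≠ 0 := by exact_mod_cast hprime.ne_zero
      show S d = (p : ℚ_[p]) * S (d ^ p)
      have h7 : S (d ^ p) = (p : ℚ_[p])⁻¹ * S d := h5
      rw [h7, mul_inv_cancel_left₀ hp0]
    have iter : ∀ i : ℕ, c ^ (p ^ i) ^ 1 = c ^ (p ^ i) ∧
        HomOn (c ^ (p ^ i)) X ∧ X (c ^ (p ^ i)) = 0 ∧ S c = (p : ℚ_[p]) ^ i * S (c ^ (p ^ i)) := by
      intro i
      refine ⟨by rw [pow_one], ?_, X_pow hX hXc _, ?_⟩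
      · intro a b ha hb
        have comm : ∀ y : G, y * c ^ (p ^ i) = c ^ (p ^ i) * y → y * c = c * y := by
          intro y hy
          have h1 := pow_root' (p ^ i) M hM (Nat.Coprime.pow_left i hpM) c hc
          have := (Commute.pow_right (show Commute y (c ^ (p ^ i)) from hy)
            ((p ^ i) ^ (Nat.totient M - 1))).eq
          rwa [h1] at this
        exact hX a b (comm a ha) (comm b hb)
      · induction i with
        | zero => simp
        | succ i ih =>
          have hH : HomOn (c ^ (p ^ i)) X := by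
            intro a b ha hb
            have comm : ∀ y : G, y * c ^ (p ^ i) = c ^ (p ^ i) * y → y * c = c * y := by
              intro y hy
              have h1 := pow_root' (p ^ i) M hM (Nat.Coprime.pow_left i hpM) c hc
              have := (Commute.pow_right (show Commute y (c ^ (p ^ i)) from hy)
                ((p ^ i) ^ (Nat.totient M - 1))).eq
              rwa [h1] at this
            exact hX a b (comm a ha) (comm b hb)
          have hd : (c ^ (p ^ i)) ^ M = 1 := by rw [← pow_mul, mul_comm, pow_mul, hc, one_pow]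
          rw [ih, step (c ^ (p ^ i)) hd hH (X_pow hX hXc _), ← pow_mul, ← pow_succ, ← mul_assoc,
            ← pow_succ]
    have hfin := (iter (Nat.totient M)).2.2.2
    rw [pow_root p M hpM c hc] at hfin
    have hpos : 0 < Nat.totient M := Nat.totient_pos.2 hM
    have hne : (p : ℚ_[p]) ^ Nat.totient M ≠ 1 := by
      have h1 : 1 < p ^ Nat.totient M := Nat.one_lt_pow hpos.ne' hprime.one_lt
      intro h
      have h2 : ((p ^ Nat.totient M : ℕ) : ℚ_[p]) = ((1 : ℕ) : ℚ_[p]) := by
        push_cast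
        exact h
      have h3 := Nat.cast_injective h2
      omega
    have h8 : ((p : ℚ_[p]) ^ Nat.totient M - 1) * S c = 0 := by
      rw [sub_mul, one_mul, ← hfin, sub_self]
    rcases mul_eq_zero.1 h8 with h9 | h9
    · exact absurd (sub_eq_zero.1 h9) hne
    · exact h9
  · show S c = 0
    apply Finset.sum_eq_zero
    intro j _
    apply Finset.sum_eq_zero
    intro h _
    rw [hTHE.zero G ℤ_[p] c X (z j) (φ j h) (fun ⟨t, ht⟩ => hex ⟨j, h, t, ht⟩)]
    simp

end Pool.Agent.Lib.MPb6f35e.K2
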