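import Pool.Agent.Lib.MP_b6f35e_al.K2.SpecF
import Pool.Agent.Lib.MP_b6f35e_al.K2.LIM
import Pool.Agent.Lib.MP_b6f35e_al.K2.REL

/-!
# K_2 theorem, module RE2: limit and relation, modulo the finite part (proofs of helper26, helper49)
-/

set_option autoImplicit false

noncomputable section

namespace Pool.Agent.Lib.MPb6f35e.K2

open Pool.Agent.Lib.MPb6f35e.WH

universe u v w x

/-- LI2: as LIM, modulo the finite part. -/
def SpecLI2 : Prop :=
  ∀ (p : ℕ) [Fact p.Prime] (_ : p ≠ 2) (G : Type v) [Group G] (n m R : ℕ) (_ : 0 < m)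
    (C : Fin R → Type v) [∀ j, CommGroup (C j)] [∀ j, Fintype (C j)] (φ : ∀ j, C j →* G)
    (z : Fin R → G) (_ : ∀ j h, z j * φ j h = φ j h * z j)
    (x : ∀ j, (MonoidAlgebra ℤ_[p] (C j))ˣ) (_ : RelS2 p G n m R C φ z x)
    (c : G) (X : G → ℤ_[p]) (_ : HomOn c X) (_ : X c = 0) (a : ℕ) (_ : 0 < a)
    (_ : ∀ j, OneModP p ((x j : MonoidAlgebra ℤ_[p] (C j)) ^ a)),
    ∑ j, ∑ h, ((Th c X (z j) (φ j h) : ℤ_[p]) : ℚ_[p]) * lgP p ((x j : MonoidAlgebra ℤ_[p] (C j)) ^ a) h =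
      (p : ℚ_[p])⁻¹ * ∑ j, ∑ h, ((Th c X (z j) (φ j (h ^ p)) : ℤ_[p]) : ℚ_[p]) *
        lgP p ((x j : MonoidAlgebra ℤ_[p] (C j)) ^ a) h

open LIMaux L3

theorem specLI2 (hFLV : SpecFL2.{v}) (hEXB : SpecEXB.{0, v}) (hL : SpecLP.{v}) :
    SpecLI2.{v} := by
  intro p _ hp G _ n m R hm C _ _ φ z hz x hrel c X hX hXc a ha hone
  have hpr : p.Prime := Fact.out
  have hp0 : (p : ℚ_[p]) ≠ 0 := by exact_mod_cast hpr.ne_zero
  have hne : ∀ e, NeZero (p ^ e) := fun e => ⟨pow_ne_zero _ hpr.ne_zero⟩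
  set xa : ∀ j, (MonoidAlgebra ℤ_[p] (C j))ˣ := fun j => x j ^ a with hxa
  have hxa1 : ∀ j, OneModP p (xa j : MonoidAlgebra ℤ_[p] (C j)) := fun j => by
    rw [hxa, Units.val_pow_eq_pow_val]; exact hone j
  set t : ∀ j, C j → ℤ_[p] := fun j h => Th c X (z j) (φ j h) with ht
  set t' : ∀ j, C j → ℤ_[p] := fun j h => Th c X (z j) (φ j (h ^ p)) with ht'
  have key : ∀ e : ℕ, ∃ s : ℤ_[p],
      (m : ℚ_[p]) * ∑ j, ((∑ h, ((t j h : ℤ_[p]) : ℚ_[p]) *
          lgSeqP p (xa j : MonoidAlgebra ℤ_[p] (C j)) h (e + 1)) -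
        (p : ℚ_[p])⁻¹ * ∑ h, ((t' j h : ℤ_[p]) : ℚ_[p]) *
          lgSeqP p (xa j : MonoidAlgebra ℤ_[p] (C j)) h e) =
        (p : ℚ_[p]) ^ (e + 1) * (s : ℚ_[p]) := by
    intro e
    haveI := hne e
    haveI := hne (e + 1)
    choose b hb using fun j => hEXB ℤ_[p] p e (frob p) (C j) (x j)
    have h1 := hFLV p hp G n m R C φ z hz x hrel c X hX hXc e b hb
    choose a1 ha1 using fun j => exists_a p (xa j : MonoidAlgebra ℤ_[p] (C j)) (hxa1 j) e
    choose a2 ha2 using fun j => exists_a p (xa j : MonoidAlgebra ℤ_[p] (C j)) (hxa1 j) (e + 1)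
    choose b' w hb' hw using fun j => exists_b (xa j) e (a1 j) (a2 j) (ha1 j) (ha2 j)
    choose w' hw' using fun j => step (x j) a e (b j) (b' j) (hb j) (hb' j)
    rw [Finset.sum_congr rfl fun j _ => vl_eq e c X (z j) (φ j) (b j), ← map_sum, ← map_nsmul] at h1
    have h2 : m • ∑ j, V (t j) (b j) ∈ RingHom.ker (PadicInt.toZModPow (p := p) (e + 1)) := h1
    rw [PadicInt.ker_toZModPow, Ideal.mem_span_singleton] at h2
    obtain ⟨s, hs⟩ := h2
    refine ⟨a * s + m * ∑ j, (V (t j) (w' j) - V (t j) (w j)), ?_⟩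
    have h3 : ∀ j, (∑ h, ((t j h : ℤ_[p]) : ℚ_[p]) *
          lgSeqP p (xa j : MonoidAlgebra ℤ_[p] (C j)) h (e + 1)) -
        (p : ℚ_[p])⁻¹ * ∑ h, ((t' j h : ℤ_[p]) : ℚ_[p]) *
          lgSeqP p (xa j : MonoidAlgebra ℤ_[p] (C j)) h e =
        ((a * V (t j) (b j) + (p : ℤ_[p]) ^ (e + 1) * (V (t j) (w' j) - V (t j) (w j)) : ℤ_[p]) :
          ℚ_[p]) := by
      intro j
      have e1 : ∑ h, ((t j h : ℤ_[p]) : ℚ_[p]) *
          lgSeqP p (xa j : MonoidAlgebra ℤ_[p] (C j)) h (e + 1) =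
          (p : ℚ_[p]) * ((V (t j) (a2 j) : ℤ_[p]) : ℚ_[p]) := by
        rw [V_coe, Finset.mul_sum]
        refine Finset.sum_congr rfl fun h _ => ?_
        rw [lgSeqP_eq (ha2 j) h]
        ring
      have e2 : ∑ h, ((t' j h : ℤ_[p]) : ℚ_[p]) *
          lgSeqP p (xa j : MonoidAlgebra ℤ_[p] (C j)) h e =
          (p : ℚ_[p]) * ((V (t' j) (a1 j) : ℤ_[p]) : ℚ_[p]) := by
        rw [V_coe, Finset.mul_sum]
        refine Finset.sum_congr rfl fun h _ => ?_
        rw [lgSeqP_eq (ha1 j) h]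
        ring
      have e3 : V (t' j) (a1 j) = V (t j) (powC ℤ_[p] (C j) p (a1 j)) := (V_powC (t j) (a1 j)).symm
      have e4 : (a : ℤ_[p]) * V (t j) (b j) + (p : ℤ_[p]) ^ (e + 1) * V (t j) (w' j) =
          (p : ℤ_[p]) * V (t j) (a2 j) - V (t j) (powC ℤ_[p] (C j) p (a1 j)) +
            (p : ℤ_[p]) ^ (e + 1) * V (t j) (w j) := by
        have h5 := congrArg (V (t j)) ((hw' j).symm.trans (hw j))
        simpa only [map_add, map_sub, map_smul, smul_eq_mul] using h5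
      rw [e1, e2, e3]
      have e5 := congrArg (fun y : ℤ_[p] => (y : ℚ_[p])) e4
      push_cast at e5 ⊢
      rw [inv_mul_cancel_left₀ hp0]
      linear_combination -e5
    rw [Finset.sum_congr rfl fun j _ => h3 j, ← PadicInt.coe_sum]
    have h6 : (m : ℤ_[p]) * ∑ j, ((a : ℤ_[p]) * V (t j) (b j) +
          (p : ℤ_[p]) ^ (e + 1) * (V (t j) (w' j) - V (t j) (w j))) =
        (p : ℤ_[p]) ^ (e + 1) * (a * s + m * ∑ j, (V (t j) (w' j) - V (t j) (w j))) := by
      rw [nsmul_eq_mul] at hs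
      rw [Finset.sum_add_distrib, ← Finset.mul_sum, ← Finset.mul_sum]
      linear_combination (a : ℤ_[p]) * hs
    have h7 := congrArg (fun y : ℤ_[p] => (y : ℚ_[p])) h6
    push_cast at h7 ⊢
    exact h7
  choose s hs using key
  set L : ∀ j, C j → ℚ_[p] := fun j => lgP p (xa j : MonoidAlgebra ℤ_[p] (C j)) with hLdef
  have t1 : ∀ j h, Filter.Tendsto (fun e => lgSeqP p (xa j : MonoidAlgebra ℤ_[p] (C j)) h (e + 1))
      Filter.atTop (nhds (L j h)) := fun j h =>
    (hL.tends p hp (C j) (xa j : MonoidAlgebra ℤ_[p] (C j)) (hxa1 j) h).comp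
      (Filter.tendsto_add_atTop_nat 1)
  have t2 : ∀ j h, Filter.Tendsto (fun e => lgSeqP p (xa j : MonoidAlgebra ℤ_[p] (C j)) h e)
      Filter.atTop (nhds (L j h)) := fun j h =>
    hL.tends p hp (C j) (xa j : MonoidAlgebra ℤ_[p] (C j)) (hxa1 j) h
  have t3 : Filter.Tendsto (fun e => (m : ℚ_[p]) * ∑ j, ((∑ h, ((t j h : ℤ_[p]) : ℚ_[p]) *
          lgSeqP p (xa j : MonoidAlgebra ℤ_[p] (C j)) h (e + 1)) -
        (p : ℚ_[p])⁻¹ * ∑ h, ((t' j h : ℤ_[p]) : ℚ_[p]) *
          lgSeqP p (xa j : MonoidAlgebra ℤ_[p] (C j)) h e)) Filter.atTop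
      (nhds ((m : ℚ_[p]) * ∑ j, ((∑ h, ((t j h : ℤ_[p]) : ℚ_[p]) * L j h) -
        (p : ℚ_[p])⁻¹ * ∑ h, ((t' j h : ℤ_[p]) : ℚ_[p]) * L j h))) := by
    refine Filter.Tendsto.const_mul _ (tendsto_finsetSum _ fun j _ => ?_)
    refine (tendsto_finsetSum _ fun h _ => (t1 j h).const_mul _).sub ?_
    exact (tendsto_finsetSum _ fun h _ => (t2 j h).const_mul _).const_mul _
  have t4 := tendsto_pow_mul s
  have t5 : (m : ℚ_[p]) * ∑ j, ((∑ h, ((t j h : ℤ_[p]) : ℚ_[p]) * L j h) -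
        (p : ℚ_[p])⁻¹ * ∑ h, ((t' j h : ℤ_[p]) : ℚ_[p]) * L j h) = 0 := by
    refine tendsto_nhds_unique t3 ?_
    refine t4.congr fun e => ?_
    exact (hs e).symm
  have hmQ : (m : ℚ_[p]) ≠ 0 := by exact_mod_cast hm.ne'
  have t6 := (mul_eq_zero.1 t5).resolve_left hmQ
  rw [Finset.sum_sub_distrib, ← Finset.mul_sum, sub_eq_zero] at t6
  exact t6

open RELaux in
theorem specRE2 (hFLV : SpecFL2.{v}) (hEXB : SpecEXB.{0, v}) (hL : SpecLP.{v})
    (hTHE : SpecTHE.{v, 0}) : SpecRE2.{v} := by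
  have hLIM : SpecLI2.{v} := specLI2 hFLV hEXB hL
  intro p _ hp2 G _ n m R hm C _ _ hcard φ z hz x hrel c X hX hXc a ha hone
  classical
  set S : G → ℚ_[p] := fun c => ∑ j, ∑ h, ((Th c X (z j) (φ j h) : ℤ_[p]) : ℚ_[p]) *
    lgP p ((x j : MonoidAlgebra ℤ_[p] (C j)) ^ a) h with hS
  show S c = 0
  set M : ℕ := ∏ j, Fintype.card (C j) with hMdef
  have hM : 0 < M := Finset.prod_pos fun j _ => Fintype.card_pos
  have hprime : p.Prime := Fact.out
  have hpM : Nat.Coprime p M := by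
    apply Nat.Coprime.prod_right
    intro j _
    exact (Nat.Prime.coprime_iff_not_dvd hprime).2 (hcard j)
  have hcM : ∀ j (h : C j), h ^ M = 1 := by
    intro j h
    have hd : Fintype.card (C j) ∣ M := Finset.dvd_prod_of_mem _ (Finset.mem_univ j)
    obtain ⟨q, hq⟩ := hd
    rw [hq, pow_mul, pow_card_eq_one, one_pow]
  by_cases hex : ∃ j, ∃ h : C j, ∃ t, t * c * t⁻¹ = φ j h
  · obtain ⟨j0, h0, t0, ht0⟩ := hex
    have hc : c ^ M = 1 := by
      have h1 : (t0 * c * t0⁻¹) ^ M = 1 := by rw [ht0, ← map_pow, hcM, map_one]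
      rw [conj_pow] at h1
      have h2 := congrArg (fun y => t0⁻¹ * y * t0) h1
      simp only [mul_assoc, inv_mul_cancel_left, inv_mul_cancel, mul_one] at h2
      exact h2
    -- the step
    have step : ∀ d : G, d ^ M = 1 → HomOn d X → X d = 0 → S d = (p : ℚ_[p]) * S (d ^ p) := by
      intro d hd h1 h2
      have h3 : HomOn (d ^ p) X := by
        intro a b ha hb
        have comm : ∀ y : G, y * d ^ p = d ^ p * y → y * d = d * y := by
          intro y hy
          have := (Commute.pow_right (show Commute y (d ^ p) from hy)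
            (p ^ (Nat.totient M - 1))).eq
          rwa [pow_root' p M hM hpM d hd] at this
        exact h1 a b (comm a ha) (comm b hb)
      have h4 : X (d ^ p) = 0 := X_pow h1 h2 p
      have h5 := hLIM p hp2 G n m R hm C φ z hz x hrel (d ^ p) X h3 h4 a ha hone
      have h6 : ∀ j (h : C j), Th (d ^ p) X (z j) (φ j (h ^ p)) = Th d X (z j) (φ j h) := by
        intro j h
        rw [map_pow]
        exact Th_pow hTHE p M hM hpM d X hd h1 h3 (z j) (φ j h) (hz j h)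
          (by rw [← map_pow, hcM, map_one])
      simp only [h6] at h5
      have hp0 : (p : ℚ_[p]) ≠ 0 := by exact_mod_cast hprime.ne_zero
      show S d = (p : ℚ_[p]) * S (d ^ p)
      have h7 : S (d ^ p) = (p : ℚ_[p])⁻¹ * S d := h5
      rw [h7, mul_inv_cancel_left₀ hp0]
    have iter : ∀ i : ℕ, c ^ (p ^ i) ^ 1 = c ^ (p ^ i) ∧
        HomOn (c ^ (p ^ i)) X ∧ X (c ^ (p ^ i)) = 0 ∧ S c = (p : ℚ_[p]) ^ i * S (c ^ (p ^ i)) := by
      intro i
      refine ⟨by rw [pow_one], ?_, X_pow hX hXc _, ?_⟩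
      · intro a b ha hb
        have comm : ∀ y : G, y * c ^ (p ^ i) = c ^ (p ^ i) * y → y * c = c * y := by
          intro y hy
          have h1 := pow_root' (p ^ i) M hM (Nat.Coprime.pow_left i hpM) c hc
          have := (Commute.pow_right (show Commute y (c ^ (p ^ i)) from hy)
            ((p ^ i) ^ (Nat.totient M - 1))).eq
          rwa [h1] at this
        exact hX a b (comm a ha) (comm b hb)
      · induction i with
        | zero => simp
        | succ i ih =>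
          have hH : HomOn (c ^ (p ^ i)) X := by
            intro a b ha hb
            have comm : ∀ y : G, y * c ^ (p ^ i) = c ^ (p ^ i) * y → y * c = c * y := by
              intro y hy
              have h1 := pow_root' (p ^ i) M hM (Nat.Coprime.pow_left i hpM) c hc
              have := (Commute.pow_right (show Commute y (c ^ (p ^ i)) from hy)
                ((p ^ i) ^ (Nat.totient M - 1))).eq
              rwa [h1] at this
            exact hX a b (comm a ha) (comm b hb)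
          have hd : (c ^ (p ^ i)) ^ M = 1 := by rw [← pow_mul, mul_comm, pow_mul, hc, one_pow]
          rw [ih, step (c ^ (p ^ i)) hd hH (X_pow hX hXc _), ← pow_mul, ← pow_succ, ← mul_assoc,
            ← pow_succ]
    have hfin := (iter (Nat.totient M)).2.2.2
    rw [pow_root p M hpM c hc] at hfin
    have hpos : 0 < Nat.totient M := Nat.totient_pos.2 hM
    have hne : (p : ℚ_[p]) ^ Nat.totient M ≠ 1 := by
      have h1 : 1 < p ^ Nat.totient M := Nat.one_lt_pow hpos.ne' hprime.one_lt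
      intro h
      have h2 : ((p ^ Nat.totient M : ℕ) : ℚ_[p]) = ((1 : ℕ) : ℚ_[p]) := by
        push_cast
        exact h
      have h3 := Nat.cast_injective h2
      omega
    have h8 : ((p : ℚ_[p]) ^ Nat.totient M - 1) * S c = 0 := by
      rw [sub_mul, one_mul, ← hfin, sub_self]
    rcases mul_eq_zero.1 h8 with h9 | h9
    · exact absurd (sub_eq_zero.1 h9) hne
    · exact h9
  · show S c = 0
    apply Finset.sum_eq_zero
    intro j _
    apply Finset.sum_eq_zero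
    intro h _
    rw [hTHE.zero G ℤ_[p] c X (z j) (φ j h) (fun ⟨t, ht⟩ => hex ⟨j, h, t, ht⟩)]
    simp

end Pool.Agent.Lib.MPb6f35e.K2
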