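import Pool.Agent.Lib.MP_b6f35e_al.K2.SpecE

/-! # Module RED: `ℤ_p` and the reduction modulo `p^(e+1)`. -/

set_option autoImplicit false

noncomputable section

namespace Pool.Agent.Lib.MPb6f35e.K2

open Pool.Agent.Lib.MPb6f35e.WH

theorem specRED : SpecRED := by
  intro p _ e
  refine ⟨fun c h => ?_, fun c => ?_, fun x hx => ?_⟩
  · rcases mul_eq_zero.1 h with h1 | h1
    · exact absurd h1 (by exact_mod_cast (Fact.out : p.Prime).ne_zero)
    · exact h1
  · rw [← Ideal.mem_span_singleton, ← PadicInt.maximalIdeal_eq_span_p, ← PadicInt.ker_toZMod,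
      RingHom.mem_ker, map_sub, map_pow, ZMod.pow_card, sub_self]
  · have h1 : x ∈ RingHom.ker (PadicInt.toZModPow (p := p) (e + 1)) := hx
    rw [PadicInt.ker_toZModPow, Ideal.mem_span_singleton] at h1
    obtain ⟨y, hy⟩ := h1
    refine ⟨y, ?_⟩
    rw [hy]
    push_cast
    ring

end Pool.Agent.Lib.MPb6f35e.K2
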