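import Pool.Agent.Lib.MP_b6f35e_al.K2.SpecC

/-!
# K_2 theorem (MP_b6f35e_al), module TDN (helper32)
-/

set_option autoImplicit false

noncomputable section

namespace Pool.Agent.Lib.MPb6f35e.K2

open Pool.Agent.Lib.MPb6f35e.WH

universe u v

namespace TDNaux

theorem iter_fix {R : Type*} [Ring R] (ρ : R →+* R) (c : R) (hc : ρ c = c) (j : ℕ) :
    ρ^[j] c = c := Function.iterate_fixed hc j

theorem iter_mul {R : Type*} [Ring R] (ρ : R →+* R) (c z : R) (hc : ρ c = c) (j : ℕ) :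
    ρ^[j] (c * z) = c * ρ^[j] z := by
  rw [iterate_map_mul, iter_fix ρ c hc]

theorem iter_neg {R : Type*} [Ring R] (ρ : R →+* R) (z : R) (j : ℕ) :
    ρ^[j] (-z) = - ρ^[j] z := iterate_map_neg ρ j z

theorem nm_mul_left {R : Type*} [Ring R] (ρ : R →+* R) (N : ℕ) (c z : R) (hc : ρ c = c) :
    nm ρ N (c * z) = c * nm ρ N z := by
  unfold nm
  rw [Finset.mul_sum]
  exact Finset.sum_congr rfl fun j _ => iter_mul ρ c z hc j

theorem nm_neg {R : Type*} [Ring R] (ρ : R →+* R) (N : ℕ) (z : R) :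
    nm ρ N (-z) = - nm ρ N z := by
  unfold nm
  rw [← Finset.sum_neg_distrib]
  exact Finset.sum_congr rfl fun j _ => iter_neg ρ z j

end TDNaux

open TDNaux in
theorem specTDN : SpecTDN.{u, v} := by
  intro k _ p e _ _ _ hk G _ ι _ _ y
  have hT : rot k G ι (p ^ (e + 1)) (TT k G ι (p ^ (e + 1)) y) = TT k G ι (p ^ (e + 1)) y :=
    specT.rotTens k G ι (p ^ (e + 1)) y
  have hD : rot k G ι (p ^ (e + 1)) (DD k G ι p e y) = DD k G ι p e y :=
    specT.rotDhat k G ι p e y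
  have hTi : rot k G ι (p ^ (e + 1)) (((TT k G ι (p ^ (e + 1)) y)⁻¹ :
      (TR k G ι (p ^ (e + 1)))ˣ) : TR k G ι (p ^ (e + 1))) =
      (((TT k G ι (p ^ (e + 1)) y)⁻¹ : (TR k G ι (p ^ (e + 1)))ˣ) : TR k G ι (p ^ (e + 1))) := by
    rw [← map_inv]
    exact specT.rotTens k G ι (p ^ (e + 1)) _
  obtain ⟨z, hz⟩ := specN.norm k G ι p e hk (y : Matrix ι ι (MonoidAlgebra k G))
  refine ⟨hT, hD, -((((TT k G ι (p ^ (e + 1)) y)⁻¹ :
      (TR k G ι (p ^ (e + 1)))ˣ) : TR k G ι (p ^ (e + 1))) * z), ?_⟩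
  rw [nm_neg, nm_mul_left _ _ _ _ hTi, hz]
  have h1 : tens k G ι (p ^ (e + 1)) (y : Matrix ι ι (MonoidAlgebra k G)) =
      (TT k G ι (p ^ (e + 1)) y : TR k G ι (p ^ (e + 1))) := rfl
  have h2 : dhat k G ι p e (y : Matrix ι ι (MonoidAlgebra k G)) =
      (DD k G ι p e y : TR k G ι (p ^ (e + 1))) := rfl
  rw [h1, h2, mul_add, mul_one, mul_neg, ← mul_assoc, Units.mul_inv, one_mul]
  abel

end Pool.Agent.Lib.MPb6f35e.K2
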