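import Pool.Agent.Lib.MP_b6f35e_al.K2.SpecC

/-!
# K_2 theorem (MP_b6f35e_al), module THE: the cocycle (helper75)
-/

set_option autoImplicit false

noncomputable section

namespace Pool.Agent.Lib.MPb6f35e.K2

open Pool.Agent.Lib.MPb6f35e.WH

universe u v w x

namespace THEaux

variable {W : Type u} [Group W]

theorem sec_spec {c g : W} (h : ∃ t, t * c * t⁻¹ = g) : sec c g * c * (sec c g)⁻¹ = g := by
  unfold sec
  rw [dif_pos h]
  exact h.choose_spec

theorem comm {c g s s' a : W} (h1 : s * c * s⁻¹ = g) (h2 : s' * c * s'⁻¹ = a * g * a⁻¹) :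
    (s'⁻¹ * a * s) * c = c * (s'⁻¹ * a * s) := by
  have e1 : s * c = g * s := by rw [← h1]; group
  have e2 : s'⁻¹ * (a * g * a⁻¹) = c * s'⁻¹ := by rw [← h2]; group
  calc (s'⁻¹ * a * s) * c = s'⁻¹ * a * (s * c) := by group
    _ = s'⁻¹ * a * (g * s) := by rw [e1]
    _ = (s'⁻¹ * (a * g * a⁻¹)) * (a * s) := by group
    _ = (c * s'⁻¹) * (a * s) := by rw [e2]
    _ = c * (s'⁻¹ * a * s) := by group

theorem one {M : Type v} [AddCommGroup M] {c : W} {X : W → M} (hX : HomOn c X) : X 1 = 0 := by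
  have h := hX 1 1 (by simp) (by simp)
  rw [mul_one] at h
  simpa using h

end THEaux

theorem specTHE : SpecTHE.{u, v} where
  coc := by
    intro W M _ _ c X hX a b g
    by_cases h : ∃ t, t * c * t⁻¹ = g
    · have h2 : ∃ t, t * c * t⁻¹ = b * g * b⁻¹ := by
        obtain ⟨t, ht⟩ := h
        exact ⟨b * t, by rw [← ht]; group⟩
      have e : a * b * g * (a * b)⁻¹ = a * (b * g * b⁻¹) * a⁻¹ := by group
      have h3 : ∃ t, t * c * t⁻¹ = a * (b * g * b⁻¹) * a⁻¹ := by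
        obtain ⟨t, ht⟩ := h2
        exact ⟨a * t, by rw [← ht]; group⟩
      unfold Th
      rw [if_pos h, if_pos h2, if_pos h, e, ← hX _ _ (THEaux.comm (THEaux.sec_spec h2) (THEaux.sec_spec h3))
        (THEaux.comm (THEaux.sec_spec h) (THEaux.sec_spec h2))]
      congr 1
      group
    · have h2 : ¬ ∃ t, t * c * t⁻¹ = b * g * b⁻¹ := by
        rintro ⟨t, ht⟩
        refine h ⟨b⁻¹ * t, ?_⟩
        calc b⁻¹ * t * c * (b⁻¹ * t)⁻¹ = b⁻¹ * (t * c * t⁻¹) * b := by group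
          _ = g := by rw [ht]; group
      unfold Th
      rw [if_neg h, if_neg h2, if_neg h, add_zero]
  self := by
    intro W M _ _ c X hX hc g
    unfold Th
    by_cases h : ∃ t, t * c * t⁻¹ = g
    · rw [if_pos h, mul_inv_cancel_right]
      have h1 := THEaux.sec_spec h
      have h2 : (sec c g)⁻¹ * g * sec c g = c := by
        conv_lhs => rw [← h1]
        rw [h1]
        conv_lhs => enter [1, 2]; rw [← h1]
        group
      rw [h2, hc]
    · rw [if_neg h]
  val := by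
    intro W M _ _ c X hX a g t hag ht
    have h : ∃ t, t * c * t⁻¹ = g := ⟨t, ht⟩
    have e : a * g * a⁻¹ = g := by rw [hag]; group
    have hs := THEaux.sec_spec h
    unfold Th
    rw [if_pos h, e]
    have hy : (t⁻¹ * sec c g) * c = c * (t⁻¹ * sec c g) := by
      have := THEaux.comm (a := 1) hs (s' := t) (by rw [ht]; group)
      rw [mul_one] at this
      exact this
    have hy' : (t⁻¹ * sec c g)⁻¹ * c = c * (t⁻¹ * sec c g)⁻¹ := by
      rw [inv_mul_eq_iff_eq_mul, ← mul_assoc, hy, mul_inv_cancel_right]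
    have hm : (t⁻¹ * a * t) * c = c * (t⁻¹ * a * t) :=
      THEaux.comm ht (by rw [ht, e])
    have e2 : (sec c g)⁻¹ * a * sec c g =
        (t⁻¹ * sec c g)⁻¹ * ((t⁻¹ * a * t) * (t⁻¹ * sec c g)) := by group
    have hmy : ((t⁻¹ * a * t) * (t⁻¹ * sec c g)) * c = c * ((t⁻¹ * a * t) * (t⁻¹ * sec c g)) := by
      rw [mul_assoc, hy, ← mul_assoc, hm, mul_assoc]
    have h0 : X (t⁻¹ * sec c g)⁻¹ + X (t⁻¹ * sec c g) = 0 := by
      rw [← hX _ _ hy' hy, inv_mul_cancel, THEaux.one hX]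
    rw [e2, hX _ _ hy' hmy, hX _ _ hm hy]
    calc X (t⁻¹ * sec c g)⁻¹ + (X (t⁻¹ * a * t) + X (t⁻¹ * sec c g))
        = X (t⁻¹ * a * t) + (X (t⁻¹ * sec c g)⁻¹ + X (t⁻¹ * sec c g)) := by abel
      _ = X (t⁻¹ * a * t) := by rw [h0, add_zero]
  zero := by
    intro W M _ _ c X a g h
    unfold Th
    rw [if_neg h]

end Pool.Agent.Lib.MPb6f35e.K2
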