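import Pool.Agent.Lib.MP_b6f35e_al.K2.SpecD
import Pool.Agent.Lib.MP_b6f35e_al.K2.ABS

/-!
# K_2 theorem (MP_b6f35e_al), module VL1: the value in size one
-/

set_option autoImplicit false
set_option linter.unusedSectionVars false

noncomputable section

namespace Pool.Agent.Lib.MPb6f35e.K2

open Pool.Agent.Lib.MPb6f35e.WH

universe u v w x

namespace VL1aux

section one

variable {k : Type u} [CommRing k] {G : Type v} [Group G]

/-- `1 × 1` matrices over the index set `ZMod N → Unit`. -/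
lemma one_of {R : Type w} [Ring R] {N : ℕ} [NeZero N] :
    (1 : Matrix (ZMod N → Unit) (ZMod N → Unit) R) = Matrix.of fun _ _ => 1 := by
  ext1 I J
  rw [Subsingleton.elim I J, Matrix.one_apply_eq]
  rfl

lemma ten_single {N : ℕ} [NeZero N] (z : G) :
    ten (k := k) (fun _ : ZMod N => MonoidAlgebra.single z 1) =
      MonoidAlgebra.single (fun _ => z) 1 := by
  classical
  ext γ
  rw [ten_coeff]
  have h0 : (MonoidAlgebra.single (fun _ : ZMod N => z) (1 : k)).coeff γ =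
      if (fun _ => z) = γ then 1 else 0 := by
    rw [MonoidAlgebra.coeff_single, Finsupp.single_apply]
  rw [h0]
  by_cases h : (fun _ => z) = γ
  · rw [if_pos h]
    refine Finset.prod_eq_one fun j _ => ?_
    rw [MonoidAlgebra.coeff_single, Finsupp.single_apply, if_pos (congrFun h j)]
  · rw [if_neg h]
    obtain ⟨j, hj⟩ := Function.ne_iff.1 h
    refine Finset.prod_eq_zero (Finset.mem_univ j) ?_
    rw [MonoidAlgebra.coeff_single, Finsupp.single_apply, if_neg hj]

lemma dg_apply (u : (MonoidAlgebra k G)ˣ) (a b : Unit) :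
    ((diagU (fun _ : Unit => u) : (Matrix Unit Unit (MonoidAlgebra k G))ˣ) :
      Matrix Unit Unit (MonoidAlgebra k G)) a b = u := by
  show Matrix.diagonal (fun _ : Unit => (u : MonoidAlgebra k G)) a b = u
  rw [Matrix.diagonal_apply, if_pos (Subsingleton.elim a b)]

lemma T_single {N : ℕ} [NeZero N] (z : G) :
    tens k G Unit N ((diagU (fun _ : Unit => gU k z) : (Matrix Unit Unit (MonoidAlgebra k G))ˣ) :
      Matrix Unit Unit (MonoidAlgebra k G)) =
      Matrix.of fun _ _ => MonoidAlgebra.single (fun _ => z) 1 := by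
  ext1 I J
  rw [tens_eq_ten]
  simp only [dg_apply]
  exact ten_single z

lemma dlt_unit {p e : ℕ} [NeZero (p ^ e)] [NeZero (p ^ (e + 1))]
    (a : MonoidAlgebra k (ZMod (p ^ e) → G)) :
    dlt k G Unit p e (Matrix.of fun _ _ => a) =
      Matrix.of fun _ _ => MonoidAlgebra.mapDomainRingHom k (repG p e G) a := by
  ext1 I J
  rw [dlt_apply, sum_one (i₀ := ()) (fun _ => rfl), if_pos (Subsingleton.elim _ _),
    sum_one (i₀ := ()) (fun _ => rfl), if_pos (Subsingleton.elim _ _)]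
  rfl

lemma dlt_one {p e : ℕ} [NeZero (p ^ e)] [NeZero (p ^ (e + 1))] :
    dlt k G Unit p e 1 = 1 := by
  rw [one_of, dlt_unit, map_one, ← one_of]

lemma D_single {p e : ℕ} [NeZero (p ^ e)] [NeZero (p ^ (e + 1))] (z : G) :
    dhat k G Unit p e ((diagU (fun _ : Unit => gU k z) :
      (Matrix Unit Unit (MonoidAlgebra k G))ˣ) : Matrix Unit Unit (MonoidAlgebra k G)) =
      Matrix.of fun _ _ => MonoidAlgebra.single (fun _ => z) 1 := by
  rw [dhat, dlt_one, sub_self, add_zero, T_single, dlt_unit, MonoidAlgebra.mapDomainRingHom_apply,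
    MonoidAlgebra.mapDomain_single]
  rfl

/-- `T(z)` as an element of the ring. -/
lemma TT_single {N : ℕ} [NeZero N] (z : G) :
    ((TT k G Unit N (diagU fun _ => gU k z) : (TR k G Unit N)ˣ) : TR k G Unit N) =
      Matrix.of fun _ _ => MonoidAlgebra.single (fun _ => z) 1 :=
  T_single z

lemma DD_single {p e : ℕ} [NeZero (p ^ e)] [NeZero (p ^ (e + 1))] (z : G) :
    ((DD k G Unit p e (diagU fun _ => gU k z) : (TR k G Unit (p ^ (e + 1)))ˣ) :
      TR k G Unit (p ^ (e + 1))) =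
      Matrix.of fun _ _ => MonoidAlgebra.single (fun _ => z) 1 :=
  D_single z

lemma iB_single {N : ℕ} [NeZero N] (r : k →+* ZMod N) (z : G) :
    iB k N r G Unit (Matrix.of fun _ _ => MonoidAlgebra.single (fun _ => z) 1) =
      Matrix.of fun _ _ => MonoidAlgebra.single (inW N G fun _ => z) 1 := by
  ext1 I J
  show MonoidAlgebra.mapDomainRingHom (ZMod N) (inW N G)
    (MonoidAlgebra.mapRingHom _ r (MonoidAlgebra.single (fun _ => z) 1)) = _
  rw [MonoidAlgebra.mapRingHom_single, map_one, MonoidAlgebra.mapDomainRingHom_apply,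
    MonoidAlgebra.mapDomain_single]
  rfl

lemma gU_inv (z : G) : (gU k z)⁻¹ = gU k z⁻¹ := by
  apply Units.ext
  rfl

lemma dgU_inv (u : (MonoidAlgebra k G)ˣ) :
    (diagU (fun _ : Unit => u))⁻¹ = diagU (fun _ : Unit => u⁻¹) := by
  apply Units.ext
  rfl

/-- a constant word commutes with the image of `C`, if `z` commutes with it. -/
lemma comm_FT {C : Type v} [Group C] (φ : C →* G) (z : G) (hz : ∀ h, z * φ h = φ h * z)
    {N : ℕ} [NeZero N] (b : TR k C Unit N) :
    (Matrix.of fun _ _ => MonoidAlgebra.single (fun _ => z) 1 : TR k G Unit N) * FT φ b =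
      FT φ b * Matrix.of fun _ _ => MonoidAlgebra.single (fun _ => z) 1 := by
  ext1 I J
  rw [Matrix.mul_apply, Matrix.mul_apply, sum_one (i₀ := ()) (fun _ => rfl),
    sum_one (i₀ := ()) (fun _ => rfl), Subsingleton.elim I (fun _ => ()),
    Subsingleton.elim J (fun _ => ())]
  show MonoidAlgebra.single (fun _ => z) 1 *
      MonoidAlgebra.mapDomainRingHom k (φ.compLeft (ZMod N)) (b (fun _ => ()) (fun _ => ())) =
    MonoidAlgebra.mapDomainRingHom k (φ.compLeft (ZMod N)) (b (fun _ => ()) (fun _ => ())) *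
      MonoidAlgebra.single (fun _ => z) 1
  generalize b (fun _ => ()) (fun _ => ()) = a
  induction a using MonoidAlgebra.induction_linear with
  | zero => simp
  | add x y hx hy => rw [map_add, mul_add, add_mul, hx, hy]
  | single γ c =>
    rw [MonoidAlgebra.mapDomainRingHom_apply, MonoidAlgebra.mapDomain_single,
      MonoidAlgebra.single_mul_single, MonoidAlgebra.single_mul_single, one_mul, mul_one]
    congr 1
    funext j
    exact hz (γ j)

lemma FT_TT {C : Type v} [Group C] (φ : C →* G) {N : ℕ} [NeZero N] (x : (MonoidAlgebra k C)ˣ)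
    (y : (MonoidAlgebra k G)ˣ)
    (hy : y = Units.map (MonoidAlgebra.mapDomainRingHom k φ).toMonoidHom x) :
    FT φ ((TT k C Unit N (diagU fun _ => x) : (TR k C Unit N)ˣ) : TR k C Unit N) =
      (TT k G Unit N (diagU fun _ => y) : (TR k G Unit N)ˣ) := by
  have h1 : ((diagU (fun _ : Unit => x) : (Matrix Unit Unit (MonoidAlgebra k C))ˣ) :
      Matrix Unit Unit (MonoidAlgebra k C)).map (MonoidAlgebra.mapDomainRingHom k φ) =
      ((diagU (fun _ : Unit => y) : (Matrix Unit Unit (MonoidAlgebra k G))ˣ) :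
        Matrix Unit Unit (MonoidAlgebra k G)) := by
    ext1 a b
    rw [Matrix.map_apply, dg_apply, dg_apply, hy]
    rfl
  show FT φ (tens k C Unit N _) = tens k G Unit N _
  rw [FT_tens, h1]

lemma FT_DD {C : Type v} [Group C] (φ : C →* G) {p e : ℕ} [NeZero (p ^ e)]
    [NeZero (p ^ (e + 1))] (x : (MonoidAlgebra k C)ˣ) (y : (MonoidAlgebra k G)ˣ)
    (hy : y = Units.map (MonoidAlgebra.mapDomainRingHom k φ).toMonoidHom x) :
    FT φ ((DD k C Unit p e (diagU fun _ => x) : (TR k C Unit (p ^ (e + 1)))ˣ) :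
      TR k C Unit (p ^ (e + 1))) =
      (DD k G Unit p e (diagU fun _ => y) : (TR k G Unit (p ^ (e + 1)))ˣ) := by
  have h1 : ((diagU (fun _ : Unit => x) : (Matrix Unit Unit (MonoidAlgebra k C))ˣ) :
      Matrix Unit Unit (MonoidAlgebra k C)).map (MonoidAlgebra.mapDomainRingHom k φ) =
      ((diagU (fun _ : Unit => y) : (Matrix Unit Unit (MonoidAlgebra k G))ˣ) :
        Matrix Unit Unit (MonoidAlgebra k G)) := by
    ext1 a b
    rw [Matrix.map_apply, dg_apply, dg_apply, hy]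
    rfl
  show FT φ (dhat k C Unit p e _) = dhat k G Unit p e _
  rw [FT_dhat, h1]

/-- commutation of the `1 × 1` matrices -/
lemma dg_comm {C : Type v} [Group C] (φ : C →* G) (z : G) (hz : ∀ h, z * φ h = φ h * z)
    (x : (MonoidAlgebra k C)ˣ) (y : (MonoidAlgebra k G)ˣ)
    (hy : y = Units.map (MonoidAlgebra.mapDomainRingHom k φ).toMonoidHom x) :
    diagU (fun _ : Unit => gU k z) * diagU (fun _ : Unit => y) =
      diagU (fun _ : Unit => y) * diagU (fun _ : Unit => gU k z) := by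
  apply Units.ext
  ext1 a b
  rw [Units.val_mul, Units.val_mul, Matrix.mul_apply, Matrix.mul_apply, Fintype.sum_unique,
    Fintype.sum_unique, dg_apply, dg_apply, hy]
  show MonoidAlgebra.single z 1 * MonoidAlgebra.mapDomainRingHom k φ (x : MonoidAlgebra k C) =
    MonoidAlgebra.mapDomainRingHom k φ (x : MonoidAlgebra k C) * MonoidAlgebra.single z 1
  generalize (x : MonoidAlgebra k C) = a
  induction a using MonoidAlgebra.induction_linear with
  | zero => simp
  | add x y hx hy => rw [map_add, mul_add, add_mul, hx, hy]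
  | single γ c =>
    rw [MonoidAlgebra.mapDomainRingHom_apply, MonoidAlgebra.mapDomain_single,
      MonoidAlgebra.single_mul_single, MonoidAlgebra.single_mul_single, one_mul, mul_one, hz]

end one

/-- only `j = 1` contributes -/
lemma sum_at_one {H : Type w} [AddCommGroup H] {N : ℕ} (hN : 1 < N) (m : ℕ → ℕ) (a : H) :
    ∑ j ∈ Finset.range N, m j • (if (j : ZMod N) = 1 then a else 0) = m 1 • a := by
  rw [Finset.sum_eq_single 1]
  · rw [if_pos (by rw [Nat.cast_one])]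
  · intro j hj hj1
    rw [if_neg, smul_zero]
    intro h
    apply hj1
    have h2 : ((j : ℕ) : ZMod N) = ((1 : ℕ) : ZMod N) := by rw [h, Nat.cast_one]
    rw [ZMod.natCast_eq_natCast_iff'] at h2
    rwa [Nat.mod_eq_of_lt (Finset.mem_range.1 hj), Nat.mod_eq_of_lt hN] at h2
  · intro h
    exact absurd (Finset.mem_range.2 hN) h

end VL1aux

open VL1aux in
theorem specVL1 (hINV : SpecINV.{max u v, v, 0, max u v}) (hTDN : SpecTDN.{u, v})
    (hCON : SpecCON.{u, v}) (hQSB : SpecQSB.{max u v, v, 0, max u v})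
    (hDEL : SpecDEL.{max u v, v, 0}) (hVLC : SpecVLC.{u, v}) (hVLE : SpecVLE.{u, v}) :
    SpecVL1.{u, v} := by
  intro k _ p e hp hp2 _ _ r hr G _ c X hX hXc C _ φ z hz x y hy b hb s t hs ht
  have hI := hCON k p e r hr G Unit c X hX hXc
  have hN : 1 < p ^ (e + 1) := Nat.one_lt_pow (Nat.succ_ne_zero e) hp.out.one_lt
  have hfix := hTDN k p e hr.frob G Unit
  obtain ⟨hTz, hDz, -⟩ := hfix (diagU fun _ => gU k z)
  obtain ⟨hTy, hDy, -⟩ := hfix (diagU fun _ => y)
  -- the lift of `z`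
  obtain ⟨s0, hs0⟩ : ∃ s0 : (SR (p ^ (e + 1)) G Unit)ˣ, s0 =
    Units.map (iB k (p ^ (e + 1)) r G Unit : TR k G Unit (p ^ (e + 1)) →* SR (p ^ (e + 1)) G Unit)
      (TT k G Unit (p ^ (e + 1)) (diagU fun _ => gU k z)) := ⟨_, rfl⟩
  have hs0v : (s0 : SR (p ^ (e + 1)) G Unit) = iB k (p ^ (e + 1)) r G Unit
      (TT k G Unit (p ^ (e + 1)) (diagU fun _ => gU k z)) := by
    rw [hs0]; rfl
  have hs0G : InG (p ^ (e + 1)) (rot k G Unit (p ^ (e + 1))) (iB k (p ^ (e + 1)) r G Unit)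
      (tauS (p ^ (e + 1)) G Unit) (TT k G Unit (p ^ (e + 1))) (DD k G Unit p e)
      (diagU fun _ => gU k z) s0 := by
    refine ⟨0, ?_, ?_⟩
    · rw [map_zero, zero_mul, add_zero, mul_one, hs0v]
    · have h0 : nm (rot k G Unit (p ^ (e + 1))) (p ^ (e + 1)) (0 : TR k G Unit (p ^ (e + 1))) = 0 := by
        refine Finset.sum_eq_zero fun j _ => ?_
        exact Function.iterate_fixed (map_zero _) j
      rw [h0, add_zero, mul_one, TT_single, DD_single]
  -- the lift of `y`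
  obtain ⟨-, -, b₀, hb₀⟩ := hTDN k p e hr.frob C Unit (diagU fun _ => x)
  have hb₁ : ((TT k G Unit (p ^ (e + 1)) (diagU fun _ => y) : (TR k G Unit (p ^ (e + 1)))ˣ) :
      TR k G Unit (p ^ (e + 1))) *
      (1 + nm (rot k G Unit (p ^ (e + 1))) (p ^ (e + 1)) (FT φ b₀)) =
      DD k G Unit p e (diagU fun _ => y) := by
    rw [← FT_TT φ x y hy, ← FT_DD φ x y hy, ← hb₀, map_mul, map_add, map_one, FT_nm]
  obtain ⟨t0, ht0, ht0i⟩ := hQSB.onto _ _ _ _ _ _ _ _ _ _ hI (TT k G Unit (p ^ (e + 1)))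
    (DD k G Unit p e) (fun w => (hfix w).1) (fun w => (hfix w).2.1) (diagU fun _ => y) (FT φ b₀) hb₁
  have ht0G : InG (p ^ (e + 1)) (rot k G Unit (p ^ (e + 1))) (iB k (p ^ (e + 1)) r G Unit)
      (tauS (p ^ (e + 1)) G Unit) (TT k G Unit (p ^ (e + 1))) (DD k G Unit p e)
      (diagU fun _ => y) t0 := ⟨FT φ b₀, ht0, hb₁⟩
  rw [hINV _ _ _ _ _ _ _ _ _ _ hI (TT k G Unit (p ^ (e + 1)))
    (DD k G Unit p e) (fun w => (hfix w).1) (fun w => (hfix w).2.1) (fun w => (hfix w).2.2)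
    _ _ s t s0 t0 (dg_comm φ z hz x y hy) hs hs0G ht ht0G]
  -- the two lifts commute
  have hc1 : ∀ a : TR k C Unit (p ^ (e + 1)), (s0 : SR (p ^ (e + 1)) G Unit) *
      iB k (p ^ (e + 1)) r G Unit (FT φ a) = iB k (p ^ (e + 1)) r G Unit (FT φ a) * s0 := by
    intro a
    rw [hs0v, ← map_mul, ← map_mul, TT_single, comm_FT φ z hz]
  have hc2 : (tauS (p ^ (e + 1)) G Unit : SR (p ^ (e + 1)) G Unit) * s0 =
      s0 * tauS (p ^ (e + 1)) G Unit := by
    rw [hs0v, hI.conj, hTz]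
  have hc3 : (s0 : SR (p ^ (e + 1)) G Unit) * eS (p ^ (e + 1)) (tauS (p ^ (e + 1)) G Unit) =
      eS (p ^ (e + 1)) (tauS (p ^ (e + 1)) G Unit) * s0 := by
    rw [eS, Finset.mul_sum, Finset.sum_mul]
    refine Finset.sum_congr rfl fun j _ => ?_
    exact ((show Commute (s0 : SR (p ^ (e + 1)) G Unit) _ from hc2.symm).pow_right j).eq
  have hcm : s0 * t0 = t0 * s0 := by
    apply Units.ext
    rw [Units.val_mul, Units.val_mul, ht0, ← FT_TT φ x y hy]
    have h1 : Commute (s0 : SR (p ^ (e + 1)) G Unit)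
        (iB k (p ^ (e + 1)) r G Unit (FT φ ((TT k C Unit (p ^ (e + 1)) (diagU fun _ => x) :
          (TR k C Unit (p ^ (e + 1)))ˣ) : TR k C Unit (p ^ (e + 1))))) := hc1 _
    have h2 : Commute (s0 : SR (p ^ (e + 1)) G Unit)
        (iB k (p ^ (e + 1)) r G Unit (FT φ b₀)) := hc1 _
    have h3 : Commute (s0 : SR (p ^ (e + 1)) G Unit)
        (eS (p ^ (e + 1)) (tauS (p ^ (e + 1)) G Unit)) := hc3
    exact (h1.mul_right ((Commute.one_right _).add_right (h2.mul_right h3))).eq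
  have hcm1 : cm s0 t0 = 1 := by
    rw [cm, hcm, mul_assoc t0 s0, mul_inv_cancel, mul_one, mul_inv_cancel]
  -- the terms of `EE`
  have hds : dS (p ^ (e + 1)) G Unit (s0 : SR (p ^ (e + 1)) G Unit) = 0 := by
    rw [hs0v]; exact hI.d_i _
  have he1 : cc (dS (p ^ (e + 1)) G Unit) (phiS Unit (ThN r c X)) s0 t0 = 0 := by
    rw [cc, hds, mul_zero, mul_zero, map_zero]
    rfl
  have he2 : cc (dS (p ^ (e + 1)) G Unit) (phiS Unit (ThN r c X)) 1 (t0 * s0) = 0 :=
    ((ABSaux.coc _ _ _ _ _ _ _ _ _ hI).2 _).1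
  have he3 : fK (p ^ (e + 1)) (rot k G Unit (p ^ (e + 1))) (iB k (p ^ (e + 1)) r G Unit)
      (tauS (p ^ (e + 1)) G Unit) (phiS Unit (ThN r c X)) 1 = 0 := by
    rw [ABSaux.f1 _ _ _ _ _ _ _ _ _ hI 1 0 (by
      rw [map_zero, sub_zero, map_zero, zero_mul, add_zero, Units.val_one]),
      zero_mul, map_zero, map_zero]
    rfl
  rw [EE, hcm1, he1, he2, he3, zero_sub, sub_zero, sub_zero]
  -- the value
  obtain ⟨Ξ, hΞ⟩ : ∃ Ξ : TR k C Unit (p ^ (e + 1)), Ξ =
      (((DD k C Unit p e (diagU fun _ => x))⁻¹ : (TR k C Unit (p ^ (e + 1)))ˣ) :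
        TR k C Unit (p ^ (e + 1))) *
      (TT k C Unit (p ^ (e + 1)) (diagU fun _ => x) : (TR k C Unit (p ^ (e + 1)))ˣ) := ⟨_, rfl⟩
  have hX0 : 1 + nm (rot k C Unit (p ^ (e + 1))) (p ^ (e + 1)) b₀ =
      (((TT k C Unit (p ^ (e + 1)) (diagU fun _ => x))⁻¹ : (TR k C Unit (p ^ (e + 1)))ˣ) :
        TR k C Unit (p ^ (e + 1))) *
      (DD k C Unit p e (diagU fun _ => x) : (TR k C Unit (p ^ (e + 1)))ˣ) := by
    rw [← hb₀, Units.inv_mul_cancel_left]
  have hX1 : (1 + nm (rot k C Unit (p ^ (e + 1))) (p ^ (e + 1)) b₀) * Ξ = 1 := by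
    rw [hX0, hΞ, mul_assoc, Units.mul_inv_cancel_left, Units.inv_mul]
  have hX2 : Ξ * (1 + nm (rot k C Unit (p ^ (e + 1))) (p ^ (e + 1)) b₀) = 1 := by
    rw [hX0, hΞ, mul_assoc, Units.mul_inv_cancel_left, Units.inv_mul]
  have hdel := hDEL _ _ _ _ _ _ _ _ _ hI t0 (TT k G Unit (p ^ (e + 1)) (diagU fun _ => y))
    (FT φ b₀) (FT φ Ξ) hTy (by rw [← FT_nm, ← map_one (FT φ), ← map_add, ← map_mul, hX1])
    (by rw [← FT_nm, ← map_one (FT φ), ← map_add, ← map_mul, hX2]) ht0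
  have hZ : (s0 : SR (p ^ (e + 1)) G Unit) = Matrix.of fun _ _ =>
      MonoidAlgebra.single (inW (p ^ (e + 1)) G fun _ => z) 1 := by
    rw [hs0v, TT_single, iB_single]
  have hZ' : ((s0⁻¹ : (SR (p ^ (e + 1)) G Unit)ˣ) : SR (p ^ (e + 1)) G Unit) = Matrix.of fun _ _ =>
      MonoidAlgebra.single (inW (p ^ (e + 1)) G fun _ => z⁻¹) 1 := by
    rw [hs0, ← map_inv, ← map_inv, dgU_inv, gU_inv]
    show iB k (p ^ (e + 1)) r G Unit _ = _
    rw [TT_single, iB_single]
  have hvlc := fun (a : TR k C Unit (p ^ (e + 1))) (j : ℕ) =>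
    hVLC k (p ^ (e + 1)) r G c X hX hXc C φ z hz _ _ hZ hZ' a j
  have hval : cc (dS (p ^ (e + 1)) G Unit) (phiS Unit (ThN r c X)) t0 s0 =
      vl r c X z φ (mC () (b₀ * Ξ)) +
        vl r c X z φ (mC () (b₀ * Ξ * pp (rot k C Unit (p ^ (e + 1))) (p ^ (e + 1)) b₀)) := by
    rw [cc, hdel, mul_add, mul_add, map_add, AddMonoidHom.add_apply]
    refine congrArg₂ (fun a b : ZMod (p ^ (e + 1)) => a + b) ?_ ?_
    · rw [Finset.mul_sum, Finset.mul_sum, map_sum, AddMonoidHom.finsetSum_apply, ← map_mul]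
      have h1 := sum_at_one hN (fun j => j) (vl r c X z φ (mC () (b₀ * Ξ)))
      rw [one_smul] at h1
      rw [← h1]
      refine Finset.sum_congr rfl fun j _ => ?_
      rw [mul_smul_comm, mul_smul_comm, map_nsmul, AddMonoidHom.nsmul_apply, hvlc]
    · rw [← mul_assoc (iB k (p ^ (e + 1)) r G Unit _), ← map_mul, ← map_mul, ← FT_pp, ← map_mul, eS,
        Finset.mul_sum, Finset.mul_sum, map_sum, AddMonoidHom.finsetSum_apply]
      have h1 := sum_at_one hN (fun _ => 1) (vl r c X z φ (mC () (b₀ * Ξ *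
        pp (rot k C Unit (p ^ (e + 1))) (p ^ (e + 1)) b₀)))
      rw [one_smul] at h1
      rw [← h1]
      refine Finset.sum_congr rfl fun j _ => ?_
      rw [hvlc, one_smul]
  have hi : ∀ i : Unit, i = () := fun _ => rfl
  obtain ⟨m, hm⟩ := odd_sum hp.out hp2 (e + 1)
  have hmT : mC () ((TT k C Unit (p ^ (e + 1)) (diagU fun _ => x) :
      (TR k C Unit (p ^ (e + 1)))ˣ) : TR k C Unit (p ^ (e + 1))) =
      (x : MonoidAlgebra k C) ^ (p ^ (e + 1)) := by
    show mC () (tens k C Unit (p ^ (e + 1)) _) = _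
    rw [mC_tens, dg_apply]
  have hmD : mC () ((DD k C Unit p e (diagU fun _ => x) :
      (TR k C Unit (p ^ (e + 1)))ˣ) : TR k C Unit (p ^ (e + 1))) =
      powC k C p (x : MonoidAlgebra k C) ^ (p ^ e) := by
    show mC () (dhat k C Unit p e _) = _
    rw [mC_dhat hi, dg_apply]
  have hβ1 : (1 + (p ^ (e + 1)) • mC () b₀) * mC () Ξ = 1 := by
    have h1 := congrArg (mC ()) hX1
    rw [mC_mul hi, mC_add, mC_one, mC_nm] at h1
    exact h1
  have hβ2 : (1 + (p ^ (e + 1)) • mC () b₀) * (1 + (p ^ (e + 1)) • b) = 1 := by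
    have h1 := congrArg (mC ()) hb₀
    rw [mC_mul hi, mC_add, mC_one, mC_nm, hmT, hmD, hb] at h1
    have hu : IsUnit (powC k C p (x : MonoidAlgebra k C) ^ (p ^ e)) :=
      ((x.isUnit).map (powC k C p)).pow _
    apply hu.mul_left_cancel
    rw [mul_one, mul_comm (1 + (p ^ (e + 1)) • mC () b₀), ← mul_assoc]
    exact h1
  rw [hval, mC_mul hi, mC_mul hi, mC_mul hi, mC_pp, hm,
    hVLE k p e r hr G c X C φ z (mC () b₀) (mC () Ξ) b m hβ1 hβ2, neg_neg]

end Pool.Agent.Lib.MPb6f35e.K2
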