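import Pool.Agent.Lib.MP_b6f35e_al.K2.SpecD

/-!
# K_2 theorem (MP_b6f35e_al), VLA: the value of the cocycle on `φ(γ) t`
-/

set_option autoImplicit false

noncomputable section

namespace Pool.Agent.Lib.MPb6f35e.K2

open Pool.Agent.Lib.MPb6f35e.WH

universe u v w x

namespace VLAaux

lemma prod_range (N : ℕ) [NeZero N] {C : Type v} [CommMonoid C] (f : ZMod N → C) :
    ∏ m ∈ Finset.range N, f (m : ZMod N) = ∏ j, f j := by
  refine Finset.prod_bij (fun m _ => (m : ZMod N)) (fun _ _ => Finset.mem_univ _) ?_ ?_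
    (fun _ _ => rfl)
  · intro a ha b hb h
    have h1 := congrArg ZMod.val h
    rw [ZMod.val_natCast_of_lt (Finset.mem_range.mp ha),
      ZMod.val_natCast_of_lt (Finset.mem_range.mp hb)] at h1
    exact h1
  · intro b _
    exact ⟨b.val, Finset.mem_range.mpr (ZMod.val_lt b), ZMod.natCast_zmod_val b⟩

/-- the partial products -/
def PP {N : ℕ} {C : Type v} [CommMonoid C] (γ : ZMod N → C) (k : ZMod N) (m : ℕ) : C :=
  ∏ i ∈ Finset.range m, γ (k + ((i + 1 : ℕ) : ZMod N))

lemma PP_zero {N : ℕ} {C : Type v} [CommMonoid C] (γ : ZMod N → C) (k : ZMod N) :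
    PP γ k 0 = 1 := Finset.prod_range_zero _

lemma PP_succ {N : ℕ} {C : Type v} [CommMonoid C] (γ : ZMod N → C) (k : ZMod N) (m : ℕ) :
    PP γ k (m + 1) = PP γ k m * γ (k + ((m + 1 : ℕ) : ZMod N)) := Finset.prod_range_succ _ _

lemma PP_N {N : ℕ} [NeZero N] {C : Type v} [CommMonoid C] (γ : ZMod N → C) (k : ZMod N) :
    PP γ k N = ∏ j, γ j := by
  have h1 : PP γ k N = ∏ i ∈ Finset.range N, (fun j : ZMod N => γ (j + (k + 1))) (i : ZMod N) := by
    unfold PP
    refine Finset.prod_congr rfl fun i _ => ?_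
    show γ _ = γ _
    congr 1
    push_cast
    ring
  rw [h1, prod_range N fun j : ZMod N => γ (j + (k + 1))]
  exact Fintype.prod_equiv (Equiv.addRight (k + 1)) _ _ fun j => rfl

variable {N : ℕ} [NeZero N] {G : Type v} [Group G]

omit [NeZero N] in
lemma inW_right (y : ZMod N → G) : (inW N G y).right = 1 := rfl

omit [NeZero N] in
lemma w0_same (c : G) : (w0 N c).left 0 = c := Pi.mulSingle_eq_same _ _

omit [NeZero N] in
lemma w0_ne (c : G) {j : ZMod N} (h : j ≠ 0) : (w0 N c).left j = 1 := Pi.mulSingle_eq_of_ne h _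

omit [NeZero N] in
lemma g_left (y : ZMod N → G) : (inW N G y * tW N G).left = y := by
  funext j
  rw [SemidirectProduct.mul_left]
  show y j * 1 = y j
  exact mul_one _

omit [NeZero N] in
lemma g_right (y : ZMod N → G) : (inW N G y * tW N G).right = Multiplicative.ofAdd 1 := by
  rw [SemidirectProduct.mul_right]
  show (1 : Multiplicative (ZMod N)) * Multiplicative.ofAdd 1 = _
  exact one_mul _

/-- (A) -/
lemma conj_of {C : Type v} [CommGroup C] (φ : C →* G) (γ : ZMod N → C) (c x : G)
    (h : x * c * x⁻¹ = φ (∏ j, γ j)) :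
    ∃ y : ZMod N → G, y 0 = x ∧
      inW N G y * w0 N c * (inW N G y)⁻¹ = inW N G (fun j => φ (γ j)) * tW N G := by
  have hN : 0 < N := NeZero.pos N
  refine ⟨fun j => φ (PP γ 0 j.val) * x, ?_, ?_⟩
  · show φ (PP γ 0 (0 : ZMod N).val) * x = x
    rw [ZMod.val_zero, PP_zero, map_one, one_mul]
  · rw [mul_inv_eq_iff_eq_mul]
    apply SemidirectProduct.ext
    · funext j
      rw [SemidirectProduct.mul_left, SemidirectProduct.mul_left, g_left, g_right]
      show φ (PP γ 0 j.val) * x * (w0 N c).left (j - 0) =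
        φ (γ j) * (φ (PP γ 0 (j - 1).val) * x)
      rw [sub_zero, ← mul_assoc, ← map_mul]
      have h1 : (((j - 1).val + 1 : ℕ) : ZMod N) = j := by
        rw [Nat.cast_add, ZMod.natCast_zmod_val, Nat.cast_one, sub_add_cancel]
      have h2 : γ j * PP γ 0 (j - 1).val = PP γ 0 ((j - 1).val + 1) := by
        rw [PP_succ, h1, zero_add, mul_comm]
      rw [h2]
      by_cases hj : j = 0
      · subst hj
        have h3 : (0 - 1 : ZMod N).val + 1 = N := by
          have h4 : (0 - 1 : ZMod N).val + 1 ≤ N := ZMod.val_lt _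
          have h5 : N ∣ (0 - 1 : ZMod N).val + 1 := by
            rw [← ZMod.natCast_eq_zero_iff, h1]
          exact le_antisymm h4 (Nat.le_of_dvd (Nat.succ_pos _) h5)
        rw [h3, PP_N, ← h, ZMod.val_zero, PP_zero, map_one, one_mul, w0_same,
          inv_mul_cancel_right]
      · have h3 : j.val = (j - 1).val + 1 := by
          have h4 : (j - 1).val + 1 < N := by
            rcases Nat.lt_or_ge ((j - 1).val + 1) N with h5 | h5
            · exact h5
            · exfalso
              have h6 : (j - 1).val + 1 ≤ N := ZMod.val_lt _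
              have h7 : (j - 1).val + 1 = N := le_antisymm h6 h5
              rw [h7, ZMod.natCast_self] at h1
              exact hj h1.symm
          conv_lhs => rw [← h1]
          rw [ZMod.val_natCast_of_lt h4]
        rw [← h3, w0_ne c hj, mul_one]
    · rw [SemidirectProduct.mul_right, SemidirectProduct.mul_right, g_right, inW_right]
      show 1 * Multiplicative.ofAdd 1 = Multiplicative.ofAdd 1 * 1
      rw [one_mul, mul_one]

/-- (B) -/
lemma conj_imp {C : Type v} [CommGroup C] (φ : C →* G) (γ : ZMod N → C) (c : G) (v : WR N G)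
    (h : v * w0 N c * v⁻¹ = inW N G (fun j => φ (γ j)) * tW N G) :
    v.left v.right.toAdd * c * (v.left v.right.toAdd)⁻¹ = φ (∏ j, γ j) := by
  have hN : 0 < N := NeZero.pos N
  rw [mul_inv_eq_iff_eq_mul] at h
  obtain ⟨k, hk⟩ : ∃ k : ZMod N, k = v.right.toAdd := ⟨_, rfl⟩
  rw [← hk]
  have h1 : ∀ j, v.left j * (w0 N c).left (j - k) = φ (γ j) * v.left (j - 1) := by
    intro j
    have h2 := congrFun (congrArg SemidirectProduct.left h) j
    rw [SemidirectProduct.mul_left, SemidirectProduct.mul_left, g_left, g_right] at h2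
    rw [hk]
    exact h2
  have h3 : ∀ m : ℕ, m < N → v.left (k + (m : ZMod N)) = φ (PP γ k m) * v.left k := by
    intro m
    induction m with
    | zero => intro _; rw [Nat.cast_zero, add_zero, PP_zero, map_one, one_mul]
    | succ m ih =>
      intro hm
      have h4 := h1 (k + ((m + 1 : ℕ) : ZMod N))
      have h5 : k + ((m + 1 : ℕ) : ZMod N) - 1 = k + (m : ZMod N) := by
        push_cast; ring
      have h6 : k + ((m + 1 : ℕ) : ZMod N) - k ≠ 0 := by
        rw [add_sub_cancel_left]
        intro h7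
        rw [ZMod.natCast_eq_zero_iff] at h7
        exact absurd (Nat.le_of_dvd (Nat.succ_pos _) h7) (not_le.mpr hm)
      rw [h5, w0_ne c h6, mul_one, ih (by omega)] at h4
      rw [h4, PP_succ, ← mul_assoc, ← map_mul, mul_comm (γ _)]
  have h4 := h1 k
  have h5 : k - 1 = k + ((N - 1 : ℕ) : ZMod N) := by
    rw [Nat.cast_sub (by omega), ZMod.natCast_self, Nat.cast_one, zero_sub, sub_eq_add_neg]
  rw [sub_self, w0_same, h5, h3 (N - 1) (by omega), ← mul_assoc, ← map_mul] at h4
  have h6 : γ k * PP γ k (N - 1) = ∏ j, γ j := by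
    have h7 := PP_succ γ k (N - 1)
    rw [Nat.sub_add_cancel hN, PP_N, ZMod.natCast_self, add_zero] at h7
    rw [h7, mul_comm]
  rw [h4, h6, mul_inv_cancel_right]

end VLAaux

open VLAaux in
theorem specVLA (hTHE : SpecTHE.{v, w}) : SpecVLA.{v, w} := by
  intro N _ G M _ _ c X hX hXc C _ φ z hz γ
  obtain ⟨g, hg⟩ : ∃ g, g = inW N G (fun j => φ (γ j)) * tW N G := ⟨_, rfl⟩
  rw [← hg]
  by_cases hc : ∃ t, t * w0 N c * t⁻¹ = g
  · have hs : sec (w0 N c) g * w0 N c * (sec (w0 N c) g)⁻¹ = g := by
      unfold sec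
      rw [dif_pos hc]
      exact hc.choose_spec
    obtain ⟨s, hs'⟩ : ∃ s, s = sec (w0 N c) g := ⟨_, rfl⟩
    have hcom : (inW N G fun _ => z) * g * (inW N G fun _ => z)⁻¹ = g := by
      rw [mul_inv_eq_iff_eq_mul, hg]
      apply SemidirectProduct.ext
      · funext j
        have e1 : ((inW N G fun _ => z) * (inW N G (fun j => φ (γ j)) * tW N G)).left j =
            z * φ (γ j) := by
          rw [SemidirectProduct.mul_left, g_left]
          show z * φ (γ (j - 0)) = _
          rw [sub_zero]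
        have e2 : (inW N G (fun j => φ (γ j)) * tW N G * (inW N G fun _ => z)).left j =
            φ (γ j) * z := by
          rw [SemidirectProduct.mul_left, g_left]
          rfl
        rw [e1, e2]
        exact hz (γ j)
      · show (1 : Multiplicative (ZMod N)) * (1 * Multiplicative.ofAdd 1) =
          1 * Multiplicative.ofAdd 1 * 1
        rw [one_mul, mul_one]
    have h1 : Th (w0 N c) (XW X) (inW N G fun _ => z) g =
        XW X (s⁻¹ * (inW N G fun _ => z) * s) := by
      unfold Th
      rw [if_pos hc, hcom, ← hs']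
    rw [← hs'] at hs
    have h2 := conj_imp φ γ c s (hs.trans hg)
    rw [h1, hTHE.val G M c X hX z _ _ (hz _) h2]
    unfold XW
    congr 1
    rw [SemidirectProduct.mul_left, SemidirectProduct.mul_left, SemidirectProduct.mul_right,
      SemidirectProduct.inv_left, SemidirectProduct.inv_right]
    show (s.left (0 - (s.right⁻¹).toAdd))⁻¹ * z * s.left (0 - (s.right⁻¹ * 1).toAdd) = _
    rw [mul_one, toAdd_inv, zero_sub, neg_neg]
  · rw [hTHE.zero (WR N G) M (w0 N c) (XW X) _ _ hc, hTHE.zero G M c X z _ _]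
    rintro ⟨x, hx⟩
    obtain ⟨y, -, hy⟩ := conj_of φ γ c x hx
    exact hc ⟨_, hy.trans hg.symm⟩

end Pool.Agent.Lib.MPb6f35e.K2
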