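import Pool.Agent.Lib.MP_b6f35e_al.K2.SpecD

/-!
# K_2 theorem (MP_b6f35e_al), module VLE (helper49)
-/

set_option autoImplicit false

noncomputable section

namespace Pool.Agent.Lib.MPb6f35e.K2

open Pool.Agent.Lib.MPb6f35e.WH

universe u v

namespace VLEaux

lemma vl_add {k : Type u} [CommRing k] {N : ℕ} (r : k →+* ZMod N) {G C : Type v} [Group G]
    [CommGroup C] (c : G) (X : G → k) (z : G) (φ : C →* G) (a b : MonoidAlgebra k C) :
    vl r c X z φ (a + b) = vl r c X z φ a + vl r c X z φ b := by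
  classical
  unfold vl
  rw [MonoidAlgebra.coeff_add, Finsupp.sum_add_index']
  · intro h; rw [zero_mul, map_zero]
  · intro h x y; rw [add_mul, map_add]

/-- `vl` as an additive map. -/
def vlH {k : Type u} [CommRing k] {N : ℕ} (r : k →+* ZMod N) {G C : Type v} [Group G]
    [CommGroup C] (c : G) (X : G → k) (z : G) (φ : C →* G) : MonoidAlgebra k C →+ ZMod N :=
  AddMonoidHom.mk' (vl r c X z φ) (vl_add r c X z φ)

lemma vl_N {k : Type u} [CommRing k] {N : ℕ} (r : k →+* ZMod N) {G C : Type v} [Group G]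
    [CommGroup C] (c : G) (X : G → k) (z : G) (φ : C →* G) (y : MonoidAlgebra k C) :
    vl r c X z φ (N • y) = 0 := by
  have h : vlH r c X z φ (N • y) = N • vlH r c X z φ y := map_nsmul _ _ _
  have h2 : (N : ZMod N) = 0 := ZMod.natCast_self N
  calc vl r c X z φ (N • y) = vlH r c X z φ (N • y) := rfl
    _ = N • vlH r c X z φ y := h
    _ = 0 := by rw [nsmul_eq_mul, h2, zero_mul]

lemma tf_pow {k : Type u} [CommRing k] (p : ℕ) (htf : ∀ c : k, (p : k) * c = 0 → c = 0) (n : ℕ)
    (c : k) (h : ((p ^ n : ℕ) : k) * c = 0) : c = 0 := by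
  induction n with
  | zero => simpa using h
  | succ n ih =>
    apply ih
    apply htf
    rw [← h]
    push_cast
    ring

lemma tf_alg {k : Type u} [CommRing k] (p : ℕ) (htf : ∀ c : k, (p : k) * c = 0 → c = 0) (n : ℕ)
    {C : Type v} [CommGroup C] (y : MonoidAlgebra k C) (h : (p ^ n) • y = 0) : y = 0 := by
  ext g
  apply tf_pow p htf n
  have h1 : ((p ^ n) • y).coeff g = (p ^ n) • y.coeff g := by
    rw [MonoidAlgebra.coeff_smul, Finsupp.smul_apply]
  rw [h] at h1
  rw [← nsmul_eq_mul, ← h1]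
  rfl

lemma core {k : Type u} [CommRing k] {q : ℕ} (r : k →+* ZMod q) {G C : Type v} [Group G]
    [CommGroup C] (c : G) (X : G → k) (z : G) (φ : C →* G)
    (htf : ∀ y : MonoidAlgebra k C, q • y = 0 → y = 0) (β Xi b' : MonoidAlgebra k C) (m : ℕ)
    (h1 : (1 + q • β) * Xi = 1) (h2 : (1 + q • β) * (1 + q • b') = 1) :
    vl r c X z φ (β * Xi) + vl r c X z φ (β * Xi * ((q * m) • β)) = - vl r c X z φ b' := by
  have hXi : Xi = 1 + q • b' := by
    calc Xi = Xi * ((1 + q • β) * (1 + q • b')) := by rw [h2, mul_one]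
      _ = ((1 + q • β) * Xi) * (1 + q • b') := by ring
      _ = 1 + q • b' := by rw [h1, one_mul]
  have h3 : q • (β + b' + q • (β * b')) = 0 := by
    have : (1 + q • β) * (1 + q • b') = 1 + q • (β + b' + q • (β * b')) := by
      simp only [nsmul_eq_mul]
      ring
    rw [this] at h2
    simpa using h2
  have h4 : β + b' + q • (β * b') = 0 := htf _ h3
  have h5 : β = - b' - q • (β * b') := by
    calc β = (β + b' + q • (β * b')) - b' - q • (β * b') := by abel
      _ = _ := by rw [h4, zero_sub]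
  have e1 : β * Xi = β + q • (β * b') := by
    rw [hXi, mul_add, mul_one, nsmul_eq_mul, nsmul_eq_mul]; ring
  have e2 : β * Xi * ((q * m) • β) = q • (β * Xi * (m • β)) := by
    simp only [nsmul_eq_mul]
    push_cast
    ring
  have e3 : vl r c X z φ (-b') = - vl r c X z φ b' := map_neg (vlH r c X z φ) b'
  rw [e2, e1, vl_add, vl_N, vl_N, add_zero, add_zero]
  conv_lhs => rw [h5]
  rw [sub_eq_add_neg, ← smul_neg, vl_add, vl_N, add_zero, e3]

end VLEaux

open VLEaux in
theorem specVLE : SpecVLE.{u, v} := by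
  intro k _ p e _ _ r hr G _ c X C _ φ z β Xi b' m h1 h2
  exact core r c X z φ (fun y hy => tf_alg p hr.tf (e + 1) y hy) β Xi b' m h1 h2

end Pool.Agent.Lib.MPb6f35e.K2
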