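import Pool.Agent.Lib.MP_b6f35e_al.K2.SpecD
import Pool.Agent.Lib.MP_b6f35e_al.K2.ABS

/-!
# K_2 theorem (MP_b6f35e_al), module VLF: the value on symbols in size `n + 5`
-/

set_option autoImplicit false
set_option linter.unusedSectionVars false

noncomputable section

namespace Pool.Agent.Lib.MPb6f35e.K2

open Pool.Agent.Lib.MPb6f35e.WH

universe u v w x

namespace VLFaux

section abs

variable {B : Type u} {S : Type v} {H : Type w} [Ring B] [Ring S] [AddCommGroup H] {N : ℕ}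
  {ρ : B →+* B} {i : B →+* S} {τ : Sˣ} {d : S →+ S} {φ : S →+ S →+ H}

lemma fK_one (hI : IsDat N ρ i τ d φ) : fK N ρ i τ φ 1 = 0 := by
  rw [ABSaux.f1 _ _ _ _ _ _ _ _ _ hI 1 0 (by
    rw [map_zero, sub_zero, map_zero, zero_mul, add_zero, Units.val_one]),
    zero_mul, map_zero, map_zero]
  rfl

lemma cc_one_left (hI : IsDat N ρ i τ d φ) (x : Sˣ) : cc d φ 1 x = 0 :=
  ((ABSaux.coc _ _ _ _ _ _ _ _ _ hI).2 x).1

lemma cc_one_right (hI : IsDat N ρ i τ d φ) (x : Sˣ) : cc d φ x 1 = 0 :=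
  ((ABSaux.coc _ _ _ _ _ _ _ _ _ hI).2 x).2

lemma EE_one_right (hI : IsDat N ρ i τ d φ) (s : Sˣ) : EE d φ (fK N ρ i τ φ) s 1 = 0 := by
  have h : cm s (1 : Sˣ) = 1 := by rw [cm, mul_one, mul_inv_cancel, inv_one, mul_one]
  rw [EE, h, cc_one_right hI, cc_one_left hI, cc_one_left hI, fK_one hI]
  simp

lemma EE_one_left (hI : IsDat N ρ i τ d φ) (s : Sˣ) : EE d φ (fK N ρ i τ φ) 1 s = 0 := by
  have h : cm (1 : Sˣ) s = 1 := by rw [cm, one_mul, inv_one, mul_one, mul_inv_cancel]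
  rw [EE, h, cc_one_right hI, cc_one_left hI, cc_one_left hI, fK_one hI]
  simp

end abs

lemma diagU_one {A : Type u} [Ring A] {ι : Type} [Fintype ι] [DecidableEq ι] :
    diagU (fun _ : ι => (1 : Aˣ)) = 1 := by
  apply Units.ext
  show Matrix.diagonal (fun _ => ((1 : Aˣ) : A)) = 1
  rw [Units.val_one]
  exact Matrix.diagonal_one

lemma diagU_comm {A : Type u} [Ring A] {ι : Type} [Fintype ι] [DecidableEq ι] (a b : ι → Aˣ)
    (h : ∀ l, a l * b l = b l * a l) : diagU a * diagU b = diagU b * diagU a := by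
  apply Units.ext
  rw [Units.val_mul, Units.val_mul]
  show Matrix.diagonal (fun l => (a l : A)) * Matrix.diagonal (fun l => (b l : A)) =
    Matrix.diagonal (fun l => (b l : A)) * Matrix.diagonal (fun l => (a l : A))
  rw [Matrix.diagonal_mul_diagonal, Matrix.diagonal_mul_diagonal]
  congr 1
  funext l
  rw [← Units.val_mul, h l, Units.val_mul]

lemma gU_comm {k : Type u} [CommRing k] {G : Type v} [Group G] {C : Type v} [Group C] (φ : C →* G)
    (z : G) (hz : ∀ h, z * φ h = φ h * z) (x : (MonoidAlgebra k C)ˣ) (y : (MonoidAlgebra k G)ˣ)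
    (hy : y = Units.map (MonoidAlgebra.mapDomainRingHom k φ).toMonoidHom x) :
    gU k z * y = y * gU k z := by
  apply Units.ext
  rw [Units.val_mul, Units.val_mul, hy]
  show MonoidAlgebra.single z 1 * MonoidAlgebra.mapDomainRingHom k φ (x : MonoidAlgebra k C) =
    MonoidAlgebra.mapDomainRingHom k φ (x : MonoidAlgebra k C) * MonoidAlgebra.single z 1
  generalize (x : MonoidAlgebra k C) = a
  induction a using MonoidAlgebra.induction_linear with
  | zero => simp
  | add x y hx hy => rw [map_add, mul_add, add_mul, hx, hy]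
  | single γ c =>
    rw [MonoidAlgebra.mapDomainRingHom_apply, MonoidAlgebra.mapDomain_single,
      MonoidAlgebra.single_mul_single, MonoidAlgebra.single_mul_single, one_mul, mul_one, hz]

lemma Th_deg {k : Type u} [CommRing k] {N : ℕ} (r : k →+* ZMod N) {G : Type v} [Group G] (c : G)
    (X : G → k) (a g : WR N G) (h : dg g ≠ 1) : ThN r c X a g = 0 := by
  rw [ThN, Th, if_neg, map_zero]
  rintro ⟨t, rfl⟩
  apply h
  show (t * w0 N c * t⁻¹).right.toAdd = 1
  rw [SemidirectProduct.mul_right, SemidirectProduct.mul_right, SemidirectProduct.inv_right]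
  show (t.right * Multiplicative.ofAdd (1 : ZMod N) * t.right⁻¹).toAdd = 1
  rw [mul_comm t.right, mul_inv_cancel_right]
  rfl

end VLFaux

open VLFaux in
theorem specVLF (hVL1 : SpecVL1.{u, v}) (hBLK : SpecBLK.{u, v}) (hDIA : SpecDIA.{u, v})
    (hINV : SpecINV.{max u v, v, 0, max u v}) (hQSB : SpecQSB.{max u v, v, 0, max u v})
    (hCON : SpecCON.{u, v}) (hTDN : SpecTDN.{u, v}) : SpecVLF.{u, v} := by
  intro k _ p e hp hp2 _ _ r hr G _ c X hX hXc C _ φ z hz x y hy b hb n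
  have hI := hCON k p e r hr G (Fin (n + 5)) c X hX hXc
  have hI1 := hCON k p e r hr G Unit c X hX hXc
  have hfix := hTDN k p e hr.frob G (Fin (n + 5))
  have hfix1 := hTDN k p e hr.frob G Unit
  obtain ⟨s, s', hs1, hs2, hs3, hs4, hs5⟩ := hDIA k p e r hr G (Fin (n + 5)) (ThN r c X) hI
    (dF (o0 n) (o1 n) (gU k z))
  obtain ⟨t, t', ht1, ht2, ht3, ht4, ht5⟩ := hDIA k p e r hr G (Fin (n + 5)) (ThN r c X) hI
    (dF (o0 n) (o2 n) y)
  refine ⟨s, t, hs4, ht4, ?_⟩
  have hzy : gU k z * y = y * gU k z := gU_comm φ z hz x y hy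
  have hcomm : diagU (dF (o0 n) (o1 n) (gU k z)) * diagU (dF (o0 n) (o2 n) y) =
      diagU (dF (o0 n) (o2 n) y) * diagU (dF (o0 n) (o1 n) (gU k z)) := by
    apply diagU_comm
    intro l
    by_cases h0 : l = o0 n
    · simp only [dF, if_pos h0]
      exact hzy
    · by_cases h1 : l = o1 n
      · have h2 : l ≠ o2 n := by rw [h1]; exact o12 n
        simp only [dF, if_neg h0, if_neg h2, one_mul, mul_one]
      · simp only [dF, if_neg h0, if_neg h1, one_mul, mul_one]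
  have hTf := fun w => (hfix w).1
  have hDf := fun w => (hfix w).2.1
  have hInK : InK (p ^ (e + 1)) (rot k G (Fin (n + 5)) (p ^ (e + 1)))
      (iB k (p ^ (e + 1)) r G (Fin (n + 5))) (tauS (p ^ (e + 1)) G (Fin (n + 5))) (cm s t) := by
    apply hQSB.ker _ _ _ _ _ _ _ _ _ _ hI (TT k G (Fin (n + 5)) (p ^ (e + 1)))
      (DD k G (Fin (n + 5)) p e)
    have h1 := hQSB.mul _ _ _ _ _ _ _ _ _ _ hI (TT k G (Fin (n + 5)) (p ^ (e + 1)))
      (DD k G (Fin (n + 5)) p e) hTf _ _ _ _ (hQSB.mul _ _ _ _ _ _ _ _ _ _ hI _ _ hTf _ _ _ _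
        (hQSB.mul _ _ _ _ _ _ _ _ _ _ hI _ _ hTf _ _ _ _ hs4 ht4)
        (hQSB.inv _ _ _ _ _ _ _ _ _ _ hI _ _ hTf hDf _ _ hs4))
      (hQSB.inv _ _ _ _ _ _ _ _ _ _ hI _ _ hTf hDf _ _ ht4)
    rw [hcomm, mul_inv_cancel_right, mul_inv_cancel] at h1
    exact h1
  rw [hBLK k (p ^ (e + 1)) r G (Fin (n + 5)) (ThN r c X) (Th_deg r c X) hI hI1 s t s' t' hs1 hs2
    ht1 ht2 hs3 ht3 hInK]
  rw [Finset.sum_eq_single (o0 n)]
  · -- the value at `0`
    have hs6 := hs5 (o0 n)
    have ht6 := ht5 (o0 n)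
    have e1 : dF (o0 n) (o1 n) (gU k z) (o0 n) = gU k z := by simp only [dF, if_true]
    have e2 : dF (o0 n) (o2 n) y (o0 n) = y := by simp only [dF, if_true]
    rw [e1] at hs6
    rw [e2] at ht6
    exact hVL1 k p e hp2 r hr G c X hX hXc C φ z hz x y hy b hb _ _ hs6 ht6
  · intro l _ hl
    have hone := hQSB.one _ _ _ _ _ _ _ _ _ _ hI1 (TT k G Unit (p ^ (e + 1))) (DD k G Unit p e)
    by_cases h1 : l = o1 n
    · -- the second entry is `1`
      have e2 : dF (o0 n) (o2 n) y l = 1 := by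
        rw [h1]
        simp only [dF, if_neg (o01 n).symm, if_neg (o12 n)]
      have ht6 := ht5 l
      rw [e2, diagU_one] at ht6
      rw [hINV _ _ _ _ _ _ _ _ _ _ hI1 (TT k G Unit (p ^ (e + 1))) (DD k G Unit p e)
        (fun w => (hfix1 w).1) (fun w => (hfix1 w).2.1) (fun w => (hfix1 w).2.2) _ _ (s' l) (t' l)
        (s' l) 1 (by rw [mul_one, one_mul]) (hs5 l) (hs5 l) ht6 hone]
      exact EE_one_right hI1 _
    · have e2 : dF (o0 n) (o1 n) (gU k z) l = 1 := by
        simp only [dF, if_neg hl, if_neg h1]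
      have hs6 := hs5 l
      rw [e2, diagU_one] at hs6
      rw [hINV _ _ _ _ _ _ _ _ _ _ hI1 (TT k G Unit (p ^ (e + 1))) (DD k G Unit p e)
        (fun w => (hfix1 w).1) (fun w => (hfix1 w).2.1) (fun w => (hfix1 w).2.2) _ _ (s' l) (t' l)
        1 (t' l) (by rw [mul_one, one_mul]) hs6 hone (ht5 l) (ht5 l)]
      exact EE_one_left hI1 _
  · intro h
    exact absurd (Finset.mem_univ _) h

end Pool.Agent.Lib.MPb6f35e.K2
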