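import Pool.Agent.Lib.MP_b6f35e_al.K2.AL2
import Pool.Agent.Lib.MP_b6f35e_al.K2.AL4
import Pool.Agent.Lib.MP_b6f35e_al.K2.AL5
import Pool.Agent.Lib.MP_b6f35e_al.K2.BLK
import Pool.Agent.Lib.MP_b6f35e_al.K2.BLS
import Pool.Agent.Lib.MP_b6f35e_al.K2.CNX
import Pool.Agent.Lib.MP_b6f35e_al.K2.DE2
import Pool.Agent.Lib.MP_b6f35e_al.K2.DEL
import Pool.Agent.Lib.MP_b6f35e_al.K2.DIA
import Pool.Agent.Lib.MP_b6f35e_al.K2.DS2
import Pool.Agent.Lib.MP_b6f35e_al.K2.EXT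
import Pool.Agent.Lib.MP_b6f35e_al.K2.FL2
import Pool.Agent.Lib.MP_b6f35e_al.K2.HFO
import Pool.Agent.Lib.MP_b6f35e_al.K2.HGL
import Pool.Agent.Lib.MP_b6f35e_al.K2.HID
import Pool.Agent.Lib.MP_b6f35e_al.K2.HOC
import Pool.Agent.Lib.MP_b6f35e_al.K2.HSB
import Pool.Agent.Lib.MP_b6f35e_al.K2.HSC
import Pool.Agent.Lib.MP_b6f35e_al.K2.INV
import Pool.Agent.Lib.MP_b6f35e_al.K2.LGG
import Pool.Agent.Lib.MP_b6f35e_al.K2.MA2
import Pool.Agent.Lib.MP_b6f35e_al.K2.MN2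
import Pool.Agent.Lib.MP_b6f35e_al.K2.MOB
import Pool.Agent.Lib.MP_b6f35e_al.K2.RE2
import Pool.Agent.Lib.MP_b6f35e_al.K2.RED
import Pool.Agent.Lib.MP_b6f35e_al.K2.STF
import Pool.Agent.Lib.MP_b6f35e_al.K2.TDN
import Pool.Agent.Lib.MP_b6f35e_al.K2.THE
import Pool.Agent.Lib.MP_b6f35e_al.K2.TRL
import Pool.Agent.Lib.MP_b6f35e_al.K2.UCE
import Pool.Agent.Lib.MP_b6f35e_al.K2.VL1
import Pool.Agent.Lib.MP_b6f35e_al.K2.VLA
import Pool.Agent.Lib.MP_b6f35e_al.K2.VLC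
import Pool.Agent.Lib.MP_b6f35e_al.K2.VLE
import Pool.Agent.Lib.MP_b6f35e_al.K2.XWM
import Pool.Agent.Lib.MP_b6f35e_al.K2.VLF
import Pool.Agent.Lib.MP_b6f35e_al.K2.OM2
import Pool.Agent.Lib.MP_b6f35e_al.K2.HSD
import Pool.Agent.Lib.MP_b6f35e_al.K2.PA2
import Pool.Agent.Lib.MP_b6f35e_al.K2.HET
import Pool.Agent.Lib.MP_b6f35e_al.K2.KAP
import Pool.Agent.Lib.MP_b6f35e_al.K2.DefsG
import Pool.Agent.Lib.MP_b6f35e_al.K2.EX2
import Pool.Agent.Lib.MP_b6f35e_al.K2.EXB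
import Pool.Agent.Lib.MP_b6f35e_al.WH.ER

/-!
# K_2 theorem (MP_b6f35e_al): assembly

For a domain `R` of characteristic zero and a group `G` the symbols `{z, u}` give a homomorphism
from the tensor product of `Z_G(C)_ab` and `R[C]ˣ` over the finite cyclic subgroups `C` of `G` to
`K_2(R[G])`; the theorem describes the elements which have finite order modulo the images of the
`K_2(R[H])`, `H` finite.
-/

set_option autoImplicit false

noncomputable section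

namespace Pool.Agent.Lib.MPb6f35e.K2

open Pool.Agent.Lib.MPb6f35e.WH

universe u v

namespace Mainaux

theorem con : SpecCON.{u, v} := specCON specTHE specXWM specDGR specHOC specHFO

theorem inv : SpecINV.{max u v, v, 0, max u v} := specINV specEXT

theorem vl1 : SpecVL1.{u, v} :=
  specVL1 inv specTDN con specQSB specDEL (specVLC (specVLA specTHE) specTHE) specVLE

theorem vlf : SpecVLF.{u, v} :=
  specVLF vl1 (specBLK specBLS) (specDIA specBLS specQSB specTDN) inv specQSB con specTDN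

theorem om2 : SpecOM2.{u, v} :=
  specOM2 specEX2 specUCE specHGL con specTDN (specHET specTHE) specHSB (specHSC specHSB)
    (specHSD specTDN specQSB specHSB) specTHE specQSB

theorem re2 : SpecRE2.{v} :=
  specRE2 (specFL2 om2 vlf specRED) (specEXB specTDN) specLP specTHE

theorem al2 : SpecAL2.{u, v} :=
  specAL2 (specAL3 (specAL4 (specAL5 specLGG specTRL) specLGG specTRL specTHE) specLGG specTRL
    specTHE) (specMOB specLGG specTRL) specTRL specLGG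

theorem ma2 : SpecMA2.{u, v} :=
  specMA2 (specMN2 (specDS2 specDE2) specCAS
    (specPA2 re2 specSTF specLGG specTHE specTRL al2)) (specHID specTRL)

end Mainaux

/-- The theorem. -/
theorem main (R : Type u) [CommRing R] [IsDomain R] [CharZero R] (G : Type v) [Group G] :
    ∃ κ : TGrp R G → St ℕ (MonoidAlgebra R G), IsKap R G κ ∧
      ∀ (x : TGrp R G) (m : ℕ), 0 < m → κ x ^ m ∈ FinPart R G →
        (∀ M : ℕ, ∃ p, M < p ∧ p.Prime ∧ ∃ k : ℕ, 0 < k ∧ k • x ∈ DSub R G p) ∧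
        (NoHidden G → IsOfFinAddOrder x) ∧ (CentFG G → IsOfFinAddOrder x) := by
  refine ⟨fun x => (KAP.kapM R G (.ofAdd x) : St ℕ (MonoidAlgebra R G)),
    ⟨fun x y => ?_, fun x v => ?_, KAP.kapM_cls⟩, ?_⟩
  · show ((KAP.kapM R G (Multiplicative.ofAdd x * Multiplicative.ofAdd y) :
      Subgroup.center (St ℕ (MonoidAlgebra R G))) : St ℕ (MonoidAlgebra R G)) = _
    rw [map_mul]
    rfl
  · exact (Subgroup.mem_center_iff.1 (KAP.kapM R G (.ofAdd x)).2 v).symm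
  intro x m hm hx
  obtain ⟨l, rfl⟩ := KAP.exists_list x
  have hx : (KAP.kapM R G (Multiplicative.ofAdd (tsum R G l)) : St ℕ (MonoidAlgebra R G)) ^ m ∈
      FinPart R G := hx
  rw [KAP.kapM_tsum] at hx
  obtain ⟨h1, h2, h3⟩ := Mainaux.ma2 R G l m hm hx
  refine ⟨h1, fun h => h2 fun C hC cC => ?_, h3⟩
  obtain ⟨M, hM⟩ := h C hC cC
  exact ⟨M, fun p hp hpp z hz hh => hM p hp hpp ⟨z, _⟩ hh⟩

end Pool.Agent.Lib.MPb6f35e.K2
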