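import Pool.Agent.Lib.MP_b6f35e_al.K2.SpecB
import Pool.Agent.Lib.MP_b6f35e_al.K2.ABS

/-!
# K_2 theorem (MP_b6f35e_al), QSB: the group of the pairs `(y, s)`
-/

set_option autoImplicit false

noncomputable section

namespace Pool.Agent.Lib.MPb6f35e.K2

open Pool.Agent.Lib.MPb6f35e.WH

universe u v w x

namespace QSBaux

open ABSaux

variable {B : Type u} {S : Type v} {H : Type w} {U : Type x} [Ring B] [Ring S] [AddCommGroup H]
  [Group U] {N : ℕ} {ρ : B →+* B} {i : B →+* S} {τ : Sˣ} {d : S →+ S} {φ : S →+ S →+ H}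

lemma inv_fix {r : Bˣ} (hr : ρ r = r) : ρ ((r⁻¹ : Bˣ) : B) = ((r⁻¹ : Bˣ) : B) := by
  have h1 : (r : B) * ρ ((r⁻¹ : Bˣ) : B) = 1 := by
    conv_lhs => rw [← hr]
    rw [← map_mul, Units.mul_inv, map_one]
  have h2 := congrArg (fun z => ((r⁻¹ : Bˣ) : B) * z) h1
  simp only [mul_one] at h2
  rw [← mul_assoc, Units.inv_mul, one_mul] at h2
  exact h2

/-- `(1 + b e)(1 + b' e) = 1 + (b + b' + b Nm b') e` -/
lemma mul_one_be (h : IsDat N ρ i τ d φ) (b b' : B) :
    (1 + i b * eS N τ) * (1 + i b' * eS N τ) = 1 + i (b + b' + b * nm ρ N b') * eS N τ := by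
  have h1 : i b * eS N τ * (i b' * eS N τ) = i (b * nm ρ N b') * eS N τ := by
    rw [mul_assoc, ebe h, ← mul_assoc, ← map_mul]
  rw [mul_add, mul_one, add_mul, one_mul, h1, map_add, map_add, add_mul, add_mul]
  abel

/-- `(1 + b e) r = r (1 + r⁻¹ b r e)` -/
lemma be_fix (h : IsDat N ρ i τ d φ) {r : Bˣ} (hr : ρ r = r) (b : B) :
    (1 + i b * eS N τ) * i r = i r * (1 + i (((r⁻¹ : Bˣ) : B) * b * r) * eS N τ) := by
  rw [add_mul, one_mul, mul_add, mul_one, mul_assoc, e_fix h hr, ← mul_assoc, ← map_mul,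
    ← mul_assoc, ← map_mul, mul_assoc ((r⁻¹ : Bˣ) : B), ← mul_assoc (r : B), Units.mul_inv,
    one_mul]

lemma X_eq {y : U} {T D : U →* Bˣ} {b : B} (hb : (T y : B) * (1 + nm ρ N b) = D y) :
    1 + nm ρ N b = (((T y)⁻¹ : Bˣ) : B) * D y := by
  rw [← hb, ← mul_assoc, Units.inv_mul, one_mul]

lemma nm_eq {y : U} {T D : U →* Bˣ} {b : B} (hb : (T y : B) * (1 + nm ρ N b) = D y) :
    nm ρ N b = (((T y)⁻¹ : Bˣ) : B) * D y - 1 := by
  rw [← X_eq hb, add_sub_cancel_left]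

end QSBaux

open ABSaux QSBaux

theorem specQSB : SpecQSB.{u, v, w, x} where
  one := by
    intro B S H U _ _ _ _ N ρ i τ d φ h T D
    have h0 : nm ρ N 0 = 0 := by
      have := nm_sub (ρ := ρ) (N := N) 0 0
      rw [sub_self, sub_self] at this
      exact this
    refine ⟨0, ?_, ?_⟩
    · rw [map_one, map_zero, zero_mul, add_zero, mul_one, Units.val_one, Units.val_one, map_one]
    · rw [h0, map_one, map_one, add_zero, mul_one]
  mul := by
    rintro B S H U _ _ _ _ N ρ i τ d φ h T D hT y y' s s' ⟨b, hs, hb⟩ ⟨b', hs', hb'⟩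
    refine ⟨((T y')⁻¹ : Bˣ) * b * T y' + b' + ((T y')⁻¹ : Bˣ) * b * T y' * nm ρ N b', ?_, ?_⟩
    · rw [Units.val_mul, hs, hs', ← mul_one_be h, map_mul T, Units.val_mul, map_mul i]
      calc i (T y) * (1 + i b * eS N τ) * (i (T y') * (1 + i b' * eS N τ))
          = i (T y) * ((1 + i b * eS N τ) * i (T y')) * (1 + i b' * eS N τ) := by
            simp only [mul_assoc]
        _ = _ := by rw [be_fix h (hT y')]; simp only [mul_assoc]
    · have hf : ρ (nm ρ N b') = nm ρ N b' := rho_nm h.rotN b'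
      have h1 : nm ρ N (((T y')⁻¹ : Bˣ) * b * T y') = ((T y')⁻¹ : Bˣ) * nm ρ N b * T y' := by
        rw [nm_mul_fix _ (hT y'), nm_fix_mul _ (inv_fix (hT y'))]
      rw [nm_add, nm_add, nm_mul_fix _ hf, h1, map_mul T, map_mul D, Units.val_mul, Units.val_mul,
        ← hb, ← hb']
      have h2 : (T y' : B) * (((T y')⁻¹ : Bˣ) * nm ρ N b * T y') = nm ρ N b * T y' := by
        rw [mul_assoc ((((T y')⁻¹ : Bˣ)) : B), ← mul_assoc, Units.mul_inv, one_mul]
      calc (T y : B) * T y' * (1 + (((T y')⁻¹ : Bˣ) * nm ρ N b * T y' + nm ρ N b' +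
            ((T y')⁻¹ : Bˣ) * nm ρ N b * T y' * nm ρ N b'))
          = (T y : B) * (T y' + T y' * (((T y')⁻¹ : Bˣ) * nm ρ N b * T y')) * (1 + nm ρ N b') := by
            noncomm_ring
        _ = _ := by rw [h2]; noncomm_ring
  inv := by
    rintro B S H U _ _ _ _ N ρ i τ d φ h T D hT hD y s ⟨b, hs, hb⟩
    have hN := nm_eq hb
    have h1 : nm ρ N ((T y : B) * b * ((D y)⁻¹ : Bˣ)) = (T y : B) * nm ρ N b * ((D y)⁻¹ : Bˣ) := by
      rw [nm_mul_fix _ (inv_fix (hD y)), nm_fix_mul _ (hT y)]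
    have h0 : nm ρ N 0 = 0 := by
      have := nm_sub (ρ := ρ) (N := N) 0 0
      rw [sub_self, sub_self] at this
      exact this
    have hneg : ∀ a : B, nm ρ N (-a) = - nm ρ N a := by
      intro a
      rw [← zero_sub, nm_sub, h0, zero_sub]
    refine ⟨-((T y : B) * b * ((D y)⁻¹ : Bˣ)), ?_, ?_⟩
    · have h2 : (s : S) * (i (T y⁻¹) * (1 + i (-((T y : B) * b * ((D y)⁻¹ : Bˣ))) * eS N τ)) = 1 := by
        have h3 : (1 + i b * eS N τ) * i (T y⁻¹) =
            i (T y⁻¹) * (1 + i ((T y : B) * b * ((T y)⁻¹ : Bˣ)) * eS N τ) := by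
          have := be_fix h (r := (T y)⁻¹) (inv_fix (hT y)) b
          rw [inv_inv] at this
          rw [map_inv T]
          exact this
        calc (s : S) * (i (T y⁻¹) * (1 + i (-((T y : B) * b * ((D y)⁻¹ : Bˣ))) * eS N τ))
            = i (T y) * ((1 + i b * eS N τ) * i (T y⁻¹)) *
                (1 + i (-((T y : B) * b * ((D y)⁻¹ : Bˣ))) * eS N τ) := by
              rw [hs]; simp only [mul_assoc]
          _ = i (T y) * i (T y⁻¹) * ((1 + i ((T y : B) * b * ((T y)⁻¹ : Bˣ)) * eS N τ) *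
                (1 + i (-((T y : B) * b * ((D y)⁻¹ : Bˣ))) * eS N τ)) := by
              rw [h3]; simp only [mul_assoc]
          _ = 1 := by
              have h4 : (T y : B) * b * ((T y)⁻¹ : Bˣ) + -((T y : B) * b * ((D y)⁻¹ : Bˣ)) +
                  (T y : B) * b * ((T y)⁻¹ : Bˣ) * nm ρ N (-((T y : B) * b * ((D y)⁻¹ : Bˣ))) = 0 := by
                rw [hneg, h1, hN]
                have e1 : (T y : B) * ((((T y)⁻¹ : Bˣ) : B) * D y - 1) * ((D y)⁻¹ : Bˣ) =
                    1 - (T y : B) * ((D y)⁻¹ : Bˣ) := by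
                  rw [mul_sub, mul_one, ← mul_assoc, Units.mul_inv, one_mul, sub_mul,
                    Units.mul_inv]
                rw [e1]
                have e2 : (T y : B) * b * ((T y)⁻¹ : Bˣ) * -(1 - (T y : B) * ((D y)⁻¹ : Bˣ)) =
                    -((T y : B) * b * ((T y)⁻¹ : Bˣ)) +
                      (T y : B) * b * ((((T y)⁻¹ : Bˣ) : B) * T y) * ((D y)⁻¹ : Bˣ) := by
                  noncomm_ring
                rw [e2, Units.inv_mul, mul_one]
                abel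
              rw [mul_one_be h, h4, map_zero, zero_mul, add_zero, mul_one, ← map_mul,
                ← Units.val_mul, ← map_mul, mul_inv_cancel, map_one, Units.val_one, map_one]
      have h5 := congrArg (fun z => ((s⁻¹ : Sˣ) : S) * z) h2
      simp only [mul_one] at h5
      rw [← mul_assoc, Units.inv_mul, one_mul] at h5
      exact h5.symm
    · rw [hneg, h1, hN, map_inv, map_inv]
      have e1 : (T y : B) * ((((T y)⁻¹ : Bˣ) : B) * D y - 1) * ((D y)⁻¹ : Bˣ) =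
          1 - (T y : B) * ((D y)⁻¹ : Bˣ) := by
        rw [mul_sub, mul_one, ← mul_assoc, Units.mul_inv, one_mul, sub_mul, Units.mul_inv]
      rw [e1, ← sub_eq_add_neg, sub_sub_cancel, ← mul_assoc, Units.inv_mul, one_mul]
  onto := by
    intro B S H U _ _ _ _ N ρ i τ d φ h T D hT hD y b hb
    have hN := nm_eq hb
    have hX : ρ ((((D y)⁻¹ : Bˣ) : B) * T y) = (((D y)⁻¹ : Bˣ) : B) * T y := by
      rw [map_mul, inv_fix (hD y), hT]
    have h1 : nm ρ N (b * ((D y)⁻¹ : Bˣ) * T y) = nm ρ N b * (((D y)⁻¹ : Bˣ) * T y) := by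
      rw [mul_assoc, nm_mul_fix _ hX]
    have e1 : nm ρ N (b * ((D y)⁻¹ : Bˣ) * T y) = 1 - (((D y)⁻¹ : Bˣ) : B) * T y := by
      rw [h1, hN, sub_mul, one_mul]
      have : (((T y)⁻¹ : Bˣ) : B) * D y * ((((D y)⁻¹ : Bˣ) : B) * T y) = 1 := by
        rw [mul_assoc, ← mul_assoc (D y : B), Units.mul_inv, one_mul, Units.inv_mul]
      rw [this]
    have hneg : 1 - i (b * ((D y)⁻¹ : Bˣ) * T y) * eS N τ =
        1 + i (-(b * ((D y)⁻¹ : Bˣ) * T y)) * eS N τ := by
      rw [map_neg, neg_mul, sub_eq_add_neg]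
    have h0 : nm ρ N 0 = 0 := by
      have := nm_sub (ρ := ρ) (N := N) 0 0
      rw [sub_self, sub_self] at this
      exact this
    have hnn : ∀ a : B, nm ρ N (-a) = - nm ρ N a := by
      intro a
      rw [← zero_sub, nm_sub, h0, zero_sub]
    have m1 : (1 + i b * eS N τ) * (1 - i (b * ((D y)⁻¹ : Bˣ) * T y) * eS N τ) = 1 := by
      rw [hneg, mul_one_be h, hnn, e1]
      have : b + -(b * ((D y)⁻¹ : Bˣ) * T y) + b * -(1 - (((D y)⁻¹ : Bˣ) : B) * T y) = 0 := by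
        noncomm_ring
      rw [this, map_zero, zero_mul, add_zero]
    have m2 : (1 - i (b * ((D y)⁻¹ : Bˣ) * T y) * eS N τ) * (1 + i b * eS N τ) = 1 := by
      rw [hneg, mul_one_be h, hN]
      have e3 : -(b * ((D y)⁻¹ : Bˣ) * T y) * ((((T y)⁻¹ : Bˣ) : B) * D y - 1) =
          -b + b * ((D y)⁻¹ : Bˣ) * T y := by
        have e4 : b * ((D y)⁻¹ : Bˣ) * T y * ((((T y)⁻¹ : Bˣ) : B) * D y) = b := by
          rw [mul_assoc, ← mul_assoc (T y : B), Units.mul_inv, one_mul, mul_assoc, Units.inv_mul,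
            mul_one]
        rw [mul_sub, mul_one, neg_mul, e4, sub_neg_eq_add]
      rw [e3]
      have : -(b * ((D y)⁻¹ : Bˣ) * T y) + b + (-b + b * ((D y)⁻¹ : Bˣ) * T y) = 0 := by
        abel
      rw [this, map_zero, zero_mul, add_zero]
    refine ⟨⟨i (T y) * (1 + i b * eS N τ),
      (1 - i (b * ((D y)⁻¹ : Bˣ) * T y) * eS N τ) * i ((T y)⁻¹ : Bˣ), ?_, ?_⟩, rfl, rfl⟩
    · calc i (T y) * (1 + i b * eS N τ) *
            ((1 - i (b * ((D y)⁻¹ : Bˣ) * T y) * eS N τ) * i ((T y)⁻¹ : Bˣ))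
          = i (T y) * ((1 + i b * eS N τ) *
            (1 - i (b * ((D y)⁻¹ : Bˣ) * T y) * eS N τ)) * i ((T y)⁻¹ : Bˣ) := by
            simp only [mul_assoc]
        _ = 1 := by rw [m1, mul_one, ← map_mul, Units.mul_inv, map_one]
    · calc (1 - i (b * ((D y)⁻¹ : Bˣ) * T y) * eS N τ) * i ((T y)⁻¹ : Bˣ) *
            (i (T y) * (1 + i b * eS N τ))
          = (1 - i (b * ((D y)⁻¹ : Bˣ) * T y) * eS N τ) * (i ((T y)⁻¹ : Bˣ) * i (T y)) *
            (1 + i b * eS N τ) := by simp only [mul_assoc]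
        _ = 1 := by rw [← map_mul i, Units.inv_mul, map_one, mul_one, m2]
  ker := by
    rintro B S H U _ _ _ _ N ρ i τ d φ h T D s ⟨b, hs, hb⟩
    rw [map_one, map_one, Units.val_one, one_mul] at hb
    obtain ⟨q, hq⟩ := h.ker b (left_eq_add.mp hb.symm)
    refine ⟨q, ?_⟩
    rw [hs, map_one, Units.val_one, map_one, one_mul, ← hq]
  inq := by
    rintro B S H U _ _ _ _ N ρ i τ d φ h T D hT y s ⟨b, hs, hb⟩
    refine ⟨T y, b, hT y, ?_, hs⟩
    rw [X_eq hb]
    exact ((T y)⁻¹ * D y).isUnit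

end Pool.Agent.Lib.MPb6f35e.K2
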