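import Pool.Agent.Lib.MP_b6f35e_al.K2.STF

/-!
# K_2 theorem (MP_b6f35e_al), module SYB: the symbols are central, bilinear and invariant under
conjugation (arbitrary rings)
-/

set_option autoImplicit false

noncomputable section

namespace Pool.Agent.Lib.MPb6f35e.K2

universe u v

namespace SYB

variable {I : Type} {A : Type u} [Ring A]

/-! ### conjugation of the generators by `w_ij(u)` -/

/-- Conjugation. -/
def cj {X : Type*} [Group X] (y x : X) : X := y * x * y⁻¹

lemma cj_mul_left {X : Type*} [Group X] (y y' x : X) : cj (y * y') x = cj y (cj y' x) := by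
  simp only [cj]; group

lemma cj_mul_right {X : Type*} [Group X] (y x x' : X) : cj y (x * x') = cj y x * cj y x' := by
  simp only [cj]; group

lemma cj_inv_right {X : Type*} [Group X] (y x : X) : cj y x⁻¹ = (cj y x)⁻¹ := by
  simp only [cj]; group

lemma cj_cm {X : Type*} [Group X] (y x x' : X) : cj y (cm x x') = cm (cj y x) (cj y x') := by
  simp only [cj, cm]; group

lemma xinv {i j : I} (h : i ≠ j) (a : A) : (xx h a : St I A)⁻¹ = xx h (-a) := by
  have h0 : (xx h 0 : St I A) = 1 := by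
    have h1 : (xx h 0 : St I A) * xx h 0 = xx h 0 := by rw [STFaux.xx_add, add_zero]
    exact mul_eq_left.1 h1
  rw [inv_eq_iff_mul_eq_one, STFaux.xx_add, add_neg_cancel, h0]

lemma x0 {i j : I} (h : i ≠ j) : (xx h (0 : A) : St I A) = 1 := by
  have h1 : (xx h 0 : St I A) * xx h 0 = xx h (0 : A) := by rw [STFaux.xx_add, add_zero]
  exact mul_eq_left.1 h1

lemma xcomm {i j k l : I} (h : i ≠ j) (h' : k ≠ l) (hjk : j ≠ k) (hil : i ≠ l) (a b : A) :
    (xx h a : St I A) * xx h' b = xx h' b * xx h a := by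
  have h1 := STFaux.xx_comm h h' hjk hil a b
  rw [cm, mul_inv_eq_one, mul_inv_eq_iff_eq_mul] at h1
  exact h1

lemma cj_comm {i j k l : I} (h : i ≠ j) (h' : k ≠ l) (hjk : j ≠ k) (hil : i ≠ l) (a b : A) :
    cj (xx h a : St I A) (xx h' b) = xx h' b := by
  rw [cj, xcomm h h' hjk hil, mul_inv_cancel_right]

lemma cj_row {i j k : I} (h : i ≠ j) (h' : j ≠ k) (h'' : i ≠ k) (a b : A) :
    cj (xx h a : St I A) (xx h' b) = xx h'' (a * b) * xx h' b := by
  have h1 := STFaux.xx_mul h h' h'' a b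
  rw [← h1, cj, cm, inv_mul_cancel_right]

lemma cj_col {i j k : I} (h : i ≠ j) (h' : j ≠ k) (h'' : i ≠ k) (a b : A) :
    cj (xx h' b : St I A) (xx h a) = xx h'' (-(a * b)) * xx h a := by
  have h1 := STFaux.xx_mul h h' h'' a b
  rw [← xinv, ← h1, cj, cm]
  group

section

variable {i j : I} (h : i ≠ j) (u : Aˣ)

lemma w_jl {l : I} (hi : i ≠ l) (hj : j ≠ l) (a : A) :
    cj (ww h u : St I A) (xx hj a) = xx hi ((u : A) * a) := by
  rw [ww, cj_mul_left, cj_mul_left, cj_row h hj hi, cj_mul_right, cj_row h.symm hi hj,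
    cj_comm h.symm hj h hj, neg_mul, ← mul_assoc, Units.inv_mul, one_mul,
    xcomm hj hi hi.symm hj, mul_assoc, STFaux.xx_add, neg_add_cancel, x0, mul_one,
    cj_comm h hi h.symm hi]

lemma w_il {l : I} (hi : i ≠ l) (hj : j ≠ l) (a : A) :
    cj (ww h u : St I A) (xx hi a) = xx hj (-(((u⁻¹ : Aˣ) : A) * a)) := by
  rw [ww, cj_mul_left, cj_mul_left, cj_comm h hi h.symm hi, cj_row h.symm hi hj, cj_mul_right,
    cj_comm h hi h.symm hi, cj_row h hj hi, neg_mul, mul_neg, ← mul_assoc, Units.mul_inv, one_mul,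
    xcomm hi hj hj.symm hi, mul_assoc, STFaux.xx_add, neg_add_cancel, x0, mul_one]

lemma w_ki {k : I} (hi : k ≠ i) (hj : k ≠ j) (a : A) :
    cj (ww h u : St I A) (xx hi a) = xx hj (-(a * (u : A))) := by
  rw [ww, cj_mul_left, cj_mul_left, cj_col hi h hj, cj_mul_right, cj_col hj h.symm hi,
    cj_comm h.symm hi hi.symm h.symm, mul_neg, neg_mul, neg_neg, Units.mul_inv_cancel_right,
    xcomm hi hj hi.symm hj, mul_assoc, STFaux.xx_add, neg_add_cancel, x0, mul_one,
    cj_comm h hj hj.symm h]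

lemma w_kj {k : I} (hi : k ≠ i) (hj : k ≠ j) (a : A) :
    cj (ww h u : St I A) (xx hj a) = xx hi (a * ((u⁻¹ : Aˣ) : A)) := by
  rw [ww, cj_mul_left, cj_mul_left, cj_comm h hj hj.symm h, cj_col hj h.symm hi, cj_mul_right,
    cj_comm h hj hj.symm h, cj_col hi h hj, mul_neg, neg_neg, Units.inv_mul_cancel_right,
    xcomm hj hi hj.symm hi, mul_assoc, STFaux.xx_add, neg_add_cancel, x0, mul_one]

lemma w_kl {k l : I} (hkl : k ≠ l) (h1 : k ≠ i) (h2 : k ≠ j) (h3 : l ≠ i) (h4 : l ≠ j) (a : A) :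
    cj (ww h u : St I A) (xx hkl a) = xx hkl a := by
  rw [ww, cj_mul_left, cj_mul_left, cj_comm h hkl h2.symm h3.symm, cj_comm h.symm hkl h1.symm h4.symm,
    cj_comm h hkl h2.symm h3.symm]

/-! ### conjugation of the generators by `h_ij(u)` -/

lemma h_jl {l : I} (hi : i ≠ l) (hj : j ≠ l) (a : A) :
    cj (hh h u : St I A) (xx hj a) = xx hj (((u⁻¹ : Aˣ) : A) * a) := by
  rw [hh, cj_mul_left, w_jl h _ hi hj, w_il h _ hi hj]
  congr 1
  simp

lemma h_il {l : I} (hi : i ≠ l) (hj : j ≠ l) (a : A) :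
    cj (hh h u : St I A) (xx hi a) = xx hi ((u : A) * a) := by
  rw [hh, cj_mul_left, w_il h _ hi hj, w_jl h _ hi hj]
  congr 1
  simp

lemma h_ki {k : I} (hi : k ≠ i) (hj : k ≠ j) (a : A) :
    cj (hh h u : St I A) (xx hi a) = xx hi (a * ((u⁻¹ : Aˣ) : A)) := by
  rw [hh, cj_mul_left, w_ki h _ hi hj, w_kj h _ hi hj]
  congr 1
  simp

lemma h_kj {k : I} (hi : k ≠ i) (hj : k ≠ j) (a : A) :
    cj (hh h u : St I A) (xx hj a) = xx hj (a * (u : A)) := by
  rw [hh, cj_mul_left, w_kj h _ hi hj, w_ki h _ hi hj]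
  congr 1
  simp

lemma h_kl {k l : I} (hkl : k ≠ l) (h1 : k ≠ i) (h2 : k ≠ j) (h3 : l ≠ i) (h4 : l ≠ j) (a : A) :
    cj (hh h u : St I A) (xx hkl a) = xx hkl a := by
  rw [hh, cj_mul_left, w_kl h _ hkl h1 h2 h3 h4, w_kl h _ hkl h1 h2 h3 h4]

lemma h_ij {l : I} (hi : i ≠ l) (hj : j ≠ l) (a : A) :
    cj (hh h u : St I A) (xx h a) = xx h ((u : A) * a * (u : A)) := by
  have h1 : (xx h a : St I A) = cm (xx hi a) (xx hj.symm 1) := by
    rw [STFaux.xx_mul hi hj.symm h, mul_one]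
  rw [h1, cj_cm, h_il h u hi hj, h_kj h u hi.symm hj.symm, STFaux.xx_mul hi hj.symm h, one_mul]

lemma h_ji {l : I} (hi : i ≠ l) (hj : j ≠ l) (a : A) :
    cj (hh h u : St I A) (xx h.symm a) = xx h.symm (((u⁻¹ : Aˣ) : A) * a * ((u⁻¹ : Aˣ) : A)) := by
  have h1 : (xx h.symm a : St I A) = cm (xx hj a) (xx hi.symm 1) := by
    rw [STFaux.xx_mul hj hi.symm h.symm, mul_one]
  rw [h1, cj_cm, h_jl h u hi hj, h_ki h u hi.symm hj.symm, STFaux.xx_mul hj hi.symm h.symm, one_mul]

end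

/-! ### elements acting as diagonal matrices -/

/-- `y` acts on the generators as the diagonal matrix `d`. -/
def Act (y : St ℕ A) (d : ℕ → Aˣ) : Prop :=
  ∀ (k l : ℕ) (h : k ≠ l) (a : A), cj y (xx h a) = xx h ((d k : A) * a * (((d l)⁻¹ : Aˣ) : A))

lemma Act.mul {y y' : St ℕ A} {d d' : ℕ → Aˣ} (h : Act y d) (h' : Act y' d') :
    Act (y * y') (fun k => d k * d' k) := by
  intro k l hkl a
  rw [cj_mul_left, h', h]
  congr 1
  simp [mul_assoc]

lemma Act.inv {y : St ℕ A} {d : ℕ → Aˣ} (h : Act y d) : Act y⁻¹ (fun k => (d k)⁻¹) := by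
  intro k l hkl a
  have h1 := h k l hkl ((((d k)⁻¹ : Aˣ) : A) * a * (d l : A))
  have h2 : (d k : A) * ((((d k)⁻¹ : Aˣ) : A) * a * (d l : A)) * (((d l)⁻¹ : Aˣ) : A) = a := by
    simp [mul_assoc]
  rw [h2] at h1
  rw [← h1, inv_inv]
  simp only [cj]
  group

lemma Act.cm {y y' : St ℕ A} {d d' : ℕ → Aˣ} (h : Act y d) (h' : Act y' d') :
    Act (cm y y') (fun k => cm (d k) (d' k)) :=
  ((h.mul h').mul h.inv).mul h'.inv

/-- The diagonal entries of `h_ij(u)`. -/
def dN (i j : ℕ) (u : Aˣ) (k : ℕ) : Aˣ := if k = i then u else if k = j then u⁻¹ else 1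

lemma act_hh {i j : ℕ} (h : i ≠ j) (u : Aˣ) : Act (hh h u) (dN i j u) := by
  intro k l hkl a
  obtain ⟨m, hm⟩ := Set.Infinite.exists_notMem_finset (s := (Set.univ : Set ℕ)) Set.infinite_univ {i, j}
  simp only [Finset.mem_insert, Finset.mem_singleton, not_or] at hm
  obtain ⟨-, hm1, hm2⟩ := hm
  by_cases hki : k = i
  · subst hki
    by_cases hlj : l = j
    · subst hlj
      rw [h_ij h u (Ne.symm hm1) (Ne.symm hm2)]
      congr 1
      simp [dN, h.symm]
    · rw [h_il h u hkl (Ne.symm hlj)]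
      congr 1
      simp [dN, hlj, hkl.symm]
  · by_cases hkj : k = j
    · subst hkj
      by_cases hli : l = i
      · subst hli
        rw [h_ji h u (Ne.symm hm1) (Ne.symm hm2)]
        congr 1
        simp [dN, h.symm]
      · rw [h_jl h u (Ne.symm hli) hkl]
        congr 1
        simp [dN, hli, hki, hkl.symm]
    · by_cases hli : l = i
      · subst hli
        rw [h_ki h u hki hkj]
        congr 1
        simp [dN, hki, hkj]
      · by_cases hlj : l = j
        · subst hlj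
          rw [h_kj h u hki hkj]
          congr 1
          simp [dN, hki, hkj, hli]
        · rw [h_kl h u hkl hki hkj hli hlj]
          congr 1
          simp [dN, hki, hkj, hli, hlj]

lemma Act.central {y : St ℕ A} {d : ℕ → Aˣ} (h : Act y d) (hd : ∀ k, d k = 1) (v : St ℕ A) :
    y * v = v * y := by
  have h1 : v ∈ Subgroup.closure (Set.range (PresentedGroup.of (rels := {x | StRel ℕ A x}))) := by
    rw [PresentedGroup.closure_range_of]; trivial
  refine Subgroup.closure_induction (p := fun v _ => y * v = v * y) ?_ ?_ ?_ ?_ h1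
  · rintro _ ⟨⟨i, j, hij, a⟩, rfl⟩
    have h2 := h i j hij a
    rw [hd, hd, inv_one, Units.val_one, one_mul, mul_one, cj, mul_inv_eq_iff_eq_mul] at h2
    exact h2
  · rw [mul_one, one_mul]
  · intro x x' _ _ h2 h3
    rw [← mul_assoc, h2, mul_assoc, h3, mul_assoc]
  · intro x _ h2
    rw [eq_inv_mul_iff_mul_eq, ← mul_assoc, ← h2, mul_inv_cancel_right] 

lemma Act.commutes {y y' t : St ℕ A} {d : ℕ → Aˣ} (h : Act y d) (h' : Act y' d)
    (ht : y' * t = t * y') : y * t = t * y := by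
  have h1 := (h.mul h'.inv).central (fun k => by simp)
  have h2 : y * y'⁻¹ * (y' * t) = t * (y * y'⁻¹) * y' := by
    rw [ht, ← mul_assoc, h1 t]
  rw [← mul_assoc (y * y'⁻¹), inv_mul_cancel_right, mul_assoc t, inv_mul_cancel_right] at h2
  exact h2

end SYB

end Pool.Agent.Lib.MPb6f35e.K2
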