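import Pool.Agent.Lib.MP_b6f35e_al.WH.Spec
import Pool.Agent.Lib.MP_b6f35e_al.K2.Defs

/-!
# K_2 theorem (MP_b6f35e_al), specification A: the abstract cocycle

Captain helper19.  Proof text: /team-store/MP_b6f35e_al_K2_f2f3_h62.md (helper62).
-/

set_option autoImplicit false

noncomputable section

namespace Pool.Agent.Lib.MPb6f35e.K2

open Pool.Agent.Lib.MPb6f35e.WH

universe u v w

/-- `e = Σ_{j<N} τ^j` -/
def eS {S : Type u} [Ring S] (N : ℕ) (τ : Sˣ) : S := ∑ j ∈ Finset.range N, (τ : S) ^ j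

/-- The data of the cocycle: a ring `B` with an automorphism `ρ` of order `N`, a ring `S` with
`N = 0`, generated by the image of `B` and a unit `τ` with `τ b τ⁻¹ = ρ b`, a derivation `d` of `S`
with `d (b τ^j) = j b τ^j`, a pairing `φ` on `S` (a Hochschild 1-cocycle concentrated in degree 1). -/
structure IsDat {B S H : Type*} [Ring B] [Ring S] [AddCommGroup H] (N : ℕ) (ρ : B →+* B)
    (i : B →+* S) (τ : Sˣ) (d : S →+ S) (φ : S →+ S →+ H) : Prop where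
  pos : 0 < N
  rotN : ∀ b, ρ^[N] b = b
  tf : ∀ b : B, N • b = 0 → b = 0
  ker : ∀ b, nm ρ N b = 0 → ∃ q, b = q - ρ q
  charN : (N : S) = 0
  conj : ∀ b, (τ : S) * i b = i (ρ b) * τ
  tauN : τ ^ N = 1
  inj : ∀ b, i b * eS N τ = 0 → ∃ y, b = N • y
  d_mul : ∀ s t, d (s * t) = d s * t + s * d t
  d_i : ∀ b, d (i b) = 0
  d_tau : d (τ : S) = τ
  H1 : ∀ a b c, φ a (b * c) = φ (a * b) c + φ (c * a) b
  H2 : ∀ x, φ 1 x = 0
  H3 : ∀ (b b' : B) (j j' : ℕ), ((j + j' : ℕ) : ZMod N) ≠ 1 →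
    φ (i b * (τ : S) ^ j) (i b' * (τ : S) ^ j') = 0
  H4 : ∀ r, ρ r = r → φ (i r) τ = 0

/-- The cocycle `c(s, t) = ⟨t⁻¹ s⁻¹ d(s), t⟩`. -/
def cc {S H : Type*} [Ring S] [AddCommGroup H] (d : S →+ S) (φ : S →+ S →+ H) (s t : Sˣ) : H :=
  φ (((t⁻¹ : Sˣ) : S) * (((s⁻¹ : Sˣ) : S) * d s)) t

/-- `s = 1 + κ e`, `κ = q - ρ q`. -/
def InK {B S : Type*} [Ring B] [Ring S] (N : ℕ) (ρ : B →+* B) (i : B →+* S) (τ : Sˣ) (s : Sˣ) :
    Prop :=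
  ∃ q, (s : S) = 1 + i (q - ρ q) * eS N τ

/-- `x = r (1 + b e)`, `r` a unit fixed by `ρ`, `1 + Nm b` a unit. -/
def InQ {B S : Type*} [Ring B] [Ring S] (N : ℕ) (ρ : B →+* B) (i : B →+* S) (τ : Sˣ) (x : Sˣ) :
    Prop :=
  ∃ (r : Bˣ) (b : B), ρ r = r ∧ IsUnit (1 + nm ρ N b) ∧ (x : S) = i r * (1 + i b * eS N τ)

open Classical in
/-- `f(1 + κ e) = g(q (1 + Nm q))`, `κ = q - ρ q`, `g(z) = ⟨z, τ⟩`. -/
def fK {B S H : Type*} [Ring B] [Ring S] [AddCommGroup H] (N : ℕ) (ρ : B →+* B) (i : B →+* S)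
    (τ : Sˣ) (φ : S →+ S →+ H) (s : Sˣ) : H :=
  if h : InK N ρ i τ s then φ (i (h.choose * (1 + nm ρ N h.choose))) τ else 0

/-- The commutator pairing `E(s, t) = c(s,t) - c(t,s) - c([s,t], t s) - f([s,t])`. -/
def EE {S H : Type*} [Ring S] [AddCommGroup H] (d : S →+ S) (φ : S →+ S →+ H) (f : Sˣ → H)
    (s t : Sˣ) : H :=
  cc d φ s t - cc d φ t s - cc d φ (cm s t) (t * s) - f (cm s t)

/-- ABS.  `cocycle`: `c` is a 2-cocycle (`D(xy) = y⁻¹ D(x) y + D(y)`, `D(s) = s⁻¹ d(s)`). -/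
def SpecCOC : Prop :=
  ∀ (B : Type u) (S : Type v) (H : Type w) [Ring B] [Ring S] [AddCommGroup H] (N : ℕ)
    (ρ : B →+* B) (i : B →+* S) (τ : Sˣ) (d : S →+ S) (φ : S →+ S →+ H)
    (_ : IsDat N ρ i τ d φ),
    (∀ x y z : Sˣ, cc d φ x y + cc d φ (x * y) z = cc d φ y z + cc d φ x (y * z)) ∧
    (∀ x : Sˣ, cc d φ 1 x = 0 ∧ cc d φ x 1 = 0)

/-- (f1): `f(1 + κ e)` does not depend on `q`.  If `i(q - ρ q) e = i(q' - ρ q') e` then by `inj`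
`(q - q') - ρ(q - q') = N y`, `N Nm y = 0`, `Nm y = 0`, `y = w - ρ w`, so `r = q - q' - N w` is
fixed and `q = q' + r + N w`, `i(N w) = 0`, `i(Nm(q)) = i(Nm(q') + N r)= i(Nm q')`. -/
def SpecF1 : Prop :=
  ∀ (B : Type u) (S : Type v) (H : Type w) [Ring B] [Ring S] [AddCommGroup H] (N : ℕ)
    (ρ : B →+* B) (i : B →+* S) (τ : Sˣ) (d : S →+ S) (φ : S →+ S →+ H)
    (_ : IsDat N ρ i τ d φ) (s : Sˣ) (q : B) (_ : (s : S) = 1 + i (q - ρ q) * eS N τ),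
    fK N ρ i τ φ s = φ (i (q * (1 + nm ρ N q))) τ

/-- (f2), and the `1 + κ e` form a group. -/
def SpecF2 : Prop :=
  ∀ (B : Type u) (S : Type v) (H : Type w) [Ring B] [Ring S] [AddCommGroup H] (N : ℕ)
    (ρ : B →+* B) (i : B →+* S) (τ : Sˣ) (d : S →+ S) (φ : S →+ S →+ H)
    (_ : IsDat N ρ i τ d φ) (s t : Sˣ) (_ : InK N ρ i τ s) (_ : InK N ρ i τ t),
    InK N ρ i τ (s * t) ∧
      fK N ρ i τ φ (s * t) = fK N ρ i τ φ s + fK N ρ i τ φ t + cc d φ s t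

/-- (f3), and the `x = r (1 + b e)` normalise the group of the `1 + κ e`. -/
def SpecF3 : Prop :=
  ∀ (B : Type u) (S : Type v) (H : Type w) [Ring B] [Ring S] [AddCommGroup H] (N : ℕ)
    (ρ : B →+* B) (i : B →+* S) (τ : Sˣ) (d : S →+ S) (φ : S →+ S →+ H)
    (_ : IsDat N ρ i τ d φ) (x s : Sˣ) (_ : InQ N ρ i τ x) (_ : InK N ρ i τ s),
    InK N ρ i τ (x * s * x⁻¹) ∧
      fK N ρ i τ φ (x * s * x⁻¹) =
        fK N ρ i τ φ s + cc d φ x s - cc d φ (x * s * x⁻¹) x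

/-- The four statements (owner helper62). -/
structure SpecABS : Prop where
  coc : SpecCOC.{u, v, w}
  f1 : SpecF1.{u, v, w}
  f2 : SpecF2.{u, v, w}
  f3 : SpecF3.{u, v, w}

end Pool.Agent.Lib.MPb6f35e.K2
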