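import Pool.Agent.Lib.MP_b6f35e_al.K2.SpecA

/-!
# K_2 theorem (MP_b6f35e_al), specification B: Steinberg groups, central extensions

Captain helper19.  Every statement has its complete proof in the docstring.
-/

set_option autoImplicit false

noncomputable section

namespace Pool.Agent.Lib.MPb6f35e.K2

open Pool.Agent.Lib.MPb6f35e.WH

universe u v w x

/-! ### matrices -/

section

variable {n : ℕ} {A : Type u} [Ring A]

lemma single_sq {i j : Fin n} (h : i ≠ j) (a b : A) :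
    Matrix.single i j a * Matrix.single i j b = (0 : Matrix (Fin n) (Fin n) A) :=
  Matrix.single_mul_single_of_ne (c := a) (h := h.symm) (d := b) ..

/-- The elementary matrix `1 + a e_ij`. -/
def eM {i j : Fin n} (h : i ≠ j) (a : A) : (Matrix (Fin n) (Fin n) A)ˣ :=
  ⟨1 + Matrix.single i j a, 1 + Matrix.single i j (-a),
    by
      rw [mul_add, add_mul, add_mul, mul_one, mul_one, one_mul, single_sq h, add_zero, add_assoc,
        ← Matrix.single_add, add_neg_cancel, Matrix.single_zero, add_zero],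
    by
      rw [mul_add, add_mul, add_mul, mul_one, mul_one, one_mul, single_sq h, add_zero, add_assoc,
        ← Matrix.single_add, neg_add_cancel, Matrix.single_zero, add_zero]⟩

/-- The entries of the diagonal matrix `u` at `i`, `u⁻¹` at `j`, `1` elsewhere. -/
def dF (i j : Fin n) (u : Aˣ) (k : Fin n) : Aˣ := if k = i then u else if k = j then u⁻¹ else 1

/-- A diagonal matrix of units. -/
def diagU {ι : Type} [Fintype ι] [DecidableEq ι] (d : ι → Aˣ) : (Matrix ι ι A)ˣ :=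
  ⟨Matrix.diagonal fun k => (d k : A), Matrix.diagonal fun k => (((d k)⁻¹ : Aˣ) : A),
    by rw [Matrix.diagonal_mul_diagonal]; simp, by rw [Matrix.diagonal_mul_diagonal]; simp⟩

end

/-- The indices `0, 1, 2` in `Fin (n + 5)`. -/
def o0 (n : ℕ) : Fin (n + 5) := ⟨0, by omega⟩
/-- The index `1`. -/
def o1 (n : ℕ) : Fin (n + 5) := ⟨1, by omega⟩
/-- The index `2`. -/
def o2 (n : ℕ) : Fin (n + 5) := ⟨2, by omega⟩

lemma o01 (n : ℕ) : o0 n ≠ o1 n := by simp [o0, o1]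
lemma o02 (n : ℕ) : o0 n ≠ o2 n := by simp [o0, o2]
lemma o12 (n : ℕ) : o1 n ≠ o2 n := by simp [o1, o2]

/-! ### Steinberg groups -/

/-- STF (70 lines).  Functoriality of the Steinberg group in the ring (injective maps of the index
set are not needed): `x_ij(a) ↦ x_ij(f a)` respects the relations (`PresentedGroup.toGroup`), and
symbols are mapped to symbols. -/
def SpecSTF : Prop :=
  ∀ (A : Type u) [Ring A] (B : Type v) [Ring B] (f : A →+* B) (I : Type),
    ∃ F : St I A →* St I B,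
      (∀ (i j : I) (h : i ≠ j) (a : A), F (xx h a) = xx h (f a)) ∧
      (∀ (i j k : I) (h : i ≠ j) (h' : i ≠ k) (z y : Aˣ),
        F (sym h h' z y) = sym h h' (Units.map f.toMonoidHom z) (Units.map f.toMonoidHom y))

/-- HGL (120 lines).  If `θ : St (Fin n) A → GL_n(A)` is a homomorphism with
`θ(x_ij(a)) = 1 + a e_ij` then `θ(h_ij(u))` is the diagonal matrix with entries `u` at `i`, `u⁻¹` at
`j`, `1` elsewhere: `w_ij(u) = 1 - e_ii - e_jj + u e_ij - u⁻¹ e_ji`, and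
`w_ij(u) w_ij(-1)` has entries `u` at `i`, `u⁻¹` at `j`. -/
def SpecHGL : Prop :=
  ∀ (A : Type u) [Ring A] (n : ℕ) (θ : St (Fin n) A →* (Matrix (Fin n) (Fin n) A)ˣ)
    (_ : ∀ (i j : Fin n) (h : i ≠ j) (a : A), θ (xx h a) = eM h a)
    (i j : Fin n) (h : i ≠ j) (y : Aˣ), θ (hh h y) = diagU (dF i j y)

/-- UCE (250 lines).  `n ≥ 5`.  Let `π : Y → GL_n(A)` be surjective with central kernel.  Then there
is a homomorphism `ψ : St_n(A) → Y` with `π ψ(x_ij(a)) = 1 + a e_ij`.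

PROOF (Milnor, Introduction to algebraic K-theory, 5.10).  Write `e_ij(a) = 1 + a e_ij`; for
`y, y'` in `Y` the commutator `[y, y']` depends only on `π y`, `π y'` (central kernel).
(0) `[e_ij(a), e_jk(b)] = e_ik(ab)` for `i, j, k` distinct, `[e_ij(a), e_kl(b)] = 1` for `j ≠ k`,
`i ≠ l`, `e_ij(a) e_ij(b) = e_ij(a+b)`.
(i) If `j ≠ k`, `i ≠ l`, then any lifts `y` of `e_ij(a)` and `z` of `e_kl(b)` commute: choose `h`
different from `i, j, k, l` (`n ≥ 5`), lifts `y₁` of `e_ih(1)` and `y₂` of `e_hj(a)`.  `z` commutes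
with `y₁` and `y₂` up to central elements (`π z` commutes with `e_ih(1)`: `h ≠ k`, `i ≠ l`, and with
`e_hj(a)`: `j ≠ k`, `h ≠ l`), so conjugation by `z` fixes `[y₁, y₂]`; and `y = [y₁, y₂] c`, `c`
central.
(ii) For distinct `h, i, j, k` and lifts `u` of `e_hi(1)`, `v` of `e_ij(a)`, `w` of `e_jk(b)`:
`[[u, v], w] = [u, [v, w]]`.  Let `x = [u, v]` (a lift of `e_hj(a)`), `y = [v, w]` (a lift of
`e_ik(ab)`); `[u, w] = 1` by (i).  `u y u⁻¹ = [u v u⁻¹, u w u⁻¹] = [x v, w] = x y x⁻¹ [x, w]`, `x`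
and `y` commute by (i), so `u y u⁻¹ = y [x, w]`, and `y` commutes with `[x, w]` (a lift of
`e_hk(ab)`) by (i), so `[u, y] = [x, w]`.
Hence with `c^j_hk(a, b) := [lift of e_hj(a), lift of e_jk(b)]`:  `c^i_hk(1, ab) = c^j_hk(a, b)` for
all distinct `h, i, j, k`; `a = 1`: `s_hk(b) := c^i_hk(1, b)` does not depend on `i`, and
`[lift e_hj(a), lift e_jk(b)] = s_hk(ab)` (third relation).
(iii) `s_ij(a) s_ij(b) = s_ij(a+b)`: `u` a lift of `e_ik(1)`, `v, w` lifts of `e_kj(a)`, `e_kj(b)`: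
`[u, v w] = [u, v] · v [u, w] v⁻¹` and `v` commutes with `[u, w]` (a lift of `e_ij(b)`) by (i).
(iv) the second relation is (i).
`ψ(x_ij(a)) := s_ij(a)`. -/
def SpecUCE : Prop :=
  ∀ (A : Type u) [Ring A] (n : ℕ) (_ : 5 ≤ n) (Y : Type v) [Group Y]
    (π : Y →* (Matrix (Fin n) (Fin n) A)ˣ) (_ : Function.Surjective π)
    (_ : ∀ y, π y = 1 → ∀ z, y * z = z * y),
    ∃ ψ : St (Fin n) A →* Y, ∀ (i j : Fin n) (h : i ≠ j) (a : A), π (ψ (xx h a)) = eM h a

/-- DES (200 lines).  Descent to a finitely generated ring of coefficients and to finite matrices.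
If `(∏ {z_i, u_i})^m = 1` in `St(R[G])`, `z_i`, `u_i` units of `R[G]`, then this holds over `R₀[G]`
for a finitely generated subring `R₀` of `R`, in `St_(n+5)`, for some `n`.

PROOF.  For a finite set `S` in `R` let `R₀ = ℤ[S]`, `ι : R₀[G] → R[G]` (injective).  For `n` and
`S` let `L_(n,S)` be the homomorphism from the free group on the `x_ij(a)`, `i, j` in `ℕ`, `a` in
`R[G]`, to `St_(n+5)(R₀[G])` with `x_ij(a) ↦ x_ij(a')` if `i, j < n + 5` and `a = ι(a')`, and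
`x_ij(a) ↦ 1` otherwise.  Let `P` be the set of all `x` in the free group with: there are `n₀`, `S₀`
such that `L_(n,S)(x) = 1` for all `n ≥ n₀`, `S ⊇ S₀`.  `P` is a normal subgroup (maximum of the
`n₀`, union of the `S₀`), and it contains the relations: `n₀` = larger than all indices, `S₀` = all
coefficients of the ring elements `a`, `b` (then `a + b` and `ab` are in the image of `ι`, and
`(a+b)' = a' + b'` etc. by injectivity).  So `P` contains the normal closure of the relations, hence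
the element `(∏ sym)^m` written in the free group.  Choose `n ≥ n₀` and `S` containing `S₀` and all
coefficients of `z_i`, `u_i`, `z_i⁻¹`, `u_i⁻¹`; then `z_i = ι(z_i')`, `u_i = ι(u_i')` with units
`z_i'`, `u_i'` and `L_(n,S)` maps the free word of `{z_i, u_i}` to `{z_i', u_i'}`. -/
def SpecDES : Prop :=
  ∀ (R : Type u) [CommRing R] (G : Type v) [Group G]
    (l : List ((MonoidAlgebra R G)ˣ × (MonoidAlgebra R G)ˣ)) (m : ℕ)
    (_ : ((l.map fun a => symb a.1 a.2).prod) ^ m = 1),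
    ∃ (S : Finset R) (n : ℕ) (l' : List ((MonoidAlgebra (Algebra.adjoin ℤ (S : Set R)) G)ˣ ×
        (MonoidAlgebra (Algebra.adjoin ℤ (S : Set R)) G)ˣ)),
      l'.map (fun a =>
        (Units.map (MonoidAlgebra.mapRingHom G
          (Algebra.adjoin ℤ (S : Set R)).val.toRingHom).toMonoidHom a.1,
        Units.map (MonoidAlgebra.mapRingHom G
          (Algebra.adjoin ℤ (S : Set R)).val.toRingHom).toMonoidHom a.2)) = l ∧
      ((l'.map fun a => sym (o01 n) (o02 n) a.1 a.2).prod) ^ m = 1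

/-! ### the central extension -/

/-- `(u, s)` in `Q`: `s = T(u) (1 + b e)` and `T(u) (1 + Nm b) = D(u)`. -/
def InG {B S U : Type*} [Ring B] [Ring S] [Group U] (N : ℕ) (ρ : B →+* B) (i : B →+* S) (τ : Sˣ)
    (T D : U →* Bˣ) (y : U) (s : Sˣ) : Prop :=
  ∃ b : B, (s : S) = i (T y) * (1 + i b * eS N τ) ∧ (T y : B) * (1 + nm ρ N b) = D y

/-- QSB (120 lines).  `Q` is a subgroup of `U × Sˣ`, maps onto `U`, and its elements over `1` are in
`K`.

PROOF.  In `S`: `e i(b) e = i(Nm b) e` (`τ^j i(b) = i(ρ^j b) τ^j`, `τ^j e = e`), `Nm` of anything is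
fixed by `ρ`, fixed elements commute with `τ` and `e` in `S`, `Nm(b r) = Nm(b) r` for fixed `r`.
one: `b = 0`.  mul: `T(y)(1 + b e) T(z)(1 + b' e) = T(yz) (1 + b₁ e)(1 + b' e)`,
`b₁ = T(z)⁻¹ b T(z)`, `(1 + b₁ e)(1 + b' e) = 1 + (b₁ + b' + b₁ Nm b') e`, and
`T(yz)(1 + Nm(b₁ + b' + b₁ Nm b')) = T(y) T(z) (1 + Nm b₁)(1 + Nm b') = T(y)(1 + Nm b) T(z)(1 + Nm b')`.
onto: `1 + Nm b = T(y)⁻¹ D(y) =: X` is a unit, `1 + b e` has the inverse `1 - b X⁻¹ e`.
inv: by onto there is `s'` over `y⁻¹`, of the form needed; better: `s⁻¹ = (1 - b X⁻¹ e) T(y)⁻¹ =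
T(y)⁻¹ (1 - T(y) b X⁻¹ T(y)⁻¹ e)`, `Nm(T b X⁻¹ T⁻¹) = T (X - 1) X⁻¹ T⁻¹ = 1 - T X⁻¹ T⁻¹ =
1 - T(y) D(y⁻¹)`.
ker: `s = 1 + b e`, `Nm b = 0`, so `b = q - ρ q`.
inq: elements of `Q` are of the form `InQ` (`r = T(y)`). -/
structure SpecQSB : Prop where
  one : ∀ (B : Type u) (S : Type v) (H : Type w) (U : Type x) [Ring B] [Ring S] [AddCommGroup H]
    [Group U] (N : ℕ) (ρ : B →+* B) (i : B →+* S) (τ : Sˣ) (d : S →+ S) (φ : S →+ S →+ H)
    (_ : IsDat N ρ i τ d φ) (T D : U →* Bˣ), InG N ρ i τ T D (1 : U) 1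
  mul : ∀ (B : Type u) (S : Type v) (H : Type w) (U : Type x) [Ring B] [Ring S] [AddCommGroup H]
    [Group U] (N : ℕ) (ρ : B →+* B) (i : B →+* S) (τ : Sˣ) (d : S →+ S) (φ : S →+ S →+ H)
    (_ : IsDat N ρ i τ d φ) (T D : U →* Bˣ) (_ : ∀ y, ρ (T y) = T y) (y y' : U) (s s' : Sˣ)
    (_ : InG N ρ i τ T D y s) (_ : InG N ρ i τ T D y' s'), InG N ρ i τ T D (y * y') (s * s')
  inv : ∀ (B : Type u) (S : Type v) (H : Type w) (U : Type x) [Ring B] [Ring S] [AddCommGroup H]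
    [Group U] (N : ℕ) (ρ : B →+* B) (i : B →+* S) (τ : Sˣ) (d : S →+ S) (φ : S →+ S →+ H)
    (_ : IsDat N ρ i τ d φ) (T D : U →* Bˣ) (_ : ∀ y, ρ (T y) = T y) (_ : ∀ y, ρ (D y) = D y)
    (y : U) (s : Sˣ) (_ : InG N ρ i τ T D y s), InG N ρ i τ T D y⁻¹ s⁻¹
  onto : ∀ (B : Type u) (S : Type v) (H : Type w) (U : Type x) [Ring B] [Ring S] [AddCommGroup H]
    [Group U] (N : ℕ) (ρ : B →+* B) (i : B →+* S) (τ : Sˣ) (d : S →+ S) (φ : S →+ S →+ H)
    (_ : IsDat N ρ i τ d φ) (T D : U →* Bˣ) (_ : ∀ y, ρ (T y) = T y) (_ : ∀ y, ρ (D y) = D y)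
    (y : U) (b : B) (_ : (T y : B) * (1 + nm ρ N b) = D y),
    ∃ s : Sˣ, (s : S) = i (T y) * (1 + i b * eS N τ) ∧
      ((s⁻¹ : Sˣ) : S) = (1 - i (b * ((D y)⁻¹ : Bˣ) * T y) * eS N τ) * i ((T y)⁻¹ : Bˣ)
  ker : ∀ (B : Type u) (S : Type v) (H : Type w) (U : Type x) [Ring B] [Ring S] [AddCommGroup H]
    [Group U] (N : ℕ) (ρ : B →+* B) (i : B →+* S) (τ : Sˣ) (d : S →+ S) (φ : S →+ S →+ H)
    (_ : IsDat N ρ i τ d φ) (T D : U →* Bˣ) (s : Sˣ) (_ : InG N ρ i τ T D (1 : U) s),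
    InK N ρ i τ s
  inq : ∀ (B : Type u) (S : Type v) (H : Type w) (U : Type x) [Ring B] [Ring S] [AddCommGroup H]
    [Group U] (N : ℕ) (ρ : B →+* B) (i : B →+* S) (τ : Sˣ) (d : S →+ S) (φ : S →+ S →+ H)
    (_ : IsDat N ρ i τ d φ) (T D : U →* Bˣ) (_ : ∀ y, ρ (T y) = T y) (y : U) (s : Sˣ)
    (_ : InG N ρ i τ T D y s), InQ N ρ i τ s

/-- EXT (250 lines, from ABS and QSB).  There is a central extension `π : Y → U` with an injective
homomorphism `ε` of its kernel to `H` (here: a function on `Y` which is additive on the kernel and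
zero only at `1`), such that the commutator of lifts of commuting elements is `EE`.

PROOF.  `X` := the group of the triples `(y, s, a)`, `(y, s)` in `Q`, `a` in `H`, with
`(y, s, a)(y', s', a') = (y y', s s', a + a' + c(s, s'))` (group by the cocycle identity and
`c(1, ·) = c(·, 1) = 0`; the inverse of `(y, s, a)` is `(y⁻¹, s⁻¹, -a - c(s, s⁻¹))`,
`c(s, s⁻¹) = c(s⁻¹, s)` by the cocycle identity for `s, s⁻¹, s`).  On the kernel of `X → U`, the
elements `(1, s, a)`, `s` in `K` (QSB.ker), let `λ(1, s, a) = a - f(s)`.  `λ` is a homomorphism by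
(f2).  It is invariant under conjugation by `(y, s, a)`: for `(y,s,a)(1,k,a')(y,s,a)⁻¹ = (1, k', a'')`,
`k' = s k s⁻¹`, comparing the last components of `(1,k',a'')(y,s,a) = (y,s,a)(1,k,a')` gives
`a'' = a' + c(s, k) - c(k', s)`, and `f(k') = f(k) + c(s,k) - c(k',s)` by (f3) (QSB.inq).
So `ker λ` is a normal subgroup of `X`, `Y := X / ker λ`, `π : Y → U` is onto (QSB.onto), its kernel
is central (for `k` in the kernel of `X → U`, `x k x⁻¹ k⁻¹` is in `ker λ`), and `ε` := `λ` on the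
kernel (0 elsewhere).  For `(y, s)`, `(y', s')` in `Q` with `y y' = y' y` the commutator of
`(y,s,0)` and `(y',s',0)` is `(1, cm s s', a)` with (compare the last components of
`x x' = [x,x'] (x' x)`) `a = c(s,s') - c(s',s) - c(cm s s', s' s)`, so `λ` of it is `EE`; and in `Y`
the commutator does not depend on the lifts. -/
def SpecEXT : Prop :=
  ∀ (B : Type u) (S : Type v) (H : Type w) (U : Type x) [Ring B] [Ring S] [AddCommGroup H]
    [Group U] (N : ℕ) (ρ : B →+* B) (i : B →+* S) (τ : Sˣ) (d : S →+ S) (φ : S →+ S →+ H)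
    (_ : IsDat N ρ i τ d φ) (T D : U →* Bˣ) (_ : ∀ y, ρ (T y) = T y) (_ : ∀ y, ρ (D y) = D y)
    (_ : ∀ y, ∃ b, (T y : B) * (1 + nm ρ N b) = D y),
    ∃ (Y : Type (max v w x)) (_ : Group Y) (π : Y →* U) (ε : Y → H),
      Function.Surjective π ∧ (∀ k, π k = 1 → ∀ z, k * z = z * k) ∧
      (∀ k k', π k = 1 → π k' = 1 → ε (k * k') = ε k + ε k') ∧
      ∀ (y y' : U) (s s' : Sˣ), y * y' = y' * y → InG N ρ i τ T D y s → InG N ρ i τ T D y' s' →
        ∀ k k', π k = y → π k' = y' → ε (cm k k') = EE d φ (fK N ρ i τ φ) s s'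

/-- INV (20 lines, from EXT): `EE` does not depend on the lifts. -/
def SpecINV : Prop :=
  ∀ (B : Type u) (S : Type v) (H : Type w) (U : Type x) [Ring B] [Ring S] [AddCommGroup H]
    [Group U] (N : ℕ) (ρ : B →+* B) (i : B →+* S) (τ : Sˣ) (d : S →+ S) (φ : S →+ S →+ H)
    (_ : IsDat N ρ i τ d φ) (T D : U →* Bˣ) (_ : ∀ y, ρ (T y) = T y) (_ : ∀ y, ρ (D y) = D y)
    (_ : ∀ y, ∃ b, (T y : B) * (1 + nm ρ N b) = D y)
    (y y' : U) (s s' t t' : Sˣ) (_ : y * y' = y' * y) (_ : InG N ρ i τ T D y s)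
    (_ : InG N ρ i τ T D y t) (_ : InG N ρ i τ T D y' s') (_ : InG N ρ i τ T D y' t'),
    EE d φ (fK N ρ i τ φ) s s' = EE d φ (fK N ρ i τ φ) t t'

/-- OME (100 lines, from EXT, UCE, HGL).  The case `U = GL_n(A)`, `n = n' + 5`: if
`(∏ {z_j, y_j})^m = 1` in `St_n(A)`, `z_j`, `y_j` commuting units of `A`, and `s_j`, `t_j` lie over
the diagonal matrices `D_01(z_j)`, `D_02(y_j)`, then `m Σ EE(s_j, t_j) = 0`.

PROOF.  EXT gives `π : Y → GL_n(A)`, UCE gives `ψ : St_n(A) → Y`; `π ψ(h_ij(u)) = diagU (dF i j u)`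
by HGL for `θ = π ψ`.  `D_01(z)` and `D_02(y)` commute for commuting `z`, `y`.  So
`ψ{z_j, y_j} = cm (ψ h_01(z_j)) (ψ h_02(y_j))` is in the kernel of `π` and `ε` of it is
`EE(s_j, t_j)`; `ε` is additive on the kernel, `ε(1) = 0`. -/
def SpecOME : Prop :=
  ∀ (B : Type u) (S : Type v) (H : Type w) (A : Type x) [Ring B] [Ring S] [AddCommGroup H]
    [Ring A] (N : ℕ) (ρ : B →+* B) (i : B →+* S) (τ : Sˣ) (d : S →+ S) (φ : S →+ S →+ H)
    (_ : IsDat N ρ i τ d φ) (n : ℕ) (T D : (Matrix (Fin (n + 5)) (Fin (n + 5)) A)ˣ →* Bˣ)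
    (_ : ∀ y, ρ (T y) = T y) (_ : ∀ y, ρ (D y) = D y)
    (_ : ∀ y, ∃ b, (T y : B) * (1 + nm ρ N b) = D y) (r m : ℕ) (z y : Fin r → Aˣ)
    (s t : Fin r → Sˣ) (_ : ∀ j, z j * y j = y j * z j)
    (_ : ∀ j, InG N ρ i τ T D (diagU (dF (o0 n) (o1 n) (z j))) (s j))
    (_ : ∀ j, InG N ρ i τ T D (diagU (dF (o0 n) (o2 n) (y j))) (t j))
    (_ : ((List.ofFn fun j => sym (o01 n) (o02 n) (z j) (y j)).prod) ^ m = 1),
    m • ∑ j, EE d φ (fK N ρ i τ φ) (s j) (t j) = 0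

end Pool.Agent.Lib.MPb6f35e.K2
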