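import Pool.Agent.Lib.MP_b6f35e_al.K2.SpecB
import Pool.Agent.Lib.MP_b6f35e_al.WH.GVal
import Pool.Agent.Lib.MP_b6f35e_al.WH.T
import Pool.Agent.Lib.MP_b6f35e_al.WH.N

/-!
# K_2 theorem (MP_b6f35e_al), specification C: the concrete datum

`W = G^N ⋊ C_N`, `S = Mat_(ι^N)((ℤ/N)[W])`, `B = Mat_(ι^N)(k[G^N]) = TR k G ι N`, `τ` = shift of the
words times the rotation, pairing `φ` from a homomorphism `X : Z_G(c) → k`.
Captain helper19.  Every statement has its complete proof in the docstring.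
-/

set_option autoImplicit false

noncomputable section

namespace Pool.Agent.Lib.MPb6f35e.K2

open Pool.Agent.Lib.MPb6f35e.WH

universe u v w x

/-! ### a 1-cocycle on a conjugacy class from a homomorphism of a centralizer -/

/-- `X` (a function on the whole group) is a homomorphism on the centralizer of `c`. -/
def HomOn {W : Type*} {M : Type*} [Group W] [AddCommGroup M] (c : W) (X : W → M) : Prop :=
  ∀ a b, a * c = c * a → b * c = c * b → X (a * b) = X a + X b

open Classical in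
/-- A section: `sec c g * c * (sec c g)⁻¹ = g` for `g` conjugate to `c`. -/
def sec {W : Type*} [Group W] (c g : W) : W :=
  if h : ∃ t, t * c * t⁻¹ = g then h.choose else 1

open Classical in
/-- The cocycle `Θ(a; g) = X(s_{a g a⁻¹}⁻¹ a s_g)` for `g` conjugate to `c`, `0` otherwise. -/
def Th {W : Type*} {M : Type*} [Group W] [AddCommGroup M] (c : W) (X : W → M) (a g : W) : M :=
  if ∃ t, t * c * t⁻¹ = g then X ((sec c (a * g * a⁻¹))⁻¹ * a * sec c g) else 0

/-- THE (100 lines).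
`coc`: both sides are `0` unless `g` is conjugate to `c`; then `s_{abg..}⁻¹ (ab) s_g =
(s_{ab g (ab)⁻¹}⁻¹ a s_{b g b⁻¹}) (s_{b g b⁻¹}⁻¹ b s_g)`, both factors commute with `c`.
`self`: `Θ(g; g) = X(s_g⁻¹ g s_g) = X(c)`.
`val`: `a g = g a`, `t c t⁻¹ = g`: `s_g = t y` with `y` in the centralizer of `c`, and
`X(y⁻¹ (t⁻¹ a t) y) = X(t⁻¹ a t)` (`X(1) = 0`, `X(y⁻¹) = -X(y)`).
`zero`: by definition. -/
structure SpecTHE : Prop where
  coc : ∀ (W : Type u) (M : Type v) [Group W] [AddCommGroup M] (c : W) (X : W → M)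
    (_ : HomOn c X) (a b g : W), Th c X (a * b) g = Th c X a (b * g * b⁻¹) + Th c X b g
  self : ∀ (W : Type u) (M : Type v) [Group W] [AddCommGroup M] (c : W) (X : W → M)
    (_ : HomOn c X) (_ : X c = 0) (g : W), Th c X g g = 0
  val : ∀ (W : Type u) (M : Type v) [Group W] [AddCommGroup M] (c : W) (X : W → M)
    (_ : HomOn c X) (a g t : W) (_ : a * g = g * a) (_ : t * c * t⁻¹ = g),
    Th c X a g = X (t⁻¹ * a * t)
  zero : ∀ (W : Type u) (M : Type v) [Group W] [AddCommGroup M] (c : W) (X : W → M) (a g : W)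
    (_ : ¬ ∃ t, t * c * t⁻¹ = g), Th c X a g = 0

/-! ### the wreath product -/

/-- The rotation by `k`: `(k γ)(j) = γ(j - k)`. -/
def actW (N : ℕ) (G : Type v) [Group G] :
    Multiplicative (ZMod N) →* MulAut (ZMod N → G) where
  toFun k :=
    { toFun := fun γ j => γ (j - k.toAdd)
      invFun := fun γ j => γ (j + k.toAdd)
      left_inv := fun γ => by funext j; simp
      right_inv := fun γ => by funext j; simp
      map_mul' := fun _ _ => rfl }
  map_one' := by ext γ j; simp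
  map_mul' k l := by
    ext γ j
    show γ (j - (k * l).toAdd) = γ (j - k.toAdd - l.toAdd)
    rw [toAdd_mul, sub_sub]

/-- The wreath product `G^N ⋊ C_N`. -/
abbrev WR (N : ℕ) (G : Type v) [Group G] : Type v :=
  (ZMod N → G) ⋊[actW N G] Multiplicative (ZMod N)

/-- The degree. -/
def dg {N : ℕ} {G : Type v} [Group G] (w : WR N G) : ZMod N := w.right.toAdd

/-- `G^N → W` -/
def inW (N : ℕ) (G : Type v) [Group G] : (ZMod N → G) →* WR N G := SemidirectProduct.inl

/-- The rotation `t`, `t γ t⁻¹ = rotG γ`. -/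
def tW (N : ℕ) (G : Type v) [Group G] : WR N G :=
  SemidirectProduct.inr (Multiplicative.ofAdd (1 : ZMod N))

/-- The element `w₀ = (c, 1, .., 1) t`. -/
def w0 (N : ℕ) {G : Type v} [Group G] (c : G) : WR N G :=
  ⟨Pi.mulSingle (0 : ZMod N) c, Multiplicative.ofAdd 1⟩

/-- `X_W(v) = X(v.left 0)` -/
def XW {N : ℕ} {G : Type v} {M : Type*} [Group G] (X : G → M) (v : WR N G) : M := X (v.left 0)

/-- XWM (80 lines).  `w₀ v = v w₀` means: `v.left` at `j`, called `v_j`, and `k` = degree of `v`: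
`c^[j=0] v_(j-1) = v_j c^[j=k]`.  `w₀^N = (c, .., c)` commutes with `v`, so all `v_j` commute with
`c`, and `X(v_(j-1)) = X(v_j)` (`X(c) = 0`), so all `X(v_j)` are equal to `X(v_0)`.
`(v v')_0 = v_0 v'_(-k)`.  `X_W(w₀) = X(c) = 0`. -/
def SpecXWM : Prop :=
  ∀ (N : ℕ) [NeZero N] (G : Type v) (M : Type w) [Group G] [AddCommGroup M] (c : G) (X : G → M)
    (_ : HomOn c X) (_ : X c = 0),
    HomOn (w0 N c) (XW X) ∧ XW X (w0 N c) = 0 ∧
      ∀ v : WR N G, v * w0 N c = w0 N c * v → ∀ j, v.left j * c = c * v.left j ∧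
        X (v.left j) = X (v.left 0)

/-! ### the ring `S` -/

/-- `S = Mat_(ι^N)((ℤ/N)[W])` -/
abbrev SR (N : ℕ) (G : Type v) [Group G] (ι : Type) : Type v :=
  Matrix (ZMod N → ι) (ZMod N → ι) (MonoidAlgebra (ZMod N) (WR N G))

/-- `k[G^N] → (ℤ/N)[W]` -/
def jW (k : Type u) [CommRing k] (N : ℕ) (r : k →+* ZMod N) (G : Type v) [Group G] :
    MonoidAlgebra k (ZMod N → G) →+* MonoidAlgebra (ZMod N) (WR N G) :=
  (MonoidAlgebra.mapDomainRingHom (ZMod N) (inW N G)).comp (MonoidAlgebra.mapRingHom _ r)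

/-- `i : B → S` -/
def iB (k : Type u) [CommRing k] (N : ℕ) [NeZero N] (r : k →+* ZMod N) (G : Type v) [Group G]
    (ι : Type) [Fintype ι] [DecidableEq ι] : TR k G ι N →+* SR N G ι :=
  (jW k N r G).mapMatrix

lemma sh_inj {N : ℕ} {ι : Type} {I J : ZMod N → ι} (h : sh I = sh J) : I = J := by
  funext j
  have := congrFun h (j - 1)
  simpa [sh] using this

/-- The unit `τ` of `S`: the shift of the words times the rotation `t`. -/
def tauS (N : ℕ) [NeZero N] (G : Type v) [Group G] (ι : Type) [Fintype ι] [DecidableEq ι] :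
    (SR N G ι)ˣ :=
  ⟨Matrix.of fun I J => if J = sh I then MonoidAlgebra.single (tW N G) 1 else 0,
    Matrix.of fun I J => if I = sh J then MonoidAlgebra.single (tW N G)⁻¹ 1 else 0,
    by
      ext1 I K
      rw [Matrix.mul_apply, Finset.sum_eq_single (sh I)]
      · rw [Matrix.of_apply, Matrix.of_apply, if_pos rfl, Matrix.one_apply]
        by_cases h : I = K
        · rw [if_pos h, if_pos (by rw [h]), MonoidAlgebra.single_mul_single, mul_inv_cancel,
            one_mul, MonoidAlgebra.one_def]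
        · rw [if_neg h, if_neg fun h' => h (sh_inj h'), mul_zero]
      · intro J _ hJ
        rw [Matrix.of_apply, if_neg hJ, zero_mul]
      · intro h
        exact absurd (Finset.mem_univ _) h,
    by
      ext1 I K
      rw [Matrix.mul_apply, Finset.sum_eq_single fun j => I (j - 1)]
      · have h1 : sh (fun j => I (j - 1)) = I := by funext j; simp [sh]
        rw [Matrix.of_apply, Matrix.of_apply, if_pos h1.symm, h1, Matrix.one_apply]
        by_cases h : I = K
        · rw [if_pos h, if_pos h.symm, MonoidAlgebra.single_mul_single, inv_mul_cancel,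
            one_mul, MonoidAlgebra.one_def]
        · rw [if_neg h, if_neg fun h' => h h'.symm, mul_zero]
      · intro J _ hJ
        rw [Matrix.of_apply, if_neg, zero_mul]
        intro h
        apply hJ
        rw [h]
        funext j
        simp [sh]
      · intro h
        exact absurd (Finset.mem_univ _) h⟩

/-- The derivation of `(ℤ/N)[W]`: `d(w) = deg(w) w`. -/
def dW (N : ℕ) (G : Type v) [Group G] :
    MonoidAlgebra (ZMod N) (WR N G) →+ MonoidAlgebra (ZMod N) (WR N G) where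
  toFun a := MonoidAlgebra.ofCoeff (Finsupp.onFinset a.coeff.support
    (fun w => dg w * a.coeff w) (fun w h => by
      rw [Finsupp.mem_support_iff]
      intro h'
      rw [h', mul_zero] at h
      exact h rfl))
  map_zero' := by ext w; show dg w * (0 : MonoidAlgebra (ZMod N) (WR N G)).coeff w = 0; simp
  map_add' a b := by
    ext w
    show dg w * (a + b).coeff w = dg w * a.coeff w + dg w * b.coeff w
    rw [MonoidAlgebra.coeff_add, Finsupp.add_apply, mul_add]

/-- The derivation of `S`, entry by entry. -/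
def dS (N : ℕ) (G : Type v) [Group G] (ι : Type) : SR N G ι →+ SR N G ι :=
  (dW N G).mapMatrix

/-- The pairing `φ(a, b) = Σ a_v b_v' Θ(v'; v v')` on `(ℤ/N)[W]`. -/
def phiW {N : ℕ} {W : Type v} [Group W] (Θ : W → W → ZMod N) :
    MonoidAlgebra (ZMod N) W →+ MonoidAlgebra (ZMod N) W →+ ZMod N :=
  (Finsupp.liftAddHom fun v : W =>
    AddMonoidHom.mk' (fun a : ZMod N =>
      (Finsupp.liftAddHom fun v' : W => AddMonoidHom.mulLeft (a * Θ v' (v * v'))).comp
        MonoidAlgebra.coeffAddEquiv.toAddMonoidHom)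
      (by
        intro a b
        ext v' c
        simp [add_mul])).comp
    MonoidAlgebra.coeffAddEquiv.toAddMonoidHom

lemma phiW_single {N : ℕ} {W : Type v} [Group W] (Θ : W → W → ZMod N) (v v' : W)
    (a b : ZMod N) : phiW Θ (MonoidAlgebra.single v a) (MonoidAlgebra.single v' b) =
      a * Θ v' (v * v') * b := by
  simp [phiW]

/-- The pairing on matrices, `φ(a, b) = Σ_(I,J) φ(a_IJ, b_JI)`. -/
def phiS {N : ℕ} [NeZero N] {G : Type v} [Group G] (ι : Type) [Fintype ι] [DecidableEq ι]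
    (Θ : WR N G → WR N G → ZMod N) : SR N G ι →+ SR N G ι →+ ZMod N :=
  ∑ I : ZMod N → ι, ∑ J : ZMod N → ι,
    ((phiW Θ).comp (Matrix.entryAddMonoidHom _ I J)).compl₂ (Matrix.entryAddMonoidHom _ J I)

lemma phiS_apply {N : ℕ} [NeZero N] {G : Type v} [Group G] (ι : Type) [Fintype ι] [DecidableEq ι]
    (Θ : WR N G → WR N G → ZMod N) (a b : SR N G ι) :
    phiS ι Θ a b = ∑ I : ZMod N → ι, ∑ J : ZMod N → ι, phiW Θ (a I J) (b J I) := by
  simp only [phiS, AddMonoidHom.finsetSum_apply]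
  rfl

/-- The function `Θ` modulo `N`. -/
def ThN {k : Type u} [CommRing k] {N : ℕ} (r : k →+* ZMod N) {G : Type v} [Group G] (c : G)
    (X : G → k) (a g : WR N G) : ZMod N := r (Th (w0 N c) (XW X) a g)

/-- The coefficients: `k` has no `p`-torsion and `r : k → ℤ/p^(e+1)` has kernel `p^(e+1) k`. -/
structure IsRed (k : Type u) [CommRing k] (p e : ℕ) (r : k →+* ZMod (p ^ (e + 1))) : Prop where
  tf : ∀ c : k, (p : k) * c = 0 → c = 0
  frob : ∀ c : k, (p : k) ∣ c ^ p - c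
  ker : ∀ x, r x = 0 → ∃ y, x = ((p ^ (e + 1) : ℕ) : k) * y

/-- DGR (250 lines): the grading.
`conj`: `(τ i(b) τ⁻¹)_IJ = t i(b)_(sh I, sh J) t⁻¹`, `t inW(γ) t⁻¹ = inW(rotG γ)`; compare `rot_apply`
(`WH/GBlock.lean`).
`tauN`: `τ^j` has the entry `t^j` at `(I, sh^j I)`; `t^N = 1`, `sh^N = id` (`sh_N` in `WH/N.lean`).
`inj`: the entry of `i(b) e` at `(I, K)` is `Σ_j Σ_J i(b)_IJ (τ^j)_JK`; all group elements of the
`j`-th term have degree `j`, so the coefficients at the elements of degree 0 are those of `i(b)_IK`.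
So `i(b) = 0`; `inW` is injective, so all coefficients of `b` are in the kernel of `r`, divisible by
`N` (choose the quotients, finite support).
`dmul`: `dg(w w') = dg w + dg w'`: first for `dW` on `single`s (two additive maps), then matrices
(`Matrix.mul_apply`, `map_sum`).  `di`: the elements `inW γ` have degree 0.  `dtau`: `dg t = 1`. -/
structure SpecDGR : Prop where
  conj : ∀ (k : Type u) [CommRing k] (N : ℕ) [NeZero N] (r : k →+* ZMod N) (G : Type v) [Group G]
    (ι : Type) [Fintype ι] [DecidableEq ι] (b : TR k G ι N),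
    (tauS N G ι : SR N G ι) * iB k N r G ι b = iB k N r G ι (rot k G ι N b) * tauS N G ι
  tauN : ∀ (N : ℕ) [NeZero N] (G : Type v) [Group G] (ι : Type) [Fintype ι] [DecidableEq ι],
    (tauS N G ι) ^ N = 1
  inj : ∀ (k : Type u) [CommRing k] (N : ℕ) [NeZero N] (r : k →+* ZMod N)
    (_ : ∀ x, r x = 0 → ∃ y, x = (N : k) * y) (G : Type v) [Group G]
    (ι : Type) [Fintype ι] [DecidableEq ι] (b : TR k G ι N),
    iB k N r G ι b * eS N (tauS N G ι) = 0 → ∃ y, b = N • y
  dmul : ∀ (N : ℕ) [NeZero N] (G : Type v) [Group G] (ι : Type) [Fintype ι] [DecidableEq ι]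
    (s t : SR N G ι), dS N G ι (s * t) = dS N G ι s * t + s * dS N G ι t
  di : ∀ (k : Type u) [CommRing k] (N : ℕ) [NeZero N] (r : k →+* ZMod N) (G : Type v) [Group G]
    (ι : Type) [Fintype ι] [DecidableEq ι] (b : TR k G ι N), dS N G ι (iB k N r G ι b) = 0
  dtau : ∀ (N : ℕ) [NeZero N] (G : Type v) [Group G] (ι : Type) [Fintype ι] [DecidableEq ι],
    dS N G ι (tauS N G ι) = tauS N G ι

/-- HOC (150 lines): (H1), (H2), (H3).
H1 on group elements: `φ(v, v'v'') = Θ(v'v''; vv'v'') = Θ(v'; v''vv') + Θ(v''; vv'v'')`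
(cocycle identity with `v''(vv'v'')v''⁻¹ = v''vv'`) `= φ(v''v, v') + φ(vv', v'')`; then by additivity
on the group ring (`MonoidAlgebra.induction_linear` three times) and on matrices:
`φ(a, bc) = Σ_IJK φ(a_IJ, b_JK c_KI)`, and the two terms are `φ(ab, c)` (sum over `I, K`) and
`φ(ca, b)` (sum over `K, J`).
H2: `φ(1, v) = Θ(v; v) = 0`; `φ(1, x) = Σ_I φ(1, x_II)`.
H3: the entries of `i(b) τ^j` have only group elements of degree `j`; `Θ(v'; g) = 0` if the degree
of `g` is not 1. -/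
structure SpecHOC : Prop where
  h1 : ∀ (N : ℕ) [NeZero N] (G : Type v) [Group G] (ι : Type) [Fintype ι] [DecidableEq ι]
    (Θ : WR N G → WR N G → ZMod N)
    (_ : ∀ a b g, Θ (a * b) g = Θ a (b * g * b⁻¹) + Θ b g) (a b c : SR N G ι),
    phiS ι Θ a (b * c) = phiS ι Θ (a * b) c + phiS ι Θ (c * a) b
  h2 : ∀ (N : ℕ) [NeZero N] (G : Type v) [Group G] (ι : Type) [Fintype ι] [DecidableEq ι]
    (Θ : WR N G → WR N G → ZMod N) (_ : ∀ g, Θ g g = 0) (x : SR N G ι), phiS ι Θ 1 x = 0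
  h3 : ∀ (k : Type u) [CommRing k] (N : ℕ) [NeZero N] (r : k →+* ZMod N) (G : Type v) [Group G]
    (ι : Type) [Fintype ι] [DecidableEq ι] (Θ : WR N G → WR N G → ZMod N)
    (_ : ∀ a g, dg g ≠ 1 → Θ a g = 0) (b b' : TR k G ι N) (j j' : ℕ)
    (_ : ((j + j' : ℕ) : ZMod N) ≠ 1),
    phiS ι Θ (iB k N r G ι b * (tauS N G ι : SR N G ι) ^ j)
      (iB k N r G ι b' * (tauS N G ι : SR N G ι) ^ j') = 0

/-- HFO (150 lines): (H4).  Let `Θ` be `k`-valued here, `r : k → ℤ/N`.
`φ(i b, τ) = r(g'(b))`, `g'(b) := Σ_J Σ_γ b_(sh J, J)(γ) Θ(t; γ t)` (`τ` has only the entries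
`(J, sh J)`; sum over `γ` in the support; `γ t` means `inW γ * tW`).  Let
`Ψ(w) = Σ_(j<N) Θ(t^j; w)`.  By the cocycle identity `Θ(t^j; t w t⁻¹) = Θ(t^(j+1); w) - Θ(t; w)`, and
`t^N = 1`, `Θ(1; w) = 0`, so `N Θ(t; w) = Ψ(w) - Ψ(t w t⁻¹)`.  If `rot b = b` then
`b_(I, J)(γ) = b_(sh I, sh J)(sh γ)` (`rotG (sh γ) = γ`), and `t (inW γ t) t⁻¹ = inW(rotG γ) t`, so
`Σ_J Σ_γ b_(sh J, J)(γ) Ψ(t (γ t) t⁻¹) = Σ_J Σ_γ b_(sh J, J)(γ) Ψ(γ t)` by the substitution
`(J, γ) ↦ (sh J, sh γ)`, i.e. `γ ↦ rotG γ`, `J = sh J'`, and `N g'(b) = 0`, `g'(b) = 0`. -/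
def SpecHFO : Prop :=
  ∀ (k : Type u) [CommRing k] (N : ℕ) [NeZero N] (_ : ∀ x : k, (N : k) * x = 0 → x = 0)
    (r : k →+* ZMod N) (G : Type v) [Group G] (ι : Type) [Fintype ι] [DecidableEq ι]
    (Θ : WR N G → WR N G → k) (_ : ∀ a b g, Θ (a * b) g = Θ a (b * g * b⁻¹) + Θ b g)
    (b : TR k G ι N) (_ : rot k G ι N b = b),
    phiS ι (fun a g => r (Θ a g)) (iB k N r G ι b) (tauS N G ι) = 0

/-- CON (60 lines, from THE, XWM, DGR, HOC, HFO, `specT.rotN`, `specN.ker`): the datum. -/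
def SpecCON : Prop :=
  ∀ (k : Type u) [CommRing k] (p e : ℕ) [Fact p.Prime] [NeZero (p ^ (e + 1))]
    (r : k →+* ZMod (p ^ (e + 1))) (_ : IsRed k p e r) (G : Type v) [Group G] (ι : Type)
    [Fintype ι] [DecidableEq ι] (c : G) (X : G → k) (_ : HomOn c X) (_ : X c = 0),
    IsDat (p ^ (e + 1)) (rot k G ι (p ^ (e + 1))) (iB k (p ^ (e + 1)) r G ι)
      (tauS (p ^ (e + 1)) G ι) (dS (p ^ (e + 1)) G ι) (phiS ι (ThN r c X))

/-! ### tensor powers -/

/-- `T(u)`, the tensor power, as a homomorphism of the unit groups. -/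
def TT (k : Type u) [CommRing k] (G : Type v) [Group G] (ι : Type) [Fintype ι] [DecidableEq ι]
    (N : ℕ) [NeZero N] : (Matrix ι ι (MonoidAlgebra k G))ˣ →* (TR k G ι N)ˣ :=
  Units.map (tensHom specT k G ι N)

/-- `D(u)` as a homomorphism of the unit groups. -/
def DD (k : Type u) [CommRing k] (G : Type v) [Group G] (ι : Type) [Fintype ι] [DecidableEq ι]
    (p e : ℕ) [NeZero (p ^ e)] [NeZero (p ^ (e + 1))] :
    (Matrix ι ι (MonoidAlgebra k G))ˣ →* (TR k G ι (p ^ (e + 1)))ˣ :=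
  Units.map (dhatHom specT k G ι p e)

/-- TDN (30 lines): `ρ T = T`, `ρ D = D`, `T(u)(1 + Nm b) = D(u)` is solvable: `b = - T(u)⁻¹ z`,
`Nm z = T(u) - D(u)` (`specN.norm`), `Nm(T⁻¹ z) = T⁻¹ Nm z`. -/
def SpecTDN : Prop :=
  ∀ (k : Type u) [CommRing k] (p e : ℕ) [Fact p.Prime] [NeZero (p ^ e)] [NeZero (p ^ (e + 1))]
    (_ : ∀ c : k, (p : k) ∣ c ^ p - c) (G : Type v) [Group G] (ι : Type)
    [Fintype ι] [DecidableEq ι] (y : (Matrix ι ι (MonoidAlgebra k G))ˣ),
    rot k G ι (p ^ (e + 1)) (TT k G ι (p ^ (e + 1)) y) = TT k G ι (p ^ (e + 1)) y ∧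
    rot k G ι (p ^ (e + 1)) (DD k G ι p e y) = DD k G ι p e y ∧
    ∃ b : TR k G ι (p ^ (e + 1)), (TT k G ι (p ^ (e + 1)) y : TR k G ι (p ^ (e + 1))) *
      (1 + nm (rot k G ι (p ^ (e + 1))) (p ^ (e + 1)) b) = DD k G ι p e y

end Pool.Agent.Lib.MPb6f35e.K2
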