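import Pool.Agent.Lib.MP_b6f35e_al.K2.SpecC

/-!
# K_2 theorem (MP_b6f35e_al), specification D: blocks and the value on symbols

Captain helper19.  Every statement has its complete proof in the docstring.
-/

set_option autoImplicit false

noncomputable section

namespace Pool.Agent.Lib.MPb6f35e.K2

open Pool.Agent.Lib.MPb6f35e.WH

universe u v w x

/-! ### blocks: reduction to matrices of size one -/

/-- `a` respects the types: group elements of degree `k` in the entry `(I, J)` only if `J` is `I`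
shifted by `k`. -/
def DSt {N : ℕ} {G : Type v} [Group G] {ι : Type} (a : SR N G ι) : Prop :=
  ∀ (I J : ZMod N → ι) (g : WR N G), (a I J).coeff g ≠ 0 → J = fun j => I (j + dg g)

/-- The entry at the constant word `l`, as a `1 × 1` matrix. -/
def sbS {N : ℕ} {G : Type v} [Group G] {ι : Type} (l : ι) (a : SR N G ι) : SR N G Unit :=
  a.submatrix (fun _ _ => l) (fun _ _ => l)

/-- BLS (200 lines).
`mul`: `(a b)_IK` at `g g'`: `J = I(· + dg g)`, `K = J(· + dg g')`.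
`iB`: entries of degree 0, `b` diagonal.  `tau`: entry `(I, sh I)` of degree 1.
`smul`: for `I` constant, `a_IJ ≠ 0` only for `J = I`.
`phi`: in `Σ_IJ φ(a_IJ, b_JI)` a nonzero term has `g, g'` with `J = I(· + dg g)`,
`I = J(· + dg g') = I(· + dg g + dg g')` and `Θ(g'; g g') ≠ 0`, so `dg g + dg g' = 1`, `I` is
constant (`const_of_shift` in `WH/GBlock.lean`) and `J = I`. -/
structure SpecBLS : Prop where
  one : ∀ (N : ℕ) [NeZero N] (G : Type v) [Group G] (ι : Type) [Fintype ι] [DecidableEq ι],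
    DSt (1 : SR N G ι)
  add : ∀ (N : ℕ) [NeZero N] (G : Type v) [Group G] (ι : Type) [Fintype ι] [DecidableEq ι]
    (a b : SR N G ι), DSt a → DSt b → DSt (a + b) ∧ DSt (a - b)
  mul : ∀ (N : ℕ) [NeZero N] (G : Type v) [Group G] (ι : Type) [Fintype ι] [DecidableEq ι]
    (a b : SR N G ι), DSt a → DSt b → DSt (a * b)
  iB : ∀ (k : Type u) [CommRing k] (N : ℕ) [NeZero N] (r : k →+* ZMod N) (G : Type v) [Group G]
    (ι : Type) [Fintype ι] [DecidableEq ι] (b : TR k G ι N), BD (id : ι → ι) b →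
      DSt (K2.iB k N r G ι b)
  tau : ∀ (N : ℕ) [NeZero N] (G : Type v) [Group G] (ι : Type) [Fintype ι] [DecidableEq ι],
    DSt (tauS N G ι : SR N G ι) ∧ DSt (eS N (tauS N G ι))
  smul : ∀ (N : ℕ) [NeZero N] (G : Type v) [Group G] (ι : Type) [Fintype ι] [DecidableEq ι]
    (l : ι) (a b : SR N G ι), DSt a → sbS l (a * b) = sbS l a * sbS l b
  sone : ∀ (N : ℕ) [NeZero N] (G : Type v) [Group G] (ι : Type) [Fintype ι] [DecidableEq ι]
    (l : ι), sbS l (1 : SR N G ι) = 1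
  sB : ∀ (k : Type u) [CommRing k] (N : ℕ) [NeZero N] (r : k →+* ZMod N) (G : Type v) [Group G]
    (ι : Type) [Fintype ι] [DecidableEq ι] (l : ι) (b : TR k G ι N),
    sbS l (K2.iB k N r G ι b) = K2.iB k N r G Unit (sb (fun _ => l) b)
  stau : ∀ (N : ℕ) [NeZero N] (G : Type v) [Group G] (ι : Type) [Fintype ι] [DecidableEq ι]
    (l : ι), sbS l (tauS N G ι : SR N G ι) = tauS N G Unit ∧
      sbS l (eS N (tauS N G ι)) = eS N (tauS N G Unit)
  sd : ∀ (N : ℕ) [NeZero N] (G : Type v) [Group G] (ι : Type) (l : ι) (a : SR N G ι),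
    sbS l (dS N G ι a) = dS N G Unit (sbS l a) ∧ (DSt a → DSt (dS N G ι a))
  phi : ∀ (N : ℕ) [NeZero N] (G : Type v) [Group G] (ι : Type) [Fintype ι] [DecidableEq ι]
    (Θ : WR N G → WR N G → ZMod N) (_ : ∀ a g, dg g ≠ 1 → Θ a g = 0) (a b : SR N G ι),
    DSt a → DSt b → phiS ι Θ a b = ∑ l : ι, phiS Unit Θ (sbS l a) (sbS l b)

/-- BLK (150 lines, from BLS, F1 and the two `IsDat`).  `EE` is the sum of the `EE` at the constant
words.

PROOF.  `cc(s, t) = Σ_l cc(s_l, t_l)` for units with `DSt s, s⁻¹, t, t⁻¹` (BLS; `s_l⁻¹` is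
`sbS l s⁻¹`), the same for `cm s t`, whose restriction is `cm s_l t_l`.  For `f`: let
`κ := cm s t = 1 + i(q - ρ q) e` (`InK`).  All of `κ`, hence `i(q - ρ q) e` is `DSt`; its part of
degree 0 is `i(q - ρ q)` (see DGR.inj), so the entries of `q - ρ q` off the diagonal are killed by
`jW`; with `q' = tr id q` (`WH/GBlock.lean`: diagonal part, commutes with `rot`),
`i(q' - ρ q') = i(q - ρ q)`, so `κ = 1 + i(q' - ρ q') e`, and by F1
`f(κ) = φ(i(q'(1 + Nm q')), τ) = Σ_l φ(sbS l .., τ) = Σ_l φ(i(q'_l (1 + Nm q'_l)), τ)`,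
`q'_l = sb l q'` (`sb_mul`, `sb_nm` in `WH/GBlock.lean`; `BD id` implies `ClosedR`), and
`κ_l = 1 + i(q'_l - ρ q'_l) e`, so this is `Σ_l f(κ_l)` by F1 for `Unit`. -/
def SpecBLK : Prop :=
  ∀ (k : Type u) [CommRing k] (N : ℕ) [NeZero N] (r : k →+* ZMod N)
    (G : Type v) [Group G] (ι : Type) [Fintype ι] [DecidableEq ι]
    (Θ : WR N G → WR N G → ZMod N) (_ : ∀ a g, dg g ≠ 1 → Θ a g = 0)
    (_ : IsDat N (rot k G ι N) (iB k N r G ι) (tauS N G ι) (dS N G ι) (phiS ι Θ))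
    (_ : IsDat N (rot k G Unit N) (iB k N r G Unit) (tauS N G Unit) (dS N G Unit) (phiS Unit Θ))
    (s t : (SR N G ι)ˣ) (s' t' : ι → (SR N G Unit)ˣ)
    (_ : DSt (s : SR N G ι)) (_ : DSt ((s⁻¹ : (SR N G ι)ˣ) : SR N G ι))
    (_ : DSt (t : SR N G ι)) (_ : DSt ((t⁻¹ : (SR N G ι)ˣ) : SR N G ι))
    (_ : ∀ l, (s' l : SR N G Unit) = sbS l (s : SR N G ι))
    (_ : ∀ l, (t' l : SR N G Unit) = sbS l (t : SR N G ι))
    (_ : InK N (rot k G ι N) (iB k N r G ι) (tauS N G ι) (cm s t)),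
    EE (dS N G ι) (phiS ι Θ) (fK N (rot k G ι N) (iB k N r G ι) (tauS N G ι) (phiS ι Θ)) s t =
      ∑ l, EE (dS N G Unit) (phiS Unit Θ)
        (fK N (rot k G Unit N) (iB k N r G Unit) (tauS N G Unit) (phiS Unit Θ)) (s' l) (t' l)

/-- DIA (120 lines, from BLS, QSB.onto, TDN).  A diagonal matrix `y = diagU u` has a lift `s` which
respects the types, and its blocks `s'_l` are lifts of the `1 × 1` matrices `u_l`.

PROOF.  `b` as in TDN for `y`; `b₁ := tr id b` (diagonal part).  `T(y)`, `D(y)` are diagonal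
(`BD_tens`, `BD_dhat` in `WH/GBlock.lean`), so `T(y)(1 + Nm b₁) = D(y)` (`tr_nm`, `tr` of a product
with a diagonal matrix).  `s` := the unit of QSB.onto, `DSt s` and `DSt s⁻¹` by BLS (the inverse is
given there).  `sbS l s = i(sb T(y)) (1 + i(sb b₁) e)`, `sb T(y) = T(y_l)`, `sb D(y) = D(y_l)`
(`sb_tens`, `sb_dhat`), and `sb` is multiplicative on diagonal matrices. -/
def SpecDIA : Prop :=
  ∀ (k : Type u) [CommRing k] (p e : ℕ) [Fact p.Prime] [NeZero (p ^ e)] [NeZero (p ^ (e + 1))]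
    (r : k →+* ZMod (p ^ (e + 1))) (_ : IsRed k p e r) (G : Type v) [Group G] (ι : Type)
    [Fintype ι] [DecidableEq ι] (Θ : WR (p ^ (e + 1)) G → WR (p ^ (e + 1)) G → ZMod (p ^ (e + 1)))
    (_ : IsDat (p ^ (e + 1)) (rot k G ι (p ^ (e + 1))) (iB k (p ^ (e + 1)) r G ι)
      (tauS (p ^ (e + 1)) G ι) (dS (p ^ (e + 1)) G ι) (phiS ι Θ))
    (y : ι → (MonoidAlgebra k G)ˣ),
    ∃ (s : (SR (p ^ (e + 1)) G ι)ˣ) (s' : ι → (SR (p ^ (e + 1)) G Unit)ˣ),
      DSt (s : SR (p ^ (e + 1)) G ι) ∧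
      DSt ((s⁻¹ : (SR (p ^ (e + 1)) G ι)ˣ) : SR (p ^ (e + 1)) G ι) ∧
      (∀ l, (s' l : SR (p ^ (e + 1)) G Unit) = sbS l (s : SR (p ^ (e + 1)) G ι)) ∧
      InG (p ^ (e + 1)) (rot k G ι (p ^ (e + 1))) (iB k (p ^ (e + 1)) r G ι)
        (tauS (p ^ (e + 1)) G ι) (TT k G ι (p ^ (e + 1))) (DD k G ι p e) (diagU y) s ∧
      ∀ l, InG (p ^ (e + 1)) (rot k G Unit (p ^ (e + 1))) (iB k (p ^ (e + 1)) r G Unit)
        (tauS (p ^ (e + 1)) G Unit) (TT k G Unit (p ^ (e + 1))) (DD k G Unit p e)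
        (diagU fun _ => y l) (s' l)

/-! ### the value in size one -/

/-- DEL (60 lines, abstract).  `s = i(r)(1 + i(b) e)`, `Xi` the inverse of `1 + Nm b`:
`s⁻¹ = (1 - i(b Xi) e) i(r)⁻¹`, `d(s) = i(r) i(b) e'`, `e' = Σ j τ^j`, and
`e i(b) e' = i(Nm b) e' - i(M b) e`, `M(b) = Σ_(j<N) j ρ^j(b) = pp ρ N b`, so
`s⁻¹ d(s) = i(b) e' - i(b Xi)(i(Nm b) e' - i(M b) e) = i(b Xi)(e' + i(M b) e)`
(`b (1 - Xi Nm b) = b Xi`). -/
def SpecDEL : Prop :=
  ∀ (B : Type u) (S : Type v) (H : Type w) [Ring B] [Ring S] [AddCommGroup H] (N : ℕ)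
    (ρ : B →+* B) (i : B →+* S) (τ : Sˣ) (d : S →+ S) (φ : S →+ S →+ H)
    (_ : IsDat N ρ i τ d φ) (s : Sˣ) (r : Bˣ) (b Xi : B) (_ : ρ r = r)
    (_ : (1 + nm ρ N b) * Xi = 1) (_ : Xi * (1 + nm ρ N b) = 1)
    (_ : (s : S) = i r * (1 + i b * eS N τ)),
    ((s⁻¹ : Sˣ) : S) * d s =
      i (b * Xi) * ((∑ j ∈ Finset.range N, j • (τ : S) ^ j) + i (pp ρ N b) * eS N τ)

/-- VLA (120 lines, from THE).  `z` commutes with `φ(C)`, `γ` a word in `C`:
`Θ(z^; γ t) = Θ(z; ∏ γ_j)`, `z^ = (z, .., z)`.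

PROOF.  Let `h = ∏ γ_j` (in the image of the commutative group `C`), `g = φ(γ) t`; `z^ g = g z^`,
`z h = h z`.  If `x c x⁻¹ = h`: let `y_0 = x`, `y_j = γ_j y_(j-1)` for `j = 1, .., N-1`; then
`y w₀ y⁻¹` has the components `y_j y_(j-1)⁻¹ = γ_j` for `j ≠ 0` and `y_0 c y_(N-1)⁻¹ = x c x⁻¹
(γ_1 ⋯ γ_(N-1))⁻¹ = γ_0` at `0`, so `y w₀ y⁻¹ = g` and by THE.val the left side is
`X((y⁻¹ z^ y).left 0) = X(x⁻¹ z x)`, the right side too.  If `v w₀ v⁻¹ = g` then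
`v w₀^N v⁻¹ = g^N`, `w₀^N = (c, .., c)`, `g^N = (h, .., h)`, so `v_0 c v_0⁻¹ = h`; so if `h` is not
conjugate to `c`, both sides are 0 (THE.zero). -/
def SpecVLA : Prop :=
  ∀ (N : ℕ) [NeZero N] (G : Type v) (M : Type w) [Group G] [AddCommGroup M] (c : G) (X : G → M)
    (_ : HomOn c X) (_ : X c = 0) (C : Type v) [CommGroup C] (φ : C →* G) (z : G)
    (_ : ∀ h, z * φ h = φ h * z) (γ : ZMod N → C),
    Th (w0 N c) (XW X) (inW N G fun _ => z) (inW N G (fun j => φ (γ j)) * tW N G) =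
      Th c X z (φ (∏ j, γ j))

/-- The value `Σ_h b_h Θ(z; φ h)` modulo `N`. -/
def vl {k : Type u} [CommRing k] {N : ℕ} (r : k →+* ZMod N) {G C : Type v} [Group G]
    [CommGroup C] (c : G) (X : G → k) (z : G) (φ : C →* G) (b : MonoidAlgebra k C) : ZMod N :=
  b.coeff.sum fun h a => r (a * Th c X z (φ h))

/-- VLC (150 lines, from VLA, THE).  `Z` := the `1 × 1` matrix `z^`.
`φ(Z⁻¹ (i(FT b) τ^j), Z) = vl(mC b)` if `j = 1` in `ℤ/N`, `0` otherwise.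

PROOF.  Additive in `b`; for `b = single γ a` (the only entry): `i(FT b) τ^j = single (φγ t^j) (r a)`
and `φ(z^⁻¹ g, z^) = r(a) Θ(z^; z^⁻¹ g z^) = r(a) Θ(z^; g)`, `g = φ(γ) t^j`, which is `0` if the
degree of `g` is not 1 (elements conjugate to `w₀` have degree 1), and given by VLA if
`t^j = t`; `mC (single γ a) = single (∏ γ) a`. -/
def SpecVLC : Prop :=
  ∀ (k : Type u) [CommRing k] (N : ℕ) [NeZero N] (r : k →+* ZMod N) (G : Type v) [Group G]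
    (c : G) (X : G → k) (_ : HomOn c X) (_ : X c = 0) (C : Type v) [CommGroup C] (φ : C →* G)
    (z : G) (_ : ∀ h, z * φ h = φ h * z) (Z Z' : SR N G Unit)
    (_ : Z = Matrix.of fun _ _ => MonoidAlgebra.single (inW N G fun _ => z) 1)
    (_ : Z' = Matrix.of fun _ _ => MonoidAlgebra.single (inW N G fun _ => z⁻¹) 1)
    (b : TR k C Unit N) (j : ℕ),
    phiS Unit (ThN r c X) (Z' * (iB k N r G Unit (FT φ b) * (tauS N G Unit : SR N G Unit) ^ j)) Z =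
      if (j : ZMod N) = 1 then vl r c X z φ (mC () b) else 0

/-- VLE (60 lines): `(1 + N β) Xi = 1`, `(1 + N β)(1 + N b') = 1`, `N = p^(e+1)`, `p` odd:
`vl(β Xi (1 + N m β)) = - vl(b')`: `vl` is additive and `vl(N y) = 0`; `Xi = 1 + N b'` (units of a
commutative ring), `N(β + b' + N β b') = 0` so `β = - b' - N β b'` (no `p`-torsion). -/
def SpecVLE : Prop :=
  ∀ (k : Type u) [CommRing k] (p e : ℕ) [Fact p.Prime] [NeZero (p ^ (e + 1))]
    (r : k →+* ZMod (p ^ (e + 1))) (_ : IsRed k p e r) (G : Type v) [Group G]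
    (c : G) (X : G → k) (C : Type v) [CommGroup C] (φ : C →* G) (z : G)
    (β Xi b' : MonoidAlgebra k C) (m : ℕ) (_ : (1 + (p ^ (e + 1)) • β) * Xi = 1)
    (_ : (1 + (p ^ (e + 1)) • β) * (1 + (p ^ (e + 1)) • b') = 1),
    vl r c X z φ (β * Xi) + vl r c X z φ (β * Xi * (((p ^ (e + 1)) * m) • β)) =
      - vl r c X z φ b'

/-- VL1 (200 lines, from INV, TDN, CON, QSB.onto, COC, F1, DEL, VLC, VLE).  The value in size one:
for any lifts `s` of `z`, `t` of `y = φ(x)`, `x` a unit of `k[C]`, `z` commuting with `φ(C)`,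
`x^N = Φ(x)^(N/p) (1 + N b)`:  `EE(s, t) = Σ_h b_h Θ(z; φ h)`.

PROOF.  By INV we may choose the lifts.  `s := i(T(z))`, `b = 0`: `T(z) = D(z)` = the `1 × 1` matrix
`z^ = (z, .., z)` (`TT`, `DD` of `diagU`, `dlt` of `1` is `1` for `Unit`).  `t`: TDN for the group `C`
gives `b₀` in `TR k C Unit N` with `T(x)(1 + Nm b₀) = D(x)`; push forward by `FT φ` (`FT_tens`,
`FT_dhat`, `FT_nm` in `WH/GVal.lean`) and QSB.onto: `t = i(T y)(1 + i(FT b₀) e)`.  `s` commutes with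
`t` (`z^` commutes with `φ(γ)` and with `t`): `cm s t = 1`; `d(s) = 0`; so
`EE(s, t) = - cc(t, s) = - φ(s⁻¹ t⁻¹ d(t), s)` (`f(1) = 0` by F1 with `q = 0`; `cc 1 _ = 0`).
DEL: `t⁻¹ d(t) = i(FT(b₀ Xi))(Σ j τ^j + i(FT(M b₀)) Σ τ^j)`, `Xi = D(x)⁻¹ T(x)`.  VLC: only `j = 1`
(`N > 1`): `cc(t, s) = vl(mC(b₀ Xi)) + vl(mC(b₀ Xi M(b₀)))`.  Let `β = mC b₀`; `mC (M b₀) = N m β`
(`mC_pp`, `odd_sum`), `mC(Nm b₀) = N β`, `x^N (1 + N β) = Φ(x)^(N/p)` (`mC_tens`, `mC_dhat`), hence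
`(1 + N β)(1 + N b) = 1`.  VLE gives `cc(t, s) = - vl(b)`. -/
def SpecVL1 : Prop :=
  ∀ (k : Type u) [CommRing k] (p e : ℕ) [Fact p.Prime] (_ : p ≠ 2) [NeZero (p ^ e)]
    [NeZero (p ^ (e + 1))] (r : k →+* ZMod (p ^ (e + 1))) (_ : IsRed k p e r) (G : Type v)
    [Group G] (c : G) (X : G → k) (_ : HomOn c X) (_ : X c = 0) (C : Type v) [CommGroup C]
    (φ : C →* G) (z : G) (_ : ∀ h, z * φ h = φ h * z) (x : (MonoidAlgebra k C)ˣ)
    (y : (MonoidAlgebra k G)ˣ)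
    (_ : y = Units.map (MonoidAlgebra.mapDomainRingHom k φ).toMonoidHom x)
    (b : MonoidAlgebra k C) (_ : (x : MonoidAlgebra k C) ^ (p ^ (e + 1)) =
      (powC k C p x) ^ (p ^ e) * (1 + (p ^ (e + 1)) • b))
    (s t : (SR (p ^ (e + 1)) G Unit)ˣ)
    (_ : InG (p ^ (e + 1)) (rot k G Unit (p ^ (e + 1))) (iB k (p ^ (e + 1)) r G Unit)
        (tauS (p ^ (e + 1)) G Unit) (TT k G Unit (p ^ (e + 1))) (DD k G Unit p e)
        (diagU fun _ => gU k z) s)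
    (_ : InG (p ^ (e + 1)) (rot k G Unit (p ^ (e + 1))) (iB k (p ^ (e + 1)) r G Unit)
        (tauS (p ^ (e + 1)) G Unit) (TT k G Unit (p ^ (e + 1))) (DD k G Unit p e)
        (diagU fun _ => y) t),
    EE (dS (p ^ (e + 1)) G Unit) (phiS Unit (ThN r c X))
      (fK (p ^ (e + 1)) (rot k G Unit (p ^ (e + 1))) (iB k (p ^ (e + 1)) r G Unit)
        (tauS (p ^ (e + 1)) G Unit) (phiS Unit (ThN r c X))) s t = vl r c X z φ b

/-- VLF (100 lines, from VL1, BLK, DIA, INV, QSB, CON).  The value on symbols in size `n + 5`: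
there are lifts `s` of `D_01(z)` and `t` of `D_02(y)` with `EE(s, t) = Σ_h b_h Θ(z; φ h)`.

PROOF.  DIA for `dF 0 1 z` and `dF 0 2 y` gives `s, s'`, `t, t'`; `cm s t` is in `K` by QSB (the two
diagonal matrices commute, `cm` of elements of `Q`).  BLK: `EE(s, t) = Σ_l EE(s'_l, t'_l)`.  For
`l = 0` VL1.  For `l ≠ 0` one of the two entries is `1`, and `EE` of a lift of anything with a lift of
`1` is `0`: by INV replace the lift of `1` by `1` (QSB.one): `cm s 1 = 1`, `cc s 1 = cc 1 s = 0`,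
`f(1) = 0`. -/
def SpecVLF : Prop :=
  ∀ (k : Type u) [CommRing k] (p e : ℕ) [Fact p.Prime] (_ : p ≠ 2) [NeZero (p ^ e)]
    [NeZero (p ^ (e + 1))] (r : k →+* ZMod (p ^ (e + 1))) (_ : IsRed k p e r) (G : Type v)
    [Group G] (c : G) (X : G → k) (_ : HomOn c X) (_ : X c = 0) (C : Type v) [CommGroup C]
    (φ : C →* G) (z : G) (_ : ∀ h, z * φ h = φ h * z) (x : (MonoidAlgebra k C)ˣ)
    (y : (MonoidAlgebra k G)ˣ)
    (_ : y = Units.map (MonoidAlgebra.mapDomainRingHom k φ).toMonoidHom x)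
    (b : MonoidAlgebra k C) (_ : (x : MonoidAlgebra k C) ^ (p ^ (e + 1)) =
      (powC k C p x) ^ (p ^ e) * (1 + (p ^ (e + 1)) • b)) (n : ℕ),
    ∃ s t : (SR (p ^ (e + 1)) G (Fin (n + 5)))ˣ,
      InG (p ^ (e + 1)) (rot k G (Fin (n + 5)) (p ^ (e + 1)))
        (iB k (p ^ (e + 1)) r G (Fin (n + 5))) (tauS (p ^ (e + 1)) G (Fin (n + 5)))
        (TT k G (Fin (n + 5)) (p ^ (e + 1))) (DD k G (Fin (n + 5)) p e)
        (diagU (dF (o0 n) (o1 n) (gU k z))) s ∧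
      InG (p ^ (e + 1)) (rot k G (Fin (n + 5)) (p ^ (e + 1)))
        (iB k (p ^ (e + 1)) r G (Fin (n + 5))) (tauS (p ^ (e + 1)) G (Fin (n + 5)))
        (TT k G (Fin (n + 5)) (p ^ (e + 1))) (DD k G (Fin (n + 5)) p e)
        (diagU (dF (o0 n) (o2 n) y)) t ∧
      EE (dS (p ^ (e + 1)) G (Fin (n + 5))) (phiS (Fin (n + 5)) (ThN r c X))
        (fK (p ^ (e + 1)) (rot k G (Fin (n + 5)) (p ^ (e + 1)))
          (iB k (p ^ (e + 1)) r G (Fin (n + 5))) (tauS (p ^ (e + 1)) G (Fin (n + 5)))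
          (phiS (Fin (n + 5)) (ThN r c X))) s t = vl r c X z φ b

end Pool.Agent.Lib.MPb6f35e.K2
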