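import Pool.Agent.Lib.MP_b6f35e_al.K2.SpecD
import Pool.Agent.Lib.MP_b6f35e_al.WH.SpecR

/-!
# K_2 theorem (MP_b6f35e_al), specification E: p-adic limit, algebra of the tensor product, descent

Captain helper19.  Every statement has its complete proof in the docstring.
-/

set_option autoImplicit false

noncomputable section

namespace Pool.Agent.Lib.MPb6f35e.K2

open Pool.Agent.Lib.MPb6f35e.WH

universe u v w x

/-! ### the limit -/

/-- RED (40 lines): `k = ℤ_p`, `r = PadicInt.toZModPow (e+1)` satisfies `IsRed` (see `L3.tf`,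
`L3.frob` in `WH/L3.lean`; kernel: `PadicInt.ker_toZModPow`). -/
def SpecRED : Prop :=
  ∀ (p : ℕ) [Fact p.Prime] (e : ℕ), IsRed ℤ_[p] p e (PadicInt.toZModPow (e + 1))

/-- EXB (40 lines, from TDN): for a unit `x` of `k[C]`, `C` commutative, there is `b` with
`x^N = Φ(x)^(N/p) (1 + N b)`.
PROOF.  TDN for the `1 × 1` matrix `x`: `T(x)(1 + Nm b₀) = D(x)`; apply `mC ()`:
`x^N (1 + N β) = Φ(x)^(N/p)`, `β = mC b₀` (`mC_tens`, `mC_dhat`, `mC_nm`, `mC_mul` in
`WH/GVal.lean`).  `1 + N β` is a unit, with the inverse `Y = x^N Φ(x)^(-N/p)`, and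
`Y = 1 - N β Y`: `b = - β Y`. -/
def SpecEXB : Prop :=
  ∀ (k : Type u) [CommRing k] (p e : ℕ) [Fact p.Prime] [NeZero (p ^ e)] [NeZero (p ^ (e + 1))]
    (_ : ∀ c : k, (p : k) ∣ c ^ p - c) (C : Type v) [CommGroup C] (x : (MonoidAlgebra k C)ˣ),
    ∃ b : MonoidAlgebra k C, (x : MonoidAlgebra k C) ^ (p ^ (e + 1)) =
      (powC k C p x) ^ (p ^ e) * (1 + (p ^ (e + 1)) • b)

/-- The relation `(∏ {z_j, φ_j(x_j)})^m = 1` in `St_(n+5)(ℤ_p[G])`. -/
def RelSt (p : ℕ) [Fact p.Prime] (G : Type v) [Group G] (n m R : ℕ) (C : Fin R → Type v)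
    [∀ j, CommGroup (C j)] (φ : ∀ j, C j →* G) (z : Fin R → G)
    (x : ∀ j, (MonoidAlgebra ℤ_[p] (C j))ˣ) : Prop :=
  ((List.ofFn fun j => sym (o01 n) (o02 n) (gU ℤ_[p] (z j))
    (Units.map (MonoidAlgebra.mapDomainRingHom ℤ_[p] (φ j)).toMonoidHom (x j))).prod) ^ m = 1

/-- FLV (60 lines, from OME, CON, TDN, VLF, RED): the relation at the finite level `N = p^(e+1)`:
`m Σ_j vl(b_j) = 0` in `ℤ/N`. -/
def SpecFLV : Prop :=
  ∀ (p : ℕ) [Fact p.Prime] (_ : p ≠ 2) (G : Type v) [Group G] (n m R : ℕ) (C : Fin R → Type v)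
    [∀ j, CommGroup (C j)] (φ : ∀ j, C j →* G) (z : Fin R → G) (_ : ∀ j h, z j * φ j h = φ j h * z j)
    (x : ∀ j, (MonoidAlgebra ℤ_[p] (C j))ˣ) (_ : RelSt p G n m R C φ z x)
    (c : G) (X : G → ℤ_[p]) (_ : HomOn c X) (_ : X c = 0) (e : ℕ)
    (b : ∀ j, MonoidAlgebra ℤ_[p] (C j)) (_ : ∀ j, (x j : MonoidAlgebra ℤ_[p] (C j)) ^ (p ^ (e + 1)) =
      (powC ℤ_[p] (C j) p (x j)) ^ (p ^ e) * (1 + (p ^ (e + 1)) • b j)),
    m • ∑ j, vl (PadicInt.toZModPow (e + 1) : ℤ_[p] →+* ZMod (p ^ (e + 1))) c X (z j) (φ j) (b j) =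
      0

/-- LIM (200 lines, from FLV, EXB, `SpecLP`).  `a > 0` with `x_j^a = 1 mod p` for all `j`:
`Σ_j Σ_h Θ(z_j; φ_j h) log(x_j^a)_h = p⁻¹ Σ_j Σ_h Θ(z_j; φ_j(h^p)) log(x_j^a)_h`.

PROOF (copy the limit argument of `specL3P_of` in `WH/L3.lean`).  For every `e`: `b_j` from EXB,
`x_j^(aN) = Φ(x_j^a)^(N/p) (1 + N b_j)^a` and `(1 + N b_j)^a = 1 + N (a b_j + N w)`.  So the element
`b'_j` of `L3.exists_b` for the unit `x_j^a` satisfies `b'_j = a b_j + N w'` (no torsion, units), and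
`m Σ_j vl(b'_j) = 0` modulo `N` by FLV.  `b'_j = p a'_j - Φ(a_j) + N w` with
`log_seq(e+1) = p a'_j`, `log_seq(e) = p a_j` (`L3.lgSeqP_eq`).  The linear functional
`b ↦ Σ_h b_h Θ(z_j; φ_j h)` of `Φ(a)` is `Σ_h a_h Θ(z_j; φ_j(h^p))`.  Let `e → ∞`
(`SpecLP.tends`, `L3.tendsto_pow_mul`), divide by `m`. -/
def SpecLIM : Prop :=
  ∀ (p : ℕ) [Fact p.Prime] (_ : p ≠ 2) (G : Type v) [Group G] (n m R : ℕ) (_ : 0 < m)
    (C : Fin R → Type v) [∀ j, CommGroup (C j)] [∀ j, Fintype (C j)] (φ : ∀ j, C j →* G)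
    (z : Fin R → G) (_ : ∀ j h, z j * φ j h = φ j h * z j)
    (x : ∀ j, (MonoidAlgebra ℤ_[p] (C j))ˣ) (_ : RelSt p G n m R C φ z x)
    (c : G) (X : G → ℤ_[p]) (_ : HomOn c X) (_ : X c = 0) (a : ℕ) (_ : 0 < a)
    (_ : ∀ j, OneModP p ((x j : MonoidAlgebra ℤ_[p] (C j)) ^ a)),
    ∑ j, ∑ h, ((Th c X (z j) (φ j h) : ℤ_[p]) : ℚ_[p]) * lgP p ((x j : MonoidAlgebra ℤ_[p] (C j)) ^ a) h =
      (p : ℚ_[p])⁻¹ * ∑ j, ∑ h, ((Th c X (z j) (φ j (h ^ p)) : ℤ_[p]) : ℚ_[p]) *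
        lgP p ((x j : MonoidAlgebra ℤ_[p] (C j)) ^ a) h

/-- REL (120 lines, from LIM, THE).  If moreover `p` does not divide the orders of the `C_j`, then
`Σ_j Σ_h Θ(z_j; φ_j h) log(x_j^a)_h = 0`.

PROOF.  Call the sum `S(c)` (`X` fixed).  If no `φ_j(h)` is conjugate to `c` all terms vanish.
Otherwise the order of `c` divides some `|C_j|`.  Let `M = ∏ |C_j|` (prime to `p`; `c^M = 1`), `k`
with `p k = 1 mod M`, `c' = c^k`; `c'^p = c`, so `c, c'` have the same centralizer, `HomOn c' X`,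
`X(c') = 0` (`X(c^i) = i X(c)`).  For `h` in `C_j`: `t c t⁻¹ = φ(h)^p` if and only if
`t c' t⁻¹ = φ(h)` (`φ(h) = (φ(h)^p)^k`), so by THE.val `Θ_c(z; φ(h^p)) = Θ_c'(z; φ(h))`, and LIM says
`S(c) = p⁻¹ S(c^k)`.  The same for `c^(k^i)`: `S(c) = p^(-i) S(c^(k^i))` for all `i`; for
`i = totient M > 0`: `k^i = 1 mod M`, `S(c) = p^(-i) S(c)`, `S(c) = 0`. -/
def SpecREL : Prop :=
  ∀ (p : ℕ) [Fact p.Prime] (_ : p ≠ 2) (G : Type v) [Group G] (n m R : ℕ) (_ : 0 < m)
    (C : Fin R → Type v) [∀ j, CommGroup (C j)] [∀ j, Fintype (C j)]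
    (_ : ∀ j, ¬ p ∣ Fintype.card (C j)) (φ : ∀ j, C j →* G)
    (z : Fin R → G) (_ : ∀ j h, z j * φ j h = φ j h * z j)
    (x : ∀ j, (MonoidAlgebra ℤ_[p] (C j))ˣ) (_ : RelSt p G n m R C φ z x)
    (c : G) (X : G → ℤ_[p]) (_ : HomOn c X) (_ : X c = 0) (a : ℕ) (_ : 0 < a)
    (_ : ∀ j, OneModP p ((x j : MonoidAlgebra ℤ_[p] (C j)) ^ a)),
    ∑ j, ∑ h, ((Th c X (z j) (φ j h) : ℤ_[p]) : ℚ_[p]) * lgP p ((x j : MonoidAlgebra ℤ_[p] (C j)) ^ a) h = 0

/-! ### logarithms in `ℤ_p[G]` -/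

/-- All coefficients in `C`. -/
def Supp {R : Type u} [CommRing R] {G : Type v} [Group G] (C : Subgroup G)
    (x : MonoidAlgebra R G) : Prop := ∀ g, x.coeff g ≠ 0 → g ∈ C

/-- LGG (200 lines, from `SpecLP`, `SpecL2P` and: for `y` in `ℤ_p[C]` the sequence `lgSeqP` of the
image of `y` in `ℤ_p[G]` at `c` in `C` is the one of `y`, and `0` at `g` not in `C`).  `C` a finite
cyclic subgroup of `G`; elements of `ℤ_p[G]` with coefficients in `C`. -/
structure SpecLGG : Prop where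
  pull : ∀ (p : ℕ) [Fact p.Prime] (_ : p ≠ 2) (G : Type v) [Group G] (C : Subgroup G)
    (y : MonoidAlgebra ℤ_[p] C) (c : C),
    lgP p (MonoidAlgebra.mapDomainRingHom ℤ_[p] C.subtype y) c = lgP p y c
  out : ∀ (p : ℕ) [Fact p.Prime] (_ : p ≠ 2) (G : Type v) [Group G] (C : Subgroup G)
    (x : MonoidAlgebra ℤ_[p] G) (_ : Supp C x) (g : G) (_ : g ∉ C), lgP p x g = 0
  mul : ∀ (p : ℕ) [Fact p.Prime] (_ : p ≠ 2) (G : Type v) [Group G] (C : Subgroup G)
    (_ : IsCyclic C) (x y : MonoidAlgebra ℤ_[p] G) (_ : Supp C x) (_ : Supp C y)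
    (_ : OneModP p x) (_ : OneModP p y) (g : G), lgP p (x * y) g = lgP p x g + lgP p y g
  inj : ∀ (p : ℕ) [Fact p.Prime] (_ : p ≠ 2) (G : Type v) [Group G] (C : Subgroup G)
    (_ : IsCyclic C) (x : MonoidAlgebra ℤ_[p] G) (_ : Supp C x)
    (_ : OneModP p x) (_ : ∀ g, lgP p x g = 0), x = 1
  conj : ∀ (p : ℕ) [Fact p.Prime] (_ : p ≠ 2) (G : Type v) [Group G]
    (x : MonoidAlgebra ℤ_[p] G) (t g : G),
    lgP p (MonoidAlgebra.single t 1 * x * MonoidAlgebra.single t⁻¹ 1) (t * g * t⁻¹) = lgP p x g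
  nrm : ∀ (p : ℕ) [Fact p.Prime] (_ : p ≠ 2) (R₀ : Type u) [CommRing R₀] (i : R₀ →+* ℤ_[p])
    (G : Type v) [Group G] (C : Subgroup G) (_ : Finite C) (_ : IsCyclic C) (D : Subgroup G)
    (_ : D ≤ C) (x : (MonoidAlgebra R₀ G)ˣ) (_ : Supp C x.val) (_ : Supp C x.inv)
    (_ : OneModP p (MonoidAlgebra.mapRingHom G i x.val)),
    ∃ y : (MonoidAlgebra R₀ G)ˣ, Supp D y.val ∧ Supp D y.inv ∧
      OneModP p (MonoidAlgebra.mapRingHom G i y.val) ∧
      ∃ m : ℕ, 0 < m ∧ ∀ g ∈ D, lgP p (MonoidAlgebra.mapRingHom G i y.val) g =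
        (m : ℚ_[p]) * lgP p (MonoidAlgebra.mapRingHom G i x.val) g

/-! ### the algebra of the tensor product -/

section alg

variable (p : ℕ) [Fact p.Prime] {R₀ : Type u} [CommRing R₀] (i : R₀ →+* ℤ_[p]) {G : Type v}
  [Group G]

/-- `i(u) = 1 mod p` for the unit `u` of a generator. -/
def One1 (y : GenT R₀ G) : Prop := OneModP p (MonoidAlgebra.mapRingHom G i y.u.val)

/-- The logarithm of the unit of a generator. -/
def LG (y : GenT R₀ G) (g : G) : ℚ_[p] := lgP p (MonoidAlgebra.mapRingHom G i y.u.val) g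

/-- `Σ_g Θ(z; g) log(u)_g` -/
def SG (c : G) (X : G → ℤ_[p]) (y : GenT R₀ G) : ℚ_[p] :=
  ∑ᶠ g : G, ((Th c X y.z g : ℤ_[p]) : ℚ_[p]) * LG p i y g

/-- The logarithm is concentrated on the generators of `C`. -/
def Prim (y : GenT R₀ G) : Prop := ∀ g, LG p i y g ≠ 0 → Subgroup.zpowers g = y.C

end alg

/-- The subgroup of the tensor product generated by the `(C, z, u)` with `C` in the set `𝒞` and
hidden `z`. -/
def DSubS (p : ℕ) (R : Type u) [CommRing R] (G : Type v) [Group G] (𝒞 : Set (Subgroup G)) :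
    AddSubgroup (TGrp R G) :=
  AddSubgroup.closure {y | ∃ x : GenT R G, x.C ∈ 𝒞 ∧ Hidden p x.C x.z ∧
    y = D1.cls (RelT R G) x}

/-- TRL (100 lines): consequences of the relations, stated with `GenT` and equalities of the data:
`(C, z^m, u) = m (C, z, u)` and `(C, z, u^m) = m (C, z, u)` for integers `m`, products, inclusion and
conjugation. -/
structure SpecTRL : Prop where
  mulz : ∀ (R : Type u) [CommRing R] (G : Type v) [Group G] (a b y : GenT R G) (_ : a.C = y.C)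
    (_ : b.C = y.C) (_ : a.u = y.u) (_ : b.u = y.u) (_ : y.z = a.z * b.z),
    D1.cls (RelT R G) y = D1.cls (RelT R G) a + D1.cls (RelT R G) b
  mulu : ∀ (R : Type u) [CommRing R] (G : Type v) [Group G] (a b y : GenT R G) (_ : a.C = y.C)
    (_ : b.C = y.C) (_ : a.z = y.z) (_ : b.z = y.z) (_ : y.u = a.u * b.u),
    D1.cls (RelT R G) y = D1.cls (RelT R G) a + D1.cls (RelT R G) b
  zpowz : ∀ (R : Type u) [CommRing R] (G : Type v) [Group G] (a y : GenT R G) (m : ℤ)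
    (_ : a.C = y.C) (_ : a.u = y.u) (_ : y.z = a.z ^ m),
    D1.cls (RelT R G) y = m • D1.cls (RelT R G) a
  zpowu : ∀ (R : Type u) [CommRing R] (G : Type v) [Group G] (a y : GenT R G) (m : ℤ)
    (_ : a.C = y.C) (_ : a.z = y.z) (_ : y.u = a.u ^ m),
    D1.cls (RelT R G) y = m • D1.cls (RelT R G) a
  incl : ∀ (R : Type u) [CommRing R] (G : Type v) [Group G] (a y : GenT R G) (_ : a.C ≤ y.C)
    (_ : a.z = y.z) (_ : a.u = y.u), D1.cls (RelT R G) y = D1.cls (RelT R G) a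
  conj : ∀ (R : Type u) [CommRing R] (G : Type v) [Group G] (a y : GenT R G) (g : G)
    (_ : ∀ h ∈ a.C, g * h * g⁻¹ ∈ y.C) (_ : a.z = g⁻¹ * y.z * g)
    (_ : MonoidAlgebra.single g 1 * a.u.val = y.u.val * MonoidAlgebra.single g 1),
    D1.cls (RelT R G) y = D1.cls (RelT R G) a

/-- MOB (200 lines, from LGG, TRL).  `y` a generator with `i(u) = 1 mod p`: a positive multiple of
its class is a sum of classes of primitive generators over subgroups of `C`, with the same `z`.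

PROOF.  Strong induction on the order of `C` (for all `y`; for all `y` with given `C` at once).  For
every proper subgroup `D` of `C` LGG.nrm gives a unit `y_D` over `D` with
`log(y_D) = m_D log(u)` on `D`, and the induction hypothesis for `(D, z, y_D)` gives in particular a
unit `v'_D` over `D` with `log(v'_D)_g = m'_D log(u)_g` if `g` generates `D`, and `0` otherwise
(the product of the units of those members of the list whose subgroup is `D`: formulate the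
induction for the statement `Q(C)`: for every unit `u` over `C`, `= 1 mod p`, there are `m > 0` and
a unit `v` over `C`, `= 1 mod p`, with `log(v)_g = m log(u)_g` if `g` generates `C`, `0` otherwise).
Raise to powers: the same `m` for all proper `D` and put `v_C = u^m ∏_D v_D⁻¹`; `log(v_C)_g =
m log(u)_g - Σ_D [g generates D] m log(u)_g`, which is `m log(u)_g` if `g` generates `C` and `0`
otherwise.  This proves `Q(C)`, and `m (C, z, u) = (C, z, u^m) = Σ_D (C, z, v_D) = Σ_D (D, z, v_D)`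
(all `D ≤ C`; TRL.mulu, incl), `Σ_D log(v_D)_g = m log(u)_g`. -/
def SpecMOB : Prop :=
  ∀ (p : ℕ) [Fact p.Prime] (_ : p ≠ 2) (R₀ : Type u) [CommRing R₀] (i : R₀ →+* ℤ_[p])
    (G : Type v) [Group G] (y : GenT R₀ G) (_ : One1 p i y),
    ∃ (m : ℕ) (l : List (GenT R₀ G)), 0 < m ∧
      m • D1.cls (RelT R₀ G) y = tsum R₀ G l ∧
      (∀ a ∈ l, a.C ≤ y.C ∧ a.z = y.z ∧ One1 p i a ∧ Prim p i a) ∧
      ∀ g, (l.map fun a => LG p i a g).sum = (m : ℚ_[p]) * LG p i y g

/-- AL5 (200 lines, from LGG, TRL).  All generators over the same `D`, and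
`Σ X(z_a) log(u_a)_g = 0` for all homomorphisms `X : Z_G(D) → ℤ_p` and all `g`: then a multiple of
the sum is in the hidden part.

PROOF.  Induction on the length of the list.  If all `z_a` are hidden, `m = 1`.  Otherwise let `x` be
a member of the list with a homomorphism `χ : Z_G(D) → ℚ`, denominators prime to `p`,
`χ(x.z) ≠ 0`; we may assume `χ(x.z) > 0`.  Let `k > 0` be an integer with `k χ(y.z)` integral for
all `y` in the list, `a := k χ(x.z) > 0`, `a_y := k χ(y.z)` for the other members `y` of the list.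
The relation for `X = χ` (as a function to `ℤ_p`; `0` where the denominator is divisible by `p`)
times `k`: `a log(x.u) + Σ_y a_y log(y.u) = 0`, so `x.u^a ∏ y.u^(a_y) = 1` (LGG.mul, inj; `i` is
injective).  For each `y` let `y' := (D, y.z^a x.z^(-a_y), y.u)`.  Then `a (x + Σ y) =
(D, x.z, x.u^a) + Σ_y a y = Σ_y (a (D, y.z, y.u) - a_y (D, x.z, y.u)) = Σ_y y'`, and
`Σ_y X(y'.z) log(y.u) = a Σ_y X(y.z) log(y.u) - X(x.z) Σ_y a_y log(y.u) =
- a X(x.z) log(x.u) + a X(x.z) log(x.u) = 0`.  Apply the induction hypothesis to the `y'`. -/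
def SpecAL5 : Prop :=
  ∀ (p : ℕ) [Fact p.Prime] (_ : p ≠ 2) (R₀ : Type u) [CommRing R₀] (i : R₀ →+* ℤ_[p])
    (_ : Function.Injective i) (G : Type v) [Group G] (D : Subgroup G) (l : List (GenT R₀ G))
    (_ : ∀ y ∈ l, y.C = D ∧ One1 p i y)
    (_ : ∀ X : G → ℤ_[p], (∀ a b, (∀ h ∈ D, a * h = h * a) → (∀ h ∈ D, b * h = h * b) →
      X (a * b) = X a + X b) → ∀ g, (l.map fun y => (X y.z : ℚ_[p]) * LG p i y g).sum = 0),
    ∃ m : ℕ, 0 < m ∧ m • tsum R₀ G l ∈ DSubS p R₀ G {D}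

/-- AL4 (250 lines, from AL5, LGG, TRL, THE).  All generators primitive over the same `D`, and
`Σ_g Θ(z; g) log(u)_g` summed over the list is `0` for all `c`, `X`: then a multiple of the sum is
in the hidden part.

PROOF.  Let `c₀` be a generator of `D`, `Hc` the finite set of the `h` in `D` conjugate to `c₀` in
`G`; choose `t_h` with `t_h c₀ t_h⁻¹ = h`; then `t_h D t_h⁻¹ = D` (`h` has the order of `c₀`, so
generates `D`).  For `y` in `l`, `h` in `Hc` let `y_h = (D, t_h⁻¹ z t_h, t_h⁻¹ u t_h)`; the class of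
`y_h` is the class of `y` (TRL.conj), so `|Hc| tsum l = Σ_(y,h) y_h`.  Let `X` be a homomorphism on
`Z_G(D)`, `g` in `G`.  If `g` does not generate `D`, then `log(y_h)_g = log(y)_(t_h g t_h⁻¹) = 0`.
If `g = c` generates `D`: `Z_G(c) = Z_G(D)`, so `HomOn c X`, and `X(c) = 0` (finite order, no
torsion in `ℤ_p`).  Write `c = c₀^k`.  The `h'` in `D` conjugate to `c` are the `h^k`, `h` in `Hc`
(`c₀ = c^l`; bijection), `t_h c t_h⁻¹ = h^k`, so `Θ_c(y.z; h^k) = X(t_h⁻¹ y.z t_h) = X(y_h.z)`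
(THE.val) and `Σ_g Θ_c(y.z; g) log(y)_g = Σ_h X(y_h.z) log(y)_(h^k) = Σ_h X(y_h.z) log(y_h)_c`.
Summed over `y`: `0` by hypothesis.  So the list of the `y_h` satisfies the hypothesis of AL5. -/
def SpecAL4 : Prop :=
  ∀ (p : ℕ) [Fact p.Prime] (_ : p ≠ 2) (R₀ : Type u) [CommRing R₀] (i : R₀ →+* ℤ_[p])
    (_ : Function.Injective i) (G : Type v) [Group G] (D : Subgroup G) (l : List (GenT R₀ G))
    (_ : ∀ y ∈ l, y.C = D ∧ One1 p i y ∧ Prim p i y)
    (_ : ∀ (c : G) (X : G → ℤ_[p]), IsOfFinOrder c → HomOn c X →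
      (l.map fun y => SG p i c X y).sum = 0),
    ∃ m : ℕ, 0 < m ∧ m • tsum R₀ G l ∈ DSubS p R₀ G {D}

/-- AL3 (200 lines, from AL4, LGG, TRL, THE).  All generators primitive.

PROOF.  Induction on the length of `l`.  `l = []`: trivial.  Let `D = y.C` for the head `y`; `l₁` =
members with `C` conjugate to `D` (in `G`), `l₂` = the others (`List.filter`, `tsum` is the sum of
both).  Claim: both lists satisfy the hypothesis.  Let `c`, `X` be given.  If
`Subgroup.zpowers c` is conjugate to `D`, then `SG c X y = 0` for `y` in `l₂`: a nonzero term has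
`g` conjugate to `c` and `⟨g⟩ = y.C` (`Prim`), so `y.C` would be conjugate to `D`.  Otherwise
`SG c X y = 0` for all `y` in `l₁`, in the same way.  By induction (`l₂` is shorter) a multiple of
`tsum l₂` is in the hidden part.  For `y` in `l₁` choose `g` with `g D g⁻¹ = y.C`, and let
`y' = (D, g⁻¹ z g, g⁻¹ u g)`: same class (TRL.conj), primitive, `= 1 mod p`, and
`SG c X y' = SG c X y` (`Θ(g⁻¹ z g; h) = Θ(z; g h g⁻¹)` for `h` commuting with `g⁻¹ z g` (THE.val; both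
`0` if `h` is not conjugate to `c`), `log(y')_h = log(y)_(g h g⁻¹)` (LGG.conj), bijection
`h ↦ g h g⁻¹`).  Apply AL4 to the `y'`. -/
def SpecAL3 : Prop :=
  ∀ (p : ℕ) [Fact p.Prime] (_ : p ≠ 2) (R₀ : Type u) [CommRing R₀] (i : R₀ →+* ℤ_[p])
    (_ : Function.Injective i) (G : Type v) [Group G] (l : List (GenT R₀ G))
    (_ : ∀ y ∈ l, One1 p i y ∧ Prim p i y)
    (_ : ∀ (c : G) (X : G → ℤ_[p]), IsOfFinOrder c → HomOn c X →
      (l.map fun y => SG p i c X y).sum = 0),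
    ∃ m : ℕ, 0 < m ∧ m • tsum R₀ G l ∈ DSubS p R₀ G {D | ∃ y ∈ l, D = y.C}

/-- AL2 (100 lines, from AL3, MOB).  The general case.

PROOF.  MOB for every `y` in `l`: `m_y`, `l_y`.  Let `m = ∏ m_y`.  Replace the members `a` of `l_y`
by `(C, z, u^(m / m_y))`; the concatenation `l'` satisfies `m tsum l = tsum l'`,
`Σ_(l') SG = m Σ_l SG = 0`; AL3. -/
def SpecAL2 : Prop :=
  ∀ (p : ℕ) [Fact p.Prime] (_ : p ≠ 2) (R₀ : Type u) [CommRing R₀] (i : R₀ →+* ℤ_[p])
    (_ : Function.Injective i) (G : Type v) [Group G] (l : List (GenT R₀ G))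
    (_ : ∀ y ∈ l, One1 p i y)
    (_ : ∀ (c : G) (X : G → ℤ_[p]), IsOfFinOrder c → HomOn c X →
      (l.map fun y => SG p i c X y).sum = 0),
    ∃ m : ℕ, 0 < m ∧ m • tsum R₀ G l ∈ DSubS p R₀ G {D | ∃ y ∈ l, D ≤ y.C}

/-! ### the theorem -/

/-- DSS (120 lines, from DES): the descended list as a list of generators over `R₀ = ℤ[S]`; `F` is
the map of the tensor products, on the classes. -/
def SpecDSS : Prop :=
  ∀ (R : Type u) [CommRing R] (G : Type v) [Group G] (l : List (GenT R G))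
    (_ : IsOfFinOrder (sprod R G l)),
    ∃ (S : Finset R) (n m : ℕ) (l' : List (GenT (Algebra.adjoin ℤ (S : Set R)) G)), 0 < m ∧
      ((l'.map fun y => sym (o01 n) (o02 n) (gU _ y.z) y.u).prod) ^ m = 1 ∧
      (∃ F : TGrp (Algebra.adjoin ℤ (S : Set R)) G →+ TGrp R G,
        F (tsum _ G l') = tsum R G l ∧
        ∀ (p : ℕ) (𝒞 : Set (Subgroup G)), ∀ y ∈ DSubS p (Algebra.adjoin ℤ (S : Set R)) G 𝒞,
          F y ∈ DSubS p R G 𝒞) ∧
      l'.map (fun y => y.C) = l.map (fun y => y.C)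

/-- PAD (150 lines, from REL, STF, LGG.pull, THE, TRL, AL2).  Over a subring `R₀` of `ℤ_p`, `p` odd
and prime to the orders of the groups `C`.

PROOF.  STF for `R₀[G] → ℤ_p[G]`: the relation holds in `St_(n+5)(ℤ_p[G])`.  For `y` in `l` the
group `↥y.C` is commutative (`IsCyclic.commGroup`) and finite, `i(u)` is the image of a unit `x_y`
of `ℤ_p[y.C]`.  `ℤ_p[y.C] / p` is finite, so there is a common `a > 0` with `x_y^a = 1 mod p`
(exponent of a finite unit group).  REL gives for all `c`, `X` (`X(c) = 0` since `c` has finite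
order): `Σ_y Σ_h Θ(z_y; h) log(x_y^a)_h = 0`, and this is the sum of the `SG` of the list
`l₁ = {(C, z, u^a)}` (LGG.pull, LGG.out).  AL2: `m (tsum l₁) = m a (tsum l)` is in the hidden part. -/
def SpecPAD : Prop :=
  ∀ (p : ℕ) [Fact p.Prime] (_ : p ≠ 2) (R₀ : Type u) [CommRing R₀] (i : R₀ →+* ℤ_[p])
    (_ : Function.Injective i) (G : Type v) [Group G] (l : List (GenT R₀ G))
    (_ : ∀ y ∈ l, ¬ p ∣ Nat.card y.C) (n m : ℕ) (_ : 0 < m)
    (_ : ((l.map fun y => sym (o01 n) (o02 n) (gU R₀ y.z) y.u).prod) ^ m = 1),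
    ∃ m' : ℕ, 0 < m' ∧ m' • tsum R₀ G l ∈ DSubS p R₀ G {D | ∃ y ∈ l, D ≤ y.C}

/-- MNA (60 lines, from DSS, `SpecCAS`, PAD): part (a) of the theorem. -/
def SpecMNA : Prop :=
  ∀ (R : Type u) [CommRing R] [IsDomain R] [CharZero R] (G : Type v) [Group G]
    (l : List (GenT R G)) (_ : IsOfFinOrder (sprod R G l)) (M : ℕ),
    ∃ p, M < p ∧ p.Prime ∧ ∃ m : ℕ, 0 < m ∧
      m • tsum R G l ∈ DSubS p R G {D | ∃ y ∈ l, D ≤ y.C}

/-- HID (120 lines, from TRL): `(C, z, u)` has finite order if `z` has finite order in `Z_G(C)_ab`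
(`z^m` is a product of commutators of `Z_G(C)`, `(C, ·, u)` is a homomorphism on `Z_G(C)`), so
`DSubS p R G 𝒞` is a torsion group if all hidden `z` for `C` in `𝒞` are of this kind; and if
`Z_G(C)_ab` is finitely generated, every hidden `z` is of this kind: a finitely generated abelian
group modulo torsion is free of finite rank, so an element of infinite order has a nonzero image
under a homomorphism to `ℤ`. -/
structure SpecHID : Prop where
  tors : ∀ (R : Type u) [CommRing R] (G : Type v) [Group G] (p : ℕ) (𝒞 : Set (Subgroup G))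
    (_ : ∀ C ∈ 𝒞, Finite C → IsCyclic C → ∀ (z : G) (hz : ∀ h ∈ C, z * h = h * z),
      Hidden p C z → IsOfFinOrder (Abelianization.of
        (⟨z, Subgroup.mem_centralizer_iff.2 fun h hh => (hz h hh).symm⟩ :
          Subgroup.centralizer (C : Set G))))
    (y : TGrp R G) (_ : y ∈ DSubS p R G 𝒞), IsOfFinAddOrder y
  fg : ∀ (G : Type v) [Group G] (p : ℕ) (_ : 1 < p) (C : Subgroup G)
    (_ : Group.FG (Abelianization (Subgroup.centralizer (C : Set G))))
    (z : G) (hz : ∀ h ∈ C, z * h = h * z) (_ : Hidden p C z),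
    IsOfFinOrder (Abelianization.of
        (⟨z, Subgroup.mem_centralizer_iff.2 fun h hh => (hz h hh).symm⟩ :
          Subgroup.centralizer (C : Set G)))

/-- MAI (60 lines, from MNA, HID): the theorem.
(a) from MNA (`DSubS ≤ DSub`).  (b): the subgroups `D ≤ y.C`, `y` in `l`, are finitely many; take
`M` larger than the bounds for all of them, MNA, HID.tors.  (c): (b) with HID.fg. -/
def SpecMAI : Prop :=
  ∀ (R : Type u) [CommRing R] [IsDomain R] [CharZero R] (G : Type v) [Group G]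
    (l : List (GenT R G)) (_ : IsOfFinOrder (sprod R G l)),
    (∀ M : ℕ, ∃ p, M < p ∧ p.Prime ∧ ∃ m : ℕ, 0 < m ∧ m • tsum R G l ∈ DSub R G p) ∧
    ((∀ C : Subgroup G, Finite C → IsCyclic C → ∃ M : ℕ, ∀ p, M < p → p.Prime → ∀ (z : G)
        (hz : ∀ h ∈ C, z * h = h * z), Hidden p C z → IsOfFinOrder (Abelianization.of
        (⟨z, Subgroup.mem_centralizer_iff.2 fun h hh => (hz h hh).symm⟩ :
          Subgroup.centralizer (C : Set G)))) → IsOfFinAddOrder (tsum R G l)) ∧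
    ((∀ C : Subgroup G, Finite C → IsCyclic C →
      Group.FG (Abelianization (Subgroup.centralizer (C : Set G)))) →
        IsOfFinAddOrder (tsum R G l))

end Pool.Agent.Lib.MPb6f35e.K2
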