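import Pool.Agent.Lib.MP_b6f35e_al.K2.SpecD

/-! # Module VLC: the pairing of a constant tuple with a matrix of size one. -/

set_option autoImplicit false

noncomputable section

namespace Pool.Agent.Lib.MPb6f35e.K2

open Pool.Agent.Lib.MPb6f35e.WH

universe u v w x

namespace VLCaux

/-- The only index. -/
abbrev uu (N : ℕ) : ZMod N → Unit := fun _ => ()

lemma eq_uu {N : ℕ} (I : ZMod N → Unit) : I = uu N := rfl

lemma mul_uu {N : ℕ} [NeZero N] {A : Type*} [NonUnitalNonAssocSemiring A]
    (a b : Matrix (ZMod N → Unit) (ZMod N → Unit) A) :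
    (a * b) (uu N) (uu N) = a (uu N) (uu N) * b (uu N) (uu N) := by
  rw [Matrix.mul_apply]
  exact Fintype.sum_eq_single (uu N) fun I hI => absurd (eq_uu I) hI

lemma one_uu {N : ℕ} [NeZero N] {A : Type*} [Semiring A] :
    (1 : Matrix (ZMod N → Unit) (ZMod N → Unit) A) (uu N) (uu N) = 1 := by
  rw [Matrix.one_apply_eq]

lemma pow_uu {N : ℕ} [NeZero N] {A : Type*} [Semiring A]
    (a : Matrix (ZMod N → Unit) (ZMod N → Unit) A) (j : ℕ) :
    (a ^ j) (uu N) (uu N) = (a (uu N) (uu N)) ^ j := by
  induction j with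
  | zero => rw [pow_zero, pow_zero, one_uu]
  | succ j ih => rw [pow_succ, pow_succ, mul_uu, ih]

lemma phi_uu {N : ℕ} [NeZero N] {G : Type v} [Group G] (Θ : WR N G → WR N G → ZMod N)
    (a b : SR N G Unit) :
    phiS Unit Θ a b = phiW Θ (a (uu N) (uu N)) (b (uu N) (uu N)) := by
  rw [phiS_apply, Fintype.sum_eq_single (uu N) fun I hI => absurd (eq_uu I) hI,
    Fintype.sum_eq_single (uu N) fun I hI => absurd (eq_uu I) hI]

lemma tau_uu {N : ℕ} [NeZero N] {G : Type v} [Group G] :
    (tauS N G Unit : SR N G Unit) (uu N) (uu N) = MonoidAlgebra.single (tW N G) 1 := by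
  show (if (uu N : ZMod N → Unit) = sh (uu N) then
    (MonoidAlgebra.single (tW N G) 1 : MonoidAlgebra (ZMod N) (WR N G)) else 0) = _
  rw [if_pos rfl]

lemma dg_mul {N : ℕ} {G : Type v} [Group G] (a b : WR N G) : dg (a * b) = dg a + dg b := rfl

lemma dg_inv {N : ℕ} {G : Type v} [Group G] (a : WR N G) : dg a⁻¹ = - dg a := rfl

lemma dg_conj {N : ℕ} {G : Type v} [Group G] (t a : WR N G) : dg (t * a * t⁻¹) = dg a := by
  rw [dg_mul, dg_mul, dg_inv]
  ring

lemma dg_pow {N : ℕ} {G : Type v} [Group G] (a : WR N G) (j : ℕ) : dg (a ^ j) = j * dg a := by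
  induction j with
  | zero => rw [pow_zero]; simp [dg]
  | succ j ih => rw [pow_succ, dg_mul, ih]; push_cast; ring

lemma dg_t {N : ℕ} {G : Type v} [Group G] : dg (tW N G) = 1 := rfl

lemma dg_in {N : ℕ} {G : Type v} [Group G] (γ : ZMod N → G) : dg (inW N G γ) = 0 := rfl

lemma dg_w0 {N : ℕ} {G : Type v} [Group G] (c : G) : dg (w0 N c) = 1 := rfl

lemma t_pow {N : ℕ} [NeZero N] {G : Type v} [Group G] (j : ℕ) :
    (tW N G) ^ j = SemidirectProduct.inr (Multiplicative.ofAdd (j : ZMod N)) := by
  rw [tW, ← map_pow, ← ofAdd_nsmul]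
  congr 2
  simp

lemma t_pow_one {N : ℕ} [NeZero N] {G : Type v} [Group G] (j : ℕ) (h : (j : ZMod N) = 1) :
    (tW N G) ^ j = tW N G := by
  rw [t_pow, h]
  rfl

lemma t_const {N : ℕ} [NeZero N] {G : Type v} [Group G] (z : G) (j : ℕ) :
    (tW N G) ^ j * inW N G (fun _ => z) = inW N G (fun _ => z) * (tW N G) ^ j := by
  rw [t_pow]
  apply SemidirectProduct.ext
  · funext i
    simp [inW, SemidirectProduct.mul_left]
    rfl
  · simp [inW]

lemma vl_add {k : Type u} [CommRing k] {N : ℕ} (r : k →+* ZMod N) {G C : Type v} [Group G]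
    [CommGroup C] (c : G) (X : G → k) (z : G) (φ : C →* G) (a b : MonoidAlgebra k C) :
    vl r c X z φ (a + b) = vl r c X z φ a + vl r c X z φ b := by
  rw [vl, vl, vl, MonoidAlgebra.coeff_add]
  exact Finsupp.sum_add_index' (fun h => by simp) (fun h x y => by rw [add_mul, map_add])

lemma vl_zero {k : Type u} [CommRing k] {N : ℕ} (r : k →+* ZMod N) {G C : Type v} [Group G]
    [CommGroup C] (c : G) (X : G → k) (z : G) (φ : C →* G) :
    vl r c X z φ 0 = 0 := by
  rw [vl, MonoidAlgebra.coeff_zero]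
  exact Finsupp.sum_zero_index

lemma vl_single {k : Type u} [CommRing k] {N : ℕ} (r : k →+* ZMod N) {G C : Type v} [Group G]
    [CommGroup C] (c : G) (X : G → k) (z : G) (φ : C →* G) (h : C) (a : k) :
    vl r c X z φ (MonoidAlgebra.single h a) = r (a * Th c X z (φ h)) := by
  rw [vl, MonoidAlgebra.coeff_single]
  exact Finsupp.sum_single_index (by simp)

end VLCaux

open VLCaux in
theorem specVLC (hVLA : SpecVLA.{v, u}) (hTHE : SpecTHE.{v, u}) : SpecVLC.{u, v} := by
  intro k _ N _ r G _ c X hX hXc C _ φ z hz Z Z' hZ hZ' b j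
  have hZu : Z (uu N) (uu N) = MonoidAlgebra.single (inW N G fun _ => z) 1 := by rw [hZ]; rfl
  have hZu' : Z' (uu N) (uu N) = MonoidAlgebra.single (inW N G fun _ => z⁻¹) 1 := by
    rw [hZ']; rfl
  rw [phi_uu, mul_uu, mul_uu, pow_uu, tau_uu, hZu, hZu']
  have h1 : iB k N r G Unit (FT φ b) (uu N) (uu N) =
      jW k N r G (MonoidAlgebra.mapDomainRingHom k (φ.compLeft (ZMod N)) (b (uu N) (uu N))) := rfl
  rw [h1, mC]
  have h2 : b (fun _ => ()) (fun _ => ()) = b (uu N) (uu N) := rfl
  rw [h2]
  generalize b (uu N) (uu N) = b₀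
  rw [MonoidAlgebra.single_pow, one_pow]
  induction b₀ using MonoidAlgebra.induction_linear with
  | zero =>
    rw [map_zero, map_zero, map_zero, zero_mul, mul_zero, map_zero, vl_zero]
    simp
  | add f g hf hg =>
    rw [map_add, map_add, map_add, add_mul, mul_add, map_add, AddMonoidHom.add_apply, hf, hg,
      vl_add]
    split_ifs <;> simp
  | single γ a =>
    have h3 : MonoidAlgebra.mapDomainRingHom k (φ.compLeft (ZMod N)) (MonoidAlgebra.single γ a) =
        MonoidAlgebra.single (fun i => φ (γ i)) a := by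
      rw [MonoidAlgebra.mapDomainRingHom_apply, MonoidAlgebra.mapDomain_single]
      rfl
    have h4 : jW k N r G (MonoidAlgebra.single (fun i => φ (γ i)) a) =
        MonoidAlgebra.single (inW N G fun i => φ (γ i)) (r a) := by
      rw [jW, RingHom.comp_apply, MonoidAlgebra.mapRingHom_single,
        MonoidAlgebra.mapDomainRingHom_apply, MonoidAlgebra.mapDomain_single]
    have h5 : MonoidAlgebra.mapDomainRingHom k (prodH C N) (MonoidAlgebra.single γ a) =
        MonoidAlgebra.single (∏ i, γ i) a := by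
      rw [MonoidAlgebra.mapDomainRingHom_apply, MonoidAlgebra.mapDomain_single]
      rfl
    rw [h3, h4, h5, MonoidAlgebra.single_mul_single, MonoidAlgebra.single_mul_single, phiW_single,
      vl_single]
    have h6 : inW N G (fun _ => z⁻¹) * (inW N G (fun i => φ (γ i)) * tW N G ^ j) *
        inW N G (fun _ => z) = inW N G (fun i => φ (γ i)) * tW N G ^ j := by
      have e1 : inW N G (fun i => φ (γ i)) * tW N G ^ j * inW N G (fun _ => z) =
          inW N G (fun _ => z) * (inW N G (fun i => φ (γ i)) * tW N G ^ j) := by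
        rw [mul_assoc, t_const, ← mul_assoc, ← mul_assoc, ← map_mul, ← map_mul]
        congr 2
        funext i
        exact (hz (γ i)).symm
      have e2 : inW N G (fun _ => z⁻¹) * inW N G (fun _ => z) = 1 := by
        rw [← map_mul]
        have : ((fun _ => z⁻¹) * fun _ => z : ZMod N → G) = 1 := by
          funext i
          simp
        rw [this, map_one]
      rw [mul_assoc, e1, ← mul_assoc, e2, one_mul]
    rw [h6]
    split_ifs with hj
    · rw [t_pow_one j hj, ThN, hVLA N G k c X hX hXc C φ z hz γ, map_mul]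
      ring
    · rw [ThN, hTHE.zero (WR N G) k (w0 N c) (XW X) _ _ ?_]
      · simp
      · rintro ⟨t, ht⟩
        apply hj
        have := congrArg dg ht
        rw [dg_conj, dg_w0, dg_mul, dg_in, dg_pow, dg_t, zero_add, mul_one] at this
        exact this.symm

end Pool.Agent.Lib.MPb6f35e.K2
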